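import Mathlib

/-!
# Eigenvalues, and multiplicative relations between Frobenius eigenvalues: definitions
-/

namespace Pool.Agent.R908

section Rel

variable {L : Type*} [Field L]

/-- The members `(a, n)` of the list are pairs of an eigenvalue `a` of the Frobenius endomorphism of
some variety relative to the field with `p ^ n` elements. For some common multiple `N > 0` of the
numbers `n`, the product of the `a ^ (N / n)` is a power of `p`. -/
def FrobRel (p : ℕ) (l : List (L × ℕ)) : Prop :=
  ∃ N J : ℕ, 0 < N ∧ (∀ x ∈ l, x.2 ∣ N) ∧ (l.map (fun x => x.1 ^ (N / x.2))).prod = (p : L) ^ J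

/-- For all lists `l` of members of `S` and `l'` of members of `S'`: if the product of the `a`,
`a ∈ l`, and of the members of `l'` is a power of `p` up to a root of unity (in the sense of
`FrobRel`, the members of `S` being eigenvalues relative to the field with `q = p ^ n` elements), then
the conjugacy classes over `K` of the `q / a`, `a ∈ l`, are those of the `a`, up to order. -/
def BalancedRel (K : Type*) [Field K] [Algebra K L] (p n : ℕ) (S : Set L) (S' : Set (L × ℕ)) :
    Prop :=
  ∀ (l : List L) (l' : List (L × ℕ)), (∀ a ∈ l, a ∈ S) → (∀ y ∈ l', y ∈ S') →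
    FrobRel p (l.map (fun a => (a, n)) ++ l') →
      (l.map (minpoly K)).Perm (l.map (fun a => minpoly K ((p : L) ^ n / a)))

end Rel

section Lin

variable {K : Type*} [Field K] {V : Type*} [AddCommGroup V] [Module K V] {L : Type*} [Field L]
  [Algebra K L]

/-- The number `a` is an eigenvalue of `F` on the subspace `N` (stable under `F`): it is a root of
all polynomials `f` over `K` such that `f(F)` is zero on `N`. -/
def IsEigenvalueOn (F : Module.End K V) (N : Submodule K V) (a : L) : Prop :=
  ∀ f : Polynomial K, (∀ x ∈ N, Polynomial.aeval F f x = 0) → Polynomial.aeval a f = 0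

/-- The operator `F` is semisimple on the subspace `N`: a squarefree polynomial in `F` is zero on
`N`. -/
def SemisimpleOn (F : Module.End K V) (N : Submodule K V) : Prop :=
  ∃ f : Polynomial K, Squarefree f ∧ ∀ x ∈ N, Polynomial.aeval F f x = 0

/-- Every linear operator preserving the subspace `N` and commuting with `F` on `N` agrees on `N`
with a linear combination of members of `E`. -/
def CommutantSpannedOn (F : Module.End K V) (N : Submodule K V) (E : Set (Module.End K V)) :
    Prop :=
  ∀ φ : Module.End K V, (∀ x ∈ N, φ x ∈ N) → (∀ x ∈ N, φ (F x) = F (φ x)) →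
    ∃ ψ ∈ Submodule.span K E, ∀ x ∈ N, ψ x = φ x

/-- The operator `F` multiplies `x` by the number `q`. -/
def IsScaled (F : Module.End K V) (q : ℕ) (x : V) : Prop := F x = (q : K) • x

/-- The graded algebra is generated in degree one: the subspace `gr i` is spanned by products of `i`
members of `gr 1`. -/
def GeneratedInDegreeOne {B : Type*} [Ring B] [Algebra K B] (gr : ℕ → Submodule K B) : Prop :=
  ∀ i, gr i ≤ gr 1 ^ i

/-- The map `f` is the sum of `g` and `h` on the subspace `N`. -/
def IsSumOn {A B : Type*} [AddCommGroup A] [Module K A] [Add B] (N : Submodule K A)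
    (f g h : A → B) : Prop :=
  ∀ x ∈ N, f x = g x + h x

end Lin

end Pool.Agent.R908
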