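import Pool.Agent.H914R2.Weil
import Pool.Agent.R908.RelDefs

/-!
# Varieties whose cohomology behaves like that of an abelian variety: definition
-/

open CategoryTheory AlgebraicGeometry

universe u v

namespace Pool.Agent.R908

open Pool.Agent.H914 Pool.Agent.H914.VarClass Pool.Agent.H914.VarClass.Obj

/-- The cohomology of `A` behaves like that of an abelian variety with the addition `m`: the
pull-back of `x` in `H^1(A)` by `m` is the sum of the pull-backs by the two projections, and
`H^i(A)` is spanned by the products of `i` elements of `H^1(A)`. -/
structure IsAbelianLike {k : Type u} [Field k] {𝒱 : VarClass k} {ops : CycleOps 𝒱}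
    (W : WeilCohomology.{u, v} ops) (A : 𝒱.Obj) (m : A.prod A ⟶ A) : Prop where
  add : IsSumOn (W.gr A 1) (W.map m) (W.map (fst A A)) (W.map (snd A A))
  gen : GeneratedInDegreeOne (W.gr A)

end Pool.Agent.R908
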