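import Pool.Agent.R908.AnisoDefs
import Pool.Agent.R908.AbDefs

/-!
# Abelian varieties without isotropic stable subspaces in the first cohomology: definitions
-/

open CategoryTheory AlgebraicGeometry

universe u v

namespace Pool.Agent.R908

open Pool.Agent.H914 Pool.Agent.H914.VarClass Pool.Agent.H914.VarClass.Obj
  Pool.Agent.H914.WeilCohomology Pool.Agent.H281R3.HT

variable {k : Type u} [Field k] {𝒱 : VarClass k} {ops : CycleOps 𝒱}
  {W : WeilCohomology.{u, v} ops}

/-- The cohomology of `A` behaves like that of an abelian variety with the addition `m`, hard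
Lefschetz holds for the divisor `D`, and all symmetries in `𝒢` multiply the class of `D` by a
non-zero constant. -/
structure IsAbelianType (𝒢 : Set (Symmetry W)) (A : 𝒱.Obj) (m : A.prod A ⟶ A) (D : A.Cycles) :
    Prop where
  abelianLike : IsAbelianLike W A m
  divisor : A.IsCyc 1 D
  lefschetz : HardLefschetz W A D
  scaled : ∀ S ∈ 𝒢, ∃ c : W.K, c ≠ 0 ∧ S.σ A (W.cl A D) = c • W.cl A D

/-- Every non-zero subspace of `H^1(A)` (over the coefficient field of `W`) which is stable under
the algebraic correspondences of degree `0` and under the symmetries in `𝒢` pairs non-trivially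
with itself, by an algebraic correspondence `θ` of some degree: `tr (x * θ y) ≠ 0` for some `x`,
`y` in it. -/
def AnisotropicOne (𝒢 : Set (Symmetry W)) (A : 𝒱.Obj) : Prop :=
  PairsOn (W.gr A 1) (correspondences W A A.dim ∪ {e | ∃ S ∈ 𝒢, e = S.σ A})
    (⋃ p, correspondences W A p) id (fun a b => W.tr A (a * b))

end Pool.Agent.R908
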