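import Pool.Agent.R908.Ret
import Pool.Agent.R908.AbDefs

/-!
# The cohomology of abelian varieties and their first cohomology
-/

open CategoryTheory AlgebraicGeometry TensorProduct Polynomial

universe u v w w'

namespace Pool.Agent.R908

open Pool.Agent.H914 Pool.Agent.H914.VarClass Pool.Agent.H914.VarClass.Obj
  Pool.Agent.H914.WeilCohomology

variable {k : Type u} [Field k] {𝒱 : VarClass k} {ops : CycleOps 𝒱}
  {W : WeilCohomology.{u, v} ops} {A : 𝒱.Obj} {m : A.prod A ⟶ A}

/-- The operators `π i` are the projectors to the degrees `i`. -/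
def IsProjs (W : WeilCohomology.{u, v} ops) (A : 𝒱.Obj) (π : ℕ → (W.H A →ₗ[W.K] W.H A)) : Prop :=
  ∀ i j, ∀ x ∈ W.gr A j, π i x = if i = j then x else 0

lemma KOp.pow {φ : Module.End W.K (W.H A)} (h : φ ∈ KOp W A A 0) (n : ℕ) :
    φ ^ n ∈ KOp W A A 0 := by
  induction n with
  | zero => rw [pow_zero]; exact KOp.id A
  | succ n ih => rw [pow_succ]; exact KOp.cast (KOp.comp ih h) (add_zero 0)

lemma KOp.aeval {φ : Module.End W.K (W.H A)} (h : φ ∈ KOp W A A 0) (f : W.K[X]) :
    Polynomial.aeval φ f ∈ KOp W A A 0 := by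
  rw [aeval_eq_sum_range]
  exact Submodule.sum_mem _ (fun i _ => Submodule.smul_mem _ _ (KOp.pow h i))

lemma aeval_eig {V : Type*} [AddCommGroup V] [Module W.K V] {φ : Module.End W.K V} {x : V}
    {c : W.K} (h : φ x = c • x) (f : W.K[X]) : Polynomial.aeval φ f x = f.eval c • x := by
  induction f using Polynomial.induction_on' with
  | add f g hf hg => rw [map_add, LinearMap.add_apply, hf, hg, eval_add, add_smul]
  | monomial n a =>
    have h1 : ∀ n : ℕ, (φ ^ n) x = c ^ n • x := by
      intro n
      induction n with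
      | zero => rw [pow_zero, pow_zero, one_smul]; rfl
      | succ n ih =>
        rw [pow_succ', Module.End.mul_apply, ih, map_smul, h, smul_smul, pow_succ]
    rw [aeval_monomial, eval_monomial, Module.End.mul_apply, h1, Module.algebraMap_end_apply,
      smul_smul]

/-- The projectors to the degrees are algebraic for abelian varieties. -/
theorem exists_projs (hA : IsAbelianLike W A m) : ∃ π : ℕ → (W.H A →ₗ[W.K] W.H A),
    IsProjs W A π ∧ ∀ i, π i ∈ KOp W A A 0 := by
  classical
  set f : A ⟶ A := diag A ≫ m with hf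
  have hf1 : ∀ x ∈ W.gr A 1, W.map f x = (2 : W.K) • x := by
    intro x hx
    have e1 : diag A ≫ fst A A = 𝟙 A := Obj.lift_fst _ _
    have e2 : diag A ≫ snd A A = 𝟙 A := Obj.lift_snd _ _
    rw [hf, W.map_comp, hA.add x hx, map_add, ← W.map_comp, ← W.map_comp, e1, e2, W.map_id,
      two_smul]
  have hfi : ∀ i, ∀ x ∈ W.gr A 1 ^ i, W.map f x = ((2 : W.K) ^ i) • x := by
    intro i
    induction i with
    | zero =>
      intro x hx
      rw [pow_zero, Submodule.mem_one] at hx
      obtain ⟨c, rfl⟩ := hx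
      rw [AlgHom.commutes, pow_zero, one_smul]
    | succ i ih =>
      intro x hx
      rw [pow_succ'] at hx
      refine Submodule.mul_induction_on hx ?_ ?_
      · intro a ha b hb
        rw [map_mul, hf1 a ha, ih b hb, smul_mul_smul_comm, pow_succ']
      · intro a b ha hb
        rw [map_add, ha, hb, smul_add]
  set v : ℕ → W.K := fun j => (2 : W.K) ^ j with hv
  have hinj : Set.InjOn v (Finset.range (2 * A.dim + 1) : Set ℕ) := by
    intro i _ j _ hij
    have h1 : (2 : W.K) ^ i = (2 : W.K) ^ j := hij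
    have h2 : ((2 ^ i : ℕ) : W.K) = ((2 ^ j : ℕ) : W.K) := by push_cast; exact h1
    exact Nat.pow_right_injective le_rfl (Nat.cast_injective h2)
  refine ⟨fun i => if i ≤ 2 * A.dim then
    Polynomial.aeval (W.map f).toLinearMap (Lagrange.basis (Finset.range (2 * A.dim + 1)) v i)
      else 0, ?_, ?_⟩
  · intro i j x hx
    beta_reduce
    by_cases hj : 2 * A.dim < j
    · rw [W.gr_eq_bot A j hj, Submodule.mem_bot] at hx
      rw [hx, map_zero]
      split_ifs <;> rfl
    · by_cases hi : i ≤ 2 * A.dim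
      · rw [if_pos hi]
        have h1 : (W.map f).toLinearMap x = v j • x := hfi j x (hA.gen j hx)
        rw [aeval_eig h1]
        by_cases hij : i = j
        · subst hij
          rw [Lagrange.eval_basis_self hinj (Finset.mem_range.2 (by omega)), one_smul,
            if_pos rfl]
        · rw [Lagrange.eval_basis_of_ne hij (Finset.mem_range.2 (by omega)), zero_smul,
            if_neg hij]
      · rw [if_neg hi, LinearMap.zero_apply, if_neg (by omega)]
  · intro i
    beta_reduce
    split_ifs
    · exact KOp.aeval (KOp.mapHom f) _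
    · exact Submodule.zero_mem _

section Comp

variable {π : ℕ → (W.H A →ₗ[W.K] W.H A)} (hπ : IsProjs W A π)
include hπ

lemma IsProjs.self {i : ℕ} {x : W.H A} (hx : x ∈ W.gr A i) : π i x = x := by
  rw [hπ i i x hx, if_pos rfl]

lemma IsProjs.ne {i j : ℕ} {x : W.H A} (hx : x ∈ W.gr A j) (h : i ≠ j) : π i x = 0 := by
  rw [hπ i j x hx, if_neg h]

lemma IsProjs.mem {i j : ℕ} {x : W.H A} (hx : x ∈ W.gr A j) : π i x ∈ W.gr A j := by
  rw [hπ i j x hx]
  split_ifs
  · exact hx
  · exact Submodule.zero_mem _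

lemma IsProjs.fst_succ {x : W.H A} (hx : x ∈ W.gr A 1) (a b : ℕ) (z : W.H (A.prod A)) :
    extHom W (π (a + 1)) (π b) (W.map (fst A A) x * z) =
      W.map (fst A A) x * extHom W (π a) (π b) z := by
  refine W.kunneth_induction (p := fun z => extHom W (π (a + 1)) (π b) (W.map (fst A A) x * z) =
      W.map (fst A A) x * extHom W (π a) (π b) z) ?_ ?_ z
  · intro z z' h1 h2
    rw [mul_add, map_add, h1, h2, map_add, mul_add]
  · intro i j u hu v _
    rw [← mul_assoc, ← map_mul, extHom_tmul, extHom_tmul, ← mul_assoc, ← map_mul]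
    have hxu : x * u ∈ W.gr A (i + 1) := by
      rw [add_comm]; exact W.mul_mem hx hu
    by_cases h : a = i
    · subst h
      rw [hπ.self hxu, hπ.self hu]
    · rw [hπ.ne hxu (by omega), hπ.ne hu h, mul_zero]

lemma IsProjs.fst_zero {x : W.H A} (hx : x ∈ W.gr A 1) (b : ℕ) (z : W.H (A.prod A)) :
    extHom W (π 0) (π b) (W.map (fst A A) x * z) = 0 := by
  refine W.kunneth_induction (p := fun z => extHom W (π 0) (π b) (W.map (fst A A) x * z) = 0)
    ?_ ?_ z
  · intro z z' h1 h2
    rw [mul_add, map_add, h1, h2, add_zero]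
  · intro i j u hu v _
    rw [← mul_assoc, ← map_mul, extHom_tmul, hπ.ne (W.mul_mem hx hu) (by omega), map_zero,
      zero_mul]

omit hπ in
lemma snd_fst {x u : W.H A} {i : ℕ} (hx : x ∈ W.gr A 1) (hu : u ∈ W.gr A i) (v : W.H A) :
    W.map (snd A A) x * (W.map (fst A A) u * W.map (snd A A) v) =
      (-1 : W.K) ^ i • (W.map (fst A A) u * W.map (snd A A) (x * v)) := by
  rw [← mul_assoc, W.comm (W.map_mem (snd A A) hx) (W.map_mem (fst A A) hu), smul_mul_assoc,
    mul_assoc, ← map_mul, one_mul]

lemma IsProjs.snd_succ {x : W.H A} (hx : x ∈ W.gr A 1) (a b : ℕ) (z : W.H (A.prod A)) :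
    extHom W (π a) (π (b + 1)) (W.map (snd A A) x * z) =
      W.map (snd A A) x * extHom W (π a) (π b) z := by
  refine W.kunneth_induction (p := fun z => extHom W (π a) (π (b + 1)) (W.map (snd A A) x * z) =
      W.map (snd A A) x * extHom W (π a) (π b) z) ?_ ?_ z
  · intro z z' h1 h2
    rw [mul_add, map_add, h1, h2, map_add, mul_add]
  · intro i j u hu v hv
    rw [snd_fst hx hu, map_smul, extHom_tmul, extHom_tmul, snd_fst hx (hπ.mem hu)]
    congr 3
    have hxv : x * v ∈ W.gr A (j + 1) := by
      rw [add_comm]; exact W.mul_mem hx hv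
    by_cases h : b = j
    · subst h
      rw [hπ.self hxv, hπ.self hv]
    · rw [hπ.ne hxv (by omega), hπ.ne hv h, mul_zero]

lemma IsProjs.snd_zero {x : W.H A} (hx : x ∈ W.gr A 1) (a : ℕ) (z : W.H (A.prod A)) :
    extHom W (π a) (π 0) (W.map (snd A A) x * z) = 0 := by
  refine W.kunneth_induction (p := fun z => extHom W (π a) (π 0) (W.map (snd A A) x * z) = 0)
    ?_ ?_ z
  · intro z z' h1 h2
    rw [mul_add, map_add, h1, h2, add_zero]
  · intro i j u hu v hv
    rw [snd_fst hx hu, map_smul, extHom_tmul, hπ.ne (W.mul_mem hx hv) (by omega), map_zero,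
      mul_zero, smul_zero]

lemma IsProjs.one : extHom W (π 0) (π 0) (1 : W.H (A.prod A)) = 1 := by
  have h1 := extHom_tmul (W := W) (π 0) (π 0) (1 : W.H A) (1 : W.H A)
  rw [hπ.self (W.one_mem A), map_one, map_one, one_mul] at h1
  exact h1

lemma IsProjs.claimA (hA : IsAbelianLike W A m) : ∀ i, ∀ y ∈ W.gr A 1 ^ i,
    extHom W (π 0) (π i) (W.map m y) = W.map (snd A A) y := by
  intro i
  induction i with
  | zero =>
    intro y hy
    rw [pow_zero, Submodule.mem_one] at hy
    obtain ⟨c, rfl⟩ := hy
    rw [Algebra.algebraMap_eq_smul_one, map_smul, map_smul, map_one, hπ.one, map_smul, map_one]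
  | succ i ih =>
    intro y hy
    rw [pow_succ'] at hy
    refine Submodule.mul_induction_on hy ?_ ?_
    · intro x hx y hy
      rw [map_mul, hA.add x hx, add_mul, map_add, hπ.fst_zero hx, zero_add, hπ.snd_succ hx,
        ih y hy, map_mul]
    · intro x y hx hy
      rw [map_add, map_add, hx, hy, map_add]

lemma IsProjs.claimB (hA : IsAbelianLike W A m) : ∀ i, ∀ y ∈ W.gr A 1 ^ (i + 1),
    W.map (diag A) (extHom W (π 1) (π i) (W.map m y)) = ((i + 1 : ℕ) : W.K) • y := by
  have e1 : diag A ≫ fst A A = 𝟙 A := Obj.lift_fst _ _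
  have e2 : diag A ≫ snd A A = 𝟙 A := Obj.lift_snd _ _
  intro i
  induction i with
  | zero =>
    intro y hy
    rw [zero_add, pow_one] at hy
    have h1 : W.map m y = W.map (fst A A) y * 1 + W.map (snd A A) y * 1 := by
      rw [mul_one, mul_one, hA.add y hy]
    rw [h1, map_add, hπ.snd_zero hy, add_zero, hπ.fst_succ hy 0 0, hπ.one, mul_one,
      ← W.map_comp, e1, W.map_id, Nat.cast_one, one_smul]
  | succ i ih =>
    intro y hy
    rw [pow_succ'] at hy
    refine Submodule.mul_induction_on hy ?_ ?_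
    · intro x hx y hy
      rw [map_mul, hA.add x hx, add_mul, map_add, hπ.fst_succ hx 0, hπ.snd_succ hx,
        hπ.claimA hA _ y hy, map_add, map_mul, map_mul, ih y hy, ← W.map_comp, ← W.map_comp,
        ← W.map_comp, e1, e2, W.map_id, W.map_id, mul_smul_comm]
      push_cast
      rw [add_smul, add_smul, add_smul, one_smul, add_comm]
    · intro x y hx hy
      rw [map_add, map_add, map_add, hx, hy, smul_add]

end Comp

/-- **The identity of the cohomology of an abelian variety factors through tensor powers of the first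
cohomology.** -/
theorem id_mem_retOp (hA : IsAbelianLike W A m) {π : ℕ → (W.H A →ₗ[W.K] W.H A)}
    (hπ : IsProjs W A π) (hK : ∀ i, π i ∈ KOp W A A 0) {P : Mot W → Prop}
    (hP : ∀ A B : Mot W, P A → P B → P (A.tensor B)) (h0 : π 0 ∈ RetOp W P A A)
    (h1 : π 1 ∈ RetOp W P A A) : LinearMap.id ∈ RetOp W P A A := by
  classical
  have key : ∀ i, π i ∈ RetOp W P A A := by
    intro i
    induction i with
    | zero => exact h0
    | succ i ih =>
      have e : π (i + 1) = ((i + 1 : ℕ) : W.K)⁻¹ • ((W.map (diag A)).toLinearMap ∘ₗ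
          extHom W (π 1) (π i) ∘ₗ ((W.map m).toLinearMap ∘ₗ π (i + 1))) := by
        apply gr_ext (W.isInternal A)
        intro j x hx
        by_cases hj : i + 1 = j
        · subst hj
          rw [LinearMap.smul_apply, LinearMap.comp_apply, LinearMap.comp_apply,
            LinearMap.comp_apply, hπ.self hx]
          have h2 := hπ.claimB hA i x (hA.gen _ hx)
          change x = _ • W.map (diag A) (extHom W (π 1) (π i) (W.map m x))
          rw [h2, smul_smul, inv_mul_cancel₀ (by exact_mod_cast Nat.succ_ne_zero i), one_smul]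
        · rw [LinearMap.smul_apply, LinearMap.comp_apply, LinearMap.comp_apply,
            LinearMap.comp_apply, hπ.ne hx hj]
          simp only [map_zero, smul_zero]
      rw [e]
      exact Submodule.smul_mem _ _ (RetOp.comp_left (RetOp.comp_right (RetOp.ext hP h1 ih)
        (KOp.comp (KOp.mapHom m) (hK _))) (KOp.mapHom (diag A)))
  have hsum : (LinearMap.id : W.H A →ₗ[W.K] W.H A) = ∑ i ∈ Finset.range (2 * A.dim + 1), π i := by
    apply gr_ext (W.isInternal A)
    intro j x hx
    rw [LinearMap.id_apply, LinearMap.sum_apply]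
    by_cases hj : 2 * A.dim < j
    · rw [W.gr_eq_bot A j hj, Submodule.mem_bot] at hx
      rw [hx]
      simp only [map_zero, Finset.sum_const_zero]
    · rw [Finset.sum_eq_single j, hπ.self hx]
      · intro i _ hij
        exact hπ.ne hx hij
      · intro h
        exact absurd (Finset.mem_range.2 (by omega)) h
  rw [hsum]
  exact Submodule.sum_mem _ (fun i _ => key i)

/-- The projector to degree zero is cut out by algebraic classes. -/
lemma projs_zero_alg {π : ℕ → (W.H A →ₗ[W.K] W.H A)} (hπ : IsProjs W A π) {c : W.H A}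
    (hc : c ∈ spanCycles W A A.dim) (h1 : W.tr A c = 1) (x : W.H A) :
    π 0 x = W.tr A (c * x) • (1 : W.H A) := by
  have e : π 0 = (W.tr A ∘ₗ LinearMap.mulLeft W.K c).smulRight (1 : W.H A) := by
    apply gr_ext (W.isInternal A)
    intro j x hx
    rw [LinearMap.smulRight_apply, LinearMap.comp_apply, LinearMap.mulLeft_apply]
    by_cases hj : 0 = j
    · subst hj
      rw [hπ.self hx]
      rw [W.gr_zero A, Submodule.mem_span_singleton] at hx
      obtain ⟨r, rfl⟩ := hx
      rw [mul_smul_comm, map_smul, mul_one, h1, smul_eq_mul, mul_one]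
    · rw [hπ.ne hx hj]
      have h2 := spanCycles_deg hc
      rw [show (2 * ((A.dim : ℕ) : ℤ)) = ((2 * A.dim : ℕ) : ℤ) by push_cast; ring,
        grZ_natCast] at h2
      rw [W.tr_eq_zero (W.mul_mem h2 hx) (by omega), zero_smul]
  rw [e]
  rfl

end Pool.Agent.R908
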