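import Pool.Agent.R908.Num

/-!
# Semilinear automorphisms of a Weil cohomology theory and their action on direct factors
-/

open CategoryTheory AlgebraicGeometry Finset TensorProduct

universe u v w

namespace Pool.Agent.R908

open Pool.Agent.H914 Pool.Agent.H914.VarClass Pool.Agent.H914.VarClass.Obj
  Pool.Agent.H914.WeilCohomology

variable {k : Type u} [Field k] {𝒱 : VarClass k} {ops : CycleOps 𝒱}
  {W : WeilCohomology.{u, v} ops} {X Y Z X' Y' Z' X'' Y'' : 𝒱.Obj}

/-- A semilinear automorphism of a Weil cohomology theory, which fixes the classes of cycles. -/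
structure SemiAut (W : WeilCohomology.{u, v} ops) where
  /-- the automorphism of the coefficient field -/
  τ : W.K ≃+* W.K
  /-- the automorphism of the cohomology -/
  σ : ∀ X, W.H X ≃+ W.H X
  smul : ∀ {X : 𝒱.Obj} (c : W.K) (a : W.H X), σ X (c • a) = τ c • σ X a
  mul : ∀ {X : 𝒱.Obj} (a b : W.H X), σ X (a * b) = σ X a * σ X b
  map : ∀ {X Y : 𝒱.Obj} (f : X ⟶ Y) (a : W.H Y), σ X (W.map f a) = W.map f (σ Y a)
  push : ∀ {X Y : 𝒱.Obj} (f : X ⟶ Y) (a : W.H X), σ Y (W.push f a) = W.push f (σ X a)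
  tr : ∀ {X : 𝒱.Obj} (a : W.H X), W.tr X (σ X a) = τ (W.tr X a)
  cl : ∀ {X : 𝒱.Obj} (z : X.Cycles), σ X (W.cl X z) = W.cl X z

namespace SemiAut

variable (S : SemiAut W)

lemma symm_smul (c : W.K) (a : W.H X) :
    (S.σ X).symm (c • a) = S.τ.symm c • (S.σ X).symm a := by
  rw [AddEquiv.symm_apply_eq, S.smul, RingEquiv.apply_symm_apply, AddEquiv.apply_symm_apply]

lemma symm_map (f : X ⟶ Y) (a : W.H Y) :
    (S.σ X).symm (W.map f a) = W.map f ((S.σ Y).symm a) := by
  rw [AddEquiv.symm_apply_eq, S.map, AddEquiv.apply_symm_apply]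

lemma symm_mul (a b : W.H X) :
    (S.σ X).symm (a * b) = (S.σ X).symm a * (S.σ X).symm b := by
  rw [AddEquiv.symm_apply_eq, S.mul, AddEquiv.apply_symm_apply, AddEquiv.apply_symm_apply]

/-- The conjugate of a linear map. -/
def conj (F : W.H X →ₗ[W.K] W.H Y) : W.H X →ₗ[W.K] W.H Y where
  toFun a := S.σ Y (F ((S.σ X).symm a))
  map_add' a b := by rw [map_add, map_add, map_add]
  map_smul' c a := by
    rw [symm_smul, map_smul, S.smul, RingEquiv.apply_symm_apply, RingHom.id_apply]

lemma conj_apply (F : W.H X →ₗ[W.K] W.H Y) (a : W.H X) :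
    S.conj F a = S.σ Y (F ((S.σ X).symm a)) := rfl

lemma conj_σ (F : W.H X →ₗ[W.K] W.H Y) (a : W.H X) :
    S.conj F (S.σ X a) = S.σ Y (F a) := by
  rw [conj_apply, AddEquiv.symm_apply_apply]

lemma conj_comp (F : W.H X →ₗ[W.K] W.H Y) (G : W.H Y →ₗ[W.K] W.H Z) :
    S.conj G ∘ₗ S.conj F = S.conj (G ∘ₗ F) := by
  apply LinearMap.ext
  intro a
  rw [LinearMap.comp_apply, conj_apply, conj_apply, conj_apply, AddEquiv.symm_apply_apply,
    LinearMap.comp_apply]

lemma conj_mem {δ : ℤ} {F : W.H X →ₗ[W.K] W.H Y} (hF : F ∈ KOp W X Y δ) :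
    S.conj F ∈ KOp W X Y δ := by
  induction hF using Submodule.span_induction with
  | mem F hF =>
    obtain ⟨p, hp, z, hz, rfl⟩ := hF
    have h1 : S.conj (W.corr (W.cl _ z)) = W.corr (W.cl _ z) := by
      apply LinearMap.ext
      intro a
      rw [conj_apply, corr_apply, S.push, S.mul, S.cl, S.map, AddEquiv.apply_symm_apply,
        corr_apply]
    rw [h1]
    exact KOp.gen hp hz
  | zero =>
    have h1 : S.conj (0 : W.H X →ₗ[W.K] W.H Y) = 0 := by
      apply LinearMap.ext
      intro a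
      rw [conj_apply, LinearMap.zero_apply, map_zero, LinearMap.zero_apply]
    rw [h1]
    exact Submodule.zero_mem _
  | add F G _ _ h1 h2 =>
    have h3 : S.conj (F + G) = S.conj F + S.conj G := by
      apply LinearMap.ext
      intro a
      rw [conj_apply, LinearMap.add_apply, map_add, LinearMap.add_apply, conj_apply, conj_apply]
    rw [h3]
    exact Submodule.add_mem _ h1 h2
  | smul c F _ h1 =>
    have h3 : S.conj (c • F) = S.τ c • S.conj F := by
      apply LinearMap.ext
      intro a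
      rw [conj_apply, LinearMap.smul_apply, S.smul, LinearMap.smul_apply, conj_apply]
    rw [h3]
    exact Submodule.smul_mem _ _ h1

lemma conj_extHom (F : W.H X →ₗ[W.K] W.H X') (G : W.H Y →ₗ[W.K] W.H Y') :
    S.conj (extHom W F G) = extHom W (S.conj F) (S.conj G) := by
  apply ext_kunneth_lin
  intro a b
  rw [conj_apply, symm_mul, symm_map, symm_map, extHom_tmul, S.mul, S.map, S.map, extHom_tmul,
    conj_apply, conj_apply]

lemma σ_span {j : ℤ} {x : W.H X} (hx : x ∈ spanCycles W X j) :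
    S.σ X x ∈ spanCycles W X j := by
  induction hx using Submodule.span_induction with
  | mem x hx =>
    obtain ⟨p, hp, z, hz, rfl⟩ := hx
    rw [S.cl]
    exact Submodule.subset_span ⟨p, hp, z, hz, rfl⟩
  | zero => rw [map_zero]; exact Submodule.zero_mem _
  | add x y _ _ hx hy => rw [map_add]; exact Submodule.add_mem _ hx hy
  | smul c x _ hx => rw [S.smul]; exact Submodule.smul_mem _ _ hx

lemma σ_symm_span {j : ℤ} {x : W.H X} (hx : x ∈ spanCycles W X j) :
    (S.σ X).symm x ∈ spanCycles W X j := by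
  induction hx using Submodule.span_induction with
  | mem x hx =>
    obtain ⟨p, hp, z, hz, rfl⟩ := hx
    have h1 : (S.σ X).symm (W.cl X z) = W.cl X z := by
      rw [AddEquiv.symm_apply_eq, S.cl]
    rw [h1]
    exact Submodule.subset_span ⟨p, hp, z, hz, rfl⟩
  | zero => rw [map_zero]; exact Submodule.zero_mem _
  | add x y _ _ hx hy => rw [map_add]; exact Submodule.add_mem _ hx hy
  | smul c x _ hx => rw [symm_smul]; exact Submodule.smul_mem _ _ hx

lemma σ_numTriv {x : W.H X} (hx : NumTriv W X x) : NumTriv W X (S.σ X x) := by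
  intro j g hg
  have h1 : S.σ X x * g = S.σ X (x * (S.σ X).symm g) := by
    rw [S.mul, AddEquiv.apply_symm_apply]
  rw [h1, S.tr, hx _ _ (S.σ_symm_span hg), map_zero]

/-- The conjugate of a direct factor. -/
def mot (A : Mot W) : Mot W where
  X := A.X
  e := S.conj A.e
  mem := S.conj_mem A.mem
  idem := by rw [conj_comp, A.idem]

lemma mot_eqv {A B : Mot W} (h : A.Eqv B) : (S.mot A).Eqv (S.mot B) := by
  obtain ⟨δ, f, g, hf, hg, h1, h2⟩ := h
  exact ⟨δ, S.conj f, S.conj g, S.conj_mem hf, S.conj_mem hg,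
    (S.conj_comp f g).trans (by rw [h1]; rfl), (S.conj_comp g f).trans (by rw [h2]; rfl)⟩

lemma mot_tensor (A B : Mot W) : S.mot (A.tensor B) = (S.mot A).tensor (S.mot B) := by
  have h1 : S.conj (extHom W A.e B.e) = extHom W (S.conj A.e) (S.conj B.e) :=
    S.conj_extHom A.e B.e
  simp only [mot, Mot.tensor, h1]

lemma num_of_mot {A : Mot W} (h : (S.mot A).Num) : A.Num := by
  intro j x hx hn
  have h1 := h j (S.σ A.X x) (S.σ_span hx) (S.σ_numTriv hn)
  change S.conj A.e (S.σ A.X x) = 0 at h1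
  rw [conj_σ] at h1
  exact (map_eq_zero_iff _ (S.σ A.X).injective).1 h1

/-- The action on the classes. -/
noncomputable def clsHom : Cls W →ₙ* Cls W where
  toFun := Quotient.map S.mot (fun _ _ h => S.mot_eqv h)
  map_mul' := by
    rintro ⟨A⟩ ⟨B⟩
    change Mot.cls (S.mot (A.tensor B)) = Mot.cls ((S.mot A).tensor (S.mot B))
    rw [mot_tensor]

/-- The action on the monoid of classes. -/
noncomputable def onM : Mon W →* Mon W := WithOne.mapMulHom S.clsHom

lemma onM_m (A : Mot W) : S.onM A.m = (S.mot A).m := rfl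

lemma mnum_of_onM {m : Mon W} (h : MNum (S.onM m)) : MNum m := by
  rcases mon_cases m with rfl | ⟨A, rfl⟩
  · exact mnum_one
  · rw [onM_m, mnum_m] at h
    exact mnum_m.2 (S.num_of_mot h)

/-- The conjugate of a linear form. -/
def form (f : W.H X →ₗ[W.K] W.K) : W.H X →ₗ[W.K] W.K where
  toFun a := S.τ.symm (f (S.σ X a))
  map_add' a b := by rw [map_add, map_add, map_add]
  map_smul' c a := by
    rw [S.smul, map_smul, smul_eq_mul, map_mul, RingEquiv.symm_apply_apply,
      RingHom.id_apply, smul_eq_mul]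

lemma contr {A B : Mot W} (h : A.Contr B) : (S.mot A).Contr (S.mot B) := by
  obtain ⟨j, h⟩ := h
  refine ⟨j, fun (f : W.H A.X →ₗ[W.K] W.K) (g : W.H B.X →ₗ[W.K] W.K) => ?_⟩
  set f' : W.H A.X →ₗ[W.K] W.K := S.form f with hf'
  set g' : W.H B.X →ₗ[W.K] W.K := S.form g with hg'
  obtain ⟨c, hc, h1⟩ := h f' g'
  refine ⟨S.σ (A.X.prod B.X) c, S.σ_span hc, ?_⟩
  intro (x : W.H A.X) (y : W.H B.X)
  change W.tr (A.X.prod B.X) (S.σ (A.X.prod B.X) c * (W.map (fst A.X B.X) x *
    W.map (snd A.X B.X) y)) = f (S.σ A.X (A.e ((S.σ A.X).symm x))) *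
      g (S.σ B.X (B.e ((S.σ B.X).symm y)))
  have h2 : S.σ (A.X.prod B.X) c * (W.map (fst A.X B.X) x * W.map (snd A.X B.X) y) =
      S.σ (A.X.prod B.X) (c * (W.map (fst A.X B.X) ((S.σ A.X).symm x) *
        W.map (snd A.X B.X) ((S.σ B.X).symm y))) := by
    rw [S.mul, S.mul, S.map, S.map, AddEquiv.apply_symm_apply, AddEquiv.apply_symm_apply]
  rw [h2, S.tr, h1, map_mul]
  change S.τ (S.τ.symm _) * S.τ (S.τ.symm _) = _
  rw [RingEquiv.apply_symm_apply, RingEquiv.apply_symm_apply]

end SemiAut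

/-- An action of the group `Γ` on a Weil cohomology theory by semilinear automorphisms. -/
structure SemiAct (Γ : Type w) [Group Γ] (W : WeilCohomology.{u, v} ops) where
  /-- the automorphisms -/
  act : Γ → SemiAut W
  one : ∀ (X : 𝒱.Obj) (a : W.H X), (act 1).σ X a = a
  mul : ∀ (g h : Γ) (X : 𝒱.Obj) (a : W.H X),
    (act (g * h)).σ X a = (act g).σ X ((act h).σ X a)

namespace SemiAct

variable {Γ : Type w} [Group Γ] (S : SemiAct Γ W)

lemma mot_one (A : Mot W) : (S.act 1).mot A = A := by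
  have h1 : (S.act 1).conj A.e = A.e := by
    apply LinearMap.ext
    intro a
    rw [SemiAut.conj_apply, S.one]
    congr 1
    rw [AddEquiv.symm_apply_eq, S.one]
  cases A
  simp only [SemiAut.mot, Mot.mk.injEq, heq_eq_eq, true_and]
  exact h1

lemma symm_mul (g h : Γ) (X : 𝒱.Obj) (a : W.H X) :
    ((S.act (g * h)).σ X).symm a = ((S.act h).σ X).symm (((S.act g).σ X).symm a) := by
  rw [AddEquiv.symm_apply_eq, S.mul, AddEquiv.apply_symm_apply, AddEquiv.apply_symm_apply]

lemma mot_mul (g h : Γ) (A : Mot W) : (S.act (g * h)).mot A = (S.act g).mot ((S.act h).mot A) := by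
  have h1 : (S.act (g * h)).conj A.e = (S.act g).conj ((S.act h).conj A.e) := by
    apply LinearMap.ext
    intro a
    rw [SemiAut.conj_apply, SemiAut.conj_apply, SemiAut.conj_apply, S.symm_mul, S.mul]
  simp only [SemiAut.mot, h1]

/-- The action on the monoid of classes. -/
noncomputable abbrev mulAction : MulDistribMulAction Γ (Mon W) where
  smul g m := (S.act g).onM m
  one_smul m := by
    rcases mon_cases m with rfl | ⟨A, rfl⟩
    · exact map_one (S.act 1).onM
    · change (S.act 1).onM A.m = A.m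
      rw [SemiAut.onM_m, S.mot_one]
  mul_smul g h m := by
    rcases mon_cases m with rfl | ⟨A, rfl⟩
    · change (S.act (g * h)).onM 1 = (S.act g).onM ((S.act h).onM 1)
      rw [map_one, map_one, map_one]
    · change (S.act (g * h)).onM A.m = (S.act g).onM ((S.act h).onM A.m)
      rw [SemiAut.onM_m, SemiAut.onM_m, SemiAut.onM_m, S.mot_mul]
  smul_mul g m n := map_mul (S.act g).onM m n
  smul_one g := map_one (S.act g).onM

end SemiAct

end Pool.Agent.R908
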