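import Pool.Agent.H281R3.HT.FDef
import Pool.Agent.H914R2.KDefs

/-!
# Symmetries of a Weil cohomology theory: definitions
-/

open CategoryTheory AlgebraicGeometry

universe u v

namespace Pool.Agent.R908

open Pool.Agent.H914 Pool.Agent.H914.VarClass Pool.Agent.H914.VarClass.Obj
  Pool.Agent.H914.WeilCohomology Pool.Agent.H281R3.HT

/-- The automorphism `σ` of the algebra `A` preserves the degrees, and multiplies the orientation by
the non-zero constant `c`. -/
structure IsSimilitude {K : Type*} [Field K] {A : Type*} [Ring A] [Algebra K A]
    (gr : ℕ → Submodule K A) (tr : A →ₗ[K] K) (σ : A ≃ₐ[K] A) (c : K) : Prop where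
  ne_zero : c ≠ 0
  gr : ∀ i a, σ a ∈ gr i ↔ a ∈ gr i
  tr : ∀ a, tr (σ a) = c * tr a

/-- The map `φ` is multiplication by `(-1) ^ i` on the elements of degree `i` of the subspace `T`. -/
def IsSignOn {K : Type*} [Field K] {A : Type*} [AddCommGroup A] [Module K A]
    (gr : ℕ → Submodule K A) (T : Submodule K A) (φ : A → A) : Prop :=
  ∀ i, ∀ a ∈ gr i, a ∈ T → φ a = (-1 : K) ^ i • a

variable {k : Type u} [Field k] {𝒱 : VarClass k} {ops : CycleOps 𝒱}

/-- The automorphism `σ` preserves, for all `p`, the space of `K`-linear combinations of classes of
algebraic cycles of codimension `p`. -/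
def PreservesCycles (W : WeilCohomology.{u, v} ops) (X : 𝒱.Obj) (σ : W.H X ≃ₐ[W.K] W.H X) : Prop :=
  ∀ (p : ℕ) (a : W.H X), σ a ∈ spanCycles W X p ↔ a ∈ spanCycles W X p

/-- The families of automorphisms of the algebras `H(X)` over the coefficient field. -/
abbrev AutFamily (W : WeilCohomology.{u, v} ops) := ∀ X : 𝒱.Obj, W.H X ≃ₐ[W.K] W.H X

/-- The family of automorphisms is compatible with the projections of products. -/
def IsMonoidal (W : WeilCohomology.{u, v} ops) (σ : AutFamily W) : Prop :=
  ∀ X Y : 𝒱.Obj, Intertwines (σ X) (σ (X.prod Y)) (W.map (fst X Y)) ∧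
    Intertwines (σ Y) (σ (X.prod Y)) (W.map (snd X Y))

/-- A symmetry of a Weil cohomology theory: a family of automorphisms `σ` of the graded algebras
`H(X)` over the coefficient field `K`, compatible with the two projections of a product, which
preserves the spaces of `K`-linear combinations of classes of algebraic cycles, and multiplies the
orientation of `X` by a non-zero constant `c X`. For instance all varieties in the class have models
over a subfield `k₀` of `k`, and `σ` is the action of an element of the Galois group of `k₀` on the
`ℓ`-adic cohomology. -/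
structure Symmetry (W : WeilCohomology.{u, v} ops) where
  /-- the automorphisms -/
  σ : AutFamily W
  /-- the multipliers -/
  c : 𝒱.Obj → W.K
  sim : ∀ X, IsSimilitude (W.gr X) (W.tr X) (σ X) (c X)
  monoidal : IsMonoidal W σ
  cycles : ∀ X, PreservesCycles W X (σ X)

variable {W : WeilCohomology.{u, v} ops}

/-- Every non-zero subspace of the transcendental cohomology of `X` (over the coefficient field of
`W`) which is stable under the algebraic correspondences of degree `0` and under the symmetries in
`𝒢` pairs non-trivially with itself, by an algebraic correspondence `θ` of some degree: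
`tr (x * θ y) ≠ 0` for some `x`, `y` in it. -/
def Anisotropic (𝒢 : Set (Symmetry W)) (X : 𝒱.Obj) : Prop :=
  PairsOn (transcendental W X) (correspondences W X X.dim ∪ {e | ∃ S ∈ 𝒢, e = S.σ X})
    (⋃ p, correspondences W X p) id (fun a b => W.tr X (a * b))

/-- Some `K`-linear combination of algebraic correspondences of degree `0` is multiplication by
`(-1) ^ i` on the classes of degree `i` in the transcendental cohomology of `X`. -/
def SignAlgebraic (W : WeilCohomology.{u, v} ops) (X : 𝒱.Obj) : Prop :=
  ∃ γ ∈ spanCycles W (X.prod X) X.dim, IsSignOn (W.gr X) (transcendental W X) (W.corr γ)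

end Pool.Agent.R908
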