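import Pool.Agent.R908.ConjDefs
import Pool.Agent.R908.AbAnisoDefs

/-!
# Block systems, and balanced labels: definitions
-/

open CategoryTheory AlgebraicGeometry

universe u v

namespace Pool.Agent.R908

open Pool.Agent.H914 Pool.Agent.H914.VarClass Pool.Agent.H914.VarClass.Obj
  Pool.Agent.H914.WeilCohomology

/-- The subspace `T` is the direct sum of the images of the orthogonal idempotents `p l`, which are
`K`-linear combinations of the operators in `C`; the adjoint of `p l` for the form `β` is
`p (bar l)`; and the images of the `p l` are irreducible under `C` and `G`: every subspace of `T`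
which is stable under these and contains a nonzero element of the image of `p l` contains the whole
image. -/
structure IsBlockSystem {K : Type*} [Field K] {V : Type*} [AddCommGroup V] [Module K V]
    (T : Submodule K V) (β : V → V → K) (C : Set (Module.End K V)) (G : Set (V → V))
    {Λ : Type} [Fintype Λ] (bar : Λ → Λ) (p : Λ → Module.End K V) : Prop where
  algebraic : ∀ l, p l ∈ Submodule.span K C
  sum : ∀ x ∈ T, ∑ l, p l x = x
  idem : ∀ l, ∀ x ∈ T, p l (p l x) = p l x
  ortho : ∀ l l', l ≠ l' → ∀ x ∈ T, p l (p l' x) = 0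
  involutive : ∀ l, bar (bar l) = l
  adjoint : ∀ l, ∀ x ∈ T, ∀ y ∈ T, β (p l x) y = β x (p (bar l) y)
  irreducible : ∀ U : Submodule K V, U ≤ T → (∀ φ ∈ C, ∀ x ∈ U, φ x ∈ U) →
    (∀ σ ∈ G, ∀ x ∈ U, σ x ∈ U) → ∀ l, (∃ x ∈ U, x ≠ 0 ∧ p l x = x) → ∀ y ∈ T, p l y = y → y ∈ U

/-- The labels `l 0, …, l (n - 1)` are balanced: they form the same multiset as the conjugate labels
`bar (l 0), …, bar (l (n - 1))`. -/
def BalancedLabels {Λ : Type} (bar : Λ → Λ) {n : ℕ} (l : Fin n → Λ) : Prop :=
  Finset.univ.val.map l = Finset.univ.val.map fun i => bar (l i)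

/-- The elements `t i` of the subspace `N` are in the images of the idempotents `p (l i)`. -/
def InBlocks {K : Type*} [Field K] {V : Type*} [AddCommGroup V] [Module K V] (N : Submodule K V)
    {Λ : Type} (p : Λ → Module.End K V) {n : ℕ} (l : Fin n → Λ) (t : Fin n → V) : Prop :=
  ∀ i, t i ∈ N ∧ p (l i) (t i) = t i

/-- The form `x, y ↦ tr (x ξ ^ n y)`. -/
def trForm {K B : Type*} [Field K] [Ring B] [Algebra K B] (tr : B →ₗ[K] K) (ξ : B) (n : ℕ)
    (x y : B) : K :=
  tr (x * (ξ ^ n * y))

/-- The value of `c` on the product of the elements `t 0`, …, `t (n - 1)` and of `y`. -/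
def valueOn {K A B C : Type*} [Field K] [Ring A] [Algebra K A] [Ring B] [Algebra K B] [Ring C]
    [Algebra K C] (f : A →ₐ[K] C) (g : B →ₐ[K] C) (tr : C →ₗ[K] K) (c : C) {n : ℕ}
    (t : Fin n → A) (y : B) : K :=
  tr (g y * f (List.ofFn t).prod * c)

variable {k : Type u} [Field k] {𝒱 : VarClass k} {ops : CycleOps 𝒱} {W : WeilCohomology.{u, v} ops}

/-- A block system in the first cohomology of `A`, with the alternating form
`x, y ↦ tr (x D ^ (dim A - 1) y)`, the algebraic correspondences of degree `0` and the symmetries in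
`𝒢`. -/
def IsBlockSystemOne (𝒢 : Set (Symmetry W)) (A : 𝒱.Obj) (D : A.Cycles) {Λ : Type} [Fintype Λ]
    (bar : Λ → Λ) (p : Λ → Module.End W.K (W.H A)) : Prop :=
  IsBlockSystem (W.gr A 1) (trForm (W.tr A) (W.cl A D) (A.dim - 1)) (cycleOperators W A)
    (symmetryOperators 𝒢 A) bar p

/-- The value of the class of the cycle `z` on `A × Y` on the product of the classes `t 0`, …,
`t (n - 1)` on `A` and of the class `y` on `Y`: this is `tr (y * t 0 * … * t (n - 1) * cl z)`, with
the pull-backs by the projections understood. -/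
noncomputable def component (W : WeilCohomology.{u, v} ops) {A Y : 𝒱.Obj} (z : (A.prod Y).Cycles)
    {n : ℕ} (t : Fin n → W.H A) (y : W.H Y) : W.K :=
  valueOn (W.map (fst A Y)) (W.map (snd A Y)) (W.tr _) (W.cl _ z) t y

/-- The intersection numbers of the cycle `z` of codimension `j` with all cycles of complementary
codimension vanish. -/
def IsNumTrivial (ops : CycleOps 𝒱) (X : 𝒱.Obj) (j : ℕ) (z : X.Cycles) : Prop :=
  j ≤ X.dim ∧ X.IsCyc j z ∧ ∀ w, X.IsCyc (X.dim - j) w → X.V.degCycle (ops.mul z w) = 0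

end Pool.Agent.R908
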