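import Pool.Agent.R908.Desc
import Pool.Agent.H281R3.HT.EMain

/-!
# Extension of the coefficients: correspondences, transcendental cohomology, commutants
-/

open CategoryTheory AlgebraicGeometry TensorProduct

universe u v w w'

namespace Pool.Agent.R908

open Pool.Agent.H914 Pool.Agent.H914.VarClass Pool.Agent.H914.VarClass.Obj
  Pool.Agent.H914.WeilCohomology Pool.Agent.H281R3.HT

section Alg

variable {K : Type*} [Field K] {L : Type*} [Field L] [Algebra K L] {V V' V'' : Type*}
  [AddCommGroup V] [Module K V] [AddCommGroup V'] [Module K V'] [AddCommGroup V''] [Module K V'']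

/-- The coefficients, for all sufficiently large finite sets of indices. -/
lemma exists_coef' (x : L ⊗[K] V) : ∃ (s : Finset (Module.Basis.ofVectorSpaceIndex K L)),
    ∀ u, s ⊆ u → x = ∑ i ∈ u, (Module.Basis.ofVectorSpace K L i) ⊗ₜ[K]
      coef ((Module.Basis.ofVectorSpace K L).coord i) x := by
  classical
  obtain ⟨s, hs⟩ := exists_coef x
  refine ⟨s, fun u hsu => ?_⟩
  set b := Module.Basis.ofVectorSpace K L with hb
  rw [← Finset.sum_sdiff hsu]
  have h1 : ∀ i ∈ u \ s, b i ⊗ₜ[K] coef (b.coord i) x = 0 := by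
    intro i hi
    have h2 : coef (b.coord i) x = 0 := by
      rw [hs, map_sum]
      apply Finset.sum_eq_zero
      intro j hj
      rw [coef_tmul, Module.Basis.coord_apply, Module.Basis.repr_self,
        Finsupp.single_eq_of_ne, zero_smul]
      intro hji
      rw [hji] at hi
      exact (Finset.mem_sdiff.1 hi).2 hj
    rw [h2, TensorProduct.tmul_zero]
  rw [Finset.sum_eq_zero h1, zero_add]
  exact hs

lemma coef_baseChange (lam : L →ₗ[K] K) (F : V →ₗ[K] V') (x : L ⊗[K] V) :
    coef lam (F.baseChange L x) = F (coef lam x) := by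
  induction x using TensorProduct.induction_on with
  | zero => simp only [map_zero]
  | add x y hx hy => simp only [map_add, hx, hy]
  | tmul l a => rw [LinearMap.baseChange_tmul, coef_tmul, coef_tmul, map_smul]

/-- The components of a linear map. -/
noncomputable def comp1 (lam : L →ₗ[K] K) (F : L ⊗[K] V →ₗ[L] L ⊗[K] V') : V →ₗ[K] V' :=
  coef lam ∘ₗ F.restrictScalars K ∘ₗ TensorProduct.mk K L V 1

lemma comp1_apply (lam : L →ₗ[K] K) (F : L ⊗[K] V →ₗ[L] L ⊗[K] V') (v : V) :
    comp1 lam F v = coef lam (F ((1 : L) ⊗ₜ v)) := rfl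

/-- A linear map is a finite combination of extensions of its components. -/
lemma exists_comp [Module.Finite K V] (F : L ⊗[K] V →ₗ[L] L ⊗[K] V') :
    ∃ (s : Finset (Module.Basis.ofVectorSpaceIndex K L)), F =
      ∑ i ∈ s, (Module.Basis.ofVectorSpace K L i) •
        (comp1 ((Module.Basis.ofVectorSpace K L).coord i) F).baseChange L := by
  classical
  set B := Module.finBasis K V with hB
  choose s hs using fun j => exists_coef' (F ((1 : L) ⊗ₜ B j))
  refine ⟨Finset.univ.biUnion s, ?_⟩
  apply (B.baseChange L).ext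
  intro j
  rw [Module.Basis.baseChange_apply, LinearMap.sum_apply]
  conv_lhs => rw [hs j (Finset.univ.biUnion s) (Finset.subset_biUnion_of_mem s (Finset.mem_univ j))]
  apply Finset.sum_congr rfl
  intro i _
  rw [LinearMap.smul_apply, LinearMap.baseChange_tmul, TensorProduct.smul_tmul', smul_eq_mul,
    mul_one, comp1_apply]

end Alg

variable {k : Type u} [Field k] {𝒱 : VarClass k} {ops : CycleOps 𝒱}
  {W : WeilCohomology.{u, v} ops} {L : Type v} [Field L] [Algebra W.K L] {X Y : 𝒱.Obj}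

lemma corr_base (z : (X.prod Y).Cycles) :
    (baseW W L).corr ((baseW W L).cl _ z) = (W.corr (W.cl _ z)).baseChange L :=
  corrOp_base (L := L) (W.map (fst X Y)) (W.push (snd X Y)) (W.cl _ z)

/-- The extension of a stable subspace is stable. -/
lemma stable_base {δ : ℤ} {N : Submodule W.K (W.H X)}
    (hN : ∀ ψ ∈ KOp W X X δ, ∀ v ∈ N, ψ v ∈ N) :
    ∀ ψ ∈ KOp (baseW W L) X X δ, ∀ v : L ⊗[W.K] W.H X, v ∈ N.baseChange L →
      ψ v ∈ N.baseChange L := by
  intro ψ hψ v hv
  induction hψ using Submodule.span_induction with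
  | mem ψ hψ =>
    obtain ⟨p, hp, z, hz, rfl⟩ := hψ
    have h1 : (baseW W L).corr ((baseW W L).cl _ z) v =
      (W.corr (W.cl _ z)).baseChange L v := congrArg (fun F => F v) (corr_base z)
    have h2 : (W.corr (W.cl _ z)).baseChange L v ∈ N.baseChange L := by
      rw [mem_baseChange_iff]
      intro lam
      rw [coef_baseChange]
      exact hN _ (KOp.gen hp hz) _ (mem_baseChange_iff.1 hv lam)
    rw [h1]
    exact h2
  | zero => exact Submodule.zero_mem _
  | add φ ψ _ _ h1 h2 => exact Submodule.add_mem _ h1 h2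
  | smul c φ _ h1 => exact Submodule.smul_mem _ _ h1

/-- The `K`-subspace of a stable subspace is stable. -/
lemma stable_down {δ : ℤ} {N : Submodule L (L ⊗[W.K] W.H X)}
    (hN : ∀ ψ ∈ KOp (baseW W L) X X δ, ∀ v ∈ N, ψ v ∈ N) :
    ∀ ψ ∈ KOp W X X δ, ∀ v ∈ down N, ψ v ∈ down N := by
  intro ψ hψ v hv
  rw [mem_down] at hv ⊢
  have h1 := hN _ (KOp.base (L := L) hψ) _ hv
  have h2 : (ψ.baseChange L) ((1 : L) ⊗ₜ[W.K] v) = (1 : L) ⊗ₜ[W.K] (ψ v) :=
    LinearMap.baseChange_tmul _ _ _
  rw [← h2]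
  exact h1

/-- The transcendental cohomology commutes with extension of the coefficients. -/
lemma mem_trans_base {x : L ⊗[W.K] W.H X} :
    x ∈ transcendental (baseW W L) X ↔ x ∈ (transcendental W X).baseChange L := by
  have key : ∀ (lam : L →ₗ[W.K] W.K) (x : L ⊗[W.K] W.H X) (c : W.H X),
      W.tr X (coef lam x * c) = lam (formBase L (W.tr X) (x * ((1 : L) ⊗ₜ[W.K] c))) := by
    intro lam x c
    refine tmul_induction (P := fun x => W.tr X (coef lam x * c) =
      lam (formBase L (W.tr X) (x * ((1 : L) ⊗ₜ[W.K] c)))) ?_ ?_ ?_ x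
    · rw [map_zero, zero_mul, zero_mul, map_zero, map_zero, map_zero]
    · intro x y hx hy
      rw [map_add, add_mul, add_mul, map_add, map_add, map_add, hx, hy]
    · intro l a
      rw [coef_tmul, Algebra.TensorProduct.tmul_mul_tmul, formBase_tmul, mul_one, smul_mul_assoc,
        map_smul, smul_eq_mul, mul_comm l, ← Algebra.smul_def, map_smul, smul_eq_mul, mul_comm]
  constructor
  · intro h
    have h' := (mem_trans (W := baseW W L) (X := X) (a := x)).1 h
    rw [mem_baseChange_iff]
    intro lam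
    rw [mem_trans]
    rintro j c ⟨z, hz, rfl⟩
    rw [bil_apply, key]
    have h1 : formBase L (W.tr X) (x * ((1 : L) ⊗ₜ[W.K] (W.cl X z))) = 0 :=
      h' j _ ⟨z, hz, rfl⟩
    rw [h1, map_zero]
  · intro h
    rw [mem_baseChange_iff] at h
    refine (mem_trans (W := baseW W L) (X := X) (a := x)).2 (fun j c hc => ?_)
    obtain ⟨z, hz, rfl⟩ := hc
    change formBase L (W.tr X) (x * ((1 : L) ⊗ₜ[W.K] (W.cl X z))) = 0
    by_contra hne
    obtain ⟨lam, hlam⟩ := Module.Projective.exists_dual_eq_one W.K hne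
    have h1 := key lam x (W.cl X z)
    rw [hlam] at h1
    have h2 := mem_trans.1 (h lam) j _ ⟨z, hz, rfl⟩
    rw [bil_apply, h1] at h2
    exact one_ne_zero h2

lemma mem_gr_base {x : L ⊗[W.K] W.H X} {i : ℕ} :
    x ∈ (baseW W L).gr X i ↔ x ∈ (W.gr X i).baseChange L := Iff.rfl

/-- Commutative commutants after extension of the coefficients. -/
theorem commCommK_base (h : CommCommK W X) : CommCommK (baseW W L) X := by
  classical
  set b := Module.Basis.ofVectorSpace W.K L with hb
  have key : ∀ φ : Module.End L (L ⊗[W.K] W.H X), Commuting (baseW W L) X φ →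
      ∀ lam : L →ₗ[W.K] W.K, Commuting W X (comp1 lam φ) := by
    intro φ hφ lam
    refine ⟨fun t ht => ?_, fun ψ hψ t ht => ?_⟩
    · rw [comp1_apply]
      have h1 : (1 : L) ⊗ₜ[W.K] t ∈ transcendental (baseW W L) X :=
        mem_trans_base.2 (Submodule.tmul_mem_baseChange_of_mem _ ht)
      exact mem_baseChange_iff.1 (mem_trans_base.1 (hφ.1 _ h1)) lam
    · rw [comp1_apply, comp1_apply]
      have h1 : (1 : L) ⊗ₜ[W.K] t ∈ transcendental (baseW W L) X :=
        mem_trans_base.2 (Submodule.tmul_mem_baseChange_of_mem _ ht)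
      have h2 : (1 : L) ⊗ₜ[W.K] (ψ t) = ψ.baseChange L ((1 : L) ⊗ₜ[W.K] t) :=
        (LinearMap.baseChange_tmul _ _ _).symm
      have h3 : φ (ψ.baseChange L ((1 : L) ⊗ₜ[W.K] t)) =
        ψ.baseChange L (φ ((1 : L) ⊗ₜ[W.K] t)) := hφ.2 _ (KOp.base (L := L) hψ) _ h1
      rw [h2, h3, coef_baseChange]
  intro φ ψ hφ hψ t ht
  change L ⊗[W.K] W.H X →ₗ[L] L ⊗[W.K] W.H X at φ
  change L ⊗[W.K] W.H X →ₗ[L] L ⊗[W.K] W.H X at ψ
  change L ⊗[W.K] W.H X at t
  refine base_induction_mod (P := fun t => φ (ψ t) = ψ (φ t)) ?_ ?_ ?_ (mem_trans_base.1 ht)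
  · simp only [map_zero]
  · intro x y hx hy
    rw [map_add, map_add, map_add, map_add, hx, hy]
  · intro l a ha
    obtain ⟨s, hs⟩ := exists_comp φ
    obtain ⟨s', hs'⟩ := exists_comp ψ
    have e1 : ∀ (G : W.H X →ₗ[W.K] W.H X) (l : L) (v : W.H X),
        G.baseChange L (l ⊗ₜ[W.K] v) = l ⊗ₜ[W.K] G v := fun G l v =>
      LinearMap.baseChange_tmul _ _ _
    have e2 : φ (ψ (l ⊗ₜ[W.K] a)) = ∑ i ∈ s', ∑ j ∈ s, (b i * (b j * l)) ⊗ₜ[W.K]
        comp1 (b.coord j) φ (comp1 (b.coord i) ψ a) := by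
      conv_lhs => rw [hs', LinearMap.sum_apply, map_sum]
      apply Finset.sum_congr rfl
      intro i _
      rw [LinearMap.smul_apply, e1, map_smul]
      conv_lhs => rw [hs, LinearMap.sum_apply, Finset.smul_sum]
      apply Finset.sum_congr rfl
      intro j _
      rw [LinearMap.smul_apply, e1, TensorProduct.smul_tmul', TensorProduct.smul_tmul',
        smul_eq_mul, smul_eq_mul]
    have e3 : ψ (φ (l ⊗ₜ[W.K] a)) = ∑ j ∈ s, ∑ i ∈ s', (b j * (b i * l)) ⊗ₜ[W.K]
        comp1 (b.coord i) ψ (comp1 (b.coord j) φ a) := by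
      conv_lhs => rw [hs, LinearMap.sum_apply, map_sum]
      apply Finset.sum_congr rfl
      intro i _
      rw [LinearMap.smul_apply, e1, map_smul]
      conv_lhs => rw [hs', LinearMap.sum_apply, Finset.smul_sum]
      apply Finset.sum_congr rfl
      intro j _
      rw [LinearMap.smul_apply, e1, TensorProduct.smul_tmul', TensorProduct.smul_tmul',
        smul_eq_mul, smul_eq_mul]
    rw [e2, e3, Finset.sum_comm]
    apply Finset.sum_congr rfl
    intro j _
    apply Finset.sum_congr rfl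
    intro i _
    rw [h _ _ (key φ hφ _) (key ψ hψ _) a ha, mul_left_comm]

end Pool.Agent.R908
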