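import Mathlib

/-!
# Weil polynomials, and independence over different coefficients: definitions
-/

namespace Pool.Agent.R908

open Polynomial

/-- On the subspace `N` the operator `F` is annihilated by a squarefree polynomial with rational
coefficients, all of whose complex roots have the square `w` of the absolute value. -/
def HasWeilPolynomial {K : Type*} [Field K] [CharZero K] {V : Type*} [AddCommGroup V] [Module K V]
    (F : Module.End K V) (N : Submodule K V) (w : ℕ) : Prop :=
  ∃ P : ℚ[X], Squarefree P ∧ (∀ z : ℂ, aeval z P = 0 → ‖z‖ ^ 2 = (w : ℝ)) ∧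
    ∀ x ∈ N, aeval F (P.map (algebraMap ℚ K)) x = 0

/-- If no nontrivial rational linear combination of members `z 0, …, z (n - 1)` of `P` is mapped to
zero by `c`, then their images are linearly independent over `K`. -/
def IndependenceLifts (K : Type*) [Field K] {M : Type*} [AddCommGroup M] [Module ℚ M]
    {V : Type*} [AddCommGroup V] [Module K V] (c : M →+ V) (P : M → Prop) : Prop :=
  ∀ (n : ℕ) (z : Fin n → M), (∀ i, P (z i)) →
    (∀ q : Fin n → ℚ, c (∑ i, q i • z i) = 0 → ∀ i, q i = 0) →
      LinearIndependent K (fun i => c (z i))

end Pool.Agent.R908
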