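import Pool.Agent.R908.AnisoDefs
import Pool.Agent.R908.InjDefs

/-!
# Cycles acting by complex conjugation on the transcendental cohomology: definitions
-/

open CategoryTheory AlgebraicGeometry Polynomial

universe u v

namespace Pool.Agent.R908

open Pool.Agent.H914 Pool.Agent.H914.VarClass Pool.Agent.H914.VarClass.Obj
  Pool.Agent.H914.WeilCohomology

/-- On the subspace `T` the operator `e` is annihilated by a squarefree polynomial `P` with rational
coefficients which splits over `K`, and the adjoint of `e` for the form `β` is a polynomial `Q(e)`
with rational coefficients, such that `Q(z)` is the complex conjugate of `z` for every complex root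
`z` of `P`. -/
def AdjointIsConjugate {K : Type*} [Field K] [CharZero K] {V : Type*} [AddCommGroup V] [Module K V]
    (T : Submodule K V) (β : V → V → K) (e : Module.End K V) : Prop :=
  ∃ P Q : ℚ[X], Squarefree P ∧ (P.map (algebraMap ℚ K)).Splits ∧
    (∀ z : ℂ, aeval z P = 0 → aeval z Q = starRingEnd ℂ z) ∧
    (∀ x ∈ T, aeval e (P.map (algebraMap ℚ K)) x = 0) ∧
    ∀ x ∈ T, ∀ y ∈ T, β (e x) y = β x (aeval e (Q.map (algebraMap ℚ K)) y)

/-- Every subspace of `T` which is stable under the operators in `C` and in `G` and contains a nonzero
eigenvector of `e` contains the whole eigenspace of `e` in `T`. -/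
def EigenspacesIrreducible {K : Type*} [Field K] {V : Type*} [AddCommGroup V] [Module K V]
    (T : Submodule K V) (C : Set (Module.End K V)) (G : Set (V → V)) (e : V → V) : Prop :=
  ∀ U : Submodule K V, U ≤ T → (∀ φ ∈ C, ∀ x ∈ U, φ x ∈ U) → (∀ σ ∈ G, ∀ x ∈ U, σ x ∈ U) →
    ∀ a : K, (∃ x ∈ U, x ≠ 0 ∧ e x = a • x) → ∀ y ∈ T, e y = a • y → y ∈ U

/-- Some operator `e` in `C` acts on `T` as follows: it is semisimple, its eigenvalues are algebraic
numbers in `K`, its adjoint for `β` is a rational polynomial `Q(e)` giving the complex conjugates of
the eigenvalues, and the eigenspaces of `e` in `T` are irreducible under `C` and `G`. -/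
def HasConjugation {K : Type*} [Field K] [CharZero K] {V : Type*} [AddCommGroup V] [Module K V]
    (T : Submodule K V) (β : V → V → K) (C : Set (Module.End K V)) (G : Set (V → V)) : Prop :=
  ∃ e ∈ C, AdjointIsConjugate T β e ∧ EigenspacesIrreducible T C G e

variable {k : Type u} [Field k] {𝒱 : VarClass k} {ops : CycleOps 𝒱} {W : WeilCohomology.{u, v} ops}

/-- The operators of degree `0` on the cohomology of `X` given by the cycles with rational coefficients
on `X × X`. -/
def cycleOperators (W : WeilCohomology.{u, v} ops) (X : 𝒱.Obj) : Set (Module.End W.K (W.H X)) :=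
  {e | ∃ z, (X.prod X).IsCyc X.dim z ∧ W.corr (W.cl (X.prod X) z) = e}

/-- The operators of the symmetries in `𝒢` on the cohomology of `X`. -/
def symmetryOperators (𝒢 : Set (Symmetry W)) (X : 𝒱.Obj) : Set (W.H X → W.H X) :=
  {e | ∃ S ∈ 𝒢, e = S.σ X}

/-- There is a cycle with rational coefficients on `X × X`, giving an operator `e` of degree `0` on
the transcendental cohomology `T(X)`, such that
* `e` is semisimple on `T(X)` with eigenvalues in `K` which are algebraic numbers, and its adjoint for
  the cup product form is a rational polynomial `Q(e)` in `e`, with `Q(z)` the complex conjugate of `z`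
  for all complex roots `z` of the minimal polynomial of `e` (the algebra `ℚ[e]` is stable under the
  adjunction, which is a positive involution of it);
* the eigenspaces of `e` in `T(X)` are irreducible under the algebraic correspondences of degree `0`
  and the symmetries in `𝒢`: every subspace of `T(X)` stable under these and containing a nonzero
  eigenvector of `e` contains the whole eigenspace. -/
def HasConjugationCycle (𝒢 : Set (Symmetry W)) (X : 𝒱.Obj) : Prop :=
  HasConjugation (transcendental W X) (fun a b => W.tr X (a * b)) (cycleOperators W X)
    (symmetryOperators 𝒢 X)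

end Pool.Agent.R908
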