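import Pool.Agent.R908.GalW

/-!
# Galois descent for subspaces
-/

open TensorProduct

universe u v w w'

namespace Pool.Agent.R908

open Pool.Agent.H914

section Alg

variable {K : Type*} [Field K] {L : Type*} [Field L] [Algebra K L] {V V' : Type*}
  [AddCommGroup V] [Module K V] [AddCommGroup V'] [Module K V']

/-- The coefficient map `L ⊗ V → V` attached to a linear form on `L`. -/
noncomputable def coef (lam : L →ₗ[K] K) : L ⊗[K] V →ₗ[K] V :=
  (TensorProduct.lid K V).toLinearMap ∘ₗ lam.rTensor V

lemma coef_tmul (lam : L →ₗ[K] K) (l : L) (a : V) : coef lam (l ⊗ₜ[K] a) = lam l • a := by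
  rw [coef, LinearMap.comp_apply, LinearMap.rTensor_tmul, LinearEquiv.coe_coe,
    TensorProduct.lid_tmul]

/-- Every element is the sum of its coefficients. -/
lemma exists_coef (x : L ⊗[K] V) : ∃ (s : Finset (Module.Basis.ofVectorSpaceIndex K L)),
    x = ∑ i ∈ s, (Module.Basis.ofVectorSpace K L i) ⊗ₜ[K]
      coef ((Module.Basis.ofVectorSpace K L).coord i) x := by
  classical
  set b := Module.Basis.ofVectorSpace K L with hb
  induction x using TensorProduct.induction_on with
  | zero => exact ⟨∅, by simp⟩
  | add x y hx hy =>
    obtain ⟨s, hs⟩ := hx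
    obtain ⟨t, ht⟩ := hy
    have key : ∀ (z : L ⊗[K] V) (s u : Finset _), s ⊆ u →
        z = ∑ i ∈ s, b i ⊗ₜ[K] coef (b.coord i) z →
        z = ∑ i ∈ u, b i ⊗ₜ[K] coef (b.coord i) z := by
      intro z s u hsu hz
      rw [← Finset.sum_sdiff hsu]
      have h1 : ∀ i ∈ u \ s, b i ⊗ₜ[K] coef (b.coord i) z = 0 := by
        intro i hi
        have h2 : coef (b.coord i) z = 0 := by
          rw [hz, map_sum]
          apply Finset.sum_eq_zero
          intro j hj
          rw [coef_tmul, Module.Basis.coord_apply, Module.Basis.repr_self,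
            Finsupp.single_eq_of_ne, zero_smul]
          intro hji
          rw [hji] at hi
          exact (Finset.mem_sdiff.1 hi).2 hj
        rw [h2, TensorProduct.tmul_zero]
      rw [Finset.sum_eq_zero h1, zero_add]
      exact hz
    refine ⟨s ∪ t, ?_⟩
    conv_lhs => rw [key x s (s ∪ t) Finset.subset_union_left hs,
      key y t (s ∪ t) Finset.subset_union_right ht]
    rw [← Finset.sum_add_distrib]
    apply Finset.sum_congr rfl
    intro i _
    rw [map_add, TensorProduct.tmul_add]
  | tmul l a =>
    refine ⟨(b.repr l).support, ?_⟩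
    conv_lhs => rw [← b.linearCombination_repr l, Finsupp.linearCombination_apply, Finsupp.sum,
      TensorProduct.sum_tmul]
    apply Finset.sum_congr rfl
    intro i _
    rw [coef_tmul, Module.Basis.coord_apply, TensorProduct.smul_tmul]

/-- Induction for elements of an extended subspace. -/
lemma base_induction_mod {p : Submodule K V} {P : L ⊗[K] V → Prop} (h0 : P 0)
    (hadd : ∀ x y, P x → P y → P (x + y)) (h : ∀ (l : L), ∀ a ∈ p, P (l ⊗ₜ a))
    {x : L ⊗[K] V} (hx : x ∈ p.baseChange L) : P x := by
  rw [Submodule.baseChange_eq_span] at hx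
  have key : ∀ x ∈ Submodule.span L ((p.map (TensorProduct.mk K L V 1) : Submodule K _) : Set _),
      ∀ l : L, P (l • x) := by
    intro x hx
    induction hx using Submodule.span_induction with
    | mem x hx =>
      intro l
      obtain ⟨a, ha, rfl⟩ := hx
      rw [TensorProduct.mk_apply, TensorProduct.smul_tmul', smul_eq_mul, mul_one]
      exact h l a ha
    | zero => intro l; rw [smul_zero]; exact h0
    | add x y _ _ hx hy => intro l; rw [smul_add]; exact hadd _ _ (hx l) (hy l)
    | smul c x _ hx => intro l; rw [smul_smul]; exact hx _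
  have := key x hx 1
  rwa [one_smul] at this

lemma mem_baseChange_iff {N : Submodule K V} {x : L ⊗[K] V} :
    x ∈ N.baseChange L ↔ ∀ lam : L →ₗ[K] K, coef lam x ∈ N := by
  constructor
  · intro hx lam
    refine base_induction_mod (P := fun x => coef lam x ∈ N) ?_ ?_ ?_ hx
    · rw [map_zero]; exact N.zero_mem
    · intro x y hx hy; rw [map_add]; exact N.add_mem hx hy
    · intro l a ha
      rw [coef_tmul]
      exact N.smul_mem _ ha
  · intro h
    obtain ⟨s, hs⟩ := exists_coef x
    rw [hs]
    exact Submodule.sum_mem _ (fun i _ => Submodule.tmul_mem_baseChange_of_mem _ (h _))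

lemma coef_sep {x : L ⊗[K] V} (h : ∀ lam : L →ₗ[K] K, coef lam x = 0) : x = 0 := by
  obtain ⟨s, hs⟩ := exists_coef x
  rw [hs]
  apply Finset.sum_eq_zero
  intro i _
  rw [h, TensorProduct.tmul_zero]

/-- The `K`-subspace of a subspace of `L ⊗ V`. -/
def down (N : Submodule L (L ⊗[K] V)) : Submodule K V where
  carrier := {v | (1 : L) ⊗ₜ[K] v ∈ N}
  add_mem' {a b} ha hb := by
    change (1 : L) ⊗ₜ[K] (a + b) ∈ N
    rw [TensorProduct.tmul_add]
    exact N.add_mem ha hb
  zero_mem' := by
    change (1 : L) ⊗ₜ[K] (0 : V) ∈ N
    rw [TensorProduct.tmul_zero]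
    exact N.zero_mem
  smul_mem' c a ha := by
    change (1 : L) ⊗ₜ[K] (c • a) ∈ N
    rw [TensorProduct.tmul_smul, ← algebraMap_smul L c]
    exact N.smul_mem _ ha

lemma mem_down {N : Submodule L (L ⊗[K] V)} {v : V} : v ∈ down N ↔ (1 : L) ⊗ₜ[K] v ∈ N := Iff.rfl

lemma down_le {N : Submodule L (L ⊗[K] V)} : (down N).baseChange L ≤ N := by
  intro x hx
  refine base_induction_mod (P := fun x => x ∈ N) N.zero_mem (fun _ _ => N.add_mem) ?_ hx
  intro l a ha
  have h1 : l ⊗ₜ[K] a = l • ((1 : L) ⊗ₜ[K] a) := by
    rw [TensorProduct.smul_tmul', smul_eq_mul, mul_one]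
  rw [h1]
  exact N.smul_mem _ ha

/-- **Galois descent for subspaces.** -/
theorem le_down [Module.Finite K V]
    (hfix : ∀ x : L, (∀ g : L ≃ₐ[K] L, g x = x) → ∃ c : K, algebraMap K L c = x)
    {N : Submodule L (L ⊗[K] V)} (hN : ∀ g : L ≃ₐ[K] L, ∀ x ∈ N, sig g x ∈ N) :
    N ≤ (down N).baseChange L := by
  classical
  set b := Module.finBasis K V with hb
  set B := b.baseChange L with hB
  have hBb : ∀ i, B i = (1 : L) ⊗ₜ[K] b i := fun i => Module.Basis.baseChange_apply L b i
  have hsig : ∀ (g : L ≃ₐ[K] L) (x : L ⊗[K] V) i, B.repr (sig g x) i = g (B.repr x i) := by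
    intro g x i
    have h1 : sig g x = ∑ j, g (B.repr x j) • B j := by
      conv_lhs => rw [← B.sum_repr x, map_sum]
      apply Finset.sum_congr rfl
      intro j _
      rw [sig_smul, hBb, sig_tmul, map_one]
    rw [h1, map_sum, Finset.sum_apply']
    simp only [map_smul, Finsupp.smul_apply, Module.Basis.repr_self, smul_eq_mul]
    rw [Finset.sum_eq_single i]
    · rw [Finsupp.single_eq_same, mul_one]
    · intro j _ hji
      rw [Finsupp.single_eq_of_ne (Ne.symm hji), mul_zero]
    · intro h; exact absurd (Finset.mem_univ _) h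
  have key : ∀ (n : ℕ) (x : L ⊗[K] V), x ∈ N →
      (Finset.univ.filter (fun i => B.repr x i ≠ 0)).card ≤ n → x ∈ (down N).baseChange L := by
    intro n
    induction n with
    | zero =>
      intro x _ hn
      have h1 : x = 0 := by
        apply B.repr.injective
        ext i
        by_contra hne
        rw [map_zero, Finsupp.zero_apply] at hne
        have h2 : i ∈ Finset.univ.filter (fun i => B.repr x i ≠ 0) := by
          rw [Finset.mem_filter]
          exact ⟨Finset.mem_univ _, hne⟩
        rw [Finset.card_eq_zero.1 (Nat.le_zero.1 hn)] at h2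
        exact absurd h2 (Finset.notMem_empty _)
      rw [h1]
      exact Submodule.zero_mem _
    | succ n ih =>
      intro x hx hn
      by_cases h0 : ∃ i, B.repr x i ≠ 0
      · obtain ⟨i, hi⟩ := h0
        -- normalise
        obtain ⟨y, hy⟩ : ∃ y, y = (B.repr x i)⁻¹ • x := ⟨_, rfl⟩
        have hyN : y ∈ N := by rw [hy]; exact N.smul_mem _ hx
        have hyi : B.repr y i = 1 := by
          rw [hy, map_smul, Finsupp.smul_apply, smul_eq_mul, inv_mul_cancel₀ hi]
        have hxy : x = B.repr x i • y := by
          rw [hy, smul_smul, mul_inv_cancel₀ hi, one_smul]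
        have hsupp : ∀ j, B.repr y j ≠ 0 ↔ B.repr x j ≠ 0 := by
          intro j
          rw [hy, map_smul, Finsupp.smul_apply, smul_eq_mul]
          constructor
          · intro h h'
            apply h
            rw [h', mul_zero]
          · intro h
            exact mul_ne_zero (inv_ne_zero hi) h
        have hny : (Finset.univ.filter (fun i => B.repr y i ≠ 0)).card ≤ n + 1 := by
          have : Finset.univ.filter (fun i => B.repr y i ≠ 0) =
              Finset.univ.filter (fun i => B.repr x i ≠ 0) := by
            apply Finset.filter_congr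
            intro j _
            exact hsupp j
          rw [this]
          exact hn
        rw [hxy]
        refine Submodule.smul_mem _ _ ?_
        by_cases hall : ∀ j, ∀ g : L ≃ₐ[K] L, g (B.repr y j) = B.repr y j
        · choose c hc using fun j => hfix _ (hall j)
          have h1 : y = (1 : L) ⊗ₜ[K] ∑ j, c j • b j := by
            conv_lhs => rw [← B.sum_repr y]
            rw [TensorProduct.tmul_sum]
            apply Finset.sum_congr rfl
            intro j _
            rw [hBb, TensorProduct.tmul_smul, ← hc j, algebraMap_smul]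
          rw [h1]
          apply Submodule.tmul_mem_baseChange_of_mem
          rw [mem_down, ← h1]
          exact hyN
        · push Not at hall
          obtain ⟨j, g, hg⟩ := hall
          obtain ⟨z, hz⟩ : ∃ z, z = sig g y - y := ⟨_, rfl⟩
          have hzN : z ∈ N := by rw [hz]; exact N.sub_mem (hN g y hyN) hyN
          have hzr : ∀ l, B.repr z l = g (B.repr y l) - B.repr y l := by
            intro l
            rw [hz, map_sub, Finsupp.sub_apply, hsig]
          have hzj : B.repr z j ≠ 0 := by
            rw [hzr]
            exact sub_ne_zero.2 hg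
          have hsub : ∀ (t : L ⊗[K] V) (l₀ : _), B.repr y l₀ ≠ 0 → B.repr t l₀ = 0 →
              (∀ l, B.repr y l = 0 → B.repr t l = 0) →
              (Finset.univ.filter (fun i => B.repr t i ≠ 0)).card ≤ n := by
            intro t l₀ hl₀ ht ht'
            have h1 : Finset.univ.filter (fun i => B.repr t i ≠ 0) ⊆
                (Finset.univ.filter (fun i => B.repr y i ≠ 0)).erase l₀ := by
              intro l hl
              rw [Finset.mem_filter] at hl
              rw [Finset.mem_erase, Finset.mem_filter]
              refine ⟨fun h => hl.2 (by rw [h]; exact ht), Finset.mem_univ _,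
                fun h => hl.2 (ht' l h)⟩
            have h2 := Finset.card_le_card h1
            rw [Finset.card_erase_of_mem (by
              rw [Finset.mem_filter]; exact ⟨Finset.mem_univ _, hl₀⟩)] at h2
            omega
          have hz0 : z ∈ (down N).baseChange L := by
            apply ih z hzN
            refine hsub z i (by rw [hyi]; exact one_ne_zero) ?_ ?_
            · rw [hzr, hyi, map_one, sub_self]
            · intro l hl
              rw [hzr, hl, map_zero, sub_zero]
          have hyj : B.repr y j ≠ 0 := by
            intro h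
            apply hzj
            rw [hzr, h, map_zero, sub_zero]
          have hw : y - (B.repr y j / B.repr z j) • z ∈ (down N).baseChange L := by
            apply ih _ (N.sub_mem hyN (N.smul_mem _ hzN))
            refine hsub _ j hyj ?_ ?_
            · rw [map_sub, Finsupp.sub_apply, map_smul, Finsupp.smul_apply, smul_eq_mul,
                div_mul_cancel₀ _ hzj, sub_self]
            · intro l hl
              rw [map_sub, Finsupp.sub_apply, map_smul, Finsupp.smul_apply, smul_eq_mul, hzr l, hl,
                map_zero, sub_zero, mul_zero, sub_zero]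
          have h3 := Submodule.add_mem _ hw (Submodule.smul_mem _ (B.repr y j / B.repr z j) hz0)
          rwa [sub_add_cancel] at h3
      · push Not at h0
        have h1 : x = 0 := by
          apply B.repr.injective
          ext i
          rw [h0 i, map_zero, Finsupp.zero_apply]
        rw [h1]
        exact Submodule.zero_mem _
  exact fun x hx => key _ x hx le_rfl

/-- An operator over an algebraic extension has only finitely many conjugates. -/
theorem finite_conj [Module.Finite K V] [Module.Finite K V'] [Algebra.IsAlgebraic K L]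
    (F : L ⊗[K] V →ₗ[L] L ⊗[K] V') :
    {G : L ⊗[K] V →ₗ[L] L ⊗[K] V' | ∃ g : L ≃ₐ[K] L, ∀ x, G (sig g x) = sig g (F x)}.Finite := by
  classical
  set B := (Module.finBasis K V).baseChange L with hB
  set C := (Module.finBasis K V').baseChange L with hC
  have hBb : ∀ i, B i = (1 : L) ⊗ₜ[K] Module.finBasis K V i :=
    fun i => Module.Basis.baseChange_apply L _ i
  have hCb : ∀ i, C i = (1 : L) ⊗ₜ[K] Module.finBasis K V' i :=
    fun i => Module.Basis.baseChange_apply L _ i
  have hsig : ∀ (g : L ≃ₐ[K] L) (x : L ⊗[K] V') i, C.repr (sig g x) i = g (C.repr x i) := by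
    intro g x i
    have h1 : sig g x = ∑ j, g (C.repr x j) • C j := by
      conv_lhs => rw [← C.sum_repr x, map_sum]
      apply Finset.sum_congr rfl
      intro j _
      rw [sig_smul, hCb, sig_tmul, map_one]
    rw [h1, map_sum, Finset.sum_apply']
    simp only [map_smul, Finsupp.smul_apply, Module.Basis.repr_self, smul_eq_mul]
    rw [Finset.sum_eq_single i]
    · rw [Finsupp.single_eq_same, mul_one]
    · intro j _ hji
      rw [Finsupp.single_eq_of_ne (Ne.symm hji), mul_zero]
    · intro h; exact absurd (Finset.mem_univ _) h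
  set Φ : (L ⊗[K] V →ₗ[L] L ⊗[K] V') → _ → _ → L := fun G i j => C.repr (G (B i)) j with hΦ
  have hinj : Function.Injective Φ := by
    intro G G' h
    apply B.ext
    intro i
    apply C.repr.injective
    ext j
    exact congrFun (congrFun h i) j
  refine Set.Finite.of_finite_image ?_ (hinj.injOn)
  refine Set.Finite.subset (Set.Finite.pi (t := fun i => Set.pi Set.univ
    (fun j => (minpoly K (C.repr (F (B i)) j)).rootSet L)) (fun i =>
      Set.Finite.pi (fun j => Set.toFinite _))) ?_
  rintro _ ⟨G, ⟨g, hg⟩, rfl⟩
  intro i _ j _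
  have h1 : G (B i) = sig g (F (B i)) := by
    rw [← hg, hBb, sig_tmul, map_one]
  change C.repr (G (B i)) j ∈ _
  rw [h1, hsig, Polynomial.mem_rootSet]
  refine ⟨minpoly.ne_zero (Algebra.IsIntegral.isIntegral _), ?_⟩
  have h2 : Polynomial.aeval (g (C.repr (F (B i)) j)) (minpoly K (C.repr (F (B i)) j)) =
      g (Polynomial.aeval (C.repr (F (B i)) j) (minpoly K (C.repr (F (B i)) j))) :=
    Polynomial.aeval_algHom_apply (g : L →ₐ[K] L) _ _
  rw [h2, minpoly.aeval, map_zero]

end Alg

end Pool.Agent.R908
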