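import Pool.Agent.H914R2.ExtOp
import Pool.Agent.H914R2.Blocks

/-!
# External products of correspondences between different varieties
-/

open CategoryTheory AlgebraicGeometry Finset TensorProduct

universe u v

namespace Pool.Agent.R908

open Pool.Agent.H914 Pool.Agent.H914.VarClass Pool.Agent.H914.VarClass.Obj
  Pool.Agent.H914.WeilCohomology

variable {k : Type u} [Field k] {𝒱 : VarClass k} {ops : CycleOps 𝒱}
  {W : WeilCohomology.{u, v} ops} {X Y Z X' Y' Z' X'' Y'' : 𝒱.Obj}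

/-- The projection `(X × Y) × (X' × Y') → X × X'`. -/
noncomputable def r1 (X Y X' Y' : 𝒱.Obj) : (X.prod Y).prod (X'.prod Y') ⟶ X.prod X' :=
  Obj.lift (fst (X.prod Y) (X'.prod Y') ≫ fst X Y) (snd (X.prod Y) (X'.prod Y') ≫ fst X' Y')

/-- The projection `(X × Y) × (X' × Y') → Y × Y'`. -/
noncomputable def r2 (X Y X' Y' : 𝒱.Obj) : (X.prod Y).prod (X'.prod Y') ⟶ Y.prod Y' :=
  Obj.lift (fst (X.prod Y) (X'.prod Y') ≫ snd X Y) (snd (X.prod Y) (X'.prod Y') ≫ snd X' Y')

lemma r1_tmul (a : W.H X) (a' : W.H X') :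
    W.map (r1 X Y X' Y') (W.map (fst X X') a * W.map (snd X X') a') =
      W.map (fst _ _) (W.map (fst X Y) a) * W.map (snd _ _) (W.map (fst X' Y') a') := by
  have e1 : r1 X Y X' Y' ≫ fst X X' = fst (X.prod Y) (X'.prod Y') ≫ fst X Y := Obj.lift_fst _ _
  have e2 : r1 X Y X' Y' ≫ snd X X' = snd (X.prod Y) (X'.prod Y') ≫ fst X' Y' := Obj.lift_snd _ _
  rw [map_mul (W.map (r1 X Y X' Y')), ← W.map_comp, ← W.map_comp, e1, e2, W.map_comp, W.map_comp]

lemma r2_tmul (b : W.H Y) (b' : W.H Y') :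
    W.map (r2 X Y X' Y') (W.map (fst Y Y') b * W.map (snd Y Y') b') =
      W.map (fst _ _) (W.map (snd X Y) b) * W.map (snd _ _) (W.map (snd X' Y') b') := by
  have e1 : r2 X Y X' Y' ≫ fst Y Y' = fst (X.prod Y) (X'.prod Y') ≫ snd X Y := Obj.lift_fst _ _
  have e2 : r2 X Y X' Y' ≫ snd Y Y' = snd (X.prod Y) (X'.prod Y') ≫ snd X' Y' := Obj.lift_snd _ _
  rw [map_mul (W.map (r2 X Y X' Y')), ← W.map_comp, ← W.map_comp, e1, e2, W.map_comp, W.map_comp]

lemma push_ext' (A : W.H (X.prod X')) (B : W.H (Y.prod Y')) :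
    W.push (snd (X.prod Y) (X'.prod Y')) (W.map (r1 X Y X' Y') A * W.map (r2 X Y X' Y') B) =
      W.map (fst X' Y') (W.push (snd X X') A) * W.map (snd X' Y') (W.push (snd Y Y') B) := by
  refine W.kunneth_induction (p := fun A =>
    W.push (snd (X.prod Y) (X'.prod Y')) (W.map (r1 X Y X' Y') A * W.map (r2 X Y X' Y') B) =
      W.map (fst X' Y') (W.push (snd X X') A) * W.map (snd X' Y') (W.push (snd Y Y') B)) ?_ ?_ A
  · intro a b ha hb
    rw [map_add, add_mul, map_add, ha, hb, map_add, map_add, add_mul]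
  intro i j a ha a' ha'
  refine W.kunneth_induction (p := fun B =>
    W.push (snd (X.prod Y) (X'.prod Y'))
      (W.map (r1 X Y X' Y') (W.map (fst X X') a * W.map (snd X X') a') *
        W.map (r2 X Y X' Y') B) =
      W.map (fst X' Y') (W.push (snd X X') (W.map (fst X X') a * W.map (snd X X') a')) *
        W.map (snd X' Y') (W.push (snd Y Y') B)) ?_ ?_ B
  · intro a b ha hb
    rw [map_add, mul_add, map_add, ha, hb, map_add, map_add, mul_add]
  intro l m b hb b' _
  rw [r1_tmul, r2_tmul]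
  have hsw : W.map (snd _ _) (W.map (fst X' Y') a') * W.map (fst _ _) (W.map (snd X Y) b) =
      (-1 : W.K) ^ (j * l) • (W.map (fst (X.prod Y) (X'.prod Y')) (W.map (snd X Y) b) *
        W.map (snd (X.prod Y) (X'.prod Y')) (W.map (fst X' Y') a')) :=
    W.comm (W.map_mem _ (W.map_mem _ ha')) (W.map_mem _ (W.map_mem _ hb))
  have e1 : W.map (fst _ _) (W.map (fst X Y) a) * W.map (snd _ _) (W.map (fst X' Y') a') *
      (W.map (fst (X.prod Y) (X'.prod Y')) (W.map (snd X Y) b) *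
        W.map (snd (X.prod Y) (X'.prod Y')) (W.map (snd X' Y') b')) =
      (-1 : W.K) ^ (j * l) • (W.map (fst _ _) (W.map (fst X Y) a * W.map (snd X Y) b) *
        W.map (snd _ _) (W.map (fst X' Y') a' * W.map (snd X' Y') b')) := by
    rw [map_mul (W.map (fst (X.prod Y) (X'.prod Y'))),
      map_mul (W.map (snd (X.prod Y) (X'.prod Y'))),
      mul_assoc, ← mul_assoc (W.map (snd _ _) (W.map (fst X' Y') a')), hsw, smul_mul_assoc,
      mul_smul_comm, mul_assoc, mul_assoc]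
  rw [e1, map_smul, W.push_snd, W.tr_prod, W.push_snd, W.push_snd, map_smul, map_smul,
    smul_mul_assoc, mul_smul_comm, smul_smul, smul_smul]
  by_cases hl : l = 2 * Y.dim
  · have hs : (-1 : W.K) ^ (j * l) = 1 := by
      rw [hl, mul_left_comm, pow_mul]
      simp
    rw [hs, one_mul]
  · rw [W.tr_eq_zero hb hl]
    simp

/-- The external product of correspondences. -/
lemma corr_ext' (c : W.H (X.prod X')) {p : ℕ} {d : W.H (Y.prod Y')} (hd : d ∈ W.gr _ (2 * p))
    (a : W.H X) (b : W.H Y) :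
    W.corr (W.map (r1 X Y X' Y') c * W.map (r2 X Y X' Y') d)
      (W.map (fst X Y) a * W.map (snd X Y) b) =
      W.map (fst X' Y') (W.corr c a) * W.map (snd X' Y') (W.corr d b) := by
  rw [corr_apply, corr_apply, corr_apply, ← push_ext']
  congr 1
  have e1 : W.map (fst _ _) (W.map (fst X Y) a) = W.map (r1 X Y X' Y') (W.map (fst X X') a) := by
    have := r1_tmul (W := W) (Y := Y) (Y' := Y') a (1 : W.H X')
    rw [map_one, map_one, map_one, mul_one, mul_one] at this
    exact this.symm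
  have e2 : W.map (fst _ _) (W.map (snd X Y) b) = W.map (r2 X Y X' Y') (W.map (fst Y Y') b) := by
    have := r2_tmul (W := W) (X := X) (X' := X') b (1 : W.H Y')
    rw [map_one, map_one, map_one, mul_one, mul_one] at this
    exact this.symm
  rw [map_mul (W.map (fst (X.prod Y) (X'.prod Y'))), e1, e2, map_mul (W.map (r1 X Y X' Y')),
    map_mul (W.map (r2 X Y X' Y')), mul_assoc, ← mul_assoc (W.map (r2 X Y X' Y') d),
    W.even_comm (W.map_mem _ hd) (W.map (r1 X Y X' Y') _)]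
  simp only [mul_assoc]

/-- The external product of linear maps. -/
noncomputable def extHom (W : WeilCohomology.{u, v} ops) {X X' Y Y' : 𝒱.Obj}
    (φ : W.H X →ₗ[W.K] W.H X') (ψ : W.H Y →ₗ[W.K] W.H Y') :
    W.H (X.prod Y) →ₗ[W.K] W.H (X'.prod Y') :=
  (kappa W X' Y').toLinearMap ∘ₗ TensorProduct.map φ ψ ∘ₗ (kappa W X Y).symm.toLinearMap

lemma extHom_tmul (φ : W.H X →ₗ[W.K] W.H X') (ψ : W.H Y →ₗ[W.K] W.H Y') (a : W.H X)
    (b : W.H Y) : extHom W φ ψ (W.map (fst X Y) a * W.map (snd X Y) b) =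
      W.map (fst X' Y') (φ a) * W.map (snd X' Y') (ψ b) := by
  rw [extHom, LinearMap.comp_apply, LinearMap.comp_apply, LinearEquiv.coe_coe,
    LinearEquiv.coe_coe, ← kappa_tmul, LinearEquiv.symm_apply_apply, TensorProduct.map_tmul,
    kappa_tmul]

lemma extHom_comp (φ : W.H X →ₗ[W.K] W.H X') (ψ : W.H Y →ₗ[W.K] W.H Y')
    (φ' : W.H X' →ₗ[W.K] W.H X'') (ψ' : W.H Y' →ₗ[W.K] W.H Y'') :
    extHom W φ' ψ' ∘ₗ extHom W φ ψ = extHom W (φ' ∘ₗ φ) (ψ' ∘ₗ ψ) := by
  apply ext_kunneth_lin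
  intro a b
  rw [LinearMap.comp_apply, extHom_tmul, extHom_tmul, extHom_tmul, LinearMap.comp_apply,
    LinearMap.comp_apply]

lemma extHom_id : extHom W (LinearMap.id : W.H X →ₗ[W.K] W.H X)
    (LinearMap.id : W.H Y →ₗ[W.K] W.H Y) = LinearMap.id := by
  apply ext_kunneth_lin
  intro a b
  rw [extHom_tmul]
  rfl

lemma extHom_add_left (φ φ' : W.H X →ₗ[W.K] W.H X') (ψ : W.H Y →ₗ[W.K] W.H Y') :
    extHom W (φ + φ') ψ = extHom W φ ψ + extHom W φ' ψ := by
  rw [extHom, TensorProduct.map_add_left, LinearMap.add_comp, LinearMap.comp_add]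
  rfl

lemma extHom_add_right (φ : W.H X →ₗ[W.K] W.H X') (ψ ψ' : W.H Y →ₗ[W.K] W.H Y') :
    extHom W φ (ψ + ψ') = extHom W φ ψ + extHom W φ ψ' := by
  rw [extHom, TensorProduct.map_add_right, LinearMap.add_comp, LinearMap.comp_add]
  rfl

lemma extHom_smul_left (c : W.K) (φ : W.H X →ₗ[W.K] W.H X') (ψ : W.H Y →ₗ[W.K] W.H Y') :
    extHom W (c • φ) ψ = c • extHom W φ ψ := by
  rw [extHom, TensorProduct.map_smul_left, LinearMap.smul_comp, LinearMap.comp_smul]
  rfl

lemma extHom_smul_right (c : W.K) (φ : W.H X →ₗ[W.K] W.H X') (ψ : W.H Y →ₗ[W.K] W.H Y') :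
    extHom W φ (c • ψ) = c • extHom W φ ψ := by
  rw [extHom, TensorProduct.map_smul_right, LinearMap.smul_comp, LinearMap.comp_smul]
  rfl

lemma extHom_zero_left (ψ : W.H Y →ₗ[W.K] W.H Y') :
    extHom W (0 : W.H X →ₗ[W.K] W.H X') ψ = 0 := by
  have := extHom_smul_left (W := W) (0 : W.K) (0 : W.H X →ₗ[W.K] W.H X') ψ
  simpa using this

lemma extHom_zero_right (φ : W.H X →ₗ[W.K] W.H X') :
    extHom W φ (0 : W.H Y →ₗ[W.K] W.H Y') = 0 := by
  have := extHom_smul_right (W := W) (0 : W.K) φ (0 : W.H Y →ₗ[W.K] W.H Y')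
  simpa using this

/-- External products of algebraic operators are algebraic. -/
lemma KOp.extHom {d e : ℤ} {φ : W.H X →ₗ[W.K] W.H X'} {ψ : W.H Y →ₗ[W.K] W.H Y'}
    (hφ : φ ∈ KOp W X X' d) (hψ : ψ ∈ KOp W Y Y' e) :
    R908.extHom W φ ψ ∈ KOp W (X.prod Y) (X'.prod Y') (d + e) := by
  induction hφ using Submodule.span_induction with
  | mem x hx =>
    obtain ⟨p, hp, z, hz, rfl⟩ := hx
    induction hψ using Submodule.span_induction with
    | mem x hx =>
      obtain ⟨p', hp', w, hw, rfl⟩ := hx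
      have hcyc := ops.mul_mem (ops.pull_mem (r1 X Y X' Y') hz) (ops.pull_mem (r2 X Y X' Y') hw)
      have e1 : R908.extHom W (W.corr (W.cl _ z)) (W.corr (W.cl _ w)) =
          W.corr (W.cl _ (ops.mul (ops.pull (r1 X Y X' Y') z) (ops.pull (r2 X Y X' Y') w))) := by
        apply ext_kunneth_lin
        intro a b
        rw [extHom_tmul, W.cl_mul, W.cl_pull, W.cl_pull, corr_ext' _ (W.cl_mem hw)]
      rw [e1]
      exact KOp.gen (by rw [dim_prod]; push_cast; omega) hcyc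
    | zero => rw [extHom_zero_right]; exact Submodule.zero_mem _
    | add x y _ _ hx hy => rw [extHom_add_right]; exact Submodule.add_mem _ hx hy
    | smul a x _ hx => rw [extHom_smul_right]; exact Submodule.smul_mem _ _ hx
  | zero => rw [extHom_zero_left]; exact Submodule.zero_mem _
  | add x y _ _ hx hy => rw [extHom_add_left]; exact Submodule.add_mem _ hx hy
  | smul a x _ hx => rw [extHom_smul_left]; exact Submodule.smul_mem _ _ hx

/-- Push-forward is an algebraic operator. -/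
lemma KOp.pushHom (f : X ⟶ Y) : W.push f ∈ KOp W X Y ((Y.dim : ℤ) - X.dim) := by
  have h1 : (X.prod Y).IsCyc Y.dim (ops.push (Obj.lift (𝟙 X) f) X.V.fundCycle) :=
    ops.push_mem _ X.V.fundCycle_mem (by rw [dim_prod]; omega)
  have h2 : W.push f = W.corr (W.cl _ (ops.push (Obj.lift (𝟙 X) f) X.V.fundCycle)) := by
    apply LinearMap.ext
    intro a
    have e1 : Obj.lift (𝟙 X) f ≫ fst X Y = 𝟙 X := Obj.lift_fst _ _
    have e2 : Obj.lift (𝟙 X) f ≫ snd X Y = f := Obj.lift_snd _ _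
    rw [corr_apply, W.cl_push, W.cl_fund, ← W.push_mul, ← W.push_comp, ← W.map_comp, e1, e2,
      W.map_id, one_mul]
  rw [h2]
  exact KOp.gen (by ring) h1

/-- Pull-back is an algebraic operator. -/
lemma KOp.mapHom (f : X ⟶ Y) : (W.map f).toLinearMap ∈ KOp W Y X 0 := by
  have h1 : (Y.prod X).IsCyc Y.dim (ops.push (Obj.lift f (𝟙 X)) X.V.fundCycle) :=
    ops.push_mem _ X.V.fundCycle_mem (by rw [dim_prod]; omega)
  have h2 : (W.map f).toLinearMap =
      W.corr (W.cl _ (ops.push (Obj.lift f (𝟙 X)) X.V.fundCycle)) := by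
    apply LinearMap.ext
    intro a
    have e1 : Obj.lift f (𝟙 X) ≫ fst Y X = f := Obj.lift_fst _ _
    have e2 : Obj.lift f (𝟙 X) ≫ snd Y X = 𝟙 X := Obj.lift_snd _ _
    rw [corr_apply, W.cl_push, W.cl_fund, ← W.push_mul, ← W.push_comp, ← W.map_comp, e1, e2,
      W.push_id, one_mul]
    rfl
  rw [h2]
  exact KOp.gen (by ring) h1

end Pool.Agent.R908
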