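import Pool.Agent.R908.Prods
import Pool.Agent.H914R2.WBase2

/-!
# The Galois group acting on an extension of the coefficients
-/

open CategoryTheory AlgebraicGeometry TensorProduct

universe u v w w'

namespace Pool.Agent.R908

open Pool.Agent.H914 Pool.Agent.H914.VarClass Pool.Agent.H914.VarClass.Obj
  Pool.Agent.H914.WeilCohomology

section Alg

variable {K : Type*} [Field K] {L : Type*} [Field L] [Algebra K L] {V V' : Type*}
  [AddCommGroup V] [Module K V] [AddCommGroup V'] [Module K V']

/-- The semilinear automorphism of the extension of a vector space, as an equivalence. -/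
noncomputable def sigE (V : Type*) [AddCommGroup V] [Module K V] (τ : L ≃ₐ[K] L) :
    L ⊗[K] V ≃+ L ⊗[K] V where
  toFun := sig τ
  invFun := sig τ.symm
  left_inv a := sig_symm' τ a
  right_inv a := sig_symm τ a
  map_add' a b := map_add _ a b

lemma sigE_apply (τ : L ≃ₐ[K] L) (a : L ⊗[K] V) : sigE V τ a = sig τ a := rfl

lemma sig_baseChange' (τ : L ≃ₐ[K] L) (F : V →ₗ[K] V') (a : L ⊗[K] V) :
    sig τ (F.baseChange L a) = F.baseChange L (sig τ a) := by
  induction a using TensorProduct.induction_on with
  | zero => simp only [map_zero]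
  | add x y hx hy => rw [map_add, map_add, hx, hy, map_add, map_add]
  | tmul l b => rw [LinearMap.baseChange_tmul, sig_tmul, sig_tmul, LinearMap.baseChange_tmul]

lemma sig_one (a : L ⊗[K] V) : sig (1 : L ≃ₐ[K] L) a = a := by
  induction a using TensorProduct.induction_on with
  | zero => rw [map_zero]
  | add x y hx hy => rw [map_add, hx, hy]
  | tmul l b => rw [sig_tmul]; rfl

lemma sig_comp (g h : L ≃ₐ[K] L) (a : L ⊗[K] V) : sig (g * h) a = sig g (sig h a) := by
  induction a using TensorProduct.induction_on with
  | zero => rw [map_zero, map_zero, map_zero]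
  | add x y hx hy => rw [map_add, hx, hy, map_add, map_add]
  | tmul l b => rw [sig_tmul, sig_tmul, sig_tmul]; rfl

lemma formBase_sig {A : Type*} [Ring A] [Algebra K A] (τ : L ≃ₐ[K] L) (tr : A →ₗ[K] K)
    (a : L ⊗[K] A) : formBase L tr (sig τ a) = τ (formBase L tr a) := by
  induction a using TensorProduct.induction_on with
  | zero => rw [map_zero, map_zero, map_zero]
  | add x y hx hy => rw [map_add, map_add, hx, hy, map_add, map_add]
  | tmul l b =>
    rw [sig_tmul, formBase_tmul, formBase_tmul, map_mul, AlgEquiv.commutes]

end Alg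

variable {k : Type u} [Field k] {𝒱 : VarClass k} {ops : CycleOps 𝒱}

/-- The semilinear automorphism of the extension of a Weil cohomology theory attached to an
automorphism of the coefficients. -/
noncomputable def galAut (W : WeilCohomology.{u, v} ops) (L : Type v) [Field L]
    [Algebra W.K L] (τ : L ≃ₐ[W.K] L) : SemiAut (baseW W L) where
  τ := (τ : L ≃+* L)
  σ X := (sigE (W.H X) τ : L ⊗[W.K] W.H X ≃+ L ⊗[W.K] W.H X)
  smul := fun c a => sig_smul τ c a
  mul := fun a b => sig_mul τ a b
  map := fun f a => sig_map τ (W.map f) a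
  push := fun f a => sig_baseChange' τ (W.push f) a
  tr := fun {X} a => formBase_sig τ (W.tr X) a
  cl := fun {X} z => by
    have h1 : sig τ ((1 : L) ⊗ₜ[W.K] (W.cl X z)) = (1 : L) ⊗ₜ[W.K] (W.cl X z) := by
      rw [sig_tmul, map_one]
    exact h1

/-- The action of the Galois group on the extension of a Weil cohomology theory. -/
noncomputable def galAct (W : WeilCohomology.{u, v} ops) (L : Type v) [Field L]
    [Algebra W.K L] : SemiAct (L ≃ₐ[W.K] L) (baseW W L) where
  act := galAut W L
  one := fun _ a => sig_one a
  mul := fun g h _ a => sig_comp g h a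

end Pool.Agent.R908
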