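import Pool.Agent.R908.SpecB

/-!
# Generalised eigenspaces of Frobenius
-/

open CategoryTheory AlgebraicGeometry TensorProduct Polynomial

universe u v w w'

namespace Pool.Agent.R908

open Pool.Agent.H914 Pool.Agent.H914.VarClass Pool.Agent.H914.VarClass.Obj
  Pool.Agent.H914.WeilCohomology Pool.Agent.W534

variable {k : Type u} [Field k] {𝒱 : VarClass k} {ops : CycleOps 𝒱}
  {W : WeilCohomology.{u, v} ops} {p : ℕ} {Φ : FrobSystem W p} {Y : 𝒱.Obj}

lemma KOp.aevalE {φ : Module.End W.K (W.H Y)} (h : φ ∈ KOp W Y Y 0) (f : W.K[X]) :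
    (Polynomial.aeval φ f : Module.End W.K (W.H Y)) ∈ KOp W Y Y 0 := by
  have hpow : ∀ n : ℕ, (φ ^ n : Module.End W.K (W.H Y)) ∈ KOp W Y Y 0 := by
    intro n
    induction n with
    | zero => rw [pow_zero]; exact KOp.id Y
    | succ n ih => rw [pow_succ]; exact KOp.cast (KOp.comp ih h) (add_zero 0)
  rw [aeval_eq_sum_range]
  exact Submodule.sum_mem _ (fun i _ => Submodule.smul_mem _ _ (hpow i))

/-- **The decomposition into generalised eigenspaces.** -/
theorem retOp_gen [IsAlgClosed W.K] {P : Mot W → Prop} {S : Set W.K}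
    (hP : ∀ (B : Mot W) (b : W.K), B.X = Y → b ∈ S → Typ Φ B (Φ.e Y) b → P B) :
    ∀ (n : ℕ) (f : W.K[X]), f.natDegree ≤ n → f ≠ 0 → (∀ b, f.IsRoot b → b ∈ S) →
      ∀ E : Module.End W.K (W.H Y), E ∈ KOp W Y Y 0 → E * E = E → fr Φ Y * E = E * fr Φ Y →
        aeval (fr Φ Y) f * E = 0 → E ∈ RetOp W P Y Y := by
  intro n
  induction n with
  | zero =>
    intro f hf hf0 _ E _ _ _ hfE
    obtain ⟨c, rfl⟩ : ∃ c, f = C c := ⟨_, eq_C_of_natDegree_le_zero hf⟩
    have hc : c ≠ 0 := by rintro rfl; exact hf0 C_0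
    rw [aeval_C, ← Algebra.smul_def] at hfE
    rw [(smul_eq_zero_iff_right hc).1 hfE]
    exact Submodule.zero_mem _
  | succ n ih =>
    intro f hf hf0 hS E hEm hE hTE hfE
    by_cases hdeg : f.natDegree = 0
    · obtain ⟨c, rfl⟩ : ∃ c, f = C c := ⟨_, eq_C_of_natDegree_le_zero hdeg.le⟩
      have hc : c ≠ 0 := by rintro rfl; exact hf0 C_0
      rw [aeval_C, ← Algebra.smul_def] at hfE
      rw [(smul_eq_zero_iff_right hc).1 hfE]
      exact Submodule.zero_mem _
    obtain ⟨b, hb⟩ := IsAlgClosed.exists_root f (by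
      intro h
      exact hdeg (natDegree_eq_of_degree_eq_some h))
    obtain ⟨g, hg, hgb⟩ := exists_eq_pow_rootMultiplicity_mul_and_not_dvd f hf0 b
    set r := rootMultiplicity b f with hr
    have hr0 : 0 < r := (rootMultiplicity_pos hf0).2 hb
    have hg0 : g ≠ 0 := by
      rintro rfl
      exact hgb (dvd_zero _)
    have hcop : IsCoprime ((Polynomial.X - C b) ^ r) g := by
      apply IsCoprime.pow_left
      exact (irreducible_X_sub_C b).coprime_iff_not_dvd.2 hgb
    obtain ⟨u, v, huv⟩ := hcop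
    set T := fr Φ Y with hT
    have hTm : T ∈ KOp W Y Y 0 := KOp.mapHom (Φ.Fr Y)
    have hcomm : ∀ q : W.K[X], E * aeval T q = aeval T q * E := fun q => eig_comm_aeval hTE q
    have hcommT : ∀ q : W.K[X], T * aeval T q = aeval T q * T := fun q =>
      eig_comm_aeval (F := T) (E := T) rfl q
    -- the two projectors
    have hprod : ∀ q q' : W.K[X], (aeval T q * E) * (aeval T q' * E) = aeval T (q * q') * E := by
      intro q q'
      rw [mul_assoc, ← mul_assoc E, hcomm q', mul_assoc, hE, ← mul_assoc, ← map_mul]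
    have hkill : ∀ q : W.K[X], aeval T (q * f) * E = 0 := by
      intro q
      rw [map_mul, mul_assoc, hfE, mul_zero]
    have key : ∀ q q' : W.K[X], q + q' = 1 → (∃ s, q * q' = s * f) →
        (aeval T q * E) * (aeval T q * E) = aeval T q * E := by
      rintro q q' h1 ⟨s, hs⟩
      rw [hprod]
      have h2 : q * q = q - s * f := by
        rw [← hs, eq_sub_iff_add_eq, ← mul_add, h1, mul_one]
      have h3 : aeval T (q * q) * E + aeval T (s * f) * E = aeval T q * E := by
        rw [← add_mul, ← map_add, h2, sub_add_cancel]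
      rwa [hkill, add_zero] at h3
    have hmem : ∀ q : W.K[X], (aeval T q * E : Module.End W.K (W.H Y)) ∈ KOp W Y Y 0 :=
      fun q => KOp.cast (KOp.comp (KOp.aevalE hTm q) hEm) (add_zero 0)
    have h1 : (aeval T (v * g) * E) * (aeval T (v * g) * E) = aeval T (v * g) * E :=
      key (v * g) (u * (Polynomial.X - C b) ^ r) (by rw [add_comm]; exact huv)
        ⟨u * v, by rw [hg]; ring⟩
    have h2 : (aeval T (u * (Polynomial.X - C b) ^ r) * E) *
        (aeval T (u * (Polynomial.X - C b) ^ r) * E) =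
          aeval T (u * (Polynomial.X - C b) ^ r) * E :=
      key (u * (Polynomial.X - C b) ^ r) (v * g) huv ⟨u * v, by rw [hg]; ring⟩
    have hsum : E = aeval T (v * g) * E + aeval T (u * (Polynomial.X - C b) ^ r) * E := by
      rw [← add_mul, ← map_add, add_comm (v * g), huv, map_one, one_mul]
    rw [hsum]
    refine Submodule.add_mem _ ?_ ?_
    · set B : Mot W := ⟨Y, aeval T (v * g) * E, hmem _, h1⟩ with hB
      refine RetOp.self (P := P) (B := B) (hP B b rfl (hS b hb) ?_)
      refine ⟨Φ.e_pos Y, 1, r, one_pos, one_mul _, ?_⟩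
      have h3 : aeval T ((Polynomial.X - C b) ^ r) * (aeval T (v * g) * E) = 0 := by
        rw [← mul_assoc, ← map_mul, show (Polynomial.X - C b) ^ r * (v * g) = v * f by
          rw [hg]; ring]
        exact hkill v
      have h4 : frP Φ Y 1 = T := frP_one Φ Y
      change aeval (frP Φ Y 1) _ * (aeval T (v * g) * E) = 0
      rw [h4]
      exact h3
    · refine ih g ?_ hg0 ?_ _ (hmem _) h2 ?_ ?_
      · have h3 : f.natDegree = r + g.natDegree := by
          conv_lhs => rw [hg]
          rw [natDegree_mul (pow_ne_zero _ (X_sub_C_ne_zero b)) hg0, natDegree_pow,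
            natDegree_X_sub_C, mul_one]
        omega
      · intro b' hb'
        apply hS
        rw [IsRoot.def] at hb' ⊢
        rw [hg, eval_mul, hb', mul_zero]
      · rw [← mul_assoc, hcommT, mul_assoc, hTE, ← mul_assoc]
      · rw [← mul_assoc, ← map_mul, show g * (u * (Polynomial.X - C b) ^ r) = u * f by
          rw [hg]; ring]
        exact hkill u

end Pool.Agent.R908
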