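import Mathlib

/-!
# Tensors as functions of several indices: action of matrices, derivations
-/

namespace Pool.Agent.R908.Km

open Finset Function

variable {R : Type*} [CommRing R] {S : Type*} [Fintype S] [DecidableEq S] {ι : Type*}
  [Fintype ι] [DecidableEq ι]

/-- The action of a family of matrices on the slots of a tensor. -/
def act (M : S → Matrix ι ι R) (z : (S → ι) → R) (I : S → ι) : R :=
  ∑ J, (∏ s, M s (I s) (J s)) * z J

lemma act_act (M M' : S → Matrix ι ι R) (z : (S → ι) → R) :
    act M (act M' z) = act (fun s => M s * M' s) z := by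
  funext I
  have h1 : ∀ L : S → ι, ∏ s, (M s * M' s) (I s) (L s) =
      ∑ J : S → ι, ∏ s, M s (I s) (J s) * M' s (J s) (L s) := by
    intro L
    simp only [Matrix.mul_apply]
    rw [Finset.prod_univ_sum]
    rw [Fintype.piFinset_univ]
  simp only [act, h1, Finset.mul_sum, Finset.sum_mul]
  rw [Finset.sum_comm]
  refine Finset.sum_congr rfl fun L _ => Finset.sum_congr rfl fun J _ => ?_
  rw [Finset.prod_mul_distrib]
  ring

lemma act_one (z : (S → ι) → R) : act (fun _ => (1 : Matrix ι ι R)) z = z := by
  funext I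
  rw [act, Finset.sum_eq_single I]
  · rw [Finset.prod_eq_one, one_mul]
    intro s _
    rw [Matrix.one_apply_eq]
  · intro J _ hJ
    obtain ⟨s, hs⟩ := Function.ne_iff.1 hJ
    rw [Finset.prod_eq_zero (Finset.mem_univ s), zero_mul]
    rw [Matrix.one_apply_ne (Ne.symm hs)]
  · intro h
    exact absurd (Finset.mem_univ I) h

/-- The infinitesimal action of a family of matrices on the slots of a tensor. -/
def der (E : S → Matrix ι ι R) (z : (S → ι) → R) (I : S → ι) : R :=
  ∑ s, ∑ i, E s (I s) i * z (update I s i)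

lemma sum_upd {M : Type*} [AddCommMonoid M] (s : S) (Φ : (S → ι) → ι → M) :
    ∑ J, ∑ k, Φ J k = ∑ J, ∑ k, Φ (update J s k) (J s) := by
  rw [← Finset.sum_product', ← Finset.sum_product']
  refine Finset.sum_nbij' (fun x => (update x.1 s x.2, x.1 s)) (fun x => (update x.1 s x.2, x.1 s))
    (fun _ _ => Finset.mem_product.2 ⟨Finset.mem_univ _, Finset.mem_univ _⟩)
    (fun _ _ => Finset.mem_product.2 ⟨Finset.mem_univ _, Finset.mem_univ _⟩) ?_ ?_ ?_
  · rintro ⟨J, k⟩ _
    simp
  · rintro ⟨J, k⟩ _
    simp
  · rintro ⟨J, k⟩ _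
    simp

lemma der_adjoint (E : S → Matrix ι ι R) (y z : (S → ι) → R) :
    ∑ I, y I * der E z I = ∑ I, der (fun s => (E s).transpose) y I * z I := by
  simp only [der, Finset.mul_sum, Finset.sum_mul]
  rw [Finset.sum_comm]
  conv_rhs => rw [Finset.sum_comm]
  refine Finset.sum_congr rfl fun s _ => ?_
  rw [sum_upd s]
  refine Finset.sum_congr rfl fun J _ => Finset.sum_congr rfl fun k _ => ?_
  simp only [update_self, update_idem, update_eq_self, Matrix.transpose_apply]
  ring

lemma der_add (E : S → Matrix ι ι R) (y z : (S → ι) → R) :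
    der E (y + z) = der E y + der E z := by
  funext I
  simp only [der, Pi.add_apply, mul_add, Finset.sum_add_distrib]

lemma der_smul (E : S → Matrix ι ι R) (c : R) (z : (S → ι) → R) :
    der E (c • z) = c • der E z := by
  funext I
  simp only [der, Pi.smul_apply, smul_eq_mul, Finset.mul_sum]
  refine Finset.sum_congr rfl fun s _ => Finset.sum_congr rfl fun i _ => ?_
  ring

section Deriv

variable {κ : Type*} [Field κ] [Algebra R κ]

/-- The Leibniz rule for finite products. -/
lemma leibniz_prod (D : κ →+ κ) (hD : ∀ a b, D (a * b) = a * D b + b * D a) (h1 : D 1 = 0)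
    (f : S → κ) : D (∏ s, f s) = ∑ s, D (f s) * ∏ t ∈ Finset.univ.erase s, f t := by
  have key : ∀ T : Finset S, D (∏ s ∈ T, f s) = ∑ s ∈ T, D (f s) * ∏ t ∈ T.erase s, f t := by
    intro T
    induction T using Finset.induction_on with
    | empty => simp [h1]
    | insert a T ha ih =>
      rw [Finset.prod_insert ha, hD, ih, Finset.sum_insert ha, Finset.erase_insert ha,
        Finset.mul_sum, add_comm, mul_comm (∏ s ∈ T, f s)]
      congr 1
      refine Finset.sum_congr rfl fun s hs => ?_
      have hne : a ≠ s := fun h => ha (h ▸ hs)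
      rw [Finset.erase_insert_of_ne hne, Finset.prod_insert (fun h => ha (Finset.mem_of_mem_erase h))]
      ring
  exact key _

lemma act_der (D : κ →+ κ) (hD : ∀ a b, D (a * b) = a * D b + b * D a)
    (hR : ∀ r : R, D (algebraMap R κ r) = 0) (M : S → Matrix ι ι κ) (E : S → Matrix ι ι R)
    (hM : ∀ s i j, D (M s i j) = ∑ k, M s i k * algebraMap R κ (E s k j)) (z : (S → ι) → R)
    (I : S → ι) :
    D (act M (fun J => algebraMap R κ (z J)) I) =
      act M (fun J => algebraMap R κ (der E z J)) I := by
  have h1 : D 1 = 0 := by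
    have := hR 1
    rwa [map_one] at this
  have h2 : ∀ J, D ((∏ s, M s (I s) (J s)) * algebraMap R κ (z J)) =
      ∑ s, ∑ k, (∏ t, M t (I t) (update J s k t)) * algebraMap R κ (E s k (J s)) *
        algebraMap R κ (z J) := by
    intro J
    rw [hD, hR, mul_zero, zero_add, leibniz_prod D hD h1, Finset.mul_sum]
    refine Finset.sum_congr rfl fun s _ => ?_
    rw [hM, Finset.sum_mul, Finset.mul_sum]
    refine Finset.sum_congr rfl fun k _ => ?_
    rw [← Finset.mul_prod_erase Finset.univ _ (Finset.mem_univ s), update_self]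
    have h3 : ∏ t ∈ Finset.univ.erase s, M t (I t) (update J s k t) =
        ∏ t ∈ Finset.univ.erase s, M t (I t) (J t) := by
      refine Finset.prod_congr rfl fun t ht => ?_
      rw [update_of_ne (Finset.ne_of_mem_erase ht)]
    rw [h3]
    ring
  rw [act, map_sum, Finset.sum_congr rfl fun J _ => h2 J, act]
  have h4 : ∀ J, (∏ s, M s (I s) (J s)) * algebraMap R κ (der E z J) =
      ∑ s, ∑ k, (∏ t, M t (I t) (J t)) * (algebraMap R κ (E s (J s) k) *
        algebraMap R κ (z (update J s k))) := by
    intro J
    rw [der, map_sum, Finset.mul_sum]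
    refine Finset.sum_congr rfl fun s _ => ?_
    rw [map_sum, Finset.mul_sum]
    refine Finset.sum_congr rfl fun k _ => ?_
    rw [map_mul]
  rw [Finset.sum_congr rfl fun J _ => h4 J, Finset.sum_comm]
  conv_rhs => rw [Finset.sum_comm]
  refine Finset.sum_congr rfl fun s _ => ?_
  rw [sum_upd s]
  refine Finset.sum_congr rfl fun J _ => Finset.sum_congr rfl fun k _ => ?_
  simp only [update_self, update_idem, update_eq_self]
  ring

end Deriv

end Pool.Agent.R908.Km
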