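import Pool.Agent.R908.KmA

/-!
# The Casimir operator on mixed tensors
-/

namespace Pool.Agent.R908.Km

open Finset Function

section Gen

variable {R : Type*} [CommRing R] {S : Type*} [Fintype S] [DecidableEq S] {ι : Type*}
  [Fintype ι] [DecidableEq ι]

/-- Exchange of two slots. -/
def sw (s t : S) (z : (S → ι) → R) (I : S → ι) : R := z (I ∘ Equiv.swap s t)

/-- Contraction of two slots followed by the insertion of the identity. -/
def tau (s t : S) (z : (S → ι) → R) (I : S → ι) : R :=
  if I s = I t then ∑ q, z (update (update I s q) t q) else 0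

lemma update_swap {s t : S} (hst : s ≠ t) (I : S → ι) :
    update (update I s (I t)) t (I s) = I ∘ Equiv.swap s t := by
  funext r
  by_cases h1 : r = t
  · subst h1
    simp
  · rw [update_of_ne h1]
    by_cases h2 : r = s
    · subst h2
      simp
    · rw [update_of_ne h2, Function.comp_apply, Equiv.swap_apply_of_ne_of_ne h2 h1]

/-- The elementary matrices acting on the slots. -/
def El (c : S → Bool) (α β : R) (p q : ι) (s : S) : Matrix ι ι R :=
  if c s then Matrix.of fun i j => α * ((if p = i then 1 else 0) * (if q = j then 1 else 0))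
  else Matrix.of fun i j => β * ((if q = i then 1 else 0) * (if p = j then 1 else 0))

lemma El_transpose (c : S → Bool) (α β : R) (p q : ι) :
    (fun s => (El c α β p q s).transpose) = El c α β q p := by
  funext s
  ext i j
  unfold El
  by_cases h : c s <;> simp [h, Matrix.transpose_apply, Matrix.of_apply, mul_comm]

/-- The Casimir operator. -/
def cas (c : S → Bool) (α β : R) (z : (S → ι) → R) : (S → ι) → R :=
  ∑ p, ∑ q, der (El c α β p q) (der (El c α β q p) z)

lemma der_der (E F : S → Matrix ι ι R) (z : (S → ι) → R) (I : S → ι) :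
    der E (der F z) I = ∑ s, ∑ i, ∑ j, E s (I s) i * F s i j * z (update I s j) +
      ∑ s, ∑ t ∈ Finset.univ.erase s, ∑ i, ∑ j, E s (I s) i * F t (I t) j *
        z (update (update I s i) t j) := by
  rw [der, ← Finset.sum_add_distrib]
  refine Finset.sum_congr rfl fun s _ => ?_
  have h1 : ∀ i, der F z (update I s i) = ∑ j, F s i j * z (update I s j) +
      ∑ t ∈ Finset.univ.erase s, ∑ j, F t (I t) j * z (update (update I s i) t j) := by
    intro i
    rw [der, ← Finset.add_sum_erase _ _ (Finset.mem_univ s)]
    congr 1
    · simp only [update_self, update_idem]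
    · refine Finset.sum_congr rfl fun t ht => ?_
      rw [update_of_ne (Finset.ne_of_mem_erase ht)]
  simp only [h1, mul_add, Finset.sum_add_distrib, Finset.mul_sum]
  congr 1
  · refine Finset.sum_congr rfl fun i _ => Finset.sum_congr rfl fun j _ => ?_
    ring
  · rw [Finset.sum_comm]
    refine Finset.sum_congr rfl fun t _ => Finset.sum_congr rfl fun i _ =>
      Finset.sum_congr rfl fun j _ => ?_
    ring

/-- The coefficient of a slot. -/
def gam (c : S → Bool) (α β : R) (s : S) : R := if c s then α ^ 2 else β ^ 2

lemma sum_El_same (c : S → Bool) (α β : R) (s : S) (i' : ι) (f : ι → R) :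
    ∑ p, ∑ q, ∑ i, ∑ j, El c α β p q s i' i * El c α β q p s i j * f j =
      gam c α β s * (Fintype.card ι : R) * f i' := by
  unfold El gam
  by_cases h : c s
  · simp only [h, if_true, Matrix.of_apply, mul_ite, ite_mul, mul_one, mul_zero, zero_mul,
      Finset.sum_ite_eq, Finset.sum_ite_eq', Finset.mem_univ, Finset.sum_ite_irrel,
      Finset.sum_const_zero, Finset.sum_const, Finset.card_univ, nsmul_eq_mul, one_mul]
    ring
  · simp only [h, if_false, if_true, Matrix.of_apply, mul_ite, ite_mul, mul_one, mul_zero,
      zero_mul, Finset.sum_ite_eq, Finset.sum_ite_eq', Finset.mem_univ, Finset.sum_ite_irrel,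
      Finset.sum_const_zero, Finset.sum_const, Finset.card_univ, nsmul_eq_mul, one_mul,
      Bool.false_eq_true]
    ring

lemma sum_El_diff (c : S → Bool) (α β : R) (s t : S) (i' j' : ι) (g : ι → ι → R) :
    ∑ p, ∑ q, ∑ i, ∑ j, El c α β p q s i' i * El c α β q p t j' j * g i j =
      if c s = c t then gam c α β s * g j' i' else
        α * β * (if i' = j' then ∑ q, g q q else 0) := by
  unfold El gam
  by_cases h : c s <;> by_cases h' : c t
  · simp only [h, h', if_true, Matrix.of_apply, mul_ite, ite_mul, mul_one, mul_zero, zero_mul,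
      Finset.sum_ite_eq, Finset.sum_ite_eq', Finset.mem_univ, Finset.sum_ite_irrel,
      Finset.sum_const_zero, Finset.sum_const, Finset.card_univ, nsmul_eq_mul, one_mul]
    ring
  · simp only [h, h', if_true, if_false, Matrix.of_apply, mul_ite, ite_mul, mul_one, mul_zero,
      zero_mul, Finset.sum_ite_eq, Finset.sum_ite_eq', Finset.mem_univ, Finset.sum_ite_irrel,
      Finset.sum_const_zero, Finset.sum_const, Finset.card_univ, nsmul_eq_mul, one_mul,
      Bool.false_eq_true, Bool.true_eq_false, Finset.mul_sum]
    by_cases h3 : i' = j'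
    · subst h3
      simp
    · simp [h3, Ne.symm h3]
  · simp only [h, h', if_true, if_false, Matrix.of_apply, mul_ite, ite_mul, mul_one, mul_zero,
      zero_mul, Finset.sum_ite_eq, Finset.sum_ite_eq', Finset.mem_univ, Finset.sum_ite_irrel,
      Finset.sum_const_zero, Finset.sum_const, Finset.card_univ, nsmul_eq_mul, one_mul,
      Bool.false_eq_true, Bool.true_eq_false, Finset.mul_sum]
    by_cases h3 : i' = j'
    · subst h3
      simp [mul_comm]
    · simp [h3, Ne.symm h3]
  · simp only [h, h', if_true, if_false, Matrix.of_apply, mul_ite, ite_mul, mul_one, mul_zero,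
      zero_mul, Finset.sum_ite_eq, Finset.sum_ite_eq', Finset.mem_univ, Finset.sum_ite_irrel,
      Finset.sum_const_zero, Finset.sum_const, Finset.card_univ, nsmul_eq_mul, one_mul,
      Bool.false_eq_true]
    ring

lemma cas_apply (c : S → Bool) (α β : R) (z : (S → ι) → R) (I : S → ι) :
    cas c α β z I = ∑ s, gam c α β s * (Fintype.card ι : R) * z I +
      ∑ s, ∑ t ∈ Finset.univ.erase s, (if c s = c t then gam c α β s * sw s t z I else
        α * β * tau s t z I) := by
  have h0 : cas c α β z I = ∑ p, ∑ q, (∑ s, ∑ i, ∑ j, El c α β p q s (I s) i *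
      El c α β q p s i j * z (update I s j) +
      ∑ s, ∑ t ∈ Finset.univ.erase s, ∑ i, ∑ j, El c α β p q s (I s) i *
        El c α β q p t (I t) j * z (update (update I s i) t j)) := by
    rw [cas, Finset.sum_apply]
    refine Finset.sum_congr rfl fun p _ => ?_
    rw [Finset.sum_apply]
    refine Finset.sum_congr rfl fun q _ => ?_
    rw [der_der]
  rw [h0]
  simp only [Finset.sum_add_distrib]
  congr 1
  · rw [Finset.sum_congr rfl fun p _ => Finset.sum_comm, Finset.sum_comm]
    refine Finset.sum_congr rfl fun s _ => ?_
    rw [sum_El_same c α β s (I s) (fun j => z (update I s j)), update_eq_self]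
  · rw [Finset.sum_congr rfl fun p _ => Finset.sum_comm, Finset.sum_comm]
    refine Finset.sum_congr rfl fun s _ => ?_
    rw [Finset.sum_congr rfl fun p _ => Finset.sum_comm, Finset.sum_comm]
    refine Finset.sum_congr rfl fun t ht => ?_
    rw [sum_El_diff c α β s t (I s) (I t) (fun i j => z (update (update I s i) t j))]
    by_cases h : c s = c t
    · rw [if_pos h, if_pos h, update_swap (Finset.ne_of_mem_erase ht).symm]
      rfl
    · rw [if_neg h, if_neg h]
      rfl

end Gen

end Pool.Agent.R908.Km
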