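import Pool.Agent.R908.KmB

/-!
# The Casimir operator is injective on tensor ideals
-/

namespace Pool.Agent.R908.Km

open Finset Function

section Pos

variable {S : Type*} [Fintype S] [DecidableEq S] {ι : Type*} [Fintype ι] [DecidableEq ι]

lemma sum_mul_cas (c : S → Bool) (α β : ℚ) (z : (S → ι) → ℚ) :
    ∑ I, z I * cas c α β z I = ∑ p, ∑ q, ∑ I, (der (El c α β q p) z I) ^ 2 := by
  have h1 : ∀ I, z I * cas c α β z I = ∑ p, ∑ q, z I * der (El c α β p q)
      (der (El c α β q p) z) I := by
    intro I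
    rw [cas, Finset.sum_apply, Finset.mul_sum]
    refine Finset.sum_congr rfl fun p _ => ?_
    rw [Finset.sum_apply, Finset.mul_sum]
  simp only [h1]
  rw [Finset.sum_comm]
  refine Finset.sum_congr rfl fun p _ => ?_
  rw [Finset.sum_comm]
  refine Finset.sum_congr rfl fun q _ => ?_
  rw [der_adjoint, El_transpose]
  refine Finset.sum_congr rfl fun I _ => ?_
  rw [sq]

lemma der_El_diag (c : S → Bool) (α β : ℚ) (z : (S → ι) → ℚ) (I : S → ι) :
    ∑ p, der (El c α β p p) z I = (∑ s, if c s then α else β) * z I := by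
  simp only [der]
  rw [Finset.sum_comm, Finset.sum_mul]
  refine Finset.sum_congr rfl fun s _ => ?_
  rw [Finset.sum_comm]
  unfold El
  by_cases h : c s
  · simp only [h, if_true, Matrix.of_apply, mul_ite, ite_mul, mul_one, mul_zero, zero_mul,
      Finset.sum_ite_eq, Finset.sum_ite_eq', Finset.mem_univ, Finset.sum_ite_irrel,
      Finset.sum_const_zero, update_eq_self]
  · simp only [h, if_false, if_true, Matrix.of_apply, mul_ite, ite_mul, mul_one, mul_zero,
      zero_mul, Finset.sum_ite_eq, Finset.sum_ite_eq', Finset.mem_univ, Finset.sum_ite_irrel,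
      Finset.sum_const_zero, update_eq_self, Bool.false_eq_true]

lemma der_eq_zero_of {c : S → Bool} {z : (S → ι) → ℚ}
    (h : ∀ I, cas c 1 0 z I + cas c 0 1 z I = 0) (p : ι) (I : S → ι) :
    der (El c 1 0 p p) z I = 0 ∧ der (El c 0 1 p p) z I = 0 := by
  have h1 : ∑ I, z I * cas c 1 0 z I + ∑ I, z I * cas c 0 1 z I = 0 := by
    rw [← Finset.sum_add_distrib]
    apply Finset.sum_eq_zero
    intro I _
    rw [← mul_add, h, mul_zero]
  rw [sum_mul_cas, sum_mul_cas] at h1
  have nn : ∀ α β : ℚ, 0 ≤ ∑ p, ∑ q, ∑ I, (der (El c α β q p) z I) ^ 2 := fun α β =>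
    Finset.sum_nonneg fun _ _ => Finset.sum_nonneg fun _ _ => Finset.sum_nonneg fun _ _ =>
      sq_nonneg _
  have key : ∀ α β : ℚ, ∑ p, ∑ q, ∑ I, (der (El c α β q p) z I) ^ 2 = 0 →
      der (El c α β p p) z I = 0 := by
    intro α β h2
    rw [Finset.sum_eq_zero_iff_of_nonneg (fun _ _ => Finset.sum_nonneg fun _ _ =>
      Finset.sum_nonneg fun _ _ => sq_nonneg _)] at h2
    have h3 := h2 p (Finset.mem_univ p)
    rw [Finset.sum_eq_zero_iff_of_nonneg (fun _ _ => Finset.sum_nonneg fun _ _ =>
      sq_nonneg _)] at h3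
    have h4 := h3 p (Finset.mem_univ p)
    rw [Finset.sum_eq_zero_iff_of_nonneg (fun _ _ => sq_nonneg _)] at h4
    exact pow_eq_zero_iff (two_ne_zero) |>.1 (h4 I (Finset.mem_univ I))
  have h5 := nn 1 0
  have h6 := nn 0 1
  exact ⟨key 1 0 (by linarith), key 0 1 (by linarith)⟩

lemma pos_rat [Nonempty S] {c : S → Bool} {z : (S → ι) → ℚ}
    (h : ∀ I, cas c 1 0 z I + cas c 0 1 z I = 0) : z = 0 := by
  funext I
  have h1 : ∑ p, der (El c 1 0 p p) z I + ∑ p, der (El c 0 1 p p) z I = 0 := by
    rw [Finset.sum_eq_zero fun p _ => (der_eq_zero_of h p I).1,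
      Finset.sum_eq_zero fun p _ => (der_eq_zero_of h p I).2, add_zero]
  rw [der_El_diag, der_El_diag, ← add_mul, ← Finset.sum_add_distrib] at h1
  have h2 : ∀ s, ((if c s then (1 : ℚ) else 0) + if c s then 0 else 1) = 1 := by
    intro s
    by_cases h : c s <;> simp [h]
  simp only [h2, Finset.sum_const, Finset.card_univ, nsmul_eq_mul, mul_one] at h1
  have h3 : (Fintype.card S : ℚ) ≠ 0 := by
    rw [Nat.cast_ne_zero]
    exact Fintype.card_ne_zero
  exact (mul_eq_zero.1 h1).resolve_left h3

end Pos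

section Inj

variable {K : Type*} [Field K] [CharZero K] {S : Type*} [Fintype S] [DecidableEq S] {ι : Type*}
  [Fintype ι] [DecidableEq ι]

lemma cas_eq_zero [Nonempty S] {c : S → Bool} {z : (S → ι) → K} (h : cas c 1 (-1) z = 0)
    (hτ : ∀ s t, c s ≠ c t → tau s t z = 0) : z = 0 := by
  have h1 : ∀ I, ∑ s : S, (Fintype.card ι : K) * z I +
      ∑ s, ∑ t ∈ Finset.univ.erase s, (if c s = c t then sw s t z I else 0) = 0 := by
    intro I
    have h2 := congrFun h I
    rw [cas_apply] at h2
    have h3 : ∀ s, gam c (1 : K) (-1) s = 1 := by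
      intro s
      unfold gam
      by_cases hs : c s <;> simp [hs]
    simp only [h3, one_mul] at h2
    have h4 : ∀ s, ∀ t ∈ Finset.univ.erase s, (if c s = c t then sw s t z I else
        -1 * tau s t z I) = (if c s = c t then sw s t z I else 0) := by
      intro s t _
      by_cases hst : c s = c t
      · rw [if_pos hst, if_pos hst]
      · rw [if_neg hst, if_neg hst, hτ s t hst]
        simp
    rw [Finset.sum_congr rfl fun s _ => Finset.sum_congr rfl fun t ht => h4 s t ht] at h2
    exact h2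
  by_contra hz
  obtain ⟨I, hI⟩ := Function.ne_iff.1 hz
  obtain ⟨f, hf⟩ := Module.Projective.exists_dual_eq_one ℚ (x := z I) hI
  have h5 : (fun I => f (z I)) = 0 := by
    apply pos_rat (c := c)
    intro I
    have h6 := congrArg f (h1 I)
    rw [map_add, map_zero] at h6
    rw [cas_apply, cas_apply]
    have h7 : ∀ s, gam c (1 : ℚ) 0 s + gam c (0 : ℚ) 1 s = 1 := by
      intro s
      unfold gam
      by_cases hs : c s <;> simp [hs]
    have h8 : f (∑ s : S, (Fintype.card ι : K) * z I) =
        ∑ s, gam c (1 : ℚ) 0 s * (Fintype.card ι : ℚ) * f (z I) +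
        ∑ s, gam c (0 : ℚ) 1 s * (Fintype.card ι : ℚ) * f (z I) := by
      rw [map_sum, ← Finset.sum_add_distrib]
      refine Finset.sum_congr rfl fun s _ => ?_
      rw [← add_mul, ← add_mul, h7, one_mul, ← nsmul_eq_mul, map_nsmul, nsmul_eq_mul]
    have h9 : f (∑ s, ∑ t ∈ Finset.univ.erase s, (if c s = c t then sw s t z I else 0)) =
        ∑ s, ∑ t ∈ Finset.univ.erase s, (if c s = c t then gam c (1 : ℚ) 0 s *
          sw s t (fun I => f (z I)) I else 1 * 0 * tau s t (fun I => f (z I)) I) +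
        ∑ s, ∑ t ∈ Finset.univ.erase s, (if c s = c t then gam c (0 : ℚ) 1 s *
          sw s t (fun I => f (z I)) I else 0 * 1 * tau s t (fun I => f (z I)) I) := by
      rw [map_sum, ← Finset.sum_add_distrib]
      refine Finset.sum_congr rfl fun s _ => ?_
      rw [map_sum, ← Finset.sum_add_distrib]
      refine Finset.sum_congr rfl fun t _ => ?_
      by_cases hst : c s = c t
      · rw [if_pos hst, if_pos hst, if_pos hst, ← add_mul, h7, one_mul]
        rfl
      · rw [if_neg hst, if_neg hst, if_neg hst, map_zero]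
        ring
    rw [h8, h9] at h6
    linear_combination h6
  have h10 := congrFun h5 I
  rw [Pi.zero_apply] at h10
  rw [h10] at hf
  exact zero_ne_one hf

end Inj

section Mixed

variable {R : Type*} [CommRing R] {ι : Type*} [Fintype ι] [DecidableEq ι] {a b : ℕ}

/-- Insertion of two indices. -/
def ext (p q : ι) (I : Fin a ⊕ Fin a → ι) : Fin (a + 1) ⊕ Fin (a + 1) → ι :=
  Sum.elim (Fin.cons p (fun s => I (Sum.inl s))) (Fin.cons q (fun s => I (Sum.inr s)))

/-- Omission of the first two indices. -/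
def rest (I : Fin (a + 1) ⊕ Fin (a + 1) → ι) : Fin a ⊕ Fin a → ι :=
  Sum.elim (fun s => I (Sum.inl s.succ)) (fun s => I (Sum.inr s.succ))

lemma ext_rest (I : Fin (a + 1) ⊕ Fin (a + 1) → ι) :
    ext (I (Sum.inl 0)) (I (Sum.inr 0)) (rest I) = I := by
  funext s
  rcases s with s | s
  · refine Fin.cases ?_ (fun s => ?_) s
    · simp [ext]
    · simp [ext, rest]
  · refine Fin.cases ?_ (fun s => ?_) s
    · simp [ext]
    · simp [ext, rest]

@[simp] lemma ext_inl_zero (p q : ι) (I : Fin a ⊕ Fin a → ι) : ext p q I (Sum.inl 0) = p := rfl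
@[simp] lemma ext_inr_zero (p q : ι) (I : Fin a ⊕ Fin a → ι) : ext p q I (Sum.inr 0) = q := rfl
@[simp] lemma ext_inl_succ (p q : ι) (I : Fin a ⊕ Fin a → ι) (s : Fin a) :
    ext p q I (Sum.inl s.succ) = I (Sum.inl s) := rfl
@[simp] lemma ext_inr_succ (p q : ι) (I : Fin a ⊕ Fin a → ι) (s : Fin a) :
    ext p q I (Sum.inr s.succ) = I (Sum.inr s) := rfl

lemma update_ext_inl_zero (p q i : ι) (I : Fin a ⊕ Fin a → ι) :
    update (ext p q I) (Sum.inl 0) i = ext i q I := by
  funext s
  rcases s with s | s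
  · refine Fin.cases ?_ (fun s => ?_) s
    · simp
    · rw [update_of_ne (by simp [Fin.succ_ne_zero])]
      simp
  · rw [update_of_ne (by simp)]
    rfl

lemma update_ext_inr_zero (p q i : ι) (I : Fin a ⊕ Fin a → ι) :
    update (ext p q I) (Sum.inr 0) i = ext p i I := by
  funext s
  rcases s with s | s
  · rw [update_of_ne (by simp)]
    rfl
  · refine Fin.cases ?_ (fun s => ?_) s
    · simp
    · rw [update_of_ne (by simp [Fin.succ_ne_zero])]
      simp

lemma update_ext_inl_succ (p q i : ι) (I : Fin a ⊕ Fin a → ι) (t : Fin a) :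
    update (ext p q I) (Sum.inl t.succ) i = ext p q (update I (Sum.inl t) i) := by
  funext s
  rcases s with s | s
  · refine Fin.cases ?_ (fun s => ?_) s
    · rw [update_of_ne (by simp [(Fin.succ_ne_zero _).symm])]
      rfl
    · by_cases h : s = t
      · subst h
        simp
      · rw [update_of_ne (by simp [h])]
        simp [h]
  · rw [update_of_ne (by simp)]
    refine Fin.cases ?_ (fun s => ?_) s
    · rfl
    · simp

lemma update_ext_inr_succ (p q i : ι) (I : Fin a ⊕ Fin a → ι) (t : Fin a) :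
    update (ext p q I) (Sum.inr t.succ) i = ext p q (update I (Sum.inr t) i) := by
  funext s
  rcases s with s | s
  · rw [update_of_ne (by simp)]
    refine Fin.cases ?_ (fun s => ?_) s
    · rfl
    · simp
  · refine Fin.cases ?_ (fun s => ?_) s
    · rw [update_of_ne (by simp [(Fin.succ_ne_zero _).symm])]
      rfl
    · by_cases h : s = t
      · subst h
        simp
      · rw [update_of_ne (by simp [h])]
        simp [h]

/-- Contraction of the first two slots. -/
def cz (z : (Fin (a + 1) ⊕ Fin (a + 1) → ι) → R) (I : Fin a ⊕ Fin a → ι) : R :=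
  ∑ q, z (ext q q I)

/-- Insertion of the identity. -/
def ins (z : (Fin a ⊕ Fin a → ι) → R) (I : Fin (a + 1) ⊕ Fin (a + 1) → ι) : R :=
  if I (Sum.inl 0) = I (Sum.inr 0) then z (rest I) else 0

/-- Product of tensors. -/
def tmul (z : (Fin a ⊕ Fin a → ι) → R) (w : (Fin b ⊕ Fin b → ι) → R)
    (I : Fin (a + b) ⊕ Fin (a + b) → ι) : R :=
  z (fun s => I (Sum.map (Fin.castAdd b) (Fin.castAdd b) s)) *
    w (fun s => I (Sum.map (Fin.natAdd a) (Fin.natAdd a) s))

lemma cz_der (E : Fin (a + 1) ⊕ Fin (a + 1) → Matrix ι ι R)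
    (hE : E (Sum.inr 0) = -(E (Sum.inl 0)).transpose)
    (z : (Fin (a + 1) ⊕ Fin (a + 1) → ι) → R) :
    cz (der E z) = der (fun s => E (Sum.map Fin.succ Fin.succ s)) (cz z) := by
  funext I
  have h1 : ∀ r, der E z (ext r r I) =
      (∑ i, E (Sum.inl 0) r i * z (ext i r I) - ∑ i, E (Sum.inl 0) i r * z (ext r i I)) +
      ∑ s, ∑ i, E (Sum.map Fin.succ Fin.succ s) (I s) i * z (ext r r (update I s i)) := by
    intro r
    rw [der, Fintype.sum_sum_type, Fin.sum_univ_succ, Fin.sum_univ_succ, Fintype.sum_sum_type]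
    simp only [update_ext_inl_zero, update_ext_inr_zero, update_ext_inl_succ,
      update_ext_inr_succ, ext_inl_zero, ext_inr_zero, ext_inl_succ, ext_inr_succ, hE,
      Matrix.neg_apply, Matrix.transpose_apply, neg_mul, Finset.sum_neg_distrib, Sum.map_inl,
      Sum.map_inr]
    ring
  rw [cz, Finset.sum_congr rfl fun r _ => h1 r, Finset.sum_add_distrib, Finset.sum_sub_distrib,
    Finset.sum_comm, sub_self, zero_add, der, Finset.sum_comm]
  refine Finset.sum_congr rfl fun s _ => ?_
  rw [Finset.sum_comm]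
  refine Finset.sum_congr rfl fun i _ => ?_
  rw [cz, Finset.mul_sum]

end Mixed

end Pool.Agent.R908.Km
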