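import Pool.Agent.R908.KmC

/-!
# Tensor ideals
-/

namespace Pool.Agent.R908.Km

open Finset Function

section Perm

variable {R : Type*} [CommRing R] {S : Type*} [Fintype S] [DecidableEq S] {ι : Type*}
  [Fintype ι] [DecidableEq ι]

/-- Permutation of the slots. -/
def prm (π : Equiv.Perm S) (z : (S → ι) → R) (I : S → ι) : R := z (I ∘ π)

lemma prm_mul (π π' : Equiv.Perm S) (z : (S → ι) → R) :
    prm (π * π') z = prm π (prm π' z) := rfl

lemma update_comp_perm (π : Equiv.Perm S) (I : S → ι) (s : S) (i : ι) :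
    update I (π s) i ∘ π = update (I ∘ π) s i := by
  funext r
  by_cases h : r = s
  · subst h
    simp
  · rw [Function.comp_apply, update_of_ne (fun h' => h (π.injective h')), update_of_ne h]
    rfl

lemma der_prm (π : Equiv.Perm S) (E : S → Matrix ι ι R) (z : (S → ι) → R) :
    der E (prm π z) = prm π (der (fun s => E (π s)) z) := by
  funext I
  rw [der, prm, der, ← Equiv.sum_comp π]
  refine Finset.sum_congr rfl fun s _ => Finset.sum_congr rfl fun i _ => ?_
  rw [prm, update_comp_perm]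
  rfl

lemma cas_prm (π : Equiv.Perm S) {c : S → Bool} (hc : ∀ s, c (π s) = c s) (α β : R)
    (z : (S → ι) → R) : cas c α β (prm π z) = prm π (cas c α β z) := by
  have h1 : ∀ p q : ι, (fun s => El c α β p q (π s)) = El c α β p q := by
    intro p q
    funext s
    unfold El
    rw [hc]
  funext I
  rw [cas, prm, cas, Finset.sum_apply, Finset.sum_apply]
  refine Finset.sum_congr rfl fun p _ => ?_
  rw [Finset.sum_apply, Finset.sum_apply]
  refine Finset.sum_congr rfl fun q _ => ?_
  rw [der_prm, h1, der_prm, h1]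
  rfl

lemma der_zero (E : S → Matrix ι ι R) : der E (0 : (S → ι) → R) = 0 := by
  have := der_smul E (0 : R) (0 : (S → ι) → R)
  rwa [zero_smul, zero_smul] at this

/-- The Casimir operator as a linear map. -/
def casL (c : S → Bool) (α β : R) : ((S → ι) → R) →ₗ[R] ((S → ι) → R) where
  toFun := cas c α β
  map_add' y z := by
    simp only [cas, der_add, Finset.sum_add_distrib]
  map_smul' r z := by
    simp only [cas, der_smul, Finset.smul_sum, RingHom.id_apply]

end Perm

section Ideal

variable {K : Type*} [Field K] {ι : Type*} [Fintype ι] [DecidableEq ι]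

/-- The standard Casimir operator on mixed tensors. -/
def csm {a : ℕ} (z : (Fin a ⊕ Fin a → ι) → K) : (Fin a ⊕ Fin a → ι) → K :=
  cas Sum.isLeft 1 (-1) z

lemma csm_cz {a : ℕ} (z : (Fin (a + 1) ⊕ Fin (a + 1) → ι) → K) : csm (cz z) = cz (csm z) := by
  have h1 : ∀ p q : ι, ∀ y : (Fin (a + 1) ⊕ Fin (a + 1) → ι) → K,
      cz (der (El Sum.isLeft 1 (-1) p q) y) = der (El Sum.isLeft 1 (-1) p q) (cz y) := by
    intro p q y
    rw [cz_der]
    · congr 1
      funext s
      rcases s with s | s <;> rfl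
    · ext i j
      unfold El
      simp only [Sum.isLeft_inl, Sum.isLeft_inr, if_true, if_false, Matrix.neg_apply,
        Matrix.transpose_apply, Matrix.of_apply, Bool.false_eq_true]
      ring
  have h2 : ∀ (T : Finset ι) (f : ι → (Fin (a + 1) ⊕ Fin (a + 1) → ι) → K),
      cz (∑ p ∈ T, f p) = ∑ p ∈ T, cz (f p) := by
    intro T f
    funext I
    simp only [cz, Finset.sum_apply]
    rw [Finset.sum_comm]
  unfold csm cas
  rw [h2]
  refine Finset.sum_congr rfl fun p _ => ?_
  rw [h2]
  refine Finset.sum_congr rfl fun q _ => ?_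
  rw [h1, h1]

lemma tau_eq_zero_of {a : ℕ} {z : (Fin (a + 1) ⊕ Fin (a + 1) → ι) → K}
    (h : ∀ s t, cz (prm (Equiv.swap (Sum.inl 0) (Sum.inl s) * Equiv.swap (Sum.inr 0) (Sum.inr t))
      z) = 0) (s t : Fin (a + 1)) : tau (Sum.inl s) (Sum.inr t) z = 0 := by
  funext I
  rw [tau]
  by_cases hI : I (Sum.inl s) = I (Sum.inr t)
  · rw [if_pos hI]
    set π : Equiv.Perm (Fin (a + 1) ⊕ Fin (a + 1)) :=
      Equiv.swap (Sum.inl 0) (Sum.inl s) * Equiv.swap (Sum.inr 0) (Sum.inr t) with hπ
    have hl : π (Sum.inl s) = Sum.inl 0 := by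
      have h5 : Equiv.swap (Sum.inr 0 : Fin (a + 1) ⊕ Fin (a + 1)) (Sum.inr t) (Sum.inl s) =
          Sum.inl s := Equiv.swap_apply_of_ne_of_ne (by simp) (by simp)
      rw [hπ, Equiv.Perm.mul_apply, h5, Equiv.swap_apply_right]
    have hr : π (Sum.inr t) = Sum.inr 0 := by
      have h5 : Equiv.swap (Sum.inl 0 : Fin (a + 1) ⊕ Fin (a + 1)) (Sum.inl s) (Sum.inr 0) =
          Sum.inr 0 := Equiv.swap_apply_of_ne_of_ne (by simp) (by simp)
      rw [hπ, Equiv.Perm.mul_apply, Equiv.swap_apply_right, h5]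
    have h1 := congrFun (h s t) (rest (I ∘ π.symm))
    rw [cz, Pi.zero_apply] at h1
    rw [Pi.zero_apply, ← h1]
    refine Finset.sum_congr rfl fun q _ => ?_
    rw [prm]
    congr 1
    have h2 : ext q q (rest (I ∘ π.symm)) =
        update (update (I ∘ π.symm) (Sum.inl 0) q) (Sum.inr 0) q := by
      conv_rhs => rw [← ext_rest (I ∘ π.symm), update_ext_inl_zero, update_ext_inr_zero]
    have h6 : I = (I ∘ π.symm) ∘ π := by
      funext r
      simp
    have h7 : update (update I (Sum.inl s) q) (Sum.inr t) q =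
        update (update (I ∘ π.symm) (Sum.inl 0) q) (Sum.inr 0) q ∘ π := by
      rw [← hr, update_comp_perm, ← hl, update_comp_perm, ← h6]
    rw [h2, h7]
  · rw [if_neg hI]
    rfl

end Ideal

/-- A family of spaces of mixed tensors which is a tensor ideal (with respect to permutations,
contractions, insertions and products) and contains no non-zero scalar. -/
structure TIdeal (K : Type*) [Field K] (ι : Type*) [Fintype ι] [DecidableEq ι] where
  /-- the spaces -/
  N : ∀ a : ℕ, Submodule K ((Fin a ⊕ Fin a → ι) → K)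
  zero : N 0 = ⊥
  sw_mem : ∀ {a : ℕ} {z : (Fin a ⊕ Fin a → ι) → K} {s t : Fin a ⊕ Fin a}, z ∈ N a → s ≠ t →
    s.isLeft = t.isLeft → sw s t z ∈ N a
  tau_mem : ∀ {a : ℕ} {z : (Fin a ⊕ Fin a → ι) → K} {s t : Fin a ⊕ Fin a}, z ∈ N a →
    s.isLeft ≠ t.isLeft → tau s t z ∈ N a
  cz_mem : ∀ {a : ℕ} {z : (Fin (a + 1) ⊕ Fin (a + 1) → ι) → K}, z ∈ N (a + 1) → cz z ∈ N a
  ins_mem : ∀ {a : ℕ} {z : (Fin a ⊕ Fin a → ι) → K}, z ∈ N a → ins z ∈ N (a + 1)
  mul_mem : ∀ {a b : ℕ} {z : (Fin a ⊕ Fin a → ι) → K} {w : (Fin b ⊕ Fin b → ι) → K}, z ∈ N a →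
    w ∈ N b → tmul z w ∈ N (a + b)

namespace TIdeal

variable {K : Type*} [Field K] {ι : Type*} [Fintype ι] [DecidableEq ι] (T : TIdeal K ι)

lemma csm_mem {a : ℕ} {z : (Fin a ⊕ Fin a → ι) → K} (hz : z ∈ T.N a) : csm z ∈ T.N a := by
  have h1 : csm z = ∑ s : Fin a ⊕ Fin a, (gam Sum.isLeft (1 : K) (-1) s * (Fintype.card ι : K)) • z +
      ∑ s : Fin a ⊕ Fin a, ∑ t ∈ Finset.univ.erase s, (if s.isLeft = t.isLeft then
        (gam Sum.isLeft (1 : K) (-1) s) • sw s t z else ((1 : K) * (-1)) • tau s t z) := by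
    funext I
    rw [csm, cas_apply, Pi.add_apply, Finset.sum_apply, Finset.sum_apply]
    congr 1
    refine Finset.sum_congr rfl fun s _ => ?_
    rw [Finset.sum_apply]
    refine Finset.sum_congr rfl fun t _ => ?_
    by_cases h : s.isLeft = t.isLeft
    · rw [if_pos h, if_pos h]
      rfl
    · rw [if_neg h, if_neg h]
      rfl
  rw [h1]
  refine Submodule.add_mem _ (Submodule.sum_mem _ fun s _ => Submodule.smul_mem _ _ hz)
    (Submodule.sum_mem _ fun s _ => Submodule.sum_mem _ fun t ht => ?_)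
  by_cases h : s.isLeft = t.isLeft
  · rw [if_pos h]
    exact Submodule.smul_mem _ _ (T.sw_mem hz (Finset.ne_of_mem_erase ht).symm h)
  · rw [if_neg h]
    exact Submodule.smul_mem _ _ (T.tau_mem hz h)

lemma prm_swap_mem {a : ℕ} {z : (Fin a ⊕ Fin a → ι) → K} (hz : z ∈ T.N a) {s t : Fin a ⊕ Fin a}
    (h : s.isLeft = t.isLeft) : prm (Equiv.swap s t) z ∈ T.N a := by
  by_cases hst : s = t
  · subst hst
    rw [Equiv.swap_self]
    exact hz
  · exact T.sw_mem hz hst h

lemma csm_inj [CharZero K] {a : ℕ} {z : (Fin (a + 1) ⊕ Fin (a + 1) → ι) → K} (hz : z ∈ T.N (a + 1)) (h : csm z = 0) : z = 0 := by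
  induction a with
  | zero =>
    refine cas_eq_zero (c := Sum.isLeft) h ?_
    have key : ∀ s t, tau (Sum.inl s) (Sum.inr t) z = 0 := by
      intro s t
      apply tau_eq_zero_of
      intro s t
      have h1 : cz (prm (Equiv.swap (Sum.inl 0) (Sum.inl s) *
          Equiv.swap (Sum.inr 0) (Sum.inr t)) z) ∈ T.N 0 := by
        apply T.cz_mem
        rw [prm_mul]
        exact T.prm_swap_mem (s := Sum.inl 0) (t := Sum.inl s)
          (T.prm_swap_mem (s := Sum.inr 0) (t := Sum.inr t) hz rfl) rfl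
      rw [T.zero, Submodule.mem_bot] at h1
      exact h1
    rintro (s | s) (t | t) hst
    · exact absurd rfl hst
    · exact key s t
    · funext I
      have h2 := congrFun (key t s) I
      rw [tau, Pi.zero_apply] at h2 ⊢
      by_cases hI : I (Sum.inr s) = I (Sum.inl t)
      · rw [if_pos hI.symm] at h2
        rw [if_pos hI, ← h2]
        refine Finset.sum_congr rfl fun q _ => ?_
        rw [update_comm (by simp)]
      · rw [if_neg hI]
    · exact absurd rfl hst
  | succ a ih =>
    refine cas_eq_zero (c := Sum.isLeft) h ?_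
    have key : ∀ s t, tau (Sum.inl s) (Sum.inr t) z = 0 := by
      intro s t
      apply tau_eq_zero_of
      intro s t
      apply ih
      · apply T.cz_mem
        rw [prm_mul]
        exact T.prm_swap_mem (s := Sum.inl 0) (t := Sum.inl s)
          (T.prm_swap_mem (s := Sum.inr 0) (t := Sum.inr t) hz rfl) rfl
      · rw [csm_cz]
        have h3 : csm (prm (Equiv.swap (Sum.inl 0) (Sum.inl s) *
            Equiv.swap (Sum.inr 0) (Sum.inr t)) z) = 0 := by
          rw [csm, cas_prm, ← csm, h]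
          · rfl
          · intro r
            rw [Equiv.Perm.mul_apply, Equiv.swap_apply_def, Equiv.swap_apply_def]
            split_ifs <;> simp_all
        rw [h3]
        funext I
        simp [cz]
    rintro (s | s) (t | t) hst
    · exact absurd rfl hst
    · exact key s t
    · funext I
      have h2 := congrFun (key t s) I
      rw [tau, Pi.zero_apply] at h2 ⊢
      by_cases hI : I (Sum.inr s) = I (Sum.inl t)
      · rw [if_pos hI.symm] at h2
        rw [if_pos hI, ← h2]
        refine Finset.sum_congr rfl fun q _ => ?_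
        rw [update_comm (by simp)]
      · rw [if_neg hI]
    · exact absurd rfl hst

lemma csm_surj [CharZero K] {a : ℕ} {z : (Fin (a + 1) ⊕ Fin (a + 1) → ι) → K} (hz : z ∈ T.N (a + 1)) :
    ∃ y ∈ T.N (a + 1), csm y = z := by
  set f : T.N (a + 1) →ₗ[K] T.N (a + 1) :=
    (casL Sum.isLeft 1 (-1)).restrict (fun y hy => T.csm_mem hy) with hf
  have hinj : Function.Injective f := by
    rw [injective_iff_map_eq_zero]
    intro y hy
    apply Subtype.ext
    exact T.csm_inj y.2 (congrArg Subtype.val hy)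
  obtain ⟨y, hy⟩ := (LinearMap.injective_iff_surjective.1 hinj) ⟨z, hz⟩
  exact ⟨y.1, y.2, congrArg Subtype.val hy⟩

end TIdeal

end Pool.Agent.R908.Km
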