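import Pool.Agent.R908.KmD

/-!
# The generic matrix: derivations of the field of rational functions, and a valuation ring
-/

namespace Pool.Agent.R908.Km

open Finset Function

section Derivation

variable (K : Type*) [Field K] (ι : Type*) [Fintype ι] [DecidableEq ι]

/-- The field of rational functions in the entries of a generic matrix. -/
abbrev Kap := FractionRing (MvPolynomial (ι × ι) K)

/-- The generic matrix. -/
noncomputable def gx : Matrix ι ι (Kap K ι) :=
  Matrix.of fun i j => algebraMap (MvPolynomial (ι × ι) K) (Kap K ι) (MvPolynomial.X (i, j))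

variable {K ι}

lemma exists_deriv (E : Matrix ι ι K) : ∃ D : Kap K ι →+ Kap K ι,
    (∀ a b, D (a * b) = a * D b + b * D a) ∧ (∀ r : K, D (algebraMap K (Kap K ι) r) = 0) ∧
    ∀ i j, D (gx K ι i j) = ∑ k, gx K ι i k * algebraMap K (Kap K ι) (E k j) := by
  classical
  set φ : MvPolynomial (ι × ι) K →ₐ[K] TrivSqZeroExt (Kap K ι) (Kap K ι) :=
    MvPolynomial.aeval (fun ij => TrivSqZeroExt.inl (gx K ι ij.1 ij.2) +
      TrivSqZeroExt.inr (∑ k, gx K ι ij.1 k * algebraMap K (Kap K ι) (E k ij.2))) with hφ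
  have h1 : ∀ f, (φ f).fst = algebraMap (MvPolynomial (ι × ι) K) (Kap K ι) f := by
    intro f
    have h2 : (TrivSqZeroExt.fstHom K (Kap K ι) (Kap K ι)).comp φ =
        IsScalarTower.toAlgHom K (MvPolynomial (ι × ι) K) (Kap K ι) := by
      apply MvPolynomial.algHom_ext
      intro ij
      rw [AlgHom.comp_apply, hφ, MvPolynomial.aeval_X]
      simp [gx]
    exact congrArg (fun g => g f) h2
  have hu : ∀ y : nonZeroDivisors (MvPolynomial (ι × ι) K), IsUnit (φ.toRingHom y) := by
    intro y
    rw [TrivSqZeroExt.isUnit_iff_isUnit_fst]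
    have h3 : (φ.toRingHom (y : MvPolynomial (ι × ι) K)).fst =
        algebraMap (MvPolynomial (ι × ι) K) (Kap K ι) y := h1 _
    rw [h3]
    exact IsLocalization.map_units (Kap K ι) y
  set ψ : Kap K ι →+* TrivSqZeroExt (Kap K ι) (Kap K ι) :=
    IsLocalization.lift (M := nonZeroDivisors (MvPolynomial (ι × ι) K)) hu with hψ
  have h4 : ∀ f, ψ (algebraMap (MvPolynomial (ι × ι) K) (Kap K ι) f) = φ f := by
    intro f
    exact IsLocalization.lift_eq hu f
  have h5 : ∀ x, (ψ x).fst = x := by
    intro x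
    have h6 : ((TrivSqZeroExt.fstHom K (Kap K ι) (Kap K ι)).toRingHom.comp ψ) =
        RingHom.id (Kap K ι) := by
      apply IsLocalization.ringHom_ext (nonZeroDivisors (MvPolynomial (ι × ι) K))
      ext f
      · simp only [RingHom.comp_apply, h4]
        exact h1 _
      · simp only [RingHom.comp_apply, h4]
        exact h1 _
    exact congrArg (fun g => g x) h6
  refine ⟨{ toFun := fun x => (ψ x).snd
            map_zero' := by rw [map_zero, TrivSqZeroExt.snd_zero]
            map_add' := fun x y => by rw [map_add, TrivSqZeroExt.snd_add] }, ?_, ?_, ?_⟩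
  · intro a b
    change (ψ (a * b)).snd = a * (ψ b).snd + b * (ψ a).snd
    rw [map_mul, TrivSqZeroExt.snd_mul, h5, h5]
    simp [mul_comm]
  · intro r
    change (ψ (algebraMap K (Kap K ι) r)).snd = 0
    rw [IsScalarTower.algebraMap_apply K (MvPolynomial (ι × ι) K) (Kap K ι), h4]
    rw [MvPolynomial.algebraMap_eq, MvPolynomial.algHom_C]
    rfl
  · intro i j
    change (ψ (gx K ι i j)).snd = _
    have h6 : gx K ι i j = algebraMap (MvPolynomial (ι × ι) K) (Kap K ι)
      (MvPolynomial.X (i, j)) := rfl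
    rw [h6, h4, hφ, MvPolynomial.aeval_X]
    simp

lemma det_gx : (gx K ι).det ≠ 0 := by
  have h1 : gx K ι = (algebraMap (MvPolynomial (ι × ι) K) (Kap K ι)).mapMatrix
      (Matrix.mvPolynomialX ι ι K) := by
    ext i j
    simp [gx, Matrix.mvPolynomialX]
  rw [h1, ← RingHom.map_det]
  intro h
  exact Matrix.det_mvPolynomialX_ne_zero ι K
    ((IsFractionRing.injective (MvPolynomial (ι × ι) K) (Kap K ι)) (by rw [h, map_zero]))

lemma gx_mul_inv : gx K ι * (gx K ι)⁻¹ = 1 :=
  Matrix.mul_nonsing_inv _ (isUnit_iff_ne_zero.2 det_gx)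

lemma inv_mul_gx : (gx K ι)⁻¹ * gx K ι = 1 :=
  Matrix.nonsing_inv_mul _ (isUnit_iff_ne_zero.2 det_gx)

lemma deriv_inv (E : Matrix ι ι K) (D : Kap K ι →+ Kap K ι)
    (hD : ∀ a b, D (a * b) = a * D b + b * D a) (hr : ∀ r : K, D (algebraMap K (Kap K ι) r) = 0)
    (hX : ∀ i j, D (gx K ι i j) = ∑ k, gx K ι i k * algebraMap K (Kap K ι) (E k j)) (i j : ι) :
    D ((gx K ι)⁻¹ i j) = -∑ k, algebraMap K (Kap K ι) (E i k) * (gx K ι)⁻¹ k j := by
  set X := gx K ι
  set Y := (gx K ι)⁻¹ with hY
  set Em : Matrix ι ι (Kap K ι) := E.map (algebraMap K (Kap K ι)) with hEm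
  set DY : Matrix ι ι (Kap K ι) := Matrix.of fun i j => D (Y i j) with hDY
  have h1 : X * DY + X * Em * Y = 0 := by
    ext i j
    have h2 : D ((X * Y) i j) = 0 := by
      rw [hY, gx_mul_inv]
      by_cases h : i = j
      · subst h
        rw [Matrix.one_apply_eq]
        have := hr 1
        rwa [map_one] at this
      · rw [Matrix.one_apply_ne h, map_zero]
    rw [Matrix.mul_apply, map_sum] at h2
    rw [Matrix.add_apply, Matrix.mul_apply, Matrix.mul_apply, ← Finset.sum_add_distrib,
      Matrix.zero_apply, ← h2]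
    refine Finset.sum_congr rfl fun k _ => ?_
    rw [hD, hX, Matrix.mul_apply, hDY, Matrix.of_apply]
    have h3 : ∀ l, Em l k = algebraMap K (Kap K ι) (E l k) := fun l => rfl
    simp only [h3]
    ring
  have h4 : DY = -(Em * Y) := by
    have h5 : Y * (X * DY + X * Em * Y) = 0 := by rw [h1, mul_zero]
    rw [mul_add, ← mul_assoc, ← mul_assoc, ← mul_assoc, hY, inv_mul_gx, one_mul, one_mul] at h5
    exact eq_neg_of_add_eq_zero_left h5
  have h6 := congrFun (congrFun h4 i) j
  rw [hDY, Matrix.of_apply, Matrix.neg_apply, Matrix.mul_apply] at h6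
  exact h6

/-- The generic matrix acting on mixed tensors. -/
noncomputable def gm (K : Type*) [Field K] (ι : Type*) [Fintype ι] [DecidableEq ι] (a : ℕ)
    (s : Fin a ⊕ Fin a) : Matrix ι ι (Kap K ι) :=
  Sum.elim (fun _ => gx K ι) (fun _ => (gx K ι)⁻¹.transpose) s

/-- The entries of the generic transform of a tensor. -/
noncomputable def ft {a : ℕ} (I : Fin a ⊕ Fin a → ι) (z : (Fin a ⊕ Fin a → ι) → K) : Kap K ι :=
  act (gm K ι a) (fun J => algebraMap K (Kap K ι) (z J)) I

lemma ft_add {a : ℕ} (I : Fin a ⊕ Fin a → ι) (z w : (Fin a ⊕ Fin a → ι) → K) :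
    ft I (z + w) = ft I z + ft I w := by
  simp only [ft, act, Pi.add_apply, map_add, mul_add, Finset.sum_add_distrib]

lemma ft_smul {a : ℕ} (I : Fin a ⊕ Fin a → ι) (c : K) (z : (Fin a ⊕ Fin a → ι) → K) :
    ft I (c • z) = c • ft I z := by
  simp only [ft, act, Pi.smul_apply, smul_eq_mul, map_mul, Algebra.smul_def, Finset.mul_sum]
  refine Finset.sum_congr rfl fun J _ => ?_
  ring

/-- `ft` as a linear map. -/
noncomputable def ftL {a : ℕ} (I : Fin a ⊕ Fin a → ι) :
    ((Fin a ⊕ Fin a → ι) → K) →ₗ[K] Kap K ι where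
  toFun := ft I
  map_add' := ft_add I
  map_smul' := ft_smul I

/-- The differential operator corresponding to the Casimir operator. -/
lemma exists_casimir : ∃ R : Kap K ι →ₗ[K] Kap K ι, R 1 = 0 ∧
    ∀ (a : ℕ) (I : Fin a ⊕ Fin a → ι) (z : (Fin a ⊕ Fin a → ι) → K),
      R (ft I z) = ft I (csm z) := by
  classical
  choose D hD hr hX using fun pq : ι × ι => exists_deriv (K := K) (ι := ι)
    (Matrix.of fun i j => (1 : K) * ((if pq.1 = i then 1 else 0) * (if pq.2 = j then 1 else 0)))
  have hsm : ∀ pq (c : K) x, D pq (c • x) = c • D pq x := by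
    intro pq c x
    rw [Algebra.smul_def, hD, hr, mul_zero, add_zero, Algebra.smul_def]
  let DL : ι × ι → (Kap K ι →ₗ[K] Kap K ι) := fun pq =>
    { toFun := D pq
      map_add' := map_add _
      map_smul' := hsm pq }
  have hDf : ∀ (p q : ι) (a : ℕ) (I : Fin a ⊕ Fin a → ι) (z : (Fin a ⊕ Fin a → ι) → K),
      DL (p, q) (ft I z) = ft I (der (El Sum.isLeft 1 (-1) p q) z) := by
    intro p q a I z
    change D (p, q) (act _ _ I) = _
    rw [act_der (D (p, q)) (hD (p, q)) (hr (p, q)) (gm K ι a) (El Sum.isLeft 1 (-1) p q)]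
    · rfl
    · intro s i j
      rcases s with s | s
      · change D (p, q) (gx K ι i j) = ∑ k, gx K ι i k * _
        rw [hX]
        rfl
      · change D (p, q) ((gx K ι)⁻¹ j i) = ∑ k, (gx K ι)⁻¹ k i * _
        rw [deriv_inv _ (D (p, q)) (hD (p, q)) (hr (p, q)) (hX (p, q)), ← Finset.sum_neg_distrib]
        refine Finset.sum_congr rfl fun k _ => ?_
        unfold El
        simp only [Sum.isLeft_inr, Bool.false_eq_true, if_false, Matrix.of_apply, map_mul,
          map_neg, map_one]
        ring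
  refine ⟨∑ p, ∑ q, DL (p, q) ∘ₗ DL (q, p), ?_, ?_⟩
  · rw [LinearMap.sum_apply]
    apply Finset.sum_eq_zero
    intro p _
    rw [LinearMap.sum_apply]
    apply Finset.sum_eq_zero
    intro q _
    have h1 : DL (q, p) 1 = 0 := by
      have := hr (q, p) 1
      rwa [map_one] at this
    rw [LinearMap.comp_apply, h1, map_zero]
  · intro a I z
    have hf : ∀ y : (Fin a ⊕ Fin a → ι) → K, ft I y = ftL I y := fun y => rfl
    rw [csm, cas, hf (∑ p, ∑ q, der (El Sum.isLeft 1 (-1) p q)
      (der (El Sum.isLeft 1 (-1) q p) z)), map_sum, LinearMap.sum_apply]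
    refine Finset.sum_congr rfl fun p _ => ?_
    rw [map_sum, LinearMap.sum_apply]
    refine Finset.sum_congr rfl fun q _ => ?_
    rw [LinearMap.comp_apply, hDf, hDf]
    rfl

end Derivation

namespace TIdeal

variable {K : Type*} [Field K] {ι : Type*} [Fintype ι] [DecidableEq ι] (T : TIdeal K ι)

/-- The span of the entries of the generic transforms of the tensors in the ideal. -/
noncomputable def M (a : ℕ) : Submodule K (Kap K ι) :=
  ⨆ I : Fin a ⊕ Fin a → ι, (T.N a).map (ftL I)

lemma ft_mem {a : ℕ} {z : (Fin a ⊕ Fin a → ι) → K} (hz : z ∈ T.N a) (I : Fin a ⊕ Fin a → ι) :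
    ft I z ∈ T.M a :=
  Submodule.mem_iSup_of_mem I ⟨z, hz, rfl⟩

lemma one_notMem [CharZero K] (a : ℕ) : (1 : Kap K ι) ∉ T.M a := by
  intro h1
  cases a with
  | zero =>
    have h2 : T.M 0 = ⊥ := by
      rw [M, iSup_eq_bot]
      intro I
      rw [T.zero, Submodule.map_bot]
    rw [h2, Submodule.mem_bot] at h1
    exact one_ne_zero h1
  | succ a =>
    obtain ⟨R, hR1, hR⟩ := exists_casimir (K := K) (ι := ι)
    have hle : T.M (a + 1) ≤ (T.M (a + 1)).map R := by
      rw [M, iSup_le_iff]
      rintro I _ ⟨z, hz, rfl⟩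
      obtain ⟨y, hy, rfl⟩ := T.csm_surj hz
      exact ⟨ft I y, T.ft_mem hy I, hR _ _ _⟩
    have hge : ∀ x ∈ T.M (a + 1), R x ∈ T.M (a + 1) := by
      intro x hx
      refine Submodule.iSup_induction (p := fun I => (T.N (a + 1)).map (ftL I))
        (motive := fun x => R x ∈ T.M (a + 1)) hx ?_ ?_ ?_
      · rintro I _ ⟨z, hz, rfl⟩
        have h3 : R (ftL I z) = ft I (csm z) := hR _ _ _
        rw [h3]
        exact T.ft_mem (T.csm_mem hz) I
      · rw [map_zero]
        exact Submodule.zero_mem _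
      · intro x y hx hy
        rw [map_add]
        exact Submodule.add_mem _ hx hy
    have hfin : FiniteDimensional K (T.M (a + 1)) := by
      unfold M
      infer_instance
    set f : T.M (a + 1) →ₗ[K] T.M (a + 1) := R.restrict hge with hf
    have hsurj : Function.Surjective f := by
      rintro ⟨y, hy⟩
      obtain ⟨x, hx, hxy⟩ := hle hy
      exact ⟨⟨x, hx⟩, Subtype.ext hxy⟩
    have hinj := LinearMap.injective_iff_surjective.2 hsurj
    have h4 : f ⟨1, h1⟩ = f 0 := by
      rw [map_zero]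
      apply Subtype.ext
      exact hR1
    have h5 := congrArg Subtype.val (hinj h4)
    exact one_ne_zero h5

end TIdeal

end Pool.Agent.R908.Km
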