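import Pool.Agent.R908.KmE

/-!
# A valuation ring for which the transforms of the tensors in the ideal are small
-/

namespace Pool.Agent.R908.Km

open Finset Function

section App

variable {R : Type*} [CommRing R] {ι : Type*} [Fintype ι] [DecidableEq ι] {a b : ℕ}

/-- Juxtaposition of multi-indices. -/
def app (I : Fin a ⊕ Fin a → ι) (J : Fin b ⊕ Fin b → ι) : Fin (a + b) ⊕ Fin (a + b) → ι :=
  Sum.elim (Fin.append (fun s => I (Sum.inl s)) (fun s => J (Sum.inl s)))
    (Fin.append (fun s => I (Sum.inr s)) (fun s => J (Sum.inr s)))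

lemma app_left (I : Fin a ⊕ Fin a → ι) (J : Fin b ⊕ Fin b → ι) :
    (fun s => app I J (Sum.map (Fin.castAdd b) (Fin.castAdd b) s)) = I := by
  funext s
  rcases s with s | s <;> simp [app]

lemma app_right (I : Fin a ⊕ Fin a → ι) (J : Fin b ⊕ Fin b → ι) :
    (fun s => app I J (Sum.map (Fin.natAdd a) (Fin.natAdd a) s)) = J := by
  funext s
  rcases s with s | s <;> simp [app]

lemma app_surj (L : Fin (a + b) ⊕ Fin (a + b) → ι) :
    app (fun s => L (Sum.map (Fin.castAdd b) (Fin.castAdd b) s))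
      (fun s => L (Sum.map (Fin.natAdd a) (Fin.natAdd a) s)) = L := by
  funext s
  rcases s with s | s
  · refine Fin.addCases (fun s => ?_) (fun s => ?_) s <;> simp [app]
  · refine Fin.addCases (fun s => ?_) (fun s => ?_) s <;> simp [app]

lemma sum_app {M : Type*} [AddCommMonoid M] (F : (Fin (a + b) ⊕ Fin (a + b) → ι) → M) :
    ∑ L, F L = ∑ I : Fin a ⊕ Fin a → ι, ∑ J : Fin b ⊕ Fin b → ι, F (app I J) := by
  rw [← Finset.sum_product']
  refine Finset.sum_nbij' (fun L => (fun s => L (Sum.map (Fin.castAdd b) (Fin.castAdd b) s),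
    fun s => L (Sum.map (Fin.natAdd a) (Fin.natAdd a) s))) (fun x => app x.1 x.2)
    (fun _ _ => Finset.mem_product.2 ⟨Finset.mem_univ _, Finset.mem_univ _⟩)
    (fun _ _ => Finset.mem_univ _) ?_ ?_ ?_
  · intro L _
    exact app_surj L
  · rintro ⟨I, J⟩ _
    exact Prod.ext (app_left I J) (app_right I J)
  · intro L _
    rw [app_surj]

lemma tmul_app (z : (Fin a ⊕ Fin a → ι) → R) (w : (Fin b ⊕ Fin b → ι) → R)
    (I : Fin a ⊕ Fin a → ι) (J : Fin b ⊕ Fin b → ι) : tmul z w (app I J) = z I * w J := by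
  rw [tmul, app_left, app_right]

lemma prod_app {M : Type*} [CommMonoid M] (F G : ι → ι → M) (I I' : Fin a ⊕ Fin a → ι)
    (J J' : Fin b ⊕ Fin b → ι) :
    (∏ s : Fin (a + b) ⊕ Fin (a + b), (Sum.elim (fun _ => F) (fun _ => G) s)
      (app I J s) (app I' J' s)) =
    (∏ s : Fin a ⊕ Fin a, (Sum.elim (fun _ => F) (fun _ => G) s) (I s) (I' s)) *
      ∏ s : Fin b ⊕ Fin b, (Sum.elim (fun _ => F) (fun _ => G) s) (J s) (J' s) := by
  simp only [Fintype.prod_sum_type, Fin.prod_univ_add, Sum.elim_inl, Sum.elim_inr, app,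
    Fin.append_left, Fin.append_right]
  ac_rfl

lemma sum_ext {M : Type*} [AddCommMonoid M] (F : (Fin (a + 1) ⊕ Fin (a + 1) → ι) → M) :
    ∑ L, F L = ∑ p, ∑ q, ∑ I : Fin a ⊕ Fin a → ι, F (ext p q I) := by
  have h1 : ∀ p, ∑ q, ∑ I : Fin a ⊕ Fin a → ι, F (ext p q I) =
      ∑ x : ι × (Fin a ⊕ Fin a → ι), F (ext p x.1 x.2) := by
    intro p
    rw [Fintype.sum_prod_type]
  simp only [h1]
  rw [← Finset.sum_product']
  refine Finset.sum_nbij' (fun L => (L (Sum.inl 0), (L (Sum.inr 0), rest L)))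
    (fun x => ext x.1 x.2.1 x.2.2)
    (fun _ _ => Finset.mem_product.2 ⟨Finset.mem_univ _, Finset.mem_univ _⟩)
    (fun _ _ => Finset.mem_univ _) ?_ ?_ ?_
  · intro L _
    exact ext_rest L
  · rintro ⟨p, q, I⟩ _
    refine Prod.ext rfl (Prod.ext rfl ?_)
    funext s
    rcases s with s | s <;> rfl
  · intro L _
    exact congrArg F (ext_rest L).symm

end App

section Val

variable {K : Type*} [Field K] {ι : Type*} [Fintype ι] [DecidableEq ι] {a b : ℕ}

lemma ft_mul (I : Fin a ⊕ Fin a → ι) (J : Fin b ⊕ Fin b → ι) (z : (Fin a ⊕ Fin a → ι) → K)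
    (w : (Fin b ⊕ Fin b → ι) → K) : ft I z * ft J w = ft (app I J) (tmul z w) := by
  rw [ft, ft, ft, act, act, act, sum_app, Finset.sum_mul_sum]
  refine Finset.sum_congr rfl fun I' _ => Finset.sum_congr rfl fun J' _ => ?_
  have h1 : ∀ (c : ℕ) (s : Fin c ⊕ Fin c) (i j : ι), gm K ι c s i j =
      (Sum.elim (fun _ => (fun i j => gx K ι i j)) (fun _ => (fun i j => (gx K ι)⁻¹ j i)) s :
        ι → ι → Kap K ι) i j := by
    rintro c (s | s) i j <;> rfl
  have h2 := prod_app (fun i j => gx K ι i j) (fun i j => (gx K ι)⁻¹ j i) I I' J J'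
  rw [Finset.prod_congr rfl fun s _ => h1 a s (I s) (I' s),
    Finset.prod_congr rfl fun s _ => h1 b s (J s) (J' s),
    Finset.prod_congr rfl fun s _ => h1 (a + b) s (app I J s) (app I' J' s), h2, tmul_app,
    map_mul]
  ring

lemma ft_ins (i : ι) (I : Fin a ⊕ Fin a → ι) (z : (Fin a ⊕ Fin a → ι) → K) :
    ft (ext i i I) (ins z) = ft I z := by
  rw [ft, act, sum_ext]
  have h1 : ∀ p q (J : Fin a ⊕ Fin a → ι),
      (∏ s, gm K ι (a + 1) s (ext i i I s) (ext p q J s)) *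
        algebraMap K (Kap K ι) (ins z (ext p q J)) =
      if p = q then gx K ι i p * (gx K ι)⁻¹ q i * ((∏ s, gm K ι a s (I s) (J s)) *
        algebraMap K (Kap K ι) (z J)) else 0 := by
    intro p q J
    rw [ins, ext_inl_zero, ext_inr_zero]
    have h3 : rest (ext p q J) = J := by
      funext s
      rcases s with s | s <;> rfl
    by_cases h : p = q
    · rw [if_pos h, if_pos h, h3, Fintype.prod_sum_type, Fin.prod_univ_succ, Fin.prod_univ_succ,
        Fintype.prod_sum_type]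
      simp only [ext_inl_zero, ext_inr_zero, ext_inl_succ, ext_inr_succ, gm, Sum.elim_inl,
        Sum.elim_inr, Matrix.transpose_apply]
      ring
    · rw [if_neg h, if_neg h, map_zero, mul_zero]
  simp only [h1]
  have h2 : ∀ p, ∑ q, ∑ J : Fin a ⊕ Fin a → ι, (if p = q then gx K ι i p * (gx K ι)⁻¹ q i *
      ((∏ s, gm K ι a s (I s) (J s)) * algebraMap K (Kap K ι) (z J)) else 0) =
      gx K ι i p * (gx K ι)⁻¹ p i * ft I z := by
    intro p
    rw [Finset.sum_eq_single p]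
    · simp only [if_true]
      rw [← Finset.mul_sum]
      rfl
    · intro q _ hq
      apply Finset.sum_eq_zero
      intro J _
      rw [if_neg hq.symm]
    · intro h
      exact absurd (Finset.mem_univ p) h
  simp only [h2]
  rw [← Finset.sum_mul]
  have h4 := congrFun (congrFun (gx_mul_inv (K := K) (ι := ι)) i) i
  rw [Matrix.mul_apply, Matrix.one_apply_eq] at h4
  rw [h4, one_mul]

end Val

namespace TIdeal

variable {K : Type*} [Field K] {ι : Type*} [Fintype ι] [DecidableEq ι] (T : TIdeal K ι)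

lemma M_le [Nonempty ι] (a : ℕ) : T.M a ≤ T.M (a + 1) := by
  rw [M, iSup_le_iff]
  rintro I _ ⟨z, hz, rfl⟩
  obtain ⟨i⟩ := ‹Nonempty ι›
  have h1 : ftL I z = ft (ext i i I) (ins z) := (ft_ins i I z).symm
  rw [h1]
  exact T.ft_mem (T.ins_mem hz) _

lemma M_mono [Nonempty ι] : Monotone T.M := monotone_nat_of_le_succ T.M_le

/-- The union of the spans. -/
noncomputable def Mi : Submodule K (Kap K ι) := ⨆ a, T.M a

lemma mem_Mi [Nonempty ι] {x : Kap K ι} : x ∈ T.Mi ↔ ∃ a, x ∈ T.M a := by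
  rw [Mi, Submodule.mem_iSup_of_directed _ T.M_mono.directed_le]

lemma mul_mem_Mi [Nonempty ι] {x y : Kap K ι} (hx : x ∈ T.Mi) (hy : y ∈ T.Mi) :
    x * y ∈ T.Mi := by
  obtain ⟨a, hx⟩ := T.mem_Mi.1 hx
  obtain ⟨b, hy⟩ := T.mem_Mi.1 hy
  rw [T.mem_Mi]
  refine ⟨a + b, ?_⟩
  refine Submodule.iSup_induction (p := fun I => (T.N a).map (ftL I))
    (motive := fun x => x * y ∈ T.M (a + b)) hx ?_ ?_ ?_
  · rintro I _ ⟨z, hz, rfl⟩
    refine Submodule.iSup_induction (p := fun I => (T.N b).map (ftL I))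
      (motive := fun y => ftL I z * y ∈ T.M (a + b)) hy ?_ ?_ ?_
    · rintro J _ ⟨w, hw, rfl⟩
      have h1 : ftL I z * ftL J w = ft (app I J) (tmul z w) := ft_mul I J z w
      rw [h1]
      exact T.ft_mem (T.mul_mem hz hw) _
    · rw [mul_zero]
      exact Submodule.zero_mem _
    · intro x y hx hy
      rw [mul_add]
      exact Submodule.add_mem _ hx hy
  · rw [zero_mul]
    exact Submodule.zero_mem _
  · intro x y hx hy
    rw [add_mul]
    exact Submodule.add_mem _ hx hy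

lemma one_notMem_Mi [CharZero K] [Nonempty ι] : (1 : Kap K ι) ∉ T.Mi := by
  intro h
  obtain ⟨a, ha⟩ := T.mem_Mi.1 h
  exact T.one_notMem a ha

/-- The subring of the scalars plus the span. -/
noncomputable def A0 [Nonempty ι] : Subring (Kap K ι) where
  carrier := {x | ∃ (c : K) (m : Kap K ι), m ∈ T.Mi ∧ x = algebraMap K (Kap K ι) c + m}
  mul_mem' := by
    rintro _ _ ⟨c, m, hm, rfl⟩ ⟨d, n, hn, rfl⟩
    refine ⟨c * d, c • n + d • m + m * n, Submodule.add_mem _ (Submodule.add_mem _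
      (Submodule.smul_mem _ _ hn) (Submodule.smul_mem _ _ hm)) (T.mul_mem_Mi hm hn), ?_⟩
    rw [Algebra.smul_def, Algebra.smul_def, map_mul]
    ring
  one_mem' := ⟨1, 0, Submodule.zero_mem _, by rw [map_one, add_zero]⟩
  add_mem' := by
    rintro _ _ ⟨c, m, hm, rfl⟩ ⟨d, n, hn, rfl⟩
    refine ⟨c + d, m + n, Submodule.add_mem _ hm hn, ?_⟩
    rw [map_add]
    ring
  zero_mem' := ⟨0, 0, Submodule.zero_mem _, by rw [map_zero, add_zero]⟩
  neg_mem' := by
    rintro _ ⟨c, m, hm, rfl⟩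
    refine ⟨-c, -m, Submodule.neg_mem _ hm, ?_⟩
    rw [map_neg]
    ring

/-- The ideal of the subring. -/
noncomputable def I0 [Nonempty ι] : Ideal T.A0 where
  carrier := {x | (x : Kap K ι) ∈ T.Mi}
  add_mem' := by
    intro x y hx hy
    change (x : Kap K ι) + (y : Kap K ι) ∈ T.Mi
    exact Submodule.add_mem _ hx hy
  zero_mem' := by
    change ((0 : T.A0) : Kap K ι) ∈ T.Mi
    exact Submodule.zero_mem _
  smul_mem' := by
    rintro ⟨_, c, m, hm, rfl⟩ y hy
    change (algebraMap K (Kap K ι) c + m) * (y : Kap K ι) ∈ T.Mi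
    rw [add_mul, ← Algebra.smul_def]
    exact Submodule.add_mem _ (Submodule.smul_mem _ _ hy) (T.mul_mem_Mi hm hy)

theorem exists_valuation [CharZero K] [Nonempty ι] : ∃ O : ValuationSubring (Kap K ι),
    (∀ c : K, algebraMap K (Kap K ι) c ∈ O) ∧
    ∀ (a : ℕ), ∀ z ∈ T.N a, ∀ I, ft I z ∈ O.nonunits := by
  have hI : T.I0 ≠ ⊤ := by
    intro h
    rw [Ideal.eq_top_iff_one] at h
    have h2 : ((1 : T.A0) : Kap K ι) ∈ T.Mi := h
    exact T.one_notMem_Mi h2
  obtain ⟨O, hO, hO'⟩ := Ideal.image_subset_nonunits_valuationSubring T.I0 hI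
  refine ⟨O, fun c => hO ⟨c, 0, Submodule.zero_mem _, by rw [add_zero]⟩, ?_⟩
  intro a z hz I
  have h1 : ft I z ∈ T.Mi := T.mem_Mi.2 ⟨a, T.ft_mem hz I⟩
  have h2 : (⟨ft I z, 0, ft I z, h1, by rw [map_zero, zero_add]⟩ : T.A0) ∈ T.I0 := by
    change ft I z ∈ T.Mi
    exact h1
  exact hO' ⟨_, h2, rfl⟩

end TIdeal

end Pool.Agent.R908.Km
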