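import Mathlib

/-!
# Diagonalisation of matrices over valuation rings
-/

namespace Pool.Agent.R908.Km

open Matrix

universe u v

variable {κ : Type v} [Field κ]

/-- All entries are in the valuation ring. -/
def InO (O : ValuationSubring κ) {ι ι' : Type*} (M : Matrix ι ι' κ) : Prop := ∀ i j, M i j ∈ O

lemma InO.mul {O : ValuationSubring κ} {ι ι' ι'' : Type*} [Fintype ι'] {M : Matrix ι ι' κ}
    {N : Matrix ι' ι'' κ} (hM : InO O M) (hN : InO O N) : InO O (M * N) := by
  intro i j
  rw [Matrix.mul_apply]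
  exact sum_mem fun k _ => mul_mem (hM i k) (hN k j)

lemma InO.neg {O : ValuationSubring κ} {ι ι' : Type*} {M : Matrix ι ι' κ} (hM : InO O M) :
    InO O (-M) := fun i j => neg_mem (hM i j)

lemma InO.one {O : ValuationSubring κ} {ι : Type*} [DecidableEq ι] :
    InO O (1 : Matrix ι ι κ) := by
  intro i j
  by_cases h : i = j
  · subst h
    rw [Matrix.one_apply_eq]
    exact one_mem O
  · rw [Matrix.one_apply_ne h]
    exact zero_mem O

lemma InO.zero {O : ValuationSubring κ} {ι ι' : Type*} : InO O (0 : Matrix ι ι' κ) :=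
  fun _ _ => zero_mem O

lemma InO.blocks {O : ValuationSubring κ} {l m n o : Type*} {A : Matrix n l κ}
    {B : Matrix n m κ} {C : Matrix o l κ} {D : Matrix o m κ} (hA : InO O A) (hB : InO O B)
    (hC : InO O C) (hD : InO O D) : InO O (fromBlocks A B C D) := by
  rintro (i | i) (j | j)
  · exact hA i j
  · exact hB i j
  · exact hC i j
  · exact hD i j

/-- The matrix is diagonalisable by integral invertible matrices on both sides. -/
def Smith (O : ValuationSubring κ) {ι : Type*} [Fintype ι] [DecidableEq ι] (g : Matrix ι ι κ) :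
    Prop :=
  ∃ (k₁ k₁' k₂ k₂' : Matrix ι ι κ) (d : ι → κ), InO O k₁ ∧ InO O k₁' ∧ InO O k₂ ∧ InO O k₂' ∧
    k₁ * k₁' = 1 ∧ k₂ * k₂' = 1 ∧ (∀ i, d i ≠ 0) ∧ g = k₁ * diagonal d * k₂

lemma Smith.submatrix {O : ValuationSubring κ} {ι ι' : Type*} [Fintype ι] [DecidableEq ι]
    [Fintype ι'] [DecidableEq ι'] {g : Matrix ι ι κ} (h : Smith O g) (σ τ : ι' ≃ ι) :
    Smith O (g.submatrix σ τ) := by
  obtain ⟨k₁, k₁', k₂, k₂', d, h1, h1', h2, h2', e1, e2, hd, rfl⟩ := h
  refine ⟨k₁.submatrix σ σ, k₁'.submatrix σ σ, k₂.submatrix σ τ, k₂'.submatrix τ σ,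
    fun i => d (σ i), fun i j => h1 _ _, fun i j => h1' _ _, fun i j => h2 _ _,
    fun i j => h2' _ _, ?_, ?_, fun i => hd _, ?_⟩
  · rw [Matrix.submatrix_mul_equiv, e1, Matrix.submatrix_one_equiv]
  · rw [Matrix.submatrix_mul_equiv, e2, Matrix.submatrix_one_equiv]
  · have h3 : (diagonal fun i => d (σ i)) = (diagonal d).submatrix σ σ :=
      (Matrix.submatrix_diagonal_equiv d σ).symm
    rw [h3, Matrix.submatrix_mul_equiv, Matrix.submatrix_mul_equiv]

lemma smith_block {O : ValuationSubring κ} {ι : Type*} [Fintype ι] [DecidableEq ι]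
    (a : κ) (ha : a ≠ 0) (B : Matrix Unit ι κ) (C : Matrix ι Unit κ) (D : Matrix ι ι κ)
    (hB : ∀ i j, a⁻¹ * B i j ∈ O) (hC : ∀ i j, C i j * a⁻¹ ∈ O)
    (h : Smith O (D - C * ((Matrix.of fun _ _ => a⁻¹ : Matrix Unit Unit κ)) * B)) :
    Smith O (fromBlocks (Matrix.of fun _ _ => a) B C D) := by
  set A : Matrix Unit Unit κ := Matrix.of fun _ _ => a with hA
  set A' : Matrix Unit Unit κ := Matrix.of fun _ _ => a⁻¹ with hA'
  have hAA : A * A' = 1 := by
    ext i j
    rw [Matrix.mul_apply]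
    simp [A, A', ha]
  have hAA' : A' * A = 1 := by
    ext i j
    rw [Matrix.mul_apply]
    simp [A, A', ha]
  obtain ⟨k₁, k₁', k₂, k₂', d, h1, h1', h2, h2', e1, e2, hd, hS⟩ := h
  have hU : InO O (A' * B) := by
    intro i j
    rw [Matrix.mul_apply]
    simpa [A'] using hB i j
  have hL : InO O (C * A') := by
    intro i j
    rw [Matrix.mul_apply]
    simpa [A'] using hC i j
  refine ⟨fromBlocks 1 0 (C * A') k₁, fromBlocks 1 0 (-(k₁' * (C * A'))) k₁',
    fromBlocks 1 (A' * B) 0 k₂, fromBlocks 1 (-(A' * B * k₂')) 0 k₂',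
    Sum.elim (fun _ => a) d, InO.blocks InO.one InO.zero hL h1,
    InO.blocks InO.one InO.zero (h1'.mul hL).neg h1', InO.blocks InO.one hU InO.zero h2,
    InO.blocks InO.one (hU.mul h2').neg InO.zero h2', ?_, ?_, ?_, ?_⟩
  · rw [fromBlocks_multiply]
    simp only [Matrix.one_mul, Matrix.mul_one, Matrix.zero_mul, Matrix.mul_zero, add_zero,
      zero_add, Matrix.mul_neg, ← Matrix.mul_assoc, e1]
    rw [add_neg_cancel, neg_zero, add_zero, fromBlocks_one]
  · rw [fromBlocks_multiply]
    simp only [Matrix.one_mul, Matrix.mul_one, Matrix.zero_mul, Matrix.mul_zero, add_zero,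
      zero_add, e2]
    rw [neg_add_cancel, fromBlocks_one]
  · rintro (i | i)
    · exact ha
    · exact hd i
  · have hdiag : diagonal (Sum.elim (fun _ : Unit => a) d) =
        fromBlocks A 0 0 (diagonal d) := by
      have h5 : A = diagonal (fun _ : Unit => a) := by
        ext i j
        simp [A]
      rw [h5, fromBlocks_diagonal]
    rw [hdiag, fromBlocks_multiply, fromBlocks_multiply]
    simp only [Matrix.one_mul, Matrix.mul_one, Matrix.zero_mul, Matrix.mul_zero, add_zero,
      zero_add]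
    rw [← hS, Matrix.mul_assoc C A' A, hAA', Matrix.mul_one, ← Matrix.mul_assoc A A' B, hAA,
      Matrix.one_mul, ← Matrix.mul_assoc C A' B]
    congr 1
    abel

lemma exists_max_entry (O : ValuationSubring κ) {ι : Type*} [Fintype ι] [DecidableEq ι]
    [Nonempty ι] {g : Matrix ι ι κ} (hg : g.det ≠ 0) :
    ∃ i₀ j₀, g i₀ j₀ ≠ 0 ∧ ∀ i j, (g i₀ j₀)⁻¹ * g i j ∈ O := by
  obtain ⟨⟨i₀, j₀⟩, -, h⟩ := Finset.exists_max_image (Finset.univ : Finset (ι × ι))
    (fun x => O.valuation (g x.1 x.2)) Finset.univ_nonempty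
  have hne : g i₀ j₀ ≠ 0 := by
    intro h0
    apply hg
    have hz : g = 0 := by
      ext i j
      have h1 := h (i, j) (Finset.mem_univ _)
      simp only [h0, map_zero] at h1
      exact (map_eq_zero O.valuation).1 (le_antisymm h1 zero_le')
    rw [hz, Matrix.det_zero]
  refine ⟨i₀, j₀, hne, fun i j => ?_⟩
  rw [← O.valuation_le_one_iff, map_mul, map_inv₀]
  have h1 := h (i, j) (Finset.mem_univ _)
  have h2 : O.valuation (g i₀ j₀) ≠ 0 := (map_ne_zero O.valuation).2 hne
  calc (O.valuation (g i₀ j₀))⁻¹ * O.valuation (g i j)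
      ≤ (O.valuation (g i₀ j₀))⁻¹ * O.valuation (g i₀ j₀) := mul_le_mul_right h1 _
    _ = 1 := inv_mul_cancel₀ h2

theorem smith_sum (O : ValuationSubring κ) {ι : Type*} [Fintype ι] [DecidableEq ι]
    (ih : ∀ g : Matrix ι ι κ, g.det ≠ 0 → Smith O g) (g : Matrix (Unit ⊕ ι) (Unit ⊕ ι) κ)
    (hg : g.det ≠ 0) : Smith O g := by
  obtain ⟨i₀, j₀, hne, hO⟩ := exists_max_entry O hg
  set σ : Equiv.Perm (Unit ⊕ ι) := Equiv.swap (Sum.inl ()) i₀ with hσ
  set τ : Equiv.Perm (Unit ⊕ ι) := Equiv.swap (Sum.inl ()) j₀ with hτ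
  set g' := g.submatrix σ τ with hg'
  have h1 : g = g'.submatrix σ τ := by
    ext i j
    rw [hg', Matrix.submatrix_apply, Matrix.submatrix_apply, hσ, hτ]
    simp
  rw [h1]
  apply Smith.submatrix
  have ha : g' (Sum.inl ()) (Sum.inl ()) = g i₀ j₀ := by
    rw [hg', Matrix.submatrix_apply, hσ, hτ, Equiv.swap_apply_left, Equiv.swap_apply_left]
  have hO' : ∀ i j, (g i₀ j₀)⁻¹ * g' i j ∈ O := fun i j => hO _ _
  have hb : g' = fromBlocks (Matrix.of fun _ _ => g i₀ j₀) g'.toBlocks₁₂ g'.toBlocks₂₁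
      g'.toBlocks₂₂ := by
    conv_lhs => rw [← fromBlocks_toBlocks g']
    congr 1
  rw [hb]
  apply smith_block _ hne
  · intro i j
    exact hO' _ _
  · intro i j
    rw [mul_comm]
    exact hO' _ _
  · apply ih
    intro h0
    apply hg
    have h2 : g'.det = 0 := by
      rw [hb]
      have h3 : IsUnit (Matrix.of fun _ _ => g i₀ j₀ : Matrix Unit Unit κ) := by
        rw [Matrix.isUnit_iff_isUnit_det, Matrix.det_unique]
        exact isUnit_iff_ne_zero.2 hne
      have := h3.invertible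
      rw [Matrix.det_fromBlocks₁₁]
      have h4 : ⅟(Matrix.of fun _ _ => g i₀ j₀ : Matrix Unit Unit κ) =
          Matrix.of fun _ _ => (g i₀ j₀)⁻¹ := by
        apply invOf_eq_right_inv
        ext i j
        rw [Matrix.mul_apply]
        simp [hne]
      rw [h4, h0, mul_zero]
    have h5 : g'.submatrix σ τ = (g'.submatrix σ id).submatrix id τ := rfl
    rw [h1, h5, Matrix.det_permute', Matrix.det_permute, h2]
    simp

theorem smith (O : ValuationSubring κ) {ι : Type u} [Fintype ι] [DecidableEq ι]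
    (g : Matrix ι ι κ) (hg : g.det ≠ 0) : Smith O g := by
  have key : ∀ (ι : Type u) [Finite ι], ∀ [Fintype ι] [DecidableEq ι] (g : Matrix ι ι κ),
      g.det ≠ 0 → Smith O g := by
    intro ι _
    refine Finite.induction_empty_option (P := fun ι => ∀ [Fintype ι] [DecidableEq ι]
      (g : Matrix ι ι κ), g.det ≠ 0 → Smith O g) ?_ ?_ ?_ ι
    · intro α β e h _ _ g hg
      have : Fintype α := Fintype.ofEquiv β e.symm
      have : DecidableEq α := e.decidableEq
      have h1 : g = (g.submatrix e e).submatrix e.symm e.symm := by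
        ext i j
        simp
      rw [h1]
      apply Smith.submatrix
      apply h
      rw [Matrix.det_submatrix_equiv_self]
      exact hg
    · intro _ _ g _
      refine ⟨1, 1, 1, 1, fun _ => 1, InO.one, InO.one, InO.one, InO.one, one_mul _, one_mul _,
        fun i => one_ne_zero, ?_⟩
      ext i
      exact i.elim
    · intro α _ h _ _ g hg
      have : DecidableEq α := Classical.decEq α
      have e : Option α ≃ Unit ⊕ α := (Equiv.optionEquivSumPUnit α).trans (Equiv.sumComm _ _)
      have h1 : g = (g.submatrix e.symm e.symm).submatrix e e := by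
        ext i j
        simp
      rw [h1]
      apply Smith.submatrix
      apply smith_sum O (fun g hg => h g hg)
      rw [Matrix.det_submatrix_equiv_self]
      exact hg
  exact key ι g hg

end Pool.Agent.R908.Km
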