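import Mathlib

/-!
# A theorem of the alternative
-/

namespace Pool.Agent.R908.Km

open Finset

lemma exists_btw (A B : Finset ℝ) (h : ∀ a ∈ A, ∀ b ∈ B, a < b) :
    ∃ t : ℝ, (∀ a ∈ A, a < t) ∧ ∀ b ∈ B, t < b := by
  rcases A.eq_empty_or_nonempty with rfl | hA
  · rcases B.eq_empty_or_nonempty with rfl | hB
    · exact ⟨0, by simp, by simp⟩
    · obtain ⟨b, hb, hb'⟩ := Finset.exists_min_image B id hB
      exact ⟨b - 1, by simp, fun c hc => by have := hb' c hc; simp only [id] at this; linarith⟩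
  · obtain ⟨a, ha, ha'⟩ := Finset.exists_max_image A id hA
    rcases B.eq_empty_or_nonempty with rfl | hB
    · exact ⟨a + 1, fun c hc => by have := ha' c hc; simp only [id] at this; linarith, by simp⟩
    · obtain ⟨b, hb, hb'⟩ := Finset.exists_min_image B id hB
      have hab := h a ha b hb
      refine ⟨(a + b) / 2, fun c hc => ?_, fun c hc => ?_⟩
      · have := ha' c hc
        simp only [id] at this
        linarith
      · have := hb' c hc
        simp only [id] at this
        linarith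

lemma pos_smul {M : Type*} [AddCommGroup M] {Pos : M → Prop}
    (hadd : ∀ x y, Pos x → Pos y → Pos (x + y)) {x : M} (hx : Pos x) {k : ℤ} (hk : 0 < k) :
    Pos (k • x) := by
  obtain ⟨m, rfl⟩ := Int.eq_succ_of_zero_lt hk
  induction m with
  | zero => simpa using hx
  | succ m ih =>
    have h1 : (((m + 1 : ℕ) : ℤ) + 1) • x = ((m : ℤ) + 1) • x + x := by
      push_cast
      rw [add_smul _ (1 : ℤ) x, one_smul]
    rw [h1]
    exact hadd _ _ (ih (by positivity)) hx

theorem gordan_fin (n : ℕ) : ∀ (Pos : (Fin n → ℤ) → Prop)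
    (_ : ∀ x y, Pos x → Pos y → Pos (x + y)) (_ : ¬ Pos 0) (P : Finset (Fin n → ℤ))
    (_ : ∀ χ ∈ P, Pos χ), ∃ w : Fin n → ℝ, ∀ χ ∈ P, 0 < ∑ i, (χ i : ℝ) * w i := by
  classical
  induction n with
  | zero =>
    intro Pos _ h0 P hP
    refine ⟨0, fun χ hχ => absurd (hP χ hχ) ?_⟩
    rwa [Subsingleton.elim χ 0]
  | succ n ih =>
    intro Pos hadd h0 P hP
    set Pp := P.filter (fun χ => 0 < χ 0) with hPp
    set Pn := P.filter (fun χ => χ 0 < 0) with hPn
    set Pz := P.filter (fun χ => χ 0 = 0) with hPz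
    set P' : Finset (Fin n → ℤ) := Pz.image (fun χ => Fin.tail χ) ∪
      (Pp ×ˢ Pn).image (fun x => Fin.tail ((-x.2 0) • x.1 + (x.1 0) • x.2)) with hP'
    obtain ⟨w, hw⟩ := ih (fun x => Pos (Fin.cons 0 x)) (by
        intro x y hx hy
        have h1 : (Fin.cons 0 (x + y) : Fin (n + 1) → ℤ) = Fin.cons 0 x + Fin.cons 0 y := by
          funext i
          refine Fin.cases ?_ (fun i => ?_) i <;> simp
        beta_reduce
        rw [h1]
        exact hadd _ _ hx hy) (by
        have h1 : (Fin.cons 0 (0 : Fin n → ℤ) : Fin (n + 1) → ℤ) = 0 := by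
          funext i
          refine Fin.cases ?_ (fun i => ?_) i <;> simp
        beta_reduce
        rw [h1]
        exact h0) P' (by
        intro χ hχ
        rw [hP', Finset.mem_union, Finset.mem_image, Finset.mem_image] at hχ
        rcases hχ with ⟨ψ, hψ, rfl⟩ | ⟨⟨ψ, ψ'⟩, hψ, rfl⟩
        · rw [hPz, Finset.mem_filter] at hψ
          have h1 : (Fin.cons 0 (Fin.tail ψ) : Fin (n + 1) → ℤ) = ψ := by
            rw [← hψ.2, Fin.cons_self_tail]
          rw [h1]
          exact hP _ hψ.1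
        · rw [Finset.mem_product, hPp, hPn, Finset.mem_filter, Finset.mem_filter] at hψ
          obtain ⟨⟨h1, h2⟩, h3, h4⟩ := hψ
          have h5 : ((-ψ' 0) • ψ + (ψ 0) • ψ') 0 = 0 := by
            simp only [Pi.add_apply, Pi.smul_apply, smul_eq_mul]
            ring
          have h6 : (Fin.cons 0 (Fin.tail ((-ψ' 0) • ψ + (ψ 0) • ψ')) : Fin (n + 1) → ℤ) =
              (-ψ' 0) • ψ + (ψ 0) • ψ' := by
            conv_lhs => rw [← h5]
            rw [Fin.cons_self_tail]
          change Pos (Fin.cons 0 (Fin.tail ((-ψ' 0) • ψ + (ψ 0) • ψ')))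
          rw [h6]
          exact hadd _ _ (pos_smul hadd (hP _ h1) (by simp only at h4; omega))
            (pos_smul hadd (hP _ h3) h2))
    set S : (Fin (n + 1) → ℤ) → ℝ := fun χ => ∑ i, (Fin.tail χ i : ℝ) * w i with hS
    have hlin : ∀ (a b : ℤ) (χ ψ : Fin (n + 1) → ℤ), S (a • χ + b • ψ) = a * S χ + b * S ψ := by
      intro a b χ ψ
      simp only [hS, Finset.mul_sum, ← Finset.sum_add_distrib]
      refine Finset.sum_congr rfl fun i _ => ?_
      simp only [Fin.tail, Pi.add_apply, Pi.smul_apply, smul_eq_mul]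
      push_cast
      ring
    obtain ⟨t, ht1, ht2⟩ := exists_btw (Pp.image fun χ => -S χ / (χ 0 : ℝ))
      (Pn.image fun χ => S χ / (-(χ 0 : ℝ))) (by
        intro a ha b hb
        rw [Finset.mem_image] at ha hb
        obtain ⟨ψ, hψ, rfl⟩ := ha
        obtain ⟨ψ', hψ', rfl⟩ := hb
        have h1 := hw (Fin.tail ((-ψ' 0) • ψ + (ψ 0) • ψ')) (by
          rw [hP', Finset.mem_union, Finset.mem_image, Finset.mem_image]
          exact Or.inr ⟨(ψ, ψ'), Finset.mem_product.2 ⟨hψ, hψ'⟩, rfl⟩)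
        have h2 : (0 : ℝ) < S ((-ψ' 0) • ψ + (ψ 0) • ψ') := h1
        rw [hlin] at h2
        rw [hPp, Finset.mem_filter] at hψ
        rw [hPn, Finset.mem_filter] at hψ'
        have h3 : (0 : ℝ) < ψ 0 := by exact_mod_cast hψ.2
        have h4 : (0 : ℝ) < -(ψ' 0 : ℝ) := by
          have : (ψ' 0 : ℝ) < 0 := by exact_mod_cast hψ'.2
          linarith
        rw [div_lt_div_iff₀ h3 h4]
        push_cast at h2
        nlinarith)
    refine ⟨Fin.cons t w, fun χ hχ => ?_⟩
    have h1 : ∑ i, (χ i : ℝ) * (Fin.cons t w : Fin (n + 1) → ℝ) i = (χ 0 : ℝ) * t + S χ := by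
      rw [Fin.sum_univ_succ]
      simp only [Fin.cons_zero, Fin.cons_succ]
      rfl
    rw [h1]
    rcases lt_trichotomy (χ 0) 0 with h | h | h
    · have h2 := ht2 _ (Finset.mem_image_of_mem _ (Finset.mem_filter.2 ⟨hχ, h⟩))
      have h4 : (0 : ℝ) < -(χ 0 : ℝ) := by
        have : (χ 0 : ℝ) < 0 := by exact_mod_cast h
        linarith
      rw [lt_div_iff₀ h4] at h2
      linarith
    · have h2 := hw (Fin.tail χ) (by
        rw [hP', Finset.mem_union]
        exact Or.inl (Finset.mem_image_of_mem _ (Finset.mem_filter.2 ⟨hχ, h⟩)))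
      rw [h]
      simp only [Int.cast_zero, zero_mul, zero_add]
      exact h2
    · have h2 := ht1 _ (Finset.mem_image_of_mem _ (Finset.mem_filter.2 ⟨hχ, h⟩))
      have h4 : (0 : ℝ) < (χ 0 : ℝ) := by exact_mod_cast h
      rw [div_lt_iff₀ h4] at h2
      linarith

/-- A theorem of the alternative. -/
theorem gordan {ι : Type*} [Fintype ι] (Pos : (ι → ℤ) → Prop)
    (hadd : ∀ x y, Pos x → Pos y → Pos (x + y)) (h0 : ¬ Pos 0) (P : Set (ι → ℤ))
    (hfin : P.Finite) (hP : ∀ χ ∈ P, Pos χ) : ∃ w : ι → ℝ, ∀ χ ∈ P, 0 < ∑ i, (χ i : ℝ) * w i := by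
  classical
  set e := Fintype.equivFin ι with he
  obtain ⟨w, hw⟩ := gordan_fin (Fintype.card ι) (fun x => Pos (fun i => x (e i)))
    (fun x y hx hy => hadd _ _ hx hy) h0 (hfin.toFinset.image fun χ j => χ (e.symm j)) (by
      intro χ hχ
      rw [Finset.mem_image] at hχ
      obtain ⟨ψ, hψ, rfl⟩ := hχ
      have h1 : (fun i => ψ (e.symm (e i))) = ψ := by
        funext i
        rw [Equiv.symm_apply_apply]
      beta_reduce
      rw [h1]
      exact hP _ (hfin.mem_toFinset.1 hψ))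
  refine ⟨fun i => w (e i), fun χ hχ => ?_⟩
  have h1 := hw (fun j => χ (e.symm j)) (Finset.mem_image_of_mem _ (hfin.mem_toFinset.2 hχ))
  rw [← Equiv.sum_comp e] at h1
  simpa using h1

end Pool.Agent.R908.Km
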