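import Pool.Agent.R908.KmF
import Pool.Agent.R908.KmG
import Pool.Agent.R908.KmH

/-!
# The theorem of Hilbert and Mumford for tensor ideals
-/

namespace Pool.Agent.R908.Km

open Finset Function

lemma exists_specialization {K F : Type*} [Field K] [Field F] [Algebra K F] {σ : Type*}
    [Finite σ] (x : σ → F) : ∃ (B : Subalgebra K F) (_ : ∀ s, x s ∈ B),
      Nonempty (B →ₐ[K] AlgebraicClosure K) := by
  refine ⟨Algebra.adjoin K (Set.range x), fun s => Algebra.subset_adjoin ⟨s, rfl⟩, ?_⟩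
  have hfg : Algebra.FiniteType K (Algebra.adjoin K (Set.range x)) :=
    (Subalgebra.fg_iff_finiteType _).1 ⟨(Set.finite_range x).toFinset, by simp⟩
  obtain ⟨m, hm⟩ := Ideal.exists_maximal (Algebra.adjoin K (Set.range x))
  let _ : Field (Algebra.adjoin K (Set.range x) ⧸ m) := Ideal.Quotient.field m
  have h1 : Algebra.FiniteType K (Algebra.adjoin K (Set.range x) ⧸ m) :=
    Algebra.FiniteType.of_surjective (Ideal.Quotient.mkₐ K m) (Ideal.Quotient.mkₐ_surjective K m)
  have h2 : Module.Finite K (Algebra.adjoin K (Set.range x) ⧸ m) :=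
    finite_of_finite_type_of_isJacobsonRing K _
  have h3 : Algebra.IsAlgebraic K (Algebra.adjoin K (Set.range x) ⧸ m) := inferInstance
  exact ⟨(IsAlgClosed.lift (M := AlgebraicClosure K) (R := K)
    (S := Algebra.adjoin K (Set.range x) ⧸ m)).comp (Ideal.Quotient.mkₐ K m)⟩

section Mm

variable {R : Type*} [CommRing R] {ι : Type*} [Fintype ι] [DecidableEq ι] {a : ℕ}

/-- The pair of matrices `k`, `k'` acting on mixed tensors. -/
def mm (k k' : Matrix ι ι R) (s : Fin a ⊕ Fin a) : Matrix ι ι R :=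
  Sum.elim (fun _ => k) (fun _ => k'.transpose) s

lemma mm_mul (k k' l l' : Matrix ι ι R) (s : Fin a ⊕ Fin a) :
    mm k k' s * mm l l' s = mm (k * l) (l' * k') s := by
  rcases s with s | s
  · rfl
  · change k'.transpose * l'.transpose = (l' * k').transpose
    rw [Matrix.transpose_mul]

lemma act_mm (k k' l l' : Matrix ι ι R) (z : (Fin a ⊕ Fin a → ι) → R) :
    act (mm k k') (act (mm l l') z) = act (mm (k * l) (l' * k')) z := by
  rw [act_act]
  congr 1
  funext s
  exact mm_mul k k' l l' s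

lemma act_mm_one (z : (Fin a ⊕ Fin a → ι) → R) :
    act (mm (1 : Matrix ι ι R) 1) z = z := by
  have h1 : (mm (1 : Matrix ι ι R) 1 : Fin a ⊕ Fin a → Matrix ι ι R) = fun _ => 1 := by
    funext s
    rcases s with s | s
    · rfl
    · exact Matrix.transpose_one
  rw [h1, act_one]

lemma act_map {R' : Type*} [CommRing R'] (φ : R →+* R') {S : Type*} [Fintype S] [DecidableEq S]
    (M : S → Matrix ι ι R) (z : (S → ι) → R) (I : S → ι) :
    φ (act M z I) = act (fun s => (M s).map φ) (fun J => φ (z J)) I := by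
  simp only [act, map_sum, map_mul, map_prod, Matrix.map_apply]

lemma mm_map {R' : Type*} [CommRing R'] (φ : R →+* R') (k k' : Matrix ι ι R)
    (s : Fin a ⊕ Fin a) : (mm k k' s).map φ = mm (k.map φ) (k'.map φ) s := by
  rcases s with s | s
  · rfl
  · rfl

lemma act_mm_map {R' : Type*} [CommRing R'] (φ : R →+* R') (k k' : Matrix ι ι R)
    (z : (Fin a ⊕ Fin a → ι) → R) (I : Fin a ⊕ Fin a → ι) :
    φ (act (mm k k') z I) = act (mm (k.map φ) (k'.map φ)) (fun J => φ (z J)) I := by
  rw [act_map]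
  congr 1
  funext s
  exact mm_map φ k k' s

lemma act_diag (d d' : ι → R) (z : (Fin a ⊕ Fin a → ι) → R) (I : Fin a ⊕ Fin a → ι) :
    act (mm (Matrix.diagonal d) (Matrix.diagonal d')) z I =
      (∏ s, d (I (Sum.inl s))) * (∏ s, d' (I (Sum.inr s))) * z I := by
  rw [act, Finset.sum_eq_single I]
  · rw [Fintype.prod_sum_type]
    simp [mm]
  · intro J _ hJ
    obtain ⟨s, hs⟩ := Function.ne_iff.1 hJ
    rw [Finset.prod_eq_zero (Finset.mem_univ s), zero_mul]
    rcases s with s | s
    · exact Matrix.diagonal_apply_ne _ (Ne.symm hs)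
    · change (Matrix.diagonal d') (J (Sum.inr s)) (I (Sum.inr s)) = 0
      exact Matrix.diagonal_apply_ne _ hs
  · intro h
    exact absurd (Finset.mem_univ I) h

/-- The exponent of a multi-index. -/
def ct (I : Fin a ⊕ Fin a → ι) (i : ι) : ℤ :=
  (∑ s : Fin a, if I (Sum.inl s) = i then (1 : ℕ) else 0 : ℕ) -
    (∑ s : Fin a, if I (Sum.inr s) = i then (1 : ℕ) else 0 : ℕ)

lemma prod_ct {G : Type*} [CommGroup G] (f : ι → G) (I : Fin a ⊕ Fin a → ι) :
    ∏ i, f i ^ ct I i = (∏ s, f (I (Sum.inl s))) * (∏ s, f (I (Sum.inr s)))⁻¹ := by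
  have key : ∀ J : Fin a → ι, ∏ i, f i ^ (∑ s : Fin a, if J s = i then (1 : ℕ) else 0) =
      ∏ s, f (J s) := by
    intro J
    have h1 : ∀ i, f i ^ (∑ s : Fin a, if J s = i then (1 : ℕ) else 0) =
        ∏ s, (if J s = i then f i else 1) := by
      intro i
      rw [← Finset.prod_pow_eq_pow_sum]
      refine Finset.prod_congr rfl fun s _ => ?_
      split_ifs <;> simp
    simp only [h1]
    rw [Finset.prod_comm]
    refine Finset.prod_congr rfl fun s _ => ?_
    rw [Finset.prod_ite_eq]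
    simp
  simp only [ct, zpow_sub, zpow_natCast]
  rw [Finset.prod_mul_distrib, Finset.prod_inv_distrib, key (fun s => I (Sum.inl s)),
    key (fun s => I (Sum.inr s))]

/-- The weight of a multi-index. -/
def wt (w : ι → ℝ) (I : Fin a ⊕ Fin a → ι) : ℝ :=
  ∑ s, w (I (Sum.inl s)) - ∑ s, w (I (Sum.inr s))

lemma wt_eq (w : ι → ℝ) (I : Fin a ⊕ Fin a → ι) : ∑ i, (ct I i : ℝ) * w i = wt w I := by
  have key : ∀ J : Fin a → ι, ∑ i, ((∑ s : Fin a, if J s = i then (1 : ℕ) else 0 : ℕ) : ℝ) * w i =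
      ∑ s, w (J s) := by
    intro J
    have h1 : ∀ i, ((∑ s : Fin a, if J s = i then (1 : ℕ) else 0 : ℕ) : ℝ) * w i =
        ∑ s, (if J s = i then w i else 0) := by
      intro i
      push_cast
      rw [Finset.sum_mul]
      refine Finset.sum_congr rfl fun s _ => ?_
      split_ifs <;> simp
    simp only [h1]
    rw [Finset.sum_comm]
    refine Finset.sum_congr rfl fun s _ => ?_
    rw [Finset.sum_ite_eq]
    simp
  simp only [ct, Int.cast_sub, Int.cast_natCast, sub_mul]
  rw [Finset.sum_sub_distrib, key (fun s => I (Sum.inl s)), key (fun s => I (Sum.inr s))]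
  rfl

end Mm

lemma mul_nonunits {κ : Type*} [Field κ] {O : ValuationSubring κ} {x y : κ} (hx : x ∈ O)
    (hy : y ∈ O.nonunits) : x * y ∈ O.nonunits := by
  rw [ValuationSubring.mem_nonunits_iff] at hy ⊢
  rw [map_mul]
  have h1 := (O.valuation_le_one_iff x).2 hx
  exact lt_of_le_of_lt (mul_le_of_le_one_left' h1) hy

lemma nonunits_of_mul {κ : Type*} [Field κ] {O : ValuationSubring κ} {x y : κ}
    (hx : x ∉ O.nonunits) (hxy : x * y ∈ O.nonunits) : y ∈ O.nonunits := by
  rw [ValuationSubring.mem_nonunits_iff] at hxy hx ⊢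
  rw [not_lt] at hx
  rw [map_mul] at hxy
  exact lt_of_le_of_lt (le_mul_of_one_le_left' hx) hxy

namespace TIdeal

variable {K : Type*} [Field K] {ι : Type*} [Fintype ι] [DecidableEq ι] (T : TIdeal K ι)

/-- **The theorem of Hilbert and Mumford for tensor ideals.** -/
theorem hilbert_mumford [CharZero K] [Nonempty ι] (a : ℕ) :
    ∃ (k k' : Matrix ι ι (AlgebraicClosure K)) (w : ι → ℝ), k * k' = 1 ∧
      ∀ z ∈ T.N a, ∀ I, act (mm k k') (fun J => algebraMap K (AlgebraicClosure K) (z J)) I ≠ 0 →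
        0 < wt w I := by
  obtain ⟨O, hK, hO⟩ := T.exists_valuation
  obtain ⟨k₁, k₁', k₂, k₂', d, h1, h1', h2, h2', e1, e2, hd, hg⟩ :=
    smith O (gx K ι) det_gx
  have e1' : k₁' * k₁ = 1 := mul_eq_one_comm.1 e1
  have e2' : k₂' * k₂ = 1 := mul_eq_one_comm.1 e2
  set D := Matrix.diagonal d with hD
  set D' := Matrix.diagonal (fun i => (d i)⁻¹) with hD'
  have hDD : D * D' = 1 := by
    rw [hD, hD', Matrix.diagonal_mul_diagonal, ← Matrix.diagonal_one]
    congr 1
    funext i
    exact mul_inv_cancel₀ (hd i)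
  have hinv : (gx K ι)⁻¹ = k₂' * D' * k₁' := by
    apply Matrix.inv_eq_right_inv
    calc gx K ι * (k₂' * D' * k₁') = k₁ * (D * (k₂ * k₂') * D') * k₁' := by
          rw [hg]; simp only [Matrix.mul_assoc]
      _ = 1 := by rw [e2, Matrix.mul_one, hDD, Matrix.mul_one, e1]
  have hsmall : ∀ z ∈ T.N a, ∀ I : Fin a ⊕ Fin a → ι,
      (∏ s, d (I (Sum.inl s))) * (∏ s, (d (I (Sum.inr s)))⁻¹) *
        act (mm k₂ k₂') (fun J => algebraMap K (Kap K ι) (z J)) I ∈ O.nonunits := by
    intro z hz I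
    rw [← act_diag d (fun i => (d i)⁻¹)]
    have h3 : act (mm D D') (act (mm k₂ k₂') (fun J => algebraMap K (Kap K ι) (z J))) =
        act (mm k₁' k₁) (fun I => ft I z) := by
      have h4 : (fun I => ft I z) = act (mm k₁ k₁') (act (mm D D') (act (mm k₂ k₂')
          (fun J => algebraMap K (Kap K ι) (z J)))) := by
        rw [act_mm, act_mm]
        funext I
        rw [ft]
        congr 1
        funext s
        have h5 : gm K ι a s = mm (gx K ι) (gx K ι)⁻¹ s := rfl
        rw [h5, hinv]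
        rw [hg, Matrix.mul_assoc, Matrix.mul_assoc]
      rw [h4, act_mm k₁' k₁ k₁ k₁', e1', act_mm_one]
    rw [h3, act]
    refine sum_mem fun J _ => ?_
    refine mul_nonunits ?_ (hO a z hz J)
    refine prod_mem fun s _ => ?_
    rcases s with s | s
    · exact h1' _ _
    · exact h1 _ _
  set du : ι → (Kap K ι)ˣ := fun i => Units.mk0 (d i) (hd i) with hdu
  obtain ⟨w, hw⟩ := gordan (fun χ : ι → ℤ => ((∏ i, du i ^ χ i : (Kap K ι)ˣ) : Kap K ι) ∈ O.nonunits)
    (by
      intro x y hx hy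
      beta_reduce at hx hy ⊢
      have h3 : ∏ i, du i ^ (x + y) i = (∏ i, du i ^ x i) * ∏ i, du i ^ y i := by
        rw [← Finset.prod_mul_distrib]
        refine Finset.prod_congr rfl fun i _ => ?_
        rw [Pi.add_apply, zpow_add]
      rw [h3, Units.val_mul]
      exact O.nonunits.mul_mem hx hy)
    (by
      beta_reduce
      have h3 : ∏ i, du i ^ (0 : ι → ℤ) i = 1 := by simp
      rw [h3, Units.val_one, ValuationSubring.mem_nonunits_iff, map_one]
      exact lt_irrefl _)
    {χ | (∃ I : Fin a ⊕ Fin a → ι, ct I = χ) ∧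
      ((∏ i, du i ^ χ i : (Kap K ι)ˣ) : Kap K ι) ∈ O.nonunits}
    ((Set.finite_range (fun I : Fin a ⊕ Fin a → ι => ct I)).subset (fun χ hχ => hχ.1))
    (fun χ hχ => hχ.2)
  have hzero : ∀ z ∈ T.N a, ∀ I : Fin a ⊕ Fin a → ι, ¬ 0 < wt w I →
      act (mm k₂ k₂') (fun J => algebraMap K (Kap K ι) (z J)) I ∈ O.nonunits := by
    intro z hz I hI
    refine nonunits_of_mul ?_ (hsmall z hz I)
    intro h3
    apply hI
    rw [← wt_eq]
    apply hw (ct I)
    refine ⟨⟨I, rfl⟩, ?_⟩
    rw [prod_ct]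
    have h4 : (((∏ s, du (I (Sum.inl s))) * (∏ s, du (I (Sum.inr s)))⁻¹ : (Kap K ι)ˣ) :
        Kap K ι) = (∏ s, d (I (Sum.inl s))) * ∏ s, (d (I (Sum.inr s)))⁻¹ := by
      rw [Units.val_mul, Units.val_inv_eq_inv_val, Units.coe_prod, Units.coe_prod,
        Finset.prod_inv_distrib]
      rfl
    rw [h4]
    exact h3
  -- the residue field
  let κK : K →+* O :=
    { toFun := fun c => ⟨algebraMap K (Kap K ι) c, hK c⟩
      map_one' := Subtype.ext (map_one _)
      map_mul' := fun x y => Subtype.ext (map_mul _ x y)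
      map_zero' := Subtype.ext (map_zero _)
      map_add' := fun x y => Subtype.ext (map_add _ x y) }
  let F := IsLocalRing.ResidueField O
  let ρ : O →+* F := IsLocalRing.residue O
  let _ : Algebra K F := (ρ.comp κK).toAlgebra
  let m₂ : Matrix ι ι O := Matrix.of fun i j => ⟨k₂ i j, h2 i j⟩
  let m₂' : Matrix ι ι O := Matrix.of fun i j => ⟨k₂' i j, h2' i j⟩
  have hm : m₂ * m₂' = 1 := by
    ext i j
    have h3 := congrFun (congrFun e2 i) j
    have h4 : ((m₂ * m₂') i j : Kap K ι) = (k₂ * k₂') i j := by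
      rw [Matrix.mul_apply, Matrix.mul_apply]
      push_cast
      rfl
    rw [h4, h3]
    by_cases hij : i = j
    · subst hij
      rw [Matrix.one_apply_eq, Matrix.one_apply_eq]
      rfl
    · rw [Matrix.one_apply_ne hij, Matrix.one_apply_ne hij]
      rfl
  have hres : ∀ z ∈ T.N a, ∀ I : Fin a ⊕ Fin a → ι, ¬ 0 < wt w I →
      act (mm (m₂.map ρ) (m₂'.map ρ)) (fun J => algebraMap K F (z J)) I = 0 := by
    intro z hz I hI
    have h3 := hzero z hz I hI
    have h4 : ((act (mm m₂ m₂') (fun J => κK (z J)) I : O) : Kap K ι) =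
        act (mm k₂ k₂') (fun J => algebraMap K (Kap K ι) (z J)) I :=
      act_mm_map (O.subtype) m₂ m₂' (fun J => κK (z J)) I
    rw [← h4, ValuationSubring.coe_mem_nonunits_iff] at h3
    have h5 : ρ (act (mm m₂ m₂') (fun J => κK (z J)) I) = 0 := by
      rw [IsLocalRing.residue_eq_zero_iff]
      exact h3
    rw [act_mm_map] at h5
    exact h5
  have hmρ : m₂.map ρ * m₂'.map ρ = 1 := by
    rw [← Matrix.map_mul, hm, Matrix.map_one _ (map_zero ρ) (map_one ρ)]
  obtain ⟨B, hB, ⟨f⟩⟩ := exists_specialization (K := K) (F := F)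
    (fun x : (ι × ι) ⊕ (ι × ι) => Sum.elim (fun x => (m₂.map ρ) x.1 x.2)
      (fun x => (m₂'.map ρ) x.1 x.2) x)
  let b : Matrix ι ι B := Matrix.of fun i j => ⟨(m₂.map ρ) i j, hB (Sum.inl (i, j))⟩
  let b' : Matrix ι ι B := Matrix.of fun i j => ⟨(m₂'.map ρ) i j, hB (Sum.inr (i, j))⟩
  have hb : b * b' = 1 := by
    ext i j
    have h3 := congrFun (congrFun hmρ i) j
    have h4 : ((b * b') i j : F) = (m₂.map ρ * m₂'.map ρ) i j := by
      rw [Matrix.mul_apply, Matrix.mul_apply]
      push_cast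
      rfl
    rw [h4, h3]
    by_cases hij : i = j
    · subst hij
      rw [Matrix.one_apply_eq, Matrix.one_apply_eq]
      rfl
    · rw [Matrix.one_apply_ne hij, Matrix.one_apply_ne hij]
      rfl
  refine ⟨b.map f, b'.map f, w, ?_, ?_⟩
  · have h3 : b.map f * b'.map f = (b * b').map f := (Matrix.map_mul (f := f.toRingHom)).symm
    rw [h3, hb]
    exact Matrix.map_one _ (map_zero f) (map_one f)
  · intro z hz I hI
    by_contra hcon
    apply hI
    have h3 := hres z hz I hcon
    have h4 : ((act (mm b b') (fun J => algebraMap K B (z J)) I : B) : F) =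
        act (mm (m₂.map ρ) (m₂'.map ρ)) (fun J => algebraMap K F (z J)) I :=
      act_mm_map (B.val.toRingHom) b b' (fun J => algebraMap K B (z J)) I
    have h5 : act (mm b b') (fun J => algebraMap K B (z J)) I = 0 := by
      apply Subtype.ext
      rw [h4, h3]
      rfl
    have h6 := act_mm_map (f.toRingHom) b b' (fun J => algebraMap K B (z J)) I
    rw [h5, map_zero] at h6
    have h7 : (fun J => f.toRingHom (algebraMap K B (z J))) =
        fun J => algebraMap K (AlgebraicClosure K) (z J) := by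
      funext J
      exact f.commutes (z J)
    rw [h7] at h6
    exact h6.symm

end TIdeal

end Pool.Agent.R908.Km
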