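import Mathlib

/-!
# Bruhat decomposition with respect to weights
-/

namespace Pool.Agent.R908.Km

open Matrix

universe u v

variable {κ : Type v} [Field κ]

/-- The matrix preserves the filtration given by the weights. -/
def UP {ι ι' : Type*} (w' : ι' → ℝ) (w : ι → ℝ) (q : Matrix ι' ι κ) : Prop :=
  ∀ i j, q i j ≠ 0 → w j ≤ w' i

lemma UP.mul {ι ι' ι'' : Type*} [Fintype ι'] {w'' : ι'' → ℝ} {w' : ι' → ℝ} {w : ι → ℝ}
    {M : Matrix ι'' ι' κ} {N : Matrix ι' ι κ} (hM : UP w'' w' M) (hN : UP w' w N) :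
    UP w'' w (M * N) := by
  intro i j hij
  rw [Matrix.mul_apply] at hij
  obtain ⟨k, -, hk⟩ := Finset.exists_ne_zero_of_sum_ne_zero hij
  exact (hN k j (right_ne_zero_of_mul hk)).trans (hM i k (left_ne_zero_of_mul hk))

lemma UP.neg {ι ι' : Type*} {w' : ι' → ℝ} {w : ι → ℝ} {M : Matrix ι' ι κ} (hM : UP w' w M) :
    UP w' w (-M) := fun i j h => hM i j (fun h' => h (by rw [Matrix.neg_apply, h', neg_zero]))

lemma UP.one {ι : Type*} [DecidableEq ι] {w : ι → ℝ} : UP w w (1 : Matrix ι ι κ) := by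
  intro i j h
  by_cases hij : i = j
  · rw [hij]
  · exact absurd (Matrix.one_apply_ne hij) h

lemma UP.zero {ι ι' : Type*} {w' : ι' → ℝ} {w : ι → ℝ} : UP w' w (0 : Matrix ι' ι κ) :=
  fun _ _ h => absurd rfl h

lemma UP.blocks {l m n o : Type*} {A : Matrix n l κ} {B : Matrix n m κ} {C : Matrix o l κ}
    {D : Matrix o m κ} {w' : n ⊕ o → ℝ} {w : l ⊕ m → ℝ}
    (hA : UP (fun i => w' (Sum.inl i)) (fun i => w (Sum.inl i)) A)
    (hB : UP (fun i => w' (Sum.inl i)) (fun i => w (Sum.inr i)) B)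
    (hC : UP (fun i => w' (Sum.inr i)) (fun i => w (Sum.inl i)) C)
    (hD : UP (fun i => w' (Sum.inr i)) (fun i => w (Sum.inr i)) D) :
    UP w' w (fromBlocks A B C D) := by
  rintro (i | i) (j | j)
  · exact hA i j
  · exact hB i j
  · exact hC i j
  · exact hD i j

/-- The decomposition of an invertible matrix. -/
def Bru {ι : Type*} [Fintype ι] [DecidableEq ι] (w' w : ι → ℝ) (h : Matrix ι ι κ) : Prop :=
  ∃ (p p' q q' : Matrix ι ι κ) (σ : Equiv.Perm ι), UP w' w' p ∧ UP w' w' p' ∧ UP w w q ∧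
    UP w w q' ∧ p * p' = 1 ∧ q * q' = 1 ∧ h = p * q.submatrix σ id

lemma Bru.submatrix {ι ι' : Type*} [Fintype ι] [DecidableEq ι] [Fintype ι'] [DecidableEq ι']
    {w' w : ι → ℝ} {h : Matrix ι ι κ} (hb : Bru w' w h) (ρ τ : ι' ≃ ι) :
    Bru (fun i => w' (ρ i)) (fun i => w (τ i)) (h.submatrix ρ τ) := by
  obtain ⟨p, p', q, q', σ, h1, h1', h2, h2', e1, e2, rfl⟩ := hb
  refine ⟨p.submatrix ρ ρ, p'.submatrix ρ ρ, q.submatrix τ τ, q'.submatrix τ τ,
    (ρ.trans σ).trans τ.symm, fun i j => h1 _ _, fun i j => h1' _ _, fun i j => h2 _ _,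
    fun i j => h2' _ _, ?_, ?_, ?_⟩
  · rw [Matrix.submatrix_mul_equiv, e1, Matrix.submatrix_one_equiv]
  · rw [Matrix.submatrix_mul_equiv, e2, Matrix.submatrix_one_equiv]
  · have h3 : (q.submatrix τ τ).submatrix ((ρ.trans σ).trans τ.symm) id =
        (q.submatrix σ id).submatrix ρ τ := by
      ext i j
      simp [Matrix.submatrix_apply]
    rw [h3, Matrix.submatrix_mul_equiv]

lemma bru_block {ι : Type*} [Fintype ι] [DecidableEq ι] (w' w : Unit ⊕ ι → ℝ)
    (a : κ) (ha : a ≠ 0) (B : Matrix Unit ι κ) (C : Matrix ι Unit κ) (D : Matrix ι ι κ)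
    (hw : ∀ j, w (Sum.inr j) ≤ w (Sum.inl ()))
    (hC : ∀ i, C i () ≠ 0 → w' (Sum.inl ()) ≤ w' (Sum.inr i))
    (h : Bru (fun i => w' (Sum.inr i)) (fun i => w (Sum.inr i))
      (D - C * ((Matrix.of fun _ _ => a⁻¹ : Matrix Unit Unit κ)) * B)) :
    Bru w' w (fromBlocks (Matrix.of fun _ _ => a) B C D) := by
  set A : Matrix Unit Unit κ := Matrix.of fun _ _ => a with hA
  set A' : Matrix Unit Unit κ := Matrix.of fun _ _ => a⁻¹ with hA'
  have hAA : A * A' = 1 := by
    ext i j
    rw [Matrix.mul_apply]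
    simp [A, A', ha]
  have hAA' : A' * A = 1 := by
    ext i j
    rw [Matrix.mul_apply]
    simp [A, A', ha]
  obtain ⟨p, p', q, q', σ, h1, h1', h2, h2', e1, e2, hS⟩ := h
  have hUA : ∀ M : Matrix Unit Unit κ,
      UP (fun i => w (Sum.inl i)) (fun i => w (Sum.inl i)) M := fun M i j _ => le_rfl
  have hUA' : ∀ M : Matrix Unit Unit κ,
      UP (fun i => w' (Sum.inl i)) (fun i => w' (Sum.inl i)) M := fun M i j _ => le_rfl
  have hUB : ∀ M : Matrix Unit ι κ,
      UP (fun i => w (Sum.inl i)) (fun i => w (Sum.inr i)) M := fun M i j _ => hw j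
  have hUC : UP (fun i => w' (Sum.inr i)) (fun i => w' (Sum.inl i)) C := fun i j hij => hC i hij
  refine ⟨fromBlocks 1 0 (C * A') p, fromBlocks 1 0 (-(p' * (C * A'))) p',
    fromBlocks A B 0 q, fromBlocks A' (-(A' * B * q')) 0 q', Equiv.sumCongr (Equiv.refl _) σ,
    UP.blocks (hUA' _) UP.zero (hUC.mul (hUA' _)) h1,
    UP.blocks (hUA' _) UP.zero (h1'.mul (hUC.mul (hUA' _))).neg h1',
    UP.blocks (hUA _) (hUB _) UP.zero h2, UP.blocks (hUA _) (hUB _) UP.zero h2', ?_, ?_, ?_⟩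
  · rw [fromBlocks_multiply]
    simp only [Matrix.one_mul, Matrix.mul_one, Matrix.zero_mul, Matrix.mul_zero, add_zero,
      zero_add, Matrix.mul_neg, ← Matrix.mul_assoc, e1]
    rw [add_neg_cancel, neg_zero, add_zero, fromBlocks_one]
  · rw [fromBlocks_multiply]
    simp only [Matrix.one_mul, Matrix.mul_one, Matrix.zero_mul, Matrix.mul_zero, add_zero,
      zero_add, e2, Matrix.mul_neg, ← Matrix.mul_assoc, hAA]
    rw [neg_add_cancel, neg_zero, zero_add, fromBlocks_one]
  · have h3 : (fromBlocks A B 0 q).submatrix (Equiv.sumCongr (Equiv.refl Unit) σ) id =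
        fromBlocks A B 0 (q.submatrix σ id) := by
      ext i j
      rcases i with i | i <;> rcases j with j | j <;> rfl
    rw [h3, fromBlocks_multiply]
    simp only [Matrix.one_mul, Matrix.zero_mul, Matrix.mul_zero, add_zero, zero_add]
    rw [← hS, Matrix.mul_assoc C A' A, hAA', Matrix.mul_one]
    congr 1
    abel

theorem bru_sum {ι : Type*} [Fintype ι] [DecidableEq ι]
    (ih : ∀ (w' w : ι → ℝ) (h : Matrix ι ι κ), h.det ≠ 0 → Bru w' w h) (w' w : Unit ⊕ ι → ℝ)
    (g : Matrix (Unit ⊕ ι) (Unit ⊕ ι) κ) (hg : g.det ≠ 0) : Bru w' w g := by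
  classical
  obtain ⟨j₀, -, hj₀⟩ := Finset.exists_max_image Finset.univ w Finset.univ_nonempty
  have hcol : ∃ i, g i j₀ ≠ 0 := by
    by_contra hcon
    push Not at hcon
    exact hg (Matrix.det_eq_zero_of_column_eq_zero j₀ hcon)
  obtain ⟨i₀, hi₀, hi₀'⟩ := Finset.exists_min_image (Finset.univ.filter fun i => g i j₀ ≠ 0) w'
    (by
      obtain ⟨i, hi⟩ := hcol
      exact ⟨i, Finset.mem_filter.2 ⟨Finset.mem_univ _, hi⟩⟩)
  have hne : g i₀ j₀ ≠ 0 := (Finset.mem_filter.1 hi₀).2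
  set σ : Equiv.Perm (Unit ⊕ ι) := Equiv.swap (Sum.inl ()) i₀ with hσ
  set τ : Equiv.Perm (Unit ⊕ ι) := Equiv.swap (Sum.inl ()) j₀ with hτ
  set g' := g.submatrix σ τ with hg'
  have hσσ : ∀ i, σ (σ i) = i := fun i => by rw [hσ, Equiv.swap_apply_self]
  have hττ : ∀ i, τ (τ i) = i := fun i => by rw [hτ, Equiv.swap_apply_self]
  have h1 : g = g'.submatrix σ τ := by
    ext i j
    rw [hg', Matrix.submatrix_apply, Matrix.submatrix_apply, hσσ, hττ]
  have hb : g' = fromBlocks (Matrix.of fun _ _ => g i₀ j₀) g'.toBlocks₁₂ g'.toBlocks₂₁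
      g'.toBlocks₂₂ := by
    have ha : g' (Sum.inl ()) (Sum.inl ()) = g i₀ j₀ := by
      rw [hg', Matrix.submatrix_apply, hσ, hτ, Equiv.swap_apply_left, Equiv.swap_apply_left]
    conv_lhs => rw [← fromBlocks_toBlocks g']
    congr 1
  have key : Bru (fun i => w' (σ i)) (fun i => w (τ i)) g' := by
    rw [hb]
    apply bru_block _ _ _ hne
    · intro j
      have h2 : τ (Sum.inl ()) = j₀ := by rw [hτ, Equiv.swap_apply_left]
      rw [h2]
      exact hj₀ _ (Finset.mem_univ _)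
    · intro i hi
      have h2 : σ (Sum.inl ()) = i₀ := by rw [hσ, Equiv.swap_apply_left]
      rw [h2]
      apply hi₀'
      rw [Finset.mem_filter]
      refine ⟨Finset.mem_univ _, ?_⟩
      have h3 : g'.toBlocks₂₁ i () = g (σ (Sum.inr i)) j₀ := by
        change g (σ (Sum.inr i)) (τ (Sum.inl ())) = _
        rw [hτ, Equiv.swap_apply_left]
      rwa [h3] at hi
    · apply ih
      intro h0
      apply hg
      have h2 : g'.det = 0 := by
        rw [hb]
        have h3 : IsUnit (Matrix.of fun _ _ => g i₀ j₀ : Matrix Unit Unit κ) := by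
          rw [Matrix.isUnit_iff_isUnit_det, Matrix.det_unique]
          exact isUnit_iff_ne_zero.2 hne
        have := h3.invertible
        rw [Matrix.det_fromBlocks₁₁]
        have h4 : ⅟(Matrix.of fun _ _ => g i₀ j₀ : Matrix Unit Unit κ) =
            Matrix.of fun _ _ => (g i₀ j₀)⁻¹ := by
          apply invOf_eq_right_inv
          ext i j
          rw [Matrix.mul_apply]
          simp [hne]
        rw [h4, h0, mul_zero]
      have h5 : g'.submatrix σ τ = (g'.submatrix σ id).submatrix id τ := rfl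
      rw [h1, h5, Matrix.det_permute', Matrix.det_permute, h2]
      simp
  have h6 := key.submatrix σ τ
  rw [← h1] at h6
  have h7 : (fun i => w' (σ (σ i))) = w' := funext fun i => by rw [hσσ]
  have h8 : (fun i => w (τ (τ i))) = w := funext fun i => by rw [hττ]
  rw [h7, h8] at h6
  exact h6

theorem bruhat {ι : Type u} [Fintype ι] [DecidableEq ι] (w' w : ι → ℝ)
    (g : Matrix ι ι κ) (hg : g.det ≠ 0) : Bru w' w g := by
  have key : ∀ (ι : Type u) [Finite ι], ∀ [Fintype ι] [DecidableEq ι] (w' w : ι → ℝ)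
      (g : Matrix ι ι κ), g.det ≠ 0 → Bru w' w g := by
    intro ι _
    refine Finite.induction_empty_option (P := fun ι => ∀ [Fintype ι] [DecidableEq ι]
      (w' w : ι → ℝ) (g : Matrix ι ι κ), g.det ≠ 0 → Bru w' w g) ?_ ?_ ?_ ι
    · intro α β e h _ _ w' w g hg
      have : Fintype α := Fintype.ofEquiv β e.symm
      have : DecidableEq α := e.decidableEq
      have h1 := (h (fun i => w' (e i)) (fun i => w (e i)) (g.submatrix e e) (by
        rw [Matrix.det_submatrix_equiv_self]; exact hg)).submatrix e.symm e.symm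
      simpa using h1
    · intro _ _ w' w g _
      refine ⟨1, 1, 1, 1, 1, UP.one, UP.one, UP.one, UP.one, one_mul _, one_mul _, ?_⟩
      ext i
      exact i.elim
    · intro α _ h _ _ w' w g hg
      have : DecidableEq α := Classical.decEq α
      have e : Option α ≃ Unit ⊕ α := (Equiv.optionEquivSumPUnit α).trans (Equiv.sumComm _ _)
      have h1 := (bru_sum (fun w' w g hg => h w' w g hg) (fun i => w' (e.symm i))
        (fun i => w (e.symm i)) (g.submatrix e.symm e.symm) (by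
        rw [Matrix.det_submatrix_equiv_self]; exact hg)).submatrix e e
      simpa using h1
  exact key ι w' w g hg

end Pool.Agent.R908.Km
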