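import Pool.Agent.R908.KmI
import Pool.Agent.R908.KmJ

/-!
# The optimal filtration (Kempf)
-/

namespace Pool.Agent.R908.Km

open Finset Function

variable {Ω : Type*} [Field Ω] {ι : Type*} [Fintype ι] [DecidableEq ι] {a : ℕ}

/-- All the tensors in `Z` have weight at least `γ` for the basis and the weights given. -/
def good (Z : Set ((Fin a ⊕ Fin a → ι) → Ω)) (k k' : Matrix ι ι Ω) (w : ι → ℝ) (γ : ℝ) : Prop :=
  ∀ z ∈ Z, ∀ I, act (mm k k') z I ≠ 0 → γ ≤ wt w I

/-- The sum of the squares of the weights. -/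
def nrm (w : ι → ℝ) : ℝ := ∑ i, w i ^ 2

lemma nrm_nonneg (w : ι → ℝ) : 0 ≤ nrm w := Finset.sum_nonneg fun _ _ => sq_nonneg _

lemma nrm_smul (c : ℝ) (w : ι → ℝ) : nrm (c • w) = c ^ 2 * nrm w := by
  simp only [nrm, Pi.smul_apply, smul_eq_mul, Finset.mul_sum, mul_pow]

lemma nrm_comp (w : ι → ℝ) (σ : Equiv.Perm ι) : nrm (fun i => w (σ i)) = nrm w :=
  Equiv.sum_comp σ fun i => w i ^ 2

lemma wt_smul (c : ℝ) (w : ι → ℝ) (I : Fin a ⊕ Fin a → ι) : wt (c • w) I = c * wt w I := by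
  simp only [wt, Pi.smul_apply, smul_eq_mul, mul_sub, Finset.mul_sum]

lemma wt_add (w v : ι → ℝ) (I : Fin a ⊕ Fin a → ι) : wt (w + v) I = wt w I + wt v I := by
  simp only [wt, Pi.add_apply, Finset.sum_add_distrib]
  ring

lemma good.smul {Z : Set ((Fin a ⊕ Fin a → ι) → Ω)} {k k' : Matrix ι ι Ω} {w : ι → ℝ} {γ : ℝ}
    (h : good Z k k' w γ) {c : ℝ} (hc : 0 ≤ c) : good Z k k' (c • w) (c * γ) := by
  intro z hz I hI
  rw [wt_smul]
  exact mul_le_mul_of_nonneg_left (h z hz I hI) hc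

lemma good.add {Z : Set ((Fin a ⊕ Fin a → ι) → Ω)} {k k' : Matrix ι ι Ω} {w v : ι → ℝ}
    {γ δ : ℝ} (h : good Z k k' w γ) (h' : good Z k k' v δ) : good Z k k' (w + v) (γ + δ) := by
  intro z hz I hI
  rw [wt_add]
  exact add_le_add (h z hz I hI) (h' z hz I hI)

lemma good.up {Z : Set ((Fin a ⊕ Fin a → ι) → Ω)} {k k' q q' : Matrix ι ι Ω} {w : ι → ℝ}
    {γ : ℝ} (h : good Z k k' w γ) (hq : UP w w q) (hq' : UP w w q') :
    good Z (q * k) (k' * q') w γ := by
  intro z hz I hI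
  rw [← act_mm q q' k k', act] at hI
  obtain ⟨J, -, hJ⟩ := Finset.exists_ne_zero_of_sum_ne_zero hI
  refine (h z hz J (right_ne_zero_of_mul hJ)).trans ?_
  have h1 := left_ne_zero_of_mul hJ
  rw [Finset.prod_ne_zero_iff] at h1
  have h2 : ∑ s, w (J (Sum.inl s)) ≤ ∑ s, w (I (Sum.inl s)) :=
    Finset.sum_le_sum fun s _ => hq _ _ (h1 (Sum.inl s) (Finset.mem_univ _))
  have h3 : ∑ s, w (I (Sum.inr s)) ≤ ∑ s, w (J (Sum.inr s)) :=
    Finset.sum_le_sum fun s _ => hq' _ _ (h1 (Sum.inr s) (Finset.mem_univ _))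
  unfold wt
  linarith

lemma good.perm {Z : Set ((Fin a ⊕ Fin a → ι) → Ω)} {k k' : Matrix ι ι Ω} {w : ι → ℝ}
    {γ : ℝ} (h : good Z k k' w γ) (σ : Equiv.Perm ι) :
    good Z (k.submatrix σ id) (k'.submatrix id σ) (fun i => w (σ i)) γ := by
  intro z hz I hI
  refine h z hz (fun s => σ (I s)) ?_
  intro h0
  apply hI
  rw [← h0, act, act]
  refine Finset.sum_congr rfl fun J _ => ?_
  congr 1
  refine Finset.prod_congr rfl fun s _ => ?_
  rcases s with s | s <;> rfl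

/-- The optimal filtrations. -/
def Opt (Z : Set ((Fin a ⊕ Fin a → ι) → Ω)) (k k' : Matrix ι ι Ω) (w : ι → ℝ) (γ : ℝ) : Prop :=
  k * k' = 1 ∧ nrm w ≤ 1 ∧ good Z k k' w γ ∧ 0 < γ ∧
    ∀ (l l' : Matrix ι ι Ω) (v : ι → ℝ) (δ : ℝ), l * l' = 1 → nrm v ≤ 1 → good Z l l' v δ → δ ≤ γ

lemma act_ne_zero {k k' : Matrix ι ι Ω} (h : k * k' = 1) {z : (Fin a ⊕ Fin a → ι) → Ω}
    (hz : z ≠ 0) : ∃ I, act (mm k k') z I ≠ 0 := by
  by_contra hcon
  push Not at hcon
  apply hz
  have h1 : act (mm k k') z = fun _ => 0 := funext hcon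
  have h2 : k' * k = 1 := mul_eq_one_comm.1 h
  have h3 := act_mm k' k k k' z
  rw [h2, act_mm_one, h1] at h3
  rw [← h3]
  funext I
  simp [act]

lemma isCompact_ball : IsCompact {w : ι → ℝ | nrm w ≤ 1} := by
  apply Metric.isCompact_of_isClosed_isBounded
  · apply isClosed_le _ continuous_const
    unfold nrm
    fun_prop
  · apply (Metric.isBounded_closedBall (x := (0 : ι → ℝ)) (r := 1)).subset
    intro w hw
    rw [mem_closedBall_zero_iff, pi_norm_le_iff_of_nonneg zero_le_one]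
    intro i
    have h1 : w i ^ 2 ≤ 1 := by
      refine le_trans ?_ hw
      exact Finset.single_le_sum (f := fun i => w i ^ 2) (fun _ _ => sq_nonneg _)
        (Finset.mem_univ i)
    rw [Real.norm_eq_abs]
    exact abs_le_one_iff_mul_self_le_one.2 (by nlinarith)

lemma exists_best (S : Finset (Fin a ⊕ Fin a → ι)) (hS : S.Nonempty) :
    ∃ w : ι → ℝ, nrm w ≤ 1 ∧ ∀ v : ι → ℝ, nrm v ≤ 1 →
      S.inf' hS (fun I => wt v I) ≤ S.inf' hS (fun I => wt w I) := by
  have h1 : Continuous fun w : ι → ℝ => S.inf' hS (fun I => wt w I) := by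
    apply Continuous.finset_inf'_apply hS
    intro I _
    unfold wt
    fun_prop
  obtain ⟨w, hw, hmax⟩ := isCompact_ball.exists_isMaxOn (s := {w : ι → ℝ | nrm w ≤ 1})
    ⟨0, by simp [nrm]⟩ h1.continuousOn
  exact ⟨w, hw, fun v hv => hmax hv⟩

theorem exists_opt {Z : Set ((Fin a ⊕ Fin a → ι) → Ω)} (hZ : ∃ z ∈ Z, z ≠ 0)
    (h : ∃ (k k' : Matrix ι ι Ω) (w : ι → ℝ), k * k' = 1 ∧
      ∀ z ∈ Z, ∀ I, act (mm k k') z I ≠ 0 → 0 < wt w I) :
    ∃ (k k' : Matrix ι ι Ω) (w : ι → ℝ) (γ : ℝ), Opt Z k k' w γ := by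
  classical
  set st : Matrix ι ι Ω → Matrix ι ι Ω → Finset (Fin a ⊕ Fin a → ι) := fun k k' =>
    Finset.univ.filter fun I => ∃ z ∈ Z, act (mm k k') z I ≠ 0 with hst
  have hne : ∀ k k', k * k' = 1 → (st k k').Nonempty := by
    intro k k' hk
    obtain ⟨z, hz, hz0⟩ := hZ
    obtain ⟨I, hI⟩ := act_ne_zero hk hz0
    exact ⟨I, Finset.mem_filter.2 ⟨Finset.mem_univ _, z, hz, hI⟩⟩
  have hgood : ∀ k k' (hk : k * k' = 1) (w : ι → ℝ) (γ : ℝ), good Z k k' w γ ↔
      γ ≤ (st k k').inf' (hne k k' hk) (fun I => wt w I) := by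
    intro k k' hk w γ
    rw [Finset.le_inf'_iff]
    constructor
    · intro h I hI
      obtain ⟨-, z, hz, hI⟩ := Finset.mem_filter.1 hI
      exact h z hz I hI
    · intro h z hz I hI
      exact h I (Finset.mem_filter.2 ⟨Finset.mem_univ _, z, hz, hI⟩)
  choose! bst hb1 hb2 using fun (S : Finset (Fin a ⊕ Fin a → ι)) (hS : S.Nonempty) =>
    exists_best S hS
  set val : Finset (Fin a ⊕ Fin a → ι) → ℝ := fun S =>
    if hS : S.Nonempty then S.inf' hS (fun I => wt (bst S) I) else 0 with hval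
  obtain ⟨k₀, k₀', w₀, hk₀, hw₀⟩ := h
  obtain ⟨S, hS, hmax⟩ := Finset.exists_max_image
    (Finset.univ.filter fun S => ∃ k k', k * k' = 1 ∧ st k k' = S) val
    ⟨st k₀ k₀', Finset.mem_filter.2 ⟨Finset.mem_univ _, k₀, k₀', hk₀, rfl⟩⟩
  obtain ⟨-, k, k', hk, rfl⟩ := Finset.mem_filter.1 hS
  have hall : ∀ (l l' : Matrix ι ι Ω) (v : ι → ℝ) (δ : ℝ), l * l' = 1 → nrm v ≤ 1 →
      good Z l l' v δ → δ ≤ val (st k k') := by
    intro l l' v δ hl hv hg
    have h1 := (hgood l l' hl v δ).1 hg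
    have h2 := hb2 (st l l') (hne l l' hl) v hv
    have h3 := hmax (st l l') (Finset.mem_filter.2 ⟨Finset.mem_univ _, l, l', hl, rfl⟩)
    have h4 : val (st l l') = (st l l').inf' (hne l l' hl) (fun I => wt (bst (st l l')) I) := by
      rw [hval]
      exact dif_pos _
    rw [h4] at h3
    exact h1.trans (h2.trans h3)
  refine ⟨k, k', bst (st k k'), val (st k k'), hk, hb1 _ (hne k k' hk), ?_, ?_, hall⟩
  · rw [hgood k k' hk, hval]
    exact le_of_eq (dif_pos _)
  · -- positivity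
    set c : ℝ := 1 / (1 + nrm w₀) with hc
    have hn := nrm_nonneg w₀
    have hc0 : 0 < c := by positivity
    have hγ : 0 < (st k₀ k₀').inf' (hne k₀ k₀' hk₀) (fun I => wt w₀ I) := by
      rw [Finset.lt_inf'_iff]
      intro I hI
      obtain ⟨-, z, hz, hI⟩ := Finset.mem_filter.1 hI
      exact hw₀ z hz I hI
    have h1 := ((hgood k₀ k₀' hk₀ w₀ _).2 le_rfl).smul hc0.le
    have h2 : nrm (c • w₀) ≤ 1 := by
      rw [nrm_smul, hc, div_pow, one_pow, div_mul_eq_mul_div, one_mul,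
        div_le_one (by positivity)]
      nlinarith
    exact lt_of_lt_of_le (mul_pos hc0 hγ) (hall k₀ k₀' _ _ hk₀ h2 h1)

/-- The filtration defined by a basis and weights. -/
def Fl (k : Matrix ι ι Ω) (w : ι → ℝ) (t : ℝ) (x : ι → Ω) : Prop :=
  ∀ i, k.mulVec x i ≠ 0 → t ≤ w i

lemma Fl.up {k q : Matrix ι ι Ω} {w : ι → ℝ} {t : ℝ} {x : ι → Ω} (h : Fl k w t x)
    (hq : UP w w q) : Fl (q * k) w t x := by
  intro i hi
  rw [← Matrix.mulVec_mulVec, Matrix.mulVec, dotProduct] at hi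
  obtain ⟨j, -, hj⟩ := Finset.exists_ne_zero_of_sum_ne_zero hi
  exact (h j (right_ne_zero_of_mul hj)).trans (hq i j (left_ne_zero_of_mul hj))

lemma Fl_up_iff {k q q' : Matrix ι ι Ω} {w : ι → ℝ} {t : ℝ} {x : ι → Ω} (hq : UP w w q)
    (hq' : UP w w q') (e : q * q' = 1) : Fl (q * k) w t x ↔ Fl k w t x := by
  refine ⟨fun h => ?_, fun h => h.up hq⟩
  have h1 := h.up hq'
  rwa [← Matrix.mul_assoc, mul_eq_one_comm.1 e, Matrix.one_mul] at h1

lemma Fl_perm_iff {k : Matrix ι ι Ω} {w : ι → ℝ} {t : ℝ} {x : ι → Ω} (σ : Equiv.Perm ι) :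
    Fl (k.submatrix σ id) (fun i => w (σ i)) t x ↔ Fl k w t x := by
  constructor
  · intro h i hi
    have h1 := h (σ.symm i)
    beta_reduce at h1
    rw [Equiv.apply_symm_apply] at h1
    apply h1
    have h2 : (k.submatrix σ id).mulVec x (σ.symm i) = k.mulVec x i := by
      simp [Matrix.mulVec, dotProduct]
    rw [h2]
    exact hi
  · intro h i hi
    exact h (σ i) hi

theorem opt_unique {Z : Set ((Fin a ⊕ Fin a → ι) → Ω)} {k k' l l' : Matrix ι ι Ω}
    {w v : ι → ℝ} {γ δ : ℝ} (h : Opt Z k k' w γ) (h' : Opt Z l l' v δ) (t : ℝ) (x : ι → Ω) :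
    Fl k w t x ↔ Fl l v t x := by
  obtain ⟨hk, hw, hg, hγ, hmax⟩ := h
  obtain ⟨hl, hv, hg', hδ, hmax'⟩ := h'
  have hγδ : γ = δ := le_antisymm (hmax' _ _ _ _ hk hw hg) (hmax _ _ _ _ hl hv hg')
  subst hγδ
  have hk2 : k' * k = 1 := mul_eq_one_comm.1 hk
  have hl2 : l' * l = 1 := mul_eq_one_comm.1 hl
  have hdet : (l * k').det ≠ 0 := by
    have h1 : (l * k') * (k * l') = 1 := by
      rw [Matrix.mul_assoc, ← Matrix.mul_assoc k' k l', hk2, Matrix.one_mul, hl]
    have h2 := congrArg Matrix.det h1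
    rw [Matrix.det_mul, Matrix.det_one] at h2
    exact left_ne_zero_of_mul (by rw [h2]; exact one_ne_zero)
  obtain ⟨p, p', q, q', σ, hp, hp', hq, hq', e1, e2, hpq⟩ := bruhat v w (l * k') hdet
  have e1' : p' * p = 1 := mul_eq_one_comm.1 e1
  have hc : p' * l = (q * k).submatrix σ id := by
    have h1 : l = p * (q.submatrix σ id) * k := by
      rw [← hpq, Matrix.mul_assoc, hk2, Matrix.mul_one]
    rw [h1, Matrix.mul_assoc, ← Matrix.mul_assoc p' p, e1', Matrix.one_mul]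
    ext i j
    simp [Matrix.mul_apply]
  have g1 : good Z ((q * k).submatrix σ id) ((k' * q').submatrix id σ) (fun i => w (σ i)) γ :=
    (hg.up hq hq').perm σ
  have g2 : good Z (p' * l) (l' * p) v γ := hg'.up hp' hp
  have i1 : (q * k).submatrix σ id * (k' * q').submatrix id σ = 1 := by
    have h1 : (q * k) * (k' * q') = 1 := by
      rw [Matrix.mul_assoc, ← Matrix.mul_assoc k k' q', hk, Matrix.one_mul, e2]
    have h2 : (q * k).submatrix σ id * (k' * q').submatrix id σ =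
        ((q * k) * (k' * q')).submatrix σ σ := by
      ext i j
      simp [Matrix.mul_apply]
    rw [h2, h1, Matrix.submatrix_one_equiv]
  have i2 : (p' * l) * (l' * p) = 1 := by
    rw [Matrix.mul_assoc, ← Matrix.mul_assoc l l' p, hl, Matrix.one_mul, e1']
  have hc' : (k' * q').submatrix id σ = l' * p := by
    have h1 : (l' * p) * (p' * l) = 1 := mul_eq_one_comm.1 i2
    calc (k' * q').submatrix id σ = ((l' * p) * (p' * l)) * (k' * q').submatrix id σ := by
          rw [h1, Matrix.one_mul]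
      _ = (l' * p) * ((q * k).submatrix σ id * (k' * q').submatrix id σ) := by
          rw [hc, Matrix.mul_assoc]
      _ = l' * p := by rw [i1, Matrix.mul_one]
  rw [← hc, hc'] at g1
  have hwv : (fun i => w (σ i)) = v := by
    by_contra hne
    set w' : ι → ℝ := fun i => w (σ i) with hw'
    have hn1 : nrm w' ≤ 1 := by rw [hw', nrm_comp]; exact hw
    set u : ι → ℝ := (1 / 2 : ℝ) • (w' + v) with hu
    have g3 : good Z (p' * l) (l' * p) u γ := by
      have := (g1.add g2).smul (c := 1 / 2) (by norm_num)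
      have h2 : (1 / 2 : ℝ) * (γ + γ) = γ := by ring
      rwa [h2] at this
    have hlt : nrm u < 1 := by
      have h1 : nrm (w' - v) = ∑ i, (w' i - v i) ^ 2 := rfl
      have h2 : 0 < ∑ i, (w' i - v i) ^ 2 := by
        obtain ⟨i, hi⟩ := Function.ne_iff.1 hne
        apply Finset.sum_pos' (fun _ _ => sq_nonneg _)
        exact ⟨i, Finset.mem_univ _, by
          have : w' i - v i ≠ 0 := sub_ne_zero.2 hi
          positivity⟩
      have h3 : nrm u = (1 / 2) * nrm w' + (1 / 2) * nrm v -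
          (1 / 4) * ∑ i, (w' i - v i) ^ 2 := by
        rw [hu, nrm_smul]
        simp only [nrm, Pi.add_apply, Finset.mul_sum, ← Finset.sum_add_distrib,
          ← Finset.sum_sub_distrib]
        refine Finset.sum_congr rfl fun i _ => ?_
        ring
      rw [h3]
      linarith
    have hn0 := nrm_nonneg u
    set r : ℝ := 2 / (1 + nrm u) with hr
    have hr1 : 1 < r := by
      rw [hr, lt_div_iff₀ (by linarith)]
      linarith
    have h4 : nrm (r • u) ≤ 1 := by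
      rw [nrm_smul, hr, div_pow, div_mul_eq_mul_div, div_le_one (by positivity)]
      nlinarith [sq_nonneg (1 - nrm u)]
    have h5 := hmax _ _ _ _ i2 h4 (g3.smul (c := r) (by linarith))
    nlinarith
  rw [← Fl_up_iff (k := k) hq hq' e2, ← Fl_perm_iff (k := q * k) σ, ← hc, hwv,
    Fl_up_iff hp' hp e1']

end Pool.Agent.R908.Km
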