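import Pool.Agent.R908.KmK

/-!
# Invariance of the optimal filtration; isotropic subspaces
-/

namespace Pool.Agent.R908.Km

open Finset Function

variable {K : Type*} [Field K] {ι : Type*} [Fintype ι] [DecidableEq ι] {a : ℕ}

/-- The tensors with coefficients in the algebraic closure. -/
noncomputable def up (z : (Fin a ⊕ Fin a → ι) → K) (J : Fin a ⊕ Fin a → ι) : AlgebraicClosure K :=
  algebraMap K (AlgebraicClosure K) (z J)

/-- The matrix with coefficients in the algebraic closure. -/
noncomputable abbrev upm (m : Matrix ι ι K) : Matrix ι ι (AlgebraicClosure K) :=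
  m.map (algebraMap K (AlgebraicClosure K))

lemma upm_mul (m n : Matrix ι ι K) : upm (m * n) = upm m * upm n := Matrix.map_mul

lemma upm_one : upm (1 : Matrix ι ι K) = 1 :=
  Matrix.map_one _ (map_zero _) (map_one _)

lemma up_act (m n : Matrix ι ι K) (z : (Fin a ⊕ Fin a → ι) → K) :
    up (act (mm m n) z) = act (mm (upm m) (upm n)) (up z) := by
  funext I
  exact act_mm_map (algebraMap K (AlgebraicClosure K)) m n z I

/-- The rational tensors of a space, with coefficients in the algebraic closure. -/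
def upS (N : Submodule K ((Fin a ⊕ Fin a → ι) → K)) :
    Set ((Fin a ⊕ Fin a → ι) → AlgebraicClosure K) := {y | ∃ z ∈ N, y = up z}

/-- Exchange of the two kinds of slots. -/
def exch {R : Type*} (z : (Fin a ⊕ Fin a → ι) → R) (I : Fin a ⊕ Fin a → ι) : R :=
  z (fun s => I s.swap)

lemma act_exch {R : Type*} [CommRing R] (k k' : Matrix ι ι R) (z : (Fin a ⊕ Fin a → ι) → R)
    (I : Fin a ⊕ Fin a → ι) :
    act (mm k k') (exch z) I = act (mm k'.transpose k.transpose) z (fun s => I s.swap) := by
  rw [act, act]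
  refine Finset.sum_nbij' (fun J s => J s.swap) (fun J s => J s.swap)
    (fun _ _ => Finset.mem_univ _) (fun _ _ => Finset.mem_univ _) ?_ ?_ ?_
  · intro J _
    funext s
    simp
  · intro J _
    funext s
    simp
  · intro J _
    rw [exch]
    congr 1
    rw [Fintype.prod_sum_type, Fintype.prod_sum_type, mul_comm]
    congr 1

lemma wt_neg (w : ι → ℝ) (I : Fin a ⊕ Fin a → ι) : wt (-w) I = wt w (fun s => I s.swap) := by
  simp only [wt, Pi.neg_apply, Finset.sum_neg_distrib, Sum.swap_inl, Sum.swap_inr]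
  ring

lemma act_smul_right {R : Type*} [CommRing R] (k k' : Matrix ι ι R) (c : R)
    (z : (Fin a ⊕ Fin a → ι) → R) (I : Fin a ⊕ Fin a → ι) :
    act (mm k (c • k')) z I = c ^ a * act (mm k k') z I := by
  rw [act, act, Finset.mul_sum]
  refine Finset.sum_congr rfl fun J _ => ?_
  have h1 : ∏ s, mm k (c • k') s (I s) (J s) = c ^ a * ∏ s, mm k k' s (I s) (J s) := by
    rw [Fintype.prod_sum_type, Fintype.prod_sum_type]
    have h2 : ∏ s : Fin a, (mm k (c • k') (Sum.inr s) : Matrix ι ι R) (I (Sum.inr s))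
        (J (Sum.inr s)) = c ^ a * ∏ s : Fin a, (mm k k' (Sum.inr s) : Matrix ι ι R)
        (I (Sum.inr s)) (J (Sum.inr s)) := by
      have h3 : ∀ s : Fin a, (mm k (c • k') (Sum.inr s) : Matrix ι ι R) (I (Sum.inr s))
          (J (Sum.inr s)) = c * (mm k k' (Sum.inr s) : Matrix ι ι R) (I (Sum.inr s))
          (J (Sum.inr s)) := fun s => rfl
      rw [Finset.prod_congr rfl fun s _ => h3 s, Finset.prod_mul_distrib, Finset.prod_const,
        Finset.card_univ, Fintype.card_fin]
    rw [h2]
    have h4 : ∏ s : Fin a, (mm k (c • k') (Sum.inl s) : Matrix ι ι R) (I (Sum.inl s))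
        (J (Sum.inl s)) = ∏ s : Fin a, (mm k k' (Sum.inl s) : Matrix ι ι R)
        (I (Sum.inl s)) (J (Sum.inl s)) := rfl
    rw [h4]
    ring
  rw [h1, mul_assoc]

section Inv

variable {N : Submodule K ((Fin a ⊕ Fin a → ι) → K)}
  {k k' : Matrix ι ι (AlgebraicClosure K)} {w : ι → ℝ} {γ : ℝ}

lemma Opt.galois (h : Opt (upS N) k k' w γ) (σ : AlgebraicClosure K ≃ₐ[K] AlgebraicClosure K) :
    Opt (upS N) (k.map σ) (k'.map σ) w γ := by
  obtain ⟨hk, hw, hg, hγ, hmax⟩ := h
  refine ⟨?_, hw, ?_, hγ, hmax⟩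
  · have h1 : k.map σ * k'.map σ = (k * k').map σ := (Matrix.map_mul (f := σ.toRingHom)).symm
    rw [h1, hk]
    exact Matrix.map_one _ (map_zero σ) (map_one σ)
  · rintro _ ⟨z, hz, rfl⟩ I hI
    apply hg (up z) ⟨z, hz, rfl⟩
    intro h0
    apply hI
    have h1 := act_mm_map σ.toRingHom k k' (up z) I
    have h2 : (fun J => σ.toRingHom (up z J)) = up z := by
      funext J
      exact σ.commutes (z J)
    rw [h2, h0, map_zero] at h1
    exact h1.symm

lemma Opt.stab (h : Opt (upS N) k k' w γ) {u u' : Matrix ι ι K} (hu : u * u' = 1)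
    (hN : ∀ z ∈ N, act (mm u u') z ∈ N) :
    Opt (upS N) (k * upm u) (upm u' * k') w γ := by
  obtain ⟨hk, hw, hg, hγ, hmax⟩ := h
  refine ⟨?_, hw, ?_, hγ, hmax⟩
  · rw [Matrix.mul_assoc, ← Matrix.mul_assoc (upm u), ← upm_mul, hu, upm_one, Matrix.one_mul, hk]
  · rintro _ ⟨z, hz, rfl⟩ I hI
    rw [← act_mm k k' (upm u) (upm u'), ← up_act] at hI
    exact hg _ ⟨_, hN z hz, rfl⟩ I hI

lemma Opt.dual (h : Opt (upS N) k k' w γ) {C D : Matrix ι ι K} {ε : K} (hε : ε ≠ 0)
    (hCD : C * D = ε • (1 : Matrix ι ι K)) (hN : ∀ z ∈ N, exch (act (mm C D) z) ∈ N) :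
    Opt (upS N) (k'.transpose * upm C)
      ((algebraMap K (AlgebraicClosure K) ε)⁻¹ • (upm D * k.transpose)) (-w) γ := by
  obtain ⟨hk, hw, hg, hγ, hmax⟩ := h
  have hε' : algebraMap K (AlgebraicClosure K) ε ≠ 0 := by
    rwa [Ne, map_eq_zero]
  have hCD' : upm C * upm D = algebraMap K (AlgebraicClosure K) ε •
      (1 : Matrix ι ι (AlgebraicClosure K)) := by
    rw [← upm_mul, hCD]
    ext i j
    change algebraMap K (AlgebraicClosure K) ((ε • (1 : Matrix ι ι K)) i j) = _
    rw [Matrix.smul_apply, Matrix.smul_apply, smul_eq_mul, smul_eq_mul,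
      map_mul]
    by_cases h : i = j
    · subst h
      rw [Matrix.one_apply_eq, Matrix.one_apply_eq, map_one]
    · rw [Matrix.one_apply_ne h, Matrix.one_apply_ne h, map_zero]
  refine ⟨?_, ?_, ?_, hγ, hmax⟩
  · rw [Matrix.mul_smul, Matrix.mul_assoc, ← Matrix.mul_assoc (upm C), hCD', Matrix.smul_mul,
      Matrix.one_mul, Matrix.mul_smul, smul_smul, inv_mul_cancel₀ hε', one_smul,
      ← Matrix.transpose_mul, hk, Matrix.transpose_one]
  · have h1 : nrm (-w) = nrm w := by
      simp only [nrm, Pi.neg_apply, neg_sq]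
    rw [h1]
    exact hw
  · rintro _ ⟨z, hz, rfl⟩ I hI
    rw [act_smul_right] at hI
    have h2 := right_ne_zero_of_mul hI
    rw [← act_mm k'.transpose k.transpose (upm C) (upm D), ← up_act] at h2
    rw [wt_neg]
    apply hg (up (exch (act (mm C D) z))) ⟨_, hN z hz, rfl⟩
    have h3 : up (exch (act (mm C D) z)) = exch (up (act (mm C D) z)) := rfl
    rw [h3, act_exch]
    have h4 : (fun s : Fin a ⊕ Fin a => I s.swap.swap) = I := by
      funext s
      rw [Sum.swap_swap]
    rw [h4]
    exact h2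

end Inv

lemma Fl_map {k : Matrix ι ι (AlgebraicClosure K)} {w : ι → ℝ} {t : ℝ}
    {x : ι → AlgebraicClosure K} (σ : AlgebraicClosure K ≃ₐ[K] AlgebraicClosure K) :
    Fl (k.map σ) w t (fun i => σ (x i)) ↔ Fl k w t x := by
  have h1 : ∀ i, (k.map σ).mulVec (fun i => σ (x i)) i = σ (k.mulVec x i) := by
    intro i
    simp [Matrix.mulVec, dotProduct]
  constructor
  · intro h i hi
    apply h i
    rw [h1]
    exact fun h0 => hi (by rwa [map_eq_zero] at h0)
  · intro h i hi
    apply h i
    intro h0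
    apply hi
    rw [h1, h0, map_zero]

lemma Fl_mul {k : Matrix ι ι (AlgebraicClosure K)} {w : ι → ℝ} {t : ℝ}
    {x : ι → AlgebraicClosure K} (u : Matrix ι ι (AlgebraicClosure K)) :
    Fl (k * u) w t x ↔ Fl k w t (u.mulVec x) := by
  unfold Fl
  rw [← Matrix.mulVec_mulVec]

lemma Fl_add {k : Matrix ι ι (AlgebraicClosure K)} {w : ι → ℝ} {t : ℝ}
    {x y : ι → AlgebraicClosure K} (hx : Fl k w t x) (hy : Fl k w t y) : Fl k w t (x + y) := by
  intro i hi
  rw [Matrix.mulVec_add, Pi.add_apply] at hi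
  by_cases h : k.mulVec x i = 0
  · rw [h, zero_add] at hi
    exact hy i hi
  · exact hx i h

lemma Fl_smul {k : Matrix ι ι (AlgebraicClosure K)} {w : ι → ℝ} {t : ℝ}
    {x : ι → AlgebraicClosure K} (c : AlgebraicClosure K) (hx : Fl k w t x) :
    Fl k w t (c • x) := by
  intro i hi
  rw [Matrix.mulVec_smul, Pi.smul_apply, smul_eq_mul] at hi
  exact hx i (right_ne_zero_of_mul hi)

/-- A non-zero space stable under the Galois group contains a non-zero rational vector. -/
lemma exists_rational [CharZero K] {F : (ι → AlgebraicClosure K) → Prop}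
    (hadd : ∀ x y : ι → AlgebraicClosure K, F x → F y → F (x + y))
    (hsmul : ∀ (c : AlgebraicClosure K) (x : ι → AlgebraicClosure K), F x → F (c • x))
    (hgal : ∀ (σ : AlgebraicClosure K ≃ₐ[K] AlgebraicClosure K) (x : ι → AlgebraicClosure K),
      F x → F (fun i => σ (x i)))
    (hne : ∃ x, F x ∧ x ≠ 0) :
    ∃ x : ι → K, x ≠ 0 ∧ F (fun i => algebraMap K (AlgebraicClosure K) (x i)) := by
  classical
  obtain ⟨n, hn⟩ : ∃ n, ∃ x, F x ∧ x ≠ 0 ∧ (Finset.univ.filter fun i => x i ≠ 0).card = n := by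
    obtain ⟨x, hx, hx0⟩ := hne
    exact ⟨_, x, hx, hx0, rfl⟩
  have hex : ∃ n, ∃ x, F x ∧ x ≠ 0 ∧ (Finset.univ.filter fun i => x i ≠ 0).card = n := ⟨n, hn⟩
  obtain ⟨x, hx, hx0, hcard⟩ := Nat.find_spec hex
  obtain ⟨i₀, hi₀⟩ := Function.ne_iff.1 hx0
  set y := (x i₀)⁻¹ • x with hy
  have hFy : F y := hsmul _ _ hx
  have hy1 : y i₀ = 1 := by
    rw [hy, Pi.smul_apply, smul_eq_mul]
    exact inv_mul_cancel₀ hi₀
  have hfix : ∀ (σ : AlgebraicClosure K ≃ₐ[K] AlgebraicClosure K) i, σ (y i) = y i := by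
    intro σ
    by_contra hcon
    push Not at hcon
    obtain ⟨i₁, hi₁⟩ := hcon
    set v : ι → AlgebraicClosure K := (fun i => σ (y i)) + (-1 : AlgebraicClosure K) • y with hv
    have hFv : F v := hadd _ _ (hgal σ y hFy) (hsmul _ _ hFy)
    have hv' : ∀ i, v i = σ (y i) - y i := by
      intro i
      rw [hv, Pi.add_apply, Pi.smul_apply, smul_eq_mul]
      ring
    have hv0 : v ≠ 0 := by
      intro h0
      have h1 := congrFun h0 i₁
      rw [hv', Pi.zero_apply, sub_eq_zero] at h1
      exact hi₁ h1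
    have hlt : (Finset.univ.filter fun i => v i ≠ 0).card <
        (Finset.univ.filter fun i => x i ≠ 0).card := by
      apply Finset.card_lt_card
      rw [Finset.ssubset_iff_of_subset]
      · refine ⟨i₀, Finset.mem_filter.2 ⟨Finset.mem_univ _, hi₀⟩, ?_⟩
        rw [Finset.mem_filter, not_and, not_not]
        intro _
        rw [hv', hy1, map_one, sub_self]
      · intro i hi
        rw [Finset.mem_filter] at hi ⊢
        refine ⟨Finset.mem_univ _, fun h0 => hi.2 ?_⟩
        rw [hv', hy, Pi.smul_apply, h0, smul_zero, map_zero, sub_zero]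
    rw [hcard] at hlt
    exact Nat.find_min hex hlt ⟨v, hFv, hv0, rfl⟩
  have hrat : ∀ i, ∃ c : K, algebraMap K (AlgebraicClosure K) c = y i := by
    intro i
    exact IntermediateField.mem_bot.1 ((InfiniteGalois.mem_bot_iff_fixed (y i)).2
      (fun σ => hfix σ i))
  choose c hc using hrat
  refine ⟨c, ?_, ?_⟩
  · intro h0
    have h1 := hc i₀
    rw [h0, Pi.zero_apply, map_zero, hy1] at h1
    exact zero_ne_one h1
  · have h2 : (fun i => algebraMap K (AlgebraicClosure K) (c i)) = y := funext hc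
    rw [h2]
    exact hFy

/-- **The canonical isotropic subspace.** -/
theorem exists_isotropic [CharZero K] (T : TIdeal K ι) {C D : Matrix ι ι K} {ε : K}
    (hε : ε ≠ 0) (hCD : C * D = ε • (1 : Matrix ι ι K)) {a : ℕ}
    (hN : ∀ z ∈ T.N a, exch (act (mm C D) z) ∈ T.N a) (hne : ∃ z ∈ T.N a, z ≠ 0) :
    ∃ V : Submodule K (ι → K), V ≠ ⊥ ∧ (∀ x ∈ V, ∀ y ∈ V, x ⬝ᵥ C.mulVec y = 0) ∧
      ∀ u u' : Matrix ι ι K, u * u' = 1 → (∀ z ∈ T.N a, act (mm u u') z ∈ T.N a) →
        ∀ x ∈ V, u.mulVec x ∈ V := by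
  classical
  have hι : Nonempty ι := by
    by_contra hcon
    rw [not_nonempty_iff] at hcon
    obtain ⟨z, hz, hz0⟩ := hne
    cases a with
    | zero =>
      rw [T.zero, Submodule.mem_bot] at hz
      exact hz0 hz
    | succ a =>
      apply hz0
      funext I
      exact (hcon.false (I (Sum.inl 0))).elim
  obtain ⟨k₀, k₀', w₀, hk₀, h₀⟩ := T.hilbert_mumford a
  obtain ⟨k, k', w, γ, hopt⟩ := exists_opt (Z := upS (T.N a))
    (by
      obtain ⟨z, hz, hz0⟩ := hne
      refine ⟨up z, ⟨z, hz, rfl⟩, fun h => hz0 ?_⟩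
      funext I
      have h1 := congrFun h I
      exact (map_eq_zero (algebraMap K (AlgebraicClosure K))).1 h1)
    ⟨k₀, k₀', w₀, hk₀, by
      rintro _ ⟨z, hz, rfl⟩ I hI
      exact h₀ z hz I hI⟩
  have hdual := hopt.dual hε hCD hN
  have hk2 : k' * k = 1 := mul_eq_one_comm.1 hopt.1
  -- a positive weight
  obtain ⟨i₀, hi₀⟩ : ∃ i, 0 < w i := by
    by_contra hcon
    push Not at hcon
    obtain ⟨z, hz, hz0⟩ := hne
    have hz0' : up z ≠ 0 := by
      intro h
      apply hz0
      funext I
      have h1 := congrFun h I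
      exact (map_eq_zero (algebraMap K (AlgebraicClosure K))).1 h1
    obtain ⟨I, hI⟩ := act_ne_zero hopt.1 hz0'
    have h1 := hopt.2.2.1 _ ⟨z, hz, rfl⟩ I hI
    have h2 := hopt.2.2.2.1
    have hw0 : ∀ i, w i = 0 := by
      intro i
      have h3 := opt_unique hopt hdual 0 (k'.mulVec (Pi.single i 1))
      have h4 : Fl (k'.transpose * upm C) (-w) 0 (k'.mulVec (Pi.single i 1)) := by
        intro j _
        rw [Pi.neg_apply]
        linarith [hcon j]
      have h5 := h3.2 h4 i
      rw [Matrix.mulVec_mulVec, hopt.1, Matrix.one_mulVec, Pi.single_eq_same] at h5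
      exact le_antisymm (hcon i) (h5 one_ne_zero)
    have h6 : wt w I = 0 := by
      simp only [wt, hw0, Finset.sum_const_zero, sub_self]
    linarith
  set t := w i₀ with ht
  set V : Submodule K (ι → K) :=
    { carrier := {x | Fl k w t (fun i => algebraMap K (AlgebraicClosure K) (x i))}
      add_mem' := by
        intro x y hx hy
        have h1 := Fl_add hx hy
        have h2 : (fun i => algebraMap K (AlgebraicClosure K) ((x + y) i)) =
            (fun i => algebraMap K (AlgebraicClosure K) (x i)) +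
              fun i => algebraMap K (AlgebraicClosure K) (y i) := by
          funext i
          simp
        change Fl k w t _
        rw [h2]
        exact h1
      zero_mem' := by
        intro i hi
        apply absurd _ hi
        have h2 : (fun i => algebraMap K (AlgebraicClosure K) ((0 : ι → K) i)) = 0 := by
          funext i
          simp
        rw [h2, Matrix.mulVec_zero]
        rfl
      smul_mem' := by
        intro c x hx
        have h1 := Fl_smul (algebraMap K (AlgebraicClosure K) c) hx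
        have h2 : (fun i => algebraMap K (AlgebraicClosure K) ((c • x) i)) =
            (algebraMap K (AlgebraicClosure K) c) •
              fun i => algebraMap K (AlgebraicClosure K) (x i) := by
          funext i
          simp
        change Fl k w t _
        rw [h2]
        exact h1 } with hV
  have hmem : ∀ x, x ∈ V ↔ Fl k w t (fun i => algebraMap K (AlgebraicClosure K) (x i)) :=
    fun x => Iff.rfl
  refine ⟨V, ?_, ?_, ?_⟩
  · obtain ⟨x, hx0, hx⟩ := exists_rational (F := Fl k w t) (fun x y hx hy => Fl_add hx hy)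
      (fun c x hx => Fl_smul c hx)
      (fun σ x hx => (opt_unique hopt (hopt.galois σ) t _).2 ((Fl_map σ).2 hx))
      ⟨k'.mulVec (Pi.single i₀ 1), by
        intro i hi
        rw [Matrix.mulVec_mulVec, hopt.1, Matrix.one_mulVec] at hi
        by_cases h : i = i₀
        · rw [h]
        · rw [Pi.single_eq_of_ne h] at hi
          exact absurd rfl hi, by
        intro h0
        have h1 := congrArg k.mulVec h0
        rw [Matrix.mulVec_mulVec, hopt.1, Matrix.one_mulVec, Matrix.mulVec_zero] at h1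
        have h2 := congrFun h1 i₀
        rw [Pi.single_eq_same] at h2
        exact one_ne_zero h2⟩
    intro h0
    apply hx0
    have h1 : x ∈ V := hx
    rw [h0, Submodule.mem_bot] at h1
    exact h1
  · intro x hx y hy
    set x' : ι → AlgebraicClosure K := fun i => algebraMap K (AlgebraicClosure K) (x i) with hx'
    set y' : ι → AlgebraicClosure K := fun i => algebraMap K (AlgebraicClosure K) (y i) with hy'
    have h1 : Fl k w t x' := hx
    have h2 : Fl (k'.transpose * upm C) (-w) t y' := (opt_unique hopt hdual t y').1 hy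
    have h3 : k.mulVec x' ⬝ᵥ (k'.transpose * upm C).mulVec y' = 0 := by
      rw [dotProduct]
      apply Finset.sum_eq_zero
      intro i _
      by_cases h4 : k.mulVec x' i = 0
      · rw [h4, zero_mul]
      by_cases h5 : (k'.transpose * upm C).mulVec y' i = 0
      · rw [h5, mul_zero]
      have h6 := h1 i h4
      have h7 := h2 i h5
      rw [Pi.neg_apply] at h7
      linarith
    have h4 : k.mulVec x' ⬝ᵥ (k'.transpose * upm C).mulVec y' = x' ⬝ᵥ (upm C).mulVec y' := by
      rw [← Matrix.mulVec_mulVec, Matrix.dotProduct_mulVec, Matrix.vecMul_transpose,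
        Matrix.mulVec_mulVec, hk2, Matrix.one_mulVec]
    have h5 : x' ⬝ᵥ (upm C).mulVec y' = algebraMap K (AlgebraicClosure K) (x ⬝ᵥ C.mulVec y) := by
      simp [dotProduct, Matrix.mulVec, hx', hy', map_sum, map_mul]
    rw [h4, h5, map_eq_zero] at h3
    exact h3
  · intro u u' hu hst x hx
    have h1 := (opt_unique hopt (hopt.stab hu hst) t _).1 hx
    rw [Fl_mul] at h1
    change Fl k w t _
    have h2 : (fun i => algebraMap K (AlgebraicClosure K) (u.mulVec x i)) =
        (upm u).mulVec (fun i => algebraMap K (AlgebraicClosure K) (x i)) := by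
      funext i
      simp [Matrix.mulVec, dotProduct]
    rw [h2]
    exact h1

end Pool.Agent.R908.Km
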