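import Pool.Agent.R908.KmL

/-!
# Stability under arbitrary matrices
-/

namespace Pool.Agent.R908.Km

open Finset Function

section Slot

variable {K : Type*} [Field K] {S : Type*} [Fintype S] [DecidableEq S] {ι : Type*} [Fintype ι]
  [DecidableEq ι]

/-- The matrix `M` in the slot `s`, the identity matrix in the other slots. -/
def oneAt (s : S) (M : Matrix ι ι K) (t : S) : Matrix ι ι K := if t = s then M else 1

lemma oneAt_self (s : S) (M : Matrix ι ι K) : oneAt s M s = M := if_pos rfl

lemma oneAt_ne {s t : S} (h : t ≠ s) (M : Matrix ι ι K) : oneAt s M t = 1 := if_neg h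

lemma act_oneAt (s : S) (M : Matrix ι ι K) (z : (S → ι) → K) (I : S → ι) :
    act (oneAt s M) z I = ∑ i, M (I s) i * z (update I s i) := by
  have key : ∀ J : S → ι, (∏ t, oneAt s M t (I t) (J t)) * z J =
      ∑ i, if J = update I s i then M (I s) i * z J else 0 := by
    intro J
    by_cases h : ∀ t, t ≠ s → J t = I t
    · have hJ : J = update I s (J s) := by
        funext t
        by_cases ht : t = s
        · subst ht
          rw [update_self]
        · rw [update_of_ne ht, h t ht]
      rw [Finset.sum_eq_single (J s), if_pos hJ, ← Finset.mul_prod_erase Finset.univ _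
        (Finset.mem_univ s), oneAt_self, Finset.prod_eq_one, mul_one]
      · intro t ht
        rw [oneAt_ne (Finset.ne_of_mem_erase ht), h t (Finset.ne_of_mem_erase ht),
          Matrix.one_apply_eq]
      · intro i _ hi
        rw [if_neg]
        intro h1
        apply hi
        rw [h1, update_self]
      · intro h0
        exact absurd (Finset.mem_univ _) h0
    · push Not at h
      obtain ⟨t, ht, hne⟩ := h
      rw [Finset.prod_eq_zero (Finset.mem_univ t), zero_mul]
      · symm
        apply Finset.sum_eq_zero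
        intro i _
        rw [if_neg]
        intro h1
        apply hne
        rw [h1, update_of_ne ht]
      · rw [oneAt_ne ht, Matrix.one_apply_ne (Ne.symm hne)]
  rw [act, Finset.sum_congr rfl (fun J _ => key J), Finset.sum_comm]
  refine Finset.sum_congr rfl fun i _ => ?_
  rw [Finset.sum_ite_eq' Finset.univ (update I s i) (fun J => M (I s) i * z J),
    if_pos (Finset.mem_univ _)]

lemma oneAt_mul (s : S) (M M' : Matrix ι ι K) (z : (S → ι) → K) :
    act (oneAt s M) (act (oneAt s M') z) = act (oneAt s (M * M')) z := by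
  rw [act_act]
  congr 1
  funext t
  by_cases h : t = s
  · rw [h, oneAt_self, oneAt_self, oneAt_self]
  · rw [oneAt_ne h, oneAt_ne h, oneAt_ne h, Matrix.one_mul]

/-- The action of matrices as a linear map. -/
def actL (M : S → Matrix ι ι K) : ((S → ι) → K) →ₗ[K] ((S → ι) → K) where
  toFun := act M
  map_add' := by
    intro x y
    funext I
    rw [act, Pi.add_apply, act, act, ← Finset.sum_add_distrib]
    refine Finset.sum_congr rfl fun J _ => ?_
    rw [Pi.add_apply, mul_add]
  map_smul' := by
    intro c x
    funext I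
    rw [act, Pi.smul_apply, act, smul_eq_mul, Finset.mul_sum]
    refine Finset.sum_congr rfl fun J _ => ?_
    rw [Pi.smul_apply, smul_eq_mul, RingHom.id_apply]
    ring

lemma actL_apply (M : S → Matrix ι ι K) (z : (S → ι) → K) : actL M z = act M z := rfl

/-- The space is stable under the matrix in the slot `s`. -/
def SlotSt (N : Submodule K ((S → ι) → K)) (s : S) (M : Matrix ι ι K) : Prop :=
  ∀ z ∈ N, act (oneAt s M) z ∈ N

variable {N : Submodule K ((S → ι) → K)} {s : S} {M M' : Matrix ι ι K}

lemma SlotSt.one : SlotSt N s (1 : Matrix ι ι K) := by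
  intro z hz
  have h1 : oneAt s (1 : Matrix ι ι K) = fun _ => 1 := by
    funext t
    by_cases h : t = s
    · rw [h, oneAt_self]
    · rw [oneAt_ne h]
  rw [h1, act_one]
  exact hz

lemma SlotSt.lin (h : SlotSt N s M) (h' : SlotSt N s M') (c d : K) :
    SlotSt N s (c • M + d • M') := by
  intro z hz
  have h1 : act (oneAt s (c • M + d • M')) z = c • act (oneAt s M) z + d • act (oneAt s M') z := by
    funext I
    rw [Pi.add_apply, Pi.smul_apply, Pi.smul_apply, act_oneAt, act_oneAt, act_oneAt, smul_eq_mul,
      smul_eq_mul, Finset.mul_sum, Finset.mul_sum, ← Finset.sum_add_distrib]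
    refine Finset.sum_congr rfl fun i _ => ?_
    rw [Matrix.add_apply, Matrix.smul_apply, Matrix.smul_apply, smul_eq_mul, smul_eq_mul]
    ring
  rw [h1]
  exact N.add_mem (N.smul_mem _ (h z hz)) (N.smul_mem _ (h' z hz))

lemma SlotSt.inv (h : SlotSt N s M) (hM : M * M' = 1) : SlotSt N s M' := by
  have hM' : M' * M = 1 := mul_eq_one_comm.1 hM
  have e1 : ∀ z, act (oneAt s M') (act (oneAt s M) z) = z := by
    intro z
    rw [oneAt_mul, hM']
    have h1 : oneAt s (1 : Matrix ι ι K) = fun _ => 1 := by
      funext t
      by_cases h : t = s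
      · rw [h, oneAt_self]
      · rw [oneAt_ne h]
    rw [h1, act_one]
  set f : N →ₗ[K] N := (actL (oneAt s M)).restrict h with hf
  have hinj : Function.Injective f := by
    intro x y hxy
    have h1 : act (oneAt s M) x.1 = act (oneAt s M) y.1 := congrArg Subtype.val hxy
    apply Subtype.ext
    rw [← e1 x.1, h1, e1]
  have hsurj := LinearMap.injective_iff_surjective.1 hinj
  intro z hz
  obtain ⟨y, hy⟩ := hsurj ⟨z, hz⟩
  have h1 : act (oneAt s M) y.1 = z := congrArg Subtype.val hy
  rw [← h1, e1]
  exact y.2

lemma act_mem_of_slots {M : S → Matrix ι ι K} (h : ∀ s, SlotSt N s (M s)) {z : (S → ι) → K}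
    (hz : z ∈ N) : act M z ∈ N := by
  have key : ∀ A : Finset S, act (fun t => if t ∈ A then M t else 1) z ∈ N := by
    intro A
    induction A using Finset.induction_on with
    | empty =>
      have h1 : (fun t : S => if t ∈ (∅ : Finset S) then M t else (1 : Matrix ι ι K)) =
          fun _ => 1 := by
        funext t
        rw [if_neg (Finset.notMem_empty t)]
      rw [h1, act_one]
      exact hz
    | insert a A ha ih =>
      have h1 := h a _ ih
      rw [act_act] at h1
      have h2 : (fun t => oneAt a (M a) t * (if t ∈ A then M t else 1)) =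
          fun t => if t ∈ insert a A then M t else 1 := by
        funext t
        by_cases h3 : t = a
        · subst h3
          rw [oneAt_self, if_neg ha, if_pos (Finset.mem_insert_self _ _), mul_one]
        · rw [oneAt_ne h3, one_mul]
          by_cases h4 : t ∈ A
          · rw [if_pos h4, if_pos (Finset.mem_insert_of_mem h4)]
          · rw [if_neg h4, if_neg]
            rw [Finset.mem_insert]
            rintro (h5 | h5)
            · exact h3 h5
            · exact h4 h5
      rw [h2] at h1
      exact h1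
  have h1 := key Finset.univ
  have h2 : (fun t => if t ∈ (Finset.univ : Finset S) then M t else (1 : Matrix ι ι K)) = M := by
    funext t
    rw [if_pos (Finset.mem_univ t)]
  rwa [h2] at h1

end Slot

variable {K : Type*} [Field K] {ι : Type*} [Fintype ι] [DecidableEq ι] {a : ℕ}

/-- **The canonical isotropic subspace, with stability under arbitrary matrices.** -/
theorem exists_isotropic_slots [CharZero K] (T : TIdeal K ι) {C D : Matrix ι ι K} {ε : K}
    (hε : ε ≠ 0) (hCD : C * D = ε • (1 : Matrix ι ι K)) {a : ℕ}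
    (hN : ∀ z ∈ T.N a, exch (act (mm C D) z) ∈ T.N a) (hne : ∃ z ∈ T.N a, z ≠ 0) :
    ∃ V : Submodule K (ι → K), V ≠ ⊥ ∧ (∀ x ∈ V, ∀ y ∈ V, x ⬝ᵥ C.mulVec y = 0) ∧
      (∀ u u' : Matrix ι ι K, u * u' = 1 → (∀ z ∈ T.N a, act (mm u u') z ∈ T.N a) →
        ∀ x ∈ V, u.mulVec x ∈ V) ∧
      ∀ u : Matrix ι ι K, (∀ s, SlotSt (T.N a) (Sum.inl s) u) →
        (∀ s, SlotSt (T.N a) (Sum.inr s) u.transpose) → ∀ x ∈ V, u.mulVec x ∈ V := by
  obtain ⟨V, h1, h2, h3⟩ := exists_isotropic T hε hCD hN hne
  refine ⟨V, h1, h2, h3, fun u hl hr x hx => ?_⟩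
  obtain ⟨c, hc⟩ : ∃ c : K, u.charpoly.eval c ≠ 0 := by
    by_contra hcon
    push Not at hcon
    apply u.charpoly_monic.ne_zero
    apply Polynomial.funext
    intro r
    rw [hcon, Polynomial.eval_zero]
  rw [Matrix.eval_charpoly] at hc
  set P : Matrix ι ι K := Matrix.scalar ι c - u with hP
  have hP' : P = c • (1 : Matrix ι ι K) + (-1 : K) • u := by
    rw [hP, neg_smul, one_smul, ← sub_eq_add_neg]
    congr 1
    ext i j
    by_cases h : i = j
    · subst h
      simp
    · simp [h]
  have hunit : IsUnit P.det := isUnit_iff_ne_zero.2 hc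
  have hPP : P * P⁻¹ = 1 := Matrix.mul_nonsing_inv P hunit
  have hPP' : P⁻¹ * P = 1 := Matrix.nonsing_inv_mul P hunit
  have hl' : ∀ s, SlotSt (T.N a) (Sum.inl s) P := by
    intro s
    rw [hP']
    exact SlotSt.lin SlotSt.one (hl s) c (-1)
  have hr' : ∀ s, SlotSt (T.N a) (Sum.inr s) P.transpose := by
    intro s
    rw [hP', Matrix.transpose_add, Matrix.transpose_smul, Matrix.transpose_smul,
      Matrix.transpose_one]
    exact SlotSt.lin SlotSt.one (hr s) c (-1)
  have hst : ∀ z ∈ T.N a, act (mm P P⁻¹) z ∈ T.N a := by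
    intro z hz
    apply act_mem_of_slots _ hz
    rintro (s | s)
    · exact hl' s
    · have h4 : P.transpose * (P⁻¹).transpose = 1 := by
        rw [← Matrix.transpose_mul, hPP', Matrix.transpose_one]
      exact SlotSt.inv (hr' s) h4
  have h4 := h3 P P⁻¹ hPP hst x hx
  rw [hP', Matrix.add_mulVec, Matrix.smul_mulVec, Matrix.one_mulVec, Matrix.smul_mulVec] at h4
  have h5 : u.mulVec x = c • x - (c • x + (-1 : K) • u.mulVec x) := by
    rw [neg_smul, one_smul, sub_add_cancel_left, neg_neg]
  rw [h5]
  exact V.sub_mem (V.smul_mem _ hx) h4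

end Pool.Agent.R908.Km
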