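import Pool.Agent.R908.KmM

/-!
# Families of multilinear forms closed under the operations of invariant theory
-/

namespace Pool.Agent.R908.Km

open Finset Function

variable {K : Type*} [Field K] {V : Type*} [AddCommGroup V] [Module K V] {ι : Type*}
  [Fintype ι] [DecidableEq ι]

/-- Families of spaces of multilinear forms on `V` which are closed under permutations of the
variables, contraction, insertion of the form `ψ` and products, and contain no constants. -/
structure FIdeal (ψ : V →ₗ[K] V →ₗ[K] K) (b c : ι → V) where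
  /-- the spaces -/
  F : ∀ m : ℕ, Submodule K ((Fin m → V) → K)
  multi : ∀ {m : ℕ} {f : (Fin m → V) → K}, f ∈ F m →
    ∃ g : MultilinearMap K (fun _ : Fin m => V) K, ∀ v, g v = f v
  zero : ∀ {f : (Fin 0 → V) → K}, f ∈ F 0 → f = 0
  perm : ∀ {m : ℕ} {f : (Fin m → V) → K} (π : Equiv.Perm (Fin m)), f ∈ F m →
    (fun v => f (v ∘ π)) ∈ F m
  contr : ∀ {m : ℕ} {f : (Fin (m + 2) → V) → K}, f ∈ F (m + 2) →
    (fun v : Fin m → V => ∑ i, f (Fin.cons (c i) (Fin.cons (b i) v : Fin (m + 1) → V) :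
      Fin (m + 2) → V)) ∈ F m
  ins : ∀ {m : ℕ} {f : (Fin m → V) → K}, f ∈ F m →
    (fun v : Fin (m + 2) → V => ψ (v 0) (v 1) * f (fun j => v j.succ.succ)) ∈ F (m + 2)
  mul : ∀ {m n : ℕ} {f : (Fin m → V) → K} {g : (Fin n → V) → K}, f ∈ F m → g ∈ F n →
    (fun v : Fin (m + n) → V => f (fun i => v (Fin.castAdd n i)) *
      g (fun j => v (Fin.natAdd m j))) ∈ F (m + n)

namespace FIdeal

variable {ψ : V →ₗ[K] V →ₗ[K] K} {b c : ι → V} (𝓕 : FIdeal ψ b c) {S S' : Type}

/-- The spaces for an arbitrary finite set of variables. -/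
def FF (S : Type) : Submodule K ((S → V) → K) where
  carrier := {f | ∀ (m : ℕ) (e : Fin m ≃ S), (fun v : Fin m → V => f (v ∘ e.symm)) ∈ 𝓕.F m}
  add_mem' := fun hf hg m e => (𝓕.F m).add_mem (hf m e) (hg m e)
  zero_mem' := fun m _ => (𝓕.F m).zero_mem
  smul_mem' := fun r _ hf m e => (𝓕.F m).smul_mem r (hf m e)

lemma mem_FF {m : ℕ} (e : Fin m ≃ S) {f : (S → V) → K} :
    f ∈ 𝓕.FF S ↔ (fun v : Fin m → V => f (v ∘ e.symm)) ∈ 𝓕.F m := by
  constructor
  · intro h
    exact h m e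
  · intro h m' e'
    have h1 : m' = m := by
      have h2 := Fintype.card_congr (e'.trans e.symm)
      rwa [Fintype.card_fin, Fintype.card_fin] at h2
    subst h1
    have h2 := 𝓕.perm (e.trans e'.symm) h
    have h3 : (fun v : Fin m' → V => f ((v ∘ (e.trans e'.symm)) ∘ e.symm)) =
        fun v => f (v ∘ e'.symm) := by
      funext v
      congr 1
      funext s
      simp
    rw [← h3]
    exact h2

lemma FF_reindex (e : S ≃ S') {f : (S → V) → K} (hf : f ∈ 𝓕.FF S) :
    (fun v : S' → V => f (v ∘ e)) ∈ 𝓕.FF S' := by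
  intro m e'
  have h1 := hf m (e'.trans e.symm)
  exact h1

/-- Two more values. -/
def oo (x y : V) (v : S → V) (o : Option (Option S)) : V :=
  o.elim x (fun o' => o'.elim y v)

/-- Two more variables. -/
def e2 {m : ℕ} (e : Fin m ≃ S) : Fin (m + 2) ≃ Option (Option S) :=
  (finSuccEquiv (m + 1)).trans (Equiv.optionCongr ((finSuccEquiv m).trans (Equiv.optionCongr e)))

lemma e2_none {m : ℕ} (e : Fin m ≃ S) : (e2 e).symm none = 0 := by
  rw [Equiv.symm_apply_eq, e2, Equiv.trans_apply, finSuccEquiv_zero]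
  rfl

lemma e2_some_none {m : ℕ} (e : Fin m ≃ S) : (e2 e).symm (some none) = 1 := by
  rw [Equiv.symm_apply_eq, e2, Equiv.trans_apply, ← Fin.succ_zero_eq_one', finSuccEquiv_succ]
  change _ = some ((Equiv.trans _ _) 0)
  rw [Equiv.trans_apply, finSuccEquiv_zero]
  rfl

lemma e2_some_some {m : ℕ} (e : Fin m ≃ S) (s : S) :
    (e2 e).symm (some (some s)) = (e.symm s).succ.succ := by
  rw [Equiv.symm_apply_eq, e2, Equiv.trans_apply, finSuccEquiv_succ]
  change _ = some ((Equiv.trans _ _) _)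
  rw [Equiv.trans_apply, finSuccEquiv_succ]
  change _ = some (some (e _))
  rw [Equiv.apply_symm_apply]

lemma FF_contr [Finite S] {f : (Option (Option S) → V) → K} (hf : f ∈ 𝓕.FF (Option (Option S))) :
    (fun v : S → V => ∑ i, f (oo (c i) (b i) v)) ∈ 𝓕.FF S := by
  classical
  obtain ⟨m, ⟨e'⟩⟩ := Finite.exists_equiv_fin S
  set e := e'.symm
  rw [𝓕.mem_FF e]
  have h1 := 𝓕.contr (hf (m + 2) (e2 e))
  have h2 : ∀ (x y : V) (v : Fin m → V),
      ((Fin.cons x (Fin.cons y v : Fin (m + 1) → V) : Fin (m + 2) → V) ∘ (e2 e).symm) =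
        oo x y (v ∘ e.symm) := by
    intro x y v
    funext o
    rcases o with _ | o
    · rw [Function.comp_apply, e2_none]
      rfl
    · rcases o with _ | s
      · rw [Function.comp_apply, e2_some_none]
        rfl
      · rw [Function.comp_apply, e2_some_some]
        rfl
  simp only [h2] at h1
  exact h1

lemma FF_ins [Finite S] {f : (S → V) → K} (hf : f ∈ 𝓕.FF S) :
    (fun v : Option (Option S) → V => ψ (v none) (v (some none)) *
      f (fun s => v (some (some s)))) ∈ 𝓕.FF (Option (Option S)) := by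
  classical
  obtain ⟨m, ⟨e'⟩⟩ := Finite.exists_equiv_fin S
  set e := e'.symm
  rw [𝓕.mem_FF (e2 e)]
  have h1 := 𝓕.ins (hf m e)
  have h2 : (fun v : Fin (m + 2) → V => ψ (v 0) (v 1) * f ((fun j => v (Fin.succ (Fin.succ j))) ∘
      e.symm)) = fun v => ψ ((v ∘ (e2 e).symm) none) ((v ∘ (e2 e).symm) (some none)) *
        f (fun s => (v ∘ (e2 e).symm) (some (some s))) := by
    funext v
    have h3 : ((fun j => v (Fin.succ (Fin.succ j))) ∘ e.symm) =
        fun s => (v ∘ (e2 e).symm) (some (some s)) := by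
      funext s
      exact (congrArg v (e2_some_some e s)).symm
    rw [Function.comp_apply, Function.comp_apply, e2_none, e2_some_none, h3]
  rw [← h2]
  exact h1

lemma FF_mul [Finite S] [Finite S'] {f : (S → V) → K} {g : (S' → V) → K} (hf : f ∈ 𝓕.FF S)
    (hg : g ∈ 𝓕.FF S') :
    (fun v : S ⊕ S' → V => f (fun s => v (Sum.inl s)) * g (fun s => v (Sum.inr s))) ∈
      𝓕.FF (S ⊕ S') := by
  classical
  obtain ⟨m, ⟨e'⟩⟩ := Finite.exists_equiv_fin S
  obtain ⟨n, ⟨e''⟩⟩ := Finite.exists_equiv_fin S'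
  set e := e'.symm
  set e₁ := e''.symm
  rw [𝓕.mem_FF (finSumFinEquiv.symm.trans (Equiv.sumCongr e e₁))]
  have h1 := 𝓕.mul (hf m e) (hg n e₁)
  have h2 : (fun v : Fin (m + n) → V => f ((fun i => v (Fin.castAdd n i)) ∘ e.symm) *
      g ((fun j => v (Fin.natAdd m j)) ∘ e₁.symm)) =
      fun v => f (fun s => (v ∘ (finSumFinEquiv.symm.trans (Equiv.sumCongr e e₁)).symm)
        (Sum.inl s)) * g (fun s => (v ∘ (finSumFinEquiv.symm.trans
          (Equiv.sumCongr e e₁)).symm) (Sum.inr s)) := rfl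
  rw [← h2]
  exact h1

lemma FF_multi [Finite S] {f : (S → V) → K} (hf : f ∈ 𝓕.FF S) :
    ∃ g : MultilinearMap K (fun _ : S => V) K, ∀ v, g v = f v := by
  classical
  obtain ⟨m, ⟨e'⟩⟩ := Finite.exists_equiv_fin S
  obtain ⟨g, hg⟩ := 𝓕.multi (hf m e'.symm)
  refine ⟨g.domDomCongr e'.symm, fun v => ?_⟩
  rw [MultilinearMap.domDomCongr_apply, hg]
  congr 1
  funext s
  exact congrArg v (e'.symm_apply_apply s)

lemma FF_zero [IsEmpty S] {f : (S → V) → K} (hf : f ∈ 𝓕.FF S) : f = 0 := by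
  have h1 := 𝓕.zero (hf 0 (Equiv.equivOfIsEmpty (Fin 0) S))
  funext v
  have h2 := congrFun h1 (v ∘ (Equiv.equivOfIsEmpty (Fin 0) S))
  have h3 : (v ∘ (Equiv.equivOfIsEmpty (Fin 0) S)) ∘ (Equiv.equivOfIsEmpty (Fin 0) S).symm = v :=
    Subsingleton.elim _ _
  beta_reduce at h2
  rw [h3] at h2
  exact h2

end FIdeal

end Pool.Agent.R908.Km
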