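import Pool.Agent.R908.KmN

/-!
# Coordinates of multilinear forms, and the tensor ideal of a family of forms
-/

namespace Pool.Agent.R908.Km

open Finset Function

variable {K : Type*} [Field K] {V : Type*} [AddCommGroup V] [Module K V] {ι : Type*}
  [Fintype ι] [DecidableEq ι]

/-- The families `b` and `c` are dual bases for the `ε`-symmetric form `ψ`. -/
structure DualPair (ψ : V →ₗ[K] V →ₗ[K] K) (b c : ι → V) (ε : K) : Prop where
  delta : ∀ i j, ψ (c i) (b j) = if i = j then 1 else 0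
  exp_b : ∀ x, x = ∑ i, ψ (c i) x • b i
  exp_c : ∀ x, x = ∑ i, ψ x (b i) • c i
  symm : ∀ x y, ψ x y = ε * ψ y x
  sq : ε * ε = 1

/-- The vectors belonging to a multi-index. -/
def vv (b c : ι → V) {a : ℕ} (I : Fin a ⊕ Fin a → ι) (s : Fin a ⊕ Fin a) : V :=
  if s.isLeft then c (I s) else b (I s)

/-- The coordinates of a form. -/
def crd (b c : ι → V) (a : ℕ) :
    ((Fin a ⊕ Fin a → V) → K) →ₗ[K] ((Fin a ⊕ Fin a → ι) → K) where
  toFun := fun f I => f (vv b c I)
  map_add' := fun _ _ => rfl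
  map_smul' := fun _ _ => rfl

lemma crd_apply (b c : ι → V) {a : ℕ} (f : (Fin a ⊕ Fin a → V) → K) (I : Fin a ⊕ Fin a → ι) :
    crd b c a f I = f (vv b c I) := rfl

lemma vv_comp (b c : ι → V) {a : ℕ} (I : Fin a ⊕ Fin a → ι) (π : Equiv.Perm (Fin a ⊕ Fin a))
    (hπ : ∀ s, (π s).isLeft = s.isLeft) : vv b c (I ∘ π) = vv b c I ∘ π := by
  funext s
  rw [Function.comp_apply, vv, vv, hπ, Function.comp_apply]

section Multi

variable (b c : ι → V) {a : ℕ}

/-- The coordinates of a form after linear substitutions of the variables. -/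
lemma crd_subst {f : (Fin a ⊕ Fin a → V) → K}
    (hf : ∃ g : MultilinearMap K (fun _ : Fin a ⊕ Fin a => V) K, ∀ v, g v = f v)
    (w : Fin a ⊕ Fin a → V) (x : Fin a ⊕ Fin a → ι → K)
    (hw : ∀ s, w s = ∑ q, x s q • (if s.isLeft then c q else b q)) :
    f w = ∑ J : Fin a ⊕ Fin a → ι, (∏ s, x s (J s)) * crd b c a f J := by
  classical
  obtain ⟨g, hg⟩ := hf
  have h1 : w = fun s => ∑ q, x s q • (if s.isLeft then c q else b q) := funext hw
  rw [← hg, h1, g.map_sum]
  refine Finset.sum_congr rfl fun J _ => ?_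
  rw [g.map_smul_univ, hg, smul_eq_mul]
  rfl

end Multi

namespace DualPair

variable {ψ : V →ₗ[K] V →ₗ[K] K} {b c : ι → V} {ε : K} (h : DualPair ψ b c ε)
include h

lemma ne_zero : ε ≠ 0 := by
  intro h0
  have h1 := h.sq
  rw [h0, mul_zero] at h1
  exact zero_ne_one h1

/-- A multilinear form is determined by its coordinates. -/
lemma crd_inj {a : ℕ} {f : (Fin a ⊕ Fin a → V) → K}
    (hf : ∃ g : MultilinearMap K (fun _ : Fin a ⊕ Fin a => V) K, ∀ v, g v = f v)
    (h0 : crd b c a f = 0) : f = 0 := by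
  funext w
  rw [crd_subst b c hf w (fun s q => if s.isLeft then ψ (w s) (b q) else ψ (c q) (w s)), h0]
  · simp
  · intro s
    by_cases hs : s.isLeft
    · simp only [if_pos hs]
      exact h.exp_c (w s)
    · simp only [if_neg hs]
      exact h.exp_b (w s)

/-- The Gram matrix. -/
def _root_.Pool.Agent.R908.Km.gram (ψ : V →ₗ[K] V →ₗ[K] K) (b : ι → V) : Matrix ι ι K :=
  fun i j => ψ (b i) (b j)

lemma gram_mul : gram ψ b * gram ψ c = ε • (1 : Matrix ι ι K) := by
  ext i j
  rw [Matrix.mul_apply, Matrix.smul_apply, smul_eq_mul]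
  have h1 : ψ (b i) (c j) = ∑ q, ψ (b i) (b q) * ψ (c q) (c j) := by
    conv_lhs => rw [h.exp_b (c j)]
    rw [map_sum]
    refine Finset.sum_congr rfl fun q _ => ?_
    rw [map_smul, smul_eq_mul, mul_comm]
  have h2 : ∑ q, gram ψ b i q * gram ψ c q j = ψ (b i) (c j) := h1.symm
  rw [h2, h.symm, h.delta, Matrix.one_apply]
  by_cases hij : i = j
  · rw [if_pos hij.symm, if_pos hij]
  · rw [if_neg (Ne.symm hij), if_neg hij]

end DualPair

/-- The exchange of the two kinds of variables. -/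
lemma exch_mem {ψ : V →ₗ[K] V →ₗ[K] K} {b c : ι → V} {ε : K} (h : DualPair ψ b c ε)
    {a : ℕ} {f : (Fin a ⊕ Fin a → V) → K}
    (hf : ∃ g : MultilinearMap K (fun _ : Fin a ⊕ Fin a => V) K, ∀ v, g v = f v) :
    exch (act (mm (gram ψ b) (gram ψ c)) (crd b c a f)) =
      crd b c a (fun v => f (v ∘ Equiv.sumComm (Fin a) (Fin a))) := by
  funext I
  rw [exch, act, crd_apply]
  rw [crd_subst b c hf (vv b c I ∘ Equiv.sumComm (Fin a) (Fin a))
    (fun s q => mm (gram ψ b) (gram ψ c) s (I s.swap) q)]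
  intro s
  rcases s with s | s
  · change vv b c I (Sum.inr s) = ∑ q, ψ (b (I (Sum.inr s))) (b q) • c q
    exact h.exp_c _
  · change vv b c I (Sum.inl s) = ∑ q, ψ (c q) (c (I (Sum.inl s))) • b q
    exact h.exp_b _

end Pool.Agent.R908.Km
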