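import Pool.Agent.R908.KmO

/-!
# The tensor ideal of a family of forms
-/

namespace Pool.Agent.R908.Km

open Finset Function

variable {K : Type*} [Field K] {V : Type*} [AddCommGroup V] [Module K V] {ι : Type*}
  [Fintype ι] [DecidableEq ι]

/-- Two more indices. -/
def eC (a : ℕ) : Option (Option (Fin a ⊕ Fin a)) ≃ Fin (a + 1) ⊕ Fin (a + 1) where
  toFun := fun o => match o with
    | none => Sum.inl 0
    | some none => Sum.inr 0
    | some (some (Sum.inl s)) => Sum.inl s.succ
    | some (some (Sum.inr s)) => Sum.inr s.succ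
  invFun := fun s => match s with
    | Sum.inl i => Fin.cases none (fun j => some (some (Sum.inl j))) i
    | Sum.inr i => Fin.cases (some none) (fun j => some (some (Sum.inr j))) i
  left_inv := by
    rintro (_ | _ | s | s) <;> rfl
  right_inv := by
    rintro (i | i)
    · refine Fin.cases ?_ (fun j => ?_) i <;> rfl
    · refine Fin.cases ?_ (fun j => ?_) i <;> rfl

lemma tau_prm {S : Type*} [DecidableEq S] (π : Equiv.Perm S) (s t : S) (z : (S → ι) → K) :
    tau (π s) (π t) (prm π z) = prm π (tau s t z) := by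
  funext I
  rw [tau, prm, tau]
  have h1 : ∀ q : ι, update (update I (π s) q) (π t) q ∘ π =
      update (update (I ∘ π) s q) t q := by
    intro q
    funext r
    by_cases h2 : r = t
    · subst h2
      rw [Function.comp_apply, update_self, update_self]
    · rw [Function.comp_apply, update_of_ne (fun h3 => h2 (π.injective h3)), update_of_ne h2]
      by_cases h3 : r = s
      · subst h3
        rw [update_self, update_self]
      · rw [update_of_ne (fun h4 => h3 (π.injective h4)), update_of_ne h3]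
        rfl
  have h2 : ∀ q : ι, prm π z (update (update I (π s) q) (π t) q) =
      z (update (update (I ∘ π) s q) t q) := by
    intro q
    rw [prm, h1]
  rw [Finset.sum_congr rfl (fun q _ => h2 q)]
  rfl

lemma tau_zero {a : ℕ} (z : (Fin (a + 1) ⊕ Fin (a + 1) → ι) → K) :
    tau (Sum.inl 0) (Sum.inr 0) z = ins (cz z) := by
  funext I
  rw [tau, ins]
  have h1 : ∀ q : ι, update (update I (Sum.inl 0) q) (Sum.inr 0) q = ext q q (rest I) := by
    intro q
    funext r
    rcases r with r | r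
    · rw [update_of_ne (by simp)]
      refine Fin.cases ?_ (fun r => ?_) r
      · rw [update_self, ext_inl_zero]
      · rw [update_of_ne (by simp), ext_inl_succ]
        rfl
    · refine Fin.cases ?_ (fun r => ?_) r
      · rw [update_self, ext_inr_zero]
      · rw [update_of_ne (by simp), update_of_ne (by simp), ext_inr_succ]
        rfl
  simp only [h1]
  rfl

namespace FIdeal

variable {ψ : V →ₗ[K] V →ₗ[K] K} {b c : ι → V} (𝓕 : FIdeal ψ b c) {ε : K}

/-- The coordinates of the forms. -/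
def NN (a : ℕ) : Submodule K ((Fin a ⊕ Fin a → ι) → K) :=
  (𝓕.FF (Fin a ⊕ Fin a)).map (crd b c a)

lemma NN_prm {a : ℕ} {z : (Fin a ⊕ Fin a → ι) → K} (hz : z ∈ 𝓕.NN a)
    (π : Equiv.Perm (Fin a ⊕ Fin a)) (hπ : ∀ s, (π s).isLeft = s.isLeft) : prm π z ∈ 𝓕.NN a := by
  obtain ⟨f, hf, rfl⟩ := hz
  refine ⟨_, 𝓕.FF_reindex π hf, ?_⟩
  funext I
  rw [prm, crd_apply, crd_apply, vv_comp b c I π hπ]

lemma NN_cz {a : ℕ} {z : (Fin (a + 1) ⊕ Fin (a + 1) → ι) → K} (hz : z ∈ 𝓕.NN (a + 1)) :
    cz z ∈ 𝓕.NN a := by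
  obtain ⟨f, hf, rfl⟩ := hz
  refine ⟨_, 𝓕.FF_contr (𝓕.FF_reindex (eC a).symm hf), ?_⟩
  funext I
  rw [crd_apply, cz]
  refine Finset.sum_congr rfl fun q _ => ?_
  rw [crd_apply]
  congr 1
  funext s
  rcases s with s | s
  · refine Fin.cases ?_ (fun s => ?_) s <;> rfl
  · refine Fin.cases ?_ (fun s => ?_) s <;> rfl

lemma NN_ins (h : DualPair ψ b c ε) {a : ℕ} {z : (Fin a ⊕ Fin a → ι) → K} (hz : z ∈ 𝓕.NN a) :
    Km.ins z ∈ 𝓕.NN (a + 1) := by
  obtain ⟨f, hf, rfl⟩ := hz
  refine ⟨_, 𝓕.FF_reindex (eC a) (𝓕.FF_ins hf), ?_⟩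
  funext I
  have h1 : (vv b c I ∘ (eC a)) none = c (I (Sum.inl 0)) := rfl
  have h2 : (vv b c I ∘ (eC a)) (some none) = b (I (Sum.inr 0)) := rfl
  rw [crd_apply, Km.ins, h1, h2, h.delta]
  have h3 : (fun s => (vv b c I ∘ (eC a)) (some (some s))) = vv b c (rest I) := by
    funext s
    rcases s with s | s <;> rfl
  rw [h3]
  by_cases h4 : I (Sum.inl 0) = I (Sum.inr 0)
  · rw [if_pos h4, if_pos h4, one_mul]
    rfl
  · rw [if_neg h4, if_neg h4, zero_mul]

lemma NN_mul {m n : ℕ} {z : (Fin m ⊕ Fin m → ι) → K} {w : (Fin n ⊕ Fin n → ι) → K}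
    (hz : z ∈ 𝓕.NN m) (hw : w ∈ 𝓕.NN n) : tmul z w ∈ 𝓕.NN (m + n) := by
  obtain ⟨f, hf, rfl⟩ := hz
  obtain ⟨g, hg, rfl⟩ := hw
  refine ⟨_, 𝓕.FF_reindex ((Equiv.sumSumSumComm (Fin m) (Fin m) (Fin n) (Fin n)).trans
    (Equiv.sumCongr finSumFinEquiv finSumFinEquiv)) (𝓕.FF_mul hf hg), ?_⟩
  funext I
  rw [crd_apply, tmul, crd_apply, crd_apply]
  congr 2
  · funext s
    rcases s with s | s <;> rfl
  · funext s
    rcases s with s | s <;> rfl

lemma NN_tau (h : DualPair ψ b c ε) {a : ℕ} {z : (Fin a ⊕ Fin a → ι) → K} (hz : z ∈ 𝓕.NN a)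
    (i j : Fin a) : tau (Sum.inl i) (Sum.inr j) z ∈ 𝓕.NN a := by
  classical
  cases a with
  | zero => exact i.elim0
  | succ a =>
    set π : Equiv.Perm (Fin (a + 1) ⊕ Fin (a + 1)) :=
      Equiv.sumCongr (Equiv.swap 0 i) (Equiv.swap 0 j) with hπ
    have hl : ∀ s, (π s).isLeft = s.isLeft := by
      rintro (s | s) <;> rfl
    have hl' : ∀ s, (π.symm s).isLeft = s.isLeft := by
      rintro (s | s) <;> rfl
    have h1 : π (Sum.inl 0) = Sum.inl i := by
      change Sum.inl (Equiv.swap 0 i 0) = _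
      rw [Equiv.swap_apply_left]
    have h2 : π (Sum.inr 0) = Sum.inr j := by
      change Sum.inr (Equiv.swap 0 j 0) = _
      rw [Equiv.swap_apply_left]
    have h3 : prm π (prm π.symm z) = z := by
      funext I
      rw [prm, prm]
      congr 1
      funext s
      rw [Function.comp_apply, Function.comp_apply, Equiv.apply_symm_apply]
    have h4 := tau_prm π (Sum.inl 0) (Sum.inr 0) (prm π.symm z)
    rw [h3, h1, h2, tau_zero] at h4
    rw [h4]
    exact 𝓕.NN_prm (𝓕.NN_ins h (𝓕.NN_cz (𝓕.NN_prm hz π.symm hl'))) π hl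

lemma tau_symm {a : ℕ} (s t : Fin a ⊕ Fin a) (hst : s ≠ t) (z : (Fin a ⊕ Fin a → ι) → K) :
    tau s t z = tau t s z := by
  funext I
  rw [tau, tau]
  have h1 : ∀ q : ι, update (update I s q) t q = update (update I t q) s q :=
    fun q => update_comm hst q q I
  simp only [h1, eq_comm]

/-- **The tensor ideal.** -/
def toT (h : DualPair ψ b c ε) : TIdeal K ι where
  N := 𝓕.NN
  zero := by
    rw [eq_bot_iff]
    rintro z ⟨f, hf, rfl⟩
    rw [𝓕.FF_zero hf, map_zero]
    exact Submodule.zero_mem _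
  sw_mem := by
    intro a z s t hz hst hl
    refine 𝓕.NN_prm hz (Equiv.swap s t) (fun r => ?_)
    by_cases h1 : r = s
    · rw [h1, Equiv.swap_apply_left, hl]
    by_cases h2 : r = t
    · rw [h2, Equiv.swap_apply_right, hl]
    · rw [Equiv.swap_apply_of_ne_of_ne h1 h2]
  tau_mem := by
    intro a z s t hz hl
    rcases s with i | i
    · rcases t with j | j
      · exact absurd rfl hl
      · exact 𝓕.NN_tau h hz i j
    · rcases t with j | j
      · rw [tau_symm _ _ (by simp)]
        exact 𝓕.NN_tau h hz j i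
      · exact absurd rfl hl
  cz_mem := fun hz => 𝓕.NN_cz hz
  ins_mem := fun hz => 𝓕.NN_ins h hz
  mul_mem := fun hz hw => 𝓕.NN_mul hz hw

/-- All spaces are stable under the substitution of `u x` for one variable `x`. -/
def VarSt (u : V → V) : Prop :=
  ∀ (m : ℕ) (f : (Fin m → V) → K), f ∈ 𝓕.F m → ∀ s : Fin m,
    (fun v => f (update v s (u (v s)))) ∈ 𝓕.F m

variable {𝓕}

lemma VarSt.ff {u : V → V} (hu : 𝓕.VarSt u) {S : Type} [Finite S] [DecidableEq S]
    {f : (S → V) → K} (hf : f ∈ 𝓕.FF S) (s : S) :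
    (fun v : S → V => f (update v s (u (v s)))) ∈ 𝓕.FF S := by
  classical
  intro m e
  have h1 := hu m _ (hf m e) (e.symm s)
  have h2 : (fun v : Fin m → V => f (update v (e.symm s) (u (v (e.symm s))) ∘ e.symm)) =
      fun v => f (update (v ∘ e.symm) s (u ((v ∘ e.symm) s))) := by
    funext v
    congr 1
    funext r
    by_cases h3 : r = s
    · subst h3
      rw [Function.comp_apply, update_self, update_self]
      rfl
    · rw [Function.comp_apply, update_of_ne (fun h4 => h3 (e.symm.injective h4)),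
        update_of_ne h3]
      rfl
  rw [← h2]
  exact h1

end FIdeal

end Pool.Agent.R908.Km
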