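import Pool.Agent.R908.KmP

/-!
# The canonical isotropic subspace of a family of forms
-/

namespace Pool.Agent.R908.Km

open Finset Function

variable {K : Type*} [Field K] {V : Type*} [AddCommGroup V] [Module K V] {ι : Type*}
  [Fintype ι] [DecidableEq ι]

namespace FIdeal

variable {ψ : V →ₗ[K] V →ₗ[K] K} {b c : ι → V} {𝓕 : FIdeal ψ b c} {ε : K}

lemma VarSt.slot {u : V → V} (hu : 𝓕.VarSt u) {a : ℕ} (s : Fin a ⊕ Fin a) {M : Matrix ι ι K}
    (hM : ∀ p, u (if s.isLeft then c p else b p) =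
      ∑ q, M p q • (if s.isLeft then c q else b q)) : SlotSt (𝓕.NN a) s M := by
  classical
  rintro z ⟨f, hf, rfl⟩
  refine ⟨_, hu.ff hf s, ?_⟩
  funext I
  rw [crd_apply, act]
  rw [crd_subst b c (𝓕.FF_multi hf) _ (fun t q => oneAt s M t (I t) q)]
  intro t
  by_cases h : t = s
  · subst h
    rw [update_self, oneAt_self]
    exact hM (I t)
  · rw [update_of_ne h, oneAt_ne h, Finset.sum_eq_single (I t), Matrix.one_apply_eq, one_smul]
    · rfl
    · intro q _ hq
      rw [Matrix.one_apply_ne (Ne.symm hq), zero_smul]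
    · intro h0
      exact absurd (Finset.mem_univ _) h0

/-- The matrix of an operator. -/
def mt (ψ : V →ₗ[K] V →ₗ[K] K) (b c : ι → V) (u : V → V) : Matrix ι ι K :=
  fun i j => ψ (c i) (u (b j))

/-- **The canonical isotropic subspace.** -/
theorem exists_sub [CharZero K] (𝓕 : FIdeal ψ b c) (h : DualPair ψ b c ε) {m : ℕ}
    {f : (Fin m → V) → K} (hf : f ∈ 𝓕.F m) (h0 : f ≠ 0) :
    ∃ U : Submodule K V, U ≠ ⊥ ∧ (∀ x ∈ U, ∀ y ∈ U, ψ x y = 0) ∧
      (∀ u u' : V →ₗ[K] V, (∀ x y, ψ (u x) y = ψ x (u' y)) → 𝓕.VarSt u → 𝓕.VarSt u' →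
        ∀ x ∈ U, u x ∈ U) ∧
      (∀ (σ : V →ₗ[K] V) (χ : K), χ ≠ 0 → (∀ x y, ψ (σ x) (σ y) = χ * ψ x y) →
        (∀ (m : ℕ) (f : (Fin m → V) → K), f ∈ 𝓕.F m → (fun v => f (σ ∘ v)) ∈ 𝓕.F m) →
        ∀ x ∈ U, σ x ∈ U) := by
  classical
  -- the square of the form
  have hfF : f ∈ 𝓕.FF (Fin m) := (𝓕.mem_FF (Equiv.refl _)).2 hf
  have hff := 𝓕.FF_mul hfF hfF
  obtain ⟨w, hw⟩ := Function.ne_iff.1 h0
  have hne : ∃ z ∈ (𝓕.toT h).N m, z ≠ 0 := by
    refine ⟨_, ⟨_, hff, rfl⟩, fun hz => ?_⟩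
    have h1 := h.crd_inj (𝓕.FF_multi hff) hz
    have h2 := congrFun h1 (fun s => Sum.elim w w s)
    exact (mul_ne_zero hw hw) h2
  obtain ⟨V', hV0, hViso, hVgl, hVst⟩ := exists_isotropic_slots (𝓕.toT h) (C := gram ψ b)
    (D := gram ψ c) h.ne_zero h.gram_mul (a := m) (by
      rintro z ⟨g, hg, rfl⟩
      rw [exch_mem h (𝓕.FF_multi hg)]
      exact ⟨_, 𝓕.FF_reindex (Equiv.sumComm (Fin m) (Fin m)) hg, rfl⟩) hne
  set L : (ι → K) →ₗ[K] V := Fintype.linearCombination K b with hL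
  have hLa : ∀ x, L x = ∑ i, x i • b i := fun x => Fintype.linearCombination_apply K b x
  have hcL : ∀ x i, ψ (c i) (L x) = x i := by
    intro x i
    rw [hLa, map_sum, Finset.sum_eq_single i]
    · rw [map_smul, h.delta, if_pos rfl, smul_eq_mul, mul_one]
    · intro j _ hj
      rw [map_smul, h.delta, if_neg (Ne.symm hj), smul_zero]
    · intro h0
      exact absurd (Finset.mem_univ _) h0
  have hLu : ∀ (u : V →ₗ[K] V) x, u (L x) = L ((mt ψ b c u).mulVec x) := by
    intro u x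
    rw [hLa, hLa, map_sum]
    have e1 : ∀ j, u (x j • b j) = ∑ i, (x j * mt ψ b c u i j) • b i := by
      intro j
      rw [map_smul]
      conv_lhs => rw [h.exp_b (u (b j))]
      rw [Finset.smul_sum]
      refine Finset.sum_congr rfl fun i _ => ?_
      rw [smul_smul]
      rfl
    rw [Finset.sum_congr rfl fun j _ => e1 j, Finset.sum_comm]
    refine Finset.sum_congr rfl fun i _ => ?_
    rw [Matrix.mulVec, dotProduct, ← Finset.sum_smul]
    congr 1
    refine Finset.sum_congr rfl fun j _ => ?_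
    rw [mul_comm]
  refine ⟨V'.map L, ?_, ?_, ?_, ?_⟩
  · intro h1
    apply hV0
    rw [eq_bot_iff]
    intro x hx
    have h2 : L x ∈ V'.map L := ⟨x, hx, rfl⟩
    rw [h1, Submodule.mem_bot] at h2
    rw [Submodule.mem_bot]
    funext i
    rw [← hcL x i, h2, map_zero]
    rfl
  · rintro _ ⟨x, hx, rfl⟩ _ ⟨y, hy, rfl⟩
    have h1 := hViso x hx y hy
    rw [← h1, hLa x, map_sum, LinearMap.sum_apply, dotProduct]
    refine Finset.sum_congr rfl fun i _ => ?_
    rw [map_smul, LinearMap.smul_apply, hLa y, map_sum, smul_eq_mul, Matrix.mulVec, dotProduct]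
    congr 1
    refine Finset.sum_congr rfl fun j _ => ?_
    rw [map_smul, smul_eq_mul, mul_comm]
    rfl
  · rintro u u' hadj hu hu' _ ⟨x, hx, rfl⟩
    rw [hLu]
    refine ⟨_, hVst (mt ψ b c u) ?_ ?_ x hx, rfl⟩
    · intro s
      refine hu'.slot (Sum.inl s) (fun p => ?_)
      change u' (c p) = ∑ q, mt ψ b c u p q • c q
      conv_lhs => rw [h.exp_c (u' (c p))]
      refine Finset.sum_congr rfl fun q _ => ?_
      rw [h.symm (u' (c p)) (b q), ← hadj, h.symm (u (b q)) (c p), ← mul_assoc, h.sq, one_mul]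
      rfl
    · intro s
      refine hu.slot (Sum.inr s) (fun p => ?_)
      change u (b p) = ∑ q, mt ψ b c u q p • b q
      exact h.exp_b (u (b p))
  · rintro σ χ hχ hσ hst _ ⟨x, hx, rfl⟩
    set P : Matrix ι ι K := mt ψ b c σ with hP
    set P'' : Matrix ι ι K := fun p q => ψ (σ (c p)) (b q) with hP''
    have hPP : P'' * (χ⁻¹ • P) = 1 := by
      ext p r
      rw [Matrix.mul_smul, Matrix.smul_apply, Matrix.mul_apply, smul_eq_mul]
      have e1 : ∑ q, P'' p q * P q r = ψ (σ (c p)) (σ (b r)) := by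
        conv_rhs => rw [h.exp_b (σ (b r))]
        rw [map_sum]
        refine Finset.sum_congr rfl fun q _ => ?_
        rw [map_smul, smul_eq_mul, mul_comm]
        rfl
      rw [e1, hσ, ← mul_assoc, inv_mul_cancel₀ hχ, one_mul, h.delta, Matrix.one_apply]
    have hstab : ∀ z ∈ (𝓕.toT h).N m, act (mm P'' (χ⁻¹ • P)) z ∈ (𝓕.toT h).N m := by
      rintro z ⟨g, hg, rfl⟩
      have e1 : act (mm P'' (χ⁻¹ • P)) (crd b c m g) =
          (χ⁻¹) ^ m • crd b c m (fun v => g (σ ∘ v)) := by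
        funext I
        rw [act_smul_right, Pi.smul_apply, smul_eq_mul, crd_apply]
        congr 1
        rw [act]
        rw [crd_subst b c (𝓕.FF_multi hg) _ (fun s q => mm P'' P s (I s) q)]
        intro s
        rcases s with s | s
        · change σ (c (I (Sum.inl s))) = ∑ q, ψ (σ (c (I (Sum.inl s)))) (b q) • c q
          exact h.exp_c _
        · change σ (b (I (Sum.inr s))) = ∑ q, ψ (c q) (σ (b (I (Sum.inr s)))) • b q
          exact h.exp_b _
      rw [e1]
      refine Submodule.smul_mem _ _ ⟨_, ?_, rfl⟩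
      intro n e
      exact hst n _ (hg n e)
    have hV1 := hVgl P'' (χ⁻¹ • P) hPP hstab
    have hinj : Function.Injective (P''.mulVecLin.restrict hV1) := by
      intro y y' hyy
      have e1 : P''.mulVec y.1 = P''.mulVec y'.1 := congrArg Subtype.val hyy
      have e2 := congrArg (χ⁻¹ • P).mulVec e1
      rw [Matrix.mulVec_mulVec, Matrix.mulVec_mulVec, mul_eq_one_comm.1 hPP, Matrix.one_mulVec,
        Matrix.one_mulVec] at e2
      exact Subtype.ext e2
    obtain ⟨y, hy⟩ := LinearMap.injective_iff_surjective.1 hinj ⟨x, hx⟩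
    have e1 : P''.mulVec y.1 = x := congrArg Subtype.val hy
    have e2 : P.mulVec x = χ • y.1 := by
      have e3 := congrArg (χ⁻¹ • P).mulVec e1
      rw [Matrix.mulVec_mulVec, mul_eq_one_comm.1 hPP, Matrix.one_mulVec,
        Matrix.smul_mulVec] at e3
      rw [e3, smul_smul, mul_inv_cancel₀ hχ, one_smul]
    rw [hLu]
    refine ⟨_, ?_, rfl⟩
    change P.mulVec x ∈ V'
    rw [e2]
    exact V'.smul_mem _ y.2

end FIdeal

end Pool.Agent.R908.Km
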