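import Pool.Agent.R908.Ret

/-!
# External products of linear forms
-/

open CategoryTheory AlgebraicGeometry TensorProduct

universe u v w w'

namespace Pool.Agent.R908

open Pool.Agent.H914 Pool.Agent.H914.VarClass Pool.Agent.H914.VarClass.Obj
  Pool.Agent.H914.WeilCohomology

variable {k : Type u} [Field k] {𝒱 : VarClass k} {ops : CycleOps 𝒱}
  {W : WeilCohomology.{u, v} ops} {X Y Z X' Y' Z' : 𝒱.Obj}

/-- The external product of linear forms. -/
noncomputable def tens (W : WeilCohomology.{u, v} ops) {X Y : 𝒱.Obj} (f : W.H X →ₗ[W.K] W.K)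
    (g : W.H Y →ₗ[W.K] W.K) : W.H (X.prod Y) →ₗ[W.K] W.K := g ∘ₗ sl W f

lemma tens_tmul (f : W.H X →ₗ[W.K] W.K) (g : W.H Y →ₗ[W.K] W.K) (a : W.H X) (b : W.H Y) :
    tens W f g (W.map (fst X Y) a * W.map (snd X Y) b) = f a * g b := by
  rw [tens, LinearMap.comp_apply, sl_tmul, map_smul, smul_eq_mul]

lemma tens_extHom (f : W.H X' →ₗ[W.K] W.K) (g : W.H Y' →ₗ[W.K] W.K)
    (φ : W.H X →ₗ[W.K] W.H X') (ψ : W.H Y →ₗ[W.K] W.H Y') :
    tens W f g ∘ₗ extHom W φ ψ = tens W (f ∘ₗ φ) (g ∘ₗ ψ) := by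
  apply ext_kunneth_lin
  intro a b
  rw [LinearMap.comp_apply, extHom_tmul, tens_tmul, tens_tmul, LinearMap.comp_apply,
    LinearMap.comp_apply]

lemma tens_smul_left (c : W.K) (f : W.H X →ₗ[W.K] W.K) (g : W.H Y →ₗ[W.K] W.K) :
    tens W (c • f) g = c • tens W f g := by
  apply ext_kunneth_lin
  intro a b
  rw [LinearMap.smul_apply, tens_tmul, tens_tmul, LinearMap.smul_apply, smul_eq_mul, smul_eq_mul,
    mul_assoc]

lemma tens_smul_right (c : W.K) (f : W.H X →ₗ[W.K] W.K) (g : W.H Y →ₗ[W.K] W.K) :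
    tens W f (c • g) = c • tens W f g := by
  rw [tens, tens, LinearMap.smul_comp]

lemma tens_add_left (f f' : W.H X →ₗ[W.K] W.K) (g : W.H Y →ₗ[W.K] W.K) :
    tens W (f + f') g = tens W f g + tens W f' g := by
  apply ext_kunneth_lin
  intro a b
  rw [LinearMap.add_apply, tens_tmul, tens_tmul, tens_tmul, LinearMap.add_apply, add_mul]

lemma tens_add_right (f : W.H X →ₗ[W.K] W.K) (g g' : W.H Y →ₗ[W.K] W.K) :
    tens W f (g + g') = tens W f g + tens W f g' := by
  rw [tens, tens, tens, LinearMap.add_comp]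

lemma tens_assocR (f : W.H X →ₗ[W.K] W.K) (g : W.H Y →ₗ[W.K] W.K) (h : W.H Z →ₗ[W.K] W.K) :
    tens W f (tens W g h) ∘ₗ (W.map (Mot.assocR X Y Z)).toLinearMap = tens W (tens W f g) h := by
  apply Mot.ext3
  intro a b c
  rw [LinearMap.comp_apply, AlgHom.toLinearMap_apply, Mot.map_assocR, tens_tmul, tens_tmul,
    tens_tmul, tens_tmul, mul_assoc]

lemma tens_assocL (f : W.H X →ₗ[W.K] W.K) (g : W.H Y →ₗ[W.K] W.K) (h : W.H Z →ₗ[W.K] W.K) :
    tens W (tens W f g) h ∘ₗ (W.map (Mot.assocL X Y Z)).toLinearMap = tens W f (tens W g h) := by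
  apply Mot.ext3'
  intro a b c
  rw [LinearMap.comp_apply, AlgHom.toLinearMap_apply, Mot.map_assocL, tens_tmul, tens_tmul,
    tens_tmul, tens_tmul, mul_assoc]

/-- The linear form `f` is zero on the classes of degree `i` unless `i` has the parity of `q`. -/
def Par (W : WeilCohomology.{u, v} ops) {X : 𝒱.Obj} (q : ℕ) (f : W.H X →ₗ[W.K] W.K) : Prop :=
  ∀ i, ∀ a ∈ W.gr X i, Odd (i + q) → f a = 0

lemma tens_swap {p q : ℕ} {f : W.H X →ₗ[W.K] W.K} {g : W.H Y →ₗ[W.K] W.K} (hf : Par W p f)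
    (hg : Par W q g) :
    tens W g f ∘ₗ (W.map (swap Y X)).toLinearMap = ((-1 : W.K) ^ (p * q)) • tens W f g := by
  apply LinearMap.ext
  intro c
  refine W.kunneth_induction (p := fun c => (tens W g f ∘ₗ (W.map (swap Y X)).toLinearMap) c =
    (((-1 : W.K) ^ (p * q)) • tens W f g) c) ?_ ?_ c
  · intro a b ha hb
    rw [map_add, map_add, ha, hb]
  · intro i j a ha b hb
    rw [LinearMap.comp_apply, AlgHom.toLinearMap_apply, Mot.map_swap_tmul,
      W.comm (W.map_mem (snd Y X) ha) (W.map_mem (fst Y X) hb), map_smul, tens_tmul,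
      LinearMap.smul_apply, tens_tmul, smul_eq_mul, smul_eq_mul, mul_comm (g b) (f a)]
    by_cases h1 : Odd (i + p)
    · rw [hf i a ha h1, zero_mul, mul_zero, mul_zero]
    by_cases h2 : Odd (j + q)
    · rw [hg j b hb h2, mul_zero, mul_zero, mul_zero]
    congr 1
    rw [Nat.not_odd_iff_even] at h1 h2
    have h3 : Even (i * j + p * q) := by
      rcases Nat.even_or_odd i with hi | hi
      · have hp : Even p := (Nat.even_add.1 h1).1 hi
        exact (hi.mul_right j).add (hp.mul_right q)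
      · have hp : Odd p := by
          rw [← Nat.not_even_iff_odd] at hi ⊢
          exact fun h => hi ((Nat.even_add.1 h1).2 h)
        rcases Nat.even_or_odd j with hj | hj
        · have hq : Even q := (Nat.even_add.1 h2).1 hj
          exact (hj.mul_left i).add (hq.mul_left p)
        · have hq : Odd q := by
            rw [← Nat.not_even_iff_odd] at hj ⊢
            exact fun h => hj ((Nat.even_add.1 h2).2 h)
          exact (hi.mul hj).add_odd (hp.mul hq)
    calc (-1 : W.K) ^ (i * j) = (-1) ^ (i * j) * ((-1) ^ (p * q) * (-1) ^ (p * q)) := by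
          rw [← pow_add, ← two_mul, pow_mul]
          simp
      _ = (-1) ^ (i * j + p * q) * (-1) ^ (p * q) := by
          rw [pow_add, mul_assoc]
      _ = (-1) ^ (p * q) := by rw [h3.neg_one_pow, one_mul]

lemma Par.tens {p q : ℕ} {f : W.H X →ₗ[W.K] W.K} {g : W.H Y →ₗ[W.K] W.K} (hf : Par W p f)
    (hg : Par W q g) : Par W (p + q) (R908.tens W f g) := by
  have key : ∀ c n, Odd (n + (p + q)) →
      R908.tens W f g (proj (W.isInternal (X.prod Y)) n c) = 0 := by
    intro c n hn
    refine W.kunneth_induction (p := fun c =>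
      R908.tens W f g (proj (W.isInternal (X.prod Y)) n c) = 0) ?_ ?_ c
    · intro a b ha hb
      rw [map_add, map_add, ha, hb, add_zero]
    · intro i j a ha b hb
      have h1 := W.mul_mem (W.map_mem (fst X Y) ha) (W.map_mem (snd X Y) hb)
      by_cases h2 : i + j = n
      · subst h2
        rw [proj_same _ h1, tens_tmul]
        have h3 : Odd ((i + p) + (j + q)) := by
          rw [add_add_add_comm]
          exact hn
        rcases Nat.even_or_odd (i + p) with h4 | h4
        · rw [hg j b hb ((Nat.odd_add'.1 h3).2 h4), mul_zero]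
        · rw [hf i a ha h4, zero_mul]
      · rw [proj_ne _ h1 h2, map_zero]
  intro n c hc hn
  have h1 := key c n hn
  rwa [proj_same _ hc] at h1

/-- The forms obtained from homogeneous components. -/
lemma par_proj (g : W.H X →ₗ[W.K] W.K) (i : ℕ) {e : W.H X →ₗ[W.K] W.H X}
    (he : e ∈ KOp W X X 0) : Par W i (g ∘ₗ proj (W.isInternal X) i ∘ₗ e) := by
  intro j a ha hodd
  have hij : j ≠ i := by
    rintro rfl
    exact (Nat.not_odd_iff_even.2 ⟨j, rfl⟩) hodd
  rw [LinearMap.comp_apply, LinearMap.comp_apply, proj_ne _ (Mot.hom_deg0 he ha) hij, map_zero]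

lemma eq_zero_of_par {e : W.H X →ₗ[W.K] W.H X} {y : W.H X}
    (h : ∀ (g : W.H X →ₗ[W.K] W.K) (i : ℕ), (g ∘ₗ proj (W.isInternal X) i ∘ₗ e) y = 0) :
    e y = 0 := by
  rw [← Module.forall_dual_apply_eq_zero_iff W.K]
  intro g
  have hsum := sum_proj (W.isInternal X) (N := 2 * X.dim + 1)
    (fun i hi => W.gr_eq_bot X i (by omega))
  have h2 := congrArg (fun F => F (e y)) hsum
  simp only [LinearMap.sum_apply, Module.End.one_apply] at h2
  rw [← h2, map_sum]
  apply Finset.sum_eq_zero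
  intro i _
  exact h g i

lemma NumTriv.prod_right {i : ℤ} {x : W.H X} (hxs : x ∈ spanCycles W X i)
    {j : ℤ} {y : W.H Y} (hys : y ∈ spanCycles W Y j) (hy : NumTriv W Y y) :
    NumTriv W (X.prod Y) (W.map (fst X Y) x * W.map (snd X Y) y) := by
  intro l g hg
  rw [span_comm (span_map (fst X Y) hxs), mul_assoc, span_comm (span_map (snd X Y) hys),
    ← W.tr_push, ← span_comm hys]
  exact hy _ _ (KOp.map_span (KOp.pushHom (snd X Y)) (span_mul (span_map (fst X Y) hxs) hg))

end Pool.Agent.R908
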