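import Pool.Agent.R908.KnA

/-!
# Multilinear forms on the cohomology of a power
-/

open CategoryTheory AlgebraicGeometry TensorProduct Function

universe u v w w'

namespace Pool.Agent.R908

open Pool.Agent.H914 Pool.Agent.H914.VarClass Pool.Agent.H914.VarClass.Obj
  Pool.Agent.H914.WeilCohomology

variable {k : Type u} [Field k] {𝒱 : VarClass k} {ops : CycleOps 𝒱}
  {W : WeilCohomology.{u, v} ops} {X Y Z X' Y' Z' : 𝒱.Obj}

/-- The product of `m` copies of `X` with `Y`. -/
@[reducible] noncomputable def pX (X Y : 𝒱.Obj) : ℕ → 𝒱.Obj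
  | 0 => Y
  | m + 1 => X.prod (pX X Y m)

/-- The external product of `m` linear forms on `H(X)` and a linear form on `H(Y)`. -/
noncomputable def msl (W : WeilCohomology.{u, v} ops) {X Y : 𝒱.Obj} :
    ∀ m : ℕ, (Fin m → (W.H X →ₗ[W.K] W.K)) → (W.H Y →ₗ[W.K] W.K) →
      (W.H (pX X Y m) →ₗ[W.K] W.K)
  | 0, _, g => g
  | m + 1, f, g => tens W (f 0) (msl W m (fun i => f i.succ) g)

lemma msl_zero (f : Fin 0 → (W.H X →ₗ[W.K] W.K)) (g : W.H Y →ₗ[W.K] W.K) :
    msl W 0 f g = g := rfl

lemma msl_succ {m : ℕ} (f : Fin (m + 1) → (W.H X →ₗ[W.K] W.K)) (g : W.H Y →ₗ[W.K] W.K) :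
    msl W (m + 1) f g = tens W (f 0) (msl W m (fun i => f i.succ) g) := rfl

/-- Algebraic operators in one slot. -/
lemma exists_slot {δ : ℤ} {φ : W.H X →ₗ[W.K] W.H X} (hφ : φ ∈ KOp W X X δ) :
    ∀ (m : ℕ) (s : Fin m), ∃ Φ ∈ KOp W (pX X Y m) (pX X Y m) δ,
      ∀ (f : Fin m → (W.H X →ₗ[W.K] W.K)) (g : W.H Y →ₗ[W.K] W.K),
        msl W m f g ∘ₗ Φ = msl W m (update f s (f s ∘ₗ φ)) g := by
  intro m
  induction m with
  | zero => exact fun s => s.elim0
  | succ m ih =>
    intro s
    refine Fin.cases ?_ (fun s => ?_) s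
    · refine ⟨extHom W φ LinearMap.id, KOp.cast (KOp.extHom hφ (KOp.id _)) (add_zero δ),
        fun f g => ?_⟩
      rw [msl_succ, msl_succ, tens_extHom, update_self, LinearMap.comp_id]
      congr 2
    · obtain ⟨Φ, hΦ, h⟩ := ih s
      refine ⟨extHom W LinearMap.id Φ, KOp.cast (KOp.extHom (KOp.id _) hΦ) (zero_add δ),
        fun f g => ?_⟩
      rw [msl_succ, msl_succ, tens_extHom, LinearMap.comp_id, h,
        update_of_ne (Fin.succ_ne_zero s).symm]
      congr 2
      funext i
      by_cases hi : i = s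
      · subst hi
        rw [update_self, update_self]
      · rw [update_of_ne hi, update_of_ne (fun h' => hi (Fin.succ_injective _ h'))]

/-- The exchange of the first two factors. -/
lemma exists_swap3 (X Y Z : 𝒱.Obj) : ∃ Φ ∈ KOp W (X.prod (Y.prod Z)) (Y.prod (X.prod Z)) 0,
    ∀ (p q : ℕ) (f : W.H X →ₗ[W.K] W.K) (g : W.H Y →ₗ[W.K] W.K) (h : W.H Z →ₗ[W.K] W.K),
      Par W p f → Par W q g →
        tens W g (tens W f h) ∘ₗ Φ = ((-1 : W.K) ^ (p * q)) • tens W f (tens W g h) := by
  refine ⟨(W.map (Mot.assocR Y X Z)).toLinearMap ∘ₗ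
    extHom W (W.map (swap Y X)).toLinearMap LinearMap.id ∘ₗ
      (W.map (Mot.assocL X Y Z)).toLinearMap, ?_, ?_⟩
  · refine KOp.cast (KOp.comp (KOp.mapHom _) (KOp.comp (KOp.extHom (KOp.mapHom _) (KOp.id _))
      (KOp.mapHom _))) (by ring)
  · intro p q f g h hf hg
    rw [← LinearMap.comp_assoc, ← LinearMap.comp_assoc, tens_assocR, tens_extHom,
      tens_swap hf hg, LinearMap.comp_id, tens_smul_left, LinearMap.smul_comp, tens_assocL]

/-- Adjacent transpositions. -/
lemma exists_adj : ∀ (m : ℕ) (s : Fin m), ∃ Φ ∈ KOp W (pX X Y (m + 1)) (pX X Y (m + 1)) 0,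
    ∀ (p : ℕ) (f : Fin (m + 1) → (W.H X →ₗ[W.K] W.K)) (g : W.H Y →ₗ[W.K] W.K),
      (∀ i, Par W p (f i)) → msl W (m + 1) f g ∘ₗ Φ =
        ((-1 : W.K) ^ (p * p)) • msl W (m + 1) (f ∘ Equiv.swap s.castSucc s.succ) g := by
  intro m
  induction m with
  | zero => exact fun s => s.elim0
  | succ m ih =>
    intro s
    refine Fin.cases ?_ (fun s => ?_) s
    · obtain ⟨Φ, hΦ, h⟩ := exists_swap3 (W := W) X X (pX X Y m)
      refine ⟨Φ, hΦ, fun p f g hf => ?_⟩
      have h1 := h p p (f 1) (f 0) (msl W m (fun i => f i.succ.succ) g) (hf _) (hf _)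
      have h2 : msl W (m + 1 + 1) f g =
        tens W (f 0) (tens W (f 1) (msl W m (fun i => f i.succ.succ) g)) := rfl
      have h3 : msl W (m + 1 + 1) (f ∘ Equiv.swap (0 : Fin (m + 1)).castSucc
          (0 : Fin (m + 1)).succ) g =
        tens W (f 1) (tens W (f 0) (msl W m (fun i => f i.succ.succ) g)) := by
        rw [msl_succ, msl_succ]
        have e1 : (f ∘ Equiv.swap (0 : Fin (m + 1)).castSucc (0 : Fin (m + 1)).succ) 0 = f 1 :=
          congrArg f (Equiv.swap_apply_left _ _)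
        have e2 : (f ∘ Equiv.swap (0 : Fin (m + 1)).castSucc (0 : Fin (m + 1)).succ)
            (0 : Fin (m + 1)).succ = f 0 := congrArg f (Equiv.swap_apply_right _ _)
        have e3 : (fun i : Fin m => (f ∘ Equiv.swap (0 : Fin (m + 1)).castSucc
            (0 : Fin (m + 1)).succ) i.succ.succ) = fun i : Fin m => f i.succ.succ := by
          funext i
          refine congrArg f (Equiv.swap_apply_of_ne_of_ne ?_ ?_)
          · intro h'
            exact (Fin.succ_ne_zero _) h'
          · intro h'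
            exact (Fin.succ_ne_zero _) (Fin.succ_injective _ h')
        rw [e1, e2, e3]
      rw [h2, h3]
      exact h1
    · obtain ⟨Φ, hΦ, h⟩ := ih s
      refine ⟨extHom W LinearMap.id Φ, KOp.cast (KOp.extHom (KOp.id _) hΦ) (zero_add 0),
        fun p f g hf => ?_⟩
      have e1 : (f ∘ Equiv.swap s.succ.castSucc s.succ.succ) 0 = f 0 := by
        refine congrArg f (Equiv.swap_apply_of_ne_of_ne ?_ ?_)
        · intro h'
          exact Fin.succ_ne_zero s (Fin.castSucc_injective _ h'.symm)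
        · exact (Fin.succ_ne_zero _).symm
      have e2 : (fun i : Fin (m + 1) => (f ∘ Equiv.swap s.succ.castSucc s.succ.succ) i.succ) =
          (fun i : Fin (m + 1) => f i.succ) ∘ Equiv.swap s.castSucc s.succ := by
        funext i
        rw [Function.comp_apply, Function.comp_apply]
        congr 1
        rw [Equiv.swap_apply_def, Equiv.swap_apply_def]
        have c1 : i.succ = s.succ.castSucc ↔ i = s.castSucc := by
          rw [← Fin.succ_castSucc, Fin.succ_inj]
        have c2 : i.succ = s.succ.succ ↔ i = s.succ := Fin.succ_inj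
        by_cases h1 : i = s.castSucc
        · rw [if_pos (c1.2 h1), if_pos h1]
        · rw [if_neg (fun h' => h1 (c1.1 h')), if_neg h1]
          by_cases h2 : i = s.succ
          · rw [if_pos (c2.2 h2), if_pos h2, ← Fin.succ_castSucc]
          · rw [if_neg (fun h' => h2 (c2.1 h')), if_neg h2]
      have e3 : msl W (m + 1 + 1) (f ∘ Equiv.swap s.succ.castSucc s.succ.succ) g =
          tens W (f 0) (msl W (m + 1) ((fun i : Fin (m + 1) => f i.succ) ∘
            Equiv.swap s.castSucc s.succ) g) := by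
        rw [← e1, ← e2]
        rfl
      rw [e3]
      change tens W (f 0) (msl W (m + 1) (fun i => f i.succ) g) ∘ₗ extHom W LinearMap.id Φ = _
      rw [tens_extHom, LinearMap.comp_id, h p _ g (fun i => hf _), tens_smul_right]

/-- Permutations of the slots. -/
lemma exists_perm (p : ℕ) : ∀ (m : ℕ) (π : Equiv.Perm (Fin m)),
    ∃ Φ ∈ KOp W (pX X Y m) (pX X Y m) 0, ∃ c : W.K, c ≠ 0 ∧
    ∀ (f : Fin m → (W.H X →ₗ[W.K] W.K)) (g : W.H Y →ₗ[W.K] W.K),
      (∀ i, Par W p (f i)) → msl W m f g ∘ₗ Φ = c • msl W m (f ∘ π) g := by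
  intro m
  cases m with
  | zero =>
    intro π
    refine ⟨LinearMap.id, KOp.id _, 1, one_ne_zero, fun f g _ => ?_⟩
    rw [LinearMap.comp_id, one_smul]
    rfl
  | succ m =>
    intro π
    have h1 : π ∈ Submonoid.closure (Set.range fun i : Fin m ↦
        Equiv.swap i.castSucc i.succ) := by
      rw [Equiv.Perm.mclosure_swap_castSucc_succ]
      exact Submonoid.mem_top π
    induction h1 using Submonoid.closure_induction with
    | mem x hx =>
      obtain ⟨s, rfl⟩ := hx
      obtain ⟨Φ, hΦ, h⟩ := exists_adj (W := W) (X := X) (Y := Y) m s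
      exact ⟨Φ, hΦ, (-1) ^ (p * p), pow_ne_zero _ (neg_ne_zero.2 one_ne_zero),
        fun f g hf => h p f g hf⟩
    | one =>
      refine ⟨LinearMap.id, KOp.id _, 1, one_ne_zero, fun f g _ => ?_⟩
      rw [LinearMap.comp_id, one_smul]
      rfl
    | mul x y _ _ hx hy =>
      obtain ⟨Φ, hΦ, c, hc, h⟩ := hx
      obtain ⟨Φ', hΦ', c', hc', h'⟩ := hy
      refine ⟨Φ ∘ₗ Φ', KOp.cast (KOp.comp hΦ hΦ') (add_zero 0), c * c', mul_ne_zero hc hc',
        fun f g hf => ?_⟩
      rw [← LinearMap.comp_assoc, h f g hf, LinearMap.smul_comp,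
        h' (f ∘ x) g (fun i => hf _), smul_smul]
      rfl

end Pool.Agent.R908
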