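import Pool.Agent.R908.KnB

/-!
# Contraction, insertion and products of multilinear forms
-/

open CategoryTheory AlgebraicGeometry TensorProduct Function

universe u v w w'

namespace Pool.Agent.R908

open Pool.Agent.H914 Pool.Agent.H914.VarClass Pool.Agent.H914.VarClass.Obj
  Pool.Agent.H914.WeilCohomology

variable {k : Type u} [Field k] {𝒱 : VarClass k} {ops : CycleOps 𝒱}
  {W : WeilCohomology.{u, v} ops} {X Y Z X' Y' Z' : 𝒱.Obj}

/-- The contraction of the first two factors with the class `d`. -/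
noncomputable def ctr (W : WeilCohomology.{u, v} ops) {X Y : 𝒱.Obj} (Z : 𝒱.Obj)
    (d : W.H (X.prod Y)) : W.H (X.prod (Y.prod Z)) →ₗ[W.K] W.H Z :=
  W.push (snd X (Y.prod Z) ≫ snd Y Z) ∘ₗ LinearMap.mulLeft W.K (W.map (p12 X Y Z) d)

lemma ctr_tmul (d : W.H (X.prod Y)) (a : W.H X) (b : W.H Y) (c : W.H Z) :
    ctr W Z d (W.map (fst X (Y.prod Z)) a * W.map (snd X (Y.prod Z))
      (W.map (fst Y Z) b * W.map (snd Y Z) c)) =
      W.tr (X.prod Y) (d * (W.map (fst X Y) a * W.map (snd X Y) b)) • c := by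
  have e1 : p12 X Y Z ≫ fst X Y = fst X (Y.prod Z) := Obj.lift_fst _ _
  have e2 : p12 X Y Z ≫ snd X Y = snd X (Y.prod Z) ≫ fst Y Z := Obj.lift_snd _ _
  have e3 : W.map (p12 X Y Z) d * (W.map (fst X (Y.prod Z)) a *
      W.map (snd X (Y.prod Z)) (W.map (fst Y Z) b * W.map (snd Y Z) c)) =
      W.map (p12 X Y Z) (d * (W.map (fst X Y) a * W.map (snd X Y) b)) *
        W.map (snd X (Y.prod Z) ≫ snd Y Z) c := by
    rw [map_mul (W.map (p12 X Y Z)), map_mul (W.map (p12 X Y Z)), ← W.map_comp,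
      ← W.map_comp, e1, e2, W.map_comp, W.map_comp, map_mul (W.map (snd X (Y.prod Z)))]
    simp only [mul_assoc]
  rw [ctr, LinearMap.comp_apply, LinearMap.mulLeft_apply, e3, W.push_mul, push_p12,
    smul_mul_assoc, one_mul]

lemma comp_ctr {n : Type*} [Fintype n] {d : W.H (X.prod Y)} {f : n → (W.H X →ₗ[W.K] W.K)}
    {f' : n → (W.H Y →ₗ[W.K] W.K)}
    (hd : ∀ a b, W.tr (X.prod Y) (d * (W.map (fst X Y) a * W.map (snd X Y) b)) =
      ∑ i, f i a * f' i b) (h : W.H Z →ₗ[W.K] W.K) :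
    h ∘ₗ ctr W Z d = ∑ i, tens W (f i) (tens W (f' i) h) := by
  apply Mot.ext3'
  intro a b c
  rw [LinearMap.comp_apply, ctr_tmul, hd, map_smul, LinearMap.sum_apply, smul_eq_mul,
    Finset.sum_mul]
  refine Finset.sum_congr rfl fun i _ => ?_
  rw [tens_tmul, tens_tmul, mul_assoc]

lemma ctr_span {i j : ℤ} {d : W.H (X.prod Y)} (hd : d ∈ spanCycles W (X.prod Y) i)
    {x : W.H (X.prod (Y.prod Z))} (hx : x ∈ spanCycles W _ j) :
    ∃ l, ctr W Z d x ∈ spanCycles W Z l :=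
  ⟨_, KOp.map_span (KOp.pushHom _) (span_mul (span_map _ hd) hx)⟩

lemma ctr_num {i : ℤ} {d : W.H (X.prod Y)} (hd : d ∈ spanCycles W (X.prod Y) i)
    {x : W.H (X.prod (Y.prod Z))} (hx : NumTriv W _ x) : NumTriv W Z (ctr W Z d x) :=
  NumTriv.op (KOp.pushHom _) (NumTriv.mul_left (span_map _ hd) hx)

/-- Insertion of a class. -/
noncomputable def insC (W : WeilCohomology.{u, v} ops) {X Y : 𝒱.Obj} {Z : 𝒱.Obj}
    (c : W.H (X.prod Y)) (x : W.H Z) : W.H (X.prod (Y.prod Z)) :=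
  W.map (Mot.assocR X Y Z) (W.map (fst (X.prod Y) Z) c * W.map (snd (X.prod Y) Z) x)

lemma tens_insC (f : W.H X →ₗ[W.K] W.K) (g : W.H Y →ₗ[W.K] W.K) (h : W.H Z →ₗ[W.K] W.K)
    (c : W.H (X.prod Y)) (x : W.H Z) :
    tens W f (tens W g h) (insC W c x) = tens W f g c * h x := by
  have h1 := congrArg (fun F => F (W.map (fst (X.prod Y) Z) c * W.map (snd (X.prod Y) Z) x))
    (tens_assocR (W := W) f g h)
  beta_reduce at h1
  rw [tens_tmul] at h1
  exact h1

lemma insC_span {i j : ℤ} {c : W.H (X.prod Y)} (hc : c ∈ spanCycles W (X.prod Y) i)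
    {x : W.H Z} (hx : x ∈ spanCycles W Z j) : insC W c x ∈ spanCycles W _ (i + j) :=
  span_map _ (span_mul (span_map _ hc) (span_map _ hx))

lemma insC_num {i j : ℤ} {c : W.H (X.prod Y)} (hc : c ∈ spanCycles W (X.prod Y) i)
    {x : W.H Z} (hx : x ∈ spanCycles W Z j) (hn : NumTriv W Z x) :
    NumTriv W _ (insC W c x) :=
  NumTriv.op (KOp.mapHom (Mot.assocR X Y Z)) (NumTriv.prod_right hc hx hn)

/-- Moving a factor behind the slots. -/
lemma exists_prod_zero (X Y Y' : 𝒱.Obj) : ∀ n : ℕ,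
    ∃ Φ ∈ KOp W (Y.prod (pX X Y' n)) (pX X (Y.prod Y') n) 0, ∀ p q : ℕ, ∃ c : W.K, c ≠ 0 ∧
      ∀ (f : Fin n → (W.H X →ₗ[W.K] W.K)) (g : W.H Y →ₗ[W.K] W.K) (g' : W.H Y' →ₗ[W.K] W.K),
        (∀ i, Par W p (f i)) → Par W q g →
          msl W n f (tens W g g') ∘ₗ Φ = c • tens W g (msl W n f g') := by
  intro n
  induction n with
  | zero =>
    refine ⟨LinearMap.id, KOp.id _, fun p q => ⟨1, one_ne_zero, fun f g g' _ _ => ?_⟩⟩
    rw [LinearMap.comp_id, one_smul]
    rfl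
  | succ n ih =>
    obtain ⟨Φ, hΦ, h⟩ := ih
    obtain ⟨Ψ, hΨ, h'⟩ := exists_swap3 (W := W) Y X (pX X Y' n)
    refine ⟨extHom W LinearMap.id Φ ∘ₗ Ψ, KOp.cast (KOp.comp (KOp.extHom (KOp.id _) hΦ) hΨ)
      (by ring), fun p q => ?_⟩
    obtain ⟨c, hc, h1⟩ := h p q
    refine ⟨c * (-1) ^ (q * p), mul_ne_zero hc (pow_ne_zero _ (neg_ne_zero.2 one_ne_zero)),
      fun f g g' hf hg => ?_⟩
    have h2 : msl W (n + 1) f (tens W g g') =
      tens W (f 0) (msl W n (fun i => f i.succ) (tens W g g')) := rfl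
    have h3 : msl W (n + 1) f g' = tens W (f 0) (msl W n (fun i => f i.succ) g') := rfl
    rw [h2, h3, ← LinearMap.comp_assoc, tens_extHom, LinearMap.comp_id,
      h1 _ g g' (fun i => hf _) hg, tens_smul_right, LinearMap.smul_comp,
      h' q p g (f 0) _ hg (hf 0), smul_smul]

/-- Products of multilinear forms. -/
lemma exists_prod_pX (X Y Y' : 𝒱.Obj) (n : ℕ) : ∀ m : ℕ,
    ∃ Φ ∈ KOp W ((pX X Y m).prod (pX X Y' n)) (pX X (Y.prod Y') (n + m)) 0, ∀ p q : ℕ,
      ∃ c : W.K, c ≠ 0 ∧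
      ∀ (f : Fin (n + m) → (W.H X →ₗ[W.K] W.K)) (g : W.H Y →ₗ[W.K] W.K)
        (g' : W.H Y' →ₗ[W.K] W.K), (∀ i, Par W p (f i)) → Par W q g →
          msl W (n + m) f (tens W g g') ∘ₗ Φ =
            c • tens W (msl W m (fun i => f ⟨i, by omega⟩) g)
              (msl W n (fun j => f ⟨m + j, by omega⟩) g') := by
  intro m
  induction m with
  | zero =>
    obtain ⟨Φ, hΦ, h⟩ := exists_prod_zero (W := W) X Y Y' n
    refine ⟨Φ, hΦ, fun p q => ?_⟩
    obtain ⟨c, hc, h1⟩ := h p q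
    refine ⟨c, hc, fun f g g' hf hg => ?_⟩
    have h2 : (fun j : Fin n => f ⟨0 + j, by omega⟩) = f := by
      funext j
      congr 1
      apply Fin.ext
      exact zero_add _
    rw [h2]
    exact h1 f g g' hf hg
  | succ m ih =>
    obtain ⟨Φ, hΦ, h⟩ := ih
    refine ⟨extHom W LinearMap.id Φ ∘ₗ
      (W.map (Mot.assocR X (pX X Y m) (pX X Y' n))).toLinearMap,
      KOp.cast (KOp.comp (KOp.extHom (KOp.id _) hΦ) (KOp.mapHom _)) (by ring), fun p q => ?_⟩
    obtain ⟨c, hc, h1⟩ := h p q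
    refine ⟨c, hc, fun f g g' hf hg => ?_⟩
    have h2 : msl W (n + (m + 1)) f (tens W g g') =
      tens W (f 0) (msl W (n + m) (fun i => f i.succ) (tens W g g')) := rfl
    have h3 : msl W (m + 1) (fun i => f ⟨i, by omega⟩) g =
      tens W (f 0) (msl W m (fun i => f ⟨i + 1, by omega⟩) g) := rfl
    rw [h2, h3, ← LinearMap.comp_assoc, tens_extHom, LinearMap.comp_id,
      h1 _ g g' (fun i => hf _) hg, tens_smul_right, LinearMap.smul_comp, tens_assocR]
    congr 2
    congr 1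
    funext j
    congr 1
    apply Fin.ext
    change m + j + 1 = m + 1 + j
    omega

/-- The forms are linear in each slot. -/
lemma msl_lin : ∀ (m : ℕ) (f : Fin m → (W.H X →ₗ[W.K] W.K)) (g : W.H Y →ₗ[W.K] W.K)
    (s : Fin m) (c : W.K) (f₁ f₂ : W.H X →ₗ[W.K] W.K),
    msl W m (update f s (c • f₁ + f₂)) g = c • msl W m (update f s f₁) g +
      msl W m (update f s f₂) g := by
  intro m
  induction m with
  | zero => exact fun _ _ s => s.elim0
  | succ m ih =>
    intro f g s c f₁ f₂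
    refine Fin.cases ?_ (fun s => ?_) s
    · have h1 : ∀ f' : W.H X →ₗ[W.K] W.K, msl W (m + 1) (update f 0 f') g =
          tens W f' (msl W m (fun i => f i.succ) g) := by
        intro f'
        rw [msl_succ, update_self]
        rfl
      rw [h1, h1, h1, tens_add_left, tens_smul_left]
    · have h1 : ∀ f' : W.H X →ₗ[W.K] W.K, msl W (m + 1) (update f s.succ f') g =
          tens W (f 0) (msl W m (update (fun i => f i.succ) s f') g) := by
        intro f'
        rw [msl_succ, update_of_ne (Fin.succ_ne_zero s).symm]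
        congr 2
        funext i
        by_cases hi : i = s
        · subst hi
          rw [update_self, update_self]
        · rw [update_of_ne hi, update_of_ne (fun h' => hi (Fin.succ_injective _ h'))]
      rw [h1, h1, h1, ih, tens_add_right, tens_smul_right]

end Pool.Agent.R908
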