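import Pool.Agent.R908.KnC
import Pool.Agent.R908.AnisoDefs

/-!
# Symmetries of a Weil cohomology theory
-/

open CategoryTheory AlgebraicGeometry TensorProduct Function

universe u v w w'

namespace Pool.Agent.R908

open Pool.Agent.H914 Pool.Agent.H914.VarClass Pool.Agent.H914.VarClass.Obj
  Pool.Agent.H914.WeilCohomology

variable {k : Type u} [Field k] {𝒱 : VarClass k} {ops : CycleOps 𝒱}
  {W : WeilCohomology.{u, v} ops} {X Y Z X' Y' Z' : 𝒱.Obj}

namespace Symmetry

variable (S : Symmetry W)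

lemma c_ne_zero (X : 𝒱.Obj) : S.c X ≠ 0 := (S.sim X).ne_zero

lemma tr (a : W.H X) : W.tr X (S.σ X a) = S.c X * W.tr X a := (S.sim X).tr a

lemma gr {i : ℕ} {a : W.H X} : S.σ X a ∈ W.gr X i ↔ a ∈ W.gr X i := (S.sim X).gr i a

lemma fst (a : W.H X) : S.σ (X.prod Y) (W.map (Obj.fst X Y) a) = W.map (Obj.fst X Y) (S.σ X a) :=
  ((S.monoidal X Y).1 a).symm

lemma snd (a : W.H Y) : S.σ (X.prod Y) (W.map (Obj.snd X Y) a) = W.map (Obj.snd X Y) (S.σ Y a) :=
  ((S.monoidal X Y).2 a).symm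

/-- The inverse of a symmetry. -/
noncomputable def inv : Symmetry W where
  σ X := (S.σ X).symm
  c X := (S.c X)⁻¹
  sim X :=
    { ne_zero := inv_ne_zero (S.c_ne_zero X)
      tr := by
        intro a
        conv_rhs => rw [← AlgEquiv.apply_symm_apply (S.σ X) a]
        rw [S.tr, ← mul_assoc, inv_mul_cancel₀ (S.c_ne_zero X), one_mul]
      gr := by
        intro i a
        rw [← S.gr, AlgEquiv.apply_symm_apply] }
  monoidal := by
    intro X Y
    constructor
    · intro a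
      rw [eq_comm, AlgEquiv.symm_apply_eq, S.fst, AlgEquiv.apply_symm_apply]
    · intro a
      rw [eq_comm, AlgEquiv.symm_apply_eq, S.snd, AlgEquiv.apply_symm_apply]
  cycles := by
    intro X p a
    rw [← S.cycles X p ((S.σ X).symm a), AlgEquiv.apply_symm_apply]

/-- The automorphism as a linear map. -/
noncomputable def L (X : 𝒱.Obj) : W.H X →ₗ[W.K] W.H X := (S.σ X).toLinearMap

lemma L_apply (a : W.H X) : S.L X a = S.σ X a := rfl

lemma L_inv (a : W.H X) : S.L X (S.inv.L X a) = a := AlgEquiv.apply_symm_apply _ _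

lemma inv_L (a : W.H X) : S.inv.L X (S.L X a) = a := AlgEquiv.symm_apply_apply _ _

lemma span {j : ℤ} {x : W.H X} (hx : x ∈ spanCycles W X j) : S.σ X x ∈ spanCycles W X j := by
  induction hx using Submodule.span_induction with
  | mem x hx =>
    obtain ⟨p, hp, z, hz, rfl⟩ := hx
    rw [← hp]
    exact (S.cycles X p _).2 (Submodule.subset_span ⟨p, rfl, z, hz, rfl⟩)
  | zero => rw [map_zero]; exact Submodule.zero_mem _
  | add x y _ _ hx hy => rw [map_add]; exact Submodule.add_mem _ hx hy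
  | smul c x _ hx => rw [map_smul]; exact Submodule.smul_mem _ _ hx

lemma num {x : W.H X} (hx : NumTriv W X x) : NumTriv W X (S.σ X x) := by
  intro j g hg
  have h1 : g = S.σ X (S.inv.σ X g) := (AlgEquiv.apply_symm_apply _ _).symm
  rw [h1, ← map_mul, S.tr, hx j _ (S.inv.span hg), mul_zero]

lemma tens_L (f : W.H X →ₗ[W.K] W.K) (g : W.H Y →ₗ[W.K] W.K) :
    tens W f g ∘ₗ S.L (X.prod Y) = tens W (f ∘ₗ S.L X) (g ∘ₗ S.L Y) := by
  apply ext_kunneth_lin
  intro a b
  rw [LinearMap.comp_apply, tens_tmul, S.L_apply, map_mul (S.σ (X.prod Y)), S.fst, S.snd,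
    tens_tmul]
  rfl

lemma msl_L : ∀ (m : ℕ) (f : Fin m → (W.H X →ₗ[W.K] W.K)) (g : W.H Y →ₗ[W.K] W.K),
    msl W m f g ∘ₗ S.L (pX X Y m) = msl W m (fun i => f i ∘ₗ S.L X) (g ∘ₗ S.L Y) := by
  intro m
  induction m with
  | zero => exact fun _ _ => rfl
  | succ m ih =>
    intro f g
    have h1 := ih (fun i => f i.succ) g
    calc msl W (m + 1) f g ∘ₗ S.L (pX X Y (m + 1))
        = tens W (f 0) (msl W m (fun i => f i.succ) g) ∘ₗ S.L (X.prod (pX X Y m)) := rfl
      _ = tens W (f 0 ∘ₗ S.L X) (msl W m (fun i => f i.succ) g ∘ₗ S.L (pX X Y m)) :=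
          S.tens_L _ _
      _ = tens W (f 0 ∘ₗ S.L X) (msl W m (fun i => f i.succ ∘ₗ S.L X) (g ∘ₗ S.L Y)) := by rw [h1]
      _ = _ := rfl

lemma par {q : ℕ} {g : W.H X →ₗ[W.K] W.K} (hg : Par W q g) : Par W q (g ∘ₗ S.L X) := by
  intro i a ha hodd
  rw [LinearMap.comp_apply]
  exact hg i _ (S.gr.2 ha) hodd

end Symmetry

lemma msl_smul_all (c : W.K) : ∀ (m : ℕ) (f : Fin m → (W.H X →ₗ[W.K] W.K))
    (g : W.H Y →ₗ[W.K] W.K), msl W m (fun i => c • f i) g = c ^ m • msl W m f g := by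
  intro m
  induction m with
  | zero =>
    intro f g
    rw [pow_zero, one_smul]
    rfl
  | succ m ih =>
    intro f g
    rw [msl_succ, msl_succ, ih, tens_smul_left, tens_smul_right, smul_smul, pow_succ, mul_comm]

lemma msl_add_g : ∀ (m : ℕ) (f : Fin m → (W.H X →ₗ[W.K] W.K))
    (g g' : W.H Y →ₗ[W.K] W.K), msl W m f (g + g') = msl W m f g + msl W m f g' := by
  intro m
  induction m with
  | zero => exact fun _ _ _ => rfl
  | succ m ih =>
    intro f g g'
    rw [msl_succ, msl_succ, msl_succ, ih, tens_add_right]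

lemma msl_zero_g (m : ℕ) (f : Fin m → (W.H X →ₗ[W.K] W.K)) :
    msl W m f (0 : W.H Y →ₗ[W.K] W.K) = 0 := by
  have h1 := msl_add_g (W := W) (Y := Y) m f 0 0
  rw [add_zero] at h1
  exact left_eq_add.1 h1

lemma msl_sum_g (m : ℕ) (f : Fin m → (W.H X →ₗ[W.K] W.K)) {ι : Type*} (s : Finset ι)
    (g : ι → (W.H Y →ₗ[W.K] W.K)) : msl W m f (∑ i ∈ s, g i) = ∑ i ∈ s, msl W m f (g i) := by
  classical
  induction s using Finset.induction_on with
  | empty => rw [Finset.sum_empty, Finset.sum_empty, msl_zero_g]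
  | insert a s ha ih => rw [Finset.sum_insert ha, Finset.sum_insert ha, msl_add_g, ih]

/-- A class is zero if all multilinear forms vanish on it. -/
lemma msl_sep : ∀ (m : ℕ) (y : W.H (pX X Y m)), (∀ f g, msl W m f g y = 0) → y = 0 := by
  intro m
  induction m with
  | zero =>
    intro y h
    rw [← Module.forall_dual_apply_eq_zero_iff W.K]
    intro g
    exact h Fin.elim0 g
  | succ m ih =>
    intro y h
    apply sl_sep
    intro f₀
    apply ih
    intro f g
    exact h (Fin.cons f₀ f) g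

/-- The projectors on the products. -/
noncomputable def pE (A B : Mot W) : ∀ m : ℕ, W.H (pX A.X B.X m) →ₗ[W.K] W.H (pX A.X B.X m)
  | 0 => B.e
  | m + 1 => extHom W A.e (pE A B m)

lemma pE_mem (A B : Mot W) : ∀ m, pE A B m ∈ KOp W (pX A.X B.X m) (pX A.X B.X m) 0
  | 0 => B.mem
  | m + 1 => KOp.cast (KOp.extHom A.mem (pE_mem A B m)) (add_zero 0)

lemma pE_idem (A B : Mot W) : ∀ m, pE A B m ∘ₗ pE A B m = pE A B m
  | 0 => B.idem
  | m + 1 => by
    change extHom W A.e (pE A B m) ∘ₗ extHom W A.e (pE A B m) = extHom W A.e (pE A B m)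
    rw [extHom_comp, A.idem, pE_idem A B m]

/-- The tensor product of `m` copies of `A` and of `B`. -/
noncomputable def pM (A B : Mot W) (m : ℕ) : Mot W :=
  ⟨pX A.X B.X m, pE A B m, pE_mem A B m, pE_idem A B m⟩

lemma pM_succ (A B : Mot W) (m : ℕ) : pM A B (m + 1) = A.tensor (pM A B m) := rfl

lemma pM_m (A B : Mot W) (m : ℕ) : (pM A B m).m = A.m ^ m * B.m := by
  induction m with
  | zero => rw [pow_zero, one_mul]; rfl
  | succ m ih => rw [pM_succ, Mot.m_tensor, ih, pow_succ', mul_assoc]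

lemma msl_pE (A B : Mot W) : ∀ (m : ℕ) (f : Fin m → (W.H A.X →ₗ[W.K] W.K))
    (g : W.H B.X →ₗ[W.K] W.K),
    msl W m f g ∘ₗ pE A B m = msl W m (fun i => f i ∘ₗ A.e) (g ∘ₗ B.e) := by
  intro m
  induction m with
  | zero => exact fun _ _ => rfl
  | succ m ih =>
    intro f g
    change tens W (f 0) (msl W m (fun i => f i.succ) g) ∘ₗ extHom W A.e (pE A B m) = _
    rw [tens_extHom, ih]
    rfl

end Pool.Agent.R908
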