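import Pool.Agent.R908.KnD
import Pool.Agent.R908.KmQ

/-!
# Self-dual direct factors and their form
-/

open CategoryTheory AlgebraicGeometry TensorProduct Function

universe u v w w'

namespace Pool.Agent.R908

open Pool.Agent.H914 Pool.Agent.H914.VarClass Pool.Agent.H914.VarClass.Obj
  Pool.Agent.H914.WeilCohomology Km

variable {k : Type u} [Field k] {𝒱 : VarClass k} {ops : CycleOps 𝒱}
  {W : WeilCohomology.{u, v} ops} {X Y Z X' Y' Z' : 𝒱.Obj}

/-- A self-dual direct factor of pure parity. -/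
structure SelfDual (A : Mot W) (w : ℕ) (ε : W.K) (θ θ' : W.H A.X →ₗ[W.K] W.H A.X) : Prop where
  θ_mem : ∃ δ, θ ∈ KOp W A.X A.X δ
  θ'_mem : ∃ δ, θ' ∈ KOp W A.X A.X δ
  par : ∀ i, ∀ a ∈ W.gr A.X i, Odd (i + w) → A.e a = 0
  θ_e : θ ∘ₗ A.e = θ
  inv : θ' ∘ₗ θ = A.e
  symm : ∀ a b, W.tr A.X (a * θ b) = ε * W.tr A.X (b * θ a)
  sq : ε * ε = 1

/-- The form. -/
noncomputable def psi (A : Mot W) (θ : W.H A.X →ₗ[W.K] W.H A.X) :
    W.H A.X →ₗ[W.K] W.H A.X →ₗ[W.K] W.K :=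
  (bil W A.X).compl₂ θ

lemma psi_apply (A : Mot W) (θ : W.H A.X →ₗ[W.K] W.H A.X) (a b : W.H A.X) :
    psi A θ a b = W.tr A.X (a * θ b) := rfl

namespace SelfDual

variable {A : Mot W} {w : ℕ} {ε : W.K} {θ θ' : W.H A.X →ₗ[W.K] W.H A.X}
  (h : SelfDual A w ε θ θ')
include h

lemma psi_symm (a b : W.H A.X) : psi A θ a b = ε * psi A θ b a := h.symm a b

lemma psi_e (a b : W.H A.X) : psi A θ a (A.e b) = psi A θ a b := by
  rw [psi_apply, psi_apply]
  congr 2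
  exact congrArg (fun F => F b) h.θ_e

lemma psi_e_left (a b : W.H A.X) : psi A θ (A.e a) b = psi A θ a b := by
  rw [h.psi_symm, h.psi_e, ← h.psi_symm]

lemma θθ (a : W.H A.X) : θ' (θ a) = A.e a := congrArg (fun F => F a) h.inv

lemma ee (a : W.H A.X) : A.e (A.e a) = A.e a := congrArg (fun F => F a) A.idem

lemma eq_zero {a : W.H A.X} (h0 : ∀ b, psi A θ b a = 0) : A.e a = 0 := by
  have h1 : θ a = 0 := nondeg_right (fun b => h0 b)
  rw [← h.θθ, h1, map_zero]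

lemma eq_zero' {a : W.H A.X} (h0 : ∀ b, psi A θ a b = 0) : A.e a = 0 := by
  apply h.eq_zero
  intro b
  rw [h.psi_symm, h0, mul_zero]

/-- The form `ψ(t, ·)` is pure of parity `w`. -/
lemma par_psi (t : W.H A.X) : Par W w (psi A θ t) := by
  intro i a ha hodd
  rw [← h.psi_e, h.par i a ha hodd, map_zero]

lemma comm_θ (c a : W.H A.X) : W.tr A.X (c * θ a) = (-1 : W.K) ^ w * W.tr A.X (θ a * c) := by
  have e1 : ∀ a, θ a = θ (A.e a) := fun a => (congrArg (fun F => F a) h.θ_e).symm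
  refine gr_induction (W.isInternal A.X) (p := fun a => W.tr A.X (c * θ a) =
    (-1 : W.K) ^ w * W.tr A.X (θ a * c)) ?_ ?_ a
  swap
  · intro a a' ha ha'
    rw [map_add, mul_add, add_mul, map_add, map_add, ha, ha', mul_add]
  intro i a ha
  by_cases hodd : Odd (i + w)
  · rw [e1, h.par i a ha hodd, map_zero, mul_zero, zero_mul, map_zero, mul_zero]
  rw [Nat.not_odd_iff_even] at hodd
  obtain ⟨δ, hδ⟩ := h.θ_mem
  have h2 := KOp.isHom hδ i a (by rw [grZ_natCast]; exact ha)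
  by_cases hneg : (i : ℤ) + 2 * δ < 0
  · rw [grZ_of_neg hneg] at h2
    rw [(Submodule.mem_bot _).1 h2, mul_zero, zero_mul, map_zero, mul_zero]
  obtain ⟨l, hl⟩ : ∃ l : ℕ, (l : ℤ) = i + 2 * δ := ⟨_, Int.toNat_of_nonneg (by omega)⟩
  rw [← hl, grZ_natCast] at h2
  refine gr_induction (W.isInternal A.X) (p := fun c => W.tr A.X (c * θ a) =
    (-1 : W.K) ^ w * W.tr A.X (θ a * c)) ?_ ?_ c
  swap
  · intro c c' hc hc'
    rw [add_mul, mul_add, map_add, map_add, hc, hc', mul_add]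
  intro j c hc
  rw [W.comm hc h2, map_smul, smul_eq_mul]
  by_cases hjl : l + j = 2 * A.X.dim
  · congr 1
    have h3 : (Even l ↔ Even j) := Nat.even_add.1 ⟨A.X.dim, by omega⟩
    have h4 : (Even i ↔ Even w) := Nat.even_add.1 hodd
    have h5 : (Even l ↔ Even i) := by
      constructor
      · rintro ⟨r, hr⟩
        exact (Int.even_coe_nat i).1 ⟨r - δ, by omega⟩
      · rintro ⟨r, hr⟩
        exact (Int.even_coe_nat l).1 ⟨r + δ, by omega⟩
    rcases Nat.even_or_odd w with hw | hw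
    · have hj : Even j := h3.1 (h5.2 (h4.2 hw))
      rw [(hj.mul_right l).neg_one_pow, hw.neg_one_pow]
    · have hw' : ¬ Even w := Nat.not_even_iff_odd.2 hw
      have hi : ¬ Even i := fun h => hw' (h4.1 h)
      have hl' : ¬ Even l := fun h => hi (h5.1 h)
      have hj : ¬ Even j := fun h => hl' (h3.2 h)
      rw [((Nat.not_even_iff_odd.1 hj).mul (Nat.not_even_iff_odd.1 hl')).neg_one_pow,
        hw.neg_one_pow]
  · rw [W.tr_eq_zero (W.mul_mem h2 hc) hjl, mul_zero, mul_zero]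

lemma sgn_sq : ((-1 : W.K) ^ w) * (-1) ^ w = 1 := by
  rw [← pow_add, ← two_mul, pow_mul]
  simp

/-- Adjoints of algebraic operators for the form `ψ`. -/
lemma exists_adj {δ : ℤ} {φ : W.H A.X →ₗ[W.K] W.H A.X} (hφ : φ ∈ KOp W A.X A.X δ) :
    ∃ (δ' : ℤ) (Φ : W.H A.X →ₗ[W.K] W.H A.X), Φ ∈ KOp W A.X A.X δ' ∧
      ∀ a b, psi A θ (φ (A.e a)) b = psi A θ a (Φ b) := by
  obtain ⟨δ₁, h1⟩ := h.θ_mem
  obtain ⟨δ₂, h2⟩ := h.θ'_mem
  obtain ⟨ξ, hξ, hadj⟩ := KOp.exists_adjoint (KOp.comp hφ h2)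
  refine ⟨_, (ε * (-1) ^ w) • (ξ ∘ₗ θ), Submodule.smul_mem _ _ (KOp.comp hξ h1), fun a b => ?_⟩
  have e1 : psi A θ a (((ε * (-1) ^ w) • (ξ ∘ₗ θ)) b) =
      (ε * (-1) ^ w) * psi A θ a (ξ (θ b)) := by
    rw [LinearMap.smul_apply, map_smul, smul_eq_mul]
    rfl
  have e2 : W.tr A.X (θ a * ξ (θ b)) = psi A θ (φ (A.e a)) b := by
    rw [← hadj, LinearMap.comp_apply, h.θθ]
    rfl
  rw [e1, h.psi_symm a (ξ (θ b)), psi_apply A θ (ξ (θ b)) a, h.comm_θ (ξ (θ b)) a, e2]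
  have h3 := h.sq
  have h4 := h.sgn_sq
  calc psi A θ (φ (A.e a)) b = (ε * ε) * (((-1) ^ w) * (-1) ^ w) * psi A θ (φ (A.e a)) b := by
        rw [h3, h4, one_mul, one_mul]
    _ = _ := by ring

/-- The class of the contraction. -/
lemma exists_ctr_class : ∃ (i : ℤ) (d : W.H (A.X.prod A.X)) (c : W.K), c ≠ 0 ∧
    d ∈ spanCycles W _ i ∧ ∀ a b, W.tr (A.X.prod A.X) (d * (W.map (fst A.X A.X) a *
      W.map (snd A.X A.X) b)) = c * psi A θ a b := by
  obtain ⟨δ₁, h1⟩ := h.θ_mem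
  obtain ⟨d, hd, he⟩ := mem_KOp_iff.1 h1
  refine ⟨_, d, (-1) ^ w * ε, ?_, hd, fun a b => ?_⟩
  · intro h0
    have h3 := h.sq
    have h4 := h.sgn_sq
    have h5 : ((-1) ^ w * ε) * ((-1) ^ w * ε) = 1 := by
      calc ((-1) ^ w * ε) * ((-1) ^ w * ε) = (((-1) ^ w) * (-1) ^ w) * (ε * ε) := by ring
        _ = 1 := by rw [h3, h4, one_mul]
    rw [h0, mul_zero] at h5
    exact zero_ne_one h5
  · have e1 : W.tr (A.X.prod A.X) (d * (W.map (fst A.X A.X) a * W.map (snd A.X A.X) b)) =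
        W.tr A.X (θ a * b) := by
      rw [← he, corr_apply, W.tr_push, mul_assoc]
    have e2 : psi A θ b a = (-1) ^ w * W.tr A.X (θ a * b) := h.comm_θ b a
    rw [e1, h.psi_symm a b, e2]
    have h3 := h.sq
    have h4 := h.sgn_sq
    calc W.tr A.X (θ a * b) = (((-1) ^ w) * (-1) ^ w) * (ε * ε) * W.tr A.X (θ a * b) := by
          rw [h3, h4, one_mul, one_mul]
      _ = _ := by ring

/-- The class of the insertion. -/
lemma exists_ins_class : ∃ (i : ℤ) (d : W.H (A.X.prod A.X)) (c : W.K), c ≠ 0 ∧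
    d ∈ spanCycles W _ i ∧ ∀ a b, tens W (psi A θ a) (psi A θ b) d = c * psi A θ a b := by
  obtain ⟨δ₂, h2⟩ := h.θ'_mem
  obtain ⟨d, hd, he⟩ := mem_KOp_iff.1 h2
  have hne : (-1 : W.K) ^ w ≠ 0 := pow_ne_zero _ (neg_ne_zero.2 one_ne_zero)
  refine ⟨_, d, (-1) ^ w, hne, hd, fun a b => ?_⟩
  -- slices
  have key : ∀ (u : W.H A.X) (y : W.H (A.X.prod A.X)), sl W (bil W A.X u) y =
      W.push (snd A.X A.X) (W.map (fst A.X A.X) u * y) := by
    intro u y
    have e0 : sl W (bil W A.X u) = W.push (snd A.X A.X) ∘ₗ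
        LinearMap.mulLeft W.K (W.map (fst A.X A.X) u) := by
      apply ext_kunneth_lin
      intro x z
      rw [sl_tmul, LinearMap.comp_apply, LinearMap.mulLeft_apply, tr_fst, bil_apply]
    rw [e0]
    rfl
  have e1 : psi A θ a = bil W A.X ((ε * (-1) ^ w) • θ a) := by
    apply LinearMap.ext
    intro y
    rw [h.psi_symm, psi_apply, h.comm_θ, bil_apply, smul_mul_assoc, map_smul, smul_eq_mul]
    ring
  have e2 : sl W (psi A θ a) d = (ε * (-1) ^ w) • A.e a := by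
    rw [e1, key, ← span_comm hd]
    have e3 : W.push (snd A.X A.X) (d * W.map (fst A.X A.X) ((ε * (-1) ^ w) • θ a)) =
        W.corr d ((ε * (-1) ^ w) • θ a) := (corr_apply _ _ _).symm
    rw [e3, he, map_smul, h.θθ]
  rw [tens, LinearMap.comp_apply, e2, map_smul, h.psi_e, h.psi_symm b a, smul_eq_mul]
  have h3 := h.sq
  calc ε * (-1) ^ w * (ε * psi A θ a b) = (ε * ε) * ((-1) ^ w * psi A θ a b) := by ring
    _ = _ := by rw [h3, one_mul]

end SelfDual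

end Pool.Agent.R908
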