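import Pool.Agent.R908.KnE

/-!
# The spaces of multilinear forms given by numerically trivial classes
-/

open CategoryTheory AlgebraicGeometry TensorProduct Function

universe u v w w'

namespace Pool.Agent.R908

open Pool.Agent.H914 Pool.Agent.H914.VarClass Pool.Agent.H914.VarClass.Obj
  Pool.Agent.H914.WeilCohomology Km

variable {k : Type u} [Field k] {𝒱 : VarClass k} {ops : CycleOps 𝒱}
  {W : WeilCohomology.{u, v} ops} {X Y Z X' Y' Z' : 𝒱.Obj}

/-- The subspace cut out by `A`. -/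
abbrev TT (A : Mot W) : Submodule W.K (W.H A.X) := LinearMap.range A.e

/-- The form on the subspace. -/
noncomputable def psiT (A : Mot W) (θ : W.H A.X →ₗ[W.K] W.H A.X) :
    TT A →ₗ[W.K] TT A →ₗ[W.K] W.K :=
  (psi A θ).domRestrict₁₂ (TT A) (TT A)

lemma psiT_apply (A : Mot W) (θ : W.H A.X →ₗ[W.K] W.H A.X) (x y : TT A) :
    psiT A θ x y = psi A θ x y := rfl

lemma TT_e {A : Mot W} (x : TT A) : A.e x = x := by
  obtain ⟨x, y, rfl⟩ := x
  exact congrArg (fun F => F y) A.idem

namespace SelfDual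

variable {A : Mot W} {w : ℕ} {ε : W.K} {θ θ' : W.H A.X →ₗ[W.K] W.H A.X}
  (h : SelfDual A w ε θ θ')
include h

lemma psiT_inj {x : TT A} (h0 : ∀ y, psiT A θ x y = 0) : x = 0 := by
  apply Subtype.ext
  rw [← TT_e x]
  apply h.eq_zero'
  intro b
  rw [← h.psi_e]
  exact h0 ⟨A.e b, b, rfl⟩

lemma psiT_surj (f : TT A →ₗ[W.K] W.K) : ∃ x : TT A, psiT A θ x = f := by
  have hinj : Function.Injective (psiT A θ) := by
    rw [← LinearMap.ker_eq_bot, LinearMap.ker_eq_bot']
    intro x hx
    exact h.psiT_inj (fun y => congrArg (fun F => F y) hx)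
  exact (LinearMap.injective_iff_surjective_of_finrank_eq_finrank
    (Subspace.dual_finrank_eq (K := W.K) (V := TT A)).symm).1 hinj f

/-- Linear forms factoring through `A`. -/
lemma exists_psi (f : W.H A.X →ₗ[W.K] W.K) : ∃ x : TT A, f ∘ₗ A.e = psi A θ x := by
  obtain ⟨x, hx⟩ := h.psiT_surj (f.domRestrict (TT A))
  refine ⟨x, ?_⟩
  apply LinearMap.ext
  intro y
  have h1 := congrArg (fun F => F ⟨A.e y, y, rfl⟩) hx
  beta_reduce at h1
  rw [LinearMap.comp_apply, ← h.psi_e]
  exact h1.symm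

/-- Dual bases. -/
lemma exists_dualPair : ∃ (n : ℕ) (b c : Fin n → TT A), DualPair (psiT A θ) b c ε := by
  set b := Module.finBasis W.K (TT A) with hb
  choose c hc using fun i => h.psiT_surj (b.coord i)
  have hdelta : ∀ i j, psiT A θ (c i) (b j) = if i = j then 1 else 0 := by
    intro i j
    rw [hc, Module.Basis.coord_apply, Module.Basis.repr_self, Finsupp.single_apply]
    by_cases hij : i = j
    · rw [if_pos hij, if_pos hij.symm]
    · rw [if_neg hij, if_neg (Ne.symm hij)]
  refine ⟨_, b, c, hdelta, ?_, ?_, ?_, h.sq⟩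
  · intro x
    conv_lhs => rw [← b.sum_repr x]
    refine Finset.sum_congr rfl fun i _ => ?_
    rw [hc]
    rfl
  · intro x
    rw [← sub_eq_zero]
    apply h.psiT_inj
    have h1 : psiT A θ (x - ∑ i, psiT A θ x (b i) • c i) = 0 := by
      apply b.ext
      intro j
      rw [map_sub, LinearMap.sub_apply, map_sum, LinearMap.sum_apply, LinearMap.zero_apply,
        Finset.sum_eq_single j, map_smul, LinearMap.smul_apply, hdelta, if_pos rfl, smul_eq_mul,
        mul_one, sub_self]
      · intro i _ hi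
        rw [map_smul, LinearMap.smul_apply, hdelta, if_neg hi, smul_zero]
      · intro h0
        exact absurd (Finset.mem_univ _) h0
    intro y
    rw [h1, LinearMap.zero_apply]
  · intro x y
    exact h.psi_symm x y

/-- Expansion of the form in dual bases. -/
lemma psi_expand {n : ℕ} {b c : Fin n → TT A} (hbc : DualPair (psiT A θ) b c ε) (x y : W.H A.X) :
    psi A θ x y = ∑ i, psi A θ (c i) x * psi A θ (b i) y := by
  have h1 := hbc.exp_b ⟨A.e x, x, rfl⟩
  have h2 := congrArg Subtype.val h1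
  have h3 : ((∑ i, psiT A θ (c i) ⟨A.e x, x, rfl⟩ • b i : TT A) : W.H A.X) =
      ∑ i, psi A θ (c i) x • (b i : W.H A.X) := by
    rw [AddSubmonoidClass.coe_finset_sum]
    refine Finset.sum_congr rfl fun i _ => ?_
    rw [Submodule.coe_smul]
    congr 1
    rw [psiT_apply]
    exact h.psi_e _ _
  rw [h3] at h2
  have h4 : A.e x = ∑ i, psi A θ (c i) x • (b i : W.H A.X) := h2
  rw [← h.psi_e_left, h4, map_sum, LinearMap.sum_apply]
  refine Finset.sum_congr rfl fun i _ => ?_
  rw [map_smul, LinearMap.smul_apply, smul_eq_mul]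

end SelfDual

/-- The multilinear forms given by a numerically trivial class. -/
def IsGen (A : Mot W) (θ : W.H A.X →ₗ[W.K] W.H A.X) (Q : Mot W → Prop) (m : ℕ)
    (F : (Fin m → TT A) → W.K) : Prop :=
  ∃ (B : Mot W) (q : ℕ) (g : W.H B.X →ₗ[W.K] W.K) (j : ℤ) (x : W.H (pX A.X B.X m)),
    Q B ∧ Par W q g ∧ g ∘ₗ B.e = g ∧ x ∈ spanCycles W _ j ∧ NumTriv W _ x ∧
      F = fun v => msl W m (fun s => psi A θ (v s)) g x

/-- The spaces of multilinear forms. -/
def FA (A : Mot W) (θ : W.H A.X →ₗ[W.K] W.H A.X) (Q : Mot W → Prop) (m : ℕ) :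
    Submodule W.K ((Fin m → TT A) → W.K) :=
  Submodule.span W.K {F | IsGen A θ Q m F}

section FA

variable {A : Mot W} {w : ℕ} {ε : W.K} {θ θ' : W.H A.X →ₗ[W.K] W.H A.X} {Q : Mot W → Prop}

lemma FA_gen {m : ℕ} {F : (Fin m → TT A) → W.K} (h : IsGen A θ Q m F) : F ∈ FA A θ Q m :=
  Submodule.subset_span h

/-- Transfer of properties from the generators, for linear operations. -/
lemma FA_map {m n : ℕ} (L : ((Fin m → TT A) → W.K) →ₗ[W.K] ((Fin n → TT A) → W.K))
    (hL : ∀ F, IsGen A θ Q m F → L F ∈ FA A θ Q n) {F : (Fin m → TT A) → W.K}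
    (hF : F ∈ FA A θ Q m) : L F ∈ FA A θ Q n := by
  have h1 : FA A θ Q m ≤ (FA A θ Q n).comap L := Submodule.span_le.2 hL
  exact h1 hF

lemma FA_multi {m : ℕ} {F : (Fin m → TT A) → W.K} (hF : F ∈ FA A θ Q m) :
    ∃ g : MultilinearMap W.K (fun _ : Fin m => TT A) W.K, ∀ v, g v = F v := by
  induction hF using Submodule.span_induction with
  | mem F hF =>
    obtain ⟨B, q, g, j, x, hB, hq, hg, hx, hn, rfl⟩ := hF
    have hup : ∀ (v : Fin m → TT A) (s : Fin m) (t : TT A),
        (fun r => psi A θ (update v s t r)) = update (fun r => psi A θ (v r)) s (psi A θ t) := by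
      intro v s t
      funext r
      by_cases hr : r = s
      · subst hr
        rw [update_self, update_self]
      · rw [update_of_ne hr, update_of_ne hr]
    refine ⟨MultilinearMap.mk' (fun v => msl W m (fun s => psi A θ (v s)) g x) ?_ ?_,
      fun v => rfl⟩
    · intro v s t t'
      have h1 := msl_lin m (fun r => psi A θ (v r)) g s 1 (psi A θ t) (psi A θ t')
      rw [one_smul, one_smul] at h1
      rw [hup, hup, hup, Submodule.coe_add, map_add, h1, LinearMap.add_apply]
    · intro v s c t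
      have h1 := msl_lin m (fun r => psi A θ (v r)) g s c (psi A θ t) 0
      have h2 := msl_lin m (fun r => psi A θ (v r)) g s 1 0 0
      rw [one_smul, one_smul, add_zero] at h2
      have h3 : msl W m (update (fun r => psi A θ (v r)) s 0) g = 0 := left_eq_add.1 h2
      rw [h3, add_zero, add_zero] at h1
      rw [hup, hup, Submodule.coe_smul, map_smul, h1, LinearMap.smul_apply]
  | zero => exact ⟨0, fun v => rfl⟩
  | add F F' _ _ hF hF' =>
    obtain ⟨g, hg⟩ := hF
    obtain ⟨g', hg'⟩ := hF'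
    exact ⟨g + g', fun v => by rw [MultilinearMap.add_apply, hg, hg']; rfl⟩
  | smul c F _ hF =>
    obtain ⟨g, hg⟩ := hF
    exact ⟨c • g, fun v => by rw [MultilinearMap.smul_apply, hg]; rfl⟩

lemma FA_zero (hQ : ∀ B, Q B → B.Num) {F : (Fin 0 → TT A) → W.K} (hF : F ∈ FA A θ Q 0) :
    F = 0 := by
  induction hF using Submodule.span_induction with
  | mem F hF =>
    obtain ⟨B, q, g, j, x, hB, hq, hg, hx, hn, rfl⟩ := hF
    funext v
    change g x = 0
    have h1 : g (B.e x) = g x := congrArg (fun F => F x) hg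
    have h2 : B.e x = 0 := hQ B hB j x hx hn
    rw [← h1, h2, map_zero]
  | zero => rfl
  | add F F' _ _ hF hF' => rw [hF, hF', add_zero]
  | smul c F _ hF => rw [hF, smul_zero]

/-- Precomposition with a map of the variables. -/
def preL (A : Mot W) {m n : ℕ} (φ : (Fin n → TT A) → (Fin m → TT A)) :
    ((Fin m → TT A) → W.K) →ₗ[W.K] ((Fin n → TT A) → W.K) where
  toFun := fun F v => F (φ v)
  map_add' := fun _ _ => rfl
  map_smul' := fun _ _ => rfl

lemma FA_perm (h : SelfDual A w ε θ θ') {m : ℕ} {F : (Fin m → TT A) → W.K}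
    (π : Equiv.Perm (Fin m)) (hF : F ∈ FA A θ Q m) : (fun v => F (v ∘ π)) ∈ FA A θ Q m := by
  refine FA_map (preL A (fun v => v ∘ π)) ?_ hF
  rintro F ⟨B, q, g, j, x, hB, hq, hg, hx, hn, rfl⟩
  obtain ⟨Φ, hΦ, c, hc, h1⟩ := exists_perm (W := W) (X := A.X) (Y := B.X) w m π
  have h2 : preL A (fun v => v ∘ π) (fun v => msl W m (fun s => psi A θ (v s)) g x) =
      c⁻¹ • fun v => msl W m (fun s => psi A θ (v s)) g (Φ x) := by
    funext v
    have h3 := congrArg (fun G => G x) (h1 (fun s => psi A θ (v s)) g (fun i => h.par_psi _))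
    beta_reduce at h3
    rw [LinearMap.comp_apply, LinearMap.smul_apply] at h3
    rw [Pi.smul_apply, h3, smul_smul, inv_mul_cancel₀ hc, one_smul]
    rfl
  rw [h2]
  exact Submodule.smul_mem _ _ (FA_gen ⟨B, q, g, _, Φ x, hB, hq, hg, KOp.map_span hΦ hx,
    NumTriv.op hΦ hn, rfl⟩)

lemma FA_contr (h : SelfDual A w ε θ θ') {n : ℕ} {b c : Fin n → TT A}
    (hbc : DualPair (psiT A θ) b c ε) {m : ℕ} {F : (Fin (m + 2) → TT A) → W.K}
    (hF : F ∈ FA A θ Q (m + 2)) :
    (fun v : Fin m → TT A => ∑ i, F (Fin.cons (c i) (Fin.cons (b i) v : Fin (m + 1) → TT A) :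
      Fin (m + 2) → TT A)) ∈ FA A θ Q m := by
  have e1 : (fun v : Fin m → TT A => ∑ i, F (Fin.cons (c i) (Fin.cons (b i) v :
      Fin (m + 1) → TT A) : Fin (m + 2) → TT A)) = (∑ i, preL A (fun v : Fin m → TT A =>
        (Fin.cons (c i) (Fin.cons (b i) v : Fin (m + 1) → TT A) : Fin (m + 2) → TT A))) F := by
    funext v
    rw [LinearMap.sum_apply, Finset.sum_apply]
    rfl
  rw [e1]
  refine FA_map _ ?_ hF
  rintro F ⟨B, q, g, j, x, hB, hq, hg, hx, hn, rfl⟩
  obtain ⟨l, d, r, hr, hd, h1⟩ := h.exists_ctr_class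
  have h2 : (∑ i, preL A (fun v : Fin m → TT A =>
        (Fin.cons (c i) (Fin.cons (b i) v : Fin (m + 1) → TT A) : Fin (m + 2) → TT A)))
      (fun v => msl W (m + 2) (fun s => psi A θ (v s)) g x) =
      r⁻¹ • fun v => msl W m (fun s => psi A θ (v s)) g (ctr W (pX A.X B.X m) d x) := by
    funext v
    have h3 := comp_ctr (W := W) (d := d) (f := fun i => r • psi A θ (c i))
      (f' := fun i => psi A θ (b i)) (by
        intro y z
        rw [h1, h.psi_expand hbc, Finset.mul_sum]
        refine Finset.sum_congr rfl fun i _ => ?_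
        rw [LinearMap.smul_apply, smul_eq_mul, mul_assoc])
      (msl W m (fun s => psi A θ (v s)) g)
    have h4 := congrArg (fun G => G x) h3
    beta_reduce at h4
    rw [LinearMap.comp_apply, LinearMap.sum_apply] at h4
    rw [Pi.smul_apply, h4, LinearMap.sum_apply, Finset.sum_apply, Finset.smul_sum]
    refine Finset.sum_congr rfl fun i _ => ?_
    rw [tens_smul_left, LinearMap.smul_apply, smul_smul, inv_mul_cancel₀ hr, one_smul]
    rfl
  rw [h2]
  obtain ⟨j', hj'⟩ := ctr_span hd hx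
  exact Submodule.smul_mem _ _ (FA_gen ⟨B, q, g, _, _, hB, hq, hg, hj', ctr_num hd hn, rfl⟩)

lemma FA_ins (h : SelfDual A w ε θ θ') {m : ℕ} {F : (Fin m → TT A) → W.K}
    (hF : F ∈ FA A θ Q m) :
    (fun v : Fin (m + 2) → TT A => psiT A θ (v 0) (v 1) * F (fun j => v j.succ.succ)) ∈
      FA A θ Q (m + 2) := by
  set L : ((Fin m → TT A) → W.K) →ₗ[W.K] ((Fin (m + 2) → TT A) → W.K) :=
    { toFun := fun F v => psiT A θ (v 0) (v 1) * F (fun j => v j.succ.succ)
      map_add' := fun _ _ => by funext v; exact mul_add _ _ _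
      map_smul' := fun _ _ => by
        funext v
        rw [Pi.smul_apply, Pi.smul_apply, RingHom.id_apply, smul_eq_mul, smul_eq_mul]
        ring } with hL
  refine FA_map L ?_ hF
  rintro F ⟨B, q, g, j, x, hB, hq, hg, hx, hn, rfl⟩
  obtain ⟨l, d, r, hr, hd, h1⟩ := h.exists_ins_class
  have h2 : L (fun v => msl W m (fun s => psi A θ (v s)) g x) =
      r⁻¹ • fun v => msl W (m + 2) (fun s => psi A θ (v s)) g (insC W d x) := by
    funext v
    have h3 : msl W (m + 2) (fun s => psi A θ (v s)) g (insC W d x) =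
        tens W (psi A θ (v 0)) (tens W (psi A θ (v 1))
          (msl W m (fun s => psi A θ (v s.succ.succ)) g)) (insC W d x) := rfl
    rw [Pi.smul_apply, h3, tens_insC, h1, smul_eq_mul, ← mul_assoc, ← mul_assoc,
      inv_mul_cancel₀ hr, one_mul]
    rfl
  rw [h2]
  exact Submodule.smul_mem _ _ (FA_gen ⟨B, q, g, _, _, hB, hq, hg, insC_span hd hx,
    insC_num hd hx hn, rfl⟩)

end FA

end Pool.Agent.R908
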