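import Pool.Agent.R908.KnF

/-!
# Numerically trivial classes on products with a direct factor without isotropic subspaces
-/

open CategoryTheory AlgebraicGeometry TensorProduct Function

universe u v w w'

namespace Pool.Agent.R908

open Pool.Agent.H914 Pool.Agent.H914.VarClass Pool.Agent.H914.VarClass.Obj
  Pool.Agent.H914.WeilCohomology Km

variable {k : Type u} [Field k] {𝒱 : VarClass k} {ops : CycleOps 𝒱}
  {W : WeilCohomology.{u, v} ops} {X Y Z X' Y' Z' : 𝒱.Obj}

section FA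

variable {A : Mot W} {w : ℕ} {ε : W.K} {θ θ' : W.H A.X →ₗ[W.K] W.H A.X} {Q : Mot W → Prop}

/-- The product of two forms. -/
def mulF (A : Mot W) {m n : ℕ} (F : (Fin m → TT A) → W.K) (F' : (Fin n → TT A) → W.K)
    (v : Fin (n + m) → TT A) : W.K :=
  F (fun i => v ⟨i, by omega⟩) * F' (fun j => v ⟨m + j, by omega⟩)

lemma FA_mul_gen (h : SelfDual A w ε θ θ') (hQt : ∀ B B', Q B → Q B' → Q (B.tensor B'))
    {m n : ℕ} {F : (Fin m → TT A) → W.K} {F' : (Fin n → TT A) → W.K} (hF : IsGen A θ Q m F)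
    (hF' : IsGen A θ Q n F') : mulF A F F' ∈ FA A θ Q (n + m) := by
  obtain ⟨B, q, g, j, x, hB, hq, hg, hx, hn, rfl⟩ := hF
  obtain ⟨B', q', g', j', x', hB', hq', hg', hx', hn', rfl⟩ := hF'
  obtain ⟨Φ, hΦ, hc⟩ := exists_prod_pX (W := W) A.X B.X B'.X n m
  obtain ⟨c, hc0, h1⟩ := hc w q
  set y : W.H ((pX A.X B.X m).prod (pX A.X B'.X n)) :=
    W.map (fst _ _) x * W.map (snd _ _) x' with hy
  have h2 : mulF A (fun v => msl W m (fun s => psi A θ (v s)) g x)
      (fun v => msl W n (fun s => psi A θ (v s)) g' x') =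
      c⁻¹ • fun v => msl W (n + m) (fun s => psi A θ (v s)) (tens W g g') (Φ y) := by
    funext v
    have h3 := congrArg (fun G => G y)
      (h1 (fun s => psi A θ (v s)) g g' (fun i => h.par_psi _) hq)
    beta_reduce at h3
    rw [LinearMap.comp_apply, LinearMap.smul_apply, hy, tens_tmul] at h3
    rw [Pi.smul_apply, hy, h3, smul_smul, inv_mul_cancel₀ hc0, one_smul]
    rfl
  rw [h2]
  have hge : tens W g g' ∘ₗ (B.tensor B').e = tens W g g' := by
    change tens W g g' ∘ₗ extHom W B.e B'.e = _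
    rw [tens_extHom, hg, hg']
  exact Submodule.smul_mem _ _ (FA_gen ⟨B.tensor B', q + q', tens W g g', _, Φ y,
    hQt B B' hB hB', hq.tens hq', hge, KOp.map_span hΦ (span_mul (span_map _ hx)
      (span_map _ hx')), NumTriv.op hΦ (NumTriv.prod hx hn hx'), rfl⟩)

lemma FA_mul (h : SelfDual A w ε θ θ') (hQt : ∀ B B', Q B → Q B' → Q (B.tensor B'))
    {m n : ℕ} {F : (Fin m → TT A) → W.K} {F' : (Fin n → TT A) → W.K} (hF : F ∈ FA A θ Q m)
    (hF' : F' ∈ FA A θ Q n) : mulF A F F' ∈ FA A θ Q (n + m) := by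
  induction hF using Submodule.span_induction with
  | mem F hF =>
    induction hF' using Submodule.span_induction with
    | mem F' hF' => exact FA_mul_gen h hQt hF hF'
    | zero =>
      have h1 : mulF A F (0 : (Fin n → TT A) → W.K) = 0 := by
        funext v
        exact mul_zero _
      rw [h1]
      exact Submodule.zero_mem _
    | add G G' _ _ hG hG' =>
      have h1 : mulF A F (G + G') = mulF A F G + mulF A F G' := by
        funext v
        exact mul_add _ _ _
      rw [h1]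
      exact Submodule.add_mem _ hG hG'
    | smul c G _ hG =>
      have h1 : mulF A F (c • G) = c • mulF A F G := by
        funext v
        rw [Pi.smul_apply, mulF, mulF, Pi.smul_apply, smul_eq_mul, smul_eq_mul, mul_left_comm]
      rw [h1]
      exact Submodule.smul_mem _ _ hG
  | zero =>
    have h1 : mulF A (0 : (Fin m → TT A) → W.K) F' = 0 := by
      funext v
      exact zero_mul _
    rw [h1]
    exact Submodule.zero_mem _
  | add G G' _ _ hG hG' =>
    have h1 : mulF A (G + G') F' = mulF A G F' + mulF A G' F' := by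
      funext v
      exact add_mul _ _ _
    rw [h1]
    exact Submodule.add_mem _ hG hG'
  | smul c G _ hG =>
    have h1 : mulF A (c • G) F' = c • mulF A G F' := by
      funext v
      rw [Pi.smul_apply, mulF, mulF, Pi.smul_apply, smul_eq_mul, smul_eq_mul, mul_assoc]
    rw [h1]
    exact Submodule.smul_mem _ _ hG

lemma FA_mul' (h : SelfDual A w ε θ θ') (hQt : ∀ B B', Q B → Q B' → Q (B.tensor B'))
    {m n : ℕ} {F : (Fin m → TT A) → W.K} {F' : (Fin n → TT A) → W.K} (hF : F ∈ FA A θ Q m)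
    (hF' : F' ∈ FA A θ Q n) : ∀ l, ∀ hl : l = n + m,
      (fun v : Fin l → TT A => F (fun i => v ⟨i, by omega⟩) * F' (fun j => v ⟨m + j, by omega⟩)) ∈
        FA A θ Q l := by
  rintro l rfl
  exact FA_mul h hQt hF hF'

/-- **The family of forms given by numerically trivial classes.** -/
def fId (h : SelfDual A w ε θ θ') (hQt : ∀ B B', Q B → Q B' → Q (B.tensor B'))
    (hQ : ∀ B, Q B → B.Num) {n : ℕ} {b c : Fin n → TT A}
    (hbc : DualPair (psiT A θ) b c ε) : FIdeal (psiT A θ) b c where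
  F := FA A θ Q
  multi := FA_multi
  zero := FA_zero hQ
  perm := fun π hF => FA_perm h π hF
  contr := fun hF => FA_contr h hbc hF
  ins := fun hF => FA_ins h hF
  mul := fun hF hF' => FA_mul' h hQt hF hF' _ (Nat.add_comm _ _)

/-- The restriction of an operator. -/
noncomputable def rest (A : Mot W) (φ : W.H A.X →ₗ[W.K] W.H A.X) : TT A →ₗ[W.K] TT A :=
  (A.e.rangeRestrict ∘ₗ φ) ∘ₗ (TT A).subtype

lemma rest_apply (φ : W.H A.X →ₗ[W.K] W.H A.X) (x : TT A) :
    ((rest A φ x : TT A) : W.H A.X) = A.e (φ x) := rfl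

lemma FA_subst (h : SelfDual A w ε θ θ') {δ : ℤ} {φ : W.H A.X →ₗ[W.K] W.H A.X}
    (hφ : φ ∈ KOp W A.X A.X δ) {m : ℕ} (s : Fin m) {F : (Fin m → TT A) → W.K}
    (hF : F ∈ FA A θ Q m) : (fun v => F (update v s (rest A φ (v s)))) ∈ FA A θ Q m := by
  refine FA_map (preL A (fun v => update v s (rest A φ (v s)))) ?_ hF
  rintro F ⟨B, q, g, j, x, hB, hq, hg, hx, hn, rfl⟩
  obtain ⟨δ', Φ, hΦ, hadj⟩ := h.exists_adj hφ
  obtain ⟨Ψ, hΨ, h1⟩ := exists_slot (W := W) (X := A.X) (Y := B.X) hΦ m s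
  refine FA_gen ⟨B, q, g, _, Ψ x, hB, hq, hg, KOp.map_span hΨ hx, NumTriv.op hΨ hn, ?_⟩
  funext v
  have h2 := congrArg (fun G => G x) (h1 (fun r => psi A θ (v r)) g)
  beta_reduce at h2
  rw [LinearMap.comp_apply] at h2
  rw [h2]
  have h3 : (fun r => psi A θ ((update v s (rest A φ (v s)) r : TT A) : W.H A.X)) =
      update (fun r => psi A θ (v r)) s (psi A θ (v s) ∘ₗ Φ) := by
    funext r
    by_cases hr : r = s
    · subst hr
      rw [update_self, update_self]
      apply LinearMap.ext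
      intro y
      rw [rest_apply, h.psi_e_left, LinearMap.comp_apply, ← hadj, TT_e]
    · rw [update_of_ne hr, update_of_ne hr]
  change msl W m (fun r => psi A θ ((update v s (rest A φ (v s)) r : TT A) : W.H A.X)) g x = _
  rw [h3]

/-- The symmetry commutes with the projector. -/
def Comm (S : Symmetry W) (A : Mot W) : Prop := ∀ a, S.σ A.X (A.e a) = A.e (S.σ A.X a)

/-- The restriction of a symmetry. -/
noncomputable def restS (A : Mot W) (S : Symmetry W) : TT A →ₗ[W.K] TT A := rest A (S.L A.X)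

lemma restS_apply {S : Symmetry W} (hS : Comm S A) (x : TT A) :
    ((restS A S x : TT A) : W.H A.X) = S.σ A.X x := by
  rw [restS, rest_apply, S.L_apply, ← hS, TT_e]

/-- The symmetry multiplies the operator `θ` by a non-zero constant. -/
def SimTheta (S : Symmetry W) {X : 𝒱.Obj} (θ : W.H X →ₗ[W.K] W.H X) : Prop :=
  ∃ r : W.K, r ≠ 0 ∧ ∀ a, θ (S.σ X a) = r • S.σ X (θ a)

lemma psi_sym {S : Symmetry W} (hS : SimTheta S θ) : ∃ c : W.K, c ≠ 0 ∧
    ∀ a b, psi A θ (S.σ A.X a) (S.σ A.X b) = c * psi A θ a b := by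
  obtain ⟨r, hr, h1⟩ := hS
  refine ⟨r * S.c A.X, mul_ne_zero hr (S.c_ne_zero _), fun a b => ?_⟩
  rw [psi_apply, h1, mul_smul_comm, map_smul, ← map_mul, S.tr, psi_apply, smul_eq_mul,
    ← mul_assoc]

lemma FA_sym (h : SelfDual A w ε θ θ') {S : Symmetry W} (hA : Comm S A) (hθ : SimTheta S θ)
    (hQS : ∀ B, Q B → Comm S B) {m : ℕ} {F : (Fin m → TT A) → W.K}
    (hF : F ∈ FA A θ Q m) : (fun v => F (restS A S ∘ v)) ∈ FA A θ Q m := by
  refine FA_map (preL A (fun v => restS A S ∘ v)) ?_ hF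
  rintro F ⟨B, q, g, j, x, hB, hq, hg, hx, hn, rfl⟩
  obtain ⟨c, hc, h1⟩ := psi_sym (A := A) hθ
  have h2 : preL A (fun v => restS A S ∘ v) (fun v => msl W m (fun s => psi A θ (v s)) g x) =
      c ^ m • fun v => msl W m (fun s => psi A θ (v s)) (g ∘ₗ S.L B.X)
        (S.inv.L (pX A.X B.X m) x) := by
    funext v
    have h3 : (fun s => psi A θ (((restS A S ∘ v) s : TT A) : W.H A.X)) =
        fun s => c • (psi A θ (v s) ∘ₗ S.inv.L A.X) := by
      funext s
      apply LinearMap.ext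
      intro y
      rw [Function.comp_apply, restS_apply hA, LinearMap.smul_apply, LinearMap.comp_apply,
        smul_eq_mul, ← h1]
      congr 1
      exact (S.L_inv y).symm
    have h4 : g = (g ∘ₗ S.L B.X) ∘ₗ S.inv.L B.X := by
      apply LinearMap.ext
      intro y
      rw [LinearMap.comp_apply, LinearMap.comp_apply, S.L_inv]
    change msl W m (fun s => psi A θ (((restS A S ∘ v) s : TT A) : W.H A.X)) g x = _
    rw [h3, msl_smul_all, LinearMap.smul_apply, Pi.smul_apply]
    congr 1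
    conv_lhs => rw [h4]
    rw [← S.inv.msl_L]
    rfl
  rw [h2]
  refine Submodule.smul_mem _ _ (FA_gen ⟨B, q, g ∘ₗ S.L B.X, j, _, hB, S.par hq, ?_,
    S.inv.span hx, S.inv.num hn, rfl⟩)
  apply LinearMap.ext
  intro y
  have h3 := hQS B hB y
  rw [LinearMap.comp_apply, LinearMap.comp_apply, LinearMap.comp_apply, S.L_apply, h3]
  exact congrArg (fun F => F (S.σ B.X y)) hg

/-- **The anisotropy principle.** -/
theorem pM_num (h : SelfDual A w ε θ θ') (hQt : ∀ B B', Q B → Q B' → Q (B.tensor B'))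
    (hQ : ∀ B, Q B → B.Num) (𝒢 : Set (Symmetry W)) (hAS : ∀ S ∈ 𝒢, Comm S A)
    (hθS : ∀ S ∈ 𝒢, SimTheta S θ) (hQS : ∀ S ∈ 𝒢, ∀ B, Q B → Comm S B)
    (haniso : ∀ U : Submodule W.K (W.H A.X), U ≤ LinearMap.range A.e → U ≠ ⊥ →
      (∀ (δ : ℤ) (φ : W.H A.X →ₗ[W.K] W.H A.X), φ ∈ KOp W A.X A.X δ → ∀ x ∈ U, A.e (φ x) ∈ U) →
      (∀ S ∈ 𝒢, ∀ x ∈ U, S.σ A.X x ∈ U) → ∃ x ∈ U, ∃ y ∈ U, W.tr A.X (x * θ y) ≠ 0)
    {B : Mot W} (hB : Q B) (m : ℕ) : (pM A B m).Num := by
  classical
  -- all forms are zero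
  have hzero : ∀ (m : ℕ) (F : (Fin m → TT A) → W.K), F ∈ FA A θ Q m → F = 0 := by
    by_contra hcon
    push Not at hcon
    obtain ⟨m, F, hF, hne⟩ := hcon
    obtain ⟨n, b, c, hbc⟩ := h.exists_dualPair
    obtain ⟨U, hU0, hiso, hU1, hU2⟩ := (fId h hQt hQ hbc).exists_sub hbc hF hne
    obtain ⟨x, hx, y, hy, hxy⟩ := haniso (U.map (TT A).subtype) (by
        rintro _ ⟨x, -, rfl⟩
        exact x.2) (by
        intro h0
        apply hU0
        rw [eq_bot_iff]
        intro x hx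
        have h5 : (x : W.H A.X) ∈ U.map (TT A).subtype := ⟨x, hx, rfl⟩
        rw [h0, Submodule.mem_bot] at h5
        exact Subtype.ext h5) (by
        rintro δ φ hφ _ ⟨x, hx, rfl⟩
        obtain ⟨δ', Φ, hΦ, hadj⟩ := h.exists_adj hφ
        refine ⟨rest A φ x, hU1 (rest A φ) (rest A Φ) ?_ ?_ ?_ x hx, rfl⟩
        · intro x y
          rw [psiT_apply, psiT_apply, rest_apply, rest_apply, h.psi_e_left, h.psi_e, ← hadj,
            TT_e]
        · intro m f hf s
          exact FA_subst h hφ s hf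
        · intro m f hf s
          exact FA_subst h hΦ s hf) (by
        rintro S hS _ ⟨x, hx, rfl⟩
        obtain ⟨c, hc, h1⟩ := psi_sym (A := A) (hθS S hS)
        refine ⟨restS A S x, hU2 (restS A S) c hc ?_ ?_ x hx, restS_apply (hAS S hS) x⟩
        · intro x y
          rw [psiT_apply, psiT_apply, restS_apply (hAS S hS), restS_apply (hAS S hS), h1]
        · intro m f hf
          exact FA_sym h (hAS S hS) (hθS S hS) (hQS S hS) hf)
    obtain ⟨x, hx, rfl⟩ := hx
    obtain ⟨y, hy, rfl⟩ := hy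
    exact hxy (hiso x hx y hy)
  intro j (x : W.H (pX A.X B.X m)) hx hn
  change pE A B m x = 0
  apply msl_sep
  intro f g
  have h1 := congrArg (fun F => F x) (msl_pE A B m f g)
  beta_reduce at h1
  rw [LinearMap.comp_apply] at h1
  rw [h1]
  choose t ht using fun s => h.exists_psi (f s)
  have h2 : (fun i => f i ∘ₗ A.e) = fun i => psi A θ (t i) := funext ht
  rw [h2]
  have hsum := sum_proj (W.isInternal B.X) (N := 2 * B.X.dim + 1)
    (fun i hi => W.gr_eq_bot B.X i (by omega))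
  have h3 : g ∘ₗ B.e = ∑ i ∈ Finset.range (2 * B.X.dim + 1),
      g ∘ₗ proj (W.isInternal B.X) i ∘ₗ B.e := by
    apply LinearMap.ext
    intro y
    rw [LinearMap.comp_apply, LinearMap.sum_apply]
    have h4 := congrArg (fun F => F (B.e y)) hsum
    simp only [LinearMap.sum_apply, Module.End.one_apply] at h4
    conv_lhs => rw [← h4]
    rw [map_sum]
    rfl
  rw [h3, msl_sum_g, LinearMap.sum_apply]
  apply Finset.sum_eq_zero
  intro i _
  have h4 := hzero m _ (FA_gen (A := A) (θ := θ) (Q := Q) ⟨B, i,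
    g ∘ₗ proj (W.isInternal B.X) i ∘ₗ B.e, j, x, hB, par_proj g i B.mem, by
      rw [LinearMap.comp_assoc, LinearMap.comp_assoc, B.idem], hx, hn, rfl⟩)
  exact congrFun h4 t

end FA

end Pool.Agent.R908
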