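import Pool.Agent.R908.KnG

/-!
# Products of direct factors without isotropic subspaces
-/

open CategoryTheory AlgebraicGeometry TensorProduct Function

universe u v w w'

namespace Pool.Agent.R908

open Pool.Agent.H914 Pool.Agent.H914.VarClass Pool.Agent.H914.VarClass.Obj
  Pool.Agent.H914.WeilCohomology Km

variable {k : Type u} [Field k] {𝒱 : VarClass k} {ops : CycleOps 𝒱}
  {W : WeilCohomology.{u, v} ops} {X Y Z X' Y' Z' : 𝒱.Obj} {𝒢 : Set (Symmetry W)}

lemma Comm.extHom {S : Symmetry W} {φ : W.H X →ₗ[W.K] W.H X} {ψ : W.H Y →ₗ[W.K] W.H Y}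
    (hφ : ∀ a, S.σ X (φ a) = φ (S.σ X a)) (hψ : ∀ a, S.σ Y (ψ a) = ψ (S.σ Y a))
    (x : W.H (X.prod Y)) :
    S.σ (X.prod Y) (R908.extHom W φ ψ x) = R908.extHom W φ ψ (S.σ (X.prod Y) x) := by
  have h1 : S.L (X.prod Y) ∘ₗ R908.extHom W φ ψ = R908.extHom W φ ψ ∘ₗ S.L (X.prod Y) := by
    apply ext_kunneth_lin
    intro a b
    rw [LinearMap.comp_apply, LinearMap.comp_apply, extHom_tmul, S.L_apply, S.L_apply,
      map_mul (S.σ (X.prod Y)), S.fst, S.snd, hφ, hψ, map_mul (S.σ (X.prod Y)), S.fst, S.snd,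
      extHom_tmul]
  exact congrArg (fun F => F x) h1

lemma Comm.tensor {S : Symmetry W} {A B : Mot W} (hA : Comm S A) (hB : Comm S B) :
    Comm S (A.tensor B) := fun x => Comm.extHom hA hB x

lemma Comm.pM {S : Symmetry W} {A B : Mot W} (hA : Comm S A) (hB : Comm S B) (m : ℕ) :
    Comm S (R908.pM A B m) := by
  induction m with
  | zero => exact hB
  | succ m ih => exact hA.tensor ih

/-- The class is trivial or the class of a direct factor commuting with all symmetries. -/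
def KM (𝒢 : Set (Symmetry W)) (y : Mon W) : Prop :=
  y = 1 ∨ ∃ B : Mot W, (∀ S ∈ 𝒢, Comm S B) ∧ y = B.m

lemma KM.mul {y z : Mon W} (hy : KM 𝒢 y) (hz : KM 𝒢 z) : KM 𝒢 (y * z) := by
  rcases hy with rfl | ⟨B, hB, rfl⟩
  · rwa [one_mul]
  rcases hz with rfl | ⟨C, hC, rfl⟩
  · rw [mul_one]; exact Or.inr ⟨B, hB, rfl⟩
  · exact Or.inr ⟨B.tensor C, fun S hS => (hB S hS).tensor (hC S hS), rfl⟩

lemma KM.pow {y : Mon W} (hy : KM 𝒢 y) (n : ℕ) : KM 𝒢 (y ^ n) := by
  induction n with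
  | zero => rw [pow_zero]; exact Or.inl rfl
  | succ n ih => rw [pow_succ]; exact ih.mul hy

/-- Direct factors without isotropic subspaces stable under the correspondences and the
symmetries. -/
def Letter (𝒢 : Set (Symmetry W)) (A : Mot W) : Prop :=
  ∃ (w : ℕ) (ε : W.K) (θ θ' : W.H A.X →ₗ[W.K] W.H A.X), SelfDual A w ε θ θ' ∧
    (∀ S ∈ 𝒢, Comm S A) ∧ (∀ S ∈ 𝒢, SimTheta S θ) ∧
    (∀ U : Submodule W.K (W.H A.X), U ≤ LinearMap.range A.e → U ≠ ⊥ →
      (∀ (δ : ℤ) (φ : W.H A.X →ₗ[W.K] W.H A.X), φ ∈ KOp W A.X A.X δ → ∀ x ∈ U, A.e (φ x) ∈ U) →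
      (∀ S ∈ 𝒢, ∀ x ∈ U, S.σ A.X x ∈ U) → ∃ x ∈ U, ∃ y ∈ U, W.tr A.X (x * θ y) ≠ 0)

/-- The products of powers of the letters in the list and of a class in `Base`. -/
def NN (Base : Mon W → Prop) : List (Mot W) → Mon W → Prop
  | [], y => Base y
  | A :: D, y => ∃ n q, NN Base D q ∧ y = A.m ^ n * q

/-- Num descends along a factor with a non-zero algebraic class. -/
lemma Mot.Num.of_unit {D C : Mot W} {j : ℤ} {c : W.H C.X} (hc : c ∈ spanCycles W C.X j)
    (hc0 : C.e c ≠ 0) (h : (D.tensor C).Num) : D.Num := by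
  intro i x hx hn
  by_contra hne
  have h1 := h (i + j) (W.map (fst D.X C.X) x * W.map (snd D.X C.X) c)
    (span_mul (span_map _ hx) (span_map _ hc)) (NumTriv.prod hx hn hc)
  have h2 : extHom W D.e C.e (W.map (fst D.X C.X) x * W.map (snd D.X C.X) c) = 0 := h1
  rw [extHom_tmul] at h2
  obtain ⟨f, hf⟩ := Module.Projective.exists_dual_eq_one W.K hne
  have h3 := congrArg (sl W f) h2
  rw [sl_tmul, hf, one_smul, map_zero] at h3
  exact hc0 h3

section Words

variable {Base : Mon W → Prop} (hb1 : Base 1) (hbm : ∀ y z, Base y → Base z → Base (y * z))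
  (hbk : ∀ y, Base y → KM 𝒢 y) (hbn : ∀ y, Base y → MNum y)

include hb1 in
lemma NN_base (y : Mon W) (hy : Base y) (D : List (Mot W)) : NN Base D y := by
  induction D with
  | nil => exact hy
  | cons A D ih => exact ⟨0, y, ih, by rw [pow_zero, one_mul]⟩

include hbm in
lemma NN_mul (D : List (Mot W)) : ∀ y z, NN Base D y → NN Base D z → NN Base D (y * z) := by
  induction D with
  | nil => exact hbm
  | cons A D ih =>
    rintro y z ⟨n, q, hq, rfl⟩ ⟨n', q', hq', rfl⟩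
    exact ⟨n + n', q * q', ih _ _ hq hq', by rw [pow_add, mul_mul_mul_comm]⟩

include hbm hb1 in
lemma NN_append (D D' : List (Mot W)) : ∀ y z, NN Base D y → NN Base D' z →
    NN Base (D ++ D') (y * z) := by
  induction D with
  | nil =>
    intro y z hy hz
    exact NN_mul hbm D' y z (NN_base hb1 y hy D') hz
  | cons A D ih =>
    rintro y z ⟨n, q, hq, rfl⟩ hz
    exact ⟨n, q * z, ih _ _ hq hz, by rw [mul_assoc]⟩

include hbk in
lemma NN_KM (D : List (Mot W)) (hD : ∀ A ∈ D, Letter 𝒢 A) : ∀ y, NN Base D y → KM 𝒢 y := by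
  induction D with
  | nil => exact hbk
  | cons A D ih =>
    rintro y ⟨n, q, hq, rfl⟩
    obtain ⟨w, ε, θ, θ', -, hc, -⟩ := hD A List.mem_cons_self
    refine KM.mul (KM.pow (Or.inr ⟨A, hc, rfl⟩) n) (ih (fun B hB => hD B
      (List.mem_cons_of_mem _ hB)) q hq)

include hb1 hbm hbk hbn in
/-- All products of letters and of base classes have the property `Num`. -/
theorem NN_num (hunit : ∃ C : Mot W, Base C.m ∧ ∃ j, ∃ c ∈ spanCycles W C.X j, C.e c ≠ 0)
    (D : List (Mot W)) (hD : ∀ A ∈ D, Letter 𝒢 A) : ∀ y, NN Base D y → MNum y := by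
  induction D with
  | nil => exact hbn
  | cons A D ih =>
    have hD' : ∀ B ∈ D, Letter 𝒢 B := fun B hB => hD B (List.mem_cons_of_mem _ hB)
    have ih' := ih hD'
    obtain ⟨w, ε, θ, θ', hself, hcomm, hsim, haniso⟩ := hD A List.mem_cons_self
    have main : ∀ (n : ℕ) (q : Mon W), q ≠ 1 → NN Base D q → MNum (A.m ^ n * q) := by
      intro n q hq1 hq
      rcases NN_KM hbk D hD' q hq with h1 | ⟨B, hB, rfl⟩
      · exact absurd h1 hq1
      have h2 := pM_num (Q := fun B => (∀ S ∈ 𝒢, Comm S B) ∧ NN Base D B.m) hself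
        (by
          rintro B B' ⟨h3, h4⟩ ⟨h3', h4'⟩
          exact ⟨fun S hS => (h3 S hS).tensor (h3' S hS), NN_mul hbm D _ _ h4 h4'⟩)
        (by
          rintro B ⟨-, h4⟩
          exact mnum_m.1 (ih' _ h4)) 𝒢 hcomm hsim (by
          rintro S hS B ⟨h3, -⟩
          exact h3 S hS) haniso (B := B) ⟨hB, hq⟩ n
      rw [← pM_m, mnum_m]
      exact h2
    rintro y ⟨n, q, hq, rfl⟩
    by_cases hq1 : q = 1
    · subst hq1
      rw [mul_one]
      rcases mon_cases (A.m ^ n) with h1 | ⟨E, hE⟩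
      · rw [h1]
        exact mnum_one
      · obtain ⟨C, hC, j, c, hc, hc0⟩ := hunit
        have h2 := main n C.m (fun h => absurd h.symm WithOne.coe_ne_one.symm)
          (NN_base hb1 _ hC D)
        rw [hE, ← Mot.m_tensor, mnum_m] at h2
        rw [hE, mnum_m]
        exact Mot.Num.of_unit hc hc0 h2
    · exact main n q hq1 hq

end Words

/-- The classes of products of direct factors cut out by algebraic classes and of a product of
members of `𝒴`. -/
def BaseCls (𝒢 : Set (Symmetry W)) (𝒴 : Set 𝒱.Obj) (y : Mon W) : Prop :=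
  ∃ L : List (Mot W), (∀ B ∈ L, B.Alg ∧ ∀ S ∈ 𝒢, Comm S B) ∧ ∃ z, YCls W 𝒴 z ∧
    y = (L.map Mot.m).prod * z

variable {𝒴 : Set 𝒱.Obj}

lemma BaseCls.one : BaseCls 𝒢 𝒴 1 :=
  ⟨[], fun B hB => absurd hB List.not_mem_nil, 1, Or.inl rfl, by
    rw [List.map_nil, List.prod_nil, one_mul]⟩

lemma BaseCls.mul (y z : Mon W) (hy : BaseCls 𝒢 𝒴 y) (hz : BaseCls 𝒢 𝒴 z) :
    BaseCls 𝒢 𝒴 (y * z) := by
  obtain ⟨L, hL, y, hy, rfl⟩ := hy
  obtain ⟨L', hL', y', hy', rfl⟩ := hz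
  refine ⟨L ++ L', ?_, y * y', hy.mul hy', ?_⟩
  · intro A hA
    rcases List.mem_append.1 hA with h | h
    · exact hL A h
    · exact hL' A h
  · rw [List.map_append, List.prod_append, mul_mul_mul_comm]

lemma BaseCls.km (y : Mon W) (hy : BaseCls 𝒢 𝒴 y) : KM 𝒢 y := by
  obtain ⟨L, hL, y, hy, rfl⟩ := hy
  refine KM.mul ?_ ?_
  · induction L with
    | nil => rw [List.map_nil, List.prod_nil]; exact Or.inl rfl
    | cons A L ih =>
      rw [List.map_cons, List.prod_cons]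
      exact KM.mul (Or.inr ⟨A, (hL A List.mem_cons_self).2, rfl⟩)
        (ih (fun B hB => hL B (List.mem_cons_of_mem _ hB)))
  · rcases hy with rfl | ⟨Y, hY, rfl⟩
    · exact Or.inl rfl
    · exact Or.inr ⟨whole W Y, fun S _ a => rfl, rfl⟩

lemma BaseCls.mnum (h𝒴 : ∀ Y, IsProductOf 𝒴 Y → HomEqNum W Y) (y : Mon W)
    (hy : BaseCls 𝒢 𝒴 y) : MNum y := by
  obtain ⟨L, hL, y, hy, rfl⟩ := hy
  induction L with
  | nil =>
    rw [List.map_nil, List.prod_nil, one_mul]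
    exact hy.mnum h𝒴
  | cons A L ih =>
    rw [List.map_cons, List.prod_cons, mul_assoc]
    exact mnum_alg (hL A List.mem_cons_self).1
      (ih (fun B hB => hL B (List.mem_cons_of_mem _ hB)))

/-- The class of all words. -/
def WordCls (𝒢 : Set (Symmetry W)) (𝒴 : Set 𝒱.Obj) (B : Mot W) : Prop :=
  ∃ D : List (Mot W), (∀ A ∈ D, Letter 𝒢 A) ∧ NN (BaseCls 𝒢 𝒴) D B.m

lemma WordCls.tensor (A B : Mot W) (hA : WordCls 𝒢 𝒴 A) (hB : WordCls 𝒢 𝒴 B) :
    WordCls 𝒢 𝒴 (A.tensor B) := by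
  obtain ⟨D, hD, hA⟩ := hA
  obtain ⟨D', hD', hB⟩ := hB
  refine ⟨D ++ D', ?_, ?_⟩
  · intro A hA
    rcases List.mem_append.1 hA with h | h
    · exact hD A h
    · exact hD' A h
  · rw [Mot.m_tensor]
    exact NN_append BaseCls.one BaseCls.mul D D' _ _ hA hB

lemma WordCls.letter {A : Mot W} (hA : Letter 𝒢 A) : WordCls 𝒢 𝒴 A :=
  ⟨[A], by
    intro B hB
    rw [List.mem_singleton] at hB
    rw [hB]
    exact hA, 1, 1, BaseCls.one, by rw [pow_one, mul_one]⟩

lemma WordCls.alg {A : Mot W} (hA : A.Alg) (hc : ∀ S ∈ 𝒢, Comm S A) : WordCls 𝒢 𝒴 A :=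
  ⟨[], fun B hB => absurd hB List.not_mem_nil, [A], by
    intro B hB
    rw [List.mem_singleton] at hB
    rw [hB]
    exact ⟨hA, hc⟩, 1, Or.inl rfl, by
      rw [List.map_singleton, List.prod_singleton, mul_one]⟩

lemma WordCls.whole {Y : 𝒱.Obj} (hY : IsProductOf 𝒴 Y) : WordCls 𝒢 𝒴 (whole W Y) :=
  ⟨[], fun B hB => absurd hB List.not_mem_nil, [], fun B hB => absurd hB List.not_mem_nil,
    (R908.whole W Y).m, Or.inr ⟨Y, hY, rfl⟩, by
      rw [List.map_nil, List.prod_nil, one_mul]⟩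

/-- **The conjecture D for products of varieties whose cohomology is built from letters.** -/
theorem homEqNum_words {P : Set 𝒱.Obj} (h𝒴 : ∀ Y, IsProductOf 𝒴 Y → HomEqNum W Y)
    (hP : ∀ X ∈ P, (LinearMap.id : W.H X →ₗ[W.K] W.H X) ∈ RetOp W (WordCls 𝒢 𝒴) X X)
    (hunit : ∃ C : Mot W, BaseCls 𝒢 𝒴 C.m ∧ ∃ j, ∃ c ∈ spanCycles W C.X j, C.e c ≠ 0)
    {Z : 𝒱.Obj} (hZ : IsProductOf (P ∪ 𝒴) Z) : HomEqNum W Z := by
  refine RetOp.homEqNum (P := WordCls 𝒢 𝒴) ?_ ?_
  · rintro B ⟨D, hD, hB⟩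
    exact mnum_m.1 (NN_num BaseCls.one BaseCls.mul BaseCls.km (BaseCls.mnum h𝒴) hunit D hD _ hB)
  · induction hZ with
    | base hX =>
      rename_i X
      rcases hX with hX | hX
      · exact hP X hX
      · exact RetOp.self (B := R908.whole W X) (WordCls.whole (IsProductOf.base hX))
    | prod _ _ h1 h2 =>
      rw [← extHom_id]
      exact RetOp.ext WordCls.tensor h1 h2

end Pool.Agent.R908
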