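import Pool.Agent.H281R3.HT.FDef

/-!
# Transcendental cohomology which pairs with itself: definition
-/

open CategoryTheory AlgebraicGeometry

universe u v

namespace Pool.Agent.R908

open Pool.Agent.H914 Pool.Agent.H914.VarClass Pool.Agent.H914.VarClass.Obj
  Pool.Agent.H914.WeilCohomology Pool.Agent.H281R3.HT

/-- Every non-zero subspace of the transcendental cohomology of `X` (over the coefficient field of
`W`) which is stable under the algebraic correspondences of degree `0` pairs non-trivially with
itself, by an algebraic correspondence `θ` of some degree: `tr (x * θ y) ≠ 0` for some `x`, `y`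
in it. -/
def SelfPairing {k : Type u} [Field k] {𝒱 : VarClass k} {ops : CycleOps 𝒱}
    (W : WeilCohomology.{u, v} ops) (X : 𝒱.Obj) : Prop :=
  PairsOn (transcendental W X) (correspondences W X X.dim) (⋃ p, correspondences W X p) id
    (fun a b => W.tr X (a * b))

end Pool.Agent.R908
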