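import Pool.Agent.R908.SplitD
import Pool.Agent.R908.SelfDefs
import Pool.Agent.H281R3.HT.FMain

/-!
# The conjecture D for products with varieties whose transcendental cohomology pairs with itself
-/

open CategoryTheory AlgebraicGeometry TensorProduct

universe u v w w'

namespace Pool.Agent.R908

open Pool.Agent.H914 Pool.Agent.H914.VarClass Pool.Agent.H914.VarClass.Obj
  Pool.Agent.H914.WeilCohomology Pool.Agent.H281R3.HT

variable {k : Type u} [Field k] {𝒱 : VarClass k} {ops : CycleOps 𝒱}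

variable {W : WeilCohomology.{u, v} ops} {X Y Z : 𝒱.Obj}

lemma SelfPairing.toK (h : SelfPairing W X) : PairsConjK (trivS W) X := by
  intro V hV hne hs
  obtain ⟨θ, hθ, x, hx, y, hy, hxy⟩ := h V hV hne (by
    intro e he v hv
    obtain ⟨δ, θ, hθ, he, hδ⟩ := corr_mem_correspondences he
    rw [← he]
    exact hs θ (KOp.cast hθ (by omega)) v hv)
  obtain ⟨p, hp⟩ := Set.mem_iUnion.1 hθ
  obtain ⟨δ, θ', hθ', he, -⟩ := corr_mem_correspondences hp
  refine ⟨δ, θ', hθ', x, hx, y, hy, ?_⟩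
  rw [he]
  exact hxy

/-- The conjecture D for products. -/
theorem homEqNum_of_selfPairing {P 𝒴 : Set 𝒱.Obj} (hD : ∀ X ∈ P, HomEqNum W X)
    (hC : ∀ X ∈ P, CommutativeCommutant W X) (hP : ∀ X ∈ P, SelfPairing W X)
    (h𝒴 : ∀ Y, IsProductOf 𝒴 Y → HomEqNum W Y) {Z : 𝒱.Obj} (hZ : IsProductOf (P ∪ 𝒴) Z) :
    HomEqNum W Z := by
  apply homEqNum_base (L := AlgebraicClosure W.K)
  exact homEqNum_products (galAct W (AlgebraicClosure W.K))
    (fun X hX => splits_closure (hD X hX) (hC X hX).toK (hP X hX).toK)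
    (fun Y hY => homEqNum_up (h𝒴 Y hY)) hZ

lemma dominates_refl (Z : 𝒱.Obj) : Dominates W Z Z :=
  ⟨𝟙 Z, 0, Z.V.fundCycle, 1, Z.V.fundCycle_mem, one_ne_zero, by
    rw [W.cl_fund, W.push_id, one_smul]⟩

/-- **The conjectures D and B for all varieties dominated by products.** -/
theorem selfPairing_iff {P 𝒴 : Set 𝒱.Obj}
    (hC : ∀ X ∈ P, CommutativeCommutant W X) (hP : ∀ X ∈ P, SelfPairing W X) :
    ((∀ X ∈ P, HomEqNum W X) ∧ ∀ Y, IsProductOf 𝒴 Y → HomEqNum W Y) ↔
      ∀ Z, IsProductOf (P ∪ 𝒴) Z → ∀ V, Dominates W Z V → HomEqNum W V ∧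
        ∀ D, V.IsCyc 1 D → HardLefschetz W V D → LefschetzB W V D := by
  constructor
  · rintro ⟨h1, h2⟩ Z hZ V hV
    have key : ∀ Z, IsProductOf (P ∪ 𝒴) Z → ∀ V, Dominates W Z V → HomEqNum W V :=
      fun Z hZ V hV => (homEqNum_of_selfPairing h1 hC hP h2 hZ).image hV
    refine ⟨key Z hZ V hV, fun D hD hHL => ?_⟩
    have h3 := key (Z.prod Z) (IsProductOf.prod hZ hZ) (V.prod V) (dominates_prod hV hV)
    apply Pool.Agent.H447.lefschetzB_of_homEqNumIn hD hHL
    intro z hz hnum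
    by_cases hd : V.dim + 1 ≤ (V.prod V).dim
    · exact h3 (V.dim + 1) hd z hz hnum
    · have h4 := W.cl_mem hz
      rw [W.gr_eq_bot _ _ (by omega), Submodule.mem_bot] at h4
      exact h4
  · intro h
    refine ⟨fun X hX => (h X (IsProductOf.base (Or.inl hX)) X (dominates_refl X)).1,
      fun Y hY => ?_⟩
    have h1 : ∀ Y, IsProductOf 𝒴 Y → IsProductOf (P ∪ 𝒴) Y := by
      intro Y hY
      induction hY with
      | base hX => exact IsProductOf.base (Or.inr hX)
      | prod _ _ h1 h2 => exact IsProductOf.prod h1 h2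
    exact (h Y (h1 Y hY) Y (dominates_refl Y)).1

end Pool.Agent.R908
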