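import Pool.Agent.R908.AbDefs
import Pool.Agent.H914R2.StdDefs
import Pool.Agent.W534.TateDefs

/-!
# Abelian varieties over finite fields: definitions
-/

open CategoryTheory AlgebraicGeometry

universe u v

namespace Pool.Agent.R908

open Pool.Agent.H914 Pool.Agent.H914.VarClass Pool.Agent.H914.VarClass.Obj
  Pool.Agent.H914.WeilCohomology Pool.Agent.W534

variable {k : Type u} [Field k] {𝒱 : VarClass k} {ops : CycleOps 𝒱}

/-- The operators on the cohomology of `X` given by the algebraic correspondences of degree `0`. -/
def cycOps (W : WeilCohomology.{u, v} ops) (X : 𝒱.Obj) : Set (Module.End W.K (W.H X)) :=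
  {φ | ∃ z, (X.prod X).IsCyc X.dim z ∧ φ = W.corr (W.cl (X.prod X) z)}

variable {W : WeilCohomology.{u, v} ops} {p : ℕ}

/-- The action of the Frobenius endomorphism on the cohomology of `X`. -/
noncomputable def frobAll (Φ : FrobSystem W p) (X : 𝒱.Obj) : Module.End W.K (W.H X) :=
  (W.map (Φ.Fr X)).toLinearMap

/-- The variety `A` has the known properties of an abelian variety over an algebraic closure of a
finite field with the addition `m`, where the divisor `D` is ample and invariant under Frobenius:

* the cohomology is generated by `H^1(A)`, and `m^* x = pr_1^* x + pr_2^* x` for `x` in `H^1(A)`;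
* Frobenius multiplies the class of `D` by `q`;
* hard Lefschetz holds for `D`;
* Frobenius is semisimple on `H^1(A)` (Weil);
* the `K`-linear endomorphisms of `H^1(A)` which commute with Frobenius are given by algebraic
  correspondences of degree `0` with coefficients in `K` (Tate). -/
structure IsAbelianOverFinite (Φ : FrobSystem W p) (A : 𝒱.Obj) (m : A.prod A ⟶ A)
    (D : A.Cycles) : Prop where
  abelianLike : IsAbelianLike W A m
  divisor : A.IsCyc 1 D
  rational : IsScaled (frobAll Φ A) (p ^ Φ.e A) (W.cl A D)
  lefschetz : HardLefschetz W A D
  semisimple : SemisimpleOn (frobAll Φ A) (W.gr A 1)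
  tate : CommutantSpannedOn (frobAll Φ A) (W.gr A 1) (cycOps W A)

/-- The multiplicative relations between the eigenvalues of Frobenius on `H^1(A)` and on the
cohomology of the members of `𝒴` are balanced over the coefficient field `K`: if the product of
finitely many eigenvalues `a` on `H^1(A)` and of finitely many eigenvalues on the cohomology of
members of `𝒴` is a power of `p`, up to a root of unity and with all Frobenius endomorphisms taken
relative to the same finite field, then the conjugacy classes over `K` of the `q / a` are, up to
order, the conjugacy classes over `K` of the `a`. Here `q = p ^ e A`. -/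
def RelationsBalanced (Φ : FrobSystem W p) (A : 𝒱.Obj) (𝒴 : Set 𝒱.Obj) : Prop :=
  BalancedRel (L := AlgebraicClosure W.K) W.K p (Φ.e A)
    {a | IsEigenvalueOn (frobAll Φ A) (W.gr A 1) a}
    {y | ∃ Y ∈ 𝒴, y.2 = Φ.e Y ∧ IsEigenvalueOn (frobAll Φ Y) ⊤ y.1}

end Pool.Agent.R908
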