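import Pool.Agent.R908.RelMain
import Pool.Agent.R908.AbL
import Pool.Agent.R908.TAbDefs
import Pool.Agent.R908.MainA

/-!
# The conjecture D for the products of abelian varieties over finite fields with other varieties
-/

open CategoryTheory AlgebraicGeometry TensorProduct Polynomial

universe u v w w'

namespace Pool.Agent.R908

open Pool.Agent.H914 Pool.Agent.H914.VarClass Pool.Agent.H914.VarClass.Obj
  Pool.Agent.H914.WeilCohomology Pool.Agent.H281R3.HT Pool.Agent.W534

variable {k : Type u} [Field k] {𝒱 : VarClass k} {ops : CycleOps 𝒱}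
  {W : WeilCohomology.{u, v} ops} {p : ℕ} {Φ : FrobSystem W p}

section Piece

variable {A : 𝒱.Obj} {m : A.prod A ⟶ A} {D : A.Cycles} (hA : IsAbelianOverFinite Φ A m D)
  {π : ℕ → (W.H A →ₗ[W.K] W.H A)} (hπ : IsProjs W A π) (hK : ∀ i, π i ∈ KOp W A A 0)

/-- Multiplication by the power of the divisor. -/
noncomputable def lefP (W : WeilCohomology.{u, v} ops) (A : 𝒱.Obj) (D : A.Cycles) (n : ℕ) :
    Module.End W.K (W.H A) :=
  (LinearMap.mulLeft W.K (W.cl A D)) ^ n

lemma lefP_eq (n : ℕ) (x : W.H A) : lefP W A D n x = (W.cl A D) ^ n * x := by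
  induction n with
  | zero => rw [lefP, pow_zero, pow_zero, one_mul]; rfl
  | succ n ih =>
    have h1 : lefP W A D (n + 1) x = W.cl A D * lefP W A D n x := by
      rw [lefP, pow_succ', Module.End.mul_apply]
      rfl
    rw [h1, ih, pow_succ', mul_assoc]

lemma lefP_mem (hD : A.IsCyc 1 D) (n : ℕ) : lefP W A D n ∈ KOp W A A n := by
  induction n with
  | zero => exact KOp.id A
  | succ n ih =>
    have h1 : lefP W A D (n + 1) = LinearMap.mulLeft W.K (W.cl A D) ∘ₗ lefP W A D n := by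
      rw [lefP, pow_succ']
      rfl
    rw [h1]
    exact KOp.cast (KOp.comp (KOp.ofRop (rop_mulLeft hD)) ih) (by push_cast; ring)

lemma fr_tr (x : W.H A) : W.tr A (fr Φ A x) = ((p : W.K) ^ Φ.e A) ^ A.dim * W.tr A x := by
  have h1 := tr_iter Φ 1 x
  have h2 : W.map (W534.iter (Φ.Fr A) 1) x = fr Φ A x := by
    rw [W534.map_iter]
    rfl
  rw [h2, mul_one] at h1
  rw [h1, pow_mul]

lemma hfrN (Φ : FrobSystem W p) (A : 𝒱.Obj) (i : ℕ) : ∀ x ∈ W.gr A i, fr Φ A x ∈ W.gr A i :=
  fun _ hx => W.map_mem _ hx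

lemma cycOps_le (X : 𝒱.Obj) : Submodule.span W.K (cycOps W X) ≤ KOp W X X 0 := by
  refine Submodule.span_le.2 ?_
  rintro _ ⟨z, hz, rfl⟩
  exact KOp.gen (by rw [add_zero]) hz

include hA hπ hK in
/-- The first cohomology of an abelian variety over a finite field. -/
theorem isPiece_one : IsPiece Φ A (π 1) (minpoly W.K ((fr Φ A).restrict (hfrN Φ A 1)))
    ((p : W.K) ^ Φ.e A) ((A.dim - 1 : ℕ) : ℤ) (lefP W A D (A.dim - 1)) := by
  have hfr : ∀ i, ∀ x ∈ W.gr A i, fr Φ A x ∈ W.gr A i := fun i x hx => W.map_mem _ hx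
  have hπmem : ∀ x, π 1 x ∈ W.gr A 1 := by
    intro x
    refine gr_induction (W.isInternal A) (p := fun x => π 1 x ∈ W.gr A 1) ?_ ?_ x
    · intro i x hx
      by_cases hi : 1 = i
      · subst hi; rw [hπ.self hx]; exact hx
      · rw [hπ.ne hx hi]; exact Submodule.zero_mem _
    · intro x y hx hy
      rw [map_add]
      exact Submodule.add_mem _ hx hy
  have hfq : fr Φ A (W.cl A D) = ((p : W.K) ^ Φ.e A) • W.cl A D := by
    have h1 : fr Φ A (W.cl A D) = ((p ^ Φ.e A : ℕ) : W.K) • W.cl A D := hA.rational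
    rw [h1, Nat.cast_pow]
  have hmulfr : ∀ x y : W.H A, fr Φ A (x * y) = fr Φ A x * fr Φ A y :=
    fun x y => map_mul (W.map (Φ.Fr A)) x y
  have hlef : ∀ (n : ℕ) (x : W.H A), fr Φ A (lefP W A D n x) =
      (((p : W.K) ^ Φ.e A) ^ n) • lefP W A D n (fr Φ A x) := by
    intro n x
    induction n with
    | zero => rw [pow_zero, one_smul]; rfl
    | succ n ih =>
      have h1 : ∀ y, lefP W A D (n + 1) y = W.cl A D * lefP W A D n y := by
        intro y
        rw [lefP, pow_succ', Module.End.mul_apply]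
        rfl
      rw [h1, h1, hmulfr, hfq, ih, smul_mul_smul_comm, pow_succ']
  have hpne : ((p : W.K) ^ Φ.e A) ≠ 0 := pow_ne_zero _ (cast_p_ne Φ)
  refine
    { mem := hK 1
      idem := ?_
      comm := ?_
      sqf := ?_
      poly := ?_
      tate := ?_
      θ_mem := lefP_mem hA.divisor _
      c_ne := hpne
      θ_eq := ?_
      nondeg := ?_ }
  · apply LinearMap.ext
    intro x
    rw [LinearMap.comp_apply, hπ.self (hπmem x)]
  · apply gr_ext (W.isInternal A)
    intro i x hx
    rw [LinearMap.comp_apply, LinearMap.comp_apply]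
    by_cases hi : 1 = i
    · subst hi
      rw [hπ.self hx, hπ.self (hfr 1 x hx)]
    · rw [hπ.ne hx hi, hπ.ne (hfr i x hx) hi, map_zero]
  · obtain ⟨f, hf, h1⟩ := hA.semisimple
    exact hf.squarefree_of_dvd (minpoly_restrict_dvd (F := fr Φ A) (N := W.gr A 1) (hfr 1) h1)
  · apply LinearMap.ext
    intro x
    rw [LinearMap.comp_apply]
    exact aeval_restrict (F := fr Φ A) (N := W.gr A 1) (hfr 1) _ (hπmem x)
  · intro φ h1 h2 h3
    have hφmem : ∀ x, φ x ∈ W.gr A 1 := by
      intro x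
      rw [← h2]
      exact hπmem _
    obtain ⟨ψ, hψ', h4⟩ := hA.tate φ (fun x _ => hφmem x)
      (fun x _ => congrArg (fun F => F x) h3)
    have hψ := cycOps_le A hψ'
    have h5 : φ = ψ ∘ₗ π 1 := by
      apply LinearMap.ext
      intro x
      conv_lhs => rw [← h1]
      rw [LinearMap.comp_apply, LinearMap.comp_apply]
      exact (h4 (π 1 x) (hπmem x)).symm
    rw [h5]
    exact KOp.cast (KOp.comp hψ (hK 1)) (add_zero 0)
  · intro x y
    obtain ⟨a, ha, hxa⟩ : ∃ a ∈ W.gr A 1, a = π 1 x := ⟨_, hπmem x, rfl⟩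
    obtain ⟨b, hb, hyb⟩ : ∃ b ∈ W.gr A 1, b = π 1 y := ⟨_, hπmem y, rfl⟩
    rw [← hxa, ← hyb]
    by_cases hg : A.dim = 0
    · rw [W.gr_eq_bot A 1 (by omega), Submodule.mem_bot] at ha
      rw [ha, map_zero, zero_mul, zero_mul, map_zero, mul_zero]
    · have h1 := fr_tr (Φ := Φ) (a * lefP W A D (A.dim - 1) b)
      rw [hmulfr, hlef, mul_smul_comm, map_smul, smul_eq_mul] at h1
      apply mul_left_cancel₀ (pow_ne_zero (A.dim - 1) hpne)
      rw [h1, ← mul_assoc, ← pow_succ, show A.dim - 1 + 1 = A.dim by omega]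
  · intro x hx
    obtain ⟨a, ha, hxa⟩ : ∃ a ∈ W.gr A 1, a = π 1 x := ⟨_, hπmem x, rfl⟩
    rw [← hxa] at hx ⊢
    by_cases hg : A.dim = 0
    · rw [W.gr_eq_bot A 1 (by omega), Submodule.mem_bot] at ha
      exact ha
    · apply W.nondeg
      intro b
      refine gr_induction (W.isInternal A) (p := fun b => W.tr A (a * b) = 0) ?_ ?_ b
      · intro i b hb
        by_cases hi : i = 2 * A.dim - 1
        · subst hi
          obtain ⟨b', hb', rfl⟩ := (hA.lefschetz 1 (by omega)).2 b hb
          have h1 := hx b'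
          rw [hπ.self hb'] at h1
          exact h1
        · exact W.tr_eq_zero (W.mul_mem ha hb) (by omega)
      · intro x y hx hy
        rw [mul_add, map_add, hx, hy, add_zero]

end Piece

section Pow

variable {K : Type*} [Field K] {B : Type*} [Ring B] [Algebra K B] {L : Type*} [Field L]
  [Algebra K L]

lemma pow_baseChange {N N' : Submodule K B} {i : ℕ} (h : N' ≤ N ^ i) :
    N'.baseChange L ≤ (N.baseChange L) ^ i := by
  have key : ∀ i, ∀ a ∈ N ^ i, ((1 : L) ⊗ₜ[K] a) ∈ (N.baseChange L) ^ i := by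
    intro i
    induction i with
    | zero =>
      intro a ha
      rw [pow_zero, Submodule.mem_one] at ha ⊢
      obtain ⟨c, rfl⟩ := ha
      refine ⟨algebraMap K L c, ?_⟩
      rw [Algebra.TensorProduct.algebraMap_apply, Algebra.algebraMap_eq_smul_one c,
        Algebra.algebraMap_eq_smul_one (A := B)]
      change (c • (1 : L)) ⊗ₜ[K] (1 : B) = _
      rw [TensorProduct.smul_tmul]
    | succ i ih =>
      intro a ha
      rw [pow_succ'] at ha ⊢
      refine Submodule.mul_induction_on ha ?_ ?_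
      · intro a ha b hb
        have h1 : ((1 : L) ⊗ₜ[K] (a * b) : L ⊗[K] B) =
            ((1 : L) ⊗ₜ[K] a) * ((1 : L) ⊗ₜ[K] b) := by
          rw [Algebra.TensorProduct.tmul_mul_tmul, mul_one]
        rw [h1]
        exact Submodule.mul_mem_mul (Submodule.tmul_mem_baseChange_of_mem 1 ha) (ih b hb)
      · intro a b ha hb
        rw [TensorProduct.tmul_add]
        exact Submodule.add_mem _ ha hb
  intro x hx
  refine base_induction_mod (P := fun x => x ∈ (N.baseChange L) ^ i) (Submodule.zero_mem _)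
    (fun _ _ => Submodule.add_mem _) ?_ hx
  intro l a ha
  have h1 : l ⊗ₜ[K] a = l • ((1 : L) ⊗ₜ[K] a) := by
    rw [TensorProduct.smul_tmul', smul_eq_mul, mul_one]
  rw [h1]
  exact Submodule.smul_mem _ _ (key i a (h ha))

end Pow

section Up

variable {L : Type v} [Field L] [Algebra W.K L] {X Y : 𝒱.Obj} {A : 𝒱.Obj} {m : A.prod A ⟶ A}

lemma upW_tmul (φ : W.H X →ₗ[W.K] W.H Y) (l : L) (a : W.H X) :
    upW L φ (l ⊗ₜ[W.K] a) = l ⊗ₜ[W.K] φ a := LinearMap.baseChange_tmul _ _ _

lemma one_tmul_span {j : ℤ} {x : W.H X} (hx : x ∈ spanCycles W X j) :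
    ((1 : L) ⊗ₜ[W.K] x : (baseW W L).H X) ∈ spanCycles (baseW W L) X j := by
  induction hx using Submodule.span_induction with
  | mem x hx =>
    obtain ⟨q, hq, z, hz, rfl⟩ := hx
    exact Submodule.subset_span ⟨q, hq, z, hz, rfl⟩
  | zero => rw [TensorProduct.tmul_zero]; exact Submodule.zero_mem _
  | add x y _ _ hx hy => rw [TensorProduct.tmul_add]; exact Submodule.add_mem _ hx hy
  | smul c x _ hx =>
    have h1 : ((1 : L) ⊗ₜ[W.K] (c • x) : L ⊗[W.K] W.H X) =
        (algebraMap W.K L c) • ((1 : L) ⊗ₜ[W.K] x) := by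
      rw [TensorProduct.tmul_smul, ← algebraMap_smul L c]
    exact h1 ▸ Submodule.smul_mem (spanCycles (baseW W L) X j) (algebraMap W.K L c) hx

lemma isAbelianLike_base (hA : IsAbelianLike W A m) : IsAbelianLike (baseW W L) A m := by
  constructor
  · intro (x : L ⊗[W.K] W.H A) hx
    have hx' : x ∈ (W.gr A 1).baseChange L := hx
    refine base_induction_mod (P := fun x : L ⊗[W.K] W.H A => (baseW W L).map m x =
      (baseW W L).map (fst A A) x + (baseW W L).map (snd A A) x) ?_ ?_ ?_ hx'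
    · have h0 : ∀ f : A.prod A ⟶ A, (baseW W L).map f (0 : L ⊗[W.K] W.H A) = 0 :=
        fun f => map_zero _
      rw [h0, h0, h0, add_zero]
    · intro x y h1 h2
      have h0 : ∀ f : A.prod A ⟶ A, (baseW W L).map f (x + y : L ⊗[W.K] W.H A) =
        (baseW W L).map f x + (baseW W L).map f y := fun f => map_add _ _ _
      rw [h0, h0, h0, h1, h2]
      abel
    · intro l a ha
      rw [base_map_tmul, base_map_tmul, base_map_tmul, hA.add a ha]
      exact TensorProduct.tmul_add _ _ _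
  · intro i (x : L ⊗[W.K] W.H A) hx
    have hx' : x ∈ (W.gr A i).baseChange L := hx
    exact pow_baseChange (hA.gen i) hx'

lemma isProjs_base {π : ℕ → (W.H A →ₗ[W.K] W.H A)} (hπ : IsProjs W A π) :
    IsProjs (baseW W L) A (fun i => upW L (π i)) := by
  intro i j (x : L ⊗[W.K] W.H A) hx
  have hx' : x ∈ (W.gr A j).baseChange L := hx
  refine base_induction_mod (P := fun x : L ⊗[W.K] W.H A => upW L (π i) x =
    if i = j then x else 0) ?_ ?_ ?_ hx'
  · have h0 : upW L (π i) (0 : L ⊗[W.K] W.H A) = 0 := map_zero _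
    rw [h0]
    split_ifs <;> rfl
  · intro x y h1 h2
    have h0 : upW L (π i) (x + y : L ⊗[W.K] W.H A) = upW L (π i) x + upW L (π i) y :=
      map_add _ _ _
    rw [h0, h1, h2]
    split_ifs
    · rfl
    · exact add_zero _
  · intro l a ha
    rw [upW_tmul, hπ i j a ha]
    split_ifs
    · rfl
    · exact TensorProduct.tmul_zero _ _

end Up

section Final

variable {A : 𝒱.Obj} {m : A.prod A ⟶ A} {D : A.Cycles}

/-- A class of degree one. -/
lemma exists_point (hA : IsAbelianOverFinite Φ A m D) (hne : (1 : W.H A) ≠ 0) :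
    ∃ c ∈ spanCycles W A A.dim, W.tr A c = 1 := by
  have h1 : lefP W A D A.dim 1 ∈ spanCycles W A A.dim := by
    have h2 := KOp.map_span (lefP_mem (W := W) hA.divisor A.dim) (x := (1 : W.H A)) (j := 0)
      (Submodule.subset_span ⟨0, rfl, A.V.fundCycle, A.V.fundCycle_mem, (W.cl_fund A)⟩)
    rwa [zero_add] at h2
  have h3 : W.tr A (lefP W A D A.dim 1) ≠ 0 := by
    intro h0
    apply hne
    apply (hA.lefschetz 0 (Nat.zero_le _)).1 1 (W.one_mem A)
    change lefP W A D A.dim 1 = 0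
    apply W.nondeg
    intro b
    refine gr_induction (W.isInternal A) (p := fun b => W.tr A (lefP W A D A.dim 1 * b) = 0)
      ?_ ?_ b
    · intro i b hb
      have h6 := spanCycles_deg h1
      rw [show (2 * ((A.dim : ℕ) : ℤ)) = ((2 * A.dim : ℕ) : ℤ) by push_cast; ring,
        grZ_natCast] at h6
      by_cases hi : i = 0
      · subst hi
        rw [W.gr_zero A, Submodule.mem_span_singleton] at hb
        obtain ⟨r, rfl⟩ := hb
        rw [mul_smul_comm, mul_one, map_smul, h0, smul_zero]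
      · exact W.tr_eq_zero (W.mul_mem h6 hb) (by omega)
    · intro x y hx hy
      rw [mul_add, map_add, hx, hy, add_zero]
  refine ⟨(W.tr A (lefP W A D A.dim 1))⁻¹ • lefP W A D A.dim 1, Submodule.smul_mem _ _ h1, ?_⟩
  rw [map_smul, smul_eq_mul, inv_mul_cancel₀ h3]

/-- The identity of a member of `𝒴`. -/
lemma id_mem_other {L : Type v} [Field L] [Algebra W.K L] [IsAlgClosed L] {ι : Type w}
    {E : ι → PieceData Φ} {R : ι → Finset L} {hR : ∀ i, IsRoots (E i).P (R i)}
    {𝒴 : Set 𝒱.Obj} {Y : 𝒱.Obj} (hY : Y ∈ 𝒴) :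
    LinearMap.id ∈ RetOp (baseW W L) (WCls E hR 𝒴) Y Y := by
  have : IsAlgClosed (baseW W L).K := (inferInstance : IsAlgClosed L)
  have hint : IsIntegral W.K (fr Φ Y) := Algebra.IsIntegral.isIntegral _
  set f : (baseW W L).K[X] := (minpoly W.K (fr Φ Y)).map (algebraMap W.K L) with hf
  have hf0 : f ≠ 0 := (Polynomial.map_ne_zero_iff (algebraMap W.K L).injective).2
    (minpoly.ne_zero hint)
  refine retOp_gen (W := baseW W L) (Φ := baseFrob Φ L) (Y := Y) (P := WCls E hR 𝒴)
    (S := {b : L | aeval b (minpoly W.K (fr Φ Y)) = 0}) ?_ f.natDegree f le_rfl hf0 ?_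
    (1 : Module.End (baseW W L).K ((baseW W L).H Y)) (KOp.id Y) (one_mul _) ?_ ?_
  · intro B b hB hb hT
    subst hB
    exact WCls.other hY hb hT
  · intro (b : L) hb
    rw [IsRoot.def] at hb
    change aeval b (minpoly W.K (fr Φ Y)) = 0
    rw [← eval_map_algebraMap]
    exact hb
  · rw [one_mul, mul_one]
  · rw [mul_one]
    have h1 : fr (baseFrob Φ L) Y = (fr Φ Y).baseChange L := base_map_eq (Φ.Fr Y)
    rw [h1, hf]
    have h2 := aeval_baseChange (L := L) (fr Φ Y) (minpoly W.K (fr Φ Y))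
    rw [minpoly.aeval, LinearMap.baseChange_zero] at h2
    exact h2

end Final

end Pool.Agent.R908
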