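import Pool.Agent.R908.RatC
import Pool.Agent.R908.MainB

/-!
# The transcendental cohomology as a direct factor with many correspondences
-/

open CategoryTheory AlgebraicGeometry TensorProduct Polynomial

universe u v w w'

namespace Pool.Agent.R908

open Pool.Agent.H914 Pool.Agent.H914.VarClass Pool.Agent.H914.VarClass.Obj
  Pool.Agent.H914.WeilCohomology Pool.Agent.H281R3.HT Pool.Agent.W534

variable {k : Type u} [Field k] {𝒱 : VarClass k} {ops : CycleOps 𝒱}
  {W : WeilCohomology.{u, v} ops} {p : ℕ} {Φ : FrobSystem W p} {X Y Z : 𝒱.Obj}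

/-- The data of the splitting of `H(X)` in the algebraic and the transcendental part. -/
structure TSplit (W : WeilCohomology.{u, v} ops) (X : 𝒱.Obj) where
  /-- the projectors to the algebraic part -/
  eA : Fin (X.dim + 1) → (W.H X →ₗ[W.K] W.H X)
  /-- the projector to the transcendental part -/
  eT : W.H X →ₗ[W.K] W.H X
  eA_mem : ∀ j, eA j ∈ RatOp W X X
  eA_idem : ∀ j, eA j ∘ₗ eA j = eA j
  eA_alg : ∀ j, ∃ (n : ℕ) (c c' : Fin n → W.H X) (l l' : ℕ), (∀ i, c i ∈ algClasses W X l) ∧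
      (∀ i, c' i ∈ algClasses W X l') ∧ ∀ x, eA j x = ∑ i, W.tr X (c i * x) • c' i
  eT_mem : eT ∈ RatOp W X X
  sum : ∑ j, eA j + eT = LinearMap.id
  mem_T : ∀ z, eT z ∈ transcendental W X
  fix : ∀ t ∈ transcendental W X, eT t = t
  kill : ∀ l, ∀ a ∈ algClasses W X l, eT a = 0

lemma exists_tSplit (h : HomEqNum W X) : Nonempty (TSplit W X) := by
  obtain ⟨eA, eT, h1, h2, h3, h4, h5, h6, h7, h8⟩ := exists_ratT h
  exact ⟨⟨eA, eT, h1, h2, h3, h4, h5, h6, h7, h8⟩⟩

namespace TSplit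

variable (s : TSplit W X)

lemma idem : s.eT ∘ₗ s.eT = s.eT := by
  apply LinearMap.ext
  intro x
  rw [LinearMap.comp_apply, s.fix _ (s.mem_T x)]

lemma kill_span {l : ℕ} {a : W.H X} (ha : a ∈ Submodule.span W.K (algClasses W X l)) :
    s.eT a = 0 := by
  induction ha using Submodule.span_induction with
  | mem x hx => exact s.kill l x hx
  | zero => rw [map_zero]
  | add x y _ _ hx hy => rw [map_add, hx, hy, add_zero]
  | smul c x _ hx => rw [map_smul, hx, smul_zero]

/-- Algebraic operators of degree `0` commute with the projector. -/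
lemma comm {φ : W.H X →ₗ[W.K] W.H X} (hφ : φ ∈ KOp W X X 0) :
    φ ∘ₗ s.eT = s.eT ∘ₗ φ := by
  apply LinearMap.ext
  intro x
  rw [LinearMap.comp_apply, LinearMap.comp_apply]
  have h2 := congrArg (fun F => F x) s.sum
  beta_reduce at h2
  rw [LinearMap.add_apply, LinearMap.sum_apply, LinearMap.id_apply] at h2
  conv_rhs => rw [← h2]
  rw [map_add, map_add, map_sum, map_sum, s.fix _ (KOp.trans hφ (s.mem_T x)), eq_comm,
    add_eq_right]
  apply Finset.sum_eq_zero
  intro j _
  obtain ⟨n, c, c', l, l', hc, hc', he⟩ := s.eA_alg j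
  have h3 : ∀ i, s.eT (φ (c' i)) = 0 := by
    intro i
    have h4 : φ (c' i) ∈ Submodule.span W.K (algClasses W X l') := by
      rw [← spanCycles_eq]
      exact KOp.span0 hφ l' (alg_mem_span (hc' i))
    exact s.kill_span h4
  rw [he, map_sum, map_sum]
  apply Finset.sum_eq_zero
  intro i _
  rw [map_smul, map_smul, h3, smul_zero]

/-- The trace form on the transcendental part is nondegenerate. -/
lemma nondeg (x : W.H X) (h : ∀ y, W.tr X (s.eT x * s.eT y) = 0) : s.eT x = 0 := by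
  apply W.nondeg
  intro y
  have h2 := congrArg (fun F => F y) s.sum
  beta_reduce at h2
  rw [LinearMap.add_apply, LinearMap.sum_apply, LinearMap.id_apply] at h2
  rw [← h2, mul_add, map_add, h, add_zero, Finset.mul_sum, map_sum]
  apply Finset.sum_eq_zero
  intro j _
  obtain ⟨n, c, c', l, l', hc, hc', he⟩ := s.eA_alg j
  rw [he, Finset.mul_sum, map_sum]
  apply Finset.sum_eq_zero
  intro i _
  have h3 : W.tr X (s.eT x * c' i) = 0 := mem_trans.1 (s.mem_T x) _ _ (hc' i)
  rw [mul_smul_comm, map_smul, h3, smul_zero]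

/-- The projectors to the algebraic part are cut out by algebraic classes. -/
lemma alg_up (L : Type v) [Field L] [Algebra W.K L] (j : Fin (X.dim + 1)) :
    ∃ (m : upW L (s.eA j) ∈ KOp (baseW W L) X X 0)
      (i : upW L (s.eA j) ∘ₗ upW L (s.eA j) = upW L (s.eA j)),
      (⟨X, upW L (s.eA j), m, i⟩ : Mot (baseW W L)).Alg := by
  refine ⟨upW_mem (RatOp.mem (s.eA_mem j)), ?_, ?_⟩
  · have h1 : (s.eA j).baseChange L ∘ₗ (s.eA j).baseChange L = (s.eA j).baseChange L := by
      rw [← LinearMap.baseChange_comp, s.eA_idem]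
    exact h1
  · obtain ⟨n, c, c', l, l', hc, hc', he⟩ := s.eA_alg j
    refine ⟨n, fun i => (1 : L) ⊗ₜ[W.K] c i, fun i => (1 : L) ⊗ₜ[W.K] c' i, fun _ => l,
      fun i => one_tmul_span (alg_mem_span (hc i)), ?_⟩
    intro (x : L ⊗[W.K] W.H X)
    refine tmul_induction (P := fun x : L ⊗[W.K] W.H X => (upW L (s.eA j)) x =
      ∑ i, (baseW W L).tr X ((1 : L) ⊗ₜ[W.K] c i * x) •
        (show (baseW W L).H X from (1 : L) ⊗ₜ[W.K] c' i)) ?_ ?_ ?_ x
    · have h0 : upW L (s.eA j) (0 : L ⊗[W.K] W.H X) = 0 := map_zero _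
      rw [h0]
      refine (Finset.sum_eq_zero (fun i _ => ?_)).symm
      have h1 : (baseW W L).tr X ((1 : L) ⊗ₜ[W.K] c i * (0 : L ⊗[W.K] W.H X)) = 0 := by
        have h2 : ((1 : L) ⊗ₜ[W.K] c i * (0 : L ⊗[W.K] W.H X)) = 0 := mul_zero _
        rw [h2]
        exact map_zero _
      rw [h1]
      exact zero_smul _ _
    · intro x y hx hy
      have h0 : upW L (s.eA j) (x + y : L ⊗[W.K] W.H X) = upW L (s.eA j) x + upW L (s.eA j) y :=
        map_add _ _ _
      rw [h0, hx, hy]
      refine Finset.sum_add_distrib.symm.trans (Finset.sum_congr rfl (fun i _ => ?_))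
      have h2 : ((1 : L) ⊗ₜ[W.K] c i * (x + y : L ⊗[W.K] W.H X)) =
        (1 : L) ⊗ₜ[W.K] c i * x + (1 : L) ⊗ₜ[W.K] c i * y := mul_add _ _ _
      rw [h2]
      refine (add_smul _ _ _).symm.trans ?_
      congr 1
      exact (map_add _ _ _).symm
    · intro r a
      have h0 : upW L (s.eA j) (r ⊗ₜ[W.K] a) = r ⊗ₜ[W.K] (s.eA j a) :=
        LinearMap.baseChange_tmul _ _ _
      rw [h0, he, TensorProduct.tmul_sum]
      apply Finset.sum_congr rfl
      intro i _
      have h1 : (baseW W L).tr X ((1 : L) ⊗ₜ[W.K] c i * (r ⊗ₜ[W.K] a : L ⊗[W.K] W.H X)) =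
          (r * algebraMap W.K L (W.tr X (c i * a)) : L) := by
        have h2 : ((1 : L) ⊗ₜ[W.K] c i * (r ⊗ₜ[W.K] a : L ⊗[W.K] W.H X)) =
            r ⊗ₜ[W.K] (c i * a) := by
          rw [Algebra.TensorProduct.tmul_mul_tmul, one_mul]
        have h4 : formBase L (W.tr X) (r ⊗ₜ[W.K] (c i * a)) =
          r * algebraMap W.K L (W.tr X (c i * a)) := formBase_tmul _ _ _
        rw [h2]
        exact h4
      rw [h1]
      have h3 : (r ⊗ₜ[W.K] (W.tr X (c i * a) • c' i) : L ⊗[W.K] W.H X) =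
          (r * algebraMap W.K L (W.tr X (c i * a))) • ((1 : L) ⊗ₜ[W.K] c' i) := by
        rw [TensorProduct.smul_tmul', smul_eq_mul, mul_one, TensorProduct.tmul_smul,
          ← algebraMap_smul L, TensorProduct.smul_tmul', smul_eq_mul, mul_comm]
      exact h3

/-- The transcendental part as a piece. -/
theorem isPiece {P : W.K[X]} (hsq : Squarefree P)
    (hP : ∀ x ∈ transcendental W X, aeval (fr Φ X) P x = 0)
    (hT : CommutantSpannedOn (frobAll Φ X) (transcendental W X) (cycOps W X)) :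
    IsPiece Φ X s.eT P (((p : W.K) ^ Φ.e X) ^ X.dim) 0 LinearMap.id where
  mem := RatOp.mem s.eT_mem
  idem := s.idem
  comm := s.comm (KOp.mapHom (Φ.Fr X))
  sqf := hsq
  poly := by
    apply LinearMap.ext
    intro x
    exact hP _ (s.mem_T x)
  tate := by
    intro φ h1 h2 h3
    obtain ⟨ψ, hψ', h4⟩ := hT φ (fun x _ => by
      rw [← h2]
      exact s.mem_T _) (fun x _ => congrArg (fun F => F x) h3)
    have h5 : φ = ψ ∘ₗ s.eT := by
      apply LinearMap.ext
      intro x
      conv_lhs => rw [← h1]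
      exact (h4 _ (s.mem_T x)).symm
    rw [h5]
    exact KOp.cast (KOp.comp (cycOps_le X hψ') (RatOp.mem s.eT_mem)) (add_zero 0)
  θ_mem := KOp.id X
  c_ne := pow_ne_zero _ (pow_ne_zero _ (cast_p_ne Φ))
  θ_eq := by
    intro x y
    rw [LinearMap.id_apply, LinearMap.id_apply]
    have h1 : fr Φ X (s.eT x) * fr Φ X (s.eT y) = fr Φ X (s.eT x * s.eT y) :=
      (map_mul (W.map (Φ.Fr X)) _ _).symm
    rw [h1, fr_tr]
  nondeg := by
    intro x h
    exact s.nondeg x h

end TSplit

end Pool.Agent.R908
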