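import Pool.Agent.R908.KnH
import Pool.Agent.R908.RatD

/-!
# The transcendental cohomology as a letter
-/

open CategoryTheory AlgebraicGeometry TensorProduct Function

universe u v w w'

namespace Pool.Agent.R908

open Pool.Agent.H914 Pool.Agent.H914.VarClass Pool.Agent.H914.VarClass.Obj
  Pool.Agent.H914.WeilCohomology Pool.Agent.H281R3.HT Km

variable {k : Type u} [Field k] {𝒱 : VarClass k} {ops : CycleOps 𝒱}
  {W : WeilCohomology.{u, v} ops} {X Y Z X' Y' Z' : 𝒱.Obj} {𝒢 : Set (Symmetry W)}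

/-- Symmetries preserve the transcendental cohomology. -/
lemma Symmetry.trans (S : Symmetry W) {x : W.H X} (hx : x ∈ transcendental W X) :
    S.σ X x ∈ transcendental W X := by
  have h0 : ∀ j : ℤ, ∀ g ∈ spanCycles W X j, W.tr X (x * g) = 0 := by
    intro j g hg
    induction hg using Submodule.span_induction with
    | mem g hg =>
      obtain ⟨p, hp, z, hz, rfl⟩ := hg
      exact mem_trans.1 hx p _ ⟨z, hz, rfl⟩
    | zero => rw [mul_zero, map_zero]
    | add a b _ _ ha hb => rw [mul_add, map_add, ha, hb, add_zero]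
    | smul c a _ ha => rw [mul_smul_comm, map_smul, ha, smul_zero]
  rw [mem_trans]
  intro j c hc
  have h1 : c = S.σ X (S.inv.σ X c) := (AlgEquiv.apply_symm_apply _ _).symm
  rw [bil_apply, h1, ← map_mul, S.tr, h0 j _ (S.inv.span (alg_mem_span hc)), mul_zero]

namespace TSplit

variable (s : TSplit W X)

lemma tr_eA {t : W.H X} (ht : t ∈ transcendental W X) (j : Fin (X.dim + 1)) (y : W.H X) :
    W.tr X (t * s.eA j y) = 0 ∧ W.tr X (s.eA j y * t) = 0 := by
  obtain ⟨n, c, c', l, l', hc, hc', he⟩ := s.eA_alg j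
  constructor
  · rw [he, Finset.mul_sum, map_sum]
    apply Finset.sum_eq_zero
    intro i _
    have h3 : W.tr X (t * c' i) = 0 := mem_trans.1 ht _ _ (hc' i)
    rw [mul_smul_comm, map_smul, h3, smul_zero]
  · rw [he, Finset.sum_mul, map_sum]
    apply Finset.sum_eq_zero
    intro i _
    have h3 : W.tr X (t * c' i) = 0 := mem_trans.1 ht _ _ (hc' i)
    rw [smul_mul_assoc, map_smul, alg_even_comm (hc' i), h3, smul_zero]

lemma decomp (x : W.H X) : x = ∑ j, s.eA j x + s.eT x := by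
  have h2 := congrArg (fun F => F x) s.sum
  beta_reduce at h2
  rw [LinearMap.add_apply, LinearMap.sum_apply, LinearMap.id_apply] at h2
  exact h2.symm

lemma tr_right {t : W.H X} (ht : t ∈ transcendental W X) (y : W.H X) :
    W.tr X (t * y) = W.tr X (t * s.eT y) := by
  conv_lhs => rw [s.decomp y]
  rw [mul_add, map_add, Finset.mul_sum, map_sum, Finset.sum_eq_zero, zero_add]
  intro j _
  exact (s.tr_eA ht j y).1

lemma tr_left {t : W.H X} (ht : t ∈ transcendental W X) (y : W.H X) :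
    W.tr X (y * t) = W.tr X (s.eT y * t) := by
  conv_lhs => rw [s.decomp y]
  rw [add_mul, map_add, Finset.sum_mul, map_sum, Finset.sum_eq_zero, zero_add]
  intro j _
  exact (s.tr_eA ht j y).2

lemma adj (a b : W.H X) : W.tr X (s.eT a * b) = W.tr X (a * s.eT b) := by
  rw [s.tr_right (s.mem_T a) b, s.tr_left (s.mem_T b) a]

lemma mem0 : s.eT ∈ KOp W X X 0 := RatOp.mem s.eT_mem

lemma kill_alg {j : ℤ} {a : W.H X} (ha : a ∈ spanCycles W X j) : s.eT a = 0 := by
  induction ha using Submodule.span_induction with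
  | mem g hg =>
    obtain ⟨p, hp, z, hz, rfl⟩ := hg
    exact s.kill p _ ⟨z, hz, rfl⟩
  | zero => rw [map_zero]
  | add x y _ _ hx hy => rw [map_add, hx, hy, add_zero]
  | smul c x _ hx => rw [map_smul, hx, smul_zero]

lemma sym (S : Symmetry W) (a : W.H X) : S.σ X (s.eT a) = s.eT (S.σ X a) := by
  conv_rhs => rw [s.decomp a, map_add, map_add, map_sum, map_sum]
  rw [s.fix _ (S.trans (s.mem_T a)), eq_comm, add_eq_right]
  apply Finset.sum_eq_zero
  intro j _
  obtain ⟨n, c, c', l, l', hc, hc', he⟩ := s.eA_alg j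
  rw [he, map_sum, map_sum]
  apply Finset.sum_eq_zero
  intro i _
  rw [map_smul, map_smul, s.kill_alg (S.span (alg_mem_span (hc' i))), smul_zero]

/-- The projector to the algebraic part. -/
noncomputable def eC : W.H X →ₗ[W.K] W.H X := ∑ j, s.eA j

lemma eC_apply (x : W.H X) : s.eC x = x - s.eT x := by
  rw [eC, LinearMap.sum_apply, eq_sub_iff_add_eq]
  exact (s.decomp x).symm

/-- The algebraic part. -/
noncomputable def MC : Mot W where
  X := X
  e := s.eC
  mem := Submodule.sum_mem _ (fun j _ => RatOp.mem (s.eA_mem j))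
  idem := by
    apply LinearMap.ext
    intro x
    rw [LinearMap.comp_apply, s.eC_apply, s.eC_apply, map_sub, s.fix _ (s.mem_T x), sub_self,
      sub_zero]

lemma MC_alg : s.MC.Alg := by
  classical
  choose n c c' l l' hc hc' he using s.eA_alg
  set f := Fintype.equivFin (Σ j : Fin (X.dim + 1), Fin (n j)) with hf
  refine ⟨Fintype.card (Σ j : Fin (X.dim + 1), Fin (n j)),
    fun i => c (f.symm i).1 (f.symm i).2, fun i => c' (f.symm i).1 (f.symm i).2,
    fun i => l (f.symm i).1, fun i => alg_mem_span (hc _ _), fun (x : W.H X) => ?_⟩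
  have e0 : s.eC x = ∑ j, ∑ i, W.tr X (c j i * x) • c' j i := by
    rw [eC, LinearMap.sum_apply]
    exact Finset.sum_congr rfl (fun j _ => he j x)
  have e1 : ∑ j, ∑ i, W.tr X (c j i * x) • c' j i =
      ∑ y : (Σ j : Fin (X.dim + 1), Fin (n j)), W.tr X (c y.1 y.2 * x) • c' y.1 y.2 :=
    (Fintype.sum_sigma (fun y : (Σ j : Fin (X.dim + 1), Fin (n j)) =>
      W.tr X (c y.1 y.2 * x) • c' y.1 y.2)).symm
  exact (e0.trans e1).trans (Equiv.sum_comp f.symm
    (fun y : Σ j : Fin (X.dim + 1), Fin (n j) => W.tr X (c y.1 y.2 * x) • c' y.1 y.2)).symm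

lemma MC_comm (S : Symmetry W) : Comm S s.MC := by
  intro (a : W.H X)
  change S.σ X (s.eC a) = s.eC (S.σ X a)
  rw [s.eC_apply, s.eC_apply, map_sub, s.sym]

section Sign

variable {κ : W.H X →ₗ[W.K] W.H X} (hκ : κ ∈ KOp W X X 0)
  (hs : ∀ i, ∀ a ∈ W.gr X i, a ∈ transcendental W X → κ a = (-1 : W.K) ^ i • a)

/-- The projector to the part of parity `w` of the transcendental cohomology. -/
noncomputable def ew (κ : W.H X →ₗ[W.K] W.H X) (w : ℕ) : W.H X →ₗ[W.K] W.H X :=
  (2 : W.K)⁻¹ • (s.eT + ((-1 : W.K) ^ w) • (κ ∘ₗ s.eT))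

include hs in
lemma ew_apply (w : ℕ) {i : ℕ} {a : W.H X} (ha : a ∈ W.gr X i) :
    s.ew κ w a = if Even (i + w) then s.eT a else 0 := by
  have h1 := hs i (s.eT a) (Mot.hom_deg0 s.mem0 ha) (s.mem_T a)
  rw [ew, LinearMap.smul_apply, LinearMap.add_apply, LinearMap.smul_apply,
    LinearMap.comp_apply, h1, smul_smul, ← pow_add, add_comm w i]
  by_cases he : Even (i + w)
  · rw [if_pos he, he.neg_one_pow, one_smul, ← two_smul W.K, smul_smul,
      inv_mul_cancel₀ two_ne_zero, one_smul]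
  · rw [if_neg he, (Nat.not_even_iff_odd.1 he).neg_one_pow, neg_smul, one_smul, add_neg_cancel,
      smul_zero]

include hκ in
lemma ew_mem (w : ℕ) : s.ew κ w ∈ KOp W X X 0 :=
  Submodule.smul_mem _ _ (Submodule.add_mem _ s.mem0 (Submodule.smul_mem _ _
    (KOp.cast (KOp.comp hκ s.mem0) (add_zero 0))))

include hs in
lemma ew_idem (w : ℕ) : s.ew κ w ∘ₗ s.ew κ w = s.ew κ w := by
  apply gr_ext (W.isInternal X)
  intro i a ha
  rw [LinearMap.comp_apply, s.ew_apply hs w ha]
  by_cases he : Even (i + w)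
  · rw [if_pos he, s.ew_apply hs w (Mot.hom_deg0 s.mem0 ha), if_pos he, s.fix _ (s.mem_T a)]
  · rw [if_neg he, map_zero]

include hs in
lemma ew_range (w : ℕ) (a : W.H X) : s.ew κ w a ∈ transcendental W X := by
  refine gr_induction (W.isInternal X) (p := fun a => s.ew κ w a ∈ transcendental W X) ?_ ?_ a
  · intro i a ha
    rw [s.ew_apply hs w ha]
    split_ifs
    · exact s.mem_T a
    · exact Submodule.zero_mem _
  · intro a b ha hb
    rw [map_add]
    exact Submodule.add_mem _ ha hb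

include hs in
lemma ew_comm (w : ℕ) {φ : W.H X →ₗ[W.K] W.H X} (hφ : φ ∈ KOp W X X 0) :
    φ ∘ₗ s.ew κ w = s.ew κ w ∘ₗ φ := by
  apply gr_ext (W.isInternal X)
  intro i a ha
  rw [LinearMap.comp_apply, LinearMap.comp_apply, s.ew_apply hs w ha,
    s.ew_apply hs w (Mot.hom_deg0 hφ ha)]
  by_cases he : Even (i + w)
  · rw [if_pos he, if_pos he]
    exact congrArg (fun F => F a) (s.comm hφ)
  · rw [if_neg he, if_neg he, map_zero]

/-- The part of parity `w` of the transcendental cohomology. -/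
noncomputable def Mw (w : ℕ) : Mot W := ⟨X, s.ew κ w, s.ew_mem hκ w, s.ew_idem hs w⟩

lemma Mw_comm (w : ℕ) (S : Symmetry W) : Comm S (s.Mw hκ hs w) := by
  intro (a : W.H X)
  change S.σ X (s.ew κ w a) = s.ew κ w (S.σ X a)
  refine gr_induction (W.isInternal X)
    (p := fun a => S.σ X (s.ew κ w a) = s.ew κ w (S.σ X a)) ?_ ?_ a
  · intro i a ha
    rw [s.ew_apply hs w ha, s.ew_apply hs w (S.gr.2 ha)]
    by_cases he : Even (i + w)
    · rw [if_pos he, if_pos he, s.sym]
    · rw [if_neg he, if_neg he, map_zero]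
  · intro a b ha hb
    rw [map_add, map_add, map_add, map_add, ha, hb]

lemma Mw_self (w : ℕ) : SelfDual (s.Mw hκ hs w) w ((-1 : W.K) ^ w) (s.ew κ w) (s.ew κ w) where
  θ_mem := ⟨0, s.ew_mem hκ w⟩
  θ'_mem := ⟨0, s.ew_mem hκ w⟩
  par := by
    intro i a ha hodd
    change s.ew κ w a = 0
    rw [s.ew_apply hs w ha, if_neg (Nat.not_even_iff_odd.2 hodd)]
  θ_e := s.ew_idem hs w
  inv := s.ew_idem hs w
  symm := by
    intro (a : W.H X) (b : W.H X)
    change W.tr X (a * s.ew κ w b) = (-1) ^ w * W.tr X (b * s.ew κ w a)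
    refine gr_induction (W.isInternal X) (p := fun a =>
      W.tr X (a * s.ew κ w b) = (-1) ^ w * W.tr X (b * s.ew κ w a)) ?_ ?_ a
    swap
    · intro a a' ha ha'
      rw [add_mul, map_add, map_add, mul_add, map_add, ha, ha', mul_add]
    intro i a ha
    refine gr_induction (W.isInternal X) (p := fun b =>
      W.tr X (a * s.ew κ w b) = (-1) ^ w * W.tr X (b * s.ew κ w a)) ?_ ?_ b
    swap
    · intro b b' hb hb'
      rw [map_add, mul_add, map_add, add_mul, map_add, hb, hb', mul_add]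
    intro j b hb
    rw [s.ew_apply hs w ha, s.ew_apply hs w hb]
    by_cases hij : i + j = 2 * X.dim
    · have h1 : (Even i ↔ Even j) := Nat.even_add.1 ⟨X.dim, by omega⟩
      have h2 : Even (i + w) ↔ Even (j + w) := by
        rw [Nat.even_add, Nat.even_add, h1]
      by_cases he : Even (i + w)
      · rw [if_pos he, if_pos (h2.1 he), ← s.adj,
          W.comm (Mot.hom_deg0 s.mem0 ha) hb, map_smul, smul_eq_mul]
        congr 1
        have h3 := Nat.even_add.1 he
        rcases Nat.even_or_odd w with hw | hw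
        · rw [((h3.2 hw).mul_right j).neg_one_pow, hw.neg_one_pow]
        · have hi : Odd i := Nat.not_even_iff_odd.1
            (fun h => (Nat.not_even_iff_odd.2 hw) (h3.1 h))
          have hj : Odd j := Nat.not_even_iff_odd.1
            (fun h => (Nat.not_even_iff_odd.2 hi) (h1.2 h))
          rw [(hi.mul hj).neg_one_pow, hw.neg_one_pow]
      · rw [if_neg he, if_neg (fun h => he (h2.2 h)), mul_zero, mul_zero, map_zero, mul_zero]
    · have h1 : W.tr X (a * if Even (j + w) then s.eT b else 0) = 0 := by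
        split_ifs
        · exact W.tr_eq_zero (W.mul_mem ha (Mot.hom_deg0 s.mem0 hb)) hij
        · rw [mul_zero, map_zero]
      have h2 : W.tr X (b * if Even (i + w) then s.eT a else 0) = 0 := by
        split_ifs
        · exact W.tr_eq_zero (W.mul_mem hb (Mot.hom_deg0 s.mem0 ha)) (by omega)
        · rw [mul_zero, map_zero]
      rw [h1, h2, mul_zero]
  sq := by
    rw [← pow_add, ← two_mul, pow_mul]
    simp

/-- **The parts of the transcendental cohomology are letters.** -/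
lemma Mw_letter (hA : Anisotropic 𝒢 X) (w : ℕ) : Letter 𝒢 (s.Mw hκ hs w) := by
  have hself := s.Mw_self hκ hs w
  refine ⟨w, (-1) ^ w, s.ew κ w, s.ew κ w, hself, fun S _ => s.Mw_comm hκ hs w S,
    fun S _ => ⟨1, one_ne_zero, fun a => ?_⟩, ?_⟩
  · rw [one_smul]
    exact (s.Mw_comm hκ hs w S a).symm
  intro U hU hne hst hS
  have hfix : ∀ x ∈ U, s.ew κ w x = x := by
    intro x hx
    obtain ⟨y, hy⟩ := hU hx
    rw [← hy]
    exact congrArg (fun F => F y) (s.ew_idem hs w)
  obtain ⟨θ, hθ, x, hx, y, hy, hxy⟩ := hA U (by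
      intro x hx
      rw [← hfix x hx]
      exact s.ew_range hs w x) hne (by
      rintro e (he | ⟨S, hSS, rfl⟩) x hx
      · obtain ⟨δ, φ, hφ, he, hδ⟩ := corr_mem_correspondences he
        have hφ0 : φ ∈ KOp W X X 0 := KOp.cast hφ (by omega)
        have h1 : s.ew κ w (φ x) = φ x := by
          have h2 := congrArg (fun F => F x) (s.ew_comm hs w hφ0)
          beta_reduce at h2
          rw [LinearMap.comp_apply, LinearMap.comp_apply, hfix x hx] at h2
          exact h2.symm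
        rw [← he, ← h1]
        exact hst _ φ hφ x hx
      · exact hS S hSS x hx)
  obtain ⟨p, hp⟩ := Set.mem_iUnion.1 hθ
  obtain ⟨δ, θ', hθ', he, -⟩ := corr_mem_correspondences hp
  refine ⟨x, hx, s.ew κ w (θ' y), hst δ θ' hθ' y hy, ?_⟩
  have h1 : s.ew κ w (s.ew κ w (θ' y)) = s.ew κ w (θ' y) :=
    congrArg (fun F => F (θ' y)) (s.ew_idem hs w)
  change W.tr X (x * s.ew κ w (s.ew κ w (θ' y))) ≠ 0
  have h2 : W.tr X (x * s.ew κ w (θ' y)) = (-1) ^ w * W.tr X (θ' y * s.ew κ w x) :=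
    hself.symm x (θ' y)
  have h3 : W.tr X (θ' y * s.ew κ w x) = (-1) ^ w * W.tr X (s.ew κ w x * θ' y) :=
    hself.comm_θ (θ' y) x
  have h4 := hself.sgn_sq
  rw [h1, h2, h3, ← mul_assoc, h4, one_mul, hfix x hx]
  rw [he]
  exact hxy

end Sign

end TSplit

/-- The identity of `H(X)` factors through words. -/
lemma id_mem_words {𝒴 : Set 𝒱.Obj} (hD : HomEqNum W X) (hs : SignAlgebraic W X)
    (hA : Anisotropic 𝒢 X) :
    (LinearMap.id : W.H X →ₗ[W.K] W.H X) ∈ RetOp W (WordCls 𝒢 𝒴) X X := by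
  obtain ⟨s⟩ := exists_tSplit hD
  obtain ⟨γ, hγ, hsγ⟩ := hs
  have hκ : W.corr γ ∈ KOp W X X 0 := mem_KOp_iff.2 ⟨γ, by rw [add_zero]; exact hγ, rfl⟩
  have h1 : (LinearMap.id : W.H X →ₗ[W.K] W.H X) =
      s.eC + s.ew (W.corr γ) 0 + s.ew (W.corr γ) 1 := by
    apply gr_ext (W.isInternal X)
    intro i a ha
    rw [LinearMap.add_apply, LinearMap.add_apply, s.ew_apply hsγ 0 ha, s.ew_apply hsγ 1 ha,
      s.eC_apply, LinearMap.id_apply]
    rcases Nat.even_or_odd i with hi | hi
    · rw [if_pos (by rwa [add_zero]), if_neg (Nat.not_even_iff_odd.2 hi.add_one), add_zero,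
        sub_add_cancel]
    · rw [if_neg (by rw [add_zero]; exact Nat.not_even_iff_odd.2 hi), if_pos hi.add_one,
        add_zero, sub_add_cancel]
  rw [h1]
  refine Submodule.add_mem _ (Submodule.add_mem _ ?_ ?_) ?_
  · exact RetOp.self (B := s.MC) (WordCls.alg s.MC_alg (fun S _ => s.MC_comm S))
  · exact RetOp.self (B := s.Mw hκ hsγ 0) (WordCls.letter (s.Mw_letter hκ hsγ hA 0))
  · exact RetOp.self (B := s.Mw hκ hsγ 1) (WordCls.letter (s.Mw_letter hκ hsγ hA 1))

lemma one_ne_of_prod {P : Set 𝒱.Obj} {Z : 𝒱.Obj} (hZ : IsProductOf P Z)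
    (h1 : (1 : W.H Z) ≠ 0) : ∃ X ∈ P, (1 : W.H X) ≠ 0 := by
  induction hZ with
  | base hX => exact ⟨_, hX, h1⟩
  | prod _ _ ih _ =>
    apply ih
    intro h0
    apply h1
    rw [← map_one (W.map (fst _ _)), h0, map_zero]

/-- **The conjecture D for products.** -/
theorem homEqNum_of_anisotropic {P 𝒴 : Set 𝒱.Obj} (hD : ∀ X ∈ P, HomEqNum W X)
    (hs : ∀ X ∈ P, SignAlgebraic W X) (hP : ∀ X ∈ P, Anisotropic 𝒢 X)
    (h𝒴 : ∀ Y, IsProductOf 𝒴 Y → HomEqNum W Y) {Z : 𝒱.Obj} (hZ : IsProductOf (P ∪ 𝒴) Z) :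
    HomEqNum W Z := by
  by_cases hone : (1 : W.H Z) = 0
  · intro j _ z _ _
    calc W.cl Z z = 1 * W.cl Z z := by rw [one_mul]
      _ = 0 := by rw [hone, zero_mul]
  · refine homEqNum_words (𝒢 := 𝒢) h𝒴 (fun X hX => id_mem_words (hD X hX) (hs X hX) (hP X hX))
      ?_ hZ
    obtain ⟨X, hX, h1⟩ := one_ne_of_prod hZ hone
    have hfund : (1 : W.H X) ∈ spanCycles W X 0 :=
      Submodule.subset_span ⟨0, rfl, X.V.fundCycle, X.V.fundCycle_mem, W.cl_fund X⟩
    rcases hX with hX | hX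
    · obtain ⟨s⟩ := exists_tSplit (hD X hX)
      refine ⟨s.MC, ⟨[s.MC], ?_, 1, Or.inl rfl, ?_⟩, 0, 1, hfund, ?_⟩
      · intro B hB
        rw [List.mem_singleton] at hB
        rw [hB]
        exact ⟨s.MC_alg, fun S _ => s.MC_comm S⟩
      · rw [List.map_singleton, List.prod_singleton, mul_one]
      · change s.eC (1 : W.H X) ≠ 0
        rw [s.eC_apply, s.kill_alg hfund, sub_zero]
        exact h1
    · refine ⟨whole W X, ⟨[], fun B hB => absurd hB List.not_mem_nil, _,
        Or.inr ⟨X, IsProductOf.base hX, rfl⟩, ?_⟩, 0, 1, hfund, ?_⟩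
      · rw [List.map_nil, List.prod_nil, one_mul]
      · exact h1

end Pool.Agent.R908
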