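import Pool.Agent.R908.MainB
import Pool.Agent.R908.KnI

/-!
# The inverse of the Lefschetz operator on the first cohomology of an abelian variety (Lieberman)
-/

open CategoryTheory AlgebraicGeometry TensorProduct Polynomial

universe u v w w'

namespace Pool.Agent.R908

open Pool.Agent.H914 Pool.Agent.H914.VarClass Pool.Agent.H914.VarClass.Obj
  Pool.Agent.H914.WeilCohomology Pool.Agent.H281R3.HT

variable {k : Type u} [Field k] {𝒱 : VarClass k} {ops : CycleOps 𝒱}
  {W : WeilCohomology.{u, v} ops} {A : 𝒱.Obj} {m : A.prod A ⟶ A} {D : A.Cycles}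

section Der

variable {π : ℕ → (W.H A →ₗ[W.K] W.H A)} (hπ : IsProjs W A π)
include hπ

lemma IsProjs.fst_one' {x : W.H A} (hx : x ∈ W.gr A 1) (z : W.H (A.prod A)) :
    extHom W (π 1) LinearMap.id (W.map (fst A A) x * z) =
      W.map (fst A A) x * extHom W (π 0) LinearMap.id z := by
  refine W.kunneth_induction (p := fun z => extHom W (π 1) LinearMap.id
    (W.map (fst A A) x * z) = W.map (fst A A) x * extHom W (π 0) LinearMap.id z) ?_ ?_ z
  · intro z z' h1 h2
    rw [mul_add, map_add, h1, h2, map_add, mul_add]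
  · intro i j u hu v _
    rw [← mul_assoc, ← map_mul, extHom_tmul, extHom_tmul, ← mul_assoc, ← map_mul]
    have hxu : x * u ∈ W.gr A (i + 1) := by
      rw [add_comm]; exact W.mul_mem hx hu
    by_cases h : i = 0
    · subst h
      rw [hπ.self (i := 1) hxu, hπ.self hu]
    · rw [hπ.ne hxu (by omega), hπ.ne hu (Ne.symm h), mul_zero]

lemma IsProjs.fst_zero' {x : W.H A} (hx : x ∈ W.gr A 1) (z : W.H (A.prod A)) :
    extHom W (π 0) LinearMap.id (W.map (fst A A) x * z) = 0 := by
  refine W.kunneth_induction (p := fun z => extHom W (π 0) LinearMap.id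
    (W.map (fst A A) x * z) = 0) ?_ ?_ z
  · intro z z' h1 h2
    rw [mul_add, map_add, h1, h2, add_zero]
  · intro i j u hu v _
    rw [← mul_assoc, ← map_mul, extHom_tmul, hπ.ne (W.mul_mem hx hu) (by omega), map_zero,
      zero_mul]

lemma IsProjs.snd_id {x : W.H A} (hx : x ∈ W.gr A 1) (a : ℕ) (z : W.H (A.prod A)) :
    extHom W (π a) LinearMap.id (W.map (snd A A) x * z) =
      W.map (snd A A) x * extHom W (π a) LinearMap.id z := by
  refine W.kunneth_induction (p := fun z => extHom W (π a) LinearMap.id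
    (W.map (snd A A) x * z) = W.map (snd A A) x * extHom W (π a) LinearMap.id z) ?_ ?_ z
  · intro z z' h1 h2
    rw [mul_add, map_add, h1, h2, map_add, mul_add]
  · intro i j u hu v _
    rw [snd_fst hx hu, map_smul, extHom_tmul, extHom_tmul, snd_fst hx (hπ.mem hu)]
    rfl

lemma IsProjs.one' : extHom W (π 0) LinearMap.id (1 : W.H (A.prod A)) = 1 := by
  have h1 := extHom_tmul (W := W) (π 0) (LinearMap.id : W.H A →ₗ[W.K] W.H A) (1 : W.H A)
    (1 : W.H A)
  rw [hπ.self (W.one_mem A), LinearMap.id_apply, map_one, map_one, one_mul] at h1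
  exact h1

lemma IsProjs.zero_id (hA : IsAbelianLike W A m) : ∀ i, ∀ y ∈ W.gr A 1 ^ i,
    extHom W (π 0) LinearMap.id (W.map m y) = W.map (snd A A) y := by
  intro i
  induction i with
  | zero =>
    intro y hy
    rw [pow_zero, Submodule.mem_one] at hy
    obtain ⟨c, rfl⟩ := hy
    rw [Algebra.algebraMap_eq_smul_one, map_smul, map_smul, map_one, hπ.one', map_smul, map_one]
  | succ i ih =>
    intro y hy
    rw [pow_succ'] at hy
    refine Submodule.mul_induction_on hy ?_ ?_
    · intro x hx y hy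
      rw [map_mul, hA.add x hx, add_mul, map_add, hπ.fst_zero' hx, zero_add, hπ.snd_id hx,
        ih y hy, map_mul]
    · intro x y hx hy
      rw [map_add, map_add, hx, hy, map_add]

omit hπ in
/-- The antiderivation attached to a functional. -/
noncomputable def dv (W : WeilCohomology.{u, v} ops) (m : A.prod A ⟶ A)
    (π : ℕ → (W.H A →ₗ[W.K] W.H A)) (f : W.H A →ₗ[W.K] W.K) : W.H A →ₗ[W.K] W.H A :=
  sl W f ∘ₗ extHom W (π 1) LinearMap.id ∘ₗ (W.map m).toLinearMap

omit hπ in
lemma dv_apply (f : W.H A →ₗ[W.K] W.K) (z : W.H A) :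
    dv W m π f z = sl W f (extHom W (π 1) LinearMap.id (W.map m z)) := rfl

lemma IsProjs.sl_snd {x : W.H A} (hx : x ∈ W.gr A 1) (f : W.H A →ₗ[W.K] W.K)
    (z : W.H (A.prod A)) :
    sl W f (W.map (snd A A) x * extHom W (π 1) LinearMap.id z) =
      -(x * sl W f (extHom W (π 1) LinearMap.id z)) := by
  refine W.kunneth_induction (p := fun z => sl W f (W.map (snd A A) x *
    extHom W (π 1) LinearMap.id z) = -(x * sl W f (extHom W (π 1) LinearMap.id z))) ?_ ?_ z
  · intro z z' h1 h2
    rw [map_add, mul_add, map_add, h1, h2, map_add, mul_add, neg_add]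
  · intro i j u hu v _
    rw [extHom_tmul, LinearMap.id_apply]
    by_cases h : i = 1
    · subst h
      rw [hπ.self hu, snd_fst hx hu, map_smul, sl_tmul, sl_tmul, pow_one, neg_smul, one_smul,
        mul_smul_comm]
    · rw [hπ.ne hu (Ne.symm h), map_zero, zero_mul, mul_zero, map_zero, mul_zero, neg_zero]

lemma IsProjs.dv_mul (hA : IsAbelianLike W A m) (f : W.H A →ₗ[W.K] W.K) {x : W.H A}
    (hx : x ∈ W.gr A 1) (y : W.H A) :
    dv W m π f (x * y) = f x • y - x * dv W m π f y := by
  refine gr_induction (W.isInternal A) (p := fun y =>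
    dv W m π f (x * y) = f x • y - x * dv W m π f y) ?_ ?_ y
  · intro i y hy
    have h1 := hπ.zero_id hA i y (hA.gen i hy)
    rw [dv_apply, map_mul, hA.add x hx, add_mul, map_add, hπ.fst_one' hx, h1, map_add, sl_tmul,
      hπ.snd_id hx, hπ.sl_snd hx, ← sub_eq_add_neg]
    rfl
  · intro y y' h1 h2
    rw [mul_add, map_add, h1, h2, smul_add, map_add, mul_add]
    abel

lemma IsProjs.dv_one (hA : IsAbelianLike W A m) (f : W.H A →ₗ[W.K] W.K) :
    dv W m π f 1 = 0 := by
  have h1 := extHom_tmul (W := W) (π 1) (LinearMap.id : W.H A →ₗ[W.K] W.H A) (1 : W.H A)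
    (1 : W.H A)
  rw [hπ.ne (W.one_mem A) one_ne_zero, LinearMap.id_apply, map_one, map_one, one_mul, map_zero,
    zero_mul] at h1
  rw [dv_apply, map_one, h1, map_zero]

lemma IsProjs.dv_two (hA : IsAbelianLike W A m) (f : W.H A →ₗ[W.K] W.K) {z : W.H A}
    (hz : z ∈ W.gr A 2) (v : W.H A) :
    dv W m π f (z * v) = dv W m π f z * v + z * dv W m π f v := by
  have h1 := hA.gen 2 hz
  rw [pow_two] at h1
  refine Submodule.mul_induction_on h1 ?_ ?_
  · intro x hx y hy
    have e1 := hπ.dv_mul hA f hy 1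
    rw [mul_one, hπ.dv_one hA, mul_zero, sub_zero] at e1
    rw [mul_assoc, hπ.dv_mul hA f hx, hπ.dv_mul hA f hy, hπ.dv_mul hA f hx, e1, mul_sub,
      sub_mul, smul_mul_assoc, mul_smul_comm, mul_smul_comm, smul_mul_assoc, mul_one,
      mul_assoc]
    abel
  · intro x y hx hy
    rw [add_mul, map_add, hx, hy, map_add, add_mul, add_mul]
    abel

lemma IsProjs.dv_pow (hA : IsAbelianLike W A m) (f : W.H A →ₗ[W.K] W.K) {z : W.H A}
    (hz : z ∈ W.gr A 2) (n : ℕ) :
    dv W m π f (z ^ (n + 1)) = ((n + 1 : ℕ) : W.K) • (z ^ n * dv W m π f z) := by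
  induction n with
  | zero => rw [zero_add, pow_one, pow_zero, one_mul, Nat.cast_one, one_smul]
  | succ n ih =>
    have hc : ∀ y : W.H A, y * z = z * y := fun y => (W.even_comm (p := 1) hz y).symm
    have hc' : ∀ (n : ℕ) (y : W.H A), y * z ^ n = z ^ n * y := by
      intro n
      induction n with
      | zero => intro y; rw [pow_zero, mul_one, one_mul]
      | succ n ih => intro y; rw [pow_succ, ← mul_assoc, ih, mul_assoc, hc, mul_assoc]
    rw [pow_succ' z (n + 1), hπ.dv_two hA f hz, ih, hc' (n + 1), mul_smul_comm, ← mul_assoc,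
      ← pow_succ', Nat.cast_succ (n + 1), add_smul, one_smul, add_comm]

end Der

end Pool.Agent.R908
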