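import Pool.Agent.R908.KoA

/-!
# The inverse of the Lefschetz operator on the first cohomology of an abelian variety (Lieberman)
-/

open CategoryTheory AlgebraicGeometry TensorProduct Polynomial

universe u v w w'

namespace Pool.Agent.R908

open Pool.Agent.H914 Pool.Agent.H914.VarClass Pool.Agent.H914.VarClass.Obj
  Pool.Agent.H914.WeilCohomology Pool.Agent.H281R3.HT

variable {k : Type u} [Field k] {𝒱 : VarClass k} {ops : CycleOps 𝒱}
  {W : WeilCohomology.{u, v} ops} {A : 𝒱.Obj} {m : A.prod A ⟶ A} {D : A.Cycles}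

lemma sl_tr (ζ : W.H A) {j : ℤ} {M : W.H (A.prod A)} (hM : M ∈ spanCycles W (A.prod A) j) :
    W.corr M ζ = sl W (W.tr A ∘ₗ LinearMap.mulLeft W.K ζ) M := by
  have h1 : W.corr M ζ = W.push (snd A A) (W.map (fst A A) ζ * M) := by
    change W.push (snd A A) (M * W.map (fst A A) ζ) = _
    rw [span_comm hM]
  rw [h1]
  refine W.kunneth_induction (p := fun M => W.push (snd A A) (W.map (fst A A) ζ * M) =
    sl W (W.tr A ∘ₗ LinearMap.mulLeft W.K ζ) M) ?_ ?_ M
  · intro z z' h1 h2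
    rw [mul_add, map_add, h1, h2, map_add]
  · intro i j u _ v _
    rw [tr_fst, sl_tmul]
    rfl

lemma gr_pow {ξ : W.H A} (hξ : ξ ∈ W.gr A 2) (n : ℕ) : ξ ^ n ∈ W.gr A (2 * n) := by
  induction n with
  | zero => rw [pow_zero, mul_zero]; exact W.one_mem A
  | succ n ih =>
    rw [pow_succ, show 2 * (n + 1) = 2 * n + 2 by ring]
    exact W.mul_mem ih hξ

lemma pow_comm {ξ : W.H A} (hξ : ξ ∈ W.gr A 2) (n : ℕ) (y : W.H A) : y * ξ ^ n = ξ ^ n * y :=
  (W.even_comm (p := n) (gr_pow hξ n) y).symm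

section Lef

variable {π : ℕ → (W.H A →ₗ[W.K] W.H A)} (hπ : IsProjs W A π)
include hπ

/-- The basic identity. -/
lemma IsProjs.lieberman (hA : IsAbelianLike W A m) (hD : A.IsCyc 1 D)
    (hL : HardLefschetz W A D) {g : ℕ} (hg : A.dim = g + 1) {x : W.H A} (hx : x ∈ W.gr A 1) :
    ((g + 1 : ℕ) : W.K) • dv W m π (W.tr A ∘ₗ LinearMap.mulLeft W.K ((W.cl A D) ^ g * x))
      (W.cl A D) = -(W.tr A ((W.cl A D) ^ (g + 1))) • x := by
  set ξ := W.cl A D with hξd
  have hξ : ξ ∈ W.gr A 2 := W.cl_mem hD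
  set f : W.H A →ₗ[W.K] W.K := W.tr A ∘ₗ LinearMap.mulLeft W.K (ξ ^ g * x) with hf
  have hdv : dv W m π f ξ ∈ W.gr A 1 := by
    have h1 := hA.gen 2 hξ
    rw [pow_two] at h1
    refine Submodule.mul_induction_on h1 ?_ ?_
    · intro y hy z hz
      have e1 := hπ.dv_mul hA f hz 1
      rw [mul_one, hπ.dv_one hA, mul_zero, sub_zero] at e1
      rw [hπ.dv_mul hA f hy, e1, mul_smul_comm, mul_one]
      exact Submodule.sub_mem _ (Submodule.smul_mem _ _ hz) (Submodule.smul_mem _ _ hy)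
    · intro y z hy hz
      rw [map_add]
      exact Submodule.add_mem _ hy hz
  -- the identity paired with an element of degree one
  have key : ∀ y ∈ W.gr A 1, W.tr A (((g + 1 : ℕ) : W.K) • (ξ ^ g * dv W m π f ξ) * y +
      (W.tr A (ξ ^ (g + 1))) • (ξ ^ g * x) * y) = 0 := by
    intro y hy
    have h1 : y * ξ ^ (g + 1) = 0 := by
      have h2 := W.mul_mem hy (gr_pow hξ (g + 1))
      rw [W.gr_eq_bot A _ (by omega), Submodule.mem_bot] at h2
      exact h2
    have h2 := hπ.dv_mul hA f hy (ξ ^ (g + 1))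
    rw [h1, map_zero, hπ.dv_pow hA f hξ] at h2
    have h3 := congrArg (W.tr A) h2
    rw [map_zero, map_sub, map_smul, mul_smul_comm, map_smul] at h3
    have h4 : f y = W.tr A (ξ ^ g * x * y) := rfl
    have h5 : y * (ξ ^ g * dv W m π f ξ) = -(ξ ^ g * dv W m π f ξ * y) := by
      rw [← mul_assoc, pow_comm hξ, mul_assoc, W.comm hy hdv, mul_smul_comm, mul_assoc, mul_one,
        pow_one, neg_smul, one_smul]
    rw [h4, h5, map_neg, smul_eq_mul, smul_eq_mul] at h3
    rw [map_add, smul_mul_assoc, smul_mul_assoc, map_smul, map_smul, smul_eq_mul, smul_eq_mul]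
    linear_combination -h3
  have h6 : ((g + 1 : ℕ) : W.K) • dv W m π f ξ + (W.tr A (ξ ^ (g + 1))) • x = 0 := by
    apply (hL 1 (by omega)).1 _ (Submodule.add_mem _ (Submodule.smul_mem _ _ hdv)
      (Submodule.smul_mem _ _ hx))
    have h7 : ∀ z : W.H A, ((LinearMap.mulLeft W.K (W.cl A D)) ^ (A.dim - 1)) z = ξ ^ g * z := by
      intro z
      have := lefP_eq (W := W) (D := D) (A.dim - 1) z
      rw [show A.dim - 1 = g by omega] at this ⊢
      exact this
    rw [h7]
    apply W.nondeg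
    intro b
    refine gr_induction (W.isInternal A) (p := fun b => W.tr A (ξ ^ g *
      (((g + 1 : ℕ) : W.K) • dv W m π f ξ + (W.tr A (ξ ^ (g + 1))) • x) * b) = 0) ?_ ?_ b
    · intro i b hb
      by_cases hi : i = 1
      · subst hi
        have h8 := key b hb
        rw [← add_mul, ← mul_smul_comm, ← mul_smul_comm, ← mul_add] at h8
        exact h8
      · refine W.tr_eq_zero (W.mul_mem (W.mul_mem (gr_pow hξ g) (Submodule.add_mem _
          (Submodule.smul_mem _ _ hdv) (Submodule.smul_mem _ _ hx))) hb) ?_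
        omega
    · intro b b' h1 h2
      rw [mul_add, map_add, h1, h2, add_zero]
  rw [neg_smul, eq_neg_iff_add_eq_zero]
  exact h6

omit hπ in
/-- The trace of the top power of the divisor is not zero. -/
lemma tr_top_ne (hL : HardLefschetz W A D) (hD : A.IsCyc 1 D) (hne : (1 : W.H A) ≠ 0) :
    W.tr A ((W.cl A D) ^ A.dim) ≠ 0 := by
  intro h0
  apply hne
  apply (hL 0 (Nat.zero_le _)).1 1 (W.one_mem A)
  have h1 := lefP_eq (W := W) (D := D) (A.dim - 0) (1 : W.H A)
  rw [mul_one] at h1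
  have h2 : ((LinearMap.mulLeft W.K (W.cl A D)) ^ (A.dim - 0)) (1 : W.H A) =
    (W.cl A D) ^ A.dim := h1
  rw [h2]
  apply W.nondeg
  intro b
  refine gr_induction (W.isInternal A) (p := fun b => W.tr A ((W.cl A D) ^ A.dim * b) = 0)
    ?_ ?_ b
  · intro i b hb
    by_cases hi : i = 0
    · subst hi
      rw [W.gr_zero A, Submodule.mem_span_singleton] at hb
      obtain ⟨r, rfl⟩ := hb
      rw [mul_smul_comm, mul_one, map_smul, h0, smul_zero]
    · exact W.tr_eq_zero (W.mul_mem (gr_pow (W.cl_mem hD) _) hb) (by omega)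
  · intro x y hx hy
    rw [mul_add, map_add, hx, hy, add_zero]

/-- **The inverse of the Lefschetz operator on the first cohomology is algebraic.** -/
theorem IsProjs.exists_inv (hK : ∀ i, π i ∈ KOp W A A 0) (hA : IsAbelianLike W A m)
    (hD : A.IsCyc 1 D) (hL : HardLefschetz W A D) (hne : (1 : W.H A) ≠ 0) :
    ∃ (δ : ℤ) (θ' : W.H A →ₗ[W.K] W.H A), θ' ∈ KOp W A A δ ∧
      θ' ∘ₗ (lefP W A D (A.dim - 1) ∘ₗ π 1) = π 1 := by
  classical
  by_cases hdim : A.dim = 0
  · refine ⟨0, 0, Submodule.zero_mem _, ?_⟩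
    have h1 : π 1 = 0 := by
      apply gr_ext (W.isInternal A)
      intro i x hx
      by_cases hi : 1 = i
      · subst hi
        rw [W.gr_eq_bot A 1 (by omega), Submodule.mem_bot] at hx
        rw [hx, map_zero, map_zero]
      · rw [hπ.ne hx hi, LinearMap.zero_apply]
    rw [h1, LinearMap.comp_zero, LinearMap.comp_zero]
  obtain ⟨g, hg⟩ : ∃ g, A.dim = g + 1 := ⟨A.dim - 1, by omega⟩
  set ξ := W.cl A D with hξd
  set M : W.H (A.prod A) := extHom W (π 1) LinearMap.id (W.map m ξ) with hM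
  have hMs : ∃ j, M ∈ spanCycles W (A.prod A) j :=
    ⟨_, KOp.map_span (KOp.extHom (hK 1) (KOp.id A)) (span_map m
      (Submodule.subset_span ⟨1, rfl, D, hD, rfl⟩ : ξ ∈ spanCycles W A 1))⟩
  obtain ⟨j, hMj⟩ := hMs
  have htop := tr_top_ne hL hD hne
  rw [hg] at htop
  set c : W.K := -(((g + 1 : ℕ) : W.K) * (W.tr A (ξ ^ (g + 1)))⁻¹) with hc
  have hcorr : W.corr M ∈ KOp W A A (j - A.dim) :=
    mem_KOp_iff.2 ⟨M, by rw [show (A.dim : ℤ) + (j - A.dim) = j by ring]; exact hMj, rfl⟩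
  refine ⟨_, c • W.corr M, Submodule.smul_mem _ _ hcorr, ?_⟩
  apply gr_ext (W.isInternal A)
  intro i x hx
  rw [LinearMap.comp_apply, LinearMap.comp_apply]
  by_cases hi : 1 = i
  · subst hi
    rw [hπ.self hx, LinearMap.smul_apply, sl_tr _ hMj, lefP_eq]
    have h1 := hπ.lieberman hA hD hL hg hx
    rw [show A.dim - 1 = g by omega]
    have h2 : sl W (W.tr A ∘ₗ LinearMap.mulLeft W.K (ξ ^ g * x)) M =
        dv W m π (W.tr A ∘ₗ LinearMap.mulLeft W.K (ξ ^ g * x)) ξ := rfl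
    rw [h2, hc]
    have h3 : ((g + 1 : ℕ) : W.K) ≠ 0 := by exact_mod_cast Nat.succ_ne_zero g
    rw [neg_smul, mul_comm, ← smul_smul, h1, neg_smul, smul_neg, neg_neg, smul_smul,
      inv_mul_cancel₀ htop, one_smul]
  · rw [hπ.ne hx hi, map_zero, map_zero]

end Lef

end Pool.Agent.R908
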