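import Pool.Agent.R908.KnI
import Pool.Agent.R908.MainA

/-!
# The conjectures D and B for products with varieties without isotropic stable subspaces
-/

open CategoryTheory AlgebraicGeometry TensorProduct

universe u v w w'

namespace Pool.Agent.R908

open Pool.Agent.H914 Pool.Agent.H914.VarClass Pool.Agent.H914.VarClass.Obj
  Pool.Agent.H914.WeilCohomology Pool.Agent.H281R3.HT

variable {k : Type u} [Field k] {𝒱 : VarClass k} {ops : CycleOps 𝒱}

variable {W : WeilCohomology.{u, v} ops} {X Y Z : 𝒱.Obj}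

lemma isProductOf_mono {P Q : Set 𝒱.Obj} (h : P ⊆ Q) {Z : 𝒱.Obj} (hZ : IsProductOf P Z) :
    IsProductOf Q Z := by
  induction hZ with
  | base hX => exact IsProductOf.base (h hX)
  | prod _ _ h1 h2 => exact IsProductOf.prod h1 h2

/-- The conjectures D and B for all varieties dominated by products, if D holds for the
products. -/
theorem dominated_of_products {R : Set 𝒱.Obj}
    (key : ∀ Z, IsProductOf R Z → HomEqNum W Z) (Z : 𝒱.Obj) (hZ : IsProductOf R Z) (V : 𝒱.Obj)
    (hV : Dominates W Z V) : HomEqNum W V ∧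
      ∀ D, V.IsCyc 1 D → HardLefschetz W V D → LefschetzB W V D := by
  have key' : ∀ Z, IsProductOf R Z → ∀ V, Dominates W Z V → HomEqNum W V :=
    fun Z hZ V hV => (key Z hZ).image hV
  refine ⟨key' Z hZ V hV, fun D hD hHL => ?_⟩
  have h3 := key' (Z.prod Z) (IsProductOf.prod hZ hZ) (V.prod V) (dominates_prod hV hV)
  apply Pool.Agent.H447.lefschetzB_of_homEqNumIn hD hHL
  intro z hz hnum
  by_cases hd : V.dim + 1 ≤ (V.prod V).dim
  · exact h3 (V.dim + 1) hd z hz hnum
  · have h4 := W.cl_mem hz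
    rw [W.gr_eq_bot _ _ (by omega), Submodule.mem_bot] at h4
    exact h4

/-- **The conjectures D and B for all varieties dominated by products.** -/
theorem anisotropic_iff (𝒢 : Set (Symmetry W)) {P 𝒴 : Set 𝒱.Obj}
    (hs : ∀ X ∈ P, SignAlgebraic W X) (hP : ∀ X ∈ P, Anisotropic 𝒢 X) :
    ((∀ X ∈ P, HomEqNum W X) ∧ ∀ Y, IsProductOf 𝒴 Y → HomEqNum W Y) ↔
      ∀ Z, IsProductOf (P ∪ 𝒴) Z → ∀ V, Dominates W Z V → HomEqNum W V ∧
        ∀ D, V.IsCyc 1 D → HardLefschetz W V D → LefschetzB W V D := by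
  constructor
  · rintro ⟨h1, h2⟩
    exact dominated_of_products (fun Z hZ => homEqNum_of_anisotropic h1 hs hP h2 hZ)
  · intro h
    exact ⟨fun X hX => (h X (IsProductOf.base (Or.inl hX)) X (dominates_refl X)).1,
      fun Y hY => (h Y (isProductOf_mono Set.subset_union_right hY) Y (dominates_refl Y)).1⟩

end Pool.Agent.R908
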