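import Pool.Agent.R908.KoB
import Pool.Agent.R908.AbAnisoDefs
import Pool.Agent.R908.MainK

/-!
# The first cohomology of an abelian variety as a letter
-/

open CategoryTheory AlgebraicGeometry TensorProduct Polynomial

universe u v w w'

namespace Pool.Agent.R908

open Pool.Agent.H914 Pool.Agent.H914.VarClass Pool.Agent.H914.VarClass.Obj
  Pool.Agent.H914.WeilCohomology Pool.Agent.H281R3.HT

variable {k : Type u} [Field k] {𝒱 : VarClass k} {ops : CycleOps 𝒱}
  {W : WeilCohomology.{u, v} ops} {A : 𝒱.Obj} {m : A.prod A ⟶ A} {D : A.Cycles}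
  {𝒢 : Set (Symmetry W)}

section

variable {π : ℕ → (W.H A →ₗ[W.K] W.H A)} (hπ : IsProjs W A π)

lemma IsProjs.idem (hπ : IsProjs W A π) (i : ℕ) : π i ∘ₗ π i = π i := by
  apply gr_ext (W.isInternal A)
  intro j x hx
  rw [LinearMap.comp_apply]
  by_cases h : i = j
  · subst h
    rw [hπ.self hx, hπ.self hx]
  · rw [hπ.ne hx h, map_zero]

/-- The factor of degree `i`. -/
noncomputable def Hi (hπ : IsProjs W A π) (hK : ∀ i, π i ∈ KOp W A A 0) (i : ℕ) : Mot W :=
  ⟨A, π i, hK i, hπ.idem i⟩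

lemma IsProjs.comm (hπ : IsProjs W A π) (S : Symmetry W) (i : ℕ) (a : W.H A) :
    S.σ A (π i a) = π i (S.σ A a) := by
  refine gr_induction (W.isInternal A) (p := fun a => S.σ A (π i a) = π i (S.σ A a)) ?_ ?_ a
  · intro j x hx
    by_cases h : i = j
    · subst h
      rw [hπ.self hx, hπ.self (S.gr.2 hx)]
    · rw [hπ.ne hx h, hπ.ne (S.gr.2 hx) h, map_zero]
  · intro x y hx hy
    rw [map_add, map_add, map_add, map_add, hx, hy]

lemma IsProjs.mem_gr (hπ : IsProjs W A π) (i : ℕ) (x : W.H A) : π i x ∈ W.gr A i := by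
  refine gr_induction (W.isInternal A) (p := fun x => π i x ∈ W.gr A i) ?_ ?_ x
  · intro j x hx
    by_cases hi : i = j
    · subst hi; rw [hπ.self hx]; exact hx
    · rw [hπ.ne hx hi]; exact Submodule.zero_mem _
  · intro x y hx hy
    rw [map_add]
    exact Submodule.add_mem _ hx hy

/-- The form on the first cohomology is alternating. -/
lemma IsProjs.alt (hπ : IsProjs W A π) (hD : A.IsCyc 1 D) (a b : W.H A) :
    W.tr A (a * lefP W A D (A.dim - 1) (π 1 b)) =
      -W.tr A (b * lefP W A D (A.dim - 1) (π 1 a)) := by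
  have hξ : W.cl A D ∈ W.gr A 2 := W.cl_mem hD
  by_cases hdim : A.dim = 0
  · have h1 : ∀ x, π 1 x = 0 := by
      intro x
      have h2 := hπ.mem_gr 1 x
      rw [W.gr_eq_bot A 1 (by omega), Submodule.mem_bot] at h2
      exact h2
    rw [h1, h1, map_zero, mul_zero, mul_zero, map_zero, neg_zero]
  have key : ∀ a b : W.H A, W.tr A (a * lefP W A D (A.dim - 1) (π 1 b)) =
      W.tr A (π 1 a * ((W.cl A D) ^ (A.dim - 1) * π 1 b)) := by
    intro a b
    rw [lefP_eq]
    refine gr_induction (W.isInternal A) (p := fun a =>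
      W.tr A (a * ((W.cl A D) ^ (A.dim - 1) * π 1 b)) =
        W.tr A (π 1 a * ((W.cl A D) ^ (A.dim - 1) * π 1 b))) ?_ ?_ a
    · intro i x hx
      by_cases h : 1 = i
      · subst h
        rw [hπ.self hx]
      · rw [hπ.ne hx h, zero_mul, map_zero]
        exact W.tr_eq_zero (W.mul_mem hx (W.mul_mem (gr_pow hξ _) (hπ.mem_gr 1 b))) (by omega)
    · intro x y hx hy
      rw [add_mul, map_add, map_add, hx, hy, add_mul, map_add]
  rw [key, key]
  have h1 := hπ.mem_gr 1 a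
  have h2 := hπ.mem_gr 1 b
  rw [← mul_assoc, pow_comm hξ, mul_assoc, W.comm h1 h2, mul_smul_comm, ← mul_assoc,
    ← pow_comm hξ, mul_assoc, mul_one, pow_one, neg_smul, one_smul, map_neg]

/-- The first cohomology with its alternating form. -/
lemma exists_selfDual (hA : IsAbelianLike W A m) (hD : A.IsCyc 1 D) (hL : HardLefschetz W A D)
    (hπ : IsProjs W A π) (hK : ∀ i, π i ∈ KOp W A A 0) (hne : (1 : W.H A) ≠ 0) :
    ∃ θ', SelfDual (Hi hπ hK 1) 1 (-1) (lefP W A D (A.dim - 1) ∘ₗ π 1) θ' := by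
  obtain ⟨δ, θ', hθ', hinv⟩ := hπ.exists_inv hK hA hD hL hne
  refine ⟨θ', ⟨_, KOp.comp (lefP_mem hD _) (hK 1)⟩, ⟨δ, hθ'⟩, ?_, ?_, hinv, ?_, by ring⟩
  · intro i a ha hodd
    have h1 : (1 : ℕ) ≠ i := by
      intro h
      subst h
      exact absurd hodd (by decide)
    exact hπ.ne ha h1
  · change (lefP W A D (A.dim - 1) ∘ₗ π 1) ∘ₗ π 1 = _
    rw [LinearMap.comp_assoc, hπ.idem]
    rfl
  · intro (a : W.H A) (b : W.H A)
    have h1 := hπ.alt hD a b
    change W.tr A (a * lefP W A D (A.dim - 1) (π 1 b)) =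
      -1 * W.tr A (b * lefP W A D (A.dim - 1) (π 1 a))
    rw [h1, neg_one_mul]

/-- **The first cohomology is a letter.** -/
lemma Hi_letter (hA : IsAbelianType 𝒢 A m D) (hπ : IsProjs W A π)
    (hK : ∀ i, π i ∈ KOp W A A 0) (hne : (1 : W.H A) ≠ 0) (haniso : AnisotropicOne 𝒢 A) :
    Letter 𝒢 (Hi hπ hK 1) := by
  obtain ⟨θ', hself⟩ := exists_selfDual hA.abelianLike hA.divisor hA.lefschetz hπ hK hne
  refine ⟨1, -1, _, θ', hself, fun S _ => hπ.comm S 1, ?_, ?_⟩
  · intro S hS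
    obtain ⟨c, hc, hcD⟩ := hA.scaled S hS
    have key : ∀ a : W.H A, lefP W A D (A.dim - 1) (π 1 (S.σ A a)) =
        (c ^ (A.dim - 1))⁻¹ • S.σ A (lefP W A D (A.dim - 1) (π 1 a)) := by
      intro a
      rw [lefP_eq, lefP_eq, map_mul, map_pow, hcD, _root_.smul_pow, smul_mul_assoc, smul_smul,
        inv_mul_cancel₀ (pow_ne_zero _ hc), one_smul, hπ.comm]
    exact ⟨(c ^ (A.dim - 1))⁻¹, inv_ne_zero (pow_ne_zero _ hc), key⟩
  intro (U : Submodule W.K (W.H A)) hU hU0 hst' hS'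
  have hst : ∀ (δ : ℤ) (φ : W.H A →ₗ[W.K] W.H A), φ ∈ KOp W A A δ → ∀ x ∈ U, π 1 (φ x) ∈ U :=
    hst'
  have hS : ∀ S ∈ 𝒢, ∀ x ∈ U, S.σ A x ∈ U := hS'
  have hfix : ∀ x ∈ U, π 1 x = x := by
    intro x hx
    obtain ⟨y, hy⟩ := hU hx
    rw [← hy]
    exact congrArg (fun F => F y) (hπ.idem 1)
  have hgr : ∀ x ∈ U, x ∈ W.gr A 1 := by
    intro x hx
    rw [← hfix x hx]
    exact hπ.mem_gr 1 x
  obtain ⟨θ, hθ, x, hx, y, hy, hxy⟩ := haniso U hgr hU0 (by
      rintro e (he | ⟨S, hSS, rfl⟩) x hx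
      · obtain ⟨δ, φ, hφ, he, hδ⟩ := corr_mem_correspondences he
        have hφ0 : φ ∈ KOp W A A 0 := KOp.cast hφ (by omega)
        have h1 : π 1 (φ x) = φ x := by
          rw [hπ.self (Mot.hom_deg0 hφ0 (hgr x hx))]
        rw [← he, ← h1]
        exact hst _ φ hφ x hx
      · exact hS S hSS x hx)
  obtain ⟨p, hp⟩ := Set.mem_iUnion.1 hθ
  obtain ⟨δ, θ₁, hθ₁, he, -⟩ := corr_mem_correspondences hp
  obtain ⟨δ', hδ''⟩ := hself.θ'_mem
  have hδ' : θ' ∈ KOp W A A δ' := hδ''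
  -- the component of `θ y` of complementary degree
  have hdim : 1 ≤ A.dim := by
    by_contra hcon
    have h1 := hgr x hx
    rw [W.gr_eq_bot A 1 (by omega), Submodule.mem_bot] at h1
    apply hxy
    change W.tr A (x * θ y) = 0
    rw [h1, zero_mul, map_zero]
  set z : W.H A := θ₁ y with hz
  obtain ⟨z', hz', hzz⟩ := (hA.lefschetz 1 (by omega)).2 (π (2 * A.dim - 1) z) (hπ.mem_gr _ z)
  have h7 : ∀ z : W.H A, ((LinearMap.mulLeft W.K (W.cl A D)) ^ (A.dim - 1)) z =
      lefP W A D (A.dim - 1) z := fun z => rfl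
  rw [h7] at hzz
  have h8 : θ' (π (2 * A.dim - 1) z) = z' := by
    have h9 := congrArg (fun F => F z') hself.inv
    beta_reduce at h9
    have h10 : θ' (lefP W A D (A.dim - 1) (π 1 z')) = π 1 z' := h9
    rw [hπ.self hz', hzz] at h10
    exact h10
  have h11 : z' ∈ U := by
    have h12 := hst _ _ (KOp.comp hδ' (KOp.comp (hK (2 * A.dim - 1)) hθ₁)) y hy
    have h13 : π 1 (θ' (π (2 * A.dim - 1) z)) ∈ U := h12
    rw [h8, hπ.self hz'] at h13
    exact h13
  refine ⟨x, hx, z', h11, ?_⟩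
  change W.tr A (x * lefP W A D (A.dim - 1) (π 1 z')) ≠ 0
  rw [hπ.self hz', hzz]
  intro h0
  apply hxy
  change W.tr A (x * θ y) = 0
  have h14 : θ y = z := by rw [← he]
  rw [h14]
  have h15 : ∀ z : W.H A, W.tr A (x * z) = W.tr A (x * π (2 * A.dim - 1) z) := by
    intro z
    refine gr_induction (W.isInternal A) (p := fun z =>
      W.tr A (x * z) = W.tr A (x * π (2 * A.dim - 1) z)) ?_ ?_ z
    · intro i z hz
      by_cases h : 2 * A.dim - 1 = i
      · subst h
        rw [hπ.self hz]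
      · rw [hπ.ne hz h, mul_zero, map_zero]
        exact W.tr_eq_zero (W.mul_mem (hgr x hx) hz) (by omega)
    · intro z z' h1 h2
      rw [mul_add, map_add, h1, h2, map_add, mul_add, map_add]
  rw [h15, h0]

end

/-- The identity of the cohomology of `A` factors through words. -/
lemma id_mem_words_ab {𝒴 : Set 𝒱.Obj} (hA : IsAbelianType 𝒢 A m D)
    (haniso : AnisotropicOne 𝒢 A) :
    (LinearMap.id : W.H A →ₗ[W.K] W.H A) ∈ RetOp W (WordCls 𝒢 𝒴) A A := by
  by_cases hone : (1 : W.H A) = 0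
  · have h1 : (LinearMap.id : W.H A →ₗ[W.K] W.H A) = 0 := by
      apply LinearMap.ext
      intro x
      calc (LinearMap.id : W.H A →ₗ[W.K] W.H A) x = 1 * x := by rw [one_mul]; rfl
        _ = 0 := by rw [hone, zero_mul]
    rw [h1]
    exact Submodule.zero_mem _
  obtain ⟨π, hπ, hK⟩ := exists_projs hA.abelianLike
  have htop := tr_top_ne hA.lefschetz hA.divisor hone
  have hc0 : (W.cl A D) ^ A.dim ∈ spanCycles W A A.dim := by
    have h2 := KOp.map_span (lefP_mem (W := W) hA.divisor A.dim) (x := (1 : W.H A)) (j := 0)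
      (Submodule.subset_span ⟨0, rfl, A.V.fundCycle, A.V.fundCycle_mem, (W.cl_fund A)⟩)
    rw [zero_add, lefP_eq, mul_one] at h2
    exact h2
  refine id_mem_retOp hA.abelianLike hπ hK WordCls.tensor ?_ ?_
  · refine RetOp.self (B := Hi hπ hK 0) (WordCls.alg ?_ (fun S _ => hπ.comm S 0))
    refine ⟨1, fun _ => (W.tr A ((W.cl A D) ^ A.dim))⁻¹ • (W.cl A D) ^ A.dim, fun _ => 1,
      fun _ => A.dim, fun _ => Submodule.smul_mem _ _ hc0, fun x => ?_⟩
    rw [Finset.univ_unique, Finset.sum_singleton]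
    refine projs_zero_alg hπ (Submodule.smul_mem _ _ hc0) ?_ x
    rw [map_smul, smul_eq_mul, inv_mul_cancel₀ htop]
  · exact RetOp.self (B := Hi hπ hK 1) (WordCls.letter (Hi_letter hA hπ hK hone haniso))

/-- **The conjecture D for products with abelian varieties without isotropic stable subspaces.** -/
theorem homEqNum_of_anisotropicOne {P 𝒴 : Set 𝒱.Obj}
    (hP : ∀ A ∈ P, ∃ m D, IsAbelianType 𝒢 A m D) (ha : ∀ A ∈ P, AnisotropicOne 𝒢 A)
    (h𝒴 : ∀ Y, IsProductOf 𝒴 Y → HomEqNum W Y) {Z : 𝒱.Obj} (hZ : IsProductOf (P ∪ 𝒴) Z) :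
    HomEqNum W Z := by
  by_cases hone : (1 : W.H Z) = 0
  · intro j _ z _ _
    calc W.cl Z z = 1 * W.cl Z z := by rw [one_mul]
      _ = 0 := by rw [hone, zero_mul]
  · refine homEqNum_words (𝒢 := 𝒢) h𝒴 (fun X hX => ?_) ?_ hZ
    · obtain ⟨m, D, hX'⟩ := hP X hX
      exact id_mem_words_ab hX' (ha X hX)
    obtain ⟨X, hX, h1⟩ := one_ne_of_prod hZ hone
    have hfund : (1 : W.H X) ∈ spanCycles W X 0 :=
      Submodule.subset_span ⟨0, rfl, X.V.fundCycle, X.V.fundCycle_mem, W.cl_fund X⟩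
    rcases hX with hX | hX
    · obtain ⟨m, D, hA⟩ := hP X hX
      obtain ⟨π, hπ, hK⟩ := exists_projs hA.abelianLike
      have htop := tr_top_ne hA.lefschetz hA.divisor h1
      have hc0 : (W.cl X D) ^ X.dim ∈ spanCycles W X X.dim := by
        have h2 := KOp.map_span (lefP_mem (W := W) hA.divisor X.dim) (x := (1 : W.H X)) (j := 0)
          (Submodule.subset_span ⟨0, rfl, X.V.fundCycle, X.V.fundCycle_mem, (W.cl_fund X)⟩)
        rw [zero_add, lefP_eq, mul_one] at h2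
        exact h2
      refine ⟨Hi hπ hK 0, ⟨[Hi hπ hK 0], ?_, 1, Or.inl rfl, ?_⟩, 0, 1, hfund, ?_⟩
      · intro B hB
        rw [List.mem_singleton] at hB
        rw [hB]
        refine ⟨⟨1, fun _ => (W.tr X ((W.cl X D) ^ X.dim))⁻¹ • (W.cl X D) ^ X.dim, fun _ => 1,
          fun _ => X.dim, fun _ => Submodule.smul_mem _ _ hc0, fun x => ?_⟩,
          fun S _ => hπ.comm S 0⟩
        rw [Finset.univ_unique, Finset.sum_singleton]
        refine projs_zero_alg hπ (Submodule.smul_mem _ _ hc0) ?_ x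
        rw [map_smul, smul_eq_mul, inv_mul_cancel₀ htop]
      · rw [List.map_singleton, List.prod_singleton, mul_one]
      · change π 0 (1 : W.H X) ≠ 0
        rw [hπ.self (W.one_mem X)]
        exact h1
    · refine ⟨whole W X, ⟨[], fun B hB => absurd hB List.not_mem_nil, _,
        Or.inr ⟨X, IsProductOf.base hX, rfl⟩, ?_⟩, 0, 1, hfund, ?_⟩
      · rw [List.map_nil, List.prod_nil, one_mul]
      · exact h1

/-- **The conjectures D and B for all varieties dominated by products.** -/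
theorem anisotropicOne_iff (𝒢 : Set (Symmetry W)) {P 𝒴 : Set 𝒱.Obj}
    (hP : ∀ A ∈ P, ∃ m D, IsAbelianType 𝒢 A m D) (ha : ∀ A ∈ P, AnisotropicOne 𝒢 A) :
    (∀ Y, IsProductOf 𝒴 Y → HomEqNum W Y) ↔
      ∀ Z, IsProductOf (P ∪ 𝒴) Z → ∀ V, Dominates W Z V → HomEqNum W V ∧
        ∀ D, V.IsCyc 1 D → HardLefschetz W V D → LefschetzB W V D := by
  constructor
  · intro h2
    exact dominated_of_products (fun Z hZ => homEqNum_of_anisotropicOne hP ha h2 hZ)
  · intro h Y hY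
    exact (h Y (isProductOf_mono Set.subset_union_right hY) Y (dominates_refl Y)).1

end Pool.Agent.R908
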