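import Pool.Agent.R908.KmM

/-!
# The canonical weights of the blocks
-/

namespace Pool.Agent.R908.Km

open Finset Function

section Up

variable {Ω : Type*} [Field Ω] {ι : Type*} [Fintype ι] [DecidableEq ι] {a : ℕ}

lemma good.up' {Z : Set ((Fin a ⊕ Fin a → ι) → Ω)} {k k' q q' : Matrix ι ι Ω} {w v : ι → ℝ}
    {γ : ℝ} (h : good Z k k' w γ) (hq : UP v w q) (hq' : UP w v q') :
    good Z (q * k) (k' * q') v γ := by
  intro z hz I hI
  rw [← act_mm q q' k k', act] at hI
  obtain ⟨J, -, hJ⟩ := Finset.exists_ne_zero_of_sum_ne_zero hI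
  refine (h z hz J (right_ne_zero_of_mul hJ)).trans ?_
  have h1 := left_ne_zero_of_mul hJ
  rw [Finset.prod_ne_zero_iff] at h1
  have h2 : ∑ s, w (J (Sum.inl s)) ≤ ∑ s, v (I (Sum.inl s)) :=
    Finset.sum_le_sum fun s _ => hq _ _ (h1 (Sum.inl s) (Finset.mem_univ _))
  have h3 : ∑ s, v (I (Sum.inr s)) ≤ ∑ s, w (J (Sum.inr s)) :=
    Finset.sum_le_sum fun s _ => hq' _ _ (h1 (Sum.inr s) (Finset.mem_univ _))
  unfold wt
  linarith

end Up

variable {K : Type*} [Field K] {ι : Type*} [Fintype ι] [DecidableEq ι] {a : ℕ}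

section Opt

variable {N : Submodule K ((Fin a ⊕ Fin a → ι) → K)}
  {k k' : Matrix ι ι (AlgebraicClosure K)} {w : ι → ℝ} {γ : ℝ}

lemma opt_gl (hopt : Opt (upS N) k k' w γ) {u u' : Matrix ι ι K} (hu : u * u' = 1)
    (hN : ∀ z ∈ N, act (mm u u') z ∈ N) {t : ℝ} {x : ι → AlgebraicClosure K}
    (hx : Fl k w t x) : Fl k w t ((upm u).mulVec x) := by
  rw [← Fl_mul]
  exact (opt_unique hopt (hopt.stab hu hN) t _).1 hx

lemma opt_slot [CharZero K] (hopt : Opt (upS N) k k' w γ) {u : Matrix ι ι K}
    (hl : ∀ s, SlotSt N (Sum.inl s) u) (hr : ∀ s, SlotSt N (Sum.inr s) u.transpose) {t : ℝ}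
    {x : ι → AlgebraicClosure K} (hx : Fl k w t x) : Fl k w t ((upm u).mulVec x) := by
  obtain ⟨c, hc⟩ : ∃ c : K, u.charpoly.eval c ≠ 0 := by
    by_contra hcon
    push Not at hcon
    apply u.charpoly_monic.ne_zero
    apply Polynomial.funext
    intro r
    rw [hcon, Polynomial.eval_zero]
  rw [Matrix.eval_charpoly] at hc
  set P : Matrix ι ι K := Matrix.scalar ι c - u with hP
  have hP' : P = c • (1 : Matrix ι ι K) + (-1 : K) • u := by
    rw [hP, neg_smul, one_smul, ← sub_eq_add_neg]
    congr 1
    ext i j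
    by_cases h : i = j
    · subst h
      simp
    · simp [h]
  have hunit : IsUnit P.det := isUnit_iff_ne_zero.2 hc
  have hPP : P * P⁻¹ = 1 := Matrix.mul_nonsing_inv P hunit
  have hPP' : P⁻¹ * P = 1 := Matrix.nonsing_inv_mul P hunit
  have hl' : ∀ s, SlotSt N (Sum.inl s) P := by
    intro s
    rw [hP']
    exact SlotSt.lin SlotSt.one (hl s) c (-1)
  have hr' : ∀ s, SlotSt N (Sum.inr s) P.transpose := by
    intro s
    rw [hP', Matrix.transpose_add, Matrix.transpose_smul, Matrix.transpose_smul,
      Matrix.transpose_one]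
    exact SlotSt.lin SlotSt.one (hr s) c (-1)
  have hst : ∀ z ∈ N, act (mm P P⁻¹) z ∈ N := by
    intro z hz
    apply act_mem_of_slots _ hz
    rintro (s | s)
    · exact hl' s
    · have h4 : P.transpose * (P⁻¹).transpose = 1 := by
        rw [← Matrix.transpose_mul, hPP', Matrix.transpose_one]
      exact SlotSt.inv (hr' s) h4
  have h4 := opt_gl hopt hPP hst hx
  have h5 : (upm u).mulVec x = (algebraMap K (AlgebraicClosure K) c) • x +
      (-1 : AlgebraicClosure K) • (upm P).mulVec x := by
    have h6 : upm P = (algebraMap K (AlgebraicClosure K) c) •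
        (1 : Matrix ι ι (AlgebraicClosure K)) + (-1 : AlgebraicClosure K) • upm u := by
      rw [hP']
      ext i j
      simp only [Matrix.map_apply, Matrix.add_apply, Matrix.smul_apply, smul_eq_mul, map_add,
        map_mul, map_neg, map_one]
      by_cases h : i = j
      · subst h
        simp
      · simp [h]
    rw [h6, Matrix.add_mulVec, Matrix.smul_mulVec, Matrix.one_mulVec, Matrix.smul_mulVec,
      smul_add, smul_smul, smul_smul, neg_one_mul, neg_one_mul, neg_neg, one_smul, neg_smul,
      ← add_assoc, add_neg_cancel, zero_add]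
  rw [h5]
  exact Fl_add (Fl_smul _ hx) (Fl_smul _ h4)

end Opt

/-- The projector to a block. -/
def bl {Λ : Type*} [DecidableEq Λ] (β : ι → Λ) (l : Λ) : Matrix ι ι K :=
  Matrix.diagonal fun i => if β i = l then 1 else 0

lemma bl_transpose {Λ : Type*} [DecidableEq Λ] (β : ι → Λ) (l : Λ) :
    (bl β l : Matrix ι ι K).transpose = bl β l := Matrix.diagonal_transpose _

lemma bl_mulVec {Λ : Type*} [DecidableEq Λ] (β : ι → Λ) (l : Λ)
    (x : ι → AlgebraicClosure K) (i : ι) :
    (upm (bl β l : Matrix ι ι K)).mulVec x i = if β i = l then x i else 0 := by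
  have h1 : upm (bl β l : Matrix ι ι K) =
      Matrix.diagonal (fun i => if β i = l then (1 : AlgebraicClosure K) else 0) := by
    ext i j
    change algebraMap K (AlgebraicClosure K) ((bl β l : Matrix ι ι K) i j) = _
    rw [bl]
    by_cases h : i = j
    · subst h
      rw [Matrix.diagonal_apply_eq, Matrix.diagonal_apply_eq]
      split_ifs
      · exact map_one _
      · exact map_zero _
    · rw [Matrix.diagonal_apply_ne _ h, Matrix.diagonal_apply_ne _ h, map_zero]
  rw [h1, Matrix.mulVec_diagonal]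
  split_ifs
  · rw [one_mul]
  · rw [zero_mul]

/-- **The canonical weights of the blocks.** -/
theorem exists_weights [CharZero K] (T : TIdeal K ι) {C D : Matrix ι ι K} {ε : K}
    (hε : ε ≠ 0) (hCD : C * D = ε • (1 : Matrix ι ι K)) {a : ℕ}
    (hN : ∀ z ∈ T.N a, exch (act (mm C D) z) ∈ T.N a) (hne : ∃ z ∈ T.N a, z ≠ 0)
    {Λ : Type*} [DecidableEq Λ] (β : ι → Λ) (bar : Λ → Λ)
    (hbar : ∀ i j, C i j ≠ 0 → β j = bar (β i) ∧ β i = bar (β j))
    (hproj : ∀ l s, SlotSt (T.N a) s (bl β l))
    (hirr : ∀ V : Submodule K (ι → K),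
      (∀ u u' : Matrix ι ι K, u * u' = 1 → (∀ z ∈ T.N a, act (mm u u') z ∈ T.N a) →
        ∀ x ∈ V, u.mulVec x ∈ V) →
      (∀ u : Matrix ι ι K, (∀ s, SlotSt (T.N a) (Sum.inl s) u) →
        (∀ s, SlotSt (T.N a) (Sum.inr s) u.transpose) → ∀ x ∈ V, u.mulVec x ∈ V) →
      ∀ i, (∃ x ∈ V, x ≠ 0 ∧ ∀ j, x j ≠ 0 → β j = β i) → Pi.single i 1 ∈ V) :
    ∃ (v : Λ → ℝ) (γ : ℝ), 0 < γ ∧ (∀ i, v (bar (β i)) = -v (β i)) ∧
      ∀ z ∈ T.N a, ∀ I, z I ≠ 0 → γ ≤ wt (fun i => v (β i)) I := by
  classical
  have hι : Nonempty ι := by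
    by_contra hcon
    rw [not_nonempty_iff] at hcon
    obtain ⟨z, hz, hz0⟩ := hne
    cases a with
    | zero =>
      rw [T.zero, Submodule.mem_bot] at hz
      exact hz0 hz
    | succ a =>
      apply hz0
      funext I
      exact (hcon.false (I (Sum.inl 0))).elim
  obtain ⟨k₀, k₀', w₀, hk₀, h₀⟩ := T.hilbert_mumford a
  obtain ⟨k, k', w, γ, hopt⟩ := exists_opt (Z := upS (T.N a))
    (by
      obtain ⟨z, hz, hz0⟩ := hne
      refine ⟨up z, ⟨z, hz, rfl⟩, fun h => hz0 ?_⟩
      funext I
      have h1 := congrFun h I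
      exact (map_eq_zero (algebraMap K (AlgebraicClosure K))).1 h1)
    ⟨k₀, k₀', w₀, hk₀, by
      rintro _ ⟨z, hz, rfl⟩ I hI
      exact h₀ z hz I hI⟩
  have hdual := hopt.dual hε hCD hN
  have hk2 : k' * k = 1 := mul_eq_one_comm.1 hopt.1
  -- the filtration over the ground field
  set V : ℝ → Submodule K (ι → K) := fun t =>
    { carrier := {x | Fl k w t (fun i => algebraMap K (AlgebraicClosure K) (x i))}
      add_mem' := by
        intro x y hx hy
        have h1 := Fl_add hx hy
        have h2 : (fun i => algebraMap K (AlgebraicClosure K) ((x + y) i)) =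
            (fun i => algebraMap K (AlgebraicClosure K) (x i)) +
              fun i => algebraMap K (AlgebraicClosure K) (y i) := by
          funext i
          simp
        change Fl k w t _
        rw [h2]
        exact h1
      zero_mem' := by
        intro i hi
        apply absurd _ hi
        have h2 : (fun i => algebraMap K (AlgebraicClosure K) ((0 : ι → K) i)) = 0 := by
          funext i
          simp
        rw [h2, Matrix.mulVec_zero]
        rfl
      smul_mem' := by
        intro c x hx
        have h1 := Fl_smul (algebraMap K (AlgebraicClosure K) c) hx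
        have h2 : (fun i => algebraMap K (AlgebraicClosure K) ((c • x) i)) =
            (algebraMap K (AlgebraicClosure K) c) •
              fun i => algebraMap K (AlgebraicClosure K) (x i) := by
          funext i
          simp
        change Fl k w t _
        rw [h2]
        exact h1 } with hV
  have hmem : ∀ t x, x ∈ V t ↔ Fl k w t (fun i => algebraMap K (AlgebraicClosure K) (x i)) :=
    fun t x => Iff.rfl
  have hupm : ∀ (u : Matrix ι ι K) (x : ι → K),
      (fun i => algebraMap K (AlgebraicClosure K) (u.mulVec x i)) =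
        (upm u).mulVec (fun i => algebraMap K (AlgebraicClosure K) (x i)) := by
    intro u x
    funext i
    simp [Matrix.mulVec, dotProduct]
  have hirr' : ∀ t i, (∃ x ∈ V t, x ≠ 0 ∧ ∀ j, x j ≠ 0 → β j = β i) → Pi.single i 1 ∈ V t := by
    intro t
    refine hirr (V t) ?_ ?_
    · intro u u' hu hst x hx
      rw [hmem, hupm]
      exact opt_gl hopt hu hst hx
    · intro u hl hr x hx
      rw [hmem, hupm]
      exact opt_slot hopt hl hr hx
  -- the weights
  have hcol : ∀ i, (Finset.univ.filter fun j => k j i ≠ 0).Nonempty := by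
    intro i
    by_contra hcon
    rw [Finset.not_nonempty_iff_eq_empty, Finset.filter_eq_empty_iff] at hcon
    have h1 := congrFun (congrFun hk2 i) i
    rw [Matrix.mul_apply, Matrix.one_apply_eq, Finset.sum_eq_zero] at h1
    · exact zero_ne_one h1
    · intro j hj
      have h2 := hcon hj
      rw [not_not] at h2
      rw [h2, mul_zero]
  set vi : ι → ℝ := fun i => (Finset.univ.filter fun j => k j i ≠ 0).inf' (hcol i) w with hvi
  have hvi1 : ∀ i j, k j i ≠ 0 → vi i ≤ w j := by
    intro i j h
    exact Finset.inf'_le w (Finset.mem_filter.2 ⟨Finset.mem_univ _, h⟩)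
  have hsing : ∀ i, (fun j => algebraMap K (AlgebraicClosure K) ((Pi.single i 1 : ι → K) j)) =
      Pi.single i 1 := by
    intro i
    funext j
    by_cases h : j = i
    · subst h
      rw [Pi.single_eq_same, Pi.single_eq_same, map_one]
    · rw [Pi.single_eq_of_ne h, Pi.single_eq_of_ne h, map_zero]
  have hFls : ∀ t i, Fl k w t (Pi.single i 1) ↔ t ≤ vi i := by
    intro t i
    have h1 : ∀ j, k.mulVec (Pi.single i 1) j = k j i := by
      intro j
      rw [Matrix.mulVec_single, MulOpposite.op_one, one_smul]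
      rfl
    rw [hvi]
    beta_reduce
    rw [Finset.le_inf'_iff]
    constructor
    · intro h j hj
      apply h j
      rw [h1]
      exact (Finset.mem_filter.1 hj).2
    · intro h j hj
      rw [h1] at hj
      exact h j (Finset.mem_filter.2 ⟨Finset.mem_univ _, hj⟩)
  have hVs : ∀ t i, (Pi.single i 1 : ι → K) ∈ V t ↔ t ≤ vi i := by
    intro t i
    rw [hmem, hsing, hFls]
  have hconst : ∀ i i', β i = β i' → vi i = vi i' := by
    have key : ∀ i i', β i = β i' → vi i ≤ vi i' := by
      intro i i' hii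
      rw [← hVs]
      refine hirr' _ _ ⟨Pi.single i 1, (hVs _ _).2 le_rfl, ?_, ?_⟩
      · intro h
        have h1 := congrFun h i
        rw [Pi.single_eq_same] at h1
        exact one_ne_zero h1
      · intro j hj
        by_cases h : j = i
        · rw [h, hii]
        · rw [Pi.single_eq_of_ne h] at hj
          exact absurd rfl hj
    intro i i' h
    exact le_antisymm (key i i' h) (key i' i h.symm)
  have hsupp : ∀ (t : ℝ) (x : ι → AlgebraicClosure K), Fl k w t x → ∀ i, x i ≠ 0 →
      t ≤ vi i := by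
    intro t x hx i hi
    obtain ⟨x₀, hx₀, h1, h2⟩ := exists_rational
      (F := fun y => Fl k w t y ∧ ∀ j, y j ≠ 0 → β j = β i)
      (fun x y hx hy => ⟨Fl_add hx.1 hy.1, fun j hj => by
        by_cases h : x j = 0
        · rw [Pi.add_apply, h, zero_add] at hj
          exact hy.2 j hj
        · exact hx.2 j h⟩)
      (fun c x hx => ⟨Fl_smul c hx.1, fun j hj => by
        rw [Pi.smul_apply, smul_eq_mul] at hj
        exact hx.2 j (right_ne_zero_of_mul hj)⟩)
      (fun σ x hx => ⟨(opt_unique hopt (hopt.galois σ) t _).2 ((Fl_map σ).2 hx.1),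
        fun j hj => hx.2 j (fun h => hj (by
          change σ (x j) = 0
          rw [h, map_zero]))⟩)
      ⟨(upm (bl β (β i) : Matrix ι ι K)).mulVec x,
        ⟨opt_slot hopt (fun s => hproj _ _) (fun s => by
          rw [bl_transpose]; exact hproj _ _) hx, fun j hj => by
          rw [bl_mulVec] at hj
          by_contra h
          rw [if_neg h] at hj
          exact hj rfl⟩, fun h => by
          have h3 := congrFun h i
          rw [bl_mulVec, if_pos rfl] at h3
          exact hi h3⟩
    rw [← hVs]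
    exact hirr' t i ⟨x₀, h1, hx₀, fun j hj => h2 j (fun h => hj (by
      rwa [map_eq_zero] at h))⟩
  -- positivity
  have hk'v : ∀ i j, k' i j ≠ 0 → w j ≤ vi i := by
    intro i j hij
    have h1 : ∀ i, k'.mulVec (Pi.single j 1) i = k' i j := by
      intro i
      rw [Matrix.mulVec_single, MulOpposite.op_one, one_smul]
      rfl
    refine hsupp (w j) (k'.mulVec (Pi.single j 1)) ?_ i (by rw [h1]; exact hij)
    intro l hl
    rw [Matrix.mulVec_mulVec, hopt.1, Matrix.one_mulVec] at hl
    by_cases h : l = j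
    · rw [h]
    · rw [Pi.single_eq_of_ne h] at hl
      exact absurd rfl hl
  have hgood : good (upS (T.N a)) 1 1 vi γ := by
    have h1 := hopt.2.2.1.up' (q := k') (q' := k) (v := vi) hk'v (fun j i h => hvi1 i j h)
    rw [hk2] at h1
    exact h1
  have hpos : ∀ z ∈ T.N a, ∀ I, z I ≠ 0 → γ ≤ wt vi I := by
    intro z hz I hI
    apply hgood (up z) ⟨z, hz, rfl⟩ I
    rw [act_mm_one]
    exact fun h => hI ((map_eq_zero (algebraMap K (AlgebraicClosure K))).1 h)
  -- duality
  have hdu : ∀ i j, C i j ≠ 0 → vi j = -vi i := by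
    intro i j hij
    have hcolj : ∀ l, (k'.transpose * upm C).mulVec (Pi.single j 1) l =
        ∑ r, k' r l * algebraMap K (AlgebraicClosure K) (C r j) := by
      intro l
      rw [Matrix.mulVec_single, MulOpposite.op_one, one_smul]
      rfl
    apply le_antisymm
    · -- isotropy
      have h1 : Fl k w (vi i) (Pi.single i 1) := (hFls _ _).2 le_rfl
      have h2 : Fl (k'.transpose * upm C) (-w) (vi j) (Pi.single j 1) :=
        (opt_unique hopt hdual _ _).1 ((hFls _ _).2 le_rfl)
      have h4 : k.mulVec (Pi.single i 1) ⬝ᵥ (k'.transpose * upm C).mulVec (Pi.single j 1) =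
          algebraMap K (AlgebraicClosure K) (C i j) := by
        rw [← Matrix.mulVec_mulVec, Matrix.dotProduct_mulVec, Matrix.vecMul_transpose,
          Matrix.mulVec_mulVec, hk2, Matrix.one_mulVec, Matrix.mulVec_single,
          MulOpposite.op_one, one_smul, single_one_dotProduct]
        rfl
      have h5 : k.mulVec (Pi.single i 1) ⬝ᵥ (k'.transpose * upm C).mulVec (Pi.single j 1) ≠ 0 := by
        rw [h4]
        exact fun h => hij ((map_eq_zero (algebraMap K (AlgebraicClosure K))).1 h)
      rw [dotProduct] at h5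
      obtain ⟨l, -, hl⟩ := Finset.exists_ne_zero_of_sum_ne_zero h5
      have h6 := h1 l (left_ne_zero_of_mul hl)
      have h7 := h2 l (right_ne_zero_of_mul hl)
      rw [Pi.neg_apply] at h7
      linarith
    · rw [← hFls]
      rw [opt_unique hopt hdual]
      intro l hl
      rw [hcolj] at hl
      obtain ⟨r, -, hr⟩ := Finset.exists_ne_zero_of_sum_ne_zero hl
      have h1 := hk'v r l (left_ne_zero_of_mul hr)
      have h2 : C r j ≠ 0 := by
        intro h
        apply right_ne_zero_of_mul hr
        rw [h, map_zero]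
      have h3 : vi r = vi i := hconst r i (by rw [(hbar r j h2).2, (hbar i j hij).2])
      rw [Pi.neg_apply]
      linarith
  set v : Λ → ℝ := fun l => if h : ∃ i, β i = l then vi h.choose else 0 with hv
  have hvβ : ∀ i, v (β i) = vi i := by
    intro i
    have h : ∃ j, β j = β i := ⟨i, rfl⟩
    rw [hv]
    beta_reduce
    rw [dif_pos h]
    exact hconst _ _ h.choose_spec
  refine ⟨v, γ, hopt.2.2.2.1, ?_, ?_⟩
  · intro i
    obtain ⟨j, hj⟩ : ∃ j, C i j ≠ 0 := by
      by_contra hcon
      push Not at hcon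
      have h1 := congrFun (congrFun hCD i) i
      rw [Matrix.mul_apply, Matrix.smul_apply, Matrix.one_apply_eq, smul_eq_mul, mul_one,
        Finset.sum_eq_zero (fun j _ => by rw [hcon, zero_mul])] at h1
      exact hε h1.symm
    rw [← (hbar i j hj).1, hvβ, hvβ]
    exact hdu i j hj
  · intro z hz I hI
    have h1 : (fun i => v (β i)) = vi := funext hvβ
    rw [h1]
    exact hpos z hz I hI

end Pool.Agent.R908.Km
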