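import Pool.Agent.R908.KmQ
import Pool.Agent.R908.KpA

/-!
# The canonical weights of the blocks of a family of forms
-/

namespace Pool.Agent.R908.Km

open Finset Function

variable {K : Type*} [Field K] {V : Type*} [AddCommGroup V] [Module K V] {ι : Type*}
  [Fintype ι] [DecidableEq ι]

namespace FIdeal

variable {ψ : V →ₗ[K] V →ₗ[K] K} {b c : ι → V} {𝓕 : FIdeal ψ b c} {ε : K}

/-- The linear combinations of the basis. -/
noncomputable def LL (K : Type*) [Field K] {V : Type*} [AddCommGroup V] [Module K V] {ι : Type*}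
    [Fintype ι] (b : ι → V) : (ι → K) →ₗ[K] V := Fintype.linearCombination K b

lemma LL_apply (x : ι → K) : LL K b x = ∑ i, x i • b i :=
  Fintype.linearCombination_apply K b x

lemma c_LL (h : DualPair ψ b c ε) (x : ι → K) (i : ι) : ψ (c i) (LL K b x) = x i := by
  rw [LL_apply, map_sum, Finset.sum_eq_single i]
  · rw [map_smul, h.delta, if_pos rfl, smul_eq_mul, mul_one]
  · intro j _ hj
    rw [map_smul, h.delta, if_neg (Ne.symm hj), smul_zero]
  · intro h0
    exact absurd (Finset.mem_univ _) h0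

lemma LL_u (h : DualPair ψ b c ε) (u : V →ₗ[K] V) (x : ι → K) :
    u (LL K b x) = LL K b ((mt ψ b c u).mulVec x) := by
  rw [LL_apply, LL_apply, map_sum]
  have e1 : ∀ j, u (x j • b j) = ∑ i, (x j * mt ψ b c u i j) • b i := by
    intro j
    rw [map_smul]
    conv_lhs => rw [h.exp_b (u (b j))]
    rw [Finset.smul_sum]
    refine Finset.sum_congr rfl fun i _ => ?_
    rw [smul_smul]
    rfl
  rw [Finset.sum_congr rfl fun j _ => e1 j, Finset.sum_comm]
  refine Finset.sum_congr rfl fun i _ => ?_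
  rw [Matrix.mulVec, dotProduct, ← Finset.sum_smul]
  congr 1
  refine Finset.sum_congr rfl fun j _ => ?_
  rw [mul_comm]

/-- Stability of the image of a stable subspace. -/
lemma stable_map [CharZero K] (𝓕 : FIdeal ψ b c) (h : DualPair ψ b c ε) {m : ℕ}
    (V' : Submodule K (ι → K))
    (hVgl : ∀ u u' : Matrix ι ι K, u * u' = 1 →
      (∀ z ∈ (𝓕.toT h).N m, act (mm u u') z ∈ (𝓕.toT h).N m) → ∀ x ∈ V', u.mulVec x ∈ V')
    (hVst : ∀ u : Matrix ι ι K, (∀ s, SlotSt ((𝓕.toT h).N m) (Sum.inl s) u) →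
        (∀ s, SlotSt ((𝓕.toT h).N m) (Sum.inr s) u.transpose) → ∀ x ∈ V', u.mulVec x ∈ V') :
    (∀ u u' : V →ₗ[K] V, (∀ x y, ψ (u x) y = ψ x (u' y)) → 𝓕.VarSt u → 𝓕.VarSt u' →
        ∀ x ∈ V'.map (LL K b), u x ∈ V'.map (LL K b)) ∧
      (∀ (σ : V →ₗ[K] V) (χ : K), χ ≠ 0 → (∀ x y, ψ (σ x) (σ y) = χ * ψ x y) →
        (∀ (m : ℕ) (f : (Fin m → V) → K), f ∈ 𝓕.F m → (fun v => f (σ ∘ v)) ∈ 𝓕.F m) →
        ∀ x ∈ V'.map (LL K b), σ x ∈ V'.map (LL K b)) := by
  classical
  constructor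
  · rintro u u' hadj hu hu' _ ⟨x, hx, rfl⟩
    rw [LL_u h]
    refine ⟨_, hVst (mt ψ b c u) ?_ ?_ x hx, rfl⟩
    · intro s
      refine hu'.slot (Sum.inl s) (fun p => ?_)
      change u' (c p) = ∑ q, mt ψ b c u p q • c q
      conv_lhs => rw [h.exp_c (u' (c p))]
      refine Finset.sum_congr rfl fun q _ => ?_
      rw [h.symm (u' (c p)) (b q), ← hadj, h.symm (u (b q)) (c p), ← mul_assoc, h.sq, one_mul]
      rfl
    · intro s
      refine hu.slot (Sum.inr s) (fun p => ?_)
      change u (b p) = ∑ q, mt ψ b c u q p • b q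
      exact h.exp_b (u (b p))
  · rintro σ χ hχ hσ hst _ ⟨x, hx, rfl⟩
    set P : Matrix ι ι K := mt ψ b c σ with hP
    set P'' : Matrix ι ι K := fun p q => ψ (σ (c p)) (b q) with hP''
    have hPP : P'' * (χ⁻¹ • P) = 1 := by
      ext p r
      rw [Matrix.mul_smul, Matrix.smul_apply, Matrix.mul_apply, smul_eq_mul]
      have e1 : ∑ q, P'' p q * P q r = ψ (σ (c p)) (σ (b r)) := by
        conv_rhs => rw [h.exp_b (σ (b r))]
        rw [map_sum]
        refine Finset.sum_congr rfl fun q _ => ?_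
        rw [map_smul, smul_eq_mul, mul_comm]
        rfl
      rw [e1, hσ, ← mul_assoc, inv_mul_cancel₀ hχ, one_mul, h.delta, Matrix.one_apply]
    have hstab : ∀ z ∈ (𝓕.toT h).N m, act (mm P'' (χ⁻¹ • P)) z ∈ (𝓕.toT h).N m := by
      rintro z ⟨g, hg, rfl⟩
      have e1 : act (mm P'' (χ⁻¹ • P)) (crd b c m g) =
          (χ⁻¹) ^ m • crd b c m (fun v => g (σ ∘ v)) := by
        funext I
        rw [act_smul_right, Pi.smul_apply, smul_eq_mul, crd_apply]
        congr 1
        rw [act]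
        rw [crd_subst b c (𝓕.FF_multi hg) _ (fun s q => mm P'' P s (I s) q)]
        intro s
        rcases s with s | s
        · change σ (c (I (Sum.inl s))) = ∑ q, ψ (σ (c (I (Sum.inl s)))) (b q) • c q
          exact h.exp_c _
        · change σ (b (I (Sum.inr s))) = ∑ q, ψ (c q) (σ (b (I (Sum.inr s)))) • b q
          exact h.exp_b _
      rw [e1]
      refine Submodule.smul_mem _ _ ⟨_, ?_, rfl⟩
      intro n e
      exact hst n _ (hg n e)
    have hV1 := hVgl P'' (χ⁻¹ • P) hPP hstab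
    have hinj : Function.Injective (P''.mulVecLin.restrict hV1) := by
      intro y y' hyy
      have e1 : P''.mulVec y.1 = P''.mulVec y'.1 := congrArg Subtype.val hyy
      have e2 := congrArg (χ⁻¹ • P).mulVec e1
      rw [Matrix.mulVec_mulVec, Matrix.mulVec_mulVec, mul_eq_one_comm.1 hPP, Matrix.one_mulVec,
        Matrix.one_mulVec] at e2
      exact Subtype.ext e2
    obtain ⟨y, hy⟩ := LinearMap.injective_iff_surjective.1 hinj ⟨x, hx⟩
    have e1 : P''.mulVec y.1 = x := congrArg Subtype.val hy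
    have e2 : P.mulVec x = χ • y.1 := by
      have e3 := congrArg (χ⁻¹ • P).mulVec e1
      rw [Matrix.mulVec_mulVec, mul_eq_one_comm.1 hPP, Matrix.one_mulVec,
        Matrix.smul_mulVec] at e3
      rw [e3, smul_smul, mul_inv_cancel₀ hχ, one_smul]
    rw [LL_u h]
    refine ⟨_, ?_, rfl⟩
    change P.mulVec x ∈ V'
    rw [e2]
    exact V'.smul_mem _ y.2

/-- **The canonical weights of the blocks.** -/
theorem exists_wts [CharZero K] (𝓕 : FIdeal ψ b c) (h : DualPair ψ b c ε) {m : ℕ}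
    {f₀ : (Fin m → V) → K} (hf₀ : f₀ ∈ 𝓕.F m) (h0 : f₀ ≠ 0)
    {Λ : Type*} [DecidableEq Λ] (β : ι → Λ) (bar : Λ → Λ) (P : Λ → (V →ₗ[K] V))
    (hPb : ∀ l i, P l (b i) = if β i = l then b i else 0)
    (hPadj : ∀ l x y, ψ (P l x) y = ψ x (P (bar l) y)) (hbb : ∀ l, bar (bar l) = l)
    (hPst : ∀ l, 𝓕.VarSt (P l))
    (hirr : ∀ U : Submodule K V,
      (∀ u u' : V →ₗ[K] V, (∀ x y, ψ (u x) y = ψ x (u' y)) → 𝓕.VarSt u → 𝓕.VarSt u' →
        ∀ x ∈ U, u x ∈ U) →
      (∀ (σ : V →ₗ[K] V) (χ : K), χ ≠ 0 → (∀ x y, ψ (σ x) (σ y) = χ * ψ x y) →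
        (∀ (m : ℕ) (f : (Fin m → V) → K), f ∈ 𝓕.F m → (fun v => f (σ ∘ v)) ∈ 𝓕.F m) →
        ∀ x ∈ U, σ x ∈ U) →
      ∀ l, (∃ x ∈ U, x ≠ 0 ∧ P l x = x) → ∀ y, P l y = y → y ∈ U) :
    ∃ v : Λ → ℝ, (∀ i, v (bar (β i)) = -v (β i)) ∧
      ∀ f ∈ 𝓕.F m, ∀ (x : Fin m → V) (l : Fin m → Λ), (∀ s, P (l s) (x s) = x s) → f x ≠ 0 →
        ∑ s, v (l s) < 0 := by
  classical
  have hPc : ∀ l i, P (bar l) (c i) = if β i = l then c i else 0 := by
    intro l i
    rw [h.exp_c (P (bar l) (c i))]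
    have e1 : ∀ j, ψ (P (bar l) (c i)) (b j) = if β j = l then (if i = j then 1 else 0) else 0 := by
      intro j
      rw [hPadj, hbb, hPb]
      split_ifs with h1 h2 h2
      · rw [h.delta, if_pos h2]
      · rw [h.delta, if_neg h2]
      · rw [map_zero]
    rw [Finset.sum_congr rfl fun j _ => by rw [e1 j], Finset.sum_eq_single i]
    · rw [if_pos rfl]
      split_ifs
      · rw [one_smul]
      · rw [zero_smul]
    · intro j _ hj
      rw [if_neg (Ne.symm hj), ite_self, zero_smul]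
    · intro h0
      exact absurd (Finset.mem_univ _) h0
  have hbar : ∀ i j, gram ψ b i j ≠ 0 → β j = bar (β i) ∧ β i = bar (β j) := by
    intro i j hij
    have e1 : ψ (b i) (b j) = ψ (b i) (P (bar (β i)) (b j)) := by
      rw [← hPadj, hPb, if_pos rfl]
    have e2 : β j = bar (β i) := by
      by_contra hcon
      apply hij
      change ψ (b i) (b j) = 0
      rw [e1, hPb, if_neg hcon, map_zero]
    exact ⟨e2, by rw [e2, hbb]⟩
  -- the square of the form
  have hsq : ∀ f ∈ 𝓕.F m, (fun v : Fin m ⊕ Fin m → V => f (fun s => v (Sum.inl s)) *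
      f (fun s => v (Sum.inr s))) ∈ 𝓕.FF (Fin m ⊕ Fin m) := by
    intro f hf
    have hfF : f ∈ 𝓕.FF (Fin m) := (𝓕.mem_FF (Equiv.refl _)).2 hf
    exact 𝓕.FF_mul hfF hfF
  obtain ⟨w, hw⟩ := Function.ne_iff.1 h0
  have hne : ∃ z ∈ (𝓕.toT h).N m, z ≠ 0 := by
    refine ⟨_, ⟨_, hsq _ hf₀, rfl⟩, fun hz => ?_⟩
    have h1 := h.crd_inj (𝓕.FF_multi (hsq _ hf₀)) hz
    have h2 := congrFun h1 (fun s => Sum.elim w w s)
    exact (mul_ne_zero hw hw) h2
  obtain ⟨v, γ, hγ, hv1, hv2⟩ := exists_weights (𝓕.toT h) (C := gram ψ b)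
    (D := gram ψ c) h.ne_zero h.gram_mul (a := m) (by
      rintro z ⟨g, hg, rfl⟩
      rw [exch_mem h (𝓕.FF_multi hg)]
      exact ⟨_, 𝓕.FF_reindex (Equiv.sumComm (Fin m) (Fin m)) hg, rfl⟩) hne β bar hbar
    (by
      intro l s
      rcases s with s | s
      · refine (hPst (bar l)).slot (Sum.inl s) (fun p => ?_)
        change P (bar l) (c p) = ∑ q, (bl β l : Matrix ι ι K) p q • c q
        rw [hPc, Finset.sum_eq_single p, bl, Matrix.diagonal_apply_eq]
        · split_ifs
          · rw [one_smul]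
          · rw [zero_smul]
        · intro q _ hq
          rw [bl, Matrix.diagonal_apply_ne _ (Ne.symm hq), zero_smul]
        · intro h0
          exact absurd (Finset.mem_univ _) h0
      · refine (hPst l).slot (Sum.inr s) (fun p => ?_)
        change P l (b p) = ∑ q, (bl β l : Matrix ι ι K) p q • b q
        rw [hPb, Finset.sum_eq_single p, bl, Matrix.diagonal_apply_eq]
        · split_ifs
          · rw [one_smul]
          · rw [zero_smul]
        · intro q _ hq
          rw [bl, Matrix.diagonal_apply_ne _ (Ne.symm hq), zero_smul]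
        · intro h0
          exact absurd (Finset.mem_univ _) h0)
    (by
      rintro V' hVgl hVst i ⟨x, hx, hx0, hxs⟩
      obtain ⟨h1, h2⟩ := stable_map 𝓕 h V' hVgl hVst
      have h3 := hirr (V'.map (LL K b)) h1 h2 (β i) ⟨LL K b x, ⟨x, hx, rfl⟩, ?_, ?_⟩ (b i)
        (by rw [hPb, if_pos rfl])
      · obtain ⟨y, hy, hyb⟩ := h3
        have h4 : y = Pi.single i 1 := by
          funext j
          rw [← c_LL h y j, hyb, h.delta]
          by_cases hij : j = i
          · subst hij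
            rw [if_pos rfl, Pi.single_eq_same]
          · rw [if_neg hij, Pi.single_eq_of_ne hij]
        rw [← h4]
        exact hy
      · intro h4
        apply hx0
        funext j
        rw [← c_LL h x j, h4, map_zero]
        rfl
      · rw [LL_apply, map_sum]
        refine Finset.sum_congr rfl fun j _ => ?_
        rw [map_smul, hPb]
        by_cases hj : x j = 0
        · rw [hj, zero_smul, zero_smul]
        · rw [if_pos (hxs j hj)])
  refine ⟨v, hv1, ?_⟩
  intro f hf x l hx hfx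
  have e1 := crd_subst b c (𝓕.FF_multi (hsq _ hf)) (Sum.elim x x)
    (fun s q => if s.isLeft then ψ (Sum.elim x x s) (b q) else ψ (c q) (Sum.elim x x s)) (by
      intro s
      by_cases hs : s.isLeft
      · simp only [if_pos hs]
        exact h.exp_c _
      · simp only [if_neg hs]
        exact h.exp_b _)
  have e2 : f x * f x ≠ 0 := mul_ne_zero hfx hfx
  have e3 : f x * f x = ∑ J : Fin m ⊕ Fin m → ι,
      (∏ s, (if s.isLeft then ψ (Sum.elim x x s) (b (J s)) else ψ (c (J s)) (Sum.elim x x s))) *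
        crd b c m (fun v : Fin m ⊕ Fin m → V => f (fun s => v (Sum.inl s)) *
      f (fun s => v (Sum.inr s))) J := e1
  rw [e3] at e2
  obtain ⟨J, -, hJ⟩ := Finset.exists_ne_zero_of_sum_ne_zero e2
  have h1 := left_ne_zero_of_mul hJ
  rw [Finset.prod_ne_zero_iff] at h1
  have h2 : ∀ s, β (J (Sum.inr s)) = l s := by
    intro s
    have h3 : ψ (c (J (Sum.inr s))) (x s) ≠ 0 := h1 (Sum.inr s) (Finset.mem_univ _)
    by_contra hcon
    apply h3
    have h4 : ψ (c (J (Sum.inr s))) (P (l s) (x s)) = ψ (P (bar (l s)) (c (J (Sum.inr s)))) (x s) := by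
      rw [hPadj, hbb]
    rw [← hx s, h4, hPc, if_neg hcon, map_zero, LinearMap.zero_apply]
  have h3 : ∀ s, β (J (Sum.inl s)) = bar (l s) := by
    intro s
    have h3 : ψ (x s) (b (J (Sum.inl s))) ≠ 0 := h1 (Sum.inl s) (Finset.mem_univ _)
    by_contra hcon
    apply h3
    rw [← hx s, hPadj, hPb, if_neg hcon, map_zero]
  have h4 := hv2 _ ⟨_, hsq _ hf, rfl⟩ J (right_ne_zero_of_mul hJ)
  have h5 : ∀ s, v (bar (l s)) = -v (l s) := by
    intro s
    rw [← h2 s]
    exact hv1 _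
  have h6 : wt (fun i => v (β i)) J = -2 * ∑ s, v (l s) := by
    have e : wt (fun i => v (β i)) J =
        ∑ s, v (β (J (Sum.inl s))) - ∑ s, v (β (J (Sum.inr s))) := rfl
    rw [e, Finset.sum_congr rfl (fun s _ => show v (β (J (Sum.inl s))) = -v (l s) by
        rw [h3 s, h5 s]),
      Finset.sum_congr rfl (fun s _ => show v (β (J (Sum.inr s))) = v (l s) by rw [h2 s]),
      Finset.sum_neg_distrib]
    ring
  rw [h6] at h4
  linarith

end FIdeal

end Pool.Agent.R908.Km
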