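import Pool.Agent.R908.KnH
import Pool.Agent.R908.KpB

/-!
# The canonical weights of the blocks of a self-dual direct factor
-/

open CategoryTheory AlgebraicGeometry TensorProduct Function

universe u v w w'

namespace Pool.Agent.R908

open Pool.Agent.H914 Pool.Agent.H914.VarClass Pool.Agent.H914.VarClass.Obj
  Pool.Agent.H914.WeilCohomology Km

variable {k : Type u} [Field k] {𝒱 : VarClass k} {ops : CycleOps 𝒱}
  {W : WeilCohomology.{u, v} ops} {X Y Z X' Y' Z' : 𝒱.Obj}

/-- Orthogonal idempotents cutting a self-dual direct factor in blocks. -/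
structure Blocks (A : Mot W) (θ : W.H A.X →ₗ[W.K] W.H A.X) {Λ : Type w} (S : Finset Λ)
    (bar : Λ → Λ) (p : Λ → (W.H A.X →ₗ[W.K] W.H A.X)) : Prop where
  mem : ∀ l, ∃ δ, p l ∈ KOp W A.X A.X δ
  e_p : ∀ l, A.e ∘ₗ p l = p l
  p_e : ∀ l, p l ∘ₗ A.e = p l
  idem : ∀ l, p l ∘ₗ p l = p l
  ortho : ∀ l l', l ≠ l' → p l ∘ₗ p l' = 0
  sum : ∑ l ∈ S, p l = A.e
  bb : ∀ l, bar (bar l) = l
  adj : ∀ l x y, psi A θ (p l x) y = psi A θ x (p (bar l) y)

section Blk

variable {A : Mot W} {w : ℕ} {ε : W.K} {θ θ' : W.H A.X →ₗ[W.K] W.H A.X} {Q : Mot W → Prop}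
  {Λ : Type w} {S : Finset Λ} {bar : Λ → Λ} {p : Λ → (W.H A.X →ₗ[W.K] W.H A.X)}

/-- Dual bases of a given basis. -/
lemma SelfDual.exists_dual_of (h : SelfDual A w ε θ θ') {n : ℕ}
    (b : Module.Basis (Fin n) W.K (TT A)) :
    ∃ c : Fin n → TT A, DualPair (psiT A θ) (fun i => b i) c ε := by
  choose c hc using fun i => h.psiT_surj (b.coord i)
  have hdelta : ∀ i j, psiT A θ (c i) (b j) = if i = j then 1 else 0 := by
    intro i j
    rw [hc, Module.Basis.coord_apply, Module.Basis.repr_self, Finsupp.single_apply]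
    by_cases hij : i = j
    · rw [if_pos hij, if_pos hij.symm]
    · rw [if_neg hij, if_neg (Ne.symm hij)]
  refine ⟨c, hdelta, ?_, ?_, ?_, h.sq⟩
  · intro x
    conv_lhs => rw [← b.sum_repr x]
    refine Finset.sum_congr rfl fun i _ => ?_
    rw [hc]
    rfl
  · intro x
    rw [← sub_eq_zero]
    apply h.psiT_inj
    have h1 : psiT A θ (x - ∑ i, psiT A θ x (b i) • c i) = 0 := by
      apply b.ext
      intro j
      rw [map_sub, LinearMap.sub_apply, map_sum, LinearMap.sum_apply, LinearMap.zero_apply,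
        Finset.sum_eq_single j, map_smul, LinearMap.smul_apply, hdelta, if_pos rfl, smul_eq_mul,
        mul_one, sub_self]
      · intro i _ hi
        rw [map_smul, LinearMap.smul_apply, hdelta, if_neg hi, smul_zero]
      · intro h0
        exact absurd (Finset.mem_univ _) h0
    intro y
    rw [h1, LinearMap.zero_apply]
  · intro x y
    exact h.psi_symm x y

lemma Blocks.range_le (hb : Blocks A θ S bar p) (l : Λ) {x : W.H A.X}
    (hx : x ∈ LinearMap.range (p l)) : x ∈ TT A ∧ p l x = x := by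
  obtain ⟨y, rfl⟩ := hx
  exact ⟨⟨p l y, congrArg (fun F => F y) (hb.e_p l)⟩, congrArg (fun F => F y) (hb.idem l)⟩

/-- A basis adapted to the blocks. -/
lemma Blocks.exists_basis (hb : Blocks A θ S bar p) :
    ∃ (n : ℕ) (b : Module.Basis (Fin n) W.K (TT A)) (β : Fin n → Λ),
      ∀ i, p (β i) (b i) = b i := by
  classical
  have hp : ∀ l x, p l x ∈ TT A := fun l x => ⟨p l x, congrArg (fun F => F x) (hb.e_p l)⟩
  set ι := Σ l : S, Fin (Module.finrank W.K (LinearMap.range (p (l : Λ)))) with hι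
  set b₀ : ι → TT A := fun i =>
    ⟨(Module.finBasis W.K (LinearMap.range (p (i.1 : Λ))) i.2 : W.H A.X),
      (hb.range_le i.1 (Submodule.coe_mem _)).1⟩ with hb₀
  have hb1 : ∀ i : ι, p i.1 (b₀ i) = b₀ i := fun i =>
    (hb.range_le i.1 (Submodule.coe_mem _)).2
  have hb2 : ∀ (i : ι) (l : Λ), p l (b₀ i) = if (i.1 : Λ) = l then (b₀ i : W.H A.X) else 0 := by
    intro i l
    by_cases hl : (i.1 : Λ) = l
    · rw [if_pos hl, ← hl, hb1]
    · rw [if_neg hl, ← hb1 i]
      exact congrArg (fun F => F (b₀ i : W.H A.X)) (hb.ortho l i.1 (Ne.symm hl))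
  have hli : LinearIndependent W.K b₀ := by
    rw [Fintype.linearIndependent_iff]
    rintro a ha ⟨l, j⟩
    have h1 : ∑ j, a ⟨l, j⟩ • Module.finBasis W.K (LinearMap.range (p (l : Λ))) j = 0 := by
      apply Subtype.ext
      have h2 := congrArg (fun x : TT A => p l (x : W.H A.X)) ha
      beta_reduce at h2
      rw [AddSubmonoidClass.coe_finset_sum, map_sum, Fintype.sum_sigma] at h2
      rw [Finset.sum_eq_single l] at h2
      · rw [AddSubmonoidClass.coe_finset_sum]
        have h3 : p l ((0 : TT A) : W.H A.X) = 0 := map_zero _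
        rw [h3] at h2
        rw [Submodule.coe_zero, ← h2]
        refine Finset.sum_congr rfl fun j _ => ?_
        rw [Submodule.coe_smul, Submodule.coe_smul, map_smul, hb1 ⟨l, j⟩]
      · intro l' _ hl'
        refine Finset.sum_eq_zero fun j _ => ?_
        rw [Submodule.coe_smul, map_smul, hb2, if_neg (fun h => hl' (Subtype.ext h)), smul_zero]
      · intro h0
        exact absurd (Finset.mem_univ _) h0
    exact Fintype.linearIndependent_iff.1
      (Module.finBasis W.K (LinearMap.range (p (l : Λ)))).linearIndependent _ h1 j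
  have hsp : ⊤ ≤ Submodule.span W.K (Set.range b₀) := by
    intro x _
    have h1 : x = ∑ l ∈ S, (⟨p l x, hp l x⟩ : TT A) := by
      apply Subtype.ext
      rw [AddSubmonoidClass.coe_finset_sum]
      have h2 := congrArg (fun F => F (x : W.H A.X)) hb.sum
      beta_reduce at h2
      rw [LinearMap.sum_apply, TT_e] at h2
      exact h2.symm
    rw [h1]
    refine Submodule.sum_mem _ fun l hl => ?_
    have h3 : p l x ∈ LinearMap.range (p l) := ⟨x, rfl⟩
    have h4 : (⟨p l x, hp l x⟩ : TT A) =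
        ∑ j, (Module.finBasis W.K (LinearMap.range (p l))).repr ⟨_, h3⟩ j •
          b₀ ⟨⟨l, hl⟩, j⟩ := by
      have h5 := congrArg Subtype.val
        ((Module.finBasis W.K (LinearMap.range (p l))).sum_repr ⟨_, h3⟩)
      rw [AddSubmonoidClass.coe_finset_sum] at h5
      apply Subtype.ext
      rw [AddSubmonoidClass.coe_finset_sum]
      exact h5.symm
    rw [h4]
    exact Submodule.sum_mem _ fun j _ => Submodule.smul_mem _ _
      (Submodule.subset_span ⟨_, rfl⟩)
  set e := Fintype.equivFin ι with he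
  set b := (Module.Basis.mk hli hsp).reindex e with hbb
  refine ⟨Fintype.card ι, b, fun i => (e.symm i).1, fun i => ?_⟩
  have h1 : b i = b₀ (e.symm i) := by
    rw [hbb, Module.Basis.reindex_apply, Module.Basis.mk_apply]
  rw [h1]
  exact hb1 _

lemma rest_block (hb : Blocks A θ S bar p) (l : Λ) (x : TT A) :
    ((rest A (p l) x : TT A) : W.H A.X) = p l x := by
  rw [rest_apply]
  exact congrArg (fun F => F (x : W.H A.X)) (hb.e_p l)

/-- **The canonical weights of the blocks.** -/
theorem Blocks.exists_wts (h : SelfDual A w ε θ θ') (hb : Blocks A θ S bar p)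
    (hQt : ∀ B B', Q B → Q B' → Q (B.tensor B'))
    (hQ : ∀ B, Q B → B.Num) (𝒢 : Set (Symmetry W)) (hAS : ∀ S ∈ 𝒢, Comm S A)
    (hθS : ∀ S ∈ 𝒢, SimTheta S θ) (hQS : ∀ S ∈ 𝒢, ∀ B, Q B → Comm S B)
    (hirr : ∀ U : Submodule W.K (W.H A.X), U ≤ LinearMap.range A.e →
      (∀ (δ : ℤ) (φ : W.H A.X →ₗ[W.K] W.H A.X), φ ∈ KOp W A.X A.X δ → ∀ x ∈ U, A.e (φ x) ∈ U) →
      (∀ S ∈ 𝒢, ∀ x ∈ U, S.σ A.X x ∈ U) → ∀ l, (∃ x ∈ U, x ≠ 0 ∧ p l x = x) →
        ∀ y, p l y = y → y ∈ U)
    {m : ℕ} {F₀ : (Fin m → TT A) → W.K} (hF₀ : F₀ ∈ FA A θ Q m) (hne : F₀ ≠ 0) :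
    ∃ v : Λ → ℝ, (∀ l, p l ≠ 0 → v (bar l) = -v l) ∧ ∀ F ∈ FA A θ Q m,
      ∀ (x : Fin m → TT A) (l : Fin m → Λ), (∀ s, p (l s) (x s) = x s) → F x ≠ 0 →
        ∑ s, v (l s) < 0 := by
  classical
  obtain ⟨n, b, β, hβ⟩ := hb.exists_basis
  obtain ⟨c, hbc⟩ := h.exists_dual_of b
  have hPb : ∀ l i, rest A (p l) (b i) = if β i = l then b i else 0 := by
    intro l i
    apply Subtype.ext
    rw [rest_block hb]
    by_cases hl : β i = l
    · rw [if_pos hl, ← hl, hβ]
    · rw [if_neg hl, ← hβ i]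
      exact congrArg (fun F => F (b i : W.H A.X)) (hb.ortho l (β i) (Ne.symm hl))
  obtain ⟨v, hv1, hv2⟩ := (fId h hQt hQ hbc).exists_wts hbc hF₀ hne β bar
    (fun l => rest A (p l)) hPb
    (by
      intro l x y
      rw [psiT_apply, psiT_apply, rest_block hb, rest_block hb, hb.adj])
    hb.bb
    (by
      intro l m f hf s
      obtain ⟨δ, hδ⟩ := hb.mem l
      exact FA_subst h hδ s hf)
    (by
      intro U hU1 hU2 l hl y hy
      have h1 := hirr (U.map (TT A).subtype) (by
          rintro _ ⟨x, -, rfl⟩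
          exact x.2) (by
          rintro δ φ hφ _ ⟨x, hx, rfl⟩
          obtain ⟨δ', Φ, hΦ, hadj⟩ := h.exists_adj hφ
          refine ⟨rest A φ x, hU1 (rest A φ) (rest A Φ) ?_ ?_ ?_ x hx, rfl⟩
          · intro x y
            rw [psiT_apply, psiT_apply, rest_apply, rest_apply, h.psi_e_left, h.psi_e, ← hadj,
              TT_e]
          · intro m f hf s
            exact FA_subst h hφ s hf
          · intro m f hf s
            exact FA_subst h hΦ s hf) (by
          rintro S hS _ ⟨x, hx, rfl⟩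
          obtain ⟨c, hc, h1⟩ := psi_sym (A := A) (hθS S hS)
          refine ⟨restS A S x, hU2 (restS A S) c hc ?_ ?_ x hx, restS_apply (hAS S hS) x⟩
          · intro x y
            rw [psiT_apply, psiT_apply, restS_apply (hAS S hS), restS_apply (hAS S hS), h1]
          · intro m f hf
            exact FA_sym h (hAS S hS) (hθS S hS) (hQS S hS) hf) l (by
          obtain ⟨x, hx, hx0, hxl⟩ := hl
          refine ⟨x, ⟨x, hx, rfl⟩, fun h0 => hx0 (Subtype.ext h0), ?_⟩
          have h2 := congrArg Subtype.val hxl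
          rwa [rest_block hb] at h2) y (by
          have h2 := congrArg Subtype.val hy
          rwa [rest_block hb] at h2)
      obtain ⟨y', hy', h3⟩ := h1
      have h4 : y' = y := Subtype.ext h3
      rwa [h4] at hy')
  refine ⟨v, ?_, ?_⟩
  · intro l hl
    obtain ⟨i, hi⟩ : ∃ i, β i = l := by
      by_contra hcon
      push Not at hcon
      apply hl
      have h1 : rest A (p l) = 0 := by
        apply b.ext
        intro i
        rw [hPb, if_neg (hcon i), LinearMap.zero_apply]
      apply LinearMap.ext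
      intro y
      have h2 := congrArg (fun F : TT A →ₗ[W.K] TT A =>
        ((F ⟨A.e y, y, rfl⟩ : TT A) : W.H A.X)) h1
      beta_reduce at h2
      rw [rest_block hb] at h2
      rw [← hb.p_e]
      exact h2
    rw [← hi]
    exact hv1 i
  · intro F hF x l hx hFx
    exact hv2 F hF x l (fun s => Subtype.ext (by rw [rest_block hb]; exact hx s)) hFx

end Blk

end Pool.Agent.R908
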