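import Pool.Agent.R908.RatE
import Pool.Agent.R908.KnD
import Pool.Agent.R908.ConjDefs

/-!
# Conjugation of combinations of classes of cycles with algebraic coefficients
-/

open CategoryTheory AlgebraicGeometry TensorProduct Polynomial

universe u v w w'

namespace Pool.Agent.R908

open Pool.Agent.H914 Pool.Agent.H914.VarClass Pool.Agent.H914.VarClass.Obj
  Pool.Agent.H914.WeilCohomology Pool.Agent.H281R3.HT

variable {k : Type u} [Field k] {𝒱 : VarClass k} {ops : CycleOps 𝒱}
  {W : WeilCohomology.{u, v} ops} {X Y Z X' Y' : 𝒱.Obj}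

lemma CConj.unique {L : Type*} [Field L] [CharZero L] {ι : algebraicClosure ℚ L →ₐ[ℚ] ℂ}
    {c c' c'' : L} (h : CConj ι c c') (h' : CConj ι c c'') : c' = c'' := by
  obtain ⟨x, y, hx, rfl, hxy⟩ := h
  obtain ⟨x', y', hx', rfl, hxy'⟩ := h'
  have h1 : x = x' := Subtype.ext (hx.trans hx'.symm)
  have h2 : ι y = ι y' := by rw [hxy, hxy', h1]
  exact congrArg _ (ι.injective h2)

/-- The complex conjugate of a root of `P`, when it is given by the polynomial `Q`. -/
lemma cConj_of_poly {L : Type*} [Field L] [CharZero L] {ι : algebraicClosure ℚ L →ₐ[ℚ] ℂ}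
    {P Q : ℚ[X]} (hP : P ≠ 0) (hQ : ∀ z : ℂ, Polynomial.aeval z P = 0 →
      Polynomial.aeval z Q = starRingEnd ℂ z) {b : L} (hb : Polynomial.aeval b P = 0) :
    CConj ι b (Polynomial.aeval b Q) := by
  have hal : IsAlgebraic ℚ b := ⟨P, hP, hb⟩
  obtain ⟨x, rfl⟩ : ∃ x : algebraicClosure ℚ L, (x : L) = b :=
    ⟨⟨b, mem_algebraicClosure_iff.2 hal⟩, rfl⟩
  have h0 : ∀ R : ℚ[X], (((Polynomial.aeval x R : algebraicClosure ℚ L)) : L) =
      Polynomial.aeval (x : L) R := fun R =>
    (Polynomial.aeval_algebraMap_apply L x R).symm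
  have h1 : Polynomial.aeval x P = 0 := by
    have h2 := h0 P
    rw [hb] at h2
    exact Subtype.ext h2
  have h3 : Polynomial.aeval (ι x) P = 0 := by
    rw [Polynomial.aeval_algHom_apply, h1, map_zero]
  refine ⟨x, Polynomial.aeval x Q, rfl, h0 Q, ?_⟩
  rw [← hQ _ h3, Polynomial.aeval_algHom_apply]

/-- The two operators are combinations of the same correspondences with rational coefficients,
with conjugate coefficients. -/
def PairK (W : WeilCohomology.{u, v} ops) (ι : algebraicClosure ℚ W.K →ₐ[ℚ] ℂ) (X : 𝒱.Obj)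
    (E E' : W.H X →ₗ[W.K] W.H X) : Prop :=
  ∃ (κ : Type) (_ : Fintype κ) (c c' : κ → W.K) (ρ : κ → (W.H X →ₗ[W.K] W.H X)),
    (∀ i, CConj ι (c i) (c' i)) ∧ (∀ i, ρ i ∈ RatOp W X X) ∧
    E = ∑ i, c i • ρ i ∧ E' = ∑ i, c' i • ρ i

variable {ι : algebraicClosure ℚ W.K →ₐ[ℚ] ℂ}

lemma PairK.smul {c c' : W.K} (hc : CConj ι c c') {E : W.H X →ₗ[W.K] W.H X}
    (h : E ∈ RatOp W X X) : PairK W ι X (c • E) (c' • E) := by
  refine ⟨Unit, inferInstance, fun _ => c, fun _ => c', fun _ => E, fun _ => hc, fun _ => h,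
    ?_, ?_⟩
  · rw [Finset.univ_unique, Finset.sum_singleton]
  · rw [Finset.univ_unique, Finset.sum_singleton]

lemma PairK.rat {E : W.H X →ₗ[W.K] W.H X} (h : E ∈ RatOp W X X) : PairK W ι X E E := by
  have h1 := PairK.smul (ι := ι) CConj.one h
  rwa [one_smul] at h1

lemma PairK.add {E E' F F' : W.H X →ₗ[W.K] W.H X} (h : PairK W ι X E E')
    (h' : PairK W ι X F F') : PairK W ι X (E + F) (E' + F') := by
  obtain ⟨κ, _, c, c', ρ, h1, h2, rfl, rfl⟩ := h
  obtain ⟨κ', _, d, d', τ, h1', h2', rfl, rfl⟩ := h'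
  refine ⟨κ ⊕ κ', inferInstance, Sum.elim c d, Sum.elim c' d', Sum.elim ρ τ, ?_, ?_, ?_, ?_⟩
  · rintro (i | i)
    · exact h1 i
    · exact h1' i
  · rintro (i | i)
    · exact h2 i
    · exact h2' i
  · rw [Fintype.sum_sum_type]
    rfl
  · rw [Fintype.sum_sum_type]
    rfl

lemma PairK.zero : PairK W ι X 0 0 := PairK.rat RatOp.zero

lemma PairK.sum {κ : Type*} (s : Finset κ) {E E' : κ → (W.H X →ₗ[W.K] W.H X)}
    (h : ∀ i ∈ s, PairK W ι X (E i) (E' i)) : PairK W ι X (∑ i ∈ s, E i) (∑ i ∈ s, E' i) := by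
  classical
  induction s using Finset.induction_on with
  | empty => rw [Finset.sum_empty, Finset.sum_empty]; exact PairK.zero
  | insert a s ha ih =>
    rw [Finset.sum_insert ha, Finset.sum_insert ha]
    exact PairK.add (h a (Finset.mem_insert_self _ _))
      (ih (fun i hi => h i (Finset.mem_insert_of_mem hi)))

lemma PairK.csmul {c c' : W.K} (hc : CConj ι c c') {E E' : W.H X →ₗ[W.K] W.H X}
    (h : PairK W ι X E E') : PairK W ι X (c • E) (c' • E') := by
  obtain ⟨κ, _, d, d', ρ, h1, h2, rfl, rfl⟩ := h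
  refine ⟨κ, inferInstance, fun i => c * d i, fun i => c' * d' i, ρ, fun i => hc.mul (h1 i), h2,
    ?_, ?_⟩
  · rw [Finset.smul_sum]
    exact Finset.sum_congr rfl fun i _ => smul_smul _ _ _
  · rw [Finset.smul_sum]
    exact Finset.sum_congr rfl fun i _ => smul_smul _ _ _

lemma PairK.ext {E E' : W.H X →ₗ[W.K] W.H X} {F F' : W.H Y →ₗ[W.K] W.H Y}
    (h : PairK W ι X E E') (h' : PairK W ι Y F F') :
    PairK W ι (X.prod Y) (extHom W E F) (extHom W E' F') := by
  obtain ⟨κ, _, c, c', ρ, h1, h2, rfl, rfl⟩ := h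
  obtain ⟨κ', _, d, d', τ, h1', h2', rfl, rfl⟩ := h'
  have key : ∀ (c : κ → W.K) (d : κ' → W.K),
      extHom W (∑ i, c i • ρ i) (∑ i, d i • τ i) =
        ∑ x : κ × κ', (c x.1 * d x.2) • extHom W (ρ x.1) (τ x.2) := by
    intro c d
    rw [Fintype.sum_prod_type]
    apply ext_kunneth_lin
    intro a b
    rw [extHom_tmul, LinearMap.sum_apply, LinearMap.sum_apply, LinearMap.sum_apply, map_sum,
      map_sum, Finset.sum_mul]
    apply Finset.sum_congr rfl
    intro i _
    rw [LinearMap.sum_apply, Finset.mul_sum]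
    apply Finset.sum_congr rfl
    intro j _
    rw [LinearMap.smul_apply, LinearMap.smul_apply, LinearMap.smul_apply,
      extHom_tmul, map_smul, map_smul, smul_mul_smul_comm]
  refine ⟨κ × κ', inferInstance, fun x => c x.1 * d x.2, fun x => c' x.1 * d' x.2,
    fun x => extHom W (ρ x.1) (τ x.2), fun x => (h1 _).mul (h1' _),
    fun x => RatOp.ext (h2 _) (h2' _), key _ _, key _ _⟩

/-- **Transport to the conjugate.** -/
lemma PairK.eq_zero {E E' : W.H Z →ₗ[W.K] W.H Z} (h : PairK W ι Z E E')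
    (hI : InjectivityConj W Z) {j : ℕ} {x : W.H Z} (hx : x ∈ algClasses W Z j)
    (h0 : E' x = 0) : E x = 0 := by
  obtain ⟨κ, _, c, c', ρ, h1, h2, rfl, rfl⟩ := h
  obtain ⟨n, d, r, hd, hr⟩ := exists_rat_basis hI (fun i => ρ i x)
    (fun i => RatOp.alg (h2 i) hx)
  have key : ∀ c : κ → W.K, (∑ i, c i • ρ i) x = ∑ l, (∑ i, c i * (r i l : W.K)) • d l := by
    intro c
    rw [LinearMap.sum_apply]
    have e1 : ∀ i, (c i • ρ i) x = ∑ l, (c i * (r i l : W.K)) • d l := by
      intro i
      rw [LinearMap.smul_apply, hr i, Finset.smul_sum]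
      exact Finset.sum_congr rfl fun l _ => smul_smul _ _ _
    rw [Finset.sum_congr rfl (fun i _ => e1 i), Finset.sum_comm]
    apply Finset.sum_congr rfl
    intro l _
    rw [Finset.sum_smul]
  have h3 : ∀ l, ∑ i, c' i * (r i l : W.K) = 0 :=
    Fintype.linearIndependent_iff.1 hd _ ((key c').symm.trans h0)
  rw [key c]
  apply Finset.sum_eq_zero
  intro l _
  have h4 : CConj ι (∑ i, c i * (r i l : W.K)) (∑ i, c' i * (r i l : W.K)) :=
    CConj.sum _ (fun i _ => (h1 i).mul (CConj.rat _))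
  rw [h4.left_zero (h3 l), zero_smul]

/-- A numerically trivial combination of classes of cycles, with a non-zero image under an operator,
gives a numerically trivial class of a cycle with this property. -/
lemma exists_rat_numK {j : ℤ} {x : W.H Z} (hx : x ∈ spanCycles W Z j)
    (hn : NumTriv W Z x) {F : W.H Z →ₗ[W.K] W.H Y}
    (hF : F x ≠ 0) : ∃ l : ℕ, ∃ y ∈ algClasses W Z l, NumTriv W Z y ∧ F y ≠ 0 := by
  classical
  by_cases hj : 0 ≤ j
  swap
  · exfalso
    have h1 : spanCycles W Z j = ⊥ := by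
      rw [eq_bot_iff]
      refine Submodule.span_le.2 ?_
      rintro y ⟨l, hl, -⟩
      omega
    rw [h1, Submodule.mem_bot] at hx
    rw [hx, map_zero] at hF
    exact hF rfl
  obtain ⟨l, rfl⟩ : ∃ l : ℕ, (l : ℤ) = j := ⟨j.toNat, Int.toNat_of_nonneg hj⟩
  have hx1 : ∃ (n : ℕ) (a : Fin n → W.K) (c : Fin n → W.H Z), (∀ i, c i ∈ algClasses W Z l) ∧
      x = ∑ i, a i • c i := by
    obtain ⟨n, f, g, hg⟩ := Submodule.mem_span_set'.1 hx
    have h2 : ∀ i, (g i : W.H Z) ∈ algClasses W Z l := by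
      intro i
      obtain ⟨l', hl', z, hz, h3⟩ := (g i).2
      obtain rfl : l' = l := by exact_mod_cast hl'
      exact ⟨z, hz, h3⟩
    exact ⟨n, f, fun i => g i, h2, hg.symm⟩
  obtain ⟨n, a, c, hc, hxa⟩ := hx1
  set b := Module.Basis.ofVectorSpace ℚ W.K with hb
  set q : Fin n → _ → ℚ := fun i β => b.repr (a i) β with hq
  set s := Finset.univ.biUnion (fun i => (b.repr (a i)).support) with hs
  set uu : _ → W.H Z := fun β => ∑ i, ((q i β : ℚ) : W.K) • c i with huu
  have ha : ∀ i, a i = ∑ β ∈ s, (q i β : W.K) * b β := by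
    intro i
    conv_lhs => rw [← b.linearCombination_repr (a i), Finsupp.linearCombination_apply,
      Finsupp.sum]
    rw [Finset.sum_subset (show (b.repr (a i)).support ⊆ s from
      Finset.subset_biUnion_of_mem (fun i => (b.repr (a i)).support) (Finset.mem_univ i))]
    · apply Finset.sum_congr rfl
      intro β _
      rw [Algebra.smul_def, eq_ratCast]
    · intro β _ hβ
      rw [Finsupp.notMem_support_iff.1 hβ, zero_smul]
  have hxu : x = ∑ β ∈ s, b β • uu β := by
    rw [hxa]
    have e1 : ∀ β, b β • uu β = ∑ i, ((q i β : W.K) * b β) • c i := by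
      intro β
      rw [huu]
      beta_reduce
      rw [Finset.smul_sum]
      apply Finset.sum_congr rfl
      intro i _
      rw [smul_smul, mul_comm]
    rw [Finset.sum_congr rfl (fun β _ => e1 β), Finset.sum_comm]
    apply Finset.sum_congr rfl
    intro i _
    rw [← Finset.sum_smul, ← ha]
  have huA : ∀ β, uu β ∈ algClasses W Z l := fun β => alg_sum Finset.univ _ _ (fun i _ => hc i)
  have huN : ∀ β, NumTriv W Z (uu β) := by
    intro β j' g hg
    induction hg using Submodule.span_induction with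
    | mem g hg =>
      obtain ⟨l', hl', z, hz, rfl⟩ := hg
      choose m hm using fun i => alg_rat (hc i) (show W.cl Z z ∈ algClasses W Z l' from ⟨z, hz, rfl⟩)
      have h1 := hn l' (W.cl Z z) (Submodule.subset_span ⟨l', rfl, z, hz, rfl⟩)
      have h2 : ∑ i, a i * (m i : W.K) = 0 := by
        rw [hxa, Finset.sum_mul, map_sum] at h1
        rw [← h1]
        apply Finset.sum_congr rfl
        intro i _
        have h4 := hm i
        rw [bil_apply] at h4
        rw [smul_mul_assoc, map_smul, smul_eq_mul, h4]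
      have h5 : ∑ i, q i β * m i = 0 := by
        have h6 := congrArg (fun t => b.repr t β) h2
        beta_reduce at h6
        rw [map_sum, map_zero, Finsupp.zero_apply, Finsupp.finsetSum_apply] at h6
        rw [← h6]
        apply Finset.sum_congr rfl
        intro i _
        have h7 : a i * (m i : W.K) = m i • a i := by
          rw [Algebra.smul_def, eq_ratCast, mul_comm]
        rw [h7, map_smul, Finsupp.smul_apply, smul_eq_mul, mul_comm]
      rw [huu]
      beta_reduce
      rw [Finset.sum_mul, map_sum]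
      have h8 : ∀ i, W.tr Z (((q i β : ℚ) : W.K) • c i * W.cl Z z) = ((q i β * m i : ℚ) : W.K) := by
        intro i
        have h4 := hm i
        rw [bil_apply] at h4
        rw [smul_mul_assoc, map_smul, h4, smul_eq_mul, Rat.cast_mul]
      rw [Finset.sum_congr rfl (fun i _ => h8 i), ← Rat.cast_sum, h5, Rat.cast_zero]
    | zero => rw [mul_zero, map_zero]
    | add a b _ _ ha hb => rw [mul_add, map_add, ha, hb, add_zero]
    | smul c a _ ha => rw [mul_smul_comm, map_smul, ha, smul_zero]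
  by_contra hcon
  push Not at hcon
  apply hF
  rw [hxu, map_sum]
  apply Finset.sum_eq_zero
  intro β _
  rw [map_smul, hcon l (uu β) (huA β) (huN β), smul_zero]

end Pool.Agent.R908
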