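import Pool.Agent.R908.KpC
import Pool.Agent.R908.KpD

/-!
# Conjugate labels, and the weights
-/

open CategoryTheory AlgebraicGeometry TensorProduct Function

universe u v w w'

namespace Pool.Agent.R908

open Pool.Agent.H914 Pool.Agent.H914.VarClass Pool.Agent.H914.VarClass.Obj
  Pool.Agent.H914.WeilCohomology Km

variable {k : Type u} [Field k] {𝒱 : VarClass k} {ops : CycleOps 𝒱}
  {W : WeilCohomology.{u, v} ops} {X Y Z X' Y' Z' : 𝒱.Obj}

variable {A : Mot W} {w₀ : ℕ} {ε : W.K} {θ θ' : W.H A.X →ₗ[W.K] W.H A.X} {Q : Mot W → Prop}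
  {Λ : Type w} {S : Finset Λ} {bar : Λ → Λ} {p : Λ → (W.H A.X →ₗ[W.K] W.H A.X)}

/-- The labelled projectors. -/
noncomputable def pL (A : Mot W) (p : Λ → (W.H A.X →ₗ[W.K] W.H A.X)) (B : Mot W) :
    ∀ (m : ℕ), (Fin m → Λ) → (W.H (pX A.X B.X m) →ₗ[W.K] W.H (pX A.X B.X m))
  | 0, _ => B.e
  | m + 1, l => extHom W (p (l 0)) (pL A p B m (fun i => l i.succ))

lemma pL_succ (B : Mot W) (m : ℕ) (l : Fin (m + 1) → Λ) :
    pL A p B (m + 1) l = extHom W (p (l 0)) (pL A p B m (fun i => l i.succ)) := rfl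

lemma extHom_sum_sum {ι κ : Type*} (s : Finset ι) (t : Finset κ)
    (f : ι → (W.H X →ₗ[W.K] W.H X)) (g : κ → (W.H Y →ₗ[W.K] W.H Y)) :
    extHom W (∑ i ∈ s, f i) (∑ j ∈ t, g j) = ∑ x ∈ s ×ˢ t, extHom W (f x.1) (g x.2) := by
  rw [Finset.sum_product]
  apply ext_kunneth_lin
  intro a b
  rw [extHom_tmul, LinearMap.sum_apply, LinearMap.sum_apply, LinearMap.sum_apply, map_sum,
    map_sum, Finset.sum_mul]
  apply Finset.sum_congr rfl
  intro i _
  rw [LinearMap.sum_apply, Finset.mul_sum]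
  apply Finset.sum_congr rfl
  intro j _
  rw [extHom_tmul]

lemma pL_sum (hsum : ∑ l ∈ S, p l = A.e) (B : Mot W) : ∀ m : ℕ,
    pE A B m = ∑ l ∈ Fintype.piFinset (fun _ : Fin m => S), pL A p B m l := by
  classical
  intro m
  induction m with
  | zero =>
    rw [Fintype.piFinset_of_isEmpty, Finset.univ_unique, Finset.sum_singleton]
    rfl
  | succ m ih =>
    change extHom W A.e (pE A B m) = _
    rw [ih, ← hsum, extHom_sum_sum]
    refine Finset.sum_bij' (fun x _ => (Fin.cons x.1 x.2 : Fin (m + 1) → Λ))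
      (fun l _ => (l 0, fun i => l i.succ)) ?_ ?_ ?_ ?_ ?_
    · rintro ⟨a, l⟩ h
      rw [Finset.mem_product, Fintype.mem_piFinset] at h
      rw [Fintype.mem_piFinset]
      intro i
      refine Fin.cases ?_ (fun i => ?_) i
      · exact h.1
      · exact h.2 i
    · intro l h
      rw [Fintype.mem_piFinset] at h
      rw [Finset.mem_product, Fintype.mem_piFinset]
      exact ⟨h 0, fun i => h i.succ⟩
    · rintro ⟨a, l⟩ h
      rfl
    · intro l h
      funext i
      refine Fin.cases ?_ (fun i => ?_) i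
      · rfl
      · rfl
    · rintro ⟨a, l⟩ h
      rfl

lemma msl_pL (B : Mot W) : ∀ (m : ℕ) (l : Fin m → Λ) (f : Fin m → (W.H A.X →ₗ[W.K] W.K))
    (g : W.H B.X →ₗ[W.K] W.K),
    msl W m f g ∘ₗ pL A p B m l = msl W m (fun i => f i ∘ₗ p (l i)) (g ∘ₗ B.e) := by
  intro m
  induction m with
  | zero => exact fun _ _ _ => rfl
  | succ m ih =>
    intro l f g
    change tens W (f 0) (msl W m (fun i => f i.succ) g) ∘ₗ
      extHom W (p (l 0)) (pL A p B m (fun i => l i.succ)) = _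
    rw [tens_extHom, ih]
    rfl

lemma pair_pL {ι : algebraicClosure ℚ W.K →ₐ[ℚ] ℂ}
    (hp : ∀ a, PairK W ι A.X (p a) (p (bar a))) {B : Mot W} (hB : PairK W ι B.X B.e B.e) :
    ∀ (m : ℕ) (l : Fin m → Λ), PairK W ι (pX A.X B.X m) (pL A p B m l)
      (pL A p B m (fun i => bar (l i))) := by
  intro m
  induction m with
  | zero => exact fun _ => hB
  | succ m ih =>
    intro l
    exact PairK.ext (hp (l 0)) (ih (fun i => l i.succ))

/-- The forms given by the components of a numerically trivial class. -/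
lemma Blocks.exists_form (h : SelfDual A w₀ ε θ θ') (hb : Blocks A θ S bar p) {B : Mot W}
    (hB : Q B) {m : ℕ} {l : Fin m → Λ} {j : ℤ} {x : W.H (pX A.X B.X m)}
    (hx : x ∈ spanCycles W _ j) (hn : NumTriv W _ x) (hne : pL A p B m l x ≠ 0) :
    ∃ F ∈ FA A θ Q m, ∃ t : Fin m → TT A, (∀ s, p (bar (l s)) (t s) = t s) ∧ F t ≠ 0 := by
  classical
  by_contra hcon
  push Not at hcon
  apply hne
  apply msl_sep
  intro f g
  have h1 := congrArg (fun F => F x) (msl_pL (A := A) (p := p) B m l f g)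
  beta_reduce at h1
  rw [LinearMap.comp_apply] at h1
  rw [h1]
  choose t ht using fun s => h.exists_psi (f s ∘ₗ p (l s))
  have ht' : ∀ s, f s ∘ₗ p (l s) = psi A θ (t s) := by
    intro s
    rw [← ht s, LinearMap.comp_assoc, hb.p_e]
  have htb : ∀ s, p (bar (l s)) (t s) = t s := by
    intro s
    have h2 : ∀ y, psi A θ (p (bar (l s)) (t s) - t s) y = 0 := by
      intro y
      rw [map_sub, LinearMap.sub_apply, hb.adj, hb.bb, sub_eq_zero, ← ht' s,
        LinearMap.comp_apply, LinearMap.comp_apply]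
      exact congrArg (f s) (congrArg (fun F => F y) (hb.idem (l s)))
    have h3 := h.eq_zero' h2
    have h4 : A.e (p (bar (l s)) (t s)) = p (bar (l s)) (t s) :=
      congrArg (fun F => F (t s : W.H A.X)) (hb.e_p _)
    rw [map_sub, h4, TT_e, sub_eq_zero] at h3
    exact h3
  have h2 : (fun i => f i ∘ₗ p (l i)) = fun i => psi A θ (t i) := funext ht'
  rw [h2]
  have hsum := sum_proj (W.isInternal B.X) (N := 2 * B.X.dim + 1)
    (fun i hi => W.gr_eq_bot B.X i (by omega))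
  have h3 : g ∘ₗ B.e = ∑ i ∈ Finset.range (2 * B.X.dim + 1),
      g ∘ₗ proj (W.isInternal B.X) i ∘ₗ B.e := by
    apply LinearMap.ext
    intro y
    rw [LinearMap.comp_apply, LinearMap.sum_apply]
    have h4 := congrArg (fun F => F (B.e y)) hsum
    simp only [LinearMap.sum_apply, Module.End.one_apply] at h4
    conv_lhs => rw [← h4]
    rw [map_sum]
    rfl
  rw [h3, msl_sum_g, LinearMap.sum_apply]
  apply Finset.sum_eq_zero
  intro i _
  exact hcon _ (FA_gen (A := A) (θ := θ) (Q := Q) ⟨B, i,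
    g ∘ₗ proj (W.isInternal B.X) i ∘ₗ B.e, j, x, hB, par_proj g i B.mem, by
      rw [LinearMap.comp_assoc, LinearMap.comp_assoc, B.idem], hx, hn, rfl⟩) t htb

/-- **Conjugation reverses the weights.** -/
theorem Blocks.num_of_pair (h : SelfDual A w₀ ε θ θ') (hb : Blocks A θ S bar p)
    {ι : algebraicClosure ℚ W.K →ₐ[ℚ] ℂ} (hp : ∀ a, PairK W ι A.X (p a) (p (bar a)))
    (hQt : ∀ B B', Q B → Q B' → Q (B.tensor B')) (hQ : ∀ B, Q B → B.Num)
    (hQp : ∀ B, Q B → PairK W ι B.X B.e B.e) (𝒢 : Set (Symmetry W)) (hAS : ∀ S ∈ 𝒢, Comm S A)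
    (hθS : ∀ S ∈ 𝒢, SimTheta S θ) (hQS : ∀ S ∈ 𝒢, ∀ B, Q B → Comm S B)
    (hirr : ∀ U : Submodule W.K (W.H A.X), U ≤ LinearMap.range A.e →
      (∀ (δ : ℤ) (φ : W.H A.X →ₗ[W.K] W.H A.X), φ ∈ KOp W A.X A.X δ → ∀ x ∈ U, A.e (φ x) ∈ U) →
      (∀ S ∈ 𝒢, ∀ x ∈ U, S.σ A.X x ∈ U) → ∀ l, (∃ x ∈ U, x ≠ 0 ∧ p l x = x) →
        ∀ y, p l y = y → y ∈ U) {B : Mot W} (hB : Q B) (m : ℕ)
    (hI : InjectivityConj W (pX A.X B.X m)) : (pM A B m).Num := by
  classical
  intro j (x : W.H (pX A.X B.X m)) hx hn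
  change pE A B m x = 0
  by_contra hne
  obtain ⟨i, y, hy, hyn, hyF⟩ := exists_rat_numK (Z := pX A.X B.X m) (x := x) hx hn
    (F := pE A B m) hne
  obtain ⟨l, hl⟩ : ∃ l : Fin m → Λ, pL A p B m l y ≠ 0 := by
    by_contra hcon
    push Not at hcon
    apply hyF
    rw [pL_sum hb.sum B m, LinearMap.sum_apply]
    exact Finset.sum_eq_zero fun l _ => hcon l
  have hl' : pL A p B m (fun s => bar (l s)) y ≠ 0 := fun h0 =>
    hl ((pair_pL hp (hQp B hB) m l).eq_zero hI hy h0)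
  have hyS : y ∈ spanCycles W (pX A.X B.X m) i := alg_mem_span hy
  obtain ⟨F, hF, t, ht, hFt⟩ := hb.exists_form h hB hyS hyn hl
  obtain ⟨F', hF', t', ht', hFt'⟩ := hb.exists_form h hB hyS hyn hl'
  obtain ⟨v, hv1, hv2⟩ := hb.exists_wts h hQt hQ 𝒢 hAS hθS hQS hirr hF
    (fun h0 => hFt (by rw [h0]; rfl))
  have h1 := hv2 F hF t (fun s => bar (l s)) ht hFt
  have h2 := hv2 F' hF' t' l (fun s => by
    have h3 := ht' s
    rwa [hb.bb] at h3) hFt'
  have hpl : ∀ s, p (l s) ≠ 0 := by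
    intro s h0
    apply hl
    have key : ∀ (m : ℕ) (l : Fin m → Λ) (s : Fin m), p (l s) = 0 → pL A p B m l = 0 := by
      intro m
      induction m with
      | zero => exact fun _ s => s.elim0
      | succ m ih =>
        intro l s hs
        rw [pL_succ]
        apply ext_kunneth_lin
        intro a b
        rw [extHom_tmul, LinearMap.zero_apply]
        refine Fin.cases (fun h => ?_) (fun i h => ?_) s hs
        · rw [h, LinearMap.zero_apply, map_zero, zero_mul]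
        · rw [ih _ i h, LinearMap.zero_apply, map_zero, mul_zero]
    rw [key m l s h0, LinearMap.zero_apply]
  have h4 : ∑ s, v (bar (l s)) = -∑ s, v (l s) := by
    rw [← Finset.sum_neg_distrib]
    exact Finset.sum_congr rfl fun s _ => hv1 _ (hpl s)
  linarith

end Pool.Agent.R908
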