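import Pool.Agent.R908.KnH

/-!
# Products of direct factors with a given property
-/

open CategoryTheory AlgebraicGeometry TensorProduct Function

universe u v w w'

namespace Pool.Agent.R908

open Pool.Agent.H914 Pool.Agent.H914.VarClass Pool.Agent.H914.VarClass.Obj
  Pool.Agent.H914.WeilCohomology Km

variable {k : Type u} [Field k] {𝒱 : VarClass k} {ops : CycleOps 𝒱}
  {W : WeilCohomology.{u, v} ops} {X Y Z X' Y' Z' : 𝒱.Obj}

/-- The class is trivial or the class of a direct factor with the property `G`. -/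
def KG (G : Mot W → Prop) (y : Mon W) : Prop := y = 1 ∨ ∃ B : Mot W, G B ∧ y = B.m

/-- Direct factors with which one can take products. -/
def Step (G : Mot W → Prop) (A : Mot W) : Prop :=
  G A ∧ ∀ Q : Mot W → Prop, (∀ B B', Q B → Q B' → Q (B.tensor B')) → (∀ B, Q B → G B) →
    (∀ B, Q B → B.Num) → ∀ B, Q B → ∀ m, (pM A B m).Num

section G

variable {G : Mot W → Prop} (hGt : ∀ A B, G A → G B → G (A.tensor B))

include hGt in
lemma KG.mul {y z : Mon W} (hy : KG G y) (hz : KG G z) : KG G (y * z) := by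
  rcases hy with rfl | ⟨B, hB, rfl⟩
  · rwa [one_mul]
  rcases hz with rfl | ⟨C, hC, rfl⟩
  · rw [mul_one]; exact Or.inr ⟨B, hB, rfl⟩
  · exact Or.inr ⟨B.tensor C, hGt B C hB hC, rfl⟩

include hGt in
lemma KG.pow {y : Mon W} (hy : KG G y) (n : ℕ) : KG G (y ^ n) := by
  induction n with
  | zero => rw [pow_zero]; exact Or.inl rfl
  | succ n ih => rw [pow_succ]; exact KG.mul hGt ih hy

section Words

variable {Base : Mon W → Prop} (hb1 : Base 1) (hbm : ∀ y z, Base y → Base z → Base (y * z))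
  (hbk : ∀ y, Base y → KG G y) (hbn : ∀ y, Base y → MNum y)

include hGt hbk in
lemma NN_KG (D : List (Mot W)) (hD : ∀ A ∈ D, Step G A) : ∀ y, NN Base D y → KG G y := by
  induction D with
  | nil => exact hbk
  | cons A D ih =>
    rintro y ⟨n, q, hq, rfl⟩
    refine KG.mul hGt (KG.pow hGt (Or.inr ⟨A, (hD A List.mem_cons_self).1, rfl⟩) n)
      (ih (fun B hB => hD B (List.mem_cons_of_mem _ hB)) q hq)

include hGt hb1 hbm hbk hbn in
/-- All products of letters and of base classes have the property `Num`. -/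
theorem NNG_num (hunit : ∃ C : Mot W, Base C.m ∧ ∃ j, ∃ c ∈ spanCycles W C.X j, C.e c ≠ 0)
    (D : List (Mot W)) (hD : ∀ A ∈ D, Step G A) : ∀ y, NN Base D y → MNum y := by
  induction D with
  | nil => exact hbn
  | cons A D ih =>
    have hD' : ∀ B ∈ D, Step G B := fun B hB => hD B (List.mem_cons_of_mem _ hB)
    have ih' := ih hD'
    obtain ⟨hGA, hstep⟩ := hD A List.mem_cons_self
    have main : ∀ (n : ℕ) (q : Mon W), q ≠ 1 → NN Base D q → MNum (A.m ^ n * q) := by
      intro n q hq1 hq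
      rcases NN_KG hGt hbk D hD' q hq with h1 | ⟨B, hB, rfl⟩
      · exact absurd h1 hq1
      have h2 := hstep (fun B => G B ∧ NN Base D B.m)
        (by
          rintro B B' ⟨h3, h4⟩ ⟨h3', h4'⟩
          exact ⟨hGt B B' h3 h3', NN_mul hbm D _ _ h4 h4'⟩)
        (by
          rintro B ⟨h3, -⟩
          exact h3)
        (by
          rintro B ⟨-, h4⟩
          exact mnum_m.1 (ih' _ h4)) B ⟨hB, hq⟩ n
      rw [← pM_m, mnum_m]
      exact h2
    rintro y ⟨n, q, hq, rfl⟩
    by_cases hq1 : q = 1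
    · subst hq1
      rw [mul_one]
      rcases mon_cases (A.m ^ n) with h1 | ⟨E, hE⟩
      · rw [h1]
        exact mnum_one
      · obtain ⟨C, hC, j, c, hc, hc0⟩ := hunit
        have h2 := main n C.m (fun h => absurd h.symm WithOne.coe_ne_one.symm)
          (NN_base hb1 _ hC D)
        rw [hE, ← Mot.m_tensor, mnum_m] at h2
        rw [hE, mnum_m]
        exact Mot.Num.of_unit hc hc0 h2
    · exact main n q hq1 hq

end Words

/-- The classes of products of direct factors cut out by algebraic classes and of a product of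
members of `𝒴`. -/
def BaseG (G : Mot W → Prop) (𝒴 : Set 𝒱.Obj) (y : Mon W) : Prop :=
  ∃ L : List (Mot W), (∀ B ∈ L, B.Alg ∧ G B) ∧ ∃ z, YCls W 𝒴 z ∧
    y = (L.map Mot.m).prod * z

variable {𝒴 : Set 𝒱.Obj}

lemma BaseG.one : BaseG G 𝒴 1 :=
  ⟨[], fun B hB => absurd hB List.not_mem_nil, 1, Or.inl rfl, by
    rw [List.map_nil, List.prod_nil, one_mul]⟩

lemma BaseG.mul (y z : Mon W) (hy : BaseG G 𝒴 y) (hz : BaseG G 𝒴 z) :
    BaseG G 𝒴 (y * z) := by
  obtain ⟨L, hL, y, hy, rfl⟩ := hy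
  obtain ⟨L', hL', y', hy', rfl⟩ := hz
  refine ⟨L ++ L', ?_, y * y', hy.mul hy', ?_⟩
  · intro A hA
    rcases List.mem_append.1 hA with h | h
    · exact hL A h
    · exact hL' A h
  · rw [List.map_append, List.prod_append, mul_mul_mul_comm]

include hGt in
lemma BaseG.kg (hGY : ∀ Y, IsProductOf 𝒴 Y → G (whole W Y)) (y : Mon W)
    (hy : BaseG G 𝒴 y) : KG G y := by
  obtain ⟨L, hL, y, hy, rfl⟩ := hy
  refine KG.mul hGt ?_ ?_
  · induction L with
    | nil => rw [List.map_nil, List.prod_nil]; exact Or.inl rfl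
    | cons A L ih =>
      rw [List.map_cons, List.prod_cons]
      exact KG.mul hGt (Or.inr ⟨A, (hL A List.mem_cons_self).2, rfl⟩)
        (ih (fun B hB => hL B (List.mem_cons_of_mem _ hB)))
  · rcases hy with rfl | ⟨Y, hY, rfl⟩
    · exact Or.inl rfl
    · exact Or.inr ⟨whole W Y, hGY Y hY, rfl⟩

lemma BaseG.mnum (h𝒴 : ∀ Y, IsProductOf 𝒴 Y → HomEqNum W Y) (y : Mon W)
    (hy : BaseG G 𝒴 y) : MNum y := by
  obtain ⟨L, hL, y, hy, rfl⟩ := hy
  induction L with
  | nil =>
    rw [List.map_nil, List.prod_nil, one_mul]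
    exact hy.mnum h𝒴
  | cons A L ih =>
    rw [List.map_cons, List.prod_cons, mul_assoc]
    exact mnum_alg (hL A List.mem_cons_self).1
      (ih (fun B hB => hL B (List.mem_cons_of_mem _ hB)))

/-- The class of all words. -/
def WordG (G : Mot W → Prop) (𝒴 : Set 𝒱.Obj) (B : Mot W) : Prop :=
  ∃ D : List (Mot W), (∀ A ∈ D, Step G A) ∧ NN (BaseG G 𝒴) D B.m

lemma WordG.tensor (A B : Mot W) (hA : WordG G 𝒴 A) (hB : WordG G 𝒴 B) :
    WordG G 𝒴 (A.tensor B) := by
  obtain ⟨D, hD, hA⟩ := hA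
  obtain ⟨D', hD', hB⟩ := hB
  refine ⟨D ++ D', ?_, ?_⟩
  · intro A hA
    rcases List.mem_append.1 hA with h | h
    · exact hD A h
    · exact hD' A h
  · rw [Mot.m_tensor]
    exact NN_append BaseG.one BaseG.mul D D' _ _ hA hB

lemma WordG.letter {A : Mot W} (hA : Step G A) : WordG G 𝒴 A :=
  ⟨[A], by
    intro B hB
    rw [List.mem_singleton] at hB
    rw [hB]
    exact hA, 1, 1, BaseG.one, by rw [pow_one, mul_one]⟩

lemma WordG.alg {A : Mot W} (hA : A.Alg) (hc : G A) : WordG G 𝒴 A :=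
  ⟨[], fun B hB => absurd hB List.not_mem_nil, [A], by
    intro B hB
    rw [List.mem_singleton] at hB
    rw [hB]
    exact ⟨hA, hc⟩, 1, Or.inl rfl, by
      rw [List.map_singleton, List.prod_singleton, mul_one]⟩

lemma WordG.whole {Y : 𝒱.Obj} (hY : IsProductOf 𝒴 Y) : WordG G 𝒴 (whole W Y) :=
  ⟨[], fun B hB => absurd hB List.not_mem_nil, [], fun B hB => absurd hB List.not_mem_nil,
    (R908.whole W Y).m, Or.inr ⟨Y, hY, rfl⟩, by
      rw [List.map_nil, List.prod_nil, one_mul]⟩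

include hGt in
/-- **The conjecture D for products of varieties whose cohomology is built from letters.** -/
theorem homEqNum_wordsG {P : Set 𝒱.Obj} (hGY : ∀ Y, IsProductOf 𝒴 Y → G (whole W Y))
    (h𝒴 : ∀ Y, IsProductOf 𝒴 Y → HomEqNum W Y)
    (hP : ∀ X ∈ P, (LinearMap.id : W.H X →ₗ[W.K] W.H X) ∈ RetOp W (WordG G 𝒴) X X)
    (hunit : ∃ C : Mot W, BaseG G 𝒴 C.m ∧ ∃ j, ∃ c ∈ spanCycles W C.X j, C.e c ≠ 0)
    {Z : 𝒱.Obj} (hZ : IsProductOf (P ∪ 𝒴) Z) : HomEqNum W Z := by
  refine RetOp.homEqNum (P := WordG G 𝒴) ?_ ?_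
  · rintro B ⟨D, hD, hB⟩
    exact mnum_m.1 (NNG_num hGt BaseG.one BaseG.mul (BaseG.kg hGt hGY) (BaseG.mnum h𝒴) hunit D
      hD _ hB)
  · induction hZ with
    | base hX =>
      rename_i X
      rcases hX with hX | hX
      · exact hP X hX
      · exact RetOp.self (B := R908.whole W X) (WordG.whole (IsProductOf.base hX))
    | prod _ _ h1 h2 =>
      rw [← extHom_id]
      exact RetOp.ext WordG.tensor h1 h2

end G

end Pool.Agent.R908
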