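import Pool.Agent.R908.KpE
import Pool.Agent.R908.KpF
import Pool.Agent.R908.KnI

/-!
# A cycle acting by complex conjugation: the eigenspaces in the transcendental cohomology
-/

open CategoryTheory AlgebraicGeometry TensorProduct Function Polynomial

universe u v w w'

namespace Pool.Agent.R908

open Pool.Agent.H914 Pool.Agent.H914.VarClass Pool.Agent.H914.VarClass.Obj
  Pool.Agent.H914.WeilCohomology Pool.Agent.H281R3.HT Km

variable {k : Type u} [Field k] {𝒱 : VarClass k} {ops : CycleOps 𝒱}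
  {W : WeilCohomology.{u, v} ops} {X Y Z X' Y' Z' : 𝒱.Obj} {𝒢 : Set (Symmetry W)}

lemma aeval_mem {e : Module.End W.K (W.H X)} (he : e ∈ KOp W X X 0) (f : W.K[X]) :
    (aeval e f : Module.End W.K (W.H X)) ∈ KOp W X X 0 := by
  have hpow : ∀ n : ℕ, (e ^ n : Module.End W.K (W.H X)) ∈ KOp W X X 0 := by
    intro n
    induction n with
    | zero => rw [pow_zero]; exact KOp.id X
    | succ n ih => rw [pow_succ]; exact KOp.cast (KOp.comp ih he) (add_zero 0)
  rw [aeval_eq_sum_range]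
  exact Submodule.sum_mem _ fun i _ => Submodule.smul_mem _ _ (hpow i)

/-- The data of a cycle acting by complex conjugation. -/
structure CJ (s : TSplit W X) (𝒢 : Set (Symmetry W)) (e : Module.End W.K (W.H X)) (P Q : ℚ[X])
    (R : Finset W.K) (c₀ : W.K) : Prop where
  rat : e ∈ RatOp W X X
  ne : P ≠ 0
  c_ne : c₀ ≠ 0
  prod : P.map (algebraMap ℚ W.K) = C c₀ * ∏ j ∈ R, (Polynomial.X - C j)
  conj : ∀ z : ℂ, aeval z P = 0 → aeval z Q = starRingEnd ℂ z
  kill : ∀ x ∈ transcendental W X, aeval e (P.map (algebraMap ℚ W.K)) x = 0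
  adj : ∀ x ∈ transcendental W X, ∀ y ∈ transcendental W X,
    W.tr X (e x * y) = W.tr X (x * aeval e (Q.map (algebraMap ℚ W.K)) y)
  irr : ∀ U : Submodule W.K (W.H X), U ≤ transcendental W X →
    (∀ φ ∈ RatOp W X X, ∀ x ∈ U, φ x ∈ U) → (∀ S ∈ 𝒢, ∀ x ∈ U, S.σ X x ∈ U) →
    ∀ a : W.K, (∃ x ∈ U, x ≠ 0 ∧ e x = a • x) → ∀ y ∈ transcendental W X, e y = a • y → y ∈ U

namespace CJ

variable {s : TSplit W X} {e : Module.End W.K (W.H X)} {P Q : ℚ[X]}
    {R : Finset W.K} {c₀ : W.K} (h : CJ s 𝒢 e P Q R c₀)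

include h

lemma e_mem : e ∈ KOp W X X 0 := RatOp.mem h.rat

lemma mem_R (a : W.K) : a ∈ R ↔ aeval a P = 0 := by
  classical
  rw [← eval_map_algebraMap, h.prod, eval_mul, eval_C, eval_prod, mul_eq_zero,
    Finset.prod_eq_zero_iff]
  constructor
  · intro ha
    exact Or.inr ⟨a, ha, by rw [eval_sub, eval_X, eval_C, sub_self]⟩
  · rintro (h0 | ⟨b, hb, h0⟩)
    · exact absurd h0 h.c_ne
    · rw [eval_sub, eval_X, eval_C, sub_eq_zero] at h0
      rwa [h0]

lemma comm_eT : e * s.eT = s.eT * e := s.comm h.e_mem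

omit h in
lemma eT_idem (s : TSplit W X) : (s.eT : Module.End W.K (W.H X)) * s.eT = s.eT := s.idem

lemma killT : aeval e (∏ j ∈ R, (Polynomial.X - C j)) * s.eT = 0 := by
  have h1 : (∏ j ∈ R, (Polynomial.X - C j)) = C c₀⁻¹ * P.map (algebraMap ℚ W.K) := by
    rw [h.prod, ← mul_assoc, ← C_mul, inv_mul_cancel₀ h.c_ne, C_1, one_mul]
  rw [h1, map_mul, mul_assoc]
  have h2 : aeval e (P.map (algebraMap ℚ W.K)) * s.eT = 0 := by
    apply LinearMap.ext
    intro x
    exact h.kill _ (s.mem_T x)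
  rw [h2, mul_zero]

/-- The projector to the eigenspace. -/
noncomputable def _root_.Pool.Agent.R908.eigT (s : TSplit W X) (e : Module.End W.K (W.H X))
    (R : Finset W.K) (a : W.K) : Module.End W.K (W.H X) :=
  eig R e s.eT a

lemma eigT_mem (a : W.K) : eigT s e R a ∈ KOp W X X 0 :=
  KOp.cast (KOp.comp (aeval_mem h.e_mem _) s.mem0) (add_zero 0)

lemma eigT_T (a : W.K) (x : W.H X) : eigT s e R a x ∈ transcendental W X := by
  have h1 := congrArg (fun F => F x) (eig_left (R := R) h.comm_eT (eT_idem s) a)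
  change eig R e s.eT a x ∈ _
  rw [← h1]
  exact s.mem_T _

lemma e_eigT (a : W.K) (x : W.H X) : e (eigT s e R a x) = a • eigT s e R a x :=
  eig_eig_apply h.killT a x

lemma eigT_sum (x : W.H X) : ∑ a ∈ R, eigT s e R a x = s.eT x := by
  have h1 := congrArg (fun F => F x) (sum_eig h.killT)
  beta_reduce at h1
  rw [LinearMap.sum_apply] at h1
  exact h1

lemma eigT_not_mem {a : W.K} (ha : a ∉ R) : eigT s e R a = 0 := eig_not_mem h.killT ha

lemma eigT_self {b : W.K} {x : W.H X} (hx : x ∈ transcendental W X) (hb : e x = b • x) :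
    eigT s e R b x = x := by
  change aeval e (bas R b) (s.eT x) = x
  rw [s.fix x hx, aeval_of_eig hb, bas_eval_self, one_smul]

lemma eigT_other {a b : W.K} (hb : b ∈ R) {x : W.H X} (hx : x ∈ transcendental W X)
    (hbx : e x = b • x) (hab : a ≠ b) : eigT s e R a x = 0 := by
  change aeval e (bas R a) (s.eT x) = 0
  rw [s.fix x hx, aeval_of_eig hbx, bas_eval_ne hb (Ne.symm hab), zero_smul]

/-- Each eigenspace is of pure degree. -/
lemma exists_deg : ∃ δ : W.K → ℕ, ∀ a x, eigT s e R a x ∈ W.gr X (δ a) := by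
  have key : ∀ a, ∃ i, ∀ x, eigT s e R a x ∈ W.gr X i := by
    intro a
    by_cases h0 : ∀ x, eigT s e R a x = 0
    · exact ⟨0, fun x => by rw [h0]; exact Submodule.zero_mem _⟩
    obtain ⟨i, x, hx, hne⟩ : ∃ i, ∃ x ∈ W.gr X i, eigT s e R a x ≠ 0 := by
      by_contra hcon
      push Not at hcon
      apply h0
      intro x
      refine gr_induction (W.isInternal X) (p := fun x => eigT s e R a x = 0) ?_ ?_ x
      · intro i x hx
        exact hcon i x hx
      · intro x y hx hy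
        rw [map_add, hx, hy, add_zero]
    refine ⟨i, fun y => ?_⟩
    have h1 := h.irr (transcendental W X ⊓ W.gr X i) inf_le_left
      (fun φ hφ x hx => ⟨KOp.trans (RatOp.mem hφ) hx.1, Mot.hom_deg0 (RatOp.mem hφ) hx.2⟩)
      (fun S _ x hx => ⟨S.trans hx.1, S.gr.2 hx.2⟩) a
      ⟨eigT s e R a x, ⟨h.eigT_T a x, Mot.hom_deg0 (h.eigT_mem a) hx⟩, hne, h.e_eigT a x⟩
      (eigT s e R a y) (h.eigT_T a y) (h.e_eigT a y)
    exact h1.2
  choose δ hδ using key
  exact ⟨δ, hδ⟩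

lemma conj_R {ι : algebraicClosure ℚ W.K →ₐ[ℚ] ℂ} {a : W.K} (ha : a ∈ R) :
    CConj ι a (aeval a Q) :=
  cConj_of_poly h.ne h.conj ((h.mem_R a).1 ha)

lemma Q_mem {a : W.K} (ha : a ∈ R) : aeval a Q ∈ R := by
  obtain ⟨ι⟩ := exists_emb W.K
  rw [h.mem_R]
  exact ((h.conj_R (ι := ι) ha).aeval P).right_zero ((h.mem_R a).1 ha)

lemma Q_Q {a : W.K} (ha : a ∈ R) : aeval (aeval a Q) Q = a := by
  obtain ⟨ι⟩ := exists_emb W.K
  exact (h.conj_R (ι := ι) (h.Q_mem ha)).unique (h.conj_R (ι := ι) ha).symm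

/-- Orthogonality of the eigenspaces. -/
lemma ortho {a b : W.K} {x y : W.H X} (hx : x ∈ transcendental W X) (hax : e x = a • x)
    (hy : y ∈ transcendental W X) (hby : e y = b • y) (hab : a ≠ aeval b Q) :
    W.tr X (x * y) = 0 := by
  have h1 := h.adj x hx y hy
  have h2 : aeval e (Q.map (algebraMap ℚ W.K)) y = (aeval b Q) • y := by
    rw [aeval_of_eig hby, eval_map_algebraMap]
  rw [hax, h2, smul_mul_assoc, mul_smul_comm, map_smul, map_smul, smul_eq_mul, smul_eq_mul,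
    ← sub_eq_zero, ← sub_mul, mul_eq_zero, sub_eq_zero] at h1
  exact h1.resolve_left hab

/-- The conjugate eigenspace. -/
noncomputable def _root_.Pool.Agent.R908.barQ (Q : ℚ[X]) (R : Finset W.K) (a : W.K) : W.K :=
  haveI := Classical.dec (a ∈ R)
  if a ∈ R then aeval a Q else a

omit h in
lemma bar_mem {a : W.K} (ha : a ∈ R) : barQ Q R a = aeval a Q := if_pos ha

omit h in
lemma bar_not {a : W.K} (ha : a ∉ R) : barQ Q R a = a := if_neg ha

lemma bar_R {a : W.K} (ha : a ∈ R) : barQ Q R a ∈ R := by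
  rw [bar_mem ha]
  exact h.Q_mem ha

lemma bar_bar (a : W.K) : barQ Q R (barQ Q R a) = a := by
  by_cases ha : a ∈ R
  · rw [bar_mem (h.bar_R ha), bar_mem ha, h.Q_Q ha]
  · rw [bar_not (by rwa [bar_not ha]), bar_not ha]

/-- The eigenspaces for conjugate eigenvalues are dual. -/
lemma bar_deg {δ : W.K → ℕ} (hδ : ∀ a x, eigT s e R a x ∈ W.gr X (δ a)) {a : W.K}
    (ha : eigT s e R a ≠ 0) : eigT s e R (barQ Q R a) ≠ 0 ∧ δ a + δ (barQ Q R a) = 2 * X.dim := by
  have haR : a ∈ R := by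
    by_contra h0
    exact ha (h.eigT_not_mem h0)
  obtain ⟨x, hx⟩ : ∃ x, eigT s e R a x ≠ 0 := by
    by_contra hcon
    push Not at hcon
    exact ha (LinearMap.ext hcon)
  have hfix := s.fix _ (h.eigT_T a x)
  obtain ⟨y, hy⟩ : ∃ y, W.tr X (s.eT (eigT s e R a x) * s.eT y) ≠ 0 := by
    by_contra hcon
    push Not at hcon
    exact hx (by rw [← hfix]; exact s.nondeg _ hcon)
  rw [hfix, ← h.eigT_sum y, Finset.mul_sum, map_sum] at hy
  obtain ⟨b, hb, hb0⟩ := Finset.exists_ne_zero_of_sum_ne_zero hy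
  have h1 : a = aeval b Q := by
    by_contra hab
    exact hb0 (h.ortho (h.eigT_T a x) (h.e_eigT a x) (h.eigT_T b y) (h.e_eigT b y) hab)
  have h2 : barQ Q R a = b := by rw [bar_mem haR, h1, h.Q_Q hb]
  rw [h2]
  refine ⟨?_, ?_⟩
  · intro h0
    rw [h0, LinearMap.zero_apply, mul_zero, map_zero] at hb0
    exact hb0 rfl
  · by_contra hne
    exact hb0 (W.tr_eq_zero (W.mul_mem (hδ a x) (hδ b y)) hne)

lemma bar_zero {a : W.K} (ha : eigT s e R a = 0) : eigT s e R (barQ Q R a) = 0 := by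
  obtain ⟨δ, hδ⟩ := h.exists_deg
  by_contra hne
  have h1 := (h.bar_deg hδ hne).1
  rw [h.bar_bar] at h1
  exact h1 ha

omit h in
lemma eigT_eq (s : TSplit W X) (e : Module.End W.K (W.H X)) (R : Finset W.K) (b : W.K) {N : ℕ}
    (hbN : (bas R b).natDegree ≤ N) : eigT s e R b =
      ∑ i : Fin (N + 1), (bas R b).coeff i • (e ^ (i : ℕ) * s.eT : Module.End W.K (W.H X)) := by
  have h1 : eigT s e R b = ∑ i ∈ Finset.range (N + 1),
      (bas R b).coeff i • (e ^ i * s.eT : Module.End W.K (W.H X)) := by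
    change aeval e (bas R b) * s.eT = _
    rw [aeval_eq_sum_range' (show (bas R b).natDegree < N + 1 by omega), Finset.sum_mul]
    exact Finset.sum_congr rfl fun i _ => smul_mul_assoc _ _ _
  rw [h1, Fin.sum_univ_eq_sum_range (fun i => (bas R b).coeff i •
    (e ^ i * s.eT : Module.End W.K (W.H X))) (N + 1)]

/-- Projectors to conjugate eigenspaces. -/
lemma pair {ι : algebraicClosure ℚ W.K →ₐ[ℚ] ℂ} (a : W.K) :
    PairK W ι X (eigT s e R a) (eigT s e R (barQ Q R a)) := by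
  by_cases ha : a ∈ R
  swap
  · rw [bar_not ha, h.eigT_not_mem ha]
    exact PairK.zero
  rw [bar_mem ha]
  set N := max (bas R a).natDegree (bas R (aeval a Q)).natDegree with hN
  rw [eigT_eq s e R a (le_max_left _ _ : _ ≤ N), eigT_eq s e R (aeval a Q)
    (le_max_right _ _ : _ ≤ N)]
  exact ⟨Fin (N + 1), inferInstance, fun i => (bas R a).coeff i,
    fun i => (bas R (aeval a Q)).coeff i, fun i => (e ^ (i : ℕ) * s.eT : Module.End W.K (W.H X)),
    fun i => cConj_bas h.c_ne h.prod ha (h.Q_mem ha) (h.conj_R ha) i,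
    fun i => RatOp.comp (RatOp.pow h.rat i) s.eT_mem, rfl, rfl⟩

end CJ

end Pool.Agent.R908
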