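import Pool.Agent.R908.KpG

/-!
# A cycle acting by complex conjugation: the letters
-/

open CategoryTheory AlgebraicGeometry TensorProduct Function Polynomial

universe u v w w'

namespace Pool.Agent.R908

open Pool.Agent.H914 Pool.Agent.H914.VarClass Pool.Agent.H914.VarClass.Obj
  Pool.Agent.H914.WeilCohomology Pool.Agent.H281R3.HT Km

variable {k : Type u} [Field k] {𝒱 : VarClass k} {ops : CycleOps 𝒱}
  {W : WeilCohomology.{u, v} ops} {X Y Z X' Y' Z' : 𝒱.Obj} {𝒢 : Set (Symmetry W)}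

/-- The sign of a label. -/
noncomputable def rr (W : WeilCohomology.{u, v} ops) (δ : W.K → ℕ) (w : ℕ) (a : W.K) : W.K :=
  if Even (δ a + w) then 1 else 0

lemma rr_sq (δ : W.K → ℕ) (w : ℕ) (a : W.K) : rr W δ w a * rr W δ w a = rr W δ w a := by
  rw [rr]
  split_ifs
  · rw [one_mul]
  · rw [zero_mul]

/-- The projector to an eigenspace in the part of parity `w`. -/
noncomputable def pw (s : TSplit W X) (e : Module.End W.K (W.H X)) (R : Finset W.K)
    (δ : W.K → ℕ) (w : ℕ) (a : W.K) : Module.End W.K (W.H X) :=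
  rr W δ w a • eigT s e R a

/-- The sign operator. -/
noncomputable def kap (s : TSplit W X) (e : Module.End W.K (W.H X)) (R : Finset W.K)
    (δ : W.K → ℕ) : Module.End W.K (W.H X) :=
  ∑ a ∈ R, ((-1 : W.K) ^ (δ a)) • eigT s e R a

namespace CJ

variable {s : TSplit W X} {e : Module.End W.K (W.H X)} {P Q : ℚ[X]}
    {R : Finset W.K} {c₀ : W.K} (h : CJ s 𝒢 e P Q R c₀) {δ : W.K → ℕ}
    (hδ : ∀ a x, eigT s e R a x ∈ W.gr X (δ a))

include h

lemma kap_mem : kap s e R δ ∈ KOp W X X 0 :=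
  Submodule.sum_mem _ fun a _ => Submodule.smul_mem _ _ (h.eigT_mem a)

include hδ

lemma deg_eq {a : W.K} {i : ℕ} {x : W.H X} (hx : x ∈ W.gr X i) (hne : eigT s e R a x ≠ 0) :
    i = δ a := by
  by_contra hcon
  apply hne
  have h1 : eigT s e R a x ∈ W.gr X i := Mot.hom_deg0 (h.eigT_mem a) hx
  rw [← proj_same (W.isInternal X) h1]
  exact proj_ne (W.isInternal X) (hδ a x) (Ne.symm hcon)

lemma kap_sign : ∀ i, ∀ a ∈ W.gr X i, a ∈ transcendental W X →
    kap s e R δ a = (-1 : W.K) ^ i • a := by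
  intro i x hx hT
  rw [kap, LinearMap.sum_apply]
  conv_rhs => rw [← s.fix x hT, ← h.eigT_sum x, Finset.smul_sum]
  refine Finset.sum_congr rfl fun a _ => ?_
  rw [LinearMap.smul_apply]
  by_cases h0 : eigT s e R a x = 0
  · rw [h0, smul_zero, smul_zero]
  · rw [h.deg_eq hδ hx h0]

lemma pw_apply {a : W.K} {w i : ℕ} {x : W.H X} (hx : x ∈ W.gr X i) :
    pw s e R δ w a x = if Even (i + w) then eigT s e R a x else 0 := by
  rw [pw, LinearMap.smul_apply]
  by_cases h0 : eigT s e R a x = 0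
  · rw [h0, smul_zero, ite_self]
  · rw [rr, ← h.deg_eq hδ hx h0]
    split_ifs
    · rw [one_smul]
    · rw [zero_smul]

omit hδ in
lemma pw_mem (w : ℕ) (a : W.K) : pw s e R δ w a ∈ KOp W X X 0 :=
  Submodule.smul_mem _ _ (h.eigT_mem a)

omit hδ in
lemma pw_T (w : ℕ) (a : W.K) (x : W.H X) : pw s e R δ w a x ∈ transcendental W X :=
  Submodule.smul_mem _ _ (h.eigT_T a x)

omit hδ in
lemma e_pw (w : ℕ) (a : W.K) (x : W.H X) : e (pw s e R δ w a x) = a • pw s e R δ w a x := by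
  rw [pw, LinearMap.smul_apply, map_smul, h.e_eigT, smul_comm]

lemma sum_pw (w : ℕ) : ∑ a ∈ R, pw s e R δ w a = s.ew (kap s e R δ) w := by
  apply gr_ext (W.isInternal X)
  intro i x hx
  rw [LinearMap.sum_apply, s.ew_apply (h.kap_sign hδ) w hx,
    Finset.sum_congr rfl fun a _ => h.pw_apply hδ hx]
  by_cases he : Even (i + w)
  · simp only [if_pos he]
    exact h.eigT_sum x
  · simp only [if_neg he]
    exact Finset.sum_const_zero

lemma ew_pw (w : ℕ) (a : W.K) : s.ew (kap s e R δ) w ∘ₗ pw s e R δ w a = pw s e R δ w a := by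
  apply LinearMap.ext
  intro x
  rw [LinearMap.comp_apply, pw, LinearMap.smul_apply, map_smul,
    s.ew_apply (h.kap_sign hδ) w (hδ a x), rr, s.fix _ (h.eigT_T a x)]
  split_ifs
  · rfl
  · rw [zero_smul, zero_smul]

omit hδ in
lemma eigT_eT (a : W.K) (x : W.H X) : eigT s e R a (s.eT x) = eigT s e R a x := by
  change aeval e (bas R a) (s.eT (s.eT x)) = aeval e (bas R a) (s.eT x)
  rw [s.fix _ (s.mem_T x)]

lemma pw_ew (w : ℕ) (a : W.K) : pw s e R δ w a ∘ₗ s.ew (kap s e R δ) w = pw s e R δ w a := by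
  apply gr_ext (W.isInternal X)
  intro i x hx
  rw [LinearMap.comp_apply, s.ew_apply (h.kap_sign hδ) w hx]
  by_cases he : Even (i + w)
  · rw [if_pos he, pw, LinearMap.smul_apply, LinearMap.smul_apply, h.eigT_eT]
  · rw [if_neg he, map_zero, h.pw_apply hδ hx, if_neg he]

omit hδ in
lemma pw_idem (w : ℕ) (a : W.K) : pw s e R δ w a ∘ₗ pw s e R δ w a = pw s e R δ w a := by
  apply LinearMap.ext
  intro x
  rw [LinearMap.comp_apply, pw, LinearMap.smul_apply, LinearMap.smul_apply, map_smul,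
    h.eigT_self (h.eigT_T a x) (h.e_eigT a x), smul_smul, rr_sq]

omit hδ in
lemma pw_ortho (w : ℕ) (a b : W.K) (hab : a ≠ b) :
    pw s e R δ w a ∘ₗ pw s e R δ w b = 0 := by
  apply LinearMap.ext
  intro x
  rw [LinearMap.comp_apply, pw, pw, LinearMap.smul_apply, LinearMap.smul_apply, map_smul,
    LinearMap.zero_apply]
  by_cases hb : b ∈ R
  · rw [h.eigT_other hb (h.eigT_T b x) (h.e_eigT b x) hab, smul_zero, smul_zero]
  · rw [h.eigT_not_mem hb, LinearMap.zero_apply, map_zero, smul_zero, smul_zero]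

omit hδ in
/-- The projectors to conjugate eigenspaces are adjoint. -/
lemma adjT (l : W.K) (x y : W.H X) :
    W.tr X (eigT s e R l x * y) = W.tr X (x * eigT s e R (barQ Q R l) y) := by
  by_cases hl : l ∈ R
  swap
  · rw [bar_not hl, h.eigT_not_mem hl, LinearMap.zero_apply, LinearMap.zero_apply, zero_mul,
      mul_zero]
  have hb := h.bar_R hl
  rw [s.tr_right (h.eigT_T l x) y, s.tr_left (h.eigT_T _ y) x, ← h.eigT_sum y, ← h.eigT_sum x,
    Finset.mul_sum, Finset.sum_mul, map_sum, map_sum, Finset.sum_eq_single (barQ Q R l),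
    Finset.sum_eq_single l]
  · intro b _ hbl
    refine h.ortho (h.eigT_T b x) (h.e_eigT b x) (h.eigT_T _ y) (h.e_eigT _ y) ?_
    rw [bar_mem hl, h.Q_Q hl]
    exact hbl
  · intro h0
    exact absurd hl h0
  · intro c hc hcl
    refine h.ortho (h.eigT_T l x) (h.e_eigT l x) (h.eigT_T _ y) (h.e_eigT _ y) ?_
    intro h0
    apply hcl
    rw [bar_mem hl, h0, h.Q_Q hc]
  · intro h0
    exact absurd hb h0

lemma rr_bar (w : ℕ) (l : W.K) : rr W δ w l • eigT s e R (barQ Q R l) =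
    rr W δ w (barQ Q R l) • eigT s e R (barQ Q R l) := by
  by_cases h0 : eigT s e R l = 0
  · rw [h.bar_zero h0, smul_zero, smul_zero]
  · have h1 := (h.bar_deg hδ h0).2
    have h2 : Even (δ l + w) ↔ Even (δ (barQ Q R l) + w) := by
      have h3 : (Even (δ l) ↔ Even (δ (barQ Q R l))) := Nat.even_add.1 ⟨X.dim, by omega⟩
      rw [Nat.even_add, Nat.even_add, h3]
    rw [rr, rr]
    simp only [h2]

lemma adj_pw (w : ℕ) (l : W.K) (x y : W.H X) :
    W.tr X (pw s e R δ w l x * s.ew (kap s e R δ) w y) =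
      W.tr X (x * s.ew (kap s e R δ) w (pw s e R δ w (barQ Q R l) y)) := by
  have h1 := congrArg (fun F => F y) (h.ew_pw hδ w (barQ Q R l))
  have h2 := congrArg (fun F => F y) (h.pw_ew hδ w (barQ Q R l))
  beta_reduce at h1 h2
  rw [LinearMap.comp_apply] at h1 h2
  rw [h1, ← h2]
  have h3 := congrArg (fun F => F (s.ew (kap s e R δ) w y)) (h.rr_bar hδ w l)
  beta_reduce at h3
  rw [LinearMap.smul_apply] at h3
  have h4 : pw s e R δ w (barQ Q R l) (s.ew (kap s e R δ) w y) =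
      rr W δ w l • eigT s e R (barQ Q R l) (s.ew (kap s e R δ) w y) := h3.symm
  rw [h4, pw, LinearMap.smul_apply, smul_mul_assoc, mul_smul_comm, map_smul, map_smul, h.adjT]

/-- The blocks. -/
lemma blocks (w : ℕ) : Blocks (s.Mw h.kap_mem (h.kap_sign hδ) w) (s.ew (kap s e R δ) w) R
    (barQ Q R) (pw s e R δ w) where
  mem l := ⟨0, h.pw_mem w l⟩
  e_p l := h.ew_pw hδ w l
  p_e l := h.pw_ew hδ w l
  idem l := h.pw_idem w l
  ortho l l' hl := h.pw_ortho w l l' hl
  sum := h.sum_pw hδ w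
  bb := h.bar_bar
  adj l x y := h.adj_pw hδ w l x y

lemma pair_pw {ι : algebraicClosure ℚ W.K →ₐ[ℚ] ℂ} (w : ℕ) (a : W.K) :
    PairK W ι X (pw s e R δ w a) (pw s e R δ w (barQ Q R a)) := by
  have h1 : pw s e R δ w (barQ Q R a) = rr W δ w a • eigT s e R (barQ Q R a) :=
    (h.rr_bar hδ w a).symm
  rw [h1]
  refine PairK.csmul ?_ (h.pair a)
  rw [rr]
  split_ifs
  · exact CConj.one
  · exact CConj.zero

lemma pair_ew {ι : algebraicClosure ℚ W.K →ₐ[ℚ] ℂ} (w : ℕ) :
    PairK W ι X (s.ew (kap s e R δ) w) (s.ew (kap s e R δ) w) := by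
  have h1 : s.ew (kap s e R δ) w = ∑ a ∈ R, pw s e R δ w (barQ Q R a) := by
    rw [← h.sum_pw hδ w]
    refine Finset.sum_bij' (fun a _ => barQ Q R a) (fun a _ => barQ Q R a) ?_ ?_ ?_ ?_ ?_
    · intro a ha
      exact h.bar_R ha
    · intro a ha
      exact h.bar_R ha
    · intro a _
      exact h.bar_bar a
    · intro a _
      exact h.bar_bar a
    · intro a _
      rw [h.bar_bar]
  conv =>
    arg 5
    rw [h1]
  rw [← h.sum_pw hδ w]
  exact PairK.sum _ fun a _ => h.pair_pw hδ w a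

end CJ

end Pool.Agent.R908
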