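import Pool.Agent.R908.MainB

/-!
# The conjecture D for the products of abelian varieties over finite fields with other varieties,
continued
-/

open CategoryTheory AlgebraicGeometry TensorProduct Polynomial

universe u v w w'

namespace Pool.Agent.R908

open Pool.Agent.H914 Pool.Agent.H914.VarClass Pool.Agent.H914.VarClass.Obj
  Pool.Agent.H914.WeilCohomology Pool.Agent.H281R3.HT Pool.Agent.W534

variable {k : Type u} [Field k] {𝒱 : VarClass k} {ops : CycleOps 𝒱}
  {W : WeilCohomology.{u, v} ops} {p : ℕ} {Φ : FrobSystem W p} {A : 𝒱.Obj}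
  {m : A.prod A ⟶ A} {D : A.Cycles} {𝒴 : Set 𝒱.Obj}

/-- The conjecture D for products. -/
theorem homEqNum_of_balanced (hA : IsAbelianOverFinite Φ A m D)
    (hbal : RelationsBalanced Φ A 𝒴) (h𝒴 : ∀ Y, IsProductOf 𝒴 Y → HomEqNum W Y) {Z : 𝒱.Obj}
    (hZ : IsProductOf ({A} ∪ 𝒴) Z) : HomEqNum W Z := by
  classical
  obtain ⟨π, hπ, hK⟩ := exists_projs hA.abelianLike
  have hp := isPiece_one hA hπ hK
  set E : Unit → PieceData Φ := fun _ =>
    { V := A
      e := π 1
      P := minpoly W.K ((fr Φ A).restrict (hfrN Φ A 1))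
      c := (p : W.K) ^ Φ.e A
      δ := ((A.dim - 1 : ℕ) : ℤ)
      θ := lefP W A D (A.dim - 1)
      h := hp } with hE
  have hroots : ∀ i : Unit, ∃ R : Finset (AlgebraicClosure W.K), IsRoots (E i).P R := by
    intro i
    obtain ⟨R, h1, h2⟩ := exists_roots (K := W.K) (L := AlgebraicClosure W.K)
      (P := (E i).P) hp.sqf
    exact ⟨R, h1, h2⟩
  choose R hR using hroots
  have hB : Balanced E (AlgebraicClosure W.K) 𝒴 := by
    intro l l' hl hl' hrel
    have h1 := hbal (l.map (fun x => x.2)) (l'.map (fun y => (y.2, Φ.e y.1))) (by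
      intro a ha
      obtain ⟨x, hx, rfl⟩ := List.mem_map.1 ha
      exact isEigenvalueOn_of_root (hfrN Φ A 1) (hl x hx)) (by
      intro y hy
      obtain ⟨z, hz, rfl⟩ := List.mem_map.1 hy
      exact ⟨z.1, (hl' z hz).1, rfl, isEigenvalueOn_top (hl' z hz).2⟩) (by
      rw [List.map_map]
      exact hrel)
    have h2 := h1.map (fun f => ((), f))
    rw [List.map_map, List.map_map, List.map_map, List.map_map] at h2
    have h3 : (l.map (fun x => (x.1, minpoly W.K x.2))) =
        l.map ((fun f => ((), f)) ∘ minpoly W.K ∘ fun x => x.2) := rfl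
    have h4 : (l.map (fun x => (x.1, minpoly W.K (algebraMap W.K (AlgebraicClosure W.K)
        (E x.1).c / x.2)))) = l.map ((fun f => ((), f)) ∘ (fun a => minpoly W.K
          ((p : AlgebraicClosure W.K) ^ Φ.e A / a)) ∘ fun x => x.2) := by
      apply List.map_congr_left
      intro x _
      have h5 : algebraMap W.K (AlgebraicClosure W.K) (E x.1).c =
          (p : AlgebraicClosure W.K) ^ Φ.e A := by
        change algebraMap W.K (AlgebraicClosure W.K) ((p : W.K) ^ Φ.e A) = _
        rw [map_pow, map_natCast]
      rw [h5]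
      rfl
    rw [h3, h4]
    exact h2
  have hup : ∀ Y, IsProductOf 𝒴 Y → HomEqNum (baseW W (AlgebraicClosure W.K)) Y :=
    fun Y hY => homEqNum_up (h𝒴 Y hY)
  have hPcls := WCls.num (hR := hR) hB hup
  apply homEqNum_base (L := AlgebraicClosure W.K)
  refine RetOp.homEqNum (P := WCls E hR 𝒴) hPcls ?_
  -- the identity of the abelian variety
  have hAid : LinearMap.id ∈ RetOp (baseW W (AlgebraicClosure W.K)) (WCls E hR 𝒴) A A := by
    by_cases hone : (1 : W.H A) = 0
    · have h1 : (LinearMap.id : (baseW W (AlgebraicClosure W.K)).H A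
          →ₗ[(baseW W (AlgebraicClosure W.K)).K] (baseW W (AlgebraicClosure W.K)).H A) = 0 := by
        apply LinearMap.ext
        intro x
        have h2 : (1 : (baseW W (AlgebraicClosure W.K)).H A) = 0 := by
          have h3 : ((1 : AlgebraicClosure W.K) ⊗ₜ[W.K] (1 : W.H A) :
              AlgebraicClosure W.K ⊗[W.K] W.H A) = 0 := by rw [hone, TensorProduct.tmul_zero]
          exact h3
        calc (LinearMap.id : (baseW W (AlgebraicClosure W.K)).H A
              →ₗ[(baseW W (AlgebraicClosure W.K)).K] (baseW W (AlgebraicClosure W.K)).H A) x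
            = 1 * x := by rw [one_mul]; rfl
          _ = 0 := by rw [h2, zero_mul]
      rw [h1]
      exact Submodule.zero_mem _
    · obtain ⟨c, hc, hc1⟩ := exists_point hA hone
      have hπL := isProjs_base (L := AlgebraicClosure W.K) hπ
      refine id_mem_retOp (isAbelianLike_base hA.abelianLike) hπL
        (fun i => upW_mem (hK i)) WCls.tensor ?_ ?_
      · have hidem : upW (AlgebraicClosure W.K) (π 0) ∘ₗ upW (AlgebraicClosure W.K) (π 0) =
            upW (AlgebraicClosure W.K) (π 0) := by
          apply gr_ext ((baseW W (AlgebraicClosure W.K)).isInternal A)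
          intro i x hx
          rw [LinearMap.comp_apply, hπL 0 i x hx]
          split_ifs with h0
          · rw [hπL 0 i x hx, if_pos h0]
          · rw [map_zero]
        set B : Mot (baseW W (AlgebraicClosure W.K)) :=
          ⟨A, upW (AlgebraicClosure W.K) (π 0), upW_mem (hK 0), hidem⟩ with hBdef
        have hAlg : B.Alg := by
          have hc' := one_tmul_span (L := AlgebraicClosure W.K) hc
          have htr : (baseW W (AlgebraicClosure W.K)).tr A
              ((1 : AlgebraicClosure W.K) ⊗ₜ[W.K] c) = 1 := by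
            have h1 : formBase (AlgebraicClosure W.K) (W.tr A)
                ((1 : AlgebraicClosure W.K) ⊗ₜ[W.K] c) = 1 := by
              rw [formBase_tmul, hc1, map_one, mul_one]
            exact h1
          refine ⟨1, fun _ => (1 : AlgebraicClosure W.K) ⊗ₜ[W.K] c, fun _ => 1,
            fun _ => A.dim, fun _ => hc', fun x => ?_⟩
          rw [Finset.univ_unique, Finset.sum_singleton]
          exact projs_zero_alg hπL hc' htr x
        exact RetOp.self (B := B) (WCls.alg hAlg)
      · have h1 : upW (AlgebraicClosure W.K) (π 1) =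
            ∑ b ∈ R (), epW Φ A (π 1) (R ()) b := hp.sum_ep (hR ())
        change upW (AlgebraicClosure W.K) (π 1) ∈ _
        rw [h1]
        refine Submodule.sum_mem _ (fun b hb => ?_)
        exact RetOp.self (B := letD E hR ((), b)) (WCls.letter hb)
  induction hZ with
  | base hX =>
    rename_i X
    rcases hX with hX | hX
    · rw [Set.mem_singleton_iff] at hX
      rw [hX]
      exact hAid
    · exact id_mem_other hX
  | prod _ _ h1 h2 =>
    rw [← extHom_id]
    exact RetOp.ext WCls.tensor h1 h2

/-- **The conjectures D and B for all varieties dominated by products.** -/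
theorem balanced_iff (hA : IsAbelianOverFinite Φ A m D) (hbal : RelationsBalanced Φ A 𝒴) :
    (∀ Y, IsProductOf 𝒴 Y → HomEqNum W Y) ↔
      ∀ Z, IsProductOf ({A} ∪ 𝒴) Z → ∀ V, Dominates W Z V → HomEqNum W V ∧
        ∀ D, V.IsCyc 1 D → HardLefschetz W V D → LefschetzB W V D := by
  constructor
  · intro h2 Z hZ V hV
    have key : ∀ Z, IsProductOf ({A} ∪ 𝒴) Z → ∀ V, Dominates W Z V → HomEqNum W V :=
      fun Z hZ V hV => (homEqNum_of_balanced hA hbal h2 hZ).image hV
    refine ⟨key Z hZ V hV, fun D hD hHL => ?_⟩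
    have h3 := key (Z.prod Z) (IsProductOf.prod hZ hZ) (V.prod V) (dominates_prod hV hV)
    apply Pool.Agent.H447.lefschetzB_of_homEqNumIn hD hHL
    intro z hz hnum
    by_cases hd : V.dim + 1 ≤ (V.prod V).dim
    · exact h3 (V.dim + 1) hd z hz hnum
    · have h4 := W.cl_mem hz
      rw [W.gr_eq_bot _ _ (by omega), Submodule.mem_bot] at h4
      exact h4
  · intro h Y hY
    have h1 : ∀ Y, IsProductOf 𝒴 Y → IsProductOf ({A} ∪ 𝒴) Y := by
      intro Y hY
      induction hY with
      | base hX => exact IsProductOf.base (Or.inr hX)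
      | prod _ _ h1 h2 => exact IsProductOf.prod h1 h2
    exact (h Y (h1 Y hY) Y (dominates_refl Y)).1

end Pool.Agent.R908
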