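import Pool.Agent.R908.RatE
import Pool.Agent.R908.MainB2

/-!
# The injectivity conjecture and the conjecture D
-/

open CategoryTheory AlgebraicGeometry TensorProduct Polynomial

universe u v w w'

namespace Pool.Agent.R908

open Pool.Agent.H914 Pool.Agent.H914.VarClass Pool.Agent.H914.VarClass.Obj
  Pool.Agent.H914.WeilCohomology Pool.Agent.H281R3.HT Pool.Agent.W534

variable {k : Type u} [Field k] {𝒱 : VarClass k} {ops : CycleOps 𝒱}
  {W : WeilCohomology.{u, v} ops} {p : ℕ} {Φ : FrobSystem W p} {X Y Z : 𝒱.Obj}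

/-- Homological and numerical equivalence coincide only if the injectivity conjecture holds. -/
theorem injectivity_of_homEqNum (h : HomEqNum W Z) : InjectivityConj W Z := by
  intro j n z hz hq
  rw [Fintype.linearIndependent_iff]
  intro a ha i
  by_cases hj : j ≤ Z.dim
  · by_contra hne
    obtain ⟨f, hf⟩ := Module.Projective.exists_dual_eq_one ℚ hne
    have h1 : W.cl Z (∑ i, f (a i) • z i) = 0 := by
      have h2 : ∑ i, ((f (a i) : ℚ) : W.K) • W.cl Z (z i) ∈ algClasses W Z j :=
        alg_sum Finset.univ _ _ (fun i _ => ⟨z i, hz i, rfl⟩)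
      have h3 : W.cl Z (∑ i, f (a i) • z i) = ∑ i, ((f (a i) : ℚ) : W.K) • W.cl Z (z i) := by
        rw [map_sum]
        exact Finset.sum_congr rfl (fun i _ => W.cl_smul _ _)
      rw [h3]
      apply eq_zero_of_D h hj h2
      intro d hd
      choose m hm using fun i => alg_rat (show W.cl Z (z i) ∈ algClasses W Z j from ⟨z i, hz i, rfl⟩)
        hd
      have h4 : ∑ i, a i * (m i : W.K) = 0 := by
        have h5 := congrArg (fun t => W.tr Z (t * d)) ha
        beta_reduce at h5
        rw [zero_mul, map_zero, Finset.sum_mul, map_sum] at h5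
        rw [← h5]
        apply Finset.sum_congr rfl
        intro i _
        have h6 := hm i
        rw [bil_apply] at h6
        rw [smul_mul_assoc, map_smul, h6, smul_eq_mul]
      have h7 : ∑ i, f (a i) * m i = 0 := by
        have h8 := congrArg f h4
        rw [map_sum, map_zero] at h8
        rw [← h8]
        apply Finset.sum_congr rfl
        intro i _
        have h9 : a i * (m i : W.K) = m i • a i := by
          rw [Algebra.smul_def, eq_ratCast, mul_comm]
        rw [h9, map_smul, smul_eq_mul, mul_comm]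
      rw [Finset.sum_mul, map_sum]
      have h10 : ∀ i, W.tr Z (((f (a i) : ℚ) : W.K) • W.cl Z (z i) * d) =
          ((f (a i) * m i : ℚ) : W.K) := by
        intro i
        have h6 := hm i
        rw [bil_apply] at h6
        rw [smul_mul_assoc, map_smul, h6, smul_eq_mul, Rat.cast_mul]
      rw [Finset.sum_congr rfl (fun i _ => h10 i), ← Rat.cast_sum, h7, Rat.cast_zero]
    have h11 := hq _ h1 i
    rw [hf] at h11
    exact one_ne_zero h11
  · exfalso
    have h1 : W.cl Z (∑ l, (if l = i then (1 : ℚ) else 0) • z l) = 0 := by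
      rw [map_sum]
      apply Finset.sum_eq_zero
      intro l _
      rw [W.cl_smul]
      have h2 := W.cl_mem (hz l)
      rw [W.gr_eq_bot Z _ (by omega), Submodule.mem_bot] at h2
      rw [h2, smul_zero]
    have h2 := hq _ h1 i
    rw [if_pos rfl] at h2
    exact one_ne_zero h2

section Words

variable {L : Type v} [Field L] [Algebra W.K L] {Λ : Type w} {f : Λ → Mot (baseW W L)}
  {G : Set Λ} {𝒴 : Set 𝒱.Obj}

/-- Products of letters, of direct factors cut out by algebraic classes, and of whole products. -/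
def WWord (f : Λ → Mot (baseW W L)) (G : Set Λ) (𝒴 : Set 𝒱.Obj) (B : Mot (baseW W L)) : Prop :=
  ∃ (T : List (Mot (baseW W L))) (l : List Λ) (y : Mon (baseW W L)),
    (∀ t ∈ T, t.Alg) ∧ (∀ x ∈ l, x ∈ G) ∧ WholeY (baseW W L) 𝒴 y ∧
    B.m = (T.map Mot.m).prod * ((l.map (fun x => (f x).m)).prod * y)

lemma WWord.tensor (A B : Mot (baseW W L)) (hA : WWord f G 𝒴 A) (hB : WWord f G 𝒴 B) :
    WWord f G 𝒴 (A.tensor B) := by
  obtain ⟨T, l, y, h1, h2, h3, h4⟩ := hA
  obtain ⟨T₂, l₂, y₂, h1', h2', h3', h4'⟩ := hB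
  refine ⟨T ++ T₂, l ++ l₂, y * y₂, ?_, ?_, h3.mul h3', ?_⟩
  · intro t ht
    rcases List.mem_append.1 ht with h | h
    · exact h1 t h
    · exact h1' t h
  · intro t ht
    rcases List.mem_append.1 ht with h | h
    · exact h2 t h
    · exact h2' t h
  · rw [Mot.m_tensor, h4, h4']
    simp only [List.map_append, List.prod_append]
    simp only [mul_assoc, mul_left_comm]

lemma WWord.alg {B : Mot (baseW W L)} (h : B.Alg) : WWord f G 𝒴 B := by
  refine ⟨[B], [], 1, ?_, ?_, Or.inl rfl, ?_⟩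
  · intro t ht
    rw [List.mem_singleton] at ht
    rw [ht]
    exact h
  · intro t ht; exact absurd ht List.not_mem_nil
  · simp only [List.map_nil, List.prod_nil, List.map_cons, List.prod_cons, mul_one]

lemma WWord.letter {x : Λ} (hx : x ∈ G) : WWord f G 𝒴 (f x) := by
  refine ⟨[], [x], 1, ?_, ?_, Or.inl rfl, ?_⟩
  · intro t ht; exact absurd ht List.not_mem_nil
  · intro t ht
    rw [List.mem_singleton] at ht
    rw [ht]
    exact hx
  · simp only [List.map_nil, List.prod_nil, List.map_cons, List.prod_cons, mul_one, one_mul]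

lemma WWord.whole {Y : 𝒱.Obj} (hY : Y ∈ 𝒴) : WWord f G 𝒴 (whole (baseW W L) Y) := by
  refine ⟨[], [], _, ?_, ?_, Or.inr ⟨Y, IsProductOf.base hY, rfl⟩, ?_⟩
  · intro t ht; exact absurd ht List.not_mem_nil
  · intro t ht; exact absurd ht List.not_mem_nil
  · simp only [List.map_nil, List.prod_nil, one_mul]

lemma WWord.num (h : ∀ (l : List Λ) (y : Mon (baseW W L)), (∀ x ∈ l, x ∈ G) →
      WholeY (baseW W L) 𝒴 y → MNum ((l.map (fun x => (f x).m)).prod * y))
    (B : Mot (baseW W L)) (hB : WWord f G 𝒴 B) : B.Num := by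
  obtain ⟨T, l, y, hT, hl, hy, hBm⟩ := hB
  rw [← mnum_m, hBm]
  have hmain := h l y hl hy
  clear hBm
  induction T with
  | nil => rw [List.map_nil, List.prod_nil, one_mul]; exact hmain
  | cons t T ih =>
    rw [List.map_cons, List.prod_cons, mul_assoc]
    exact mnum_alg (hT t List.mem_cons_self)
      (ih (fun t ht => hT t (List.mem_cons_of_mem _ ht)))

end Words

variable {P 𝒴 : Set 𝒱.Obj}

/-- **The injectivity conjecture implies the conjecture D.** -/
theorem homEqNum_of_injectivity (hP : ∀ X ∈ P, IsFrobeniusRich Φ X)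
    (hD : ∀ X ∈ P, HomEqNum W X) (h𝒴 : ∀ Y, IsProductOf 𝒴 Y → HomEqNum W Y)
    (hI : ∀ Z, IsProductOf (P ∪ 𝒴) Z → InjectivityConj W Z) (hZ : IsProductOf (P ∪ 𝒴) Z) :
    HomEqNum W Z := by
  classical
  have hs : ∀ X : P, Nonempty (TSplit W (X : 𝒱.Obj)) := fun X => exists_tSplit (hD X X.2)
  obtain ⟨s⟩ : Nonempty (∀ X : P, TSplit W (X : 𝒱.Obj)) := ⟨fun X => (hs X).some⟩
  choose Pol hsq hroot hkill using fun X : P => (hP X X.2).weil
  have hsqK : ∀ X : P, Squarefree ((Pol X).map (algebraMap ℚ W.K)) := fun X =>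
    ((PerfectField.separable_iff_squarefree.2 (hsq X)).map (f := algebraMap ℚ W.K)).squarefree
  have hpiece : ∀ X : P, IsPiece Φ (X : 𝒱.Obj) (s X).eT ((Pol X).map (algebraMap ℚ W.K))
      (((p : W.K) ^ Φ.e (X : 𝒱.Obj)) ^ (X : 𝒱.Obj).dim) 0 LinearMap.id := fun X =>
    (s X).isPiece (hsqK X) (fun x hx => hkill X x hx) (hP X X.2).tate
  have hroots : ∀ X : P, ∃ R : Finset (AlgebraicClosure W.K),
      IsRoots ((Pol X).map (algebraMap ℚ W.K)) R := by
    intro X
    obtain ⟨R, h1, h2⟩ := exists_roots (K := W.K) (L := AlgebraicClosure W.K) (hsqK X)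
    exact ⟨R, h1, h2⟩
  choose R hR using hroots
  obtain ⟨ι⟩ := exists_emb (AlgebraicClosure W.K)
  -- the letters
  set f : P × AlgebraicClosure W.K → Mot (baseW W (AlgebraicClosure W.K)) := fun x =>
    (hpiece x.1).lett (hR x.1) x.2 with hf
  set c : P → AlgebraicClosure W.K := fun X => algebraMap W.K (AlgebraicClosure W.K)
    (((p : W.K) ^ Φ.e (X : 𝒱.Obj)) ^ (X : 𝒱.Obj).dim) with hc
  set g : P × AlgebraicClosure W.K → Mot (baseW W (AlgebraicClosure W.K)) := fun x =>
    (hpiece x.1).lett (hR x.1) (c x.1 / x.2) with hg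
  set G : Set (P × AlgebraicClosure W.K) := {x | x.2 ∈ R x.1} with hG
  have hconj : ∀ x ∈ G, CConj ι x.2 (c x.1 / x.2) := by
    intro x hx
    have h1 : aeval x.2 (Pol x.1) = 0 := by
      have h2 := ((hR x.1).1 x.2).1 hx
      rw [aeval_map_algebraMap] at h2
      exact h2
    have h3 := cConj_of_weil (ι := ι) (q := (p ^ Φ.e (x.1 : 𝒱.Obj)) ^ (x.1 : 𝒱.Obj).dim)
      (hsq x.1).ne_zero (hroot x.1) h1
    have h4 : (((p ^ Φ.e (x.1 : 𝒱.Obj)) ^ (x.1 : 𝒱.Obj).dim : ℕ) : AlgebraicClosure W.K) =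
        c x.1 := by
      rw [hc]
      push_cast
      rfl
    rw [h4] at h3
    exact h3
  have hGc : ∀ x ∈ G, c x.1 / x.2 ∈ R x.1 := by
    intro x hx
    rw [(hR x.1).1]
    have h2 := ((hR x.1).1 x.2).1 hx
    rw [aeval_map_algebraMap] at h2 ⊢
    exact ((hconj x hx).aeval (Pol x.1)).right_zero h2
  have hTw : ∀ x ∈ G, Twin W ι (f x) (g x) := by
    intro x hx
    exact ⟨(x.1 : 𝒱.Obj), _, _, _, _, _, _, rfl, rfl,
      pair_epW (s x.1).eT_mem (hR x.1) hx (hGc x hx) (hconj x hx)⟩
  have hCo : ∀ x ∈ G, (f x).Contr (g x) := fun x _ => (hpiece x.1).contr (hR x.1) x.2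
  have hup : ∀ Y, IsProductOf 𝒴 Y → HomEqNum (baseW W (AlgebraicClosure W.K)) Y :=
    fun Y hY => homEqNum_up (h𝒴 Y hY)
  apply homEqNum_base (L := AlgebraicClosure W.K)
  refine RetOp.homEqNum (P := WWord f G 𝒴) (WWord.num (fun l y hl hy => ?_)) ?_
  · exact mnum_word f g (P ∪ 𝒴) Set.subset_union_right hI hup hy l
      (fun x hx => ⟨hTw x (hl x hx), Or.inl x.1.2⟩) (fun x hx => hCo x (hl x hx))
  · induction hZ with
    | base hX =>
      rename_i X
      rcases hX with hX | hX
      · have h1 : (LinearMap.id : (baseW W (AlgebraicClosure W.K)).H X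
            →ₗ[(baseW W (AlgebraicClosure W.K)).K] (baseW W (AlgebraicClosure W.K)).H X) =
            ∑ j, upW (AlgebraicClosure W.K) ((s ⟨X, hX⟩).eA j) +
              upW (AlgebraicClosure W.K) (s ⟨X, hX⟩).eT := by
          have h2 : ((LinearMap.id : W.H X →ₗ[W.K] W.H X).baseChange (AlgebraicClosure W.K)) =
              ∑ j, ((s ⟨X, hX⟩).eA j).baseChange (AlgebraicClosure W.K) +
                ((s ⟨X, hX⟩).eT).baseChange (AlgebraicClosure W.K) := by
            rw [← (s ⟨X, hX⟩).sum, LinearMap.baseChange_add]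
            congr 1
            apply LinearMap.ext
            intro x
            rw [LinearMap.sum_apply]
            induction x using TensorProduct.induction_on with
            | zero => simp only [map_zero, Finset.sum_const_zero]
            | add x y hx hy => simp only [map_add, hx, hy, Finset.sum_add_distrib]
            | tmul l a =>
              simp only [LinearMap.baseChange_tmul]
              rw [LinearMap.sum_apply, TensorProduct.tmul_sum]
          rw [LinearMap.baseChange_id] at h2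
          exact h2
        rw [h1]
        refine Submodule.add_mem _ (Submodule.sum_mem _ (fun j _ => ?_)) ?_
        · obtain ⟨m, i, hA⟩ := (s ⟨X, hX⟩).alg_up (AlgebraicClosure W.K) j
          exact RetOp.self (B := ⟨X, upW _ ((s ⟨X, hX⟩).eA j), m, i⟩) (WWord.alg hA)
        · rw [(hpiece ⟨X, hX⟩).sum_ep (hR ⟨X, hX⟩)]
          refine Submodule.sum_mem _ (fun b hb => ?_)
          exact RetOp.self (B := f ((⟨X, hX⟩ : P), b)) (WWord.letter (x := ((⟨X, hX⟩ : P), b)) hb)
      · exact RetOp.self (B := whole _ X) (WWord.whole hX)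
    | prod _ _ h1 h2 =>
      rw [← extHom_id]
      exact RetOp.ext WWord.tensor h1 h2

/-- **The injectivity conjecture and the conjectures D and B.** -/
theorem injectivity_iff (hP : ∀ X ∈ P, IsFrobeniusRich Φ X) :
    ((∀ X ∈ P, HomEqNum W X) ∧ (∀ Y, IsProductOf 𝒴 Y → HomEqNum W Y) ∧
      ∀ Z, IsProductOf (P ∪ 𝒴) Z → InjectivityConj W Z) ↔
      ∀ Z, IsProductOf (P ∪ 𝒴) Z → ∀ V, Dominates W Z V → HomEqNum W V ∧
        ∀ D, V.IsCyc 1 D → HardLefschetz W V D → LefschetzB W V D := by
  constructor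
  · rintro ⟨h1, h2, h3⟩ Z hZ V hV
    have key : ∀ Z, IsProductOf (P ∪ 𝒴) Z → ∀ V, Dominates W Z V → HomEqNum W V :=
      fun Z hZ V hV => (homEqNum_of_injectivity hP h1 h2 h3 hZ).image hV
    refine ⟨key Z hZ V hV, fun D hD hHL => ?_⟩
    have h4 := key (Z.prod Z) (IsProductOf.prod hZ hZ) (V.prod V) (dominates_prod hV hV)
    apply Pool.Agent.H447.lefschetzB_of_homEqNumIn hD hHL
    intro z hz hnum
    by_cases hd : V.dim + 1 ≤ (V.prod V).dim
    · exact h4 (V.dim + 1) hd z hz hnum
    · have h5 := W.cl_mem hz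
      rw [W.gr_eq_bot _ _ (by omega), Submodule.mem_bot] at h5
      exact h5
  · intro h
    refine ⟨fun X hX => (h X (IsProductOf.base (Or.inl hX)) X (dominates_refl X)).1,
      fun Y hY => ?_, fun Z hZ => injectivity_of_homEqNum (h Z hZ Z (dominates_refl Z)).1⟩
    have h1 : ∀ Y, IsProductOf 𝒴 Y → IsProductOf (P ∪ 𝒴) Y := by
      intro Y hY
      induction hY with
      | base hX => exact IsProductOf.base (Or.inr hX)
      | prod _ _ h1 h2 => exact IsProductOf.prod h1 h2
    exact (h Y (h1 Y hY) Y (dominates_refl Y)).1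

end Pool.Agent.R908
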