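import Pool.Agent.R908.KpH
import Pool.Agent.R908.MainK
import Pool.Agent.R908.MainC

/-!
# The injectivity conjecture and the conjecture D over arbitrary fields
-/

open CategoryTheory AlgebraicGeometry TensorProduct Function Polynomial

universe u v w w'

namespace Pool.Agent.R908

open Pool.Agent.H914 Pool.Agent.H914.VarClass Pool.Agent.H914.VarClass.Obj
  Pool.Agent.H914.WeilCohomology Pool.Agent.H281R3.HT Km

variable {k : Type u} [Field k] {𝒱 : VarClass k} {ops : CycleOps 𝒱}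
  {W : WeilCohomology.{u, v} ops} {X Y Z X' Y' Z' : 𝒱.Obj} {𝒢 : Set (Symmetry W)}

/-- Direct factors which are equal to their conjugates. -/
def GP (W : WeilCohomology.{u, v} ops) (𝒢 : Set (Symmetry W))
    (ι : algebraicClosure ℚ W.K →ₐ[ℚ] ℂ) (S₀ : Set 𝒱.Obj) (A : Mot W) : Prop :=
  (∀ S ∈ 𝒢, Comm S A) ∧ PairK W ι A.X A.e A.e ∧ IsProductOf S₀ A.X

lemma GP.tensor {ι : algebraicClosure ℚ W.K →ₐ[ℚ] ℂ} {S₀ : Set 𝒱.Obj} (A B : Mot W)
    (hA : GP W 𝒢 ι S₀ A) (hB : GP W 𝒢 ι S₀ B) : GP W 𝒢 ι S₀ (A.tensor B) :=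
  ⟨fun S hS => (hA.1 S hS).tensor (hB.1 S hS), PairK.ext hA.2.1 hB.2.1,
    IsProductOf.prod hA.2.2 hB.2.2⟩

lemma isProductOf_pX {S₀ : Set 𝒱.Obj} (hX : IsProductOf S₀ X) (hY : IsProductOf S₀ Y) (m : ℕ) :
    IsProductOf S₀ (pX X Y m) := by
  induction m with
  | zero => exact hY
  | succ m ih => exact IsProductOf.prod hX ih

namespace CJ

variable {s : TSplit W X} {e : Module.End W.K (W.H X)} {P Q : ℚ[X]}
    {R : Finset W.K} {c₀ : W.K} (h : CJ s 𝒢 e P Q R c₀) {δ : W.K → ℕ}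
    (hδ : ∀ a x, eigT s e R a x ∈ W.gr X (δ a))

/-- **The parts of the transcendental cohomology are letters.** -/
lemma step {ι : algebraicClosure ℚ W.K →ₐ[ℚ] ℂ} {S₀ : Set 𝒱.Obj} (hX : X ∈ S₀)
    (hI : ∀ Z, IsProductOf S₀ Z → InjectivityConj W Z) (w : ℕ) :
    Step (GP W 𝒢 ι S₀) (s.Mw h.kap_mem (h.kap_sign hδ) w) := by
  refine ⟨⟨fun S _ => s.Mw_comm h.kap_mem (h.kap_sign hδ) w S, h.pair_ew hδ w,
    IsProductOf.base hX⟩, ?_⟩
  intro Q hQt hQG hQ B hB m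
  refine (h.blocks hδ w).num_of_pair (s.Mw_self h.kap_mem (h.kap_sign hδ) w)
    (ι := ι) (fun a => h.pair_pw hδ w a) hQt hQ (fun B hB => (hQG B hB).2.1) 𝒢
    (fun S _ => s.Mw_comm h.kap_mem (h.kap_sign hδ) w S)
    (fun S _ => ⟨1, one_ne_zero, fun a => ?_⟩) (fun S hS B hB => (hQG B hB).1 S hS) ?_ hB m
    (hI _ (isProductOf_pX (IsProductOf.base hX) (hQG B hB).2.2 m))
  · rw [one_smul]
    exact (s.Mw_comm h.kap_mem (h.kap_sign hδ) w S a).symm
  · intro U hU hst hS l hl y hy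
    have hfix : ∀ x ∈ U, s.ew (kap s e R δ) w x = x := by
      intro x hx
      obtain ⟨y, hy⟩ := hU hx
      rw [← hy]
      exact congrArg (fun F => F y) (s.ew_idem (h.kap_sign hδ) w)
    have hyT : y ∈ transcendental W X := by
      rw [← hy]
      exact h.pw_T w l y
    obtain ⟨x, hx, hx0, hxl⟩ := hl
    refine h.irr U ?_ ?_ hS l ⟨x, hx, hx0, ?_⟩ y hyT ?_
    · intro x hx
      rw [← hfix x hx]
      exact s.ew_range (h.kap_sign hδ) w x
    · intro φ hφ x hx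
      have h1 : s.ew (kap s e R δ) w (φ x) = φ x := by
        have h2 := congrArg (fun F => F x) (s.ew_comm (h.kap_sign hδ) w (RatOp.mem hφ))
        beta_reduce at h2
        rw [LinearMap.comp_apply, LinearMap.comp_apply, hfix x hx] at h2
        exact h2.symm
      rw [← h1]
      exact hst _ φ (RatOp.mem hφ) x hx
    · rw [← hxl]
      exact h.e_pw w l x
    · rw [← hy]
      exact h.e_pw w l y

end CJ

/-- The data of a cycle acting by complex conjugation. -/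
lemma exists_CJ (s : TSplit W X) (h : HasConjugationCycle 𝒢 X) :
    ∃ (e : Module.End W.K (W.H X)) (P Q : ℚ[X]) (R : Finset W.K) (c₀ : W.K),
      CJ s 𝒢 e P Q R c₀ := by
  classical
  obtain ⟨_, ⟨z, hz, rfl⟩, ⟨P, Q, hsq, hsp, hconj, hkill, hadj⟩, hirr⟩ := h
  have hP0 : P ≠ 0 := hsq.ne_zero
  have hsep : P.Separable := PerfectField.separable_iff_squarefree.2 hsq
  have hsep' : (P.map (algebraMap ℚ W.K)).Separable := hsep.map
  have hPL : P.map (algebraMap ℚ W.K) ≠ 0 := (Polynomial.map_ne_zero_iff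
    (algebraMap ℚ W.K).injective).2 hP0
  refine ⟨W.corr (W.cl _ z), P, Q, (P.map (algebraMap ℚ W.K)).roots.toFinset,
    (P.map (algebraMap ℚ W.K)).leadingCoeff, ⟨z, hz, rfl⟩, hP0, leadingCoeff_ne_zero.2 hPL, ?_,
    hconj, hkill, hadj, fun U hU h1 h2 => hirr U hU h1 (by
      rintro _ ⟨S, hS, rfl⟩ x hx
      exact h2 S hS x hx)⟩
  have h1 := hsp.eq_prod_roots
  have h2 : (P.map (algebraMap ℚ W.K)).roots.Nodup := nodup_roots hsep'
  conv_lhs => rw [h1]
  congr 1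
  rw [Finset.prod, Multiset.toFinset_val, h2.dedup]

lemma TSplit.MC_rat (s : TSplit W X) : s.eC ∈ RatOp W X X := RatOp.sum _ fun j _ => s.eA_mem j

/-- The identity of `H(X)` factors through words. -/
lemma id_mem_wordsG {ι : algebraicClosure ℚ W.K →ₐ[ℚ] ℂ} {P 𝒴 : Set 𝒱.Obj} (hX : X ∈ P)
    (hD : HomEqNum W X) (hI : ∀ Z, IsProductOf (P ∪ 𝒴) Z → InjectivityConj W Z)
    (hC : HasConjugationCycle 𝒢 X) :
    (LinearMap.id : W.H X →ₗ[W.K] W.H X) ∈ RetOp W (WordG (GP W 𝒢 ι (P ∪ 𝒴)) 𝒴) X X := by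
  obtain ⟨s⟩ := exists_tSplit hD
  obtain ⟨e, P', Q, R, c₀, h⟩ := exists_CJ s hC
  obtain ⟨δ, hδ⟩ := h.exists_deg
  have h1 : (LinearMap.id : W.H X →ₗ[W.K] W.H X) =
      s.eC + s.ew (kap s e R δ) 0 + s.ew (kap s e R δ) 1 := by
    apply gr_ext (W.isInternal X)
    intro i a ha
    rw [LinearMap.add_apply, LinearMap.add_apply, s.ew_apply (h.kap_sign hδ) 0 ha,
      s.ew_apply (h.kap_sign hδ) 1 ha, s.eC_apply, LinearMap.id_apply]
    rcases Nat.even_or_odd i with hi | hi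
    · rw [if_pos (by rwa [add_zero]), if_neg (Nat.not_even_iff_odd.2 hi.add_one), add_zero,
        sub_add_cancel]
    · rw [if_neg (by rw [add_zero]; exact Nat.not_even_iff_odd.2 hi), if_pos hi.add_one,
        add_zero, sub_add_cancel]
  rw [h1]
  refine Submodule.add_mem _ (Submodule.add_mem _ ?_ ?_) ?_
  · exact RetOp.self (B := s.MC) (WordG.alg s.MC_alg ⟨fun S _ => s.MC_comm S,
      PairK.rat s.MC_rat, IsProductOf.base (Or.inl hX)⟩)
  · exact RetOp.self (B := s.Mw h.kap_mem (h.kap_sign hδ) 0)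
      (WordG.letter (h.step hδ (Or.inl hX) hI 0))
  · exact RetOp.self (B := s.Mw h.kap_mem (h.kap_sign hδ) 1)
      (WordG.letter (h.step hδ (Or.inl hX) hI 1))

/-- **The injectivity conjecture implies the conjecture D.** -/
theorem homEqNum_of_conjugation {P 𝒴 : Set 𝒱.Obj} (hP : ∀ X ∈ P, HasConjugationCycle 𝒢 X)
    (hD : ∀ X ∈ P, HomEqNum W X) (h𝒴 : ∀ Y, IsProductOf 𝒴 Y → HomEqNum W Y)
    (hI : ∀ Z, IsProductOf (P ∪ 𝒴) Z → InjectivityConj W Z) {Z : 𝒱.Obj}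
    (hZ : IsProductOf (P ∪ 𝒴) Z) : HomEqNum W Z := by
  obtain ⟨ι⟩ := exists_emb W.K
  by_cases hone : (1 : W.H Z) = 0
  · intro j _ z _ _
    calc W.cl Z z = 1 * W.cl Z z := by rw [one_mul]
      _ = 0 := by rw [hone, zero_mul]
  · have hGY : ∀ Y, IsProductOf 𝒴 Y → GP W 𝒢 ι (P ∪ 𝒴) (whole W Y) := fun Y hY =>
      ⟨fun S _ a => rfl, PairK.rat (RatOp.id Y), isProductOf_mono Set.subset_union_right hY⟩
    refine homEqNum_wordsG (G := GP W 𝒢 ι (P ∪ 𝒴)) (fun A B hA hB => GP.tensor A B hA hB) hGY h𝒴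
      (fun X hX => id_mem_wordsG hX (hD X hX) hI (hP X hX)) ?_ hZ
    obtain ⟨X, hX, h1⟩ := one_ne_of_prod hZ hone
    have hfund : (1 : W.H X) ∈ spanCycles W X 0 :=
      Submodule.subset_span ⟨0, rfl, X.V.fundCycle, X.V.fundCycle_mem, W.cl_fund X⟩
    rcases hX with hX | hX
    · obtain ⟨s⟩ := exists_tSplit (hD X hX)
      refine ⟨s.MC, ⟨[s.MC], ?_, 1, Or.inl rfl, ?_⟩, 0, 1, hfund, ?_⟩
      · intro B hB
        rw [List.mem_singleton] at hB
        rw [hB]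
        exact ⟨s.MC_alg, fun S _ => s.MC_comm S, PairK.rat s.MC_rat,
          IsProductOf.base (Or.inl hX)⟩
      · rw [List.map_singleton, List.prod_singleton, mul_one]
      · change s.eC (1 : W.H X) ≠ 0
        rw [s.eC_apply, s.kill_alg hfund, sub_zero]
        exact h1
    · refine ⟨whole W X, ⟨[], fun B hB => absurd hB List.not_mem_nil, _,
        Or.inr ⟨X, IsProductOf.base hX, rfl⟩, ?_⟩, 0, 1, hfund, ?_⟩
      · rw [List.map_nil, List.prod_nil, one_mul]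
      · exact h1

/-- **The injectivity conjecture and the conjectures D and B.** -/
theorem conjugation_iff {P 𝒴 : Set 𝒱.Obj} (hP : ∀ X ∈ P, HasConjugationCycle 𝒢 X) :
    ((∀ X ∈ P, HomEqNum W X) ∧ (∀ Y, IsProductOf 𝒴 Y → HomEqNum W Y) ∧
      ∀ Z, IsProductOf (P ∪ 𝒴) Z → InjectivityConj W Z) ↔
      ∀ Z, IsProductOf (P ∪ 𝒴) Z → ∀ V, Dominates W Z V → HomEqNum W V ∧
        ∀ D, V.IsCyc 1 D → HardLefschetz W V D → LefschetzB W V D := by
  constructor
  · rintro ⟨h1, h2, h3⟩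
    exact dominated_of_products (fun Z hZ => homEqNum_of_conjugation hP h1 h2 h3 hZ)
  · intro h
    exact ⟨fun X hX => (h X (IsProductOf.base (Or.inl hX)) X (dominates_refl X)).1,
      fun Y hY => (h Y (isProductOf_mono Set.subset_union_right hY) Y (dominates_refl Y)).1,
      fun Z hZ => injectivity_of_homEqNum (h Z hZ Z (dominates_refl Z)).1⟩

end Pool.Agent.R908
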