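import Pool.Agent.R908.KnD

/-!
# Products of classes, and linear forms
-/

open CategoryTheory AlgebraicGeometry TensorProduct Function

universe u v w w'

namespace Pool.Agent.R908

open Pool.Agent.H914 Pool.Agent.H914.VarClass Pool.Agent.H914.VarClass.Obj
  Pool.Agent.H914.WeilCohomology

variable {k : Type u} [Field k] {𝒱 : VarClass k} {ops : CycleOps 𝒱}
  {W : WeilCohomology.{u, v} ops} {X Y Z X' Y' Z' : 𝒱.Obj}

/-- The projection formula for the second projection, from the left. -/
lemma tr_snd_left (u : W.H Y) (x : W.H (X.prod Y)) :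
    W.tr (X.prod Y) (W.map (snd X Y) u * x) = W.tr Y (u * W.push (snd X Y) x) := by
  refine gr_induction (W.isInternal Y) (p := fun u => W.tr (X.prod Y) (W.map (snd X Y) u * x) =
    W.tr Y (u * W.push (snd X Y) x)) ?_ ?_ u
  swap
  · intro u u' hu hu'
    rw [map_add, add_mul, map_add, hu, hu', add_mul, map_add]
  intro j u hu
  refine W.kunneth_induction (p := fun x => W.tr (X.prod Y) (W.map (snd X Y) u * x) =
    W.tr Y (u * W.push (snd X Y) x)) ?_ ?_ x
  · intro x x' hx hx'
    rw [mul_add, map_add, hx, hx', map_add, mul_add, map_add]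
  · intro i i' a ha b _
    have h1 := W.comm (W.map_mem (snd X Y) hu) (W.map_mem (fst X Y) ha)
    rw [W.push_snd, ← mul_assoc, h1, smul_mul_assoc, mul_assoc, ← map_mul (W.map (snd X Y)),
      map_smul, W.tr_prod, mul_smul_comm, map_smul, smul_eq_mul, smul_eq_mul]
    by_cases hi : i = 2 * X.dim
    · rw [hi, ((even_two_mul _).mul_left j).neg_one_pow, one_mul]
    · rw [W.tr_eq_zero ha hi, zero_mul, mul_zero]

/-- The slice by a class is a direct image. -/
lemma sl_bil (u : W.H X) (y : W.H (X.prod Y)) : sl W (bil W X u) y =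
    W.push (snd X Y) (W.map (fst X Y) u * y) := by
  have e0 : sl W (bil W X u) = W.push (snd X Y) ∘ₗ
      LinearMap.mulLeft W.K (W.map (fst X Y) u) := by
    apply ext_kunneth_lin
    intro x z
    rw [sl_tmul, LinearMap.comp_apply, LinearMap.mulLeft_apply, tr_fst, bil_apply]
  rw [e0]
  rfl

/-- The external product of classes on `X` and of a class on `Y`. -/
noncomputable def tv (W : WeilCohomology.{u, v} ops) {X Y : 𝒱.Obj} :
    ∀ n : ℕ, (Fin n → W.H X) → W.H Y → W.H (pX X Y n)
  | 0, _, y => y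
  | n + 1, t, y => W.map (snd X (pX X Y n)) (tv W n (fun i => t i.succ) y) *
      W.map (fst X (pX X Y n)) (t 0)

lemma tr_tv : ∀ (n : ℕ) (t : Fin n → W.H X) (y : W.H Y) (β : W.H (pX X Y n)),
    W.tr (pX X Y n) (tv W n t y * β) = msl W n (fun i => bil W X (t i)) (bil W Y y) β := by
  intro n
  induction n with
  | zero => exact fun _ _ _ => rfl
  | succ n ih =>
    intro t y β
    change W.tr (X.prod (pX X Y n)) (W.map (snd X (pX X Y n)) (tv W n (fun i => t i.succ) y) *
      W.map (fst X (pX X Y n)) (t 0) * β) =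
      msl W n (fun i => bil W X (t i.succ)) (bil W Y y) (sl W (bil W X (t 0)) β)
    rw [mul_assoc, tr_snd_left, ← sl_bil, ih]

/-- The morphism `(a, y) ↦ (a, …, a, y)`. -/
noncomputable def fX (X Y : 𝒱.Obj) : ∀ n : ℕ, (X.prod Y ⟶ pX X Y n)
  | 0 => snd X Y
  | n + 1 => Obj.lift (fst X Y) (fX X Y n)

lemma map_fX : ∀ (n : ℕ) (t : Fin n → W.H X) (y : W.H Y),
    W.map (fX X Y n) (tv W n t y) =
      W.map (snd X Y) y * W.map (fst X Y) (List.ofFn t).reverse.prod := by
  intro n
  induction n with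
  | zero =>
    intro t y
    rw [List.ofFn_zero, List.reverse_nil, List.prod_nil, map_one, mul_one]
    rfl
  | succ n ih =>
    intro t y
    have e1 : fX X Y (n + 1) ≫ snd X (pX X Y n) = fX X Y n := Obj.lift_snd _ _
    have e2 : fX X Y (n + 1) ≫ fst X (pX X Y n) = fst X Y := Obj.lift_fst _ _
    change W.map (fX X Y (n + 1)) (W.map (snd X (pX X Y n)) (tv W n (fun i => t i.succ) y) *
      W.map (fst X (pX X Y n)) (t 0)) = _
    rw [map_mul, ← W.map_comp, ← W.map_comp, e1, e2, ih, List.ofFn_succ, List.reverse_cons,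
      List.prod_append, List.prod_singleton, map_mul, mul_assoc]

lemma reverse_ofFn {α : Type*} {n : ℕ} (t : Fin n → α) :
    (List.ofFn fun i => t i.rev).reverse = List.ofFn t := by
  apply List.ext_getElem
  · simp
  · intro i h1 h2
    simp only [List.length_reverse, List.length_ofFn] at h1
    rw [List.getElem_reverse, List.getElem_ofFn, List.getElem_ofFn]
    congr 1
    apply Fin.ext
    simp only [Fin.val_rev, List.length_ofFn]
    omega

/-- The value of a class on `X × Y` on products of classes. -/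
lemma tr_component {j : ℤ} {α : W.H (X.prod Y)} (hα : α ∈ spanCycles W (X.prod Y) j) {n : ℕ}
    (t : Fin n → W.H X) (y : W.H Y) :
    W.tr (X.prod Y) (W.map (snd X Y) y * W.map (fst X Y) (List.ofFn t).prod * α) =
      msl W n (fun i => bil W X (t i.rev)) (bil W Y y) (W.push (fX X Y n) α) := by
  have h1 := KOp.map_span (KOp.pushHom (fX X Y n)) hα
  have h2 : W.map (fX X Y n) (tv W n (fun i => t i.rev) y) =
      W.map (snd X Y) y * W.map (fst X Y) (List.ofFn t).prod := by
    rw [map_fX, reverse_ofFn]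
  rw [← tr_tv, ← h2, ← span_comm hα, ← W.tr_push, span_comm h1]

/-- The external powers of an operator. -/
noncomputable def pS (W : WeilCohomology.{u, v} ops) {X : 𝒱.Obj} (Y : 𝒱.Obj)
    (φ : W.H X →ₗ[W.K] W.H X) : ∀ n : ℕ, W.H (pX X Y n) →ₗ[W.K] W.H (pX X Y n)
  | 0 => LinearMap.id
  | n + 1 => extHom W φ (pS W Y φ n)

lemma pS_mem {δ : ℤ} {φ : W.H X →ₗ[W.K] W.H X} (hφ : φ ∈ KOp W X X δ) :
    ∀ n, ∃ δ', pS W Y φ n ∈ KOp W (pX X Y n) (pX X Y n) δ' := by
  intro n
  induction n with
  | zero => exact ⟨0, KOp.id Y⟩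
  | succ n ih =>
    obtain ⟨δ', hδ'⟩ := ih
    exact ⟨_, KOp.extHom hφ hδ'⟩

lemma msl_pS (φ : W.H X →ₗ[W.K] W.H X) : ∀ (n : ℕ) (f : Fin n → (W.H X →ₗ[W.K] W.K))
    (g : W.H Y →ₗ[W.K] W.K), msl W n f g ∘ₗ pS W Y φ n = msl W n (fun i => f i ∘ₗ φ) g := by
  intro n
  induction n with
  | zero => exact fun _ _ => rfl
  | succ n ih =>
    intro f g
    change tens W (f 0) (msl W n (fun i => f i.succ) g) ∘ₗ extHom W φ (pS W Y φ n) = _
    rw [tens_extHom, ih]
    rfl

end Pool.Agent.R908
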