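import Pool.Agent.R908.KpC
import Pool.Agent.R908.KoC
import Pool.Agent.R908.KqA
import Pool.Agent.R908.BalDefs

/-!
# BalancedLabels components of numerically trivial classes
-/

open CategoryTheory AlgebraicGeometry TensorProduct Function

universe u v w w'

namespace Pool.Agent.R908

open Pool.Agent.H914 Pool.Agent.H914.VarClass Pool.Agent.H914.VarClass.Obj
  Pool.Agent.H914.WeilCohomology Km

variable {k : Type u} [Field k] {𝒱 : VarClass k} {ops : CycleOps 𝒱}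
  {W : WeilCohomology.{u, v} ops} {A Y : 𝒱.Obj} {m : A.prod A ⟶ A} {D : A.Cycles}
  {𝒢 : Set (Symmetry W)} {Λ : Type} [Fintype Λ] {bar : Λ → Λ}
  {p : Λ → Module.End W.K (W.H A)} {π : ℕ → (W.H A →ₗ[W.K] W.H A)}

lemma span_cycleOperators_le : Submodule.span W.K (cycleOperators W A) ≤ KOp W A A 0 := by
  apply Submodule.span_le.2
  rintro _ ⟨z, hz, rfl⟩
  exact KOp.gen (by rw [add_zero]) hz

lemma IsBlockSystemOne.mem (hp : IsBlockSystemOne 𝒢 A D bar p) (l : Λ) :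
    p l ∈ KOp W A A 0 := span_cycleOperators_le (hp.algebraic l)

/-- The degree of the form. -/
lemma IsProjs.form_eq (hπ : IsProjs W A π) (hD : A.IsCyc 1 D) (a b : W.H A) :
    W.tr A (a * lefP W A D (A.dim - 1) (π 1 b)) =
      W.tr A (π 1 a * ((W.cl A D) ^ (A.dim - 1) * π 1 b)) := by
  have hξ : W.cl A D ∈ W.gr A 2 := W.cl_mem hD
  by_cases hdim : A.dim = 0
  · have h1 : ∀ x, π 1 x = 0 := by
      intro x
      have h2 := hπ.mem_gr 1 x
      rw [W.gr_eq_bot A 1 (by omega), Submodule.mem_bot] at h2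
      exact h2
    rw [h1, h1, map_zero, mul_zero, mul_zero, zero_mul]
  rw [lefP_eq]
  refine gr_induction (W.isInternal A) (p := fun a =>
    W.tr A (a * ((W.cl A D) ^ (A.dim - 1) * π 1 b)) =
      W.tr A (π 1 a * ((W.cl A D) ^ (A.dim - 1) * π 1 b))) ?_ ?_ a
  · intro i x hx
    by_cases h : 1 = i
    · subst h
      rw [hπ.self hx]
    · rw [hπ.ne hx h, zero_mul, map_zero]
      exact W.tr_eq_zero (W.mul_mem hx (W.mul_mem (gr_pow hξ _) (hπ.mem_gr 1 b))) (by omega)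
  · intro x y hx hy
    rw [add_mul, map_add, map_add, hx, hy, add_mul, map_add]

/-- The blocks of the first cohomology. -/
lemma IsBlockSystemOne.blocks (hp : IsBlockSystemOne 𝒢 A D bar p) (hD : A.IsCyc 1 D)
    (hπ : IsProjs W A π) (hK : ∀ i, π i ∈ KOp W A A 0) :
    Blocks (Hi hπ hK 1) (lefP W A D (A.dim - 1) ∘ₗ π 1) (Finset.univ : Finset Λ) bar
      (fun l => p l ∘ₗ π 1) where
  mem l := ⟨_, KOp.comp (hp.mem l) (hK 1)⟩
  e_p l := by
    apply LinearMap.ext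
    intro (x : W.H A)
    exact hπ.self (Mot.hom_deg0 (hp.mem l) (hπ.mem_gr 1 x))
  p_e l := by
    apply LinearMap.ext
    intro (x : W.H A)
    change p l (π 1 (π 1 x)) = p l (π 1 x)
    rw [hπ.self (hπ.mem_gr 1 x)]
  idem l := by
    apply LinearMap.ext
    intro (x : W.H A)
    change p l (π 1 (p l (π 1 x))) = p l (π 1 x)
    rw [hπ.self (Mot.hom_deg0 (hp.mem l) (hπ.mem_gr 1 x)), hp.idem l _ (hπ.mem_gr 1 x)]
  ortho l l' hl := by
    apply LinearMap.ext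
    intro (x : W.H A)
    change p l (π 1 (p l' (π 1 x))) = 0
    rw [hπ.self (Mot.hom_deg0 (hp.mem l') (hπ.mem_gr 1 x)), hp.ortho l l' hl _ (hπ.mem_gr 1 x)]
  sum := by
    apply LinearMap.ext
    intro (x : W.H A)
    rw [LinearMap.sum_apply]
    exact hp.sum _ (hπ.mem_gr 1 x)
  bb := hp.involutive
  adj := by
    intro l (x : W.H A) (y : W.H A)
    change W.tr A (p l (π 1 x) * lefP W A D (A.dim - 1) (π 1 y)) =
      W.tr A (x * lefP W A D (A.dim - 1) (π 1 (p (bar l) (π 1 y))))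
    rw [hπ.form_eq hD, hπ.form_eq hD,
      hπ.self (Mot.hom_deg0 (hp.mem l) (hπ.mem_gr 1 x)),
      hπ.self (Mot.hom_deg0 (hp.mem (bar l)) (hπ.mem_gr 1 y))]
    exact hp.adjoint l _ (hπ.mem_gr 1 x) _ (hπ.mem_gr 1 y)

/-- The form on the first cohomology. -/
noncomputable def ps1 (hπ : IsProjs W A π) (hK : ∀ i, π i ∈ KOp W A A 0) (D : A.Cycles) :
    W.H A →ₗ[W.K] W.H A →ₗ[W.K] W.K :=
  psi (Hi hπ hK 1) (lefP W A D (A.dim - 1) ∘ₗ π 1)

/-- Linear forms of degree one. -/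
lemma IsProjs.bil_eq (hπ : IsProjs W A π) (hK : ∀ i, π i ∈ KOp W A A 0)
    (hL : HardLefschetz W A D) {θ' : W.H A →ₗ[W.K] W.H A}
    (h : SelfDual (Hi hπ hK 1) 1 (-1) (lefP W A D (A.dim - 1) ∘ₗ π 1) θ') {t : W.H A}
    (ht : t ∈ W.gr A 1) : bil W A t = ps1 hπ hK D t ∘ₗ (θ' ∘ₗ π (2 * A.dim - 1)) := by
  by_cases hdim : A.dim = 0
  · rw [W.gr_eq_bot A 1 (by omega), Submodule.mem_bot] at ht
    rw [ht, map_zero, map_zero, LinearMap.zero_comp]
  apply LinearMap.ext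
  intro x
  obtain ⟨z, hz, hzz⟩ := (hL 1 (by omega)).2 (π (2 * A.dim - 1) x) (hπ.mem_gr _ x)
  have h7 : ∀ z : W.H A, ((LinearMap.mulLeft W.K (W.cl A D)) ^ (A.dim - 1)) z =
      lefP W A D (A.dim - 1) z := fun z => rfl
  rw [h7] at hzz
  have h8 : θ' (π (2 * A.dim - 1) x) = z := by
    have h9 := congrArg (fun F => F z) h.inv
    beta_reduce at h9
    have h10 : θ' (lefP W A D (A.dim - 1) (π 1 z)) = π 1 z := h9
    rw [hπ.self hz, hzz] at h10
    exact h10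
  change W.tr A (t * x) = W.tr A (t * lefP W A D (A.dim - 1) (π 1 (θ' (π (2 * A.dim - 1) x))))
  rw [h8, hπ.self hz, hzz]
  refine gr_induction (W.isInternal A) (p := fun x =>
    W.tr A (t * x) = W.tr A (t * π (2 * A.dim - 1) x)) ?_ ?_ x
  · intro i z hz
    by_cases h : 2 * A.dim - 1 = i
    · subst h
      rw [hπ.self hz]
    · rw [hπ.ne hz h, mul_zero, map_zero]
      exact W.tr_eq_zero (W.mul_mem ht hz) (by omega)
  · intro z z' h1 h2
    rw [mul_add, map_add, h1, h2, map_add, mul_add, map_add]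

/-- BalancedLabels labels have the weight zero. -/
lemma BalancedLabels.sum_eq {n : ℕ} {l : Fin n → Λ} (h : BalancedLabels bar l) (v : Λ → ℝ) :
    ∑ i, v (l i) = ∑ i, v (bar (l i)) := by
  have h1 := congrArg (fun s : Multiset Λ => (s.map v).sum) h
  beta_reduce at h1
  rw [Multiset.map_map, Multiset.map_map] at h1
  exact h1

lemma BalancedLabels.rev {n : ℕ} {l : Fin n → Λ} (h : BalancedLabels bar l) :
    BalancedLabels bar (fun i => l i.rev) := by
  have h1 : ∀ f : Fin n → Λ, (Finset.univ : Finset (Fin n)).val.map (fun i => f i.rev) =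
      (Finset.univ : Finset (Fin n)).val.map f := by
    intro f
    have h2 : (Finset.univ : Finset (Fin n)).val.map Fin.rev = Finset.univ.val := by
      have h3 := congrArg Finset.val (Finset.map_univ_equiv (Fin.revPerm (n := n)))
      rw [Finset.map_val] at h3
      exact h3
    conv_rhs => rw [← h2]
    rw [Multiset.map_map]
    rfl
  change _ = _
  rw [h1 l, h1 (fun i => bar (l i))]
  exact h

/-- Powers of forms. -/
lemma FA_pow {A : Mot W} {w : ℕ} {ε : W.K} {θ θ' : W.H A.X →ₗ[W.K] W.H A.X} {Q : Mot W → Prop}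
    (h : SelfDual A w ε θ θ') (hQt : ∀ B B', Q B → Q B' → Q (B.tensor B')) {Λ : Type}
    {m : ℕ} {F : (Fin m → TT A) → W.K} (hF : F ∈ FA A θ Q m) {x : Fin m → TT A} (hx : F x ≠ 0)
    {l : Fin m → Λ} {P : Λ → TT A → Prop} (hl : ∀ i, P (l i) (x i)) (k : ℕ) (hk : 1 ≤ k) :
    ∃ N, N = m * k ∧ ∃ G ∈ FA A θ Q N, ∃ x' : Fin N → TT A, ∃ l' : Fin N → Λ, G x' ≠ 0 ∧
      (∀ s, P (l' s) (x' s)) ∧ ∀ f : Λ → ℝ, ∑ s, f (l' s) = k * ∑ i, f (l i) := by
  induction k, hk using Nat.le_induction with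
  | base => exact ⟨m, (mul_one m).symm, F, hF, x, l, hx, hl, fun f => by
      rw [Nat.cast_one, one_mul]⟩
  | succ k hk ih =>
    obtain ⟨N, hN, G, hG, x', l', hGx, hPx, hsum⟩ := ih
    refine ⟨N + m, by rw [hN]; rfl, _, FA_mul' h hQt hG hF (N + m) (Nat.add_comm _ _),
      Fin.append x' x, Fin.append l' l, ?_, ?_, ?_⟩
    · have e1 : (fun i : Fin N => Fin.append x' x ⟨i, by omega⟩) = x' := by
        funext i
        exact Fin.append_left x' x i
      have e2 : (fun j : Fin m => Fin.append x' x ⟨N + j, by omega⟩) = x := by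
        funext j
        exact Fin.append_right x' x j
      beta_reduce
      rw [e1, e2]
      exact mul_ne_zero hGx hx
    · intro s
      refine Fin.addCases (fun i => ?_) (fun j => ?_) s
      · rw [Fin.append_left, Fin.append_left]
        exact hPx i
      · rw [Fin.append_right, Fin.append_right]
        exact hl j
    · intro f
      rw [Fin.sum_univ_add]
      simp only [Fin.append_left, Fin.append_right]
      rw [hsum]
      push_cast
      ring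

lemma ofFn_prod_mem {X : 𝒱.Obj} : ∀ {n : ℕ} {t : Fin n → W.H X}, (∀ i, t i ∈ W.gr X 1) →
    (List.ofFn t).prod ∈ W.gr X n := by
  intro n
  induction n with
  | zero =>
    intro t _
    rw [List.ofFn_zero, List.prod_nil]
    exact W.one_mem X
  | succ n ih =>
    intro t ht
    rw [List.ofFn_succ, List.prod_cons]
    have h1 := W.mul_mem (ht 0) (ih (t := fun i => t i.succ) fun i => ht i.succ)
    rwa [Nat.add_comm 1 n] at h1

/-- The class of pieces given by the products of members of `𝒴`. -/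
def QP (W : WeilCohomology.{u, v} ops) (𝒴 : Set 𝒱.Obj) : Mot W → Prop :=
  fun B => ∃ Z, IsProductOf 𝒴 Z ∧ B = whole W Z

/-- Components as values of the forms in the sequence. -/
lemma component_form {𝒴 : Set 𝒱.Obj} (hL : HardLefschetz W A D) (hπ : IsProjs W A π)
    (hK : ∀ i, π i ∈ KOp W A A 0) {θ' : W.H A →ₗ[W.K] W.H A}
    (hself : SelfDual (Hi hπ hK 1) 1 (-1) (lefP W A D (A.dim - 1) ∘ₗ π 1) θ')
    {Y : 𝒱.Obj} (hY : IsProductOf 𝒴 Y) {j : ℤ} {α : W.H (A.prod Y)}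
    (hα : α ∈ spanCycles W (A.prod Y) j) (hn : NumTriv W (A.prod Y) α) {n : ℕ}
    {t : Fin n → W.H A} (ht : ∀ i, t i ∈ W.gr A 1) {q : ℕ} {y : W.H Y} (hy : y ∈ W.gr Y q) :
    ∃ F ∈ FA (Hi hπ hK 1) (lefP W A D (A.dim - 1) ∘ₗ π 1) (QP W 𝒴) n,
      ∃ x : Fin n → TT (Hi hπ hK 1), (∀ i, ((x i : W.H (Hi hπ hK 1).X) : W.H A) = t i.rev) ∧
      F x = W.tr (A.prod Y) (W.map (snd A Y) y * W.map (fst A Y) (List.ofFn t).prod * α) := by
  rw [tr_component hα]
  obtain ⟨δ, hδ⟩ := hself.θ'_mem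
  have hδ2 : θ' ∈ KOp W A A δ := hδ
  obtain ⟨ε, hφ⟩ : ∃ ε, θ' ∘ₗ π (2 * A.dim - 1) ∈ KOp W A A ε := ⟨_, KOp.comp hδ2 (hK _)⟩
  obtain ⟨δ', hδ'⟩ := pS_mem (Y := Y) hφ n
  have hβ := KOp.map_span hδ' (KOp.map_span (KOp.pushHom (fX A Y n)) hα)
  have hβn := NumTriv.op hδ' (NumTriv.op (KOp.pushHom (fX A Y n)) hn)
  have hrange : ∀ i, t (Fin.rev i) ∈ TT (Hi hπ hK 1) := fun i =>
    ⟨t (Fin.rev i), hπ.self (ht (Fin.rev i))⟩
  have hfun : (fun i : Fin n => bil W A (t i.rev)) = fun i =>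
      (ps1 hπ hK D (t i.rev)) ∘ₗ (θ' ∘ₗ π (2 * A.dim - 1)) :=
    funext fun i => hπ.bil_eq hK hL hself (ht (Fin.rev i))
  set β := pS W Y (θ' ∘ₗ π (2 * A.dim - 1)) n (W.push (fX A Y n) α) with hβdef
  have hkey : msl W n (fun i => bil W A (t i.rev)) (bil W Y y) (W.push (fX A Y n) α) =
      msl W n (fun i => ps1 hπ hK D (t i.rev)) (bil W Y y) β := by
    rw [hfun, ← msl_pS, LinearMap.comp_apply]
  rw [hkey]
  have hQY : QP W 𝒴 (whole W Y) := ⟨Y, hY, rfl⟩
  have hpar : Par W q (bil W Y y) := by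
    intro i a ha hodd
    rw [bil_apply]
    refine W.tr_eq_zero (W.mul_mem hy ha) ?_
    intro h
    rw [add_comm i q, h] at hodd
    exact (Nat.not_odd_iff_even.2 (even_two_mul _)) hodd
  refine ⟨fun v => msl W n (fun s => psi (Hi hπ hK 1) (lefP W A D (A.dim - 1) ∘ₗ π 1) (v s))
    (bil W Y y) β, FA_gen ⟨whole W Y, q, bil W Y y, _, β, hQY, hpar, rfl, hβ, hβn, rfl⟩,
    fun i => ⟨t (Fin.rev i), hrange i⟩, fun i => rfl, rfl⟩

/-- Powers of components. -/
lemma component_pow {𝒴 : Set 𝒱.Obj} (hL : HardLefschetz W A D) (hπ : IsProjs W A π)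
    (hK : ∀ i, π i ∈ KOp W A A 0) {θ' : W.H A →ₗ[W.K] W.H A}
    (hself : SelfDual (Hi hπ hK 1) 1 (-1) (lefP W A D (A.dim - 1) ∘ₗ π 1) θ')
    (hD : ∀ Z, IsProductOf 𝒴 Z → HomEqNum W Z)
    {Y : 𝒱.Obj} (hY : IsProductOf 𝒴 Y) {j : ℤ} {α : W.H (A.prod Y)}
    (hα : α ∈ spanCycles W (A.prod Y) j) (hn : NumTriv W (A.prod Y) α) {n : ℕ}
    {l : Fin n → Λ} {t : Fin n → W.H A} (ht : InBlocks (W.gr A 1) p l t) {y : W.H Y}
    (hne : W.tr (A.prod Y) (W.map (snd A Y) y * W.map (fst A Y) (List.ofFn t).prod * α) ≠ 0) :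
    ∃ k : ℕ, 1 ≤ k ∧ ∃ G ∈ FA (Hi hπ hK 1) (lefP W A D (A.dim - 1) ∘ₗ π 1) (QP W 𝒴)
        (2 * A.dim).factorial,
      ∃ x : Fin (2 * A.dim).factorial → TT (Hi hπ hK 1),
      ∃ l' : Fin (2 * A.dim).factorial → Λ, G x ≠ 0 ∧
      (∀ s, (p (l' s) ∘ₗ π 1) (x s : W.H (Hi hπ hK 1).X) = (x s : W.H (Hi hπ hK 1).X)) ∧
      ∀ f : Λ → ℝ, ∑ s, f (l' s) = k * ∑ i, f (l i) := by
  have hne2 : ∃ q, ∃ y ∈ W.gr Y q,
      W.tr (A.prod Y) (W.map (snd A Y) y * W.map (fst A Y) (List.ofFn t).prod * α) ≠ 0 := by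
    by_contra hcon
    push Not at hcon
    apply hne
    refine gr_induction (W.isInternal Y) (p := fun y =>
      W.tr (A.prod Y) (W.map (snd A Y) y * W.map (fst A Y) (List.ofFn t).prod * α) = 0) ?_ ?_ y
    · intro q y hy
      exact hcon q y hy
    · intro y y' h1 h2
      rw [map_add, add_mul, add_mul, map_add, h1, h2, add_zero]
  obtain ⟨q, y, hy, hne2⟩ := hne2
  have hn2 : n ≤ 2 * A.dim := by
    by_contra hcon
    have h1 := ofFn_prod_mem (W := W) (X := A) (t := t) fun i => (ht i).1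
    rw [W.gr_eq_bot A n (by omega), Submodule.mem_bot] at h1
    apply hne2
    rw [h1, map_zero, mul_zero, zero_mul, map_zero]
  obtain ⟨F, hFA, x, hx, hFx⟩ := component_form hL hπ hK hself hY hα hn
    (fun i => (ht i).1) hy
  rw [← hFx] at hne2
  have hn0 : n ≠ 0 := by
    rintro rfl
    rw [FA_zero (fun B hB => by
      obtain ⟨Z, hZ, rfl⟩ := hB
      exact num_whole (hD Z hZ)) hFA] at hne2
    exact hne2 rfl
  obtain ⟨k, hk⟩ : n ∣ (2 * A.dim).factorial := Nat.dvd_factorial (Nat.pos_of_ne_zero hn0) hn2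
  have hk1 : 1 ≤ k := by
    rcases Nat.eq_zero_or_pos k with h0 | h0
    · rw [h0, mul_zero] at hk
      exact absurd hk (Nat.factorial_ne_zero _)
    · exact h0
  obtain ⟨N, hN, G, hG, x', l', hGx, hPx, hsum⟩ := FA_pow hself
    (by
      rintro B B' ⟨Z, hZ, rfl⟩ ⟨Z', hZ', rfl⟩
      exact ⟨Z.prod Z', IsProductOf.prod hZ hZ', whole_tensor Z Z'⟩) hFA hne2
    (l := fun i => l i.rev)
    (P := fun l x => (p l ∘ₗ π 1) (x : W.H (Hi hπ hK 1).X) = (x : W.H (Hi hπ hK 1).X)) (by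
      intro i
      have h1 := hx i
      change p (l i.rev) (π 1 (x i : W.H (Hi hπ hK 1).X)) = _
      rw [h1, hπ.self (ht (Fin.rev i)).1]
      exact (ht (Fin.rev i)).2) k hk1
  obtain rfl : N = (2 * A.dim).factorial := by rw [hN, hk]
  refine ⟨k, hk1, G, hG, x', l', hGx, hPx, fun f => ?_⟩
  rw [hsum, ← Equiv.sum_comp Fin.revPerm (fun i : Fin n => f (l i))]
  rfl

/-- **The weights of the components of numerically trivial classes.** -/
theorem exists_weights {𝒴 : Set 𝒱.Obj} (hA : IsAbelianType 𝒢 A m D)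
    (hp : IsBlockSystemOne 𝒢 A D bar p) (hY : ∀ Z, IsProductOf 𝒴 Z → HomEqNum W Z) :
    ∃ w : Λ → ℝ, (∀ l, w (bar l) = -w l) ∧ ∀ Y : 𝒱.Obj, IsProductOf 𝒴 Y →
      ∀ (j : ℤ) (α : W.H (A.prod Y)), α ∈ spanCycles W (A.prod Y) j →
      NumTriv W (A.prod Y) α → ∀ (n : ℕ) (l : Fin n → Λ) (t : Fin n → W.H A), InBlocks (W.gr A 1) p l t →
      ∀ y : W.H Y,
      W.tr (A.prod Y) (W.map (snd A Y) y * W.map (fst A Y) (List.ofFn t).prod * α) ≠ 0 →
      ∑ i, w (l i) < 0 := by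
  classical
  by_cases hne : (1 : W.H A) = 0
  · refine ⟨0, fun l => neg_zero.symm, ?_⟩
    intro Y _ j α _ _ n l t _ y h
    have h1 : α = 0 := by
      calc α = W.map (fst A Y) (1 : W.H A) * α := by rw [map_one, one_mul]
        _ = 0 := by rw [hne, map_zero, zero_mul]
    exact absurd (by rw [h1, mul_zero, map_zero]) h
  obtain ⟨π, hπ, hK⟩ := exists_projs hA.abelianLike
  obtain ⟨θ', hself⟩ : ∃ θ' : W.H A →ₗ[W.K] W.H A,
      SelfDual (Hi hπ hK 1) 1 (-1) (lefP W A D (A.dim - 1) ∘ₗ π 1) θ' :=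
    exists_selfDual hA.abelianLike hA.divisor hA.lefschetz hπ hK hne
  have hb := hp.blocks hA.divisor hπ hK
  by_cases hall : ∀ F ∈ FA (Hi hπ hK 1) (lefP W A D (A.dim - 1) ∘ₗ π 1) (QP W 𝒴)
      (2 * A.dim).factorial, F = 0
  · refine ⟨0, fun l => neg_zero.symm, ?_⟩
    intro Y hYY j α hα hn n l t ht y h
    exfalso
    obtain ⟨k, hk, G, hG, x, l', hGx, -, -⟩ :=
      component_pow hA.lefschetz hπ hK hself hY hYY hα hn ht h
    apply hGx
    rw [hall G hG]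
    rfl
  push Not at hall
  obtain ⟨F₀, hF₀, hF₀ne⟩ := hall
  obtain ⟨v, hv1, hv2⟩ := hb.exists_wts hself (Q := QP W 𝒴)
    (by
      rintro B B' ⟨Z, hZ, rfl⟩ ⟨Z', hZ', rfl⟩
      exact ⟨Z.prod Z', IsProductOf.prod hZ hZ', whole_tensor Z Z'⟩)
    (by
      rintro B ⟨Z, hZ, rfl⟩
      exact num_whole (hY Z hZ)) 𝒢 (fun S _ => hπ.comm S 1)
    (by
      intro S hS
      obtain ⟨c, hc, hcD⟩ := hA.scaled S hS
      have key : ∀ a : W.H A, lefP W A D (A.dim - 1) (π 1 (S.σ A a)) =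
          (c ^ (A.dim - 1))⁻¹ • S.σ A (lefP W A D (A.dim - 1) (π 1 a)) := by
        intro a
        rw [lefP_eq, lefP_eq, map_mul, map_pow, hcD, _root_.smul_pow, smul_mul_assoc, smul_smul,
          inv_mul_cancel₀ (pow_ne_zero _ hc), one_smul, hπ.comm]
      exact ⟨(c ^ (A.dim - 1))⁻¹, inv_ne_zero (pow_ne_zero _ hc), key⟩)
    (by
      rintro S _ B ⟨Z, hZ, rfl⟩ a
      rfl)
    (by
      intro (U : Submodule W.K (W.H A)) hU hst' hS' l hl (y : W.H A) hy'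
      have hst : ∀ (δ : ℤ) (φ : W.H A →ₗ[W.K] W.H A), φ ∈ KOp W A A δ → ∀ x ∈ U,
        π 1 (φ x) ∈ U := hst'
      have hfix : ∀ x ∈ U, π 1 x = x := by
        intro x hx
        obtain ⟨y, hy⟩ := hU hx
        rw [← hy]
        exact congrArg (fun F => F y) (hπ.idem 1)
      have hgr : ∀ x ∈ U, x ∈ W.gr A 1 := by
        intro x hx
        rw [← hfix x hx]
        exact hπ.mem_gr 1 x
      obtain ⟨x, hx, hx0, hxl⟩ := hl
      have hy : p l (π 1 y) = y := hy'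
      have hxl' : p l (π 1 x) = x := hxl
      have hygr : y ∈ W.gr A 1 := by
        rw [← hy]
        exact Mot.hom_deg0 (hp.mem l) (hπ.mem_gr 1 y)
      refine hp.irreducible U hgr ?_ ?_ l ⟨x, hx, hx0, ?_⟩ y hygr ?_
      · rintro _ ⟨z, hz, rfl⟩ x hx
        have hφ0 : W.corr (W.cl _ z) ∈ KOp W A A 0 := KOp.gen (by rw [add_zero]) hz
        have h1 : π 1 (W.corr (W.cl _ z) x) = W.corr (W.cl _ z) x :=
          hπ.self (Mot.hom_deg0 hφ0 (hgr x hx))
        rw [← h1]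
        exact hst _ _ hφ0 x hx
      · rintro _ ⟨S, hS, rfl⟩ x hx
        exact hS' S hS x hx
      · rwa [hfix x hx] at hxl'
      · rwa [hπ.self hygr] at hy) hF₀ hF₀ne
  refine ⟨fun l => (v l - v (bar l)) / 2, fun l => by
    change (v (bar l) - v (bar (bar l))) / 2 = -((v l - v (bar l)) / 2)
    rw [hp.involutive]; ring, ?_⟩
  intro Y hYY j α hα hn n l t ht y hne1
  obtain ⟨k, hk, G, hG, x, l', hGx, hPx, hsum⟩ :=
    component_pow hA.lefschetz hπ hK hself hY hYY hα hn ht hne1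
  have h1 := hv2 G hG x l' hPx hGx
  have h3 : ∀ s, p (l' s) ∘ₗ π 1 ≠ 0 := by
    intro s h0
    have h4 : x s = 0 := by
      apply Subtype.ext
      rw [← hPx s, h0]
      rfl
    obtain ⟨g, hg⟩ := FA_multi hG
    apply hGx
    rw [← hg]
    exact g.map_coord_zero s h4
  have h5 : ∑ s, (v (l' s) - v (bar (l' s))) / 2 = ∑ s, v (l' s) := by
    refine Finset.sum_congr rfl fun s _ => ?_
    rw [hv1 _ (h3 s)]
    ring
  have h6 := hsum fun l => (v l - v (bar l)) / 2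
  beta_reduce at h6
  rw [h5] at h6
  rw [h6] at h1
  have hk' : (0 : ℝ) < k := by exact_mod_cast hk
  by_contra hcon
  push Not at hcon
  have h7 := mul_nonneg hk'.le hcon
  linarith

end Pool.Agent.R908
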