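import Pool.Agent.R908.KqB

/-!
# Classes with vanishing components
-/

open CategoryTheory AlgebraicGeometry TensorProduct Function

universe u v w w'

namespace Pool.Agent.R908

open Pool.Agent.H914 Pool.Agent.H914.VarClass Pool.Agent.H914.VarClass.Obj
  Pool.Agent.H914.WeilCohomology Km

variable {k : Type u} [Field k] {𝒱 : VarClass k} {ops : CycleOps 𝒱}
  {W : WeilCohomology.{u, v} ops} {A Y : 𝒱.Obj} {m : A.prod A ⟶ A} {D : A.Cycles}
  {𝒢 : Set (Symmetry W)} {Λ : Type} [Fintype Λ] {bar : Λ → Λ}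
  {p : Λ → Module.End W.K (W.H A)}

/-- Products of classes of degree one in terms of the blocks. -/
lemma IsBlockSystemOne.pow_le (hp : IsBlockSystemOne 𝒢 A D bar p) : ∀ n : ℕ,
    (W.gr A 1) ^ n ≤ Submodule.span W.K {a : W.H A | ∃ (l : Fin n → Λ) (t : Fin n → W.H A),
      InBlocks (W.gr A 1) p l t ∧ a = (List.ofFn t).prod} := by
  intro n
  induction n with
  | zero =>
    rw [pow_zero, Submodule.one_le]
    exact Submodule.subset_span ⟨fun i => i.elim0, fun i => i.elim0, fun i => i.elim0, by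
      rw [List.ofFn_zero, List.prod_nil]⟩
  | succ n ih =>
    rw [pow_succ', Submodule.mul_le]
    intro a ha b hb
    have hb' := ih hb
    have h1 : a * b = ∑ l, p l a * b := by
      rw [← Finset.sum_mul, hp.sum a ha]
    rw [h1]
    refine Submodule.sum_mem _ fun l _ => ?_
    have hl : p l a ∈ W.gr A 1 := Mot.hom_deg0 (hp.mem l) ha
    have hl' : p l (p l a) = p l a := hp.idem l a ha
    clear hb h1
    induction hb' using Submodule.span_induction with
    | mem b hb =>
      obtain ⟨l', t, ht, rfl⟩ := hb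
      refine Submodule.subset_span ⟨Fin.cons l l', Fin.cons (p l a) t, ?_, ?_⟩
      · intro i
        refine Fin.cases ?_ (fun i => ?_) i
        · exact ⟨hl, hl'⟩
        · exact ht i
      · rw [List.ofFn_succ, List.prod_cons]
        rfl
    | zero => rw [mul_zero]; exact Submodule.zero_mem _
    | add x y _ _ hx hy => rw [mul_add]; exact Submodule.add_mem _ hx hy
    | smul c x _ hx => rw [mul_smul_comm]; exact Submodule.smul_mem _ _ hx

/-- A class all components of which vanish is zero. -/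
theorem eq_zero_of_components (hA : IsAbelianLike W A m) (hp : IsBlockSystemOne 𝒢 A D bar p)
    {j : ℤ} {α : W.H (A.prod Y)} (hα : α ∈ spanCycles W (A.prod Y) j)
    (h : ∀ (n : ℕ) (l : Fin n → Λ) (t : Fin n → W.H A), InBlocks (W.gr A 1) p l t → ∀ y : W.H Y,
      W.tr (A.prod Y) (W.map (snd A Y) y * W.map (fst A Y) (List.ofFn t).prod * α) = 0) :
    α = 0 := by
  apply W.nondeg
  intro b
  refine W.kunneth_induction (p := fun b => W.tr (A.prod Y) (α * b) = 0) ?_ ?_ b
  · intro x y hx hy
    rw [mul_add, map_add, hx, hy, add_zero]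
  · intro i i' a ha y hy
    have h1 := W.comm (W.map_mem (fst A Y) ha) (W.map_mem (snd A Y) hy)
    rw [span_comm hα, h1, smul_mul_assoc, map_smul]
    have h2 := hp.pow_le i (hA.gen i ha)
    have h3 : W.tr (A.prod Y) (W.map (snd A Y) y * W.map (fst A Y) a * α) = 0 := by
      clear ha h1
      induction h2 using Submodule.span_induction with
      | mem a ha =>
        obtain ⟨l, t, ht, rfl⟩ := ha
        exact h i l t ht y
      | zero => rw [map_zero, mul_zero, zero_mul, map_zero]
      | add x x' _ _ hx hx' => rw [map_add, mul_add, add_mul, map_add, hx, hx', add_zero]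
      | smul c x _ hx => rw [map_smul, mul_smul_comm, smul_mul_assoc, map_smul, hx, smul_zero]
    rw [h3, smul_zero]

/-- The theorem about cycles. -/
theorem weights_cycles {𝒴 : Set 𝒱.Obj} (hA : IsAbelianType 𝒢 A m D)
    (hp : IsBlockSystemOne 𝒢 A D bar p) (hY : ∀ Z, IsProductOf 𝒴 Z → HomEqNum W Z) :
    ∃ w : Λ → ℝ, (∀ l, w (bar l) = -w l) ∧
      ∀ Y : 𝒱.Obj, IsProductOf 𝒴 Y → ∀ (j : ℕ) (z : (A.prod Y).Cycles),
        IsNumTrivial ops (A.prod Y) j z →
        (∀ (n : ℕ) (l : Fin n → Λ) (t : Fin n → W.H A), InBlocks (W.gr A 1) p l t → ∀ y : W.H Y,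
          component W z t y ≠ 0 → ∑ i, w (l i) < 0 ∧ ¬ BalancedLabels bar l) ∧
        (W.cl _ z ≠ 0 → ∃ (n : ℕ) (l : Fin n → Λ) (t : Fin n → W.H A) (y : W.H Y),
          InBlocks (W.gr A 1) p l t ∧ component W z t y ≠ 0) := by
  obtain ⟨w, hw, h⟩ := exists_weights hA hp hY
  refine ⟨w, hw, fun Y hYY j z hz => ?_⟩
  have hα : W.cl _ z ∈ spanCycles W (A.prod Y) (j : ℤ) :=
    Submodule.subset_span ⟨j, rfl, z, hz.2.1, rfl⟩
  have hn := numTriv_cl (W := W) hz.1 hz.2.1 hz.2.2
  refine ⟨fun n l t ht y hne => ?_, fun hne => ?_⟩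
  · have h1 := h Y hYY j _ hα hn n l t ht y hne
    refine ⟨h1, fun hbal => ?_⟩
    have h2 := hbal.sum_eq w
    have h3 : ∑ i, w (bar (l i)) = -∑ i, w (l i) := by
      rw [← Finset.sum_neg_distrib]
      exact Finset.sum_congr rfl fun i _ => hw (l i)
    linarith
  · by_contra hcon
    push Not at hcon
    exact hne (eq_zero_of_components hA.abelianLike hp hα fun n l t ht y => hcon n l t y ht)

end Pool.Agent.R908
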