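import Pool.Agent.R908.BaseC

/-!
# Good direct factors from simple subspaces of the transcendental cohomology
-/

open CategoryTheory AlgebraicGeometry TensorProduct

universe u v w w'

namespace Pool.Agent.R908

open Pool.Agent.H914 Pool.Agent.H914.VarClass Pool.Agent.H914.VarClass.Obj
  Pool.Agent.H914.WeilCohomology Pool.Agent.H281R3.HT

variable {k : Type u} [Field k] {𝒱 : VarClass k} {ops : CycleOps 𝒱}
  {W : WeilCohomology.{u, v} ops} {X Y : 𝒱.Obj}

/-- A subspace of the cohomology which is stable under the algebraic correspondences of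
degree `0`. -/
def IsSt (W : WeilCohomology.{u, v} ops) (X : 𝒱.Obj) (N : Submodule W.K (W.H X)) : Prop :=
  ∀ ψ ∈ KOp W X X 0, ∀ v ∈ N, ψ v ∈ N

/-- A simple stable subspace of the transcendental cohomology. -/
def SimpSt (W : WeilCohomology.{u, v} ops) (X : 𝒱.Obj) (N : Submodule W.K (W.H X)) : Prop :=
  N ≤ transcendental W X ∧ N ≠ ⊥ ∧ IsSt W X N ∧ ∀ N' ≤ N, IsSt W X N' → N' = ⊥ ∨ N' = N

lemma exists_simpSt : ∀ (n : ℕ) (N : Submodule W.K (W.H X)), N ≤ transcendental W X → N ≠ ⊥ →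
    IsSt W X N → Module.finrank W.K N ≤ n → ∃ M ≤ N, SimpSt W X M := by
  intro n
  induction n with
  | zero =>
    intro N _ hne _ hn
    exact absurd (Submodule.finrank_eq_zero.1 (Nat.le_zero.1 hn)) hne
  | succ n ih =>
    intro N hNT hne hst hn
    by_cases h : ∀ N' ≤ N, IsSt W X N' → N' = ⊥ ∨ N' = N
    · exact ⟨N, le_rfl, hNT, hne, hst, h⟩
    · push Not at h
      obtain ⟨N', hN', hst', hne', hne''⟩ := h
      have h1 : Module.finrank W.K N' < Module.finrank W.K N :=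
        Submodule.finrank_lt_finrank_of_lt (lt_of_le_of_ne hN' hne'')
      obtain ⟨M, hM, hM'⟩ := ih N' (hN'.trans hNT) hne' hst' (by omega)
      exact ⟨M, hM.trans hN', hM'⟩

/-- The inverse image of a subspace under a semilinear automorphism. -/
def SemiAut.pre (S : SemiAut W) (N : Submodule W.K (W.H X)) : Submodule W.K (W.H X) where
  carrier := {x | S.σ X x ∈ N}
  add_mem' {a b} ha hb := by
    change S.σ X (a + b) ∈ N
    rw [map_add]
    exact N.add_mem ha hb
  zero_mem' := by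
    change S.σ X 0 ∈ N
    rw [map_zero]
    exact N.zero_mem
  smul_mem' c a ha := by
    change S.σ X (c • a) ∈ N
    rw [S.smul]
    exact N.smul_mem _ ha

lemma SemiAut.mem_pre (S : SemiAut W) {N : Submodule W.K (W.H X)} {x : W.H X} :
    x ∈ S.pre N ↔ S.σ X x ∈ N := Iff.rfl

lemma SemiAut.σ_trans (S : SemiAut W) {x : W.H X} (hx : x ∈ transcendental W X) :
    S.σ X x ∈ transcendental W X := by
  rw [mem_trans] at hx ⊢
  rintro j c ⟨z, hz, rfl⟩
  have h1 : S.σ X x * W.cl X z = S.σ X (x * W.cl X z) := by rw [S.mul, S.cl]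
  rw [bil_apply, h1, S.tr]
  have h2 := hx j _ ⟨z, hz, rfl⟩
  rw [bil_apply] at h2
  rw [h2, map_zero]

lemma SemiAut.isSt_pre (S : SemiAut W) {N : Submodule W.K (W.H X)} (hN : IsSt W X N) :
    IsSt W X (S.pre N) := by
  intro ψ hψ v hv
  rw [SemiAut.mem_pre] at hv ⊢
  rw [← S.conj_σ]
  exact hN _ (S.conj_mem hψ) _ hv

namespace SemiAct

variable {Γ : Type w} [Group Γ] (S : SemiAct Γ W)

lemma act_inv (g : Γ) (x : W.H X) : (S.act g).σ X ((S.act g⁻¹).σ X x) = x := by
  rw [← S.mul, mul_inv_cancel, S.one]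

lemma act_inv' (g : Γ) (x : W.H X) : (S.act g⁻¹).σ X ((S.act g).σ X x) = x := by
  rw [← S.mul, inv_mul_cancel, S.one]

lemma simpSt_pre (g : Γ) {N : Submodule W.K (W.H X)} (hN : SimpSt W X N) :
    SimpSt W X ((S.act g).pre N) := by
  obtain ⟨h1, h2, h3, h4⟩ := hN
  refine ⟨?_, ?_, (S.act g).isSt_pre h3, ?_⟩
  · intro x hx
    rw [← S.act_inv' g x]
    exact (S.act g⁻¹).σ_trans (h1 hx)
  · obtain ⟨n, hn, hn0⟩ := Submodule.exists_mem_ne_zero_of_ne_bot h2
    intro h
    have h5 : (S.act g⁻¹).σ X n ∈ (S.act g).pre N := by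
      rw [SemiAut.mem_pre, S.act_inv]
      exact hn
    rw [h, Submodule.mem_bot] at h5
    exact hn0 ((map_eq_zero_iff _ ((S.act g⁻¹).σ X).injective).1 h5)
  · intro N' hN' hst
    rcases h4 ((S.act g⁻¹).pre N') (by
      intro x hx
      have h5 := hN' hx
      rw [SemiAut.mem_pre, S.act_inv] at h5
      exact h5) ((S.act g⁻¹).isSt_pre hst) with h | h
    · left
      rw [Submodule.eq_bot_iff]
      intro x hx
      have h5 : (S.act g).σ X x ∈ (S.act g⁻¹).pre N' := by
        rw [SemiAut.mem_pre, S.act_inv']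
        exact hx
      rw [h, Submodule.mem_bot] at h5
      exact (map_eq_zero_iff _ ((S.act g).σ X).injective).1 h5
    · right
      refine le_antisymm hN' (fun x hx => ?_)
      rw [SemiAut.mem_pre, ← h, SemiAut.mem_pre, S.act_inv'] at hx
      exact hx

end SemiAct

/-- The correspondences in the two directions. -/
lemma tr_corr_span {j : ℤ} {d : W.H (Y.prod X)} (hd : d ∈ spanCycles W (Y.prod X) j) (x : W.H X)
    (y : W.H Y) : W.tr (X.prod Y) (W.map (swap X Y) d * (W.map (fst X Y) x *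
      W.map (snd X Y) y)) = W.tr X (x * W.corr d y) := by
  induction hd using Submodule.span_induction with
  | mem d hd =>
    obtain ⟨p, -, z, hz, rfl⟩ := hd
    have h1 := tr_corr_swap (W := W) (X := X) (Y := Y) (c := W.map (swap X Y) (W.cl _ z))
      (W.map_mem _ (W.cl_mem hz)) x y
    rw [Mot.map_swap_swap] at h1
    rw [← h1, corr_apply, W.tr_push, mul_assoc]
  | zero => rw [map_zero, zero_mul, map_zero, corr_zero, LinearMap.zero_apply, mul_zero, map_zero]
  | add a b _ _ ha hb =>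
    rw [map_add, add_mul, map_add, ha, hb, corr_add, LinearMap.add_apply, mul_add, map_add]
  | smul c a _ ha =>
    rw [map_smul, smul_mul_assoc, map_smul, ha, corr_smul, LinearMap.smul_apply, mul_smul_comm,
      map_smul]

/-- Projectors to spaces of algebraic classes are self-dual. -/
lemma contr_alg {A : Mot W} {N : ℕ} {c c' : Fin N → W.H A.X} {j : ℤ}
    (hc : ∀ i, c i ∈ spanCycles W A.X j)
    (he : ∀ x, A.e x = ∑ i, W.tr A.X (c i * x) • c' i) : A.Contr A := by
  refine ⟨j + j, fun f f' => ?_⟩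
  set α := ∑ i, f (c' i) • c i with hα
  set β := ∑ i, f' (c' i) • c i with hβ
  have hαs : α ∈ spanCycles W A.X j :=
    Submodule.sum_mem _ (fun i _ => Submodule.smul_mem _ _ (hc i))
  have hβs : β ∈ spanCycles W A.X j :=
    Submodule.sum_mem _ (fun i _ => Submodule.smul_mem _ _ (hc i))
  have key : ∀ (f : W.H A.X →ₗ[W.K] W.K) (x : W.H A.X),
      W.tr A.X ((∑ i, f (c' i) • c i) * x) = f (A.e x) := by
    intro f x
    rw [he, Finset.sum_mul, map_sum, map_sum]
    apply Finset.sum_congr rfl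
    intro i _
    rw [smul_mul_assoc, map_smul, map_smul, smul_eq_mul, smul_eq_mul, mul_comm]
  refine ⟨W.map (fst A.X A.X) α * W.map (snd A.X A.X) β,
    span_mul (span_map _ hαs) (span_map _ hβs), fun x y => ?_⟩
  have h1 : W.map (fst A.X A.X) α * W.map (snd A.X A.X) β *
      (W.map (fst A.X A.X) x * W.map (snd A.X A.X) y) =
      W.map (fst A.X A.X) (α * x) * W.map (snd A.X A.X) (β * y) := by
    rw [map_mul (W.map (fst A.X A.X)), map_mul (W.map (snd A.X A.X)), mul_assoc,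
      ← mul_assoc (W.map (snd A.X A.X) β), span_comm (span_map (snd A.X A.X) hβs)]
    simp only [mul_assoc]
  rw [h1, W.tr_prod, key, key]

/-- A direct factor on which all operators are algebraic is dual to a conjugate if it pairs
non-trivially with it. -/
lemma contr_trans {A : Mot W} (S : SemiAut W) {δ : ℤ} {θ : W.H A.X →ₗ[W.K] W.H A.X}
    (hθ : θ ∈ KOp W A.X A.X δ) {x₀ y₀ : W.H A.X}
    (hx₀ : ∀ f : W.H A.X →ₗ[W.K] W.K, (f ∘ₗ A.e).smulRight x₀ ∈ KOp W A.X A.X 0)
    (hy₀ : ∀ f : W.H A.X →ₗ[W.K] W.K, (f ∘ₗ A.e).smulRight y₀ ∈ KOp W A.X A.X 0)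
    (hne : W.tr A.X (x₀ * θ (S.σ A.X y₀)) ≠ 0) : A.Contr (S.mot A) := by
  refine ⟨A.X.dim + δ, fun f (f' : W.H A.X →ₗ[W.K] W.K) => ?_⟩
  set κ := W.tr A.X (x₀ * θ (S.σ A.X y₀)) with hκ
  obtain ⟨φ', hφ', hadj⟩ := KOp.exists_adjoint (hx₀ f)
  have hψ := S.conj_mem (hy₀ (S.form f'))
  have hη : κ⁻¹ • (φ' ∘ₗ θ ∘ₗ S.conj ((S.form f' ∘ₗ A.e).smulRight y₀)) ∈
      KOp W A.X A.X δ := by
    refine Submodule.smul_mem _ _ (KOp.cast (KOp.comp hφ' (KOp.comp hθ hψ)) (by ring))
  obtain ⟨d, hd, hdη⟩ := mem_KOp_iff.1 hη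
  refine ⟨W.map (swap A.X A.X) d, span_map _ hd, ?_⟩
  intro (x : W.H A.X) (y : W.H A.X)
  have h1 : S.conj ((S.form f' ∘ₗ A.e).smulRight y₀) y = f' (S.conj A.e y) • S.σ A.X y₀ := by
    rw [SemiAut.conj_apply, LinearMap.smulRight_apply, S.smul, LinearMap.comp_apply]
    congr 1
    exact RingEquiv.apply_symm_apply _ _
  have h2 := tr_corr_span hd x y
  have h3 : W.corr d y = κ⁻¹ • (φ' (θ (f' (S.conj A.e y) • S.σ A.X y₀))) := by
    rw [hdη, LinearMap.smul_apply, LinearMap.comp_apply, LinearMap.comp_apply, h1]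
  change W.tr (A.X.prod A.X) (W.map (swap A.X A.X) d * (W.map (fst A.X A.X) x *
      W.map (snd A.X A.X) y)) = f (A.e x) * f' (S.conj A.e y)
  rw [h2, h3, mul_smul_comm, map_smul, ← hadj, LinearMap.smulRight_apply, LinearMap.comp_apply,
    map_smul, smul_mul_assoc, mul_smul_comm, map_smul, map_smul, smul_eq_mul, smul_eq_mul,
    smul_eq_mul, ← hκ]
  field_simp

end Pool.Agent.R908
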