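import Pool.Agent.R908.AbL
import Pool.Agent.R908.KpD
import Pool.Agent.R908.Simp

/-!
# Rational projectors and derivations of the cohomology of abelian varieties
-/

open CategoryTheory AlgebraicGeometry TensorProduct Polynomial

universe u v w w'

namespace Pool.Agent.R908

open Pool.Agent.H914 Pool.Agent.H914.VarClass Pool.Agent.H914.VarClass.Obj
  Pool.Agent.H914.WeilCohomology

variable {k : Type u} [Field k] {𝒱 : VarClass k} {ops : CycleOps 𝒱}
  {W : WeilCohomology.{u, v} ops} {A X Y : 𝒱.Obj} {m : A.prod A ⟶ A}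

lemma RatOp.aeval {φ : Module.End W.K (W.H X)} (h : φ ∈ RatOp W X X) (f : ℚ[X]) :
    Polynomial.aeval φ (f.map (algebraMap ℚ W.K)) ∈ RatOp W X X := by
  rw [aeval_eq_sum_range]
  refine RatOp.sum _ fun i _ => ?_
  rw [coeff_map, eq_ratCast]
  exact RatOp.smul _ (RatOp.pow h i)

/-- The projectors to the degrees are algebraic with rational coefficients. -/
theorem exists_ratProjs (hA : IsAbelianLike W A m) : ∃ π : ℕ → (W.H A →ₗ[W.K] W.H A),
    IsProjs W A π ∧ ∀ i, π i ∈ RatOp W A A := by
  classical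
  set f : A ⟶ A := diag A ≫ m with hf
  have hf1 : ∀ x ∈ W.gr A 1, W.map f x = (2 : W.K) • x := by
    intro x hx
    have e1 : diag A ≫ fst A A = 𝟙 A := Obj.lift_fst _ _
    have e2 : diag A ≫ snd A A = 𝟙 A := Obj.lift_snd _ _
    rw [hf, W.map_comp, hA.add x hx, map_add, ← W.map_comp, ← W.map_comp, e1, e2, W.map_id,
      two_smul]
  have hfi : ∀ i, ∀ x ∈ W.gr A 1 ^ i, W.map f x = ((2 : W.K) ^ i) • x := by
    intro i
    induction i with
    | zero =>
      intro x hx
      rw [pow_zero, Submodule.mem_one] at hx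
      obtain ⟨c, rfl⟩ := hx
      rw [AlgHom.commutes, pow_zero, one_smul]
    | succ i ih =>
      intro x hx
      rw [pow_succ'] at hx
      refine Submodule.mul_induction_on hx ?_ ?_
      · intro a ha b hb
        rw [map_mul, hf1 a ha, ih b hb, smul_mul_smul_comm, pow_succ']
      · intro a b ha hb
        rw [map_add, ha, hb, smul_add]
  set v : ℕ → ℚ := fun j => (2 : ℚ) ^ j with hv
  have hinj : Set.InjOn v (Finset.range (2 * A.dim + 1) : Set ℕ) := by
    intro i _ j _ hij
    have h1 : (2 : ℚ) ^ i = (2 : ℚ) ^ j := hij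
    have h2 : ((2 ^ i : ℕ) : ℚ) = ((2 ^ j : ℕ) : ℚ) := by push_cast; exact h1
    exact Nat.pow_right_injective le_rfl (Nat.cast_injective h2)
  have hev : ∀ i j, (((Lagrange.basis (Finset.range (2 * A.dim + 1)) v i)).map
      (algebraMap ℚ W.K)).eval ((2 : W.K) ^ j) =
      algebraMap ℚ W.K ((Lagrange.basis (Finset.range (2 * A.dim + 1)) v i).eval (v j)) := by
    intro i j
    have h1 : ((2 : W.K) ^ j) = algebraMap ℚ W.K (v j) := by
      rw [hv, map_pow, map_ofNat]
    rw [h1, eval_map_algebraMap, aeval_algebraMap_apply]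
    rfl
  refine ⟨fun i => if i ≤ 2 * A.dim then
    Polynomial.aeval (W.map f).toLinearMap
      ((Lagrange.basis (Finset.range (2 * A.dim + 1)) v i).map (algebraMap ℚ W.K))
      else 0, ?_, ?_⟩
  · intro i j x hx
    beta_reduce
    by_cases hj : 2 * A.dim < j
    · rw [W.gr_eq_bot A j hj, Submodule.mem_bot] at hx
      rw [hx, map_zero]
      split_ifs <;> rfl
    · by_cases hi : i ≤ 2 * A.dim
      · rw [if_pos hi]
        have h1 : (W.map f).toLinearMap x = ((2 : W.K) ^ j) • x := hfi j x (hA.gen j hx)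
        rw [aeval_eig h1, hev]
        by_cases hij : i = j
        · subst hij
          rw [Lagrange.eval_basis_self hinj (Finset.mem_range.2 (by omega)), map_one, one_smul,
            if_pos rfl]
        · rw [Lagrange.eval_basis_of_ne hij (Finset.mem_range.2 (by omega)), map_zero, zero_smul,
            if_neg hij]
      · rw [if_neg hi, LinearMap.zero_apply, if_neg (by omega)]
  · intro i
    beta_reduce
    split_ifs
    · exact RatOp.aeval (RatOp.mapHom f) _
    · exact RatOp.zero

/-- The operator on the cohomology of an abelian variety, which is a derivation if `u` is an operator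
in degree one. -/
noncomputable def dvi (W : WeilCohomology.{u, v} ops) {A : 𝒱.Obj} (m : A.prod A ⟶ A)
    (u : W.H A →ₗ[W.K] W.H A) : W.H A →ₗ[W.K] W.H A :=
  (W.map (diag A)).toLinearMap ∘ₗ extHom W u LinearMap.id ∘ₗ (W.map m).toLinearMap

lemma ext_id_snd {u : W.H A →ₗ[W.K] W.H A} (hu : ∀ i, ∀ a ∈ W.gr A i, u a ∈ W.gr A i)
    {x : W.H A} (hx : x ∈ W.gr A 1) (z : W.H (A.prod A)) :
    extHom W u LinearMap.id (W.map (snd A A) x * z) =
      W.map (snd A A) x * extHom W u LinearMap.id z := by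
  refine W.kunneth_induction (p := fun z => extHom W u LinearMap.id (W.map (snd A A) x * z) =
      W.map (snd A A) x * extHom W u LinearMap.id z) ?_ ?_ z
  · intro z z' h1 h2
    rw [mul_add, map_add, h1, h2, map_add, mul_add]
  · intro i j a ha b hb
    rw [snd_fst hx ha, map_smul, extHom_tmul, extHom_tmul, snd_fst hx (hu i a ha)]
    rfl

variable {π : ℕ → (W.H A →ₗ[W.K] W.H A)}

lemma IsProjs.ext_id_zero (hπ : IsProjs W A π) {x : W.H A} (hx : x ∈ W.gr A 1)
    (z : W.H (A.prod A)) :
    extHom W (π 0) LinearMap.id (W.map (fst A A) x * z) = 0 := by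
  refine W.kunneth_induction (p := fun z => extHom W (π 0) LinearMap.id
    (W.map (fst A A) x * z) = 0) ?_ ?_ z
  · intro z z' h1 h2
    rw [mul_add, map_add, h1, h2, add_zero]
  · intro i j u hu v _
    rw [← mul_assoc, ← map_mul, extHom_tmul, hπ.ne (W.mul_mem hx hu) (by omega), map_zero,
      zero_mul]

lemma IsProjs.ext_id_one (hπ : IsProjs W A π) {v : W.H A →ₗ[W.K] W.H A} {x : W.H A}
    (hx : x ∈ W.gr A 1) (z : W.H (A.prod A)) :
    extHom W (v ∘ₗ π 1) LinearMap.id (W.map (fst A A) x * z) =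
      W.map (fst A A) (v x) * extHom W (π 0) LinearMap.id z := by
  refine W.kunneth_induction (p := fun z => extHom W (v ∘ₗ π 1) LinearMap.id
    (W.map (fst A A) x * z) = W.map (fst A A) (v x) * extHom W (π 0) LinearMap.id z) ?_ ?_ z
  · intro z z' h1 h2
    rw [mul_add, map_add, h1, h2, map_add, mul_add]
  · intro i j a ha b _
    rw [← mul_assoc, ← map_mul, extHom_tmul, extHom_tmul, ← mul_assoc, ← map_mul,
      LinearMap.comp_apply]
    by_cases h : i = 0
    · subst h
      have h1 := W.mul_mem hx ha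
      rw [add_zero] at h1
      rw [hπ.self h1, hπ.self ha]
      rw [W.gr_zero A, Submodule.mem_span_singleton] at ha
      obtain ⟨r, rfl⟩ := ha
      rw [mul_smul_comm, mul_one, map_smul, mul_smul_comm, mul_one]
    · rw [hπ.ne (W.mul_mem hx ha) (by omega), hπ.ne ha (Ne.symm h), map_zero, mul_zero, map_zero]

lemma IsProjs.counit (hπ : IsProjs W A π) (hA : IsAbelianLike W A m) : ∀ i, ∀ y ∈ W.gr A 1 ^ i,
    extHom W (π 0) LinearMap.id (W.map m y) = W.map (snd A A) y := by
  have hdeg : ∀ i, ∀ a ∈ W.gr A i, π 0 a ∈ W.gr A i := fun i a ha => hπ.mem ha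
  have hone : extHom W (π 0) LinearMap.id (1 : W.H (A.prod A)) = 1 := by
    have h1 := extHom_tmul (W := W) (π 0) LinearMap.id (1 : W.H A) (1 : W.H A)
    rw [hπ.self (W.one_mem A), map_one, LinearMap.id_apply, map_one, one_mul] at h1
    exact h1
  intro i
  induction i with
  | zero =>
    intro y hy
    rw [pow_zero, Submodule.mem_one] at hy
    obtain ⟨c, rfl⟩ := hy
    rw [Algebra.algebraMap_eq_smul_one, map_smul, map_smul, map_one, hone, map_smul, map_one]
  | succ i ih =>
    intro y hy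
    rw [pow_succ'] at hy
    refine Submodule.mul_induction_on hy ?_ ?_
    · intro x hx y hy
      rw [map_mul, hA.add x hx, add_mul, map_add, hπ.ext_id_zero hx, zero_add,
        ext_id_snd hdeg hx, ih y hy, map_mul]
    · intro x y hx hy
      rw [map_add, map_add, hx, hy, map_add]

/-- The derivation property. -/
lemma IsProjs.dvi_mul (hπ : IsProjs W A π) (hA : IsAbelianLike W A m)
    {v : W.H A →ₗ[W.K] W.H A} (hv : ∀ a ∈ W.gr A 1, v a ∈ W.gr A 1) {x : W.H A}
    (hx : x ∈ W.gr A 1) {i : ℕ} {y : W.H A} (hy : y ∈ W.gr A i) :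
    dvi W m (v ∘ₗ π 1) (x * y) = v x * y + x * dvi W m (v ∘ₗ π 1) y := by
  have e1 : diag A ≫ fst A A = 𝟙 A := Obj.lift_fst _ _
  have e2 : diag A ≫ snd A A = 𝟙 A := Obj.lift_snd _ _
  have hu : ∀ i, ∀ a ∈ W.gr A i, (v ∘ₗ π 1) a ∈ W.gr A i := by
    intro i a ha
    rw [LinearMap.comp_apply]
    by_cases h : 1 = i
    · subst h
      rw [hπ.self ha]
      exact hv a ha
    · rw [hπ.ne ha h, map_zero]
      exact Submodule.zero_mem _
  change W.map (diag A) (extHom W (v ∘ₗ π 1) LinearMap.id (W.map m (x * y))) =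
    v x * y + x * W.map (diag A) (extHom W (v ∘ₗ π 1) LinearMap.id (W.map m y))
  rw [map_mul, hA.add x hx, add_mul, map_add, hπ.ext_id_one hx, ext_id_snd hu hx,
    hπ.counit hA i y (hA.gen i hy), map_add, map_mul, map_mul, ← W.map_comp, ← W.map_comp,
    ← W.map_comp, e1, e2, W.map_id, W.map_id, W.map_id]

lemma IsProjs.dvi_one (hπ : IsProjs W A π) (v : W.H A →ₗ[W.K] W.H A) :
    dvi W m (v ∘ₗ π 1) 1 = 0 := by
  change W.map (diag A) (extHom W (v ∘ₗ π 1) LinearMap.id (W.map m 1)) = 0
  have h1 := extHom_tmul (W := W) (v ∘ₗ π 1) LinearMap.id (1 : W.H A) (1 : W.H A)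
  rw [map_one, map_one, one_mul, LinearMap.comp_apply, hπ.ne (W.one_mem A) one_ne_zero,
    map_zero, map_zero, zero_mul] at h1
  rw [map_one, h1, map_zero]

/-- The derivation on products. -/
lemma IsProjs.dvi_prod (hπ : IsProjs W A π) (hA : IsAbelianLike W A m)
    {v : W.H A →ₗ[W.K] W.H A} (hv : ∀ a ∈ W.gr A 1, v a ∈ W.gr A 1) : ∀ {n : ℕ}
    {t : Fin n → W.H A} (_ : ∀ i, t i ∈ W.gr A 1) {c : Fin n → W.K}
    (_ : ∀ i, v (t i) = c i • t i), dvi W m (v ∘ₗ π 1) (List.ofFn t).prod =
      (∑ i, c i) • (List.ofFn t).prod := by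
  intro n
  induction n with
  | zero =>
    intro t _ c _
    rw [List.ofFn_zero, List.prod_nil, hπ.dvi_one, Finset.univ_eq_empty, Finset.sum_empty,
      zero_smul]
  | succ n ih =>
    intro t ht c hc
    have hmem : ∀ {n : ℕ} {t : Fin n → W.H A}, (∀ i, t i ∈ W.gr A 1) →
        (List.ofFn t).prod ∈ W.gr A n := by
      intro n
      induction n with
      | zero =>
        intro t _
        rw [List.ofFn_zero, List.prod_nil]
        exact W.one_mem A
      | succ n ih =>
        intro t ht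
        rw [List.ofFn_succ, List.prod_cons]
        have h1 := W.mul_mem (ht 0) (ih (t := fun i => t i.succ) fun i => ht i.succ)
        rwa [Nat.add_comm 1 n] at h1
    rw [List.ofFn_succ, List.prod_cons, hπ.dvi_mul hA hv (ht 0)
      (hmem (t := fun i => t i.succ) fun i => ht i.succ),
      ih (t := fun i => t i.succ) (fun i => ht i.succ) (c := fun i => c i.succ)
      (fun i => hc i.succ), hc 0, Fin.sum_univ_succ, add_smul, smul_mul_assoc, mul_smul_comm]

end Pool.Agent.R908
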