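import Pool.Agent.R908.KrA
import Pool.Agent.R908.KqC

/-!
# Counting operators, and the injectivity conjecture for products with abelian varieties
-/

open CategoryTheory AlgebraicGeometry TensorProduct Polynomial

universe u v w w'

namespace Pool.Agent.R908

open Pool.Agent.H914 Pool.Agent.H914.VarClass Pool.Agent.H914.VarClass.Obj
  Pool.Agent.H914.WeilCohomology

variable {k : Type u} [Field k] {𝒱 : VarClass k} {ops : CycleOps 𝒱}
  {W : WeilCohomology.{u, v} ops} {A X Y Z : 𝒱.Obj} {m : A.prod A ⟶ A}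
  {ι : algebraicClosure ℚ W.K →ₐ[ℚ] ℂ}

lemma PairK.conj_rat {E E' : W.H X →ₗ[W.K] W.H X} (h : PairK W ι X E E')
    {α : W.H X →ₗ[W.K] W.H Y} {β : W.H Y →ₗ[W.K] W.H X} (hα : α ∈ RatOp W X Y)
    (hβ : β ∈ RatOp W Y X) : PairK W ι Y (α ∘ₗ E ∘ₗ β) (α ∘ₗ E' ∘ₗ β) := by
  obtain ⟨κ, _, c, c', ρ, h1, h2, rfl, rfl⟩ := h
  have key : ∀ c : κ → W.K, α ∘ₗ (∑ i, c i • ρ i) ∘ₗ β = ∑ i, c i • (α ∘ₗ ρ i ∘ₗ β) := by
    intro c
    apply LinearMap.ext
    intro x
    simp only [LinearMap.comp_apply, LinearMap.sum_apply, LinearMap.smul_apply, map_sum, map_smul]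
  exact ⟨κ, inferInstance, c, c', fun i => α ∘ₗ ρ i ∘ₗ β, h1,
    fun i => RatOp.comp hα (RatOp.comp (h2 i) hβ), key c, key c'⟩

lemma PairK.comp {E E' F F' : W.H X →ₗ[W.K] W.H X} (h : PairK W ι X E E')
    (h' : PairK W ι X F F') : PairK W ι X (E ∘ₗ F) (E' ∘ₗ F') := by
  obtain ⟨κ, _, c, c', ρ, h1, h2, rfl, rfl⟩ := h
  have key : ∀ (c : κ → W.K) (F : W.H X →ₗ[W.K] W.H X),
      (∑ i, c i • ρ i) ∘ₗ F = ∑ i, c i • (ρ i ∘ₗ F ∘ₗ LinearMap.id) := by
    intro c F
    apply LinearMap.ext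
    intro x
    simp only [LinearMap.comp_apply, LinearMap.sum_apply, LinearMap.smul_apply,
      LinearMap.id_apply]
  rw [key c F, key c' F']
  exact PairK.sum _ fun i _ => PairK.csmul (h1 i) (h'.conj_rat (h2 i) (RatOp.id X))

lemma PairK.mem {E E' : W.H X →ₗ[W.K] W.H X} (h : PairK W ι X E E') :
    E ∈ KOp W X X 0 ∧ E' ∈ KOp W X X 0 := by
  obtain ⟨κ, _, c, c', ρ, h1, h2, rfl, rfl⟩ := h
  exact ⟨Submodule.sum_mem _ fun i _ => Submodule.smul_mem _ _ (RatOp.mem (h2 i)),
    Submodule.sum_mem _ fun i _ => Submodule.smul_mem _ _ (RatOp.mem (h2 i))⟩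

lemma PairK.aeval {E E' : Module.End W.K (W.H X)} (h : PairK W ι X E E') (f : ℚ[X]) :
    PairK W ι X (Polynomial.aeval E (f.map (algebraMap ℚ W.K)) : Module.End W.K (W.H X))
      (Polynomial.aeval E' (f.map (algebraMap ℚ W.K)) : Module.End W.K (W.H X)) := by
  have hpow : ∀ n : ℕ, PairK W ι X (E ^ n : Module.End W.K (W.H X))
      (E' ^ n : Module.End W.K (W.H X)) := by
    intro n
    induction n with
    | zero => rw [pow_zero, pow_zero]; exact PairK.rat (RatOp.id X)
    | succ n ih => rw [pow_succ, pow_succ]; exact PairK.comp ih h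
  rw [aeval_eq_sum_range, aeval_eq_sum_range]
  refine PairK.sum _ fun i _ => ?_
  rw [coeff_map, eq_ratCast]
  exact PairK.csmul (CConj.rat _) (hpow i)

/-- Transposes. -/
lemma RatOp.exists_tr {φ : W.H X →ₗ[W.K] W.H X} (h : φ ∈ RatOp W X X) :
    ∃ φ' ∈ RatOp W X X, ∀ x y, W.tr X (φ x * y) = W.tr X (x * φ' y) := by
  obtain ⟨z, hz, rfl⟩ := h
  exact ⟨_, ⟨ops.pull (swap X X) z, ops.pull_mem _ hz, rfl⟩, fun x y => by
    rw [W.cl_pull]
    exact tr_corr_swap (W.cl_mem hz) x y⟩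

lemma PairK.exists_tr {E E' : W.H X →ₗ[W.K] W.H X} (h : PairK W ι X E E') :
    ∃ F F' : W.H X →ₗ[W.K] W.H X, PairK W ι X F F' ∧
      (∀ x y, W.tr X (E x * y) = W.tr X (x * F y)) ∧
      ∀ x y, W.tr X (E' x * y) = W.tr X (x * F' y) := by
  obtain ⟨κ, _, c, c', ρ, h1, h2, rfl, rfl⟩ := h
  choose τ hτ hadj using fun i => RatOp.exists_tr (h2 i)
  have key : ∀ (c : κ → W.K) x y, W.tr X ((∑ i, c i • ρ i) x * y) =
      W.tr X (x * (∑ i, c i • τ i) y) := by
    intro c x y
    rw [LinearMap.sum_apply, LinearMap.sum_apply, Finset.sum_mul, Finset.mul_sum, map_sum,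
      map_sum]
    refine Finset.sum_congr rfl fun i _ => ?_
    rw [LinearMap.smul_apply, LinearMap.smul_apply, smul_mul_assoc, mul_smul_comm, map_smul,
      map_smul, hadj]
  exact ⟨_, _, ⟨κ, inferInstance, c, c', τ, h1, hτ, rfl, rfl⟩, key c, key c'⟩

/-- Transposes and components. -/
lemma tr_ext_id {E F : W.H A →ₗ[W.K] W.H A} (h : ∀ x y, W.tr A (E x * y) = W.tr A (x * F y))
    (x : W.H A) (y : W.H Y) (c : W.H (A.prod Y)) :
    W.tr (A.prod Y) (W.map (snd A Y) y * W.map (fst A Y) x * extHom W F LinearMap.id c) =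
      W.tr (A.prod Y) (W.map (snd A Y) y * W.map (fst A Y) (E x) * c) := by
  rw [mul_assoc, mul_assoc, tr_snd_left, tr_snd_left]
  refine W.kunneth_induction (p := fun c => W.tr Y (y * W.push (snd A Y)
    (W.map (fst A Y) x * extHom W F LinearMap.id c)) =
    W.tr Y (y * W.push (snd A Y) (W.map (fst A Y) (E x) * c))) ?_ ?_ c
  · intro c c' h1 h2
    rw [map_add, mul_add, map_add, mul_add, map_add, h1, h2, mul_add, map_add, mul_add, map_add]
  · intro i j a _ b _
    rw [extHom_tmul, ← mul_assoc, ← mul_assoc, ← map_mul, ← map_mul, W.push_snd, W.push_snd,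
      LinearMap.id_apply, h]

variable {D : A.Cycles} {𝒢 : Set (Symmetry W)} {Λ : Type} [Fintype Λ] {bar : Λ → Λ}
  {p : Λ → Module.End W.K (W.H A)} {π : ℕ → (W.H A →ₗ[W.K] W.H A)}

/-- The number of entries `a`. -/
noncomputable def cnt {n : ℕ} (l : Fin n → Λ) (a : Λ) : ℕ :=
  haveI := Classical.decEq Λ
  (Finset.univ.filter fun i => l i = a).card

lemma cnt_le {n : ℕ} (l : Fin n → Λ) (a : Λ) : cnt l a ≤ n := by
  classical
  unfold cnt
  refine (Finset.card_le_univ _).trans ?_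
  rw [Fintype.card_fin]

lemma sum_cnt {n : ℕ} (l : Fin n → Λ) (f : Λ → ℝ) : ∑ i, f (l i) = ∑ a, (cnt l a : ℝ) * f a := by
  classical
  rw [← Finset.sum_fiberwise_of_maps_to (s := Finset.univ) (t := Finset.univ) (g := l)
    (fun i _ => Finset.mem_univ _)]
  refine Finset.sum_congr rfl fun a _ => ?_
  have h1 : ∀ i ∈ Finset.univ.filter (fun i => l i = a), f (l i) = f a := by
    intro i hi
    rw [(Finset.mem_filter.1 hi).2]
  rw [Finset.sum_congr rfl h1, Finset.sum_const, nsmul_eq_mul]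
  unfold cnt
  congr 2

/-- The counting operators on products. -/
lemma IsBlockSystemOne.num_prod (hp : IsBlockSystemOne 𝒢 A D bar p) (hA : IsAbelianLike W A m)
    (hπ : IsProjs W A π) (a : Λ) {n : ℕ} {l : Fin n → Λ} {t : Fin n → W.H A}
    (ht : InBlocks (W.gr A 1) p l t) :
    dvi W m (p a ∘ₗ π 1) (List.ofFn t).prod = (cnt l a : W.K) • (List.ofFn t).prod := by
  classical
  have h1 : ∀ i, p a (t i) = (if l i = a then (1 : W.K) else 0) • t i := by
    intro i
    by_cases h : l i = a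
    · rw [if_pos h, one_smul, ← h]
      exact (ht i).2
    · rw [if_neg h, zero_smul, ← (ht i).2]
      exact hp.ortho a (l i) (Ne.symm h) _ (ht i).1
  rw [hπ.dvi_prod hA (fun x hx => Mot.hom_deg0 (hp.mem a) hx) (fun i => (ht i).1) h1]
  congr 1
  rw [Finset.sum_boole]
  unfold cnt
  congr 2

lemma lag_eval {N j : ℕ} (i : ℕ) (hi : i ≤ N) (hj : j ≤ N) :
    ((Lagrange.basis (Finset.range (N + 1)) (fun n : ℕ => (n : ℚ)) i).map
      (algebraMap ℚ W.K)).eval (j : W.K) = if j = i then 1 else 0 := by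
  classical
  have hinj : Set.InjOn (fun n : ℕ => (n : ℚ)) (Finset.range (N + 1) : Set ℕ) :=
    fun a _ b _ hab => Nat.cast_injective hab
  have h1 : (j : W.K) = algebraMap ℚ W.K (j : ℚ) := by rw [map_natCast]
  rw [h1, eval_map_algebraMap, aeval_algebraMap_apply]
  change algebraMap ℚ W.K ((Lagrange.basis (Finset.range (N + 1)) (fun n : ℕ => (n : ℚ)) i).eval
    (j : ℚ)) = _
  split_ifs with h
  · subst h
    rw [Lagrange.eval_basis_self hinj (Finset.mem_range.2 (by omega)), map_one]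
  · rw [Lagrange.eval_basis_of_ne (v := fun n : ℕ => (n : ℚ)) (Ne.symm h)
      (Finset.mem_range.2 (by omega)), map_zero]

/-- Operators detecting the labels. -/
lemma exists_detect (hp : IsBlockSystemOne 𝒢 A D bar p) (hA : IsAbelianLike W A m)
    (hπ : IsProjs W A π) (hπr : π 1 ∈ RatOp W A A)
    (hpair : ∀ l, PairK W ι A (p l) (p (bar l))) (M : Λ → ℕ) (hM : ∀ a, M a ≤ 2 * A.dim)
    (s : Finset Λ) : ∃ E E' : W.H A →ₗ[W.K] W.H A, PairK W ι A E E' ∧
      ∀ (n : ℕ) (l : Fin n → Λ) (t : Fin n → W.H A), InBlocks (W.gr A 1) p l t → n ≤ 2 * A.dim →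
        (E (List.ofFn t).prod = if ∀ a ∈ s, cnt l a = M a then (List.ofFn t).prod else 0) ∧
        (E' (List.ofFn t).prod =
          if ∀ a ∈ s, cnt l (bar a) = M a then (List.ofFn t).prod else 0) := by
  classical
  induction s using Finset.induction_on with
  | empty =>
    refine ⟨LinearMap.id, LinearMap.id, PairK.rat (RatOp.id A), fun n l t _ _ => ?_⟩
    rw [if_pos (fun a ha => absurd ha (Finset.notMem_empty a)),
      if_pos (fun a ha => absurd ha (Finset.notMem_empty a))]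
    exact ⟨rfl, rfl⟩
  | insert a s _ ih =>
    obtain ⟨E, E', hE, h⟩ := ih
    set f : ℚ[X] := Lagrange.basis (Finset.range (2 * A.dim + 1)) (fun n : ℕ => (n : ℚ)) (M a)
      with hf
    have hN : PairK W ι A (dvi W m (p a ∘ₗ π 1)) (dvi W m (p (bar a) ∘ₗ π 1)) := by
      have h1 : PairK W ι A (p a ∘ₗ π 1) (p (bar a) ∘ₗ π 1) := (hpair a).comp (PairK.rat hπr)
      exact (h1.ext (PairK.rat (RatOp.id A))).conj_rat (RatOp.mapHom (diag A)) (RatOp.mapHom m)
    refine ⟨(Polynomial.aeval (dvi W m (p a ∘ₗ π 1) : Module.End W.K (W.H A))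
      (f.map (algebraMap ℚ W.K)) : Module.End W.K (W.H A)) ∘ₗ E,
      (Polynomial.aeval (dvi W m (p (bar a) ∘ₗ π 1) : Module.End W.K (W.H A))
      (f.map (algebraMap ℚ W.K)) : Module.End W.K (W.H A)) ∘ₗ E', (hN.aeval f).comp hE, ?_⟩
    intro n l t ht hn
    obtain ⟨h1, h2⟩ := h n l t ht hn
    have key : ∀ b : Λ, (Polynomial.aeval (dvi W m (p b ∘ₗ π 1) : Module.End W.K (W.H A))
        (f.map (algebraMap ℚ W.K)) : Module.End W.K (W.H A)) (List.ofFn t).prod =
        if cnt l b = M a then (List.ofFn t).prod else 0 := by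
      intro b
      rw [aeval_eig (hp.num_prod hA hπ b ht), hf,
        lag_eval (M a) (hM a) ((cnt_le l b).trans hn)]
      split_ifs
      · rw [one_smul]
      · rw [zero_smul]
    constructor
    · rw [LinearMap.comp_apply, h1]
      by_cases hs : ∀ b ∈ s, cnt l b = M b
      · rw [if_pos hs, key a]
        by_cases ha : cnt l a = M a
        · rw [if_pos ha, if_pos]
          intro b hb
          rcases Finset.mem_insert.1 hb with rfl | hb
          · exact ha
          · exact hs b hb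
        · rw [if_neg ha, if_neg]
          exact fun h0 => ha (h0 a (Finset.mem_insert_self _ _))
      · rw [if_neg hs, map_zero, if_neg]
        exact fun h0 => hs fun b hb => h0 b (Finset.mem_insert_of_mem hb)
    · rw [LinearMap.comp_apply, h2]
      by_cases hs : ∀ b ∈ s, cnt l (bar b) = M b
      · rw [if_pos hs, key (bar a)]
        by_cases ha : cnt l (bar a) = M a
        · rw [if_pos ha, if_pos]
          intro b hb
          rcases Finset.mem_insert.1 hb with rfl | hb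
          · exact ha
          · exact hs b hb
        · rw [if_neg ha, if_neg]
          exact fun h0 => ha (h0 a (Finset.mem_insert_self _ _))
      · rw [if_neg hs, map_zero, if_neg]
        exact fun h0 => hs fun b hb => h0 b (Finset.mem_insert_of_mem hb)

/-- **The injectivity conjecture for the product implies D.** -/
theorem homEqNum_of_injectivityOne {𝒴 : Set 𝒱.Obj} (hA : IsAbelianType 𝒢 A m D)
    (hp : IsBlockSystemOne 𝒢 A D bar p) (hpair : ∀ l, PairK W ι A (p l) (p (bar l)))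
    (hY : ∀ Z, IsProductOf 𝒴 Z → HomEqNum W Z) (hYY : IsProductOf 𝒴 Y)
    (hI : InjectivityConj W (A.prod Y)) : HomEqNum W (A.prod Y) := by
  classical
  obtain ⟨w, hw, hwt⟩ := exists_weights hA hp hY
  obtain ⟨π, hπ, hπr⟩ := exists_ratProjs hA.abelianLike
  intro j hj z hz hnum
  have hα : W.cl _ z ∈ spanCycles W (A.prod Y) (j : ℤ) :=
    Submodule.subset_span ⟨j, rfl, z, hz, rfl⟩
  have hn := numTriv_cl (W := W) hj hz hnum
  have halg : W.cl _ z ∈ algClasses W (A.prod Y) j := ⟨z, hz, rfl⟩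
  by_contra hne
  obtain ⟨n, l, t, y, ht, hcomp⟩ : ∃ (n : ℕ) (l : Fin n → Λ) (t : Fin n → W.H A) (y : W.H Y),
      InBlocks (W.gr A 1) p l t ∧ W.tr (A.prod Y) (W.map (snd A Y) y *
        W.map (fst A Y) (List.ofFn t).prod * W.cl _ z) ≠ 0 := by
    by_contra hcon
    push Not at hcon
    exact hne (eq_zero_of_components hA.abelianLike hp hα fun n l t ht y => hcon n l t y ht)
  have hdim : ∀ {n : ℕ} {t : Fin n → W.H A} {l : Fin n → Λ} {y : W.H Y} {c : W.H (A.prod Y)},
      InBlocks (W.gr A 1) p l t → W.tr (A.prod Y) (W.map (snd A Y) y *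
        W.map (fst A Y) (List.ofFn t).prod * c) ≠ 0 → n ≤ 2 * A.dim := by
    intro n t l y c ht h0
    by_contra hcon
    have h1 := ofFn_prod_mem (W := W) (X := A) (t := t) fun i => (ht i).1
    rw [W.gr_eq_bot A n (by omega), Submodule.mem_bot] at h1
    apply h0
    rw [h1, map_zero, mul_zero, zero_mul, map_zero]
  have hnle := hdim ht hcomp
  obtain ⟨E, E', hE, hdet⟩ := exists_detect hp hA.abelianLike hπ (hπr 1) hpair
    (fun a => cnt l a) (fun a => (cnt_le l a).trans hnle) Finset.univ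
  obtain ⟨F, F', hF, hadj, hadj'⟩ := hE.exists_tr
  have hFx := hF.ext (PairK.rat (RatOp.id Y))
  have h1 : extHom W F LinearMap.id (W.cl _ z) ≠ 0 := by
    intro h0
    have h2 := tr_ext_id (Y := Y) hadj (List.ofFn t).prod y (W.cl _ z)
    rw [h0, mul_zero, map_zero, (hdet n l t ht hnle).1, if_pos (fun a _ => rfl)] at h2
    exact hcomp h2.symm
  have h3 : extHom W F' LinearMap.id (W.cl _ z) ≠ 0 := fun h0 =>
    h1 (hFx.eq_zero hI halg h0)
  have h4 := KOp.map_span hFx.mem.2 hα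
  obtain ⟨n', l', t', y', ht', hcomp'⟩ : ∃ (n : ℕ) (l : Fin n → Λ) (t : Fin n → W.H A)
      (y : W.H Y), InBlocks (W.gr A 1) p l t ∧ W.tr (A.prod Y) (W.map (snd A Y) y *
        W.map (fst A Y) (List.ofFn t).prod * extHom W F' LinearMap.id (W.cl _ z)) ≠ 0 := by
    by_contra hcon
    push Not at hcon
    exact h3 (eq_zero_of_components hA.abelianLike hp h4 fun n l t ht y => hcon n l t y ht)
  have hn'le := hdim ht' hcomp'
  rw [tr_ext_id (Y := Y) hadj', (hdet n' l' t' ht' hn'le).2] at hcomp'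
  have hcnt : ∀ a ∈ (Finset.univ : Finset Λ), cnt l' (bar a) = cnt l a := by
    by_contra hcon
    rw [if_neg hcon, map_zero, mul_zero, zero_mul, map_zero] at hcomp'
    exact hcomp' rfl
  rw [if_pos hcnt] at hcomp'
  have hw1 := hwt Y hYY j _ hα hn n l t ht y hcomp
  have hw2 := hwt Y hYY j _ hα hn n' l' t' ht' y' hcomp'
  rw [sum_cnt] at hw1 hw2
  have e1 : ∑ a, (cnt l' a : ℝ) * w a = ∑ a, (cnt l' (bar a) : ℝ) * w (bar a) :=
    (Equiv.sum_comp (Function.Involutive.toPerm bar hp.involutive)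
      (fun a => (cnt l' a : ℝ) * w a)).symm
  have e2 : ∑ a, (cnt l' (bar a) : ℝ) * w (bar a) = -∑ a, (cnt l a : ℝ) * w a := by
    rw [← Finset.sum_neg_distrib]
    refine Finset.sum_congr rfl fun a ha => ?_
    rw [hcnt a ha, hw]
    ring
  rw [e1, e2] at hw2
  linarith

end Pool.Agent.R908
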