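import Pool.Agent.R908.KrB
import Pool.Agent.R908.KpI

/-!
# A cycle acting by complex conjugation on the first cohomology
-/

open CategoryTheory AlgebraicGeometry TensorProduct Polynomial

universe u v w w'

namespace Pool.Agent.R908

open Pool.Agent.H914 Pool.Agent.H914.VarClass Pool.Agent.H914.VarClass.Obj
  Pool.Agent.H914.WeilCohomology

variable {k : Type u} [Field k] {𝒱 : VarClass k} {ops : CycleOps 𝒱}
  {W : WeilCohomology.{u, v} ops} {A X Y Z : 𝒱.Obj} {m : A.prod A ⟶ A} {D : A.Cycles}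
  {𝒢 : Set (Symmetry W)}

/-- The eigenspaces of a cycle acting by complex conjugation on the first cohomology. -/
theorem exists_blocksOne (hA : IsAbelianLike W A m)
    (he : HasConjugation (W.gr A 1) (trForm (W.tr A) (W.cl A D) (A.dim - 1)) (cycleOperators W A)
      (symmetryOperators 𝒢 A)) : ∃ (N : ℕ) (bar : Fin N → Fin N)
      (p : Fin N → Module.End W.K (W.H A)), IsBlockSystemOne 𝒢 A D bar p ∧
      ∀ (ι : algebraicClosure ℚ W.K →ₐ[ℚ] ℂ) (l : Fin N), PairK W ι A (p l) (p (bar l)) := by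
  classical
  obtain ⟨e, he0, ⟨P, Q, hsq, hsp, hconj, hkill, hadj⟩, hirr⟩ := he
  have her : e ∈ RatOp W A A := he0
  have heK := RatOp.mem her
  obtain ⟨π, hπ, hπr⟩ := exists_ratProjs hA
  have hP0 : P ≠ 0 := hsq.ne_zero
  have hsep : P.Separable := PerfectField.separable_iff_squarefree.2 hsq
  have hsep' : (P.map (algebraMap ℚ W.K)).Separable := hsep.map
  have hPL : P.map (algebraMap ℚ W.K) ≠ 0 := (Polynomial.map_ne_zero_iff
    (algebraMap ℚ W.K).injective).2 hP0
  set R := (P.map (algebraMap ℚ W.K)).roots.toFinset with hR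
  set c₀ := (P.map (algebraMap ℚ W.K)).leadingCoeff with hc₀
  have hc₀ne : c₀ ≠ 0 := leadingCoeff_ne_zero.2 hPL
  have hprod : P.map (algebraMap ℚ W.K) = C c₀ * ∏ j ∈ R, (Polynomial.X - C j) := by
    have h1 := hsp.eq_prod_roots
    have h2 : (P.map (algebraMap ℚ W.K)).roots.Nodup := nodup_roots hsep'
    conv_lhs => rw [h1]
    congr 1
    rw [Finset.prod, Multiset.toFinset_val, h2.dedup]
  have hmemR : ∀ a, a ∈ R ↔ aeval a P = 0 := by
    intro a
    rw [← eval_map_algebraMap, hprod, eval_mul, eval_C, eval_prod, mul_eq_zero,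
      Finset.prod_eq_zero_iff]
    constructor
    · intro ha
      exact Or.inr ⟨a, ha, by rw [eval_sub, eval_X, eval_C, sub_self]⟩
    · rintro (h0 | ⟨b, hb, h0⟩)
      · exact absurd h0 hc₀ne
      · rw [eval_sub, eval_X, eval_C, sub_eq_zero] at h0
        rwa [h0]
  have hconjR : ∀ (ι : algebraicClosure ℚ W.K →ₐ[ℚ] ℂ) (a : W.K), a ∈ R →
      CConj ι a (aeval a Q) := fun ι a ha => cConj_of_poly hP0 hconj ((hmemR a).1 ha)
  have hQmem : ∀ a, a ∈ R → aeval a Q ∈ R := by
    intro a ha
    obtain ⟨ι⟩ := exists_emb W.K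
    rw [hmemR]
    exact ((hconjR ι a ha).aeval P).right_zero ((hmemR a).1 ha)
  have hQQ : ∀ a, a ∈ R → aeval (aeval a Q) Q = a := by
    intro a ha
    obtain ⟨ι⟩ := exists_emb W.K
    exact (hconjR ι _ (hQmem a ha)).unique (hconjR ι a ha).symm
  have hgr : ∀ x, π 1 x ∈ W.gr A 1 := fun x => hπ.mem_gr 1 x
  have hkillT : aeval e (∏ j ∈ R, (Polynomial.X - C j)) * (π 1 : Module.End W.K (W.H A)) = 0 := by
    have h1 : (∏ j ∈ R, (Polynomial.X - C j)) = C c₀⁻¹ * P.map (algebraMap ℚ W.K) := by
      rw [hprod, ← mul_assoc, ← C_mul, inv_mul_cancel₀ hc₀ne, C_1, one_mul]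
    have h2 : aeval e (P.map (algebraMap ℚ W.K)) * (π 1 : Module.End W.K (W.H A)) = 0 := by
      apply LinearMap.ext
      intro x
      exact hkill _ (hgr x)
    rw [h1, map_mul, mul_assoc, h2, mul_zero]
  set q : W.K → Module.End W.K (W.H A) := fun a => eig R e (π 1) a with hq
  have hqK : ∀ a, q a ∈ KOp W A A 0 := fun a =>
    KOp.cast (KOp.comp (aeval_mem heK _) (RatOp.mem (hπr 1))) (add_zero 0)
  have hqgr : ∀ a x, q a x ∈ W.gr A 1 := fun a x =>
    Mot.hom_deg0 (aeval_mem heK (bas R a)) (hgr x)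
  have heq : ∀ a x, e (q a x) = a • q a x := fun a x => eig_eig_apply hkillT a x
  have hqsum : ∀ x, ∑ a ∈ R, q a x = π 1 x := by
    intro x
    have h1 := congrArg (fun F => F x) (sum_eig hkillT)
    beta_reduce at h1
    rw [LinearMap.sum_apply] at h1
    exact h1
  have hqself : ∀ {b : W.K} {x : W.H A}, x ∈ W.gr A 1 → e x = b • x → q b x = x := by
    intro b x hx hb
    change aeval e (bas R b) (π 1 x) = x
    rw [hπ.self hx, aeval_of_eig hb, bas_eval_self, one_smul]
  have hqother : ∀ {a b : W.K} {x : W.H A}, b ∈ R → x ∈ W.gr A 1 → e x = b • x → a ≠ b →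
      q a x = 0 := by
    intro a b x hb hx hbx hab
    change aeval e (bas R a) (π 1 x) = 0
    rw [hπ.self hx, aeval_of_eig hbx, bas_eval_ne hb (Ne.symm hab), zero_smul]
  set β : W.H A → W.H A → W.K := trForm (W.tr A) (W.cl A D) (A.dim - 1) with hβ
  have hβadd : ∀ x x' y, β (x + x') y = β x y + β x' y := by
    intro x x' y
    change W.tr A ((x + x') * _) = W.tr A (x * _) + W.tr A (x' * _)
    rw [add_mul, map_add]
  have hβadd' : ∀ x y y', β x (y + y') = β x y + β x y' := by
    intro x y y'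
    change W.tr A (x * (_ * (y + y'))) = W.tr A (x * (_ * y)) + W.tr A (x * (_ * y'))
    rw [mul_add, mul_add, map_add]
  have hβsmul : ∀ (c : W.K) x y, β (c • x) y = c * β x y := by
    intro c x y
    change W.tr A ((c • x) * _) = c * W.tr A (x * _)
    rw [smul_mul_assoc, map_smul, smul_eq_mul]
  have hβsmul' : ∀ (c : W.K) x y, β x (c • y) = c * β x y := by
    intro c x y
    change W.tr A (x * (_ * (c • y))) = c * W.tr A (x * (_ * y))
    rw [mul_smul_comm, mul_smul_comm, map_smul, smul_eq_mul]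
  have hβ0 : ∀ y, β 0 y = 0 := by
    intro y
    change W.tr A (0 * _) = 0
    rw [zero_mul, map_zero]
  have hβ0' : ∀ x, β x 0 = 0 := by
    intro x
    change W.tr A (x * (_ * 0)) = 0
    rw [mul_zero, mul_zero, map_zero]
  have hβsum : ∀ (s : Finset W.K) (f : W.K → W.H A) y, β (∑ a ∈ s, f a) y = ∑ a ∈ s, β (f a) y := by
    intro s f y
    induction s using Finset.induction_on with
    | empty => rw [Finset.sum_empty, Finset.sum_empty, hβ0]
    | insert a s ha ih => rw [Finset.sum_insert ha, Finset.sum_insert ha, hβadd, ih]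
  have hβsum' : ∀ (s : Finset W.K) (f : W.K → W.H A) x, β x (∑ a ∈ s, f a) = ∑ a ∈ s, β x (f a) := by
    intro s f x
    induction s using Finset.induction_on with
    | empty => rw [Finset.sum_empty, Finset.sum_empty, hβ0']
    | insert a s ha ih => rw [Finset.sum_insert ha, Finset.sum_insert ha, hβadd', ih]
  have hortho : ∀ {a b : W.K} {x y : W.H A}, x ∈ W.gr A 1 → e x = a • x → y ∈ W.gr A 1 →
      e y = b • y → a ≠ aeval b Q → β x y = 0 := by
    intro a b x y hx hax hy hby hab
    have h1 := hadj x hx y hy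
    have h2 : aeval e (Q.map (algebraMap ℚ W.K)) y = (aeval b Q) • y := by
      rw [aeval_of_eig hby, eval_map_algebraMap]
    rw [hax, h2] at h1
    have h3 : a * β x y = aeval b Q * β x y := by
      rw [← hβsmul, ← hβsmul']
      exact h1
    rw [← sub_eq_zero, ← sub_mul, mul_eq_zero, sub_eq_zero] at h3
    exact h3.resolve_left hab
  have hadjq : ∀ l ∈ R, ∀ x ∈ W.gr A 1, ∀ y ∈ W.gr A 1, β (q l x) y = β x (q (aeval l Q) y) := by
    intro l hl x hx y hy
    have h1 : β (q l x) y = β (q l x) (q (aeval l Q) y) := by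
      conv_lhs => rw [← hπ.self hy, ← hqsum y]
      rw [hβsum', Finset.sum_eq_single (aeval l Q)]
      · intro c hc hcl
        refine hortho (hqgr l x) (heq l x) (hqgr c y) (heq c y) ?_
        intro h0
        apply hcl
        rw [h0, hQQ c hc]
      · intro h0
        exact absurd (hQmem l hl) h0
    have h2 : β x (q (aeval l Q) y) = β (q l x) (q (aeval l Q) y) := by
      conv_lhs => rw [← hπ.self hx, ← hqsum x]
      rw [hβsum, Finset.sum_eq_single l]
      · intro b _ hbl
        refine hortho (hqgr b x) (heq b x) (hqgr _ y) (heq _ y) ?_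
        rw [hQQ l hl]
        exact hbl
      · intro h0
        exact absurd hl h0
    rw [h1, h2]
  -- the enumeration of the eigenvalues
  set σ : Fin R.card ≃ R := R.equivFin.symm with hσ
  refine ⟨R.card, fun i => σ.symm ⟨aeval (σ i : W.K) Q, hQmem _ (σ i).2⟩, fun i => q (σ i), ?_, ?_⟩
  · have hbar : ∀ i, ((σ (σ.symm ⟨aeval (σ i : W.K) Q, hQmem _ (σ i).2⟩) : R) : W.K) =
        aeval (σ i : W.K) Q := by
      intro i
      rw [Equiv.apply_symm_apply]
    refine ⟨?_, ?_, ?_, ?_, ?_, ?_, ?_⟩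
    · intro l
      change aeval e (bas R (σ l : W.K)) * (π 1 : Module.End W.K (W.H A)) ∈ _
      rw [aeval_eq_sum_range, Finset.sum_mul]
      refine Submodule.sum_mem _ fun i _ => ?_
      rw [smul_mul_assoc]
      exact Submodule.smul_mem _ _ (Submodule.subset_span (RatOp.comp (RatOp.pow her i) (hπr 1)))
    · intro x hx
      have h1 := Equiv.sum_comp σ (fun a : R => q (a : W.K) x)
      beta_reduce at h1
      rw [h1, Finset.sum_coe_sort R (fun a => q a x), hqsum, hπ.self hx]
    · intro l x _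
      exact hqself (hqgr _ x) (heq _ x)
    · intro l l' hl x _
      exact hqother (σ l').2 (hqgr _ x) (heq _ x) (fun h0 => hl (σ.injective (Subtype.ext h0)))
    · intro l
      apply σ.injective
      rw [Equiv.apply_symm_apply]
      apply Subtype.ext
      change aeval ((σ (σ.symm ⟨aeval (σ l : W.K) Q, hQmem _ (σ l).2⟩) : R) : W.K) Q = _
      rw [hbar, hQQ _ (σ l).2]
    · intro l x hx y hy
      change β (q (σ l) x) y = β x (q (σ (σ.symm ⟨aeval (σ l : W.K) Q, hQmem _ (σ l).2⟩)) y)
      rw [hbar]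
      exact hadjq _ (σ l).2 x hx y hy
    · intro U hU h1 h2 l hl y hy hyl
      obtain ⟨x, hx, hx0, hxl⟩ := hl
      refine hirr U hU h1 h2 (σ l) ⟨x, hx, hx0, ?_⟩ y hy ?_
      · rw [← hxl]
        exact heq _ x
      · rw [← hyl]
        exact heq _ y
  · intro ι l
    have hbar : ((σ (σ.symm ⟨aeval (σ l : W.K) Q, hQmem _ (σ l).2⟩) : R) : W.K) =
        aeval (σ l : W.K) Q := by
      rw [Equiv.apply_symm_apply]
    change PairK W ι A (q (σ l)) (q (σ (σ.symm ⟨aeval (σ l : W.K) Q, hQmem _ (σ l).2⟩)))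
    rw [hbar]
    set a : W.K := (σ l : W.K) with ha
    have haR : a ∈ R := (σ l).2
    set N := max (bas R a).natDegree (bas R (aeval a Q)).natDegree with hN
    have hexp : ∀ b : W.K, (bas R b).natDegree ≤ N → q b =
        ∑ i : Fin (N + 1), (bas R b).coeff i • (e ^ (i : ℕ) * π 1 : Module.End W.K (W.H A)) := by
      intro b hbN
      have h1 : q b = ∑ i ∈ Finset.range (N + 1),
          (bas R b).coeff i • (e ^ i * π 1 : Module.End W.K (W.H A)) := by
        change aeval e (bas R b) * (π 1 : Module.End W.K (W.H A)) = _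
        rw [aeval_eq_sum_range' (show (bas R b).natDegree < N + 1 by omega), Finset.sum_mul]
        exact Finset.sum_congr rfl fun i _ => smul_mul_assoc _ _ _
      rw [h1, Fin.sum_univ_eq_sum_range (fun i => (bas R b).coeff i •
        (e ^ i * π 1 : Module.End W.K (W.H A))) (N + 1)]
    rw [hexp a (le_max_left _ _), hexp (aeval a Q) (le_max_right _ _)]
    exact ⟨Fin (N + 1), inferInstance, fun i => (bas R a).coeff i,
      fun i => (bas R (aeval a Q)).coeff i, fun i => (e ^ (i : ℕ) * π 1 : Module.End W.K (W.H A)),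
      fun i => cConj_bas hc₀ne hprod haR (hQmem a haR) (hconjR ι a haR) i,
      fun i => RatOp.comp (RatOp.pow her i) (hπr 1), rfl, rfl⟩

end Pool.Agent.R908
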