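import Pool.Agent.R908.SpDefs
import Pool.Agent.R908.KrC

/-!
# Specialisation and the injectivity conjecture
-/

open CategoryTheory AlgebraicGeometry

universe u v u₀ v₀

namespace Pool.Agent.R908

open Pool.Agent.H914 Pool.Agent.H914.VarClass Pool.Agent.H914.VarClass.Obj
  Pool.Agent.H914.WeilCohomology

/-- The subspace `T` has no proper nonzero subspace which is stable under the operators in `C`. -/
def IsIrreducibleUnder {K : Type*} [Field K] {V : Type*} [AddCommGroup V] [Module K V]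
    (T : Submodule K V) (C : Set (Module.End K V)) : Prop :=
  ∀ U : Submodule K V, U ≤ T → (∀ φ ∈ C, ∀ x ∈ U, φ x ∈ U) → U ≠ ⊥ → U = T

variable {k : Type u} [Field k] {𝒱 : VarClass k} {ops : CycleOps 𝒱}
  {W : WeilCohomology.{u, v} ops} {k₀ : Type u₀} [Field k₀] {𝒱₀ : VarClass k₀}
  {ops₀ : CycleOps 𝒱₀} {W₀ : WeilCohomology.{u₀, v₀} ops₀}

/-- **The injectivity conjecture is inherited from specialisations.** -/
theorem injectivity_of_specializesTo {Z : 𝒱.Obj} {Z₀ : 𝒱₀.Obj} (h : SpecializesTo W W₀ Z Z₀)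
    (h₀ : InjectivityConj W₀ Z₀) : InjectivityConj W Z := by
  obtain ⟨τ, s, sp, hs, hsm, hsp, hc⟩ := h
  intro j n z hz hq
  have h1 := h₀ j n (fun i => sp (z i)) (fun i => hsp j _ (hz i)) (fun q h0 => hq q (by
    have e1 : ∑ i, q i • sp (z i) = sp (∑ i, q i • z i) := by
      rw [map_sum]
      exact Finset.sum_congr rfl fun i _ => (map_rat_smul sp (q i) (z i)).symm
    rw [e1, hc] at h0
    exact (map_eq_zero_iff s hs).1 h0))
  rw [Fintype.linearIndependent_iff] at h1 ⊢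
  intro a ha i
  have h2 := h1 (fun i => τ (a i)) (by
    have e2 : ∑ i, τ (a i) • W₀.cl Z₀ (sp (z i)) = s (∑ i, a i • W.cl Z (z i)) := by
      rw [map_sum]
      exact Finset.sum_congr rfl fun i _ => by rw [hsm, hc]
    rw [e2, ha, map_zero]) i
  exact (map_eq_zero τ).1 h2

variable {A Y : 𝒱.Obj} {m : A.prod A ⟶ A} {D : A.Cycles} {𝒢 : Set (Symmetry W)}

/-- The injectivity conjecture and the conjecture D for products with an abelian variety. -/
theorem homEqNum_iff_injectivityOne {𝒴 : Set 𝒱.Obj} (hA : IsAbelianType 𝒢 A m D)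
    (he : HasConjugationOne 𝒢 A D) (hY : ∀ Z, IsProductOf 𝒴 Z → HomEqNum W Z)
    (hYY : IsProductOf 𝒴 Y) : InjectivityConj W (A.prod Y) ↔ HomEqNum W (A.prod Y) := by
  obtain ⟨N, bar, p, hp, hpair⟩ := exists_blocksOne hA.abelianLike he
  obtain ⟨ι⟩ := exists_emb W.K
  exact ⟨fun hI => homEqNum_of_injectivityOne hA hp (hpair ι) hY hYY hI,
    injectivity_of_homEqNum⟩

/-- **The conjecture D is inherited from specialisations of products with an abelian variety.** -/
theorem homEqNum_of_specializesTo {𝒴 : Set 𝒱.Obj} (hA : IsAbelianType 𝒢 A m D)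
    (he : HasConjugationOne 𝒢 A D) (hY : ∀ Z, IsProductOf 𝒴 Z → HomEqNum W Z)
    (hYY : IsProductOf 𝒴 Y) {Z₀ : 𝒱₀.Obj} (h : SpecializesTo W W₀ (A.prod Y) Z₀)
    (h₀ : HomEqNum W₀ Z₀) : HomEqNum W (A.prod Y) :=
  (homEqNum_iff_injectivityOne hA he hY hYY).1
    (injectivity_of_specializesTo h (injectivity_of_homEqNum h₀))

/-- D for the products with an abelian variety with irreducible first cohomology. -/
theorem homEqNum_of_irreducible {𝒴 : Set 𝒱.Obj} (hA : IsAbelianType 𝒢 A m D)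
    (hirr : IsIrreducibleUnder (W.gr A 1) (cycleOperators W A))
    (hY : ∀ Z, IsProductOf 𝒴 Z → HomEqNum W Z) (hYY : IsProductOf 𝒴 Y) :
    HomEqNum W (A.prod Y) := by
  obtain ⟨π, hπ, hπr⟩ := exists_ratProjs hA.abelianLike
  have hp : IsBlockSystemOne 𝒢 A D (id : Unit → Unit) (fun _ => (π 1 : Module.End W.K (W.H A))) := by
    refine ⟨fun _ => Submodule.subset_span (hπr 1), ?_, ?_, ?_, fun _ => rfl, ?_, ?_⟩
    · intro x hx
      rw [Finset.univ_unique, Finset.sum_singleton]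
      exact hπ.self hx
    · intro _ x hx
      rw [hπ.self hx, hπ.self hx]
    · intro l l' hl
      exact absurd (Subsingleton.elim l l') hl
    · intro _ x hx y hy
      rw [hπ.self hx, hπ.self hy]
    · intro U hU h1 _ _ h2 y hy _
      obtain ⟨x, hx, hx0, -⟩ := h2
      rw [hirr U hU h1 ((Submodule.ne_bot_iff U).2 ⟨x, hx, hx0⟩)]
      exact hy
  obtain ⟨w, hw, hwt⟩ := exists_weights hA hp hY
  have hw0 : w () = 0 := by
    have h1 := hw ()
    have h2 : w () = -w () := h1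
    linarith
  intro j hj z hz hnum
  have hα : W.cl _ z ∈ spanCycles W (A.prod Y) (j : ℤ) :=
    Submodule.subset_span ⟨j, rfl, z, hz, rfl⟩
  have hn := numTriv_cl (W := W) hj hz hnum
  refine eq_zero_of_components hA.abelianLike hp hα fun n l t ht y => ?_
  by_contra hne
  have h1 := hwt Y hYY j _ hα hn n l t ht y hne
  have h2 : ∑ i, w (l i) = 0 := Finset.sum_eq_zero fun i _ => hw0
  rw [h2] at h1
  exact lt_irrefl _ h1

/-- The same with a special fibre for which D is known. -/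
theorem homEqNum_of_irreducibleSpecial {𝒴 : Set 𝒱.Obj} (hA : IsAbelianType 𝒢 A m D)
    (he : HasConjugationOne 𝒢 A D) (hY : ∀ Z, IsProductOf 𝒴 Z → HomEqNum W Z)
    (hYY : IsProductOf 𝒴 Y) {𝒢₀ : Set (Symmetry W₀)} {A₀ Y₀ : 𝒱₀.Obj}
    {m₀ : A₀.prod A₀ ⟶ A₀} {D₀ : A₀.Cycles} (hA₀ : IsAbelianType 𝒢₀ A₀ m₀ D₀)
    (hirr : IsIrreducibleUnder (W₀.gr A₀ 1) (cycleOperators W₀ A₀))
    (hY₀ : ∀ Z, IsProductOf {Y₀} Z → HomEqNum W₀ Z)
    (h : SpecializesTo W W₀ (A.prod Y) (A₀.prod Y₀)) : HomEqNum W (A.prod Y) :=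
  homEqNum_of_specializesTo hA he hY hYY h
    (homEqNum_of_irreducible hA₀ hirr hY₀ (IsProductOf.base rfl))

end Pool.Agent.R908
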