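import Pool.Agent.R908.Ext

/-!
# Direct factors of the cohomology cut out by algebraic idempotents
-/

open CategoryTheory AlgebraicGeometry Finset TensorProduct

universe u v

namespace Pool.Agent.R908

open Pool.Agent.H914 Pool.Agent.H914.VarClass Pool.Agent.H914.VarClass.Obj
  Pool.Agent.H914.WeilCohomology

variable {k : Type u} [Field k] {𝒱 : VarClass k} {ops : CycleOps 𝒱}
  {W : WeilCohomology.{u, v} ops} {X Y Z X' Y' Z' X'' Y'' : 𝒱.Obj}

/-- A direct factor of the cohomology of a variety, cut out by an idempotent linear combination of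
algebraic correspondences of degree `0`. -/
structure Mot (W : WeilCohomology.{u, v} ops) where
  /-- the variety -/
  X : 𝒱.Obj
  /-- the idempotent -/
  e : W.H X →ₗ[W.K] W.H X
  mem : e ∈ KOp W X X 0
  idem : e ∘ₗ e = e

namespace Mot

/-- Two direct factors are isomorphic up to a Tate twist. -/
def Eqv (A B : Mot W) : Prop :=
  ∃ (δ : ℤ) (f : W.H A.X →ₗ[W.K] W.H B.X) (g : W.H B.X →ₗ[W.K] W.H A.X),
    f ∈ KOp W A.X B.X δ ∧ g ∈ KOp W B.X A.X (-δ) ∧ g ∘ₗ f = A.e ∧ f ∘ₗ g = B.e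

lemma Eqv.refl (A : Mot W) : Eqv A A :=
  ⟨0, A.e, A.e, A.mem, KOp.cast A.mem neg_zero.symm, A.idem, A.idem⟩

lemma Eqv.symm {A B : Mot W} (h : Eqv A B) : Eqv B A := by
  obtain ⟨δ, f, g, hf, hg, h1, h2⟩ := h
  exact ⟨-δ, g, f, hg, KOp.cast hf (neg_neg δ).symm, h2, h1⟩

lemma Eqv.trans {A B C : Mot W} (h : Eqv A B) (h' : Eqv B C) : Eqv A C := by
  obtain ⟨δ, f, g, hf, hg, h1, h2⟩ := h
  obtain ⟨δ', f', g', hf', hg', h1', h2'⟩ := h'
  refine ⟨δ + δ', f' ∘ₗ f, g ∘ₗ g', KOp.comp hf' hf, KOp.cast (KOp.comp hg hg') (by ring), ?_, ?_⟩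
  · calc (g ∘ₗ g') ∘ₗ (f' ∘ₗ f) = g ∘ₗ (g' ∘ₗ f') ∘ₗ f := rfl
      _ = g ∘ₗ B.e ∘ₗ f := by rw [h1']
      _ = g ∘ₗ (f ∘ₗ g) ∘ₗ f := by rw [h2]
      _ = (g ∘ₗ f) ∘ₗ (g ∘ₗ f) := rfl
      _ = A.e := by rw [h1, A.idem]
  · calc (f' ∘ₗ f) ∘ₗ (g ∘ₗ g') = f' ∘ₗ (f ∘ₗ g) ∘ₗ g' := rfl
      _ = f' ∘ₗ B.e ∘ₗ g' := by rw [h2]
      _ = f' ∘ₗ (g' ∘ₗ f') ∘ₗ g' := by rw [h1']
      _ = (f' ∘ₗ g') ∘ₗ (f' ∘ₗ g') := rfl
      _ = C.e := by rw [h2', C.idem]

/-- The setoid of isomorphism. -/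
instance setoid (W : WeilCohomology.{u, v} ops) : Setoid (Mot W) :=
  ⟨Eqv, ⟨Eqv.refl, Eqv.symm, Eqv.trans⟩⟩

/-- The tensor product. -/
noncomputable def tensor (A B : Mot W) : Mot W where
  X := A.X.prod B.X
  e := extHom W A.e B.e
  mem := KOp.cast (KOp.extHom A.mem B.mem) (add_zero 0)
  idem := by rw [extHom_comp, A.idem, B.idem]

lemma Eqv.tensor {A A' B B' : Mot W} (h : Eqv A A') (h' : Eqv B B') :
    Eqv (A.tensor B) (A'.tensor B') := by
  obtain ⟨δ, f, g, hf, hg, h1, h2⟩ := h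
  obtain ⟨δ', f', g', hf', hg', h1', h2'⟩ := h'
  refine ⟨δ + δ', extHom W f f', extHom W g g', KOp.extHom hf hf',
    KOp.cast (KOp.extHom hg hg') (by ring), ?_, ?_⟩
  · exact (extHom_comp f f' g g').trans (by rw [h1, h1']; rfl)
  · exact (extHom_comp g g' f f').trans (by rw [h2, h2']; rfl)

/-- Operators of degree `0` preserve degrees. -/
lemma hom_deg0 {φ : W.H X →ₗ[W.K] W.H Y} (hφ : φ ∈ KOp W X Y 0) {i : ℕ} {a : W.H X}
    (ha : a ∈ W.gr X i) : φ a ∈ W.gr Y i := by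
  have h1 := KOp.isHom hφ (i : ℤ) a (by rw [grZ_natCast]; exact ha)
  rw [mul_zero, add_zero, grZ_natCast] at h1
  exact h1

/-- A criterion for isomorphism. -/
lemma Eqv.mk {A B : Mot W} {δ : ℤ} {f : W.H A.X →ₗ[W.K] W.H B.X} {g : W.H B.X →ₗ[W.K] W.H A.X}
    (hf : f ∈ KOp W A.X B.X δ) (hg : g ∈ KOp W B.X A.X (-δ)) (hfe : f ∘ₗ A.e = B.e ∘ₗ f)
    (hge : g ∘ₗ B.e = A.e ∘ₗ g) (h1 : g ∘ₗ f ∘ₗ A.e = A.e) (h2 : f ∘ₗ g ∘ₗ B.e = B.e) :
    Eqv A B := by
  refine ⟨δ, f ∘ₗ A.e, g ∘ₗ B.e, KOp.cast (KOp.comp hf A.mem) (zero_add _),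
    KOp.cast (KOp.comp hg B.mem) (zero_add _), ?_, ?_⟩
  · calc (g ∘ₗ B.e) ∘ₗ (f ∘ₗ A.e) = g ∘ₗ (B.e ∘ₗ f) ∘ₗ A.e := rfl
      _ = g ∘ₗ (f ∘ₗ A.e) ∘ₗ A.e := by rw [hfe]
      _ = g ∘ₗ f ∘ₗ (A.e ∘ₗ A.e) := rfl
      _ = A.e := by rw [A.idem, h1]
  · calc (f ∘ₗ A.e) ∘ₗ (g ∘ₗ B.e) = f ∘ₗ (A.e ∘ₗ g) ∘ₗ B.e := rfl
      _ = f ∘ₗ (g ∘ₗ B.e) ∘ₗ B.e := by rw [hge]
      _ = f ∘ₗ g ∘ₗ (B.e ∘ₗ B.e) := rfl
      _ = B.e := by rw [B.idem, h2]

/-- The exchange of the factors. -/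
lemma map_swap_tmul (a : W.H X) (b : W.H Y) :
    W.map (swap Y X) (W.map (fst X Y) a * W.map (snd X Y) b) =
      W.map (snd Y X) a * W.map (fst Y X) b := by
  rw [map_mul (W.map (swap Y X)), ← W.map_comp, ← W.map_comp, swap_fst, swap_snd]

lemma map_swap_extHom {φ : W.H X →ₗ[W.K] W.H X'} {ψ : W.H Y →ₗ[W.K] W.H Y'}
    (hφ : φ ∈ KOp W X X' 0) (hψ : ψ ∈ KOp W Y Y' 0) (c : W.H (X.prod Y)) :
    W.map (swap Y' X') (extHom W φ ψ c) = extHom W ψ φ (W.map (swap Y X) c) := by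
  refine W.kunneth_induction (p := fun c => W.map (swap Y' X') (extHom W φ ψ c) =
    extHom W ψ φ (W.map (swap Y X) c)) ?_ ?_ c
  · intro a b ha hb
    simp only [map_add, ha, hb]
  · intro i j a ha b hb
    rw [extHom_tmul, map_swap_tmul, map_swap_tmul,
      W.comm (W.map_mem (snd Y' X') (hom_deg0 hφ ha)) (W.map_mem (fst Y' X') (hom_deg0 hψ hb)),
      W.comm (W.map_mem (snd Y X) ha) (W.map_mem (fst Y X) hb), map_smul, extHom_tmul]

lemma map_swap_swap (c : W.H (X.prod Y)) : W.map (swap X Y) (W.map (swap Y X) c) = c := by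
  rw [← W.map_comp]
  refine W.kunneth_induction (p := fun c => W.map (swap X Y ≫ swap Y X) c = c) ?_ ?_ c
  · intro a b ha hb
    rw [map_add, ha, hb]
  · intro i j a _ b _
    rw [W.map_comp, map_swap_tmul, map_mul (W.map (swap X Y)), ← W.map_comp, ← W.map_comp,
      swap_fst, swap_snd]

lemma Eqv.comm (A B : Mot W) : Eqv (A.tensor B) (B.tensor A) := by
  refine Eqv.mk (δ := 0) (f := (W.map (swap B.X A.X)).toLinearMap)
    (g := (W.map (swap A.X B.X)).toLinearMap) (KOp.mapHom _)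
    (KOp.cast (KOp.mapHom _) neg_zero.symm) ?_ ?_ ?_ ?_
  · apply LinearMap.ext
    intro c
    exact map_swap_extHom A.mem B.mem c
  · apply LinearMap.ext
    intro c
    exact map_swap_extHom B.mem A.mem c
  · apply LinearMap.ext
    intro c
    exact map_swap_swap _
  · apply LinearMap.ext
    intro c
    exact map_swap_swap _

/-- The morphism `(X × Y) × Z → X × (Y × Z)`. -/
noncomputable def assocL (X Y Z : 𝒱.Obj) : (X.prod Y).prod Z ⟶ X.prod (Y.prod Z) :=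
  Obj.lift (fst (X.prod Y) Z ≫ fst X Y)
    (Obj.lift (fst (X.prod Y) Z ≫ snd X Y) (snd (X.prod Y) Z))

/-- The morphism `X × (Y × Z) → (X × Y) × Z`. -/
noncomputable def assocR (X Y Z : 𝒱.Obj) : X.prod (Y.prod Z) ⟶ (X.prod Y).prod Z :=
  Obj.lift (Obj.lift (fst X (Y.prod Z)) (snd X (Y.prod Z) ≫ fst Y Z))
    (snd X (Y.prod Z) ≫ snd Y Z)

lemma map_assocL (a : W.H X) (b : W.H Y) (c : W.H Z) :
    W.map (assocL X Y Z) (W.map (fst X (Y.prod Z)) a *
      W.map (snd X (Y.prod Z)) (W.map (fst Y Z) b * W.map (snd Y Z) c)) =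
      W.map (fst (X.prod Y) Z) (W.map (fst X Y) a * W.map (snd X Y) b) *
        W.map (snd (X.prod Y) Z) c := by
  have e1 : assocL X Y Z ≫ fst X (Y.prod Z) = fst (X.prod Y) Z ≫ fst X Y := Obj.lift_fst _ _
  have e2 : assocL X Y Z ≫ snd X (Y.prod Z) =
    Obj.lift (fst (X.prod Y) Z ≫ snd X Y) (snd (X.prod Y) Z) := Obj.lift_snd _ _
  have e3 : Obj.lift (fst (X.prod Y) Z ≫ snd X Y) (snd (X.prod Y) Z) ≫ fst Y Z =
    fst (X.prod Y) Z ≫ snd X Y := Obj.lift_fst _ _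
  have e4 : Obj.lift (fst (X.prod Y) Z ≫ snd X Y) (snd (X.prod Y) Z) ≫ snd Y Z =
    snd (X.prod Y) Z := Obj.lift_snd _ _
  rw [map_mul (W.map (assocL X Y Z)), ← W.map_comp, ← W.map_comp, e1, e2,
    map_mul (W.map (Obj.lift (fst (X.prod Y) Z ≫ snd X Y) (snd (X.prod Y) Z))), ← W.map_comp,
    ← W.map_comp, e3, e4, W.map_comp, W.map_comp, map_mul (W.map (fst (X.prod Y) Z)), mul_assoc]

lemma map_assocR (a : W.H X) (b : W.H Y) (c : W.H Z) :
    W.map (assocR X Y Z) (W.map (fst (X.prod Y) Z) (W.map (fst X Y) a * W.map (snd X Y) b) *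
        W.map (snd (X.prod Y) Z) c) = W.map (fst X (Y.prod Z)) a *
      W.map (snd X (Y.prod Z)) (W.map (fst Y Z) b * W.map (snd Y Z) c) := by
  have e1 : assocR X Y Z ≫ fst (X.prod Y) Z =
    Obj.lift (fst X (Y.prod Z)) (snd X (Y.prod Z) ≫ fst Y Z) := Obj.lift_fst _ _
  have e2 : assocR X Y Z ≫ snd (X.prod Y) Z = snd X (Y.prod Z) ≫ snd Y Z := Obj.lift_snd _ _
  have e3 : Obj.lift (fst X (Y.prod Z)) (snd X (Y.prod Z) ≫ fst Y Z) ≫ fst X Y =
    fst X (Y.prod Z) := Obj.lift_fst _ _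
  have e4 : Obj.lift (fst X (Y.prod Z)) (snd X (Y.prod Z) ≫ fst Y Z) ≫ snd X Y =
    snd X (Y.prod Z) ≫ fst Y Z := Obj.lift_snd _ _
  rw [map_mul (W.map (assocR X Y Z)), ← W.map_comp, ← W.map_comp, e1, e2,
    map_mul (W.map (Obj.lift (fst X (Y.prod Z)) (snd X (Y.prod Z) ≫ fst Y Z))), ← W.map_comp,
    ← W.map_comp, e3, e4, W.map_comp, W.map_comp, map_mul (W.map (snd X (Y.prod Z))), mul_assoc]

/-- Linear maps on `H((X × Y) × Z)` are determined by their values on external products. -/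
lemma ext3 {V : Type*} [AddCommGroup V] [Module W.K V]
    {F G : W.H ((X.prod Y).prod Z) →ₗ[W.K] V}
    (h : ∀ a b c, F (W.map (fst (X.prod Y) Z) (W.map (fst X Y) a * W.map (snd X Y) b) *
      W.map (snd (X.prod Y) Z) c) =
      G (W.map (fst (X.prod Y) Z) (W.map (fst X Y) a * W.map (snd X Y) b) *
        W.map (snd (X.prod Y) Z) c)) : F = G := by
  apply ext_kunneth_lin
  intro ab c
  have h1 : F ∘ₗ LinearMap.mulRight W.K (W.map (snd (X.prod Y) Z) c) ∘ₗ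
      (W.map (fst (X.prod Y) Z)).toLinearMap =
      G ∘ₗ LinearMap.mulRight W.K (W.map (snd (X.prod Y) Z) c) ∘ₗ
      (W.map (fst (X.prod Y) Z)).toLinearMap := by
    apply ext_kunneth_lin
    intro a b
    exact h a b c
  exact congrArg (fun f => f ab) h1

/-- Linear maps on `H(X × (Y × Z))` are determined by their values on external products. -/
lemma ext3' {V : Type*} [AddCommGroup V] [Module W.K V]
    {F G : W.H (X.prod (Y.prod Z)) →ₗ[W.K] V}
    (h : ∀ a b c, F (W.map (fst X (Y.prod Z)) a *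
      W.map (snd X (Y.prod Z)) (W.map (fst Y Z) b * W.map (snd Y Z) c)) =
      G (W.map (fst X (Y.prod Z)) a *
      W.map (snd X (Y.prod Z)) (W.map (fst Y Z) b * W.map (snd Y Z) c))) : F = G := by
  apply ext_kunneth_lin
  intro a bc
  have h1 : F ∘ₗ LinearMap.mulLeft W.K (W.map (fst X (Y.prod Z)) a) ∘ₗ
      (W.map (snd X (Y.prod Z))).toLinearMap =
      G ∘ₗ LinearMap.mulLeft W.K (W.map (fst X (Y.prod Z)) a) ∘ₗ
      (W.map (snd X (Y.prod Z))).toLinearMap := by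
    apply ext_kunneth_lin
    intro b c
    exact h a b c
  exact congrArg (fun f => f bc) h1

lemma Eqv.assoc (A B C : Mot W) : Eqv ((A.tensor B).tensor C) (A.tensor (B.tensor C)) := by
  refine Eqv.mk (δ := 0) (f := (W.map (assocR A.X B.X C.X)).toLinearMap)
    (g := (W.map (assocL A.X B.X C.X)).toLinearMap) (KOp.mapHom _)
    (KOp.cast (KOp.mapHom _) neg_zero.symm) ?_ ?_ ?_ ?_
  · apply ext3
    intro a b c
    change W.map (assocR A.X B.X C.X) (extHom W (extHom W A.e B.e) C.e _) =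
      extHom W A.e (extHom W B.e C.e) (W.map (assocR A.X B.X C.X) _)
    rw [extHom_tmul, extHom_tmul, map_assocR, map_assocR, extHom_tmul, extHom_tmul]
  · apply ext3'
    intro a b c
    change W.map (assocL A.X B.X C.X) (extHom W A.e (extHom W B.e C.e) _) =
      extHom W (extHom W A.e B.e) C.e (W.map (assocL A.X B.X C.X) _)
    rw [extHom_tmul, extHom_tmul, map_assocL, map_assocL, extHom_tmul, extHom_tmul]
  · apply ext3
    intro a b c
    change W.map (assocL A.X B.X C.X) (W.map (assocR A.X B.X C.X)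
      (extHom W (extHom W A.e B.e) C.e _)) = extHom W (extHom W A.e B.e) C.e _
    rw [extHom_tmul, extHom_tmul, map_assocR, map_assocL]
  · apply ext3'
    intro a b c
    change W.map (assocR A.X B.X C.X) (W.map (assocL A.X B.X C.X)
      (extHom W A.e (extHom W B.e C.e) _)) = extHom W A.e (extHom W B.e C.e) _
    rw [extHom_tmul, extHom_tmul, map_assocL, map_assocR]

end Mot

/-- The isomorphism classes (up to Tate twists). -/
def Cls (W : WeilCohomology.{u, v} ops) : Type _ := Quotient (Mot.setoid W)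

/-- The class of a direct factor. -/
def Mot.cls (A : Mot W) : Cls W := Quotient.mk _ A

lemma Mot.cls_eq {A B : Mot W} : A.cls = B.cls ↔ A.Eqv B := Quotient.eq

noncomputable instance : CommSemigroup (Cls W) where
  mul := Quotient.map₂ Mot.tensor (fun _ _ h _ _ h' => Mot.Eqv.tensor h h')
  mul_assoc := by
    rintro ⟨A⟩ ⟨B⟩ ⟨C⟩
    exact Quotient.sound (Mot.Eqv.assoc A B C)
  mul_comm := by
    rintro ⟨A⟩ ⟨B⟩
    exact Quotient.sound (Mot.Eqv.comm A B)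

lemma Mot.cls_tensor (A B : Mot W) : (A.tensor B).cls = A.cls * B.cls := rfl

end Pool.Agent.R908
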