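import Pool.Agent.R908.Mot
import Pool.Agent.H281R3.HT.DBlk

/-!
# Numerically trivial classes on direct factors
-/

open CategoryTheory AlgebraicGeometry Finset TensorProduct

universe u v

namespace Pool.Agent.R908

open Pool.Agent.H914 Pool.Agent.H914.VarClass Pool.Agent.H914.VarClass.Obj
  Pool.Agent.H914.WeilCohomology

variable {k : Type u} [Field k] {𝒱 : VarClass k} {ops : CycleOps 𝒱}
  {W : WeilCohomology.{u, v} ops} {X Y Z X' Y' Z' X'' Y'' : 𝒱.Obj}

/-- Linear combinations of algebraic classes commute with all classes. -/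
lemma span_comm {j : ℤ} {x : W.H X} (hx : x ∈ spanCycles W X j) (a : W.H X) :
    x * a = a * x := by
  induction hx using Submodule.span_induction with
  | mem x hx =>
    obtain ⟨p, -, z, hz, rfl⟩ := hx
    exact W.even_comm (W.cl_mem hz) a
  | zero => rw [zero_mul, mul_zero]
  | add x y _ _ hx hy => rw [add_mul, mul_add, hx, hy]
  | smul c x _ hx => rw [smul_mul_assoc, mul_smul_comm, hx]

lemma span_map (f : X ⟶ Y) {j : ℤ} {x : W.H Y} (hx : x ∈ spanCycles W Y j) :
    W.map f x ∈ spanCycles W X j := by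
  have h1 := KOp.map_span (KOp.mapHom (W := W) f) hx
  rw [add_zero] at h1
  exact h1

lemma span_mul {i j : ℤ} {x y : W.H X} (hx : x ∈ spanCycles W X i) (hy : y ∈ spanCycles W X j) :
    x * y ∈ spanCycles W X (i + j) := by
  induction hx using Submodule.span_induction with
  | mem x hx =>
    obtain ⟨p, hp, z, hz, rfl⟩ := hx
    induction hy using Submodule.span_induction with
    | mem y hy =>
      obtain ⟨q, hq, w, hw, rfl⟩ := hy
      exact Submodule.subset_span ⟨p + q, by push_cast; rw [hp, hq], ops.mul z w,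
        ops.mul_mem hz hw, W.cl_mul z w⟩
    | zero => rw [mul_zero]; exact Submodule.zero_mem _
    | add x y _ _ hx hy => rw [mul_add]; exact Submodule.add_mem _ hx hy
    | smul c x _ hx => rw [mul_smul_comm]; exact Submodule.smul_mem _ _ hx
  | zero => rw [zero_mul]; exact Submodule.zero_mem _
  | add x y _ _ hx hy => rw [add_mul]; exact Submodule.add_mem _ hx hy
  | smul c x _ hx => rw [smul_mul_assoc]; exact Submodule.smul_mem _ _ hx

/-- The class `x` is orthogonal to all algebraic classes. -/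
def NumTriv (W : WeilCohomology.{u, v} ops) (X : 𝒱.Obj) (x : W.H X) : Prop :=
  ∀ j : ℤ, ∀ g ∈ spanCycles W X j, W.tr X (x * g) = 0

lemma NumTriv.op {δ : ℤ} {φ : W.H X →ₗ[W.K] W.H Y} (hφ : φ ∈ KOp W X Y δ) {x : W.H X}
    (hx : NumTriv W X x) : NumTriv W Y (φ x) := by
  obtain ⟨ψ, hψ, h⟩ := KOp.exists_adjoint hφ
  intro j g hg
  rw [h]
  exact hx _ _ (KOp.map_span hψ hg)

lemma NumTriv.mul_left {j : ℤ} {c : W.H X} (hc : c ∈ spanCycles W X j) {x : W.H X}
    (hx : NumTriv W X x) : NumTriv W X (c * x) := by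
  intro i g hg
  rw [span_comm hc, mul_assoc]
  exact hx _ _ (span_mul hc hg)

lemma NumTriv.prod {i j : ℤ} {x : W.H X} (hxs : x ∈ spanCycles W X i) (hx : NumTriv W X x)
    {y : W.H Y} (hy : y ∈ spanCycles W Y j) :
    NumTriv W (X.prod Y) (W.map (fst X Y) x * W.map (snd X Y) y) := by
  intro l g hg
  rw [mul_assoc, span_comm (span_map (fst X Y) hxs), ← W.tr_push, ← span_comm hxs]
  exact hx _ _ (KOp.map_span (KOp.pushHom (fst X Y)) (span_mul (span_map (snd X Y) hy) hg))

/-- Slices: the operator `a ⊠ b ↦ f(a) b`. -/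
noncomputable def sl (W : WeilCohomology.{u, v} ops) {X Y : 𝒱.Obj} (f : W.H X →ₗ[W.K] W.K) :
    W.H (X.prod Y) →ₗ[W.K] W.H Y :=
  (TensorProduct.lid W.K (W.H Y)).toLinearMap ∘ₗ f.rTensor (W.H Y) ∘ₗ
    (kappa W X Y).symm.toLinearMap

lemma sl_tmul (f : W.H X →ₗ[W.K] W.K) (a : W.H X) (b : W.H Y) :
    sl W f (W.map (fst X Y) a * W.map (snd X Y) b) = f a • b := by
  rw [sl, LinearMap.comp_apply, LinearMap.comp_apply, LinearEquiv.coe_coe, LinearEquiv.coe_coe,
    ← kappa_tmul, LinearEquiv.symm_apply_apply, LinearMap.rTensor_tmul, TensorProduct.lid_tmul]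

lemma sl_sep {y : W.H (X.prod Y)} (h : ∀ f : W.H X →ₗ[W.K] W.K, sl W f y = 0) : y = 0 := by
  set b := Module.finBasis W.K (W.H X) with hb
  have key : (LinearMap.id : W.H (X.prod Y) →ₗ[W.K] W.H (X.prod Y)) =
      ∑ i, LinearMap.mulLeft W.K (W.map (fst X Y) (b i)) ∘ₗ (W.map (snd X Y)).toLinearMap ∘ₗ
        sl W (b.coord i) := by
    apply ext_kunneth_lin
    intro a c
    rw [LinearMap.sum_apply, LinearMap.id_apply]
    have h1 : ∀ i, (LinearMap.mulLeft W.K (W.map (fst X Y) (b i)) ∘ₗ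
        (W.map (snd X Y)).toLinearMap ∘ₗ sl W (b.coord i))
        (W.map (fst X Y) a * W.map (snd X Y) c) =
        W.map (fst X Y) (b.coord i a • b i) * W.map (snd X Y) c := by
      intro i
      rw [LinearMap.comp_apply, LinearMap.comp_apply, sl_tmul, LinearMap.mulLeft_apply,
        AlgHom.toLinearMap_apply, map_smul, map_smul, mul_smul_comm, smul_mul_assoc]
    rw [Finset.sum_congr rfl (fun i _ => h1 i), ← Finset.sum_mul, ← map_sum]
    congr 2
    exact (b.sum_repr a).symm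
  have h2 := congrArg (fun F => F y) key
  beta_reduce at h2
  rw [LinearMap.sum_apply, LinearMap.id_apply] at h2
  rw [h2]
  apply Finset.sum_eq_zero
  intro i _
  rw [LinearMap.comp_apply, LinearMap.comp_apply, h, map_zero, map_zero]

/-- If a class is orthogonal to all algebraic classes then its direct image under the projector
of `A` is zero. -/
def Mot.Num (A : Mot W) : Prop :=
  ∀ j : ℤ, ∀ x ∈ spanCycles W A.X j, NumTriv W A.X x → A.e x = 0

lemma Mot.Num.eqv {A B : Mot W} (h : A.Eqv B) (hA : A.Num) : B.Num := by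
  obtain ⟨δ, f, g, hf, hg, h1, h2⟩ := h
  intro j x hx hn
  have e1 : B.e x = f (A.e (g x)) := by
    calc B.e x = (B.e ∘ₗ B.e) x := by rw [B.idem]
      _ = ((f ∘ₗ g) ∘ₗ (f ∘ₗ g)) x := by rw [h2]
      _ = f ((g ∘ₗ f) (g x)) := rfl
      _ = f (A.e (g x)) := by rw [h1]
  rw [e1, hA _ _ (KOp.map_span hg hx) (NumTriv.op hg hn), map_zero]

lemma Mot.Num.of_tensor {A B : Mot W} (h : (A.tensor B).Num) : A.Num ∨ B.Num := by
  by_contra hcon
  push Not at hcon
  obtain ⟨hA, hB⟩ := hcon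
  unfold Mot.Num at hA hB
  push Not at hA hB
  obtain ⟨i, x, hx, hxn, hx0⟩ := hA
  obtain ⟨j, y, hy, hyn, hy0⟩ := hB
  have h1 := h (i + j) (W.map (fst A.X B.X) x * W.map (snd A.X B.X) y)
    (span_mul (span_map _ hx) (span_map _ hy)) (NumTriv.prod hx hxn hy)
  have h2 : extHom W A.e B.e (W.map (fst A.X B.X) x * W.map (snd A.X B.X) y) = 0 := h1
  rw [extHom_tmul] at h2
  obtain ⟨f, hf⟩ := Module.Projective.exists_dual_eq_one W.K hx0
  have h3 := congrArg (sl W f) h2
  rw [sl_tmul, hf, one_smul, map_zero] at h3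
  exact hy0 h3

/-- All linear forms on the product of the factors `A` and `B` are given by algebraic classes. -/
def Mot.Contr (A B : Mot W) : Prop :=
  ∃ j : ℤ, ∀ (f : W.H A.X →ₗ[W.K] W.K) (g : W.H B.X →ₗ[W.K] W.K),
    ∃ c ∈ spanCycles W (A.X.prod B.X) j, ∀ x y, W.tr (A.X.prod B.X)
      (c * (W.map (fst A.X B.X) x * W.map (snd A.X B.X) y)) = f (A.e x) * g (B.e y)

lemma Mot.Contr.num {A B : Mot W} (h : A.Contr B) : (A.tensor B).Num := by
  obtain ⟨j, h⟩ := h
  intro i (x : W.H (A.X.prod B.X)) hx hn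
  change extHom W A.e B.e x = 0
  apply sl_sep
  intro f
  rw [← Module.forall_dual_apply_eq_zero_iff W.K]
  intro g
  obtain ⟨c, hc, h1⟩ := h f g
  have key : g ∘ₗ sl W f ∘ₗ extHom W A.e B.e =
      W.tr (A.X.prod B.X) ∘ₗ LinearMap.mulLeft W.K c := by
    apply ext_kunneth_lin
    intro a b
    rw [LinearMap.comp_apply, LinearMap.comp_apply, extHom_tmul, sl_tmul, map_smul, smul_eq_mul,
      LinearMap.comp_apply, LinearMap.mulLeft_apply, h1]
  have h2 := congrArg (fun F => F x) key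
  change g (sl W f (extHom W A.e B.e x)) = W.tr (A.X.prod B.X) (c * x) at h2
  change g (sl W f (extHom W A.e B.e x)) = 0
  rw [h2, span_comm hc]
  exact hn _ _ hc

lemma push_p12 (d : W.H (X.prod Y)) :
    W.push (snd X (Y.prod Z) ≫ snd Y Z) (W.map (p12 X Y Z) d) = W.tr (X.prod Y) d • (1 : W.H Z) := by
  have e1 : p12 X Y Z ≫ fst X Y = fst X (Y.prod Z) := Obj.lift_fst _ _
  have e2 : p12 X Y Z ≫ snd X Y = snd X (Y.prod Z) ≫ fst Y Z := Obj.lift_snd _ _
  refine W.kunneth_induction (p := fun d =>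
    W.push (snd X (Y.prod Z) ≫ snd Y Z) (W.map (p12 X Y Z) d) =
      W.tr (X.prod Y) d • (1 : W.H Z)) ?_ ?_ d
  · intro a b ha hb
    rw [map_add, map_add, ha, hb, map_add, add_smul]
  · intro i j a _ b _
    rw [map_mul (W.map (p12 X Y Z)), ← W.map_comp, ← W.map_comp, e1, e2, W.map_comp, W.push_comp,
      W.push_snd, map_smul, W.push_snd', W.tr_prod, smul_smul]

lemma Mot.Contr.num_tensor {A B C : Mot W} (h : A.Contr B) (hC : C.Num) :
    (A.tensor (B.tensor C)).Num := by
  obtain ⟨j, h⟩ := h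
  intro i (x : W.H (A.X.prod (B.X.prod C.X))) hx hn
  change extHom W A.e (extHom W B.e C.e) x = 0
  apply sl_sep
  intro f
  apply sl_sep
  intro g
  obtain ⟨c, hc, h1⟩ := h f g
  have key : sl W g ∘ₗ sl W f ∘ₗ extHom W A.e (extHom W B.e C.e) =
      C.e ∘ₗ W.push (snd A.X (B.X.prod C.X) ≫ snd B.X C.X) ∘ₗ
        LinearMap.mulLeft W.K (W.map (p12 A.X B.X C.X) c) := by
    apply Mot.ext3'
    intro a b d
    have e1 : p12 A.X B.X C.X ≫ fst A.X B.X = fst A.X (B.X.prod C.X) := Obj.lift_fst _ _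
    have e2 : p12 A.X B.X C.X ≫ snd A.X B.X = snd A.X (B.X.prod C.X) ≫ fst B.X C.X :=
      Obj.lift_snd _ _
    have e3 : W.map (p12 A.X B.X C.X) c * (W.map (fst A.X (B.X.prod C.X)) a *
        W.map (snd A.X (B.X.prod C.X)) (W.map (fst B.X C.X) b * W.map (snd B.X C.X) d)) =
        W.map (p12 A.X B.X C.X) (c * (W.map (fst A.X B.X) a * W.map (snd A.X B.X) b)) *
          W.map (snd A.X (B.X.prod C.X) ≫ snd B.X C.X) d := by
      rw [map_mul (W.map (p12 A.X B.X C.X)), map_mul (W.map (p12 A.X B.X C.X)), ← W.map_comp,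
        ← W.map_comp, e1, e2, W.map_comp, W.map_comp,
        map_mul (W.map (snd A.X (B.X.prod C.X)))]
      simp only [mul_assoc]
    rw [LinearMap.comp_apply, LinearMap.comp_apply, LinearMap.comp_apply, LinearMap.comp_apply,
      LinearMap.mulLeft_apply, e3, W.push_mul, push_p12, h1, extHom_tmul, extHom_tmul, sl_tmul,
      map_smul, sl_tmul, smul_mul_assoc, one_mul, map_smul, smul_smul]
  have h2 := congrArg (fun F => F x) key
  change sl W g (sl W f (extHom W A.e (extHom W B.e C.e) x)) =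
    C.e (W.push (snd A.X (B.X.prod C.X) ≫ snd B.X C.X) (W.map (p12 A.X B.X C.X) c * x)) at h2
  rw [h2]
  exact hC _ _ (KOp.map_span (KOp.pushHom _) (span_mul (span_map _ hc) hx))
    (NumTriv.op (KOp.pushHom _) (NumTriv.mul_left (span_map _ hc) hn))

/-- The property `Num` of isomorphism classes. -/
def Cls.Num (a : Cls W) : Prop := ∀ A : Mot W, A.cls = a → A.Num

lemma Mot.num_cls (A : Mot W) : A.cls.Num ↔ A.Num :=
  ⟨fun h => h A rfl, fun h _ hB => Mot.Num.eqv (Mot.cls_eq.1 hB.symm) h⟩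

/-- The monoid of classes. -/
abbrev Mon (W : WeilCohomology.{u, v} ops) := WithOne (Cls W)

/-- The class of a direct factor in the monoid. -/
def Mot.m (A : Mot W) : Mon W := (A.cls : WithOne (Cls W))

/-- The property `Num` in the monoid of classes. -/
def MNum (m : Mon W) : Prop := ∀ A : Mot W, m = A.m → A.Num

lemma mnum_one : MNum (1 : Mon W) := fun _ hA => absurd hA.symm (WithOne.coe_ne_one)

lemma Mot.m_inj {A B : Mot W} (h : A.m = B.m) : A.cls = B.cls := WithOne.coe_inj.1 h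

lemma mnum_m {A : Mot W} : MNum A.m ↔ A.Num :=
  ⟨fun h => h A rfl, fun h _ hB => Mot.Num.eqv (Mot.cls_eq.1 (Mot.m_inj hB)) h⟩

lemma Mot.m_tensor (A B : Mot W) : (A.tensor B).m = A.m * B.m := rfl

lemma mon_cases (m : Mon W) : m = 1 ∨ ∃ A : Mot W, m = A.m := by
  induction m using WithOne.recOneCoe with
  | one => exact Or.inl rfl
  | coe a =>
    obtain ⟨A, rfl⟩ := Quotient.exists_rep a
    exact Or.inr ⟨A, rfl⟩

lemma mnum_of_mul {m n : Mon W} (h : MNum (m * n)) : MNum m ∨ MNum n := by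
  rcases mon_cases m with rfl | ⟨A, rfl⟩
  · exact Or.inl mnum_one
  rcases mon_cases n with rfl | ⟨B, rfl⟩
  · exact Or.inr mnum_one
  rw [← Mot.m_tensor, mnum_m] at h
  rw [mnum_m, mnum_m]
  exact h.of_tensor

lemma mnum_contr {A B : Mot W} (h : A.Contr B) {m : Mon W} (hm : MNum m) :
    MNum (A.m * B.m * m) := by
  rcases mon_cases m with rfl | ⟨C, rfl⟩
  · rw [mul_one, ← Mot.m_tensor, mnum_m]
    exact h.num
  · rw [mul_assoc, ← Mot.m_tensor, ← Mot.m_tensor, mnum_m]
    exact h.num_tensor (mnum_m.1 hm)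

end Pool.Agent.R908
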