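import Pool.Agent.R908.Act

/-!
# Products over orbits
-/

open CategoryTheory AlgebraicGeometry TensorProduct

universe u v w w'

namespace Pool.Agent.R908

open Pool.Agent.H914 Pool.Agent.H914.VarClass Pool.Agent.H914.VarClass.Obj
  Pool.Agent.H914.WeilCohomology

/-- For finitely many elements with finite orbits there is a finite non-empty family of elements of
the group such that the product over the family depends only on the orbit. -/
lemma exists_family {Γ : Type w} {M : Type w'} [Group Γ] [CommMonoid M] [MulAction Γ M]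
    (S : Set M) (hS : S.Finite) (hfin : ∀ s ∈ S, (MulAction.orbit Γ s).Finite) :
    ∃ (Q : Type w') (_ : Fintype Q) (_ : Nonempty Q) (r : Q → Γ), ∀ s ∈ S, ∀ g : Γ,
      ∏ q, r q • s = ∏ q, r q • g • s := by
  classical
  set Ω : Set M := ⋃ s ∈ S, MulAction.orbit Γ s with hΩ
  have hΩfin : Ω.Finite := hS.biUnion hfin
  have hst : ∀ g : Γ, ∀ x ∈ Ω, g • x ∈ Ω := by
    intro g x hx
    rw [hΩ, Set.mem_iUnion₂] at hx ⊢
    obtain ⟨s, hs, hx⟩ := hx
    exact ⟨s, hs, MulAction.mem_orbit_of_mem_orbit g hx⟩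
  let act : MulAction Γ Ω :=
    { smul := fun g x => ⟨g • x.1, hst g x.1 x.2⟩
      one_smul := fun x => Subtype.ext (one_smul Γ x.1)
      mul_smul := fun g h x => Subtype.ext (mul_smul g h x.1) }
  have : Finite Ω := hΩfin
  have : Fintype Ω := Fintype.ofFinite Ω
  set φ := MulAction.toPermHom Γ Ω with hφ
  have : Fintype φ.range := Fintype.ofFinite _
  choose r hr using fun q : φ.range => MonoidHom.mem_range.1 q.2
  have key : ∀ (q : φ.range) (x : Ω), ((r q • (x : M) : M)) = ((q : Equiv.Perm Ω) x : M) := by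
    intro q x
    have h1 := congrArg (fun e : Equiv.Perm Ω => (e x : M)) (hr q)
    exact h1
  refine ⟨φ.range, inferInstance, ⟨1⟩, r, fun s hs g => ?_⟩
  have hsΩ : s ∈ Ω := by
    rw [hΩ, Set.mem_iUnion₂]
    exact ⟨s, hs, MulAction.mem_orbit_self s⟩
  have h1 : ∀ q, r q • s = ((q : Equiv.Perm Ω) ⟨s, hsΩ⟩ : M) := fun q => key q ⟨s, hsΩ⟩
  have h2 : ∀ q, r q • g • s =
      (((q * ⟨φ g, ⟨g, rfl⟩⟩ : φ.range) : Equiv.Perm Ω) ⟨s, hsΩ⟩ : M) := by
    intro q
    have h3 := key q ⟨g • s, hst g s hsΩ⟩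
    exact h3
  rw [Fintype.prod_congr _ _ h1, Fintype.prod_congr _ _ h2]
  exact (Fintype.prod_equiv (Equiv.mulRight (⟨φ g, ⟨g, rfl⟩⟩ : φ.range))
    (fun q => (((q * ⟨φ g, ⟨g, rfl⟩⟩ : φ.range) : Equiv.Perm Ω) ⟨s, hsΩ⟩ : M))
    (fun q => ((q : Equiv.Perm Ω) ⟨s, hsΩ⟩ : M)) (fun q => rfl)).symm

variable {k : Type u} [Field k] {𝒱 : VarClass k} {ops : CycleOps 𝒱}
  {W : WeilCohomology.{u, v} ops} {X Y Z X' Y' Z' X'' Y'' : 𝒱.Obj}

lemma mnum_prod {ι : Type*} {s : Finset ι} (hs : s.Nonempty) {f : ι → Mon W}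
    (h : MNum (∏ i ∈ s, f i)) : ∃ i ∈ s, MNum (f i) := by
  by_contra hcon
  push Not at hcon
  exact Finset.prod_induction_nonempty f (fun m => ¬ MNum m)
    (fun a b ha hb hab => by
      rcases mnum_of_mul hab with h | h
      · exact ha h
      · exact hb h) hs hcon h

lemma mnum_prod_contr {ι : Type*} (s : Finset ι) (A B : ι → Mot W)
    (h : ∀ i ∈ s, (A i).Contr (B i)) {m : Mon W} (hm : MNum m) :
    MNum ((∏ i ∈ s, (A i).m * (B i).m) * m) := by
  classical
  induction s using Finset.induction_on with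
  | empty => rwa [Finset.prod_empty, one_mul]
  | insert a s ha ih =>
    rw [Finset.prod_insert ha, mul_assoc]
    exact mnum_contr (h a (Finset.mem_insert_self _ _))
      (ih (fun i hi => h i (Finset.mem_insert_of_mem hi)))

/-- **The product over the orbits.** -/
theorem mnum_of_orbits {Γ : Type w} [Group Γ] (S : SemiAct Γ W) (L : List (Mot W))
    (hfin : ∀ A ∈ L, {m : Mon W | ∃ g, m = ((S.act g).mot A).m}.Finite)
    (hC : ∀ A ∈ L, ∃ g, A.Contr ((S.act g).mot A)) (y : Mon W)
    (hyΓ : ∀ g, (S.act g).onM y = y) (hy : ∀ n : ℕ, MNum (y ^ n)) :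
    MNum ((L.map Mot.m).prod * y) := by
  classical
  let _ := S.mulAction
  have hsm : ∀ (g : Γ) (m : Mon W), g • m = (S.act g).onM m := fun g m => rfl
  obtain ⟨Q, _, hQ, r, hr⟩ := exists_family (Γ := Γ) (M := Mon W) {m | ∃ A ∈ L, m = A.m}
    (by
      have h1 : {m : Mon W | ∃ A ∈ L, m = A.m} = ((L.map Mot.m).toFinset : Set (Mon W)) := by
        ext m
        simp only [Set.mem_ofPred_eq, List.coe_toFinset, List.mem_map]
        exact ⟨fun ⟨A, h, h'⟩ => ⟨A, h, h'.symm⟩, fun ⟨A, h, h'⟩ => ⟨A, h, h'.symm⟩⟩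
      rw [h1]
      exact Finset.finite_toSet _)
    (by
      rintro m ⟨A, hA, rfl⟩
      refine (hfin A hA).subset ?_
      rintro _ ⟨g, rfl⟩
      exact ⟨g, rfl⟩)
  set N : Mon W → Mon W := fun m => ∏ q, r q • m with hN
  have hNmul : ∀ m n, N (m * n) = N m * N n := by
    intro m n
    rw [hN]
    beta_reduce
    rw [← Finset.prod_mul_distrib]
    apply Finset.prod_congr rfl
    intro q _
    exact smul_mul' _ _ _
  have hNone : N 1 = 1 := by
    rw [hN]
    beta_reduce
    apply Finset.prod_eq_one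
    intro q _
    exact smul_one _
  have hNy : N y = y ^ Fintype.card Q := by
    rw [hN]
    beta_reduce
    have h1 : ∀ q ∈ (Finset.univ : Finset Q), r q • y = y := fun q _ => hyΓ (r q)
    rw [Finset.prod_congr rfl h1, Finset.prod_const, Finset.card_univ]
  have key : ∀ L' : List (Mot W), (∀ A ∈ L', A ∈ L) → ∀ z : Mon W, MNum z →
      MNum (N (L'.map Mot.m).prod * N (L'.map Mot.m).prod * z) := by
    intro L'
    induction L' with
    | nil =>
      intro _ z hz
      rw [List.map_nil, List.prod_nil, hNone, one_mul, one_mul]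
      exact hz
    | cons A L' ih =>
      intro hL' z hz
      rw [List.map_cons, List.prod_cons, hNmul]
      have h1 := ih (fun B hB => hL' B (List.mem_cons_of_mem _ hB)) z hz
      obtain ⟨g, hg⟩ := hC A (hL' A List.mem_cons_self)
      have h2 : N A.m * N A.m = ∏ q, ((S.act (r q)).mot A).m *
          ((S.act (r q)).mot ((S.act g).mot A)).m := by
        have h3 : N A.m = ∏ q, r q • g • A.m := hr A.m ⟨A, hL' A List.mem_cons_self, rfl⟩ g
        conv_lhs => rw [h3]
        conv_lhs => enter [1]; rw [← h3]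
        rw [hN]
        beta_reduce
        rw [← Finset.prod_mul_distrib]
        rfl
      have h4 := mnum_prod_contr Finset.univ (fun q => (S.act (r q)).mot A)
        (fun q => (S.act (r q)).mot ((S.act g).mot A)) (fun q _ => (S.act (r q)).contr hg) h1
      rw [← h2] at h4
      have h5 : N A.m * N (L'.map Mot.m).prod * (N A.m * N (L'.map Mot.m).prod) * z =
          N A.m * N A.m * (N (L'.map Mot.m).prod * N (L'.map Mot.m).prod * z) := by
        simp only [mul_assoc, mul_left_comm]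
      rw [h5]
      exact h4
  have h1 := key L (fun A hA => hA) (y ^ (Fintype.card Q + Fintype.card Q)) (hy _)
  have h2 : N (L.map Mot.m).prod * N (L.map Mot.m).prod *
      y ^ (Fintype.card Q + Fintype.card Q) = N ((L.map Mot.m).prod * y) *
        N ((L.map Mot.m).prod * y) := by
    rw [hNmul, hNy, pow_add]
    simp only [mul_assoc, mul_left_comm, mul_comm]
  rw [h2] at h1
  have h3 : MNum (N ((L.map Mot.m).prod * y)) := by
    rcases mnum_of_mul h1 with h | h
    · exact h
    · exact h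
  obtain ⟨q, -, hq⟩ := mnum_prod Finset.univ_nonempty h3
  exact (S.act (r q)).mnum_of_onM hq

/-- The cohomology of `Z` is a direct sum of factors with classes satisfying `P`. -/
def HasDecomp (W : WeilCohomology.{u, v} ops) (P : Mon W → Prop) (Z : 𝒱.Obj) : Prop :=
  ∃ (ι : Type) (_ : Fintype ι) (e : ι → (W.H Z →ₗ[W.K] W.H Z)), ∑ i, e i = LinearMap.id ∧
    ∀ i, ∃ (hm : e i ∈ KOp W Z Z 0) (hi : e i ∘ₗ e i = e i), P (Mot.mk Z (e i) hm hi).m

lemma extHom_sum {ι : Type*} (s : Finset ι) (φ : ι → (W.H X →ₗ[W.K] W.H X'))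
    (ψ : W.H Y →ₗ[W.K] W.H Y') : extHom W (∑ i ∈ s, φ i) ψ = ∑ i ∈ s, extHom W (φ i) ψ := by
  classical
  induction s using Finset.induction_on with
  | empty => rw [Finset.sum_empty, Finset.sum_empty, extHom_zero_left]
  | insert a s ha ih => rw [Finset.sum_insert ha, Finset.sum_insert ha, extHom_add_left, ih]

lemma extHom_sum' {ι : Type*} (s : Finset ι) (φ : W.H X →ₗ[W.K] W.H X')
    (ψ : ι → (W.H Y →ₗ[W.K] W.H Y')) :
    extHom W φ (∑ i ∈ s, ψ i) = ∑ i ∈ s, extHom W φ (ψ i) := by
  classical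
  induction s using Finset.induction_on with
  | empty => rw [Finset.sum_empty, Finset.sum_empty, extHom_zero_right]
  | insert a s ha ih => rw [Finset.sum_insert ha, Finset.sum_insert ha, extHom_add_right, ih]

lemma HasDecomp.prod {P : Mon W → Prop} (hP : ∀ m n, P m → P n → P (m * n))
    (hY : HasDecomp W P Y) (hZ : HasDecomp W P Z) : HasDecomp W P (Y.prod Z) := by
  classical
  obtain ⟨ι, _, e, h1, h2⟩ := hY
  obtain ⟨ι', _, e', h1', h2'⟩ := hZ
  refine ⟨ι × ι', inferInstance, fun s => extHom W (e s.1) (e' s.2), ?_, ?_⟩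
  · rw [Fintype.sum_prod_type]
    have : ∀ i, ∑ j, extHom W (e i) (e' j) = extHom W (e i) LinearMap.id := by
      intro i
      rw [← h1', extHom_sum']
    rw [Finset.sum_congr rfl (fun i _ => this i), ← extHom_sum, h1, extHom_id]
  · intro s
    obtain ⟨hm, hi, hp⟩ := h2 s.1
    obtain ⟨hm', hi', hp'⟩ := h2' s.2
    exact ⟨KOp.cast (KOp.extHom hm hm') (add_zero 0), by rw [extHom_comp, hi, hi'],
      hP _ _ hp hp'⟩

/-- Cycles of codimension `j` numerically equivalent to zero have numerically trivial classes. -/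
lemma numTriv_cl {j : ℕ} (hj : j ≤ X.dim) {z : X.Cycles} (hz : X.IsCyc j z)
    (hnum : ∀ w, X.IsCyc (X.dim - j) w → X.V.degCycle (ops.mul z w) = 0) :
    NumTriv W X (W.cl X z) := by
  intro l g hg
  by_cases hl : l = ((X.dim - j : ℕ) : ℤ)
  · subst hl
    induction hg using Submodule.span_induction with
    | mem g hg =>
      obtain ⟨p, hp, w, hw, rfl⟩ := hg
      obtain rfl : p = X.dim - j := by exact_mod_cast hp
      have h1 := ops.mul_mem hz hw
      rw [show j + (X.dim - j) = X.dim by omega] at h1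
      rw [← W.cl_mul, W.tr_cl h1, hnum w hw, Rat.cast_zero]
    | zero => rw [mul_zero, map_zero]
    | add u v _ _ hu hv => rw [mul_add, map_add, hu, hv, add_zero]
    | smul a u _ hu => rw [mul_smul_comm, map_smul, hu, smul_zero]
  · have h1 := spanCycles_deg hg
    by_cases hneg : l < 0
    · rw [grZ_of_neg (by omega)] at h1
      rw [(Submodule.mem_bot _).1 h1, mul_zero, map_zero]
    · obtain ⟨m, rfl⟩ := Int.eq_ofNat_of_zero_le (show 0 ≤ l by omega)
      rw [show (2 * ((m : ℕ) : ℤ)) = ((2 * m : ℕ) : ℤ) by push_cast; ring, grZ_natCast] at h1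
      exact W.tr_eq_zero (W.mul_mem (W.cl_mem hz) h1) (by omega)

/-- The conjecture `D` from a decomposition. -/
theorem HasDecomp.homEqNum {P : Mon W → Prop} (hP : ∀ m, P m → MNum m)
    (hZ : HasDecomp W P Z) : HomEqNum W Z := by
  obtain ⟨ι, _, e, h1, h2⟩ := hZ
  intro j hj z hz hnum
  have h3 := numTriv_cl (W := W) hj hz hnum
  have h4 := congrArg (fun F => F (W.cl Z z)) h1
  beta_reduce at h4
  rw [LinearMap.sum_apply, LinearMap.id_apply] at h4
  rw [← h4]
  apply Finset.sum_eq_zero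
  intro i _
  obtain ⟨hm, hi, hp⟩ := h2 i
  have h5 : (Mot.mk Z (e i) hm hi).Num := mnum_m.1 (hP _ hp)
  exact h5 j (W.cl Z z) (Submodule.subset_span ⟨j, rfl, z, hz, rfl⟩) h3

/-- The unit direct factor of a variety. -/
noncomputable def whole (W : WeilCohomology.{u, v} ops) (Y : 𝒱.Obj) : Mot W where
  X := Y
  e := LinearMap.id
  mem := KOp.id Y
  idem := rfl

/-- The conjecture `D` for `Y` implies the property `Num` for the whole cohomology. -/
lemma num_whole (h : HomEqNum W Y) : (whole W Y).Num := by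
  intro j (x : W.H Y) hx hn
  change x ∈ spanCycles W Y j at hx
  change NumTriv W Y x at hn
  change x = 0
  by_cases hj : 0 ≤ j ∧ j ≤ Y.dim
  · obtain ⟨l, rfl⟩ := Int.eq_ofNat_of_zero_le hj.1
    have hl : l ≤ Y.dim := by
      have := hj.2
      exact_mod_cast this
    have hx' : x ∈ Submodule.span W.K (algClasses W Y l) := by
      refine Submodule.span_mono ?_ hx
      rintro c ⟨p, hp, z, hz, rfl⟩
      obtain rfl : p = l := by exact_mod_cast hp
      exact ⟨z, hz, rfl⟩
    refine H281R3.HT.span_nondeg h hl hx' ?_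
    rintro y ⟨w, hw, rfl⟩
    have h1 := hn ((Y.dim - l : ℕ) : ℤ) (W.cl Y w)
      (Submodule.subset_span ⟨_, rfl, w, hw, rfl⟩)
    change W.tr Y (W.cl Y w * x) = 0
    rw [W.even_comm (W.cl_mem hw)]
    exact h1
  · have h1 := spanCycles_deg hx
    by_cases hneg : j < 0
    · rw [grZ_of_neg (by omega)] at h1
      exact (Submodule.mem_bot _).1 h1
    · obtain ⟨m, rfl⟩ := Int.eq_ofNat_of_zero_le (show 0 ≤ j by omega)
      rw [show (2 * ((m : ℕ) : ℤ)) = ((2 * m : ℕ) : ℤ) by push_cast; ring, grZ_natCast,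
        W.gr_eq_bot Y _ (by push Not at hj; have := hj (by omega); omega)] at h1
      exact (Submodule.mem_bot _).1 h1

end Pool.Agent.R908
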