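import Pool.Agent.R908.Orbit

/-!
# The conjecture D for products
-/

open CategoryTheory AlgebraicGeometry TensorProduct

universe u v w w'

namespace Pool.Agent.R908

open Pool.Agent.H914 Pool.Agent.H914.VarClass Pool.Agent.H914.VarClass.Obj
  Pool.Agent.H914.WeilCohomology

variable {k : Type u} [Field k] {𝒱 : VarClass k} {ops : CycleOps 𝒱}
  {W : WeilCohomology.{u, v} ops} {X Y Z X' Y' Z' X'' Y'' : 𝒱.Obj}

/-- The direct factor `A` has a finite orbit, and some conjugate of `A` is dual to `A`. -/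
def GoodFactor {Γ : Type w} [Group Γ] (S : SemiAct Γ W) (A : Mot W) : Prop :=
  {m : Mon W | ∃ g, m = ((S.act g).mot A).m}.Finite ∧ ∃ g, A.Contr ((S.act g).mot A)

/-- The cohomology of `P` is the direct sum of good direct factors. -/
def Splits {Γ : Type w} [Group Γ] (S : SemiAct Γ W) (P : 𝒱.Obj) : Prop :=
  ∃ (ι : Type) (_ : Fintype ι) (e : ι → (W.H P →ₗ[W.K] W.H P)), ∑ i, e i = LinearMap.id ∧
    ∀ i, ∃ (hm : e i ∈ KOp W P P 0) (hi : e i ∘ₗ e i = e i), GoodFactor S (Mot.mk P (e i) hm hi)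

/-- The classes of the products of members of `𝒴`. -/
def YCls (W : WeilCohomology.{u, v} ops) (𝒴 : Set 𝒱.Obj) (y : Mon W) : Prop :=
  y = 1 ∨ ∃ Y, IsProductOf 𝒴 Y ∧ y = (whole W Y).m

lemma whole_tensor (Y Z : 𝒱.Obj) : (whole W Y).tensor (whole W Z) = whole W (Y.prod Z) := by
  have h1 : extHom W (LinearMap.id : W.H Y →ₗ[W.K] W.H Y) (LinearMap.id : W.H Z →ₗ[W.K] W.H Z) =
    LinearMap.id := extHom_id
  simp only [Mot.tensor, whole, h1]

lemma YCls.mul {𝒴 : Set 𝒱.Obj} {y z : Mon W} (hy : YCls W 𝒴 y) (hz : YCls W 𝒴 z) :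
    YCls W 𝒴 (y * z) := by
  rcases hy with rfl | ⟨Y, hY, rfl⟩
  · rwa [one_mul]
  rcases hz with rfl | ⟨Z, hZ, rfl⟩
  · rw [mul_one]; exact Or.inr ⟨Y, hY, rfl⟩
  · refine Or.inr ⟨Y.prod Z, IsProductOf.prod hY hZ, ?_⟩
    rw [← Mot.m_tensor, whole_tensor]

lemma YCls.pow {𝒴 : Set 𝒱.Obj} {y : Mon W} (hy : YCls W 𝒴 y) (n : ℕ) :
    YCls W 𝒴 (y ^ n) := by
  induction n with
  | zero => rw [pow_zero]; exact Or.inl rfl
  | succ n ih => rw [pow_succ]; exact ih.mul hy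

lemma YCls.mnum {𝒴 : Set 𝒱.Obj} (h𝒴 : ∀ Y, IsProductOf 𝒴 Y → HomEqNum W Y) {y : Mon W}
    (hy : YCls W 𝒴 y) : MNum y := by
  rcases hy with rfl | ⟨Y, hY, rfl⟩
  · exact mnum_one
  · exact mnum_m.2 (num_whole (h𝒴 Y hY))

lemma mot_whole (S : SemiAut W) (Y : 𝒱.Obj) : S.mot (whole W Y) = whole W Y := by
  have h1 : S.conj (LinearMap.id : W.H Y →ₗ[W.K] W.H Y) = LinearMap.id := by
    apply LinearMap.ext
    intro a
    rw [SemiAut.conj_apply, LinearMap.id_apply, AddEquiv.apply_symm_apply, LinearMap.id_apply]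
  simp only [SemiAut.mot, whole, h1]

lemma YCls.fixed {𝒴 : Set 𝒱.Obj} (S : SemiAut W) {y : Mon W} (hy : YCls W 𝒴 y) :
    S.onM y = y := by
  rcases hy with rfl | ⟨Y, hY, rfl⟩
  · exact map_one _
  · rw [SemiAut.onM_m, mot_whole]

/-- The products of classes of good factors and of a class of a product of members of `𝒴`. -/
def GCls {Γ : Type w} [Group Γ] (S : SemiAct Γ W) (𝒴 : Set 𝒱.Obj) (m : Mon W) : Prop :=
  ∃ L : List (Mot W), (∀ A ∈ L, GoodFactor S A) ∧ ∃ y, YCls W 𝒴 y ∧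
    m = (L.map Mot.m).prod * y

lemma GCls.mul {Γ : Type w} [Group Γ] {S : SemiAct Γ W} {𝒴 : Set 𝒱.Obj} (m n : Mon W)
    (hm : GCls S 𝒴 m) (hn : GCls S 𝒴 n) : GCls S 𝒴 (m * n) := by
  obtain ⟨L, hL, y, hy, rfl⟩ := hm
  obtain ⟨L', hL', y', hy', rfl⟩ := hn
  refine ⟨L ++ L', ?_, y * y', hy.mul hy', ?_⟩
  · intro A hA
    rcases List.mem_append.1 hA with h | h
    · exact hL A h
    · exact hL' A h
  · rw [List.map_append, List.prod_append, mul_mul_mul_comm]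

lemma GCls.mnum {Γ : Type w} [Group Γ] {S : SemiAct Γ W} {𝒴 : Set 𝒱.Obj}
    (h𝒴 : ∀ Y, IsProductOf 𝒴 Y → HomEqNum W Y) (m : Mon W) (hm : GCls S 𝒴 m) : MNum m := by
  obtain ⟨L, hL, y, hy, rfl⟩ := hm
  exact mnum_of_orbits S L (fun A hA => (hL A hA).1) (fun A hA => (hL A hA).2) y
    (fun g => hy.fixed _) (fun n => (hy.pow n).mnum h𝒴)

/-- **The conjecture D for products.** -/
theorem homEqNum_products {Γ : Type w} [Group Γ] (S : SemiAct Γ W) {𝒬 𝒴 : Set 𝒱.Obj}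
    (h𝒬 : ∀ P ∈ 𝒬, Splits S P) (h𝒴 : ∀ Y, IsProductOf 𝒴 Y → HomEqNum W Y) {Z : 𝒱.Obj}
    (hZ : IsProductOf (𝒬 ∪ 𝒴) Z) : HomEqNum W Z := by
  refine HasDecomp.homEqNum (P := GCls S 𝒴) (GCls.mnum h𝒴) ?_
  induction hZ with
  | base hX =>
    rename_i X
    rcases hX with hX | hX
    · obtain ⟨ι, hι, e, h1, h2⟩ := h𝒬 X hX
      refine ⟨ι, hι, e, h1, fun i => ?_⟩
      obtain ⟨hm, hi, hg⟩ := h2 i
      refine ⟨hm, hi, [Mot.mk X (e i) hm hi], ?_, 1, Or.inl rfl, ?_⟩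
      · intro A hA
        rw [List.mem_singleton] at hA
        rw [hA]
        exact hg
      · rw [List.map_singleton, List.prod_singleton, mul_one]
    · refine ⟨Unit, inferInstance, fun _ => LinearMap.id, ?_, fun _ => ⟨KOp.id X, rfl, [], ?_,
        (whole W X).m, Or.inr ⟨X, IsProductOf.base hX, rfl⟩, ?_⟩⟩
      · rw [Finset.univ_unique, Finset.sum_singleton]
      · intro A hA
        exact absurd hA List.not_mem_nil
      · rw [List.map_nil, List.prod_nil, one_mul]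
        rfl
  | prod _ _ h1 h2 => exact h1.prod GCls.mul h2

end Pool.Agent.R908
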