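import Pool.Agent.R908.SpecC

/-!
# Correspondences with rational coefficients, and the projector to the transcendental part
-/

open CategoryTheory AlgebraicGeometry TensorProduct Polynomial

universe u v w w'

namespace Pool.Agent.R908

open Pool.Agent.H914 Pool.Agent.H914.VarClass Pool.Agent.H914.VarClass.Obj
  Pool.Agent.H914.WeilCohomology Pool.Agent.H281R3.HT Pool.Agent.W534

variable {k : Type u} [Field k] {𝒱 : VarClass k} {ops : CycleOps 𝒱}
  {W : WeilCohomology.{u, v} ops} {X Y Z X' Y' : 𝒱.Obj}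

/-- The operators of degree `0` given by algebraic correspondences with rational coefficients. -/
def RatOp (W : WeilCohomology.{u, v} ops) (X Y : 𝒱.Obj) : Set (W.H X →ₗ[W.K] W.H Y) :=
  {φ | ∃ z, (X.prod Y).IsCyc X.dim z ∧ W.corr (W.cl _ z) = φ}

lemma RatOp.mem {φ : W.H X →ₗ[W.K] W.H Y} (h : φ ∈ RatOp W X Y) : φ ∈ KOp W X Y 0 := by
  obtain ⟨z, hz, rfl⟩ := h
  exact KOp.gen (by rw [add_zero]) hz

lemma RatOp.zero : (0 : W.H X →ₗ[W.K] W.H Y) ∈ RatOp W X Y :=
  ⟨0, SmVar.IsCyc.zero _ _, by rw [map_zero, corr_zero]⟩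

lemma RatOp.add {φ ψ : W.H X →ₗ[W.K] W.H Y} (h : φ ∈ RatOp W X Y) (h' : ψ ∈ RatOp W X Y) :
    φ + ψ ∈ RatOp W X Y := by
  obtain ⟨z, hz, rfl⟩ := h
  obtain ⟨w, hw, rfl⟩ := h'
  exact ⟨z + w, hz.add hw, by rw [map_add, corr_add]⟩

lemma RatOp.smul (q : ℚ) {φ : W.H X →ₗ[W.K] W.H Y} (h : φ ∈ RatOp W X Y) :
    (q : W.K) • φ ∈ RatOp W X Y := by
  obtain ⟨z, hz, rfl⟩ := h
  exact ⟨q • z, hz.smul q, by rw [W.cl_smul, corr_smul]⟩

lemma RatOp.sub {φ ψ : W.H X →ₗ[W.K] W.H Y} (h : φ ∈ RatOp W X Y) (h' : ψ ∈ RatOp W X Y) :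
    φ - ψ ∈ RatOp W X Y := by
  have h1 := RatOp.add h (RatOp.smul (-1) h')
  have h2 : φ - ψ = φ + ((-1 : ℚ) : W.K) • ψ := by
    apply LinearMap.ext
    intro x
    simp [sub_eq_add_neg]
  rw [h2]
  exact h1

lemma RatOp.sum {ι : Type*} (s : Finset ι) {φ : ι → (W.H X →ₗ[W.K] W.H Y)}
    (h : ∀ i ∈ s, φ i ∈ RatOp W X Y) : ∑ i ∈ s, φ i ∈ RatOp W X Y := by
  classical
  induction s using Finset.induction_on with
  | empty => rw [Finset.sum_empty]; exact RatOp.zero
  | insert a s ha ih =>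
    rw [Finset.sum_insert ha]
    exact RatOp.add (h a (Finset.mem_insert_self _ _))
      (ih (fun i hi => h i (Finset.mem_insert_of_mem hi)))

lemma RatOp.comp {ψ : W.H Y →ₗ[W.K] W.H Z} {φ : W.H X →ₗ[W.K] W.H Y} (hψ : ψ ∈ RatOp W Y Z)
    (hφ : φ ∈ RatOp W X Y) : ψ ∘ₗ φ ∈ RatOp W X Z := by
  obtain ⟨w, hw, rfl⟩ := hψ
  obtain ⟨z, hz, rfl⟩ := hφ
  rw [← corr_compCyc W hw]
  exact ⟨_, compCyc_mem hz hw rfl, rfl⟩

lemma RatOp.id (X : 𝒱.Obj) : LinearMap.id ∈ RatOp W X X := by
  obtain ⟨q, hq, z, hz, hY⟩ | ⟨hd, _⟩ := Realized.one (ops := ops) (X := X)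
  · have h1 : (LinearMap.id : W.H X →ₗ[W.K] W.H X) = W.corr (W.cl _ z) := hY W
    obtain rfl : q = X.dim := by omega
    rw [h1]
    exact ⟨z, hz, rfl⟩
  · omega

lemma RatOp.pow {φ : Module.End W.K (W.H X)} (h : φ ∈ RatOp W X X) (n : ℕ) :
    φ ^ n ∈ RatOp W X X := by
  induction n with
  | zero => rw [pow_zero]; exact RatOp.id X
  | succ n ih => rw [pow_succ]; exact RatOp.comp ih h

lemma RatOp.ext {φ : W.H X →ₗ[W.K] W.H X'} {ψ : W.H Y →ₗ[W.K] W.H Y'}
    (hφ : φ ∈ RatOp W X X') (hψ : ψ ∈ RatOp W Y Y') :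
    extHom W φ ψ ∈ RatOp W (X.prod Y) (X'.prod Y') := by
  obtain ⟨z, hz, rfl⟩ := hφ
  obtain ⟨w, hw, rfl⟩ := hψ
  refine ⟨_, ops.mul_mem (ops.pull_mem (r1 X Y X' Y') hz) (ops.pull_mem (r2 X Y X' Y') hw), ?_⟩
  apply ext_kunneth_lin
  intro a b
  rw [extHom_tmul, W.cl_mul, W.cl_pull, W.cl_pull, corr_ext' _ (W.cl_mem hw)]

lemma RatOp.mapHom (f : X ⟶ Y) : (W.map f).toLinearMap ∈ RatOp W Y X := by
  have h1 : (Y.prod X).IsCyc Y.dim (ops.push (Obj.lift f (𝟙 X)) X.V.fundCycle) :=
    ops.push_mem _ X.V.fundCycle_mem (by rw [dim_prod]; omega)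
  refine ⟨_, h1, ?_⟩
  apply LinearMap.ext
  intro a
  have e1 : Obj.lift f (𝟙 X) ≫ fst Y X = f := Obj.lift_fst _ _
  have e2 : Obj.lift f (𝟙 X) ≫ snd Y X = 𝟙 X := Obj.lift_snd _ _
  rw [corr_apply, W.cl_push, W.cl_fund, ← W.push_mul, ← W.push_comp, ← W.map_comp, e1, e2,
    W.push_id, one_mul]
  rfl

lemma RatOp.rk {i j : ℕ} {x y : W.H X} (hx : x ∈ algClasses W X i) (hy : y ∈ algClasses W X j)
    (hij : i + j = X.dim) : (bil W X y).smulRight x ∈ RatOp W X X := by
  obtain ⟨z, hz, rfl⟩ := hx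
  obtain ⟨z', hz', rfl⟩ := hy
  have h1 := ops.pull_mem (swap X X)
    (ops.mul_mem (ops.pull_mem (fst X X) hz) (ops.pull_mem (snd X X) hz'))
  rw [hij] at h1
  refine ⟨_, h1, ?_⟩
  rw [W.cl_pull, W.cl_mul, W.cl_pull, W.cl_pull, corr_swap_tmul (W.cl_mem hz) (W.cl_mem hz')]
  rfl

/-- Operators with rational coefficients map classes of cycles to classes of cycles. -/
lemma RatOp.alg {φ : W.H X →ₗ[W.K] W.H Y} (hφ : φ ∈ RatOp W X Y) {j : ℕ} {x : W.H X}
    (hx : x ∈ algClasses W X j) : φ x ∈ algClasses W Y j := by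
  obtain ⟨z, hz, rfl⟩ := hφ
  obtain ⟨w, hw, rfl⟩ := hx
  refine ⟨ops.push (snd X Y) (ops.mul z (ops.pull (fst X Y) w)), ?_, ?_⟩
  · apply ops.push_mem _ (ops.mul_mem hz (ops.pull_mem _ hw))
    rw [dim_prod]
    omega
  · rw [W.cl_push, W.cl_mul, W.cl_pull, corr_apply]

section T

variable (hDX : HomEqNum W X)
include hDX

/-- Dual bases of algebraic classes with rational coefficients. -/
lemma exists_rat_dual {j : ℕ} (hj : j ≤ X.dim) :
    ∃ (n : ℕ) (s c : Fin n → W.H X), (∀ i, s i ∈ algClasses W X j) ∧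
      (∀ i, c i ∈ algClasses W X (X.dim - j)) ∧
      (∀ x ∈ Submodule.span W.K (algClasses W X j), ∑ i, bil W X (c i) x • s i = x) ∧
      (∀ y ∈ Submodule.span W.K (algClasses W X (X.dim - j)),
        ∑ i, bil W X (s i) y • c i = y) := by
  classical
  obtain ⟨S, hSA, hSspan, hSli⟩ := exists_linearIndependent W.K (algClasses W X j)
  have hfin : S.Finite := hSli.setFinite
  have := hfin.fintype
  have hSc : ∀ i : S, (i : W.H X) ∈ algClasses W X j := fun i => hSA i.2
  set M : Submodule ℚ (S → ℚ) :=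
    { carrier := {f | ∃ y ∈ algClasses W X (X.dim - j), ∀ s : S, bil W X y s = (f s : W.K)}
      zero_mem' := ⟨0, H914.alg_zero _, fun s => by
        rw [map_zero, LinearMap.zero_apply, Pi.zero_apply, Rat.cast_zero]⟩
      add_mem' := by
        rintro f g ⟨y, hy, h⟩ ⟨y', hy', h'⟩
        exact ⟨y + y', alg_add hy hy', fun s => by
          rw [map_add, LinearMap.add_apply, h, h', Pi.add_apply, Rat.cast_add]⟩
      smul_mem' := by
        rintro q f ⟨y, hy, h⟩
        exact ⟨(q : W.K) • y, alg_smul q hy, fun s => by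
          rw [map_smul, LinearMap.smul_apply, h, Pi.smul_apply, smul_eq_mul, smul_eq_mul,
            Rat.cast_mul]⟩ } with hM
  have hMtop : M = ⊤ := by
    by_contra hne
    obtain ⟨f, hf0, hf⟩ := Submodule.exists_le_ker_of_lt_top M (lt_top_iff_ne_top.2 hne)
    set q : S → ℚ := fun s => f (Pi.single s 1) with hq
    have hfv : ∀ v : S → ℚ, f v = ∑ s, v s * q s := by
      intro v
      conv_lhs => rw [pi_eq_sum_univ' v]
      rw [map_sum]
      apply Finset.sum_congr rfl
      intro s _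
      rw [map_smul, smul_eq_mul]
    have hx : ∑ s : S, (q s : W.K) • (s : W.H X) = 0 := by
      apply eq_zero_of_D hDX hj (alg_sum Finset.univ _ q (fun i _ => hSc i))
      intro d hd
      choose g hg using fun s : S => alg_rat hd (hSc s)
      have h1 : f g = 0 := hf ⟨d, hd, hg⟩
      rw [hfv] at h1
      rw [Finset.sum_mul, map_sum]
      have h5 : ∀ s : S, W.tr X ((q s : W.K) • (s : W.H X) * d) = ((g s * q s : ℚ) : W.K) := by
        intro s
        have h6 := hg s
        rw [bil_apply] at h6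
        rw [smul_mul_assoc, map_smul, ← alg_even_comm hd, h6, smul_eq_mul, Rat.cast_mul, mul_comm]
      rw [Finset.sum_congr rfl (fun s _ => h5 s), ← Rat.cast_sum, h1, Rat.cast_zero]
    apply hf0
    apply LinearMap.ext
    intro v
    rw [hfv, LinearMap.zero_apply]
    apply Finset.sum_eq_zero
    intro s _
    have h7 := Fintype.linearIndependent_iff.1 hSli _ hx s
    have h8 : q s = 0 := by exact_mod_cast h7
    rw [h8, mul_zero]
  have hc : ∀ s : S, ∃ y ∈ algClasses W X (X.dim - j), ∀ t : S,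
      bil W X y t = (((Pi.single s 1 : S → ℚ) t : ℚ) : W.K) := by
    intro s
    have h1 : (Pi.single s 1 : S → ℚ) ∈ M := by rw [hMtop]; exact Submodule.mem_top
    exact h1
  choose c hcA hcs using hc
  have hct : ∀ s t : S, bil W X (c s) t = if s = t then 1 else 0 := by
    intro s t
    rw [hcs, Pi.single_apply]
    split_ifs with h1 h2 h2
    · exact Rat.cast_one
    · exact absurd h1.symm h2
    · exact absurd h2.symm h1
    · exact Rat.cast_zero
  have hx1 : ∀ x ∈ Submodule.span W.K (algClasses W X j), ∑ s : S, bil W X (c s) x • (s : W.H X) =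
      x := by
    intro x hx
    have hx' : x ∈ Submodule.span W.K (Set.range (fun s : S => (s : W.H X))) := by
      rw [Subtype.range_coe_subtype, Set.ofPred_mem_eq, hSspan]
      exact hx
    obtain ⟨r, rfl⟩ := (Submodule.mem_span_range_iff_exists_fun W.K).1 hx'
    apply Finset.sum_congr rfl
    intro s _
    congr 1
    rw [map_sum, Finset.sum_eq_single s]
    · rw [map_smul, hct, if_pos rfl, smul_eq_mul, mul_one]
    · intro t _ hts
      rw [map_smul, hct, if_neg (Ne.symm hts), smul_zero]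
    · intro h; exact absurd (Finset.mem_univ _) h
  have hsw : ∀ (s : S) (y : W.H X), bil W X s y = bil W X y s := fun s y =>
    bil_even (alg_gr (hSc s)) y
  have hy1 : ∀ y ∈ Submodule.span W.K (algClasses W X (X.dim - j)),
      ∑ s : S, bil W X (s : W.H X) y • c s = y := by
    intro y hy
    rw [← sub_eq_zero]
    apply span_nondeg hDX (show X.dim - j ≤ X.dim by omega)
      (Submodule.sub_mem _ (Submodule.sum_mem _ (fun s _ => Submodule.smul_mem _ _
        (Submodule.subset_span (hcA s)))) hy)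
    intro z hz
    rw [show X.dim - (X.dim - j) = j by omega] at hz
    have key : ∀ s : S, bil W X (s : W.H X)
        (∑ s : S, bil W X (s : W.H X) y • c s - y) = 0 := by
      intro s
      rw [map_sub, map_sum, Finset.sum_eq_single s, sub_eq_zero]
      · rw [map_smul, hsw s (c s), hct, if_pos rfl, smul_eq_mul, mul_one]
      · intro t _ hts
        rw [map_smul, hsw s (c t), hct, if_neg hts, smul_zero]
      · intro h; exact absurd (Finset.mem_univ _) h
    have hz' : z ∈ Submodule.span W.K (algClasses W X j) := Submodule.subset_span hz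
    rw [← hx1 z hz', map_sum, LinearMap.sum_apply]
    apply Finset.sum_eq_zero
    intro s _
    rw [map_smul, LinearMap.smul_apply, key, smul_zero]
  set ε := Fintype.equivFin S with hε
  refine ⟨Fintype.card S, fun i => (ε.symm i : W.H X), fun i => c (ε.symm i),
    fun i => hSc _, fun i => hcA _, ?_, ?_⟩
  · intro x hx
    rw [Equiv.sum_comp ε.symm (fun s : S => bil W X (c s) x • (s : W.H X))]
    exact hx1 x hx
  · intro y hy
    rw [Equiv.sum_comp ε.symm (fun s : S => bil W X (s : W.H X) y • c s)]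
    exact hy1 y hy

/-- The projector to the transcendental part is an algebraic correspondence with rational
coefficients. -/
theorem exists_ratT : ∃ (eA : Fin (X.dim + 1) → (W.H X →ₗ[W.K] W.H X))
    (eT : W.H X →ₗ[W.K] W.H X),
    (∀ j, eA j ∈ RatOp W X X) ∧ (∀ j, eA j ∘ₗ eA j = eA j) ∧
    (∀ j, ∃ (n : ℕ) (c c' : Fin n → W.H X) (l l' : ℕ), (∀ i, c i ∈ algClasses W X l) ∧
      (∀ i, c' i ∈ algClasses W X l') ∧ ∀ x, eA j x = ∑ i, W.tr X (c i * x) • c' i) ∧
    eT ∈ RatOp W X X ∧ (∑ j, eA j + eT = LinearMap.id) ∧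
    (∀ z, eT z ∈ transcendental W X) ∧ (∀ t ∈ transcendental W X, eT t = t) ∧
    (∀ l, ∀ a ∈ algClasses W X l, eT a = 0) := by
  classical
  set T := transcendental W X with hT
  have hgr : ∀ j, Submodule.span W.K (algClasses W X j) ≤ W.gr X (2 * j) :=
    fun j => Submodule.span_le.2 (fun c hc => alg_gr hc)
  choose n s c hs hc h1 h2 using fun j : Fin (X.dim + 1) =>
    exists_rat_dual hDX (show (j : ℕ) ≤ X.dim by omega)
  set eA : Fin (X.dim + 1) → (W.H X →ₗ[W.K] W.H X) := fun j =>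
    ∑ i, (bil W X (c j i)).smulRight (s j i) with heA
  have heAa : ∀ j z, eA j z = ∑ i, bil W X (c j i) z • s j i := by
    intro j z
    rw [heA]
    beta_reduce
    rw [LinearMap.sum_apply]
    rfl
  have heAm : ∀ j, eA j ∈ RatOp W X X := by
    intro j
    rw [heA]
    refine RatOp.sum _ (fun i _ => ?_)
    exact RatOp.rk (hs j i) (hc j i) (by have := j.2; omega)
  have heAx : ∀ (j : Fin (X.dim + 1)) z, eA j z ∈ Submodule.span W.K (algClasses W X (j : ℕ)) := by
    intro j z
    rw [heAa]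
    exact Submodule.sum_mem _ (fun i _ => Submodule.smul_mem _ _
      (Submodule.subset_span (hs j i)))
  have heAb : ∀ j : Fin (X.dim + 1), ∀ x ∈ Submodule.span W.K (algClasses W X (j : ℕ)),
      eA j x = x := by
    intro j x hx
    rw [heAa]
    exact h1 j x hx
  have heAT : ∀ j, ∀ t ∈ T, eA j t = 0 := by
    intro j t ht
    rw [heAa]
    apply Finset.sum_eq_zero
    intro i _
    rw [bil_even (alg_gr (hc j i)), mem_trans.1 ht _ _ (hc j i), zero_smul]
  have hbil : ∀ j : Fin (X.dim + 1), ∀ y ∈ Submodule.span W.K (algClasses W X (X.dim - j)), ∀ z,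
      bil W X y (eA j z) = bil W X y z := by
    intro j y hy z
    rw [heAa, map_sum]
    conv_rhs => rw [← h2 j y hy]
    rw [map_sum, LinearMap.sum_apply]
    apply Finset.sum_congr rfl
    intro i _
    rw [map_smul, map_smul, LinearMap.smul_apply, smul_eq_mul, smul_eq_mul, mul_comm,
      bil_even (alg_gr (hs j i)) y]
  have hcompl : ∀ z, z - ∑ j, eA j z ∈ T := by
    intro z
    rw [mem_trans]
    intro l b hb
    by_cases hl : l ≤ X.dim
    · have hb' : b ∈ Submodule.span W.K (algClasses W X (X.dim - (X.dim - l))) := by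
        rw [show X.dim - (X.dim - l) = l by omega]
        exact Submodule.subset_span hb
      have h3 := hbil ⟨X.dim - l, by omega⟩ b hb' z
      rw [bil_apply, ← alg_even_comm hb, ← bil_apply, map_sub, map_sum,
        Finset.sum_eq_single (⟨X.dim - l, by omega⟩ : Fin (X.dim + 1)), h3, sub_self]
      · intro j _ hj
        apply bil_eq_zero (alg_gr hb) (hgr _ (heAx j z))
        intro h2
        apply hj
        apply Fin.ext
        change (j : ℕ) = X.dim - l
        omega
      · intro h0; exact absurd (Finset.mem_univ _) h0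
    · have h3 := alg_gr hb
      rw [W.gr_eq_bot X _ (by omega), Submodule.mem_bot] at h3
      rw [h3, map_zero]
  refine ⟨eA, LinearMap.id - ∑ j, eA j, heAm, ?_, ?_,
    RatOp.sub (RatOp.id X) (RatOp.sum _ (fun j _ => heAm j)), ?_, ?_, ?_, ?_⟩
  · intro j
    apply LinearMap.ext
    intro z
    rw [LinearMap.comp_apply, heAb j _ (heAx j z)]
  · intro j
    exact ⟨n j, c j, s j, _, _, hc j, hs j, heAa j⟩
  · rw [add_sub_cancel]
  · intro z
    rw [LinearMap.sub_apply, LinearMap.sum_apply, LinearMap.id_apply]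
    exact hcompl z
  · intro t ht
    rw [LinearMap.sub_apply, LinearMap.sum_apply, LinearMap.id_apply,
      Finset.sum_eq_zero (fun j _ => heAT j t ht), sub_zero]
  · intro l a ha
    rw [LinearMap.sub_apply, LinearMap.sum_apply, LinearMap.id_apply]
    by_cases hl : l ≤ X.dim
    · rw [Finset.sum_eq_single (⟨l, by omega⟩ : Fin (X.dim + 1)),
        heAb _ a (Submodule.subset_span ha), sub_self]
      · intro j _ hj
        rw [heAa]
        apply Finset.sum_eq_zero
        intro i _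
        rw [bil_eq_zero (alg_gr (hc j i)) (alg_gr ha), zero_smul]
        intro h
        apply hj
        apply Fin.ext
        change (j : ℕ) = l
        have := j.2
        omega
      · intro h0; exact absurd (Finset.mem_univ _) h0
    · have h3 := alg_gr ha
      rw [W.gr_eq_bot X _ (by omega), Submodule.mem_bot] at h3
      rw [h3]
      simp only [map_zero, Finset.sum_const_zero, sub_zero]

end T

end Pool.Agent.R908
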