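import Pool.Agent.R908.RatA

/-!
# Complex conjugation of algebraic numbers, and projectors to eigenspaces
-/

open Polynomial

universe u v w w'

namespace Pool.Agent.R908

section Conj

variable {L : Type*} [Field L] [CharZero L]

/-- The algebraic numbers `c` and `c'` are complex conjugate for the embedding `ι`. -/
def CConj (ι : algebraicClosure ℚ L →ₐ[ℚ] ℂ) (c c' : L) : Prop :=
  ∃ x y : algebraicClosure ℚ L, (x : L) = c ∧ (y : L) = c' ∧ ι y = starRingEnd ℂ (ι x)

lemma exists_emb (L : Type*) [Field L] [CharZero L] :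
    Nonempty (algebraicClosure ℚ L →ₐ[ℚ] ℂ) := by
  have : Algebra.IsAlgebraic ℚ (algebraicClosure ℚ L) := inferInstance
  exact ⟨IsAlgClosed.lift⟩

variable {ι : algebraicClosure ℚ L →ₐ[ℚ] ℂ} {c c' d d' : L}

lemma CConj.add (h : CConj ι c c') (h' : CConj ι d d') : CConj ι (c + d) (c' + d') := by
  obtain ⟨x, y, rfl, rfl, hxy⟩ := h
  obtain ⟨z, t, rfl, rfl, hzt⟩ := h'
  exact ⟨x + z, y + t, rfl, rfl, by rw [map_add, map_add, map_add, hxy, hzt]⟩

lemma CConj.mul (h : CConj ι c c') (h' : CConj ι d d') : CConj ι (c * d) (c' * d') := by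
  obtain ⟨x, y, rfl, rfl, hxy⟩ := h
  obtain ⟨z, t, rfl, rfl, hzt⟩ := h'
  exact ⟨x * z, y * t, rfl, rfl, by rw [map_mul, map_mul, map_mul, hxy, hzt]⟩

lemma CConj.inv (h : CConj ι c c') : CConj ι c⁻¹ c'⁻¹ := by
  obtain ⟨x, y, rfl, rfl, hxy⟩ := h
  exact ⟨x⁻¹, y⁻¹, rfl, rfl, by rw [map_inv₀, map_inv₀, map_inv₀, hxy]⟩

lemma CConj.rat (q : ℚ) : CConj ι (q : L) (q : L) := by
  refine ⟨algebraMap ℚ _ q, algebraMap ℚ _ q, ?_, ?_, ?_⟩
  · exact (IsScalarTower.algebraMap_apply ℚ (algebraicClosure ℚ L) L q).symm.trans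
      (eq_ratCast _ q)
  · exact (IsScalarTower.algebraMap_apply ℚ (algebraicClosure ℚ L) L q).symm.trans
      (eq_ratCast _ q)
  · rw [AlgHom.commutes, eq_ratCast, map_ratCast]

lemma CConj.algMap (q : ℚ) : CConj ι (algebraMap ℚ L q) (algebraMap ℚ L q) := by
  rw [eq_ratCast]
  exact CConj.rat q

lemma CConj.one : CConj ι (1 : L) 1 := by
  have h := CConj.rat (ι := ι) 1
  rwa [Rat.cast_one] at h

lemma CConj.zero : CConj ι (0 : L) 0 := by
  have h := CConj.rat (ι := ι) 0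
  rwa [Rat.cast_zero] at h

lemma CConj.pow (h : CConj ι c c') (n : ℕ) : CConj ι (c ^ n) (c' ^ n) := by
  induction n with
  | zero => rw [pow_zero, pow_zero]; exact CConj.one
  | succ n ih => rw [pow_succ, pow_succ]; exact ih.mul h

lemma CConj.sum {κ : Type*} (s : Finset κ) {f g : κ → L} (h : ∀ i ∈ s, CConj ι (f i) (g i)) :
    CConj ι (∑ i ∈ s, f i) (∑ i ∈ s, g i) := by
  classical
  induction s using Finset.induction_on with
  | empty => rw [Finset.sum_empty, Finset.sum_empty]; exact CConj.zero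
  | insert a s ha ih =>
    rw [Finset.sum_insert ha, Finset.sum_insert ha]
    exact (h a (Finset.mem_insert_self _ _)).add
      (ih (fun i hi => h i (Finset.mem_insert_of_mem hi)))

lemma CConj.right_zero (h : CConj ι c c') (h0 : c = 0) : c' = 0 := by
  obtain ⟨x, y, rfl, rfl, hxy⟩ := h
  have hx : x = 0 := Subtype.ext h0
  rw [hx, map_zero, map_zero] at hxy
  have hy : y = 0 := (map_eq_zero ι).1 hxy
  rw [hy]
  rfl

lemma CConj.symm (h : CConj ι c c') : CConj ι c' c := by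
  obtain ⟨x, y, rfl, rfl, hxy⟩ := h
  exact ⟨y, x, rfl, rfl, by rw [hxy, Complex.conj_conj]⟩

lemma CConj.left_zero (h : CConj ι c c') (h0 : c' = 0) : c = 0 := h.symm.right_zero h0

lemma CConj.aeval (h : CConj ι c c') (P : ℚ[X]) :
    CConj ι (Polynomial.aeval c P) (Polynomial.aeval c' P) := by
  rw [aeval_eq_sum_range, aeval_eq_sum_range]
  apply CConj.sum
  intro i _
  rw [Algebra.smul_def, Algebra.smul_def]
  exact (CConj.algMap _).mul (h.pow i)

/-- The complex conjugate of a Weil number. -/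
lemma cConj_of_weil {P : ℚ[X]} {q : ℕ} (hP : P ≠ 0)
    (hW : ∀ z : ℂ, Polynomial.aeval z P = 0 → ‖z‖ ^ 2 = (q : ℝ)) {b : L}
    (hb : Polynomial.aeval b P = 0) : CConj ι b ((q : L) / b) := by
  have hal : IsAlgebraic ℚ b := ⟨P, hP, hb⟩
  obtain ⟨x, hx⟩ : ∃ x : algebraicClosure ℚ L, (x : L) = b :=
    ⟨⟨b, mem_algebraicClosure_iff.2 hal⟩, rfl⟩
  have h1 : Polynomial.aeval x P = 0 := by
    have h2 : (((Polynomial.aeval x P : algebraicClosure ℚ L)) : L) = Polynomial.aeval (x : L) P :=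
      (Polynomial.aeval_algebraMap_apply L x P).symm
    rw [hx, hb] at h2
    exact Subtype.ext h2
  have h3 : Polynomial.aeval (ι x) P = 0 := by
    rw [Polynomial.aeval_algHom_apply, h1, map_zero]
  have h4 := hW _ h3
  have h5 : ι x * starRingEnd ℂ (ι x) = (q : ℂ) := by
    rw [Complex.mul_conj, Complex.normSq_eq_norm_sq, h4]
    push_cast
    rfl
  refine ⟨x, (q : algebraicClosure ℚ L) / x, hx, ?_, ?_⟩
  · rw [← hx]
    push_cast
    rfl
  · by_cases hx0 : ι x = 0
    · have hx1 : x = 0 := (map_eq_zero ι).1 hx0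
      rw [hx1]
      simp
    · rw [map_div₀, map_natCast, ← h5, mul_comm, mul_div_assoc, div_self hx0, mul_one]

end Conj

section Bas

variable {L : Type*} [Field L] [CharZero L] {ι : algebraicClosure ℚ L →ₐ[ℚ] ℂ}

/-- The coefficients of the projectors to eigenspaces. -/
lemma cConj_bas {P : ℚ[X]} {R : Finset L} {c0 : L} (hc0 : c0 ≠ 0)
    (hR : P.map (algebraMap ℚ L) = C c0 * ∏ j ∈ R, (X - C j)) {b b' : L}
    (hb : b ∈ R) (hb' : b' ∈ R) (h : CConj ι b b') (n : ℕ) :
    CConj ι ((bas R b).coeff n) ((bas R b').coeff n) := by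
  classical
  set PL := P.map (algebraMap ℚ L) with hPL
  have key : ∀ b ∈ R, bas R b = C ((PL /ₘ (X - C b)).eval b)⁻¹ * (PL /ₘ (X - C b)) := by
    intro b hb
    have h1 : PL = (X - C b) * (C c0 * ∏ j ∈ R.erase b, (X - C j)) := by
      rw [hR, ← Finset.mul_prod_erase R _ hb]
      ring
    have h2 : PL /ₘ (X - C b) = C c0 * ∏ j ∈ R.erase b, (X - C j) := by
      rw [h1]
      exact mul_divByMonic_cancel_left _ (monic_X_sub_C b)
    have h3 : bas R b = C ((∏ j ∈ R.erase b, (b - j)⁻¹) * c0⁻¹) * (PL /ₘ (X - C b)) := by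
      rw [h2, bas, Finset.prod_mul_distrib, C_mul, map_prod]
      have h4 : (C c0⁻¹ * C c0 : L[X]) = 1 := by rw [← C_mul, inv_mul_cancel₀ hc0, C_1]
      calc (∏ j ∈ R.erase b, C (b - j)⁻¹) * ∏ j ∈ R.erase b, (X - C j)
          = (∏ j ∈ R.erase b, C (b - j)⁻¹) * 1 * ∏ j ∈ R.erase b, (X - C j) := by rw [mul_one]
        _ = _ := by rw [← h4]; ring
    have h5 := bas_eval_self R b
    rw [h3, eval_mul, eval_C] at h5
    have h6 : (PL /ₘ (X - C b)).eval b ≠ 0 := by
      intro h0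
      rw [h0, mul_zero] at h5
      exact zero_ne_one h5
    have h7 : (∏ j ∈ R.erase b, (b - j)⁻¹) * c0⁻¹ = ((PL /ₘ (X - C b)).eval b)⁻¹ :=
      eq_inv_of_mul_eq_one_left h5
    rw [h3, h7]
  have hco : ∀ n, CConj ι ((PL /ₘ (X - C b)).coeff n) ((PL /ₘ (X - C b')).coeff n) := by
    intro n
    rw [coeff_divByMonic_X_sub_C, coeff_divByMonic_X_sub_C]
    apply CConj.sum
    intro i _
    rw [hPL, coeff_map]
    exact (h.pow _).mul (CConj.algMap _)
  have hev : CConj ι ((PL /ₘ (X - C b)).eval b) ((PL /ₘ (X - C b')).eval b') := by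
    have hd : ∀ a : L, (PL /ₘ (X - C a)).natDegree = PL.natDegree - 1 := by
      intro a
      rw [natDegree_divByMonic _ (monic_X_sub_C a), natDegree_X_sub_C]
    rw [eval_eq_sum_range, eval_eq_sum_range, hd, hd]
    apply CConj.sum
    intro i _
    exact (hco i).mul (h.pow i)
  rw [key b hb, key b' hb', coeff_C_mul, coeff_C_mul]
  exact hev.inv.mul (hco n)

end Bas

end Pool.Agent.R908
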