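import Pool.Agent.R908.TAbDefs
import Pool.Agent.R908.InjDefs
import Pool.Agent.H914R2.HodgeDefs

/-!
# The injectivity conjecture, and varieties with many correspondences over finite fields: definitions
-/

open CategoryTheory AlgebraicGeometry

universe u v

namespace Pool.Agent.R908

open Pool.Agent.H914 Pool.Agent.H914.VarClass Pool.Agent.H914.VarClass.Obj
  Pool.Agent.H914.WeilCohomology Pool.Agent.W534

variable {k : Type u} [Field k] {𝒱 : VarClass k} {ops : CycleOps 𝒱}

/-- The injectivity conjecture (Tate's conjecture `I`) for `Z`: cycles of the same codimension, the
classes of which are linearly independent over `ℚ`, have linearly independent classes over the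
coefficient field `K`. In other words, the map from `K ⊗ (cycles modulo homological equivalence)` to
the cohomology is injective. -/
def InjectivityConj (W : WeilCohomology.{u, v} ops) (Z : 𝒱.Obj) : Prop :=
  ∀ j, IndependenceLifts W.K (W.cl Z) (Z.IsCyc j)

/-- The Frobenius endomorphism of `X` acts on the transcendental cohomology `T(X)` (the orthogonal
complement of all algebraic classes) as follows: it is annihilated by a squarefree polynomial with
rational coefficients all of whose complex roots have absolute value `q ^ (dim X / 2)` (Frobenius is
semisimple, and the Riemann hypothesis holds with weight `dim X`), and the `K`-linear endomorphisms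
of `T(X)` which commute with it are given by algebraic correspondences of degree `0` with coefficients
in `K` (the Tate conjecture for these endomorphisms). Here `q = p ^ e X`. -/
structure IsFrobeniusRich {W : WeilCohomology.{u, v} ops} {p : ℕ} (Φ : FrobSystem W p)
    (X : 𝒱.Obj) : Prop where
  weil : HasWeilPolynomial (frobAll Φ X) (transcendental W X) ((p ^ Φ.e X) ^ X.dim)
  tate : CommutantSpannedOn (frobAll Φ X) (transcendental W X) (cycOps W X)

end Pool.Agent.R908
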