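import Pool.Agent.R908.RatB
import Pool.Agent.R908.TInjDefs

/-!
# The injectivity conjecture and conjugation
-/

open CategoryTheory AlgebraicGeometry TensorProduct Polynomial

universe u v w w'

namespace Pool.Agent.R908

open Pool.Agent.H914 Pool.Agent.H914.VarClass Pool.Agent.H914.VarClass.Obj
  Pool.Agent.H914.WeilCohomology Pool.Agent.H281R3.HT Pool.Agent.W534

variable {k : Type u} [Field k] {𝒱 : VarClass k} {ops : CycleOps 𝒱}
  {W : WeilCohomology.{u, v} ops} {X Y Z X' Y' : 𝒱.Obj}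

/-- Finitely many algebraic classes are rational combinations of algebraic classes which are
linearly independent over `K`. -/
lemma exists_rat_basis (hI : InjectivityConj W Z) {κ : Type*} [Fintype κ] {j : ℕ}
    (y : κ → W.H Z) (hy : ∀ i, y i ∈ algClasses W Z j) :
    ∃ (n : ℕ) (d : Fin n → W.H Z) (r : κ → Fin n → ℚ), LinearIndependent W.K d ∧
      ∀ i, y i = ∑ l, (r i l : W.K) • d l := by
  classical
  let _ : Module ℚ (W.H Z) := Module.compHom (W.H Z) (algebraMap ℚ W.K)
  have hsm : ∀ (q : ℚ) (x : W.H Z), q • x = (q : W.K) • x := fun q x => by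
    change (algebraMap ℚ W.K q) • x = _
    rw [eq_ratCast]
  obtain ⟨S, hSr, hSspan, hSli⟩ := exists_linearIndependent ℚ (Set.range y)
  have hfin : S.Finite := (Set.finite_range y).subset hSr
  have := hfin.fintype
  have hS : ∀ s : S, ∃ z, Z.IsCyc j z ∧ W.cl Z z = s := by
    intro s
    obtain ⟨i, hi⟩ := hSr s.2
    have h1 := hy i
    rw [hi] at h1
    exact h1
  choose z hz hzs using hS
  set ε := Fintype.equivFin S with hε
  have hli : LinearIndependent ℚ (fun i => ((ε.symm i : S) : W.H Z)) :=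
    hSli.comp ε.symm ε.symm.injective
  have h1 := hI j (Fintype.card S) (fun i => z (ε.symm i)) (fun i => hz _) (by
    intro q hq
    apply Fintype.linearIndependent_iff.1 hli q
    rw [← hq, map_sum]
    apply Finset.sum_congr rfl
    intro i _
    rw [W.cl_smul, hzs, hsm])
  have h2 : ∀ i, ∃ r : Fin (Fintype.card S) → ℚ,
      ∑ l, r l • ((ε.symm l : S) : W.H Z) = y i := by
    intro i
    have h3 : y i ∈ Submodule.span ℚ (Set.range (fun l => ((ε.symm l : S) : W.H Z))) := by
      have h4 : Set.range (fun l => ((ε.symm l : S) : W.H Z)) = S := by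
        ext x
        constructor
        · rintro ⟨l, rfl⟩
          exact (ε.symm l).2
        · intro hx
          refine ⟨ε ⟨x, hx⟩, ?_⟩
          change ((ε.symm (ε ⟨x, hx⟩) : S) : W.H Z) = x
          rw [Equiv.symm_apply_apply]
      rw [h4, hSspan]
      exact Submodule.subset_span ⟨i, rfl⟩
    exact (Submodule.mem_span_range_iff_exists_fun ℚ).1 h3
  choose r hr using h2
  refine ⟨Fintype.card S, fun l => ((ε.symm l : S) : W.H Z), r, ?_, ?_⟩
  · have h5 : (fun l => ((ε.symm l : S) : W.H Z)) = fun l => W.cl Z (z (ε.symm l)) := by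
      funext l
      rw [hzs]
    rw [h5]
    exact h1
  · intro i
    rw [← hr i]
    apply Finset.sum_congr rfl
    intro l _
    rw [hsm]

section Base

variable {L : Type v} [Field L] [Algebra W.K L]

/-- Linear independence is preserved by extension of the coefficients. -/
lemma independent_base {V : Type*} [AddCommGroup V] [Module W.K V] {n : ℕ} {d : Fin n → V}
    (hd : LinearIndependent W.K d) (a : Fin n → L)
    (h : ∑ l, a l • ((1 : L) ⊗ₜ[W.K] d l) = 0) : ∀ l, a l = 0 := by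
  intro l
  by_contra hne
  obtain ⟨f, hf⟩ := Module.Projective.exists_dual_eq_one W.K hne
  have h1 : ∑ l, f (a l) • d l = 0 := by
    have h2 := congrArg (coef f) h
    rw [map_zero, map_sum] at h2
    rw [← h2]
    apply Finset.sum_congr rfl
    intro l _
    rw [TensorProduct.smul_tmul', smul_eq_mul, mul_one, coef_tmul]
  have h3 := Fintype.linearIndependent_iff.1 hd _ h1 l
  rw [hf] at h3
  exact one_ne_zero h3

variable [CharZero L]

/-- The two operators are combinations of the same correspondences with rational coefficients,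
with conjugate coefficients. -/
def Pair (W : WeilCohomology.{u, v} ops) {L : Type v} [Field L] [Algebra W.K L] [CharZero L]
    (ι : algebraicClosure ℚ L →ₐ[ℚ] ℂ) (X : 𝒱.Obj)
    (E E' : (baseW W L).H X →ₗ[(baseW W L).K] (baseW W L).H X) : Prop :=
  ∃ (κ : Type) (_ : Fintype κ) (c c' : κ → L) (ρ : κ → (W.H X →ₗ[W.K] W.H X)),
    (∀ i, CConj ι (c i) (c' i)) ∧ (∀ i, ρ i ∈ RatOp W X X) ∧
    E = ∑ i, (show (baseW W L).K from c i) • upW L (ρ i) ∧
    E' = ∑ i, (show (baseW W L).K from c' i) • upW L (ρ i)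

variable {ι : algebraicClosure ℚ L →ₐ[ℚ] ℂ}

lemma Pair.id (X : 𝒱.Obj) : Pair W ι X LinearMap.id LinearMap.id := by
  have h1 : (LinearMap.id : (baseW W L).H X →ₗ[(baseW W L).K] (baseW W L).H X) =
      upW L (LinearMap.id : W.H X →ₗ[W.K] W.H X) :=
    (LinearMap.baseChange_id (R := W.K) (A := L) (M := W.H X)).symm
  have h2 : (LinearMap.id : (baseW W L).H X →ₗ[(baseW W L).K] (baseW W L).H X) =
      ∑ _i : Unit, (show (baseW W L).K from (1 : L)) •
        upW L (LinearMap.id : W.H X →ₗ[W.K] W.H X) := by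
    rw [Finset.univ_unique, Finset.sum_singleton]
    exact h1.trans (one_smul (baseW W L).K (upW L (LinearMap.id : W.H X →ₗ[W.K] W.H X))).symm
  exact ⟨Unit, inferInstance, fun _ => 1, fun _ => 1, fun _ => LinearMap.id,
    fun _ => CConj.one, fun _ => RatOp.id X, h2, h2⟩

omit [CharZero L] in
lemma ext_upW (φ : W.H X →ₗ[W.K] W.H X') (ψ : W.H Y →ₗ[W.K] W.H Y') :
    extHom (baseW W L) (upW L φ) (upW L ψ) = upW L (extHom W φ ψ) := by
  apply ext_kunneth_lin
  intro (a : L ⊗[W.K] W.H X) (b : L ⊗[W.K] W.H Y)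
  rw [extHom_tmul]
  refine tmul_induction (P := fun a => (baseW W L).map (fst X' Y') (upW L φ a) *
      (baseW W L).map (snd X' Y') (upW L ψ b) = upW L (extHom W φ ψ)
        ((baseW W L).map (fst X Y) a * (baseW W L).map (snd X Y) b)) ?_ ?_ ?_ a
  · have h0 : upW L φ (0 : L ⊗[W.K] W.H X) = 0 := map_zero _
    have h1 : (baseW W L).map (fst X Y) (0 : L ⊗[W.K] W.H X) = 0 := map_zero _
    rw [h0, h1, map_zero, zero_mul, zero_mul, map_zero]
  · intro x y hx hy
    have h0 : upW L φ (x + y : L ⊗[W.K] W.H X) = upW L φ x + upW L φ y := map_add _ _ _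
    have h1 : (baseW W L).map (fst X Y) (x + y : L ⊗[W.K] W.H X) =
      (baseW W L).map (fst X Y) x + (baseW W L).map (fst X Y) y := map_add _ _ _
    rw [h0, h1, map_add, add_mul, add_mul, map_add, hx, hy]
  · intro l a
    refine tmul_induction (P := fun b => (baseW W L).map (fst X' Y') (upW L φ (l ⊗ₜ[W.K] a)) *
      (baseW W L).map (snd X' Y') (upW L ψ b) = upW L (extHom W φ ψ)
        ((baseW W L).map (fst X Y) (l ⊗ₜ[W.K] a) * (baseW W L).map (snd X Y) b)) ?_ ?_ ?_ b
    · have h0 : upW L ψ (0 : L ⊗[W.K] W.H Y) = 0 := map_zero _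
      have h1 : (baseW W L).map (snd X Y) (0 : L ⊗[W.K] W.H Y) = 0 := map_zero _
      rw [h0, h1, map_zero, mul_zero, mul_zero, map_zero]
    · intro x y hx hy
      have h0 : upW L ψ (x + y : L ⊗[W.K] W.H Y) = upW L ψ x + upW L ψ y := map_add _ _ _
      have h1 : (baseW W L).map (snd X Y) (x + y : L ⊗[W.K] W.H Y) =
        (baseW W L).map (snd X Y) x + (baseW W L).map (snd X Y) y := map_add _ _ _
      rw [h0, h1, map_add, mul_add, mul_add, map_add, hx, hy]
    · intro l' b
      have e1 : upW L φ (l ⊗ₜ[W.K] a) = l ⊗ₜ[W.K] φ a := LinearMap.baseChange_tmul _ _ _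
      have e2 : upW L ψ (l' ⊗ₜ[W.K] b) = l' ⊗ₜ[W.K] ψ b := LinearMap.baseChange_tmul _ _ _
      have e3 : ∀ c, upW L (extHom W φ ψ) ((l * l') ⊗ₜ[W.K] c) =
        (l * l') ⊗ₜ[W.K] (extHom W φ ψ c) := fun c => LinearMap.baseChange_tmul _ _ _
      have L1 : (baseW W L).map (fst X' Y') (upW L φ (l ⊗ₜ[W.K] a)) *
          (baseW W L).map (snd X' Y') (upW L ψ (l' ⊗ₜ[W.K] b)) =
          (l * l') ⊗ₜ[W.K] (W.map (fst X' Y') (φ a) * W.map (snd X' Y') (ψ b)) := by
        rw [e1, e2, base_map_tmul, base_map_tmul]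
        exact Algebra.TensorProduct.tmul_mul_tmul _ _ _ _
      have R1 : (baseW W L).map (fst X Y) (l ⊗ₜ[W.K] a) *
          (baseW W L).map (snd X Y) (l' ⊗ₜ[W.K] b) =
          (l * l') ⊗ₜ[W.K] (W.map (fst X Y) a * W.map (snd X Y) b) := by
        rw [base_map_tmul, base_map_tmul]
        exact Algebra.TensorProduct.tmul_mul_tmul _ _ _ _
      refine L1.trans ?_
      rw [← extHom_tmul]
      exact (e3 _).symm.trans (congrArg (fun t => upW L (extHom W φ ψ) t) R1).symm

lemma Pair.ext {E E' : (baseW W L).H X →ₗ[(baseW W L).K] (baseW W L).H X}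
    {F F' : (baseW W L).H Y →ₗ[(baseW W L).K] (baseW W L).H Y} (h : Pair W ι X E E')
    (h' : Pair W ι Y F F') :
    Pair W ι (X.prod Y) (extHom (baseW W L) E F) (extHom (baseW W L) E' F') := by
  obtain ⟨κ, _, c, c', ρ, h1, h2, rfl, rfl⟩ := h
  obtain ⟨κ', _, d, d', τ, h1', h2', rfl, rfl⟩ := h'
  have key : ∀ (c : κ → (baseW W L).K) (d : κ' → (baseW W L).K),
      extHom (baseW W L) (∑ i, c i • upW L (ρ i)) (∑ i, d i • upW L (τ i)) =
        ∑ x : κ × κ', (c x.1 * d x.2) • upW L (extHom W (ρ x.1) (τ x.2)) := by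
    intro c d
    rw [Fintype.sum_prod_type]
    apply ext_kunneth_lin
    intro a b
    rw [extHom_tmul, LinearMap.sum_apply, LinearMap.sum_apply, LinearMap.sum_apply, map_sum,
      map_sum, Finset.sum_mul]
    apply Finset.sum_congr rfl
    intro i _
    rw [LinearMap.sum_apply, Finset.mul_sum]
    apply Finset.sum_congr rfl
    intro j _
    rw [← ext_upW, LinearMap.smul_apply, LinearMap.smul_apply, LinearMap.smul_apply,
      extHom_tmul, map_smul, map_smul, smul_mul_smul_comm]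
  refine ⟨κ × κ', inferInstance, fun x => c x.1 * d x.2, fun x => c' x.1 * d' x.2,
    fun x => extHom W (ρ x.1) (τ x.2), fun x => (h1 _).mul (h1' _),
    fun x => RatOp.ext (h2 _) (h2' _), ?_, ?_⟩
  · exact key _ _
  · exact key _ _

/-- **Transport to the conjugate.** -/
lemma Pair.eq_zero {E E' : (baseW W L).H Z →ₗ[(baseW W L).K] (baseW W L).H Z}
    (h : Pair W ι Z E E') (hI : InjectivityConj W Z) {j : ℕ} {x : W.H Z}
    (hx : x ∈ algClasses W Z j)
    (h0 : E' ((1 : L) ⊗ₜ[W.K] x) = (0 : L ⊗[W.K] W.H Z)) :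
    E ((1 : L) ⊗ₜ[W.K] x) = (0 : L ⊗[W.K] W.H Z) := by
  obtain ⟨κ, _, c, c', ρ, h1, h2, rfl, rfl⟩ := h
  obtain ⟨n, d, r, hd, hr⟩ := exists_rat_basis hI (fun i => ρ i x)
    (fun i => RatOp.alg (h2 i) hx)
  have key : ∀ c : κ → L, (∑ i, (show (baseW W L).K from c i) • upW L (ρ i))
      ((1 : L) ⊗ₜ[W.K] x) = (∑ l, (∑ i, c i * (r i l : L)) • ((1 : L) ⊗ₜ[W.K] d l) :
        L ⊗[W.K] W.H Z) := by
    intro c
    rw [LinearMap.sum_apply]
    have e1 : ∀ i, ((show (baseW W L).K from c i) • upW L (ρ i)) ((1 : L) ⊗ₜ[W.K] x) =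
        (∑ l, (c i * (r i l : L)) • ((1 : L) ⊗ₜ[W.K] d l) : L ⊗[W.K] W.H Z) := by
      intro i
      have e2 : ((show (baseW W L).K from c i) • upW L (ρ i)) ((1 : L) ⊗ₜ[W.K] x) =
          (c i • ((1 : L) ⊗ₜ[W.K] (ρ i x)) : L ⊗[W.K] W.H Z) := by
        have e3 : upW L (ρ i) ((1 : L) ⊗ₜ[W.K] x) = (1 : L) ⊗ₜ[W.K] (ρ i x) :=
          LinearMap.baseChange_tmul _ _ _
        change (show (baseW W L).K from c i) • (upW L (ρ i) ((1 : L) ⊗ₜ[W.K] x)) = _
        rw [e3]
        rfl
      rw [e2, hr i, TensorProduct.tmul_sum, Finset.smul_sum]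
      apply Finset.sum_congr rfl
      intro l _
      rw [TensorProduct.tmul_smul, ← algebraMap_smul L ((r i l : ℚ) : W.K), smul_smul,
        map_ratCast]
    have e4 : ∑ i, ((show (baseW W L).K from c i) • upW L (ρ i)) ((1 : L) ⊗ₜ[W.K] x) =
        (∑ i, ∑ l, (c i * (r i l : L)) • ((1 : L) ⊗ₜ[W.K] d l) : L ⊗[W.K] W.H Z) :=
      Finset.sum_congr rfl (fun i _ => e1 i)
    refine e4.trans ?_
    rw [Finset.sum_comm]
    apply Finset.sum_congr rfl
    intro l _
    rw [Finset.sum_smul]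
  have h3 : ∀ l, ∑ i, c' i * (r i l : L) = 0 := independent_base hd _ ((key c').symm.trans h0)
  refine (key c).trans ?_
  apply Finset.sum_eq_zero
  intro l _
  have h4 : CConj ι (∑ i, c i * (r i l : L)) (∑ i, c' i * (r i l : L)) :=
    CConj.sum _ (fun i _ => (h1 i).mul (CConj.rat _))
  rw [h4.left_zero (h3 l), zero_smul]
  rfl

end Base

end Pool.Agent.R908
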