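import Pool.Agent.R908.RatD

/-!
# Words and their conjugates
-/

open CategoryTheory AlgebraicGeometry TensorProduct Polynomial

universe u v w w'

namespace Pool.Agent.R908

open Pool.Agent.H914 Pool.Agent.H914.VarClass Pool.Agent.H914.VarClass.Obj
  Pool.Agent.H914.WeilCohomology Pool.Agent.H281R3.HT Pool.Agent.W534

variable {k : Type u} [Field k] {𝒱 : VarClass k} {ops : CycleOps 𝒱}
  {W : WeilCohomology.{u, v} ops} {p : ℕ} {Φ : FrobSystem W p} {X Y Z : 𝒱.Obj}

section Num

variable {L : Type v} [Field L] [Algebra W.K L]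

/-- The trace form on extended classes. -/
lemma tr_one_tmul (x y : W.H Z) : (baseW W L).tr Z
    ((show (baseW W L).H Z from (1 : L) ⊗ₜ[W.K] x) *
      (show (baseW W L).H Z from (1 : L) ⊗ₜ[W.K] y)) = algebraMap W.K L (W.tr Z (x * y)) := by
  have h1 : (((1 : L) ⊗ₜ[W.K] x) * ((1 : L) ⊗ₜ[W.K] y) : L ⊗[W.K] W.H Z) =
      (1 : L) ⊗ₜ[W.K] (x * y) := by
    rw [Algebra.TensorProduct.tmul_mul_tmul, mul_one]
  have h2 : formBase L (W.tr Z) ((1 : L) ⊗ₜ[W.K] (x * y)) =
      1 * algebraMap W.K L (W.tr Z (x * y)) := formBase_tmul _ _ _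
  rw [one_mul] at h2
  rw [← h2, ← h1]
  rfl

lemma numTriv_up {x : W.H Z} (hx : NumTriv W Z x) :
    NumTriv (baseW W L) Z (show (baseW W L).H Z from (1 : L) ⊗ₜ[W.K] x) := by
  intro j g hg
  induction hg using Submodule.span_induction with
  | mem g hg =>
    obtain ⟨l, hl, z, hz, rfl⟩ := hg
    have h1 : W.tr Z (x * W.cl Z z) = 0 :=
      hx l _ (Submodule.subset_span ⟨l, rfl, z, hz, rfl⟩)
    have h2 := tr_one_tmul (L := L) x (W.cl Z z)
    rw [h1, map_zero] at h2
    exact h2
  | zero => rw [mul_zero, map_zero]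
  | add a b _ _ ha hb => rw [mul_add, map_add, ha, hb, add_zero]
  | smul c a _ ha => rw [mul_smul_comm, map_smul, ha, smul_zero]

variable [CharZero L]

/-- A numerically trivial combination of classes of cycles, with a non-zero image under an operator,
gives a numerically trivial class of a cycle with this property. -/
lemma exists_rat_num {j : ℤ} {x : (baseW W L).H Z} (hx : x ∈ spanCycles (baseW W L) Z j)
    (hn : NumTriv (baseW W L) Z x) {F : (baseW W L).H Z →ₗ[(baseW W L).K] (baseW W L).H Z}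
    (hF : F x ≠ 0) : ∃ l : ℕ, ∃ y ∈ algClasses W Z l, NumTriv W Z y ∧
      F ((1 : L) ⊗ₜ[W.K] y) ≠ 0 := by
  classical
  by_cases hj : 0 ≤ j
  swap
  · exfalso
    have h1 : spanCycles (baseW W L) Z j = ⊥ := by
      rw [eq_bot_iff]
      refine Submodule.span_le.2 ?_
      rintro y ⟨l, hl, -⟩
      omega
    rw [h1, Submodule.mem_bot] at hx
    rw [hx, map_zero] at hF
    exact hF rfl
  obtain ⟨l, rfl⟩ : ∃ l : ℕ, (l : ℤ) = j := ⟨j.toNat, Int.toNat_of_nonneg hj⟩
  have hx1 : ∃ (n : ℕ) (a : Fin n → L) (c : Fin n → W.H Z), (∀ i, c i ∈ algClasses W Z l) ∧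
      x = (∑ i, a i • ((1 : L) ⊗ₜ[W.K] c i) : L ⊗[W.K] W.H Z) := by
    obtain ⟨n, f, g, hg⟩ := Submodule.mem_span_set'.1 hx
    have h2 : ∀ i, ∃ c ∈ algClasses W Z l, (g i : (baseW W L).H Z) = (1 : L) ⊗ₜ[W.K] c := by
      intro i
      obtain ⟨l', hl', z, hz, h3⟩ := (g i).2
      obtain rfl : l' = l := by exact_mod_cast hl'
      exact ⟨W.cl Z z, ⟨z, hz, rfl⟩, h3.symm⟩
    choose c hc hgc using h2
    refine ⟨n, f, c, hc, ?_⟩
    rw [← hg]
    apply Finset.sum_congr rfl
    intro i _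
    rw [hgc]
    rfl
  obtain ⟨n, a, c, hc, hxa⟩ := hx1
  set b := Module.Basis.ofVectorSpace ℚ L with hb
  set q : Fin n → _ → ℚ := fun i β => b.repr (a i) β with hq
  set s := Finset.univ.biUnion (fun i => (b.repr (a i)).support) with hs
  set uu : _ → W.H Z := fun β => ∑ i, ((q i β : ℚ) : W.K) • c i with huu
  have ha : ∀ i, a i = ∑ β ∈ s, (q i β : L) * b β := by
    intro i
    conv_lhs => rw [← b.linearCombination_repr (a i), Finsupp.linearCombination_apply,
      Finsupp.sum]
    rw [Finset.sum_subset (show (b.repr (a i)).support ⊆ s from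
      Finset.subset_biUnion_of_mem (fun i => (b.repr (a i)).support) (Finset.mem_univ i))]
    · apply Finset.sum_congr rfl
      intro β _
      rw [Algebra.smul_def, eq_ratCast]
    · intro β _ hβ
      rw [Finsupp.notMem_support_iff.1 hβ, zero_smul]
  have hxu : x = (∑ β ∈ s, b β • ((1 : L) ⊗ₜ[W.K] uu β) : L ⊗[W.K] W.H Z) := by
    rw [hxa]
    have e1 : ∀ β, b β • ((1 : L) ⊗ₜ[W.K] uu β) =
        (∑ i, ((q i β : L) * b β) • ((1 : L) ⊗ₜ[W.K] c i) : L ⊗[W.K] W.H Z) := by
      intro β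
      rw [huu]
      beta_reduce
      rw [TensorProduct.tmul_sum, Finset.smul_sum]
      apply Finset.sum_congr rfl
      intro i _
      rw [TensorProduct.tmul_smul, ← algebraMap_smul L ((q i β : ℚ) : W.K), smul_smul,
        map_ratCast, mul_comm]
    rw [Finset.sum_congr rfl (fun β _ => e1 β), Finset.sum_comm]
    apply Finset.sum_congr rfl
    intro i _
    rw [← Finset.sum_smul, ← ha]
  have huA : ∀ β, uu β ∈ algClasses W Z l := fun β => alg_sum Finset.univ _ _ (fun i _ => hc i)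
  have huN : ∀ β, NumTriv W Z (uu β) := by
    intro β j' g hg
    induction hg using Submodule.span_induction with
    | mem g hg =>
      obtain ⟨l', hl', z, hz, rfl⟩ := hg
      choose m hm using fun i => alg_rat (hc i) (show W.cl Z z ∈ algClasses W Z l' from ⟨z, hz, rfl⟩)
      have h1 := hn l' ((1 : L) ⊗ₜ[W.K] (W.cl Z z))
        (Submodule.subset_span ⟨l', rfl, z, hz, rfl⟩)
      have h2 : ∑ i, a i * (m i : L) = 0 := by
        have h3 : (baseW W L).tr Z (x * (show (baseW W L).H Z from (1 : L) ⊗ₜ[W.K] (W.cl Z z))) =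
            formBase L (W.tr Z) ((∑ i, a i • ((1 : L) ⊗ₜ[W.K] c i)) *
              ((1 : L) ⊗ₜ[W.K] (W.cl Z z))) := by
          rw [hxa]
          rfl
        have h3' : formBase L (W.tr Z) ((∑ i, a i • ((1 : L) ⊗ₜ[W.K] c i)) *
              ((1 : L) ⊗ₜ[W.K] (W.cl Z z))) = 0 := h3.symm.trans h1
        rw [← h3', Finset.sum_mul, map_sum]
        apply Finset.sum_congr rfl
        intro i _
        rw [smul_mul_assoc, Algebra.TensorProduct.tmul_mul_tmul, one_mul, map_smul,
          formBase_tmul, smul_eq_mul, one_mul]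
        have h4 := hm i
        rw [bil_apply] at h4
        rw [h4, map_ratCast]
      have h5 : ∑ i, q i β * m i = 0 := by
        have h6 := congrArg (fun t => b.repr t β) h2
        beta_reduce at h6
        rw [map_sum, map_zero, Finsupp.zero_apply, Finsupp.finsetSum_apply] at h6
        rw [← h6]
        apply Finset.sum_congr rfl
        intro i _
        have h7 : a i * (m i : L) = m i • a i := by
          rw [Algebra.smul_def, eq_ratCast, mul_comm]
        rw [h7, map_smul, Finsupp.smul_apply, smul_eq_mul, mul_comm]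
      rw [huu]
      beta_reduce
      rw [Finset.sum_mul, map_sum]
      have h8 : ∀ i, W.tr Z (((q i β : ℚ) : W.K) • c i * W.cl Z z) = ((q i β * m i : ℚ) : W.K) := by
        intro i
        have h4 := hm i
        rw [bil_apply] at h4
        rw [smul_mul_assoc, map_smul, h4, smul_eq_mul, Rat.cast_mul]
      rw [Finset.sum_congr rfl (fun i _ => h8 i), ← Rat.cast_sum, h5, Rat.cast_zero]
    | zero => rw [mul_zero, map_zero]
    | add a b _ _ ha hb => rw [mul_add, map_add, ha, hb, add_zero]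
    | smul c a _ ha => rw [mul_smul_comm, map_smul, ha, smul_zero]
  by_contra hcon
  push Not at hcon
  apply hF
  have h9 : x = ∑ β ∈ s, (show (baseW W L).K from b β) •
      (show (baseW W L).H Z from (1 : L) ⊗ₜ[W.K] uu β) := hxu
  rw [h9, map_sum]
  apply Finset.sum_eq_zero
  intro β _
  rw [map_smul]
  have h10 : F (show (baseW W L).H Z from (1 : L) ⊗ₜ[W.K] uu β) = 0 :=
    hcon l (uu β) (huA β) (huN β)
  rw [h10, smul_zero]

end Num

section Twin

variable {L : Type v} [Field L] [Algebra W.K L] [CharZero L]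
  {ι : algebraicClosure ℚ L →ₐ[ℚ] ℂ}

/-- Conjugate direct factors. -/
def Twin (W : WeilCohomology.{u, v} ops) {L : Type v} [Field L] [Algebra W.K L] [CharZero L]
    (ι : algebraicClosure ℚ L →ₐ[ℚ] ℂ) (T T' : Mot (baseW W L)) : Prop :=
  ∃ (Z : 𝒱.Obj) (E E' : (baseW W L).H Z →ₗ[(baseW W L).K] (baseW W L).H Z)
    (m : E ∈ KOp (baseW W L) Z Z 0) (m' : E' ∈ KOp (baseW W L) Z Z 0)
    (i : E ∘ₗ E = E) (i' : E' ∘ₗ E' = E'), T = ⟨Z, E, m, i⟩ ∧ T' = ⟨Z, E', m', i'⟩ ∧
      Pair W ι Z E E'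

lemma Twin.tensor {T T' S S' : Mot (baseW W L)} (h : Twin W ι T T') (h' : Twin W ι S S') :
    Twin W ι (T.tensor S) (T'.tensor S') := by
  obtain ⟨Z, E, E', m, m', i, i', rfl, rfl, hp⟩ := h
  obtain ⟨Y, F, F', n, n', j, j', rfl, rfl, hq⟩ := h'
  exact ⟨Z.prod Y, _, _, _, _, _, _, rfl, rfl, Pair.ext hp hq⟩

/-- **If `T` has a numerically trivial class which is not zero, then so does its conjugate.** -/
lemma Twin.num {T T' : Mot (baseW W L)} (h : Twin W ι T T') (hI : InjectivityConj W T.X)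
    (hT' : T'.Num) : T.Num := by
  obtain ⟨Z, E, E', m, m', i, i', rfl, rfl, hp⟩ := h
  intro j x hx hn
  by_contra hne
  obtain ⟨l, y, hy, hyn, hy0⟩ := exists_rat_num hx hn hne
  apply hy0
  refine hp.eq_zero hI hy ?_
  exact hT' l _ (one_tmul_span (alg_mem_span hy)) (numTriv_up hyn)

lemma Twin.whole (Y : 𝒱.Obj) : Twin W ι (whole (baseW W L) Y) (R908.whole (baseW W L) Y) :=
  ⟨Y, _, _, _, _, _, _, rfl, rfl, Pair.id Y⟩

/-- Whole products of members of `𝒴`, and the unit. -/
def WholeY (W : WeilCohomology.{u, v} ops) (𝒴 : Set 𝒱.Obj) (y : Mon W) : Prop :=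
  y = 1 ∨ ∃ Y : 𝒱.Obj, IsProductOf 𝒴 Y ∧ y = (whole W Y).m

variable {𝒴 : Set 𝒱.Obj}

lemma WholeY.mul {W : WeilCohomology.{u, v} ops} {y z : Mon W} (hy : WholeY W 𝒴 y)
    (hz : WholeY W 𝒴 z) : WholeY W 𝒴 (y * z) := by
  rcases hy with rfl | ⟨Y, hY, rfl⟩
  · rwa [one_mul]
  rcases hz with rfl | ⟨Z, hZ, rfl⟩
  · rw [mul_one]; exact Or.inr ⟨Y, hY, rfl⟩
  · exact Or.inr ⟨Y.prod Z, IsProductOf.prod hY hZ, by rw [← Mot.m_tensor, whole_tensor]⟩

lemma WholeY.mnum {W : WeilCohomology.{u, v} ops}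
    (h𝒴 : ∀ Y, IsProductOf 𝒴 Y → HomEqNum W Y) {y : Mon W} (hy : WholeY W 𝒴 y) : MNum y := by
  rcases hy with rfl | ⟨Y, hY, rfl⟩
  · exact mnum_one
  · exact mnum_m.2 (num_of_homEqNum (B := whole W Y) (h𝒴 _ hY))

/-- Products of letters. -/
lemma exists_twin_word {Λ : Type*} (f g : Λ → Mot (baseW W L)) (S : Set 𝒱.Obj) (hS : 𝒴 ⊆ S)
    {y : Mon (baseW W L)} (hy : WholeY (baseW W L) 𝒴 y) : ∀ l : List Λ,
    (∀ x ∈ l, Twin W ι (f x) (g x) ∧ (f x).X ∈ S) →
    (l = [] ∧ y = 1) ∨ ∃ T T' : Mot (baseW W L), Twin W ι T T' ∧ IsProductOf S T.X ∧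
      T.m = (l.map (fun x => (f x).m)).prod * y ∧ T'.m = (l.map (fun x => (g x).m)).prod * y := by
  have hmono : ∀ Y, IsProductOf 𝒴 Y → IsProductOf S Y := by
    intro Y hY
    induction hY with
    | base hX => exact IsProductOf.base (hS hX)
    | prod _ _ h1 h2 => exact IsProductOf.prod h1 h2
  intro l
  induction l with
  | nil =>
    intro _
    rcases hy with rfl | ⟨Y, hY, rfl⟩
    · exact Or.inl ⟨rfl, rfl⟩
    · refine Or.inr ⟨whole _ Y, whole _ Y, Twin.whole Y, hmono Y hY, ?_, ?_⟩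
      · rw [List.map_nil, List.prod_nil, one_mul]
      · rw [List.map_nil, List.prod_nil, one_mul]
  | cons x l ih =>
    intro hl
    obtain ⟨hx, hxS⟩ := hl x List.mem_cons_self
    right
    rcases ih (fun x hx => hl x (List.mem_cons_of_mem _ hx)) with ⟨rfl, rfl⟩ | ⟨T, T', h1, h2, h3, h4⟩
    · refine ⟨f x, g x, hx, IsProductOf.base hxS, ?_, ?_⟩
      · rw [List.map_cons, List.map_nil, List.prod_cons, List.prod_nil, mul_one, mul_one]
      · rw [List.map_cons, List.map_nil, List.prod_cons, List.prod_nil, mul_one, mul_one]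
    · refine ⟨(f x).tensor T, (g x).tensor T', hx.tensor h1,
        IsProductOf.prod (IsProductOf.base hxS) h2, ?_, ?_⟩
      · rw [Mot.m_tensor, h3, List.map_cons, List.prod_cons, mul_assoc]
      · rw [Mot.m_tensor, h4, List.map_cons, List.prod_cons, mul_assoc]

/-- **Products of letters with algebraic duals.** -/
theorem mnum_word {Λ : Type*} (f g : Λ → Mot (baseW W L)) (S : Set 𝒱.Obj) (hS : 𝒴 ⊆ S)
    (hI : ∀ Z, IsProductOf S Z → InjectivityConj W Z)
    (h𝒴 : ∀ Y, IsProductOf 𝒴 Y → HomEqNum (baseW W L) Y)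
    {y : Mon (baseW W L)} (hy : WholeY (baseW W L) 𝒴 y) (l : List Λ)
    (hl : ∀ x ∈ l, Twin W ι (f x) (g x) ∧ (f x).X ∈ S) (hc : ∀ x ∈ l, (f x).Contr (g x)) :
    MNum ((l.map (fun x => (f x).m)).prod * y) := by
  rcases exists_twin_word f g S hS hy l hl with ⟨rfl, rfl⟩ | ⟨T, T', h1, h2, h3, h4⟩
  · rw [List.map_nil, List.prod_nil, mul_one]
    exact mnum_one
  · have key : ∀ l : List Λ, (∀ x ∈ l, (f x).Contr (g x)) →
        MNum ((l.map (fun x => (f x).m)).prod * (l.map (fun x => (g x).m)).prod * (y * y)) := by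
      intro l
      induction l with
      | nil =>
        intro _
        rw [List.map_nil, List.map_nil, List.prod_nil, one_mul, one_mul]
        exact WholeY.mnum h𝒴 (hy.mul hy)
      | cons x l ih =>
        intro hl
        have h5 := mnum_contr (hl x List.mem_cons_self)
          (ih (fun x hx => hl x (List.mem_cons_of_mem _ hx)))
        rw [List.map_cons, List.map_cons, List.prod_cons, List.prod_cons]
        have h6 : (f x).m * (l.map (fun x => (f x).m)).prod *
            ((g x).m * (l.map (fun x => (g x).m)).prod) * (y * y) =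
            (f x).m * (g x).m * ((l.map (fun x => (f x).m)).prod *
              (l.map (fun x => (g x).m)).prod * (y * y)) := by
          simp only [mul_assoc, mul_left_comm]
        rw [h6]
        exact h5
    have h5 : MNum (T.m * T'.m) := by
      rw [h3, h4]
      have h6 : (l.map (fun x => (f x).m)).prod * y * ((l.map (fun x => (g x).m)).prod * y) =
          (l.map (fun x => (f x).m)).prod * (l.map (fun x => (g x).m)).prod * (y * y) := by
        simp only [mul_assoc, mul_left_comm]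
      rw [h6]
      exact key l hc
    rw [← h3]
    rcases mnum_of_mul h5 with h | h
    · exact h
    · rw [mnum_m] at h ⊢
      exact h1.num (hI _ h2) h

end Twin

section Letter

variable {L : Type v} [Field L] [Algebra W.K L] [CharZero L]
  {ι : algebraicClosure ℚ L →ₐ[ℚ] ℂ}

/-- Projectors to conjugate eigenspaces. -/
lemma pair_epW {e : W.H X →ₗ[W.K] W.H X} (he : e ∈ RatOp W X X) {P : ℚ[X]} {R : Finset L}
    (hR : IsRoots (P.map (algebraMap ℚ W.K)) R) {b b' : L} (hb : b ∈ R) (hb' : b' ∈ R)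
    (h : CConj ι b b') : Pair W ι X (epW Φ X e R b) (epW Φ X e R b') := by
  obtain ⟨c0, hc0, hP⟩ := hR.2
  rw [Polynomial.map_map] at hP
  have hP' : P.map (algebraMap ℚ L) = C c0 * ∏ j ∈ R, (Polynomial.X - C j) := by
    rw [← hP]
    congr 1
    exact Subsingleton.elim _ _
  set N := max (bas R b).natDegree (bas R b').natDegree with hN
  have key : ∀ b : L, (bas R b).natDegree ≤ N → epW Φ X e R b =
      ∑ i : Fin (N + 1), (show (baseW W L).K from (bas R b).coeff i) •
        upW L (fr Φ X ^ (i : ℕ) * e : Module.End W.K (W.H X)) := by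
    intro b hbN
    have h1 : epW Φ X e R b = ∑ i ∈ Finset.range ((bas R b).natDegree + 1),
        (show (baseW W L).K from (bas R b).coeff i) •
          upW L (fr Φ X ^ i * e : Module.End W.K (W.H X)) :=
      epV_eq (fr Φ X) e R b
    rw [h1, Fin.sum_univ_eq_sum_range (fun i => (show (baseW W L).K from (bas R b).coeff i) •
        upW L (fr Φ X ^ i * e : Module.End W.K (W.H X))) (N + 1)]
    apply Finset.sum_subset
    · intro i hi
      rw [Finset.mem_range] at hi ⊢
      omega
    · intro i _ hi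
      rw [Finset.mem_range, not_lt] at hi
      have h2 : (bas R b).coeff i = 0 := coeff_eq_zero_of_natDegree_lt (by omega)
      have h3 : (show (baseW W L).K from (bas R b).coeff i) = 0 := h2
      rw [h3, zero_smul]
  exact ⟨Fin (N + 1), inferInstance, fun i => (bas R b).coeff i, fun i => (bas R b').coeff i,
    fun i => (fr Φ X ^ (i : ℕ) * e : Module.End W.K (W.H X)),
    fun i => cConj_bas hc0 hP' hb hb' h i,
    fun i => RatOp.comp (RatOp.pow (RatOp.mapHom (Φ.Fr X)) i) he,
    key b (le_max_left _ _), key b' (le_max_right _ _)⟩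

end Letter

end Pool.Agent.R908
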