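import Pool.Agent.R908.SpecC
import Pool.Agent.R908.GenE

/-!
# Products of direct factors, and multiplicative relations between the eigenvalues of Frobenius
-/

open CategoryTheory AlgebraicGeometry TensorProduct Polynomial

universe u v w w'

namespace Pool.Agent.R908

open Pool.Agent.H914 Pool.Agent.H914.VarClass Pool.Agent.H914.VarClass.Obj
  Pool.Agent.H914.WeilCohomology Pool.Agent.H281R3.HT Pool.Agent.W534

variable {k : Type u} [Field k] {𝒱 : VarClass k} {ops : CycleOps 𝒱}
  {W : WeilCohomology.{u, v} ops} {p : ℕ} {Φ : FrobSystem W p}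

/-- A direct factor with the properties of `IsPiece`. -/
structure PieceData (Φ : FrobSystem W p) where
  /-- the variety -/
  V : 𝒱.Obj
  /-- the projector -/
  e : W.H V →ₗ[W.K] W.H V
  /-- the minimal polynomial -/
  P : W.K[X]
  /-- the factor of the duality -/
  c : W.K
  /-- the degree of the duality -/
  δ : ℤ
  /-- the duality -/
  θ : W.H V →ₗ[W.K] W.H V
  h : IsPiece Φ V e P c δ θ

variable {L : Type v} [Field L] [Algebra W.K L] {ι : Type w} (D : ι → PieceData Φ)
  {R : ι → Finset L} (hR : ∀ i, IsRoots (D i).P (R i))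

/-- The direct factors of the eigenspaces. -/
noncomputable def letD (x : ι × L) : Mot (baseW W L) := (D x.1).h.lett (hR x.1) x.2

/-- A product of eigenspaces, of direct factors with algebraic classes, and of generalised
eigenspaces of members of `𝒴`. -/
def WCls (𝒴 : Set 𝒱.Obj) (B : Mot (baseW W L)) : Prop :=
  ∃ (T : List (Mot (baseW W L))) (l : List (ι × L)) (l' : List (Mot (baseW W L) × L)),
    (∀ t ∈ T, t.Alg) ∧ (∀ x ∈ l, x.2 ∈ R x.1) ∧
    (∀ y ∈ l', y.1.X ∈ 𝒴 ∧ aeval y.2 (minpoly W.K (fr Φ y.1.X)) = 0 ∧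
      Typ (baseFrob Φ L) y.1 (Φ.e y.1.X) y.2) ∧
    B.m = (T.map Mot.m).prod * ((l.map (fun x => (letD D hR x).m)).prod *
      (l'.map (fun y => y.1.m)).prod)

variable {D} {hR} {𝒴 : Set 𝒱.Obj}

lemma WCls.tensor (A B : Mot (baseW W L)) (hA : WCls D hR 𝒴 A) (hB : WCls D hR 𝒴 B) :
    WCls D hR 𝒴 (A.tensor B) := by
  obtain ⟨T, l, l', h1, h2, h3, h4⟩ := hA
  obtain ⟨T₂, l₂, l₂', h1', h2', h3', h4'⟩ := hB
  refine ⟨T ++ T₂, l ++ l₂, l' ++ l₂', ?_, ?_, ?_, ?_⟩
  · intro t ht
    rcases List.mem_append.1 ht with h | h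
    · exact h1 t h
    · exact h1' t h
  · intro t ht
    rcases List.mem_append.1 ht with h | h
    · exact h2 t h
    · exact h2' t h
  · intro t ht
    rcases List.mem_append.1 ht with h | h
    · exact h3 t h
    · exact h3' t h
  · rw [Mot.m_tensor, h4, h4']
    simp only [List.map_append, List.prod_append]
    simp only [mul_assoc, mul_left_comm]

lemma WCls.alg {B : Mot (baseW W L)} (h : B.Alg) : WCls D hR 𝒴 B := by
  refine ⟨[B], [], [], ?_, ?_, ?_, ?_⟩
  · intro t ht
    rw [List.mem_singleton] at ht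
    rw [ht]
    exact h
  · intro t ht; exact absurd ht List.not_mem_nil
  · intro t ht; exact absurd ht List.not_mem_nil
  · simp only [List.map_nil, List.prod_nil, List.map_cons, List.prod_cons, mul_one]

lemma WCls.letter {i : ι} {b : L} (hb : b ∈ R i) : WCls D hR 𝒴 (letD D hR (i, b)) := by
  refine ⟨[], [(i, b)], [], ?_, ?_, ?_, ?_⟩
  · intro t ht; exact absurd ht List.not_mem_nil
  · intro t ht
    rw [List.mem_singleton] at ht
    rw [ht]
    exact hb
  · intro t ht; exact absurd ht List.not_mem_nil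
  · simp only [List.map_nil, List.prod_nil, List.map_cons, List.prod_cons, mul_one, one_mul]

lemma WCls.other {B : Mot (baseW W L)} {b : L} (h1 : B.X ∈ 𝒴)
    (h2 : aeval b (minpoly W.K (fr Φ B.X)) = 0)
    (h3 : Typ (baseFrob Φ L) B (Φ.e B.X) b) : WCls D hR 𝒴 B := by
  refine ⟨[], [], [(B, b)], ?_, ?_, ?_, ?_⟩
  · intro t ht; exact absurd ht List.not_mem_nil
  · intro t ht; exact absurd ht List.not_mem_nil
  · intro t ht
    rw [List.mem_singleton] at ht
    rw [ht]
    exact ⟨h1, h2, h3⟩
  · simp only [List.map_nil, List.prod_nil, List.map_cons, List.prod_cons, mul_one, one_mul]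

/-- Direct factors of products of members of `𝒴`. -/
def YSub (W : WeilCohomology.{u, v} ops) (𝒴 : Set 𝒱.Obj) (y : Mon W) : Prop :=
  y = 1 ∨ ∃ B : Mot W, IsProductOf 𝒴 B.X ∧ y = B.m

lemma YSub.mul {W : WeilCohomology.{u, v} ops} {y z : Mon W} (hy : YSub W 𝒴 y)
    (hz : YSub W 𝒴 z) : YSub W 𝒴 (y * z) := by
  rcases hy with rfl | ⟨Y, hY, rfl⟩
  · rwa [one_mul]
  rcases hz with rfl | ⟨Z, hZ, rfl⟩
  · rw [mul_one]; exact Or.inr ⟨Y, hY, rfl⟩
  · exact Or.inr ⟨Y.tensor Z, IsProductOf.prod hY hZ, (Mot.m_tensor Y Z).symm⟩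

lemma YSub.finprod {W : WeilCohomology.{u, v} ops} {Q : Type*} (s : Finset Q) {f : Q → Mon W}
    (h : ∀ q ∈ s, YSub W 𝒴 (f q)) : YSub W 𝒴 (∏ q ∈ s, f q) := by
  classical
  induction s using Finset.induction_on with
  | empty => rw [Finset.prod_empty]; exact Or.inl rfl
  | insert a s ha ih =>
    rw [Finset.prod_insert ha]
    exact (h a (Finset.mem_insert_self _ _)).mul
      (ih (fun q hq => h q (Finset.mem_insert_of_mem hq)))

lemma YSub.onM {W : WeilCohomology.{u, v} ops} (S : SemiAut W) {y : Mon W} (hy : YSub W 𝒴 y) :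
    YSub W 𝒴 (S.onM y) := by
  rcases hy with rfl | ⟨Y, hY, rfl⟩
  · rw [map_one]; exact Or.inl rfl
  · exact Or.inr ⟨S.mot Y, hY, rfl⟩

lemma num_of_homEqNum {W : WeilCohomology.{u, v} ops} {B : Mot W} (h : HomEqNum W B.X) :
    B.Num := by
  intro j x hx hn
  have h1 : x = 0 := num_whole h j x hx hn
  rw [h1, map_zero]

lemma YSub.mnum {W : WeilCohomology.{u, v} ops}
    (h𝒴 : ∀ Y, IsProductOf 𝒴 Y → HomEqNum W Y) {y : Mon W} (hy : YSub W 𝒴 y) : MNum y := by
  rcases hy with rfl | ⟨Y, hY, rfl⟩
  · exact mnum_one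
  · exact mnum_m.2 (num_of_homEqNum (h𝒴 _ hY))

/-- The relations are balanced. -/
def Balanced (D : ι → PieceData Φ) (L : Type v) [Field L] [Algebra W.K L] (𝒴 : Set 𝒱.Obj) :
    Prop :=
  ∀ (l : List (ι × L)) (l' : List (𝒱.Obj × L)), (∀ x ∈ l, aeval x.2 (D x.1).P = 0) →
    (∀ y ∈ l', y.1 ∈ 𝒴 ∧ aeval y.2 (minpoly W.K (fr Φ y.1)) = 0) →
    FrobRel p (l.map (fun x => (x.2, Φ.e (D x.1).V)) ++ l'.map (fun y => (y.2, Φ.e y.1))) →
    (l.map (fun x => (x.1, minpoly W.K x.2))).Perm
      (l.map (fun x => (x.1, minpoly W.K (algebraMap W.K L (D x.1).c / x.2))))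

/-- **The main step.** -/
theorem WCls.num [Normal W.K L] (hbal : Balanced D L 𝒴)
    (h𝒴 : ∀ Y, IsProductOf 𝒴 Y → HomEqNum (baseW W L) Y) (B : Mot (baseW W L))
    (hB : WCls D hR 𝒴 B) : B.Num := by
  classical
  obtain ⟨T, l, l', hT, hl, hl', hBm⟩ := hB
  rw [← mnum_m, hBm]
  suffices hmain : MNum ((l.map (fun x => (letD D hR x).m)).prod *
      (l'.map (fun y => y.1.m)).prod) by
    clear hBm
    induction T with
    | nil => rw [List.map_nil, List.prod_nil, one_mul]; exact hmain
    | cons t T ih =>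
      rw [List.map_cons, List.prod_cons, mul_assoc]
      exact mnum_alg (hT t List.mem_cons_self)
        (ih (fun t ht => hT t (List.mem_cons_of_mem _ ht)))
  by_cases hrel : FrobRel p (l.map (fun x => (x.2, Φ.e (D x.1).V)) ++
      (l'.map (fun y => (y.1.X, y.2))).map (fun y => (y.2, Φ.e y.1)))
  swap
  · by_contra hcon
    apply hrel
    obtain ⟨fA, hfA⟩ : ∃ fA : ι × L → Mot (baseW W L) × (baseW W L).K × ℕ,
      fA = fun x => (letD D hR x, x.2, Φ.e (D x.1).V) := ⟨_, rfl⟩
    obtain ⟨fB, hfB⟩ : ∃ fB : Mot (baseW W L) × L → Mot (baseW W L) × (baseW W L).K × ℕ,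
      fB = fun y => (y.1, y.2, Φ.e y.1.X) := ⟨_, rfl⟩
    obtain ⟨ll, hll⟩ : ∃ ll : List (Mot (baseW W L) × (baseW W L).K × ℕ),
      ll = l.map fA ++ l'.map fB := ⟨_, rfl⟩
    have h1 : ∀ x ∈ ll, Typ (baseFrob Φ L) x.1 x.2.2 x.2.1 := by
      intro x hx
      rw [hll] at hx
      rcases List.mem_append.1 hx with h | h
      · obtain ⟨y, hy, rfl⟩ := List.mem_map.1 h
        rw [hfA]
        exact (D y.1).h.typ (hR y.1) y.2
      · obtain ⟨y, hy, rfl⟩ := List.mem_map.1 h
        rw [hfB]
        exact (hl' y hy).2.2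
    have h2 : (ll.map (fun x => x.1.m)).prod = (l.map (fun x => (letD D hR x).m)).prod *
        (l'.map (fun y => y.1.m)).prod := by
      rw [hll, List.map_append, List.prod_append, List.map_map, List.map_map, hfA, hfB]
      rfl
    have h3 := frobRel_of_not_mnum h1 (by rw [h2]; exact hcon)
    have h4 : ll.map (fun x => x.2) = l.map (fun x => (x.2, Φ.e (D x.1).V)) ++
        (l'.map (fun y => (y.1.X, y.2))).map (fun y => (y.2, Φ.e y.1)) := by
      rw [hll, List.map_append, List.map_map, List.map_map, List.map_map, hfA, hfB]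
      rfl
    rw [h4] at h3
    exact h3
  · have hperm := hbal l (l'.map (fun y => (y.1.X, y.2)))
      (fun x hx => ((hR x.1).1 x.2).1 (hl x hx))
      (by
        intro y hy
        obtain ⟨z, hz, rfl⟩ := List.mem_map.1 hy
        exact ⟨(hl' z hz).1, (hl' z hz).2.1⟩) hrel
    set star : ι × L → ι × L := fun x => (x.1, algebraMap W.K L (D x.1).c / x.2) with hstar
    set S := galAct W L with hS
    let _ := S.mulAction
    obtain ⟨Q, _, hQ, r, hr⟩ := exists_family (Γ := L ≃ₐ[W.K] L) (M := Mon (baseW W L))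
      {m | ∃ x ∈ l ++ l.map star, m = (letD D hR x).m}
      (by
        have h1 : {m : Mon (baseW W L) | ∃ x ∈ l ++ l.map star, m = (letD D hR x).m} =
            (((l ++ l.map star).map (fun x => (letD D hR x).m)).toFinset :
              Set (Mon (baseW W L))) := by
          ext m
          simp only [Set.mem_ofPred_eq, List.coe_toFinset, List.mem_map]
          exact ⟨fun ⟨A, h, h'⟩ => ⟨A, h, h'.symm⟩, fun ⟨A, h, h'⟩ => ⟨A, h, h'.symm⟩⟩
        rw [h1]
        exact Finset.finite_toSet _)
      (by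
        rintro m ⟨x, hx, rfl⟩
        refine (finite_orbit (letD D hR x)).subset ?_
        rintro _ ⟨g, rfl⟩
        exact ⟨g, rfl⟩)
    set N : Mon (baseW W L) → Mon (baseW W L) := fun m => ∏ q, (S.act (r q)).onM m with hN
    have hNmul : ∀ m n, N (m * n) = N m * N n := by
      intro m n
      rw [hN]
      beta_reduce
      rw [← Finset.prod_mul_distrib]
      apply Finset.prod_congr rfl
      intro q _
      exact map_mul _ _ _
    have hNone : N 1 = 1 := by
      rw [hN]
      beta_reduce
      apply Finset.prod_eq_one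
      intro q _
      exact map_one _
    have hNlist : ∀ (ll : List (ι × L)), N (ll.map (fun x => (letD D hR x).m)).prod =
        (ll.map (fun x => N (letD D hR x).m)).prod := by
      intro ll
      induction ll with
      | nil => rw [List.map_nil, List.map_nil, List.prod_nil, hNone]
      | cons a ll ih =>
        rw [List.map_cons, List.map_cons, List.prod_cons, List.prod_cons, hNmul, ih]
    -- the norm depends only on the minimal polynomial
    have hconj : ∀ x ∈ l ++ l.map star, ∀ b : L, minpoly W.K x.2 = minpoly W.K b →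
        N (letD D hR x).m = N (letD D hR (x.1, b)).m := by
      intro x hx b hb
      obtain ⟨g, hg⟩ := isConjRoot_iff_exists_algEquiv.1
        (show IsConjRoot W.K b x.2 from hb.symm)
      have h1 := hr (letD D hR x).m ⟨x, hx, rfl⟩ g
      have h2 : g • (letD D hR x).m = (letD D hR (x.1, b)).m := by
        change (S.act g).onM (letD D hR x).m = _
        rw [SemiAut.onM_m]
        have h3 : (S.act g).mot (letD D hR x) = letD D hR (x.1, g x.2) :=
          (D x.1).h.conj (hR x.1) g x.2
        rw [h3, ← hg]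
      rw [h2] at h1
      exact h1
    set s : (ι × W.K[X]) → L := fun t => if h : ∃ b : L, minpoly W.K b = t.2 then h.choose else 0
      with hs
    have hsm : ∀ b : L, ∀ i : ι, minpoly W.K (s (i, minpoly W.K b)) = minpoly W.K b := by
      intro b i
      have hex : ∃ b' : L, minpoly W.K b' = (i, minpoly W.K b).2 := ⟨b, rfl⟩
      rw [hs]
      beta_reduce
      rw [dif_pos hex]
      exact hex.choose_spec
    set H : (ι × W.K[X]) → Mon (baseW W L) := fun t => N (letD D hR (t.1, s t)).m with hH
    have hfac : ∀ x ∈ l ++ l.map star, N (letD D hR x).m = H (x.1, minpoly W.K x.2) :=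
      fun x hx => hconj x hx _ (hsm x.2 x.1).symm
    have hNN : N (l.map (fun x => (letD D hR x).m)).prod =
        N ((l.map star).map (fun x => (letD D hR x).m)).prod := by
      rw [hNlist, hNlist]
      have h1 : l.map (fun x => N (letD D hR x).m) =
          (l.map (fun x => (x.1, minpoly W.K x.2))).map H := by
        rw [List.map_map]
        exact List.map_congr_left (fun x hx => hfac x (List.mem_append_left _ hx))
      have h2 : (l.map star).map (fun x => N (letD D hR x).m) =
          (l.map (fun x => (x.1, minpoly W.K (algebraMap W.K L (D x.1).c / x.2)))).map H := by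
        rw [List.map_map, List.map_map]
        apply List.map_congr_left
        intro x hx
        exact hfac (star x) (List.mem_append_right _ (List.mem_map_of_mem hx))
      rw [h1, h2]
      exact (hperm.map H).prod_eq
    have hY : YSub (baseW W L) 𝒴 (l'.map (fun y => y.1.m)).prod := by
      clear hrel hperm hBm
      induction l' with
      | nil => exact Or.inl rfl
      | cons y l' ih =>
        rw [List.map_cons, List.prod_cons]
        exact YSub.mul (Or.inr ⟨y.1, IsProductOf.base (hl' y List.mem_cons_self).1, rfl⟩)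
          (ih (fun z hz => hl' z (List.mem_cons_of_mem _ hz)))
    have hfin := mnum_of_norm S r (l.map (fun x => (letD D hR x, letD D hR (star x))))
      (by
        intro x hx
        obtain ⟨y, hy, rfl⟩ := List.mem_map.1 hx
        exact (D y.1).h.contr (hR y.1) y.2)
      (by
        rw [List.map_map, List.map_map]
        rw [List.map_map] at hNN
        exact hNN)
      (l'.map (fun y => y.1.m)).prod
      (YSub.mnum h𝒴 (YSub.mul (YSub.finprod _ (fun q _ => hY.onM _))
        (YSub.finprod _ (fun q _ => hY.onM _))))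
    rw [List.map_map] at hfin
    exact hfin

end Pool.Agent.R908
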