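import Pool.Agent.R908.Prods

/-!
# Operators factoring through direct factors, and products over families
-/

open CategoryTheory AlgebraicGeometry TensorProduct

universe u v w w'

namespace Pool.Agent.R908

open Pool.Agent.H914 Pool.Agent.H914.VarClass Pool.Agent.H914.VarClass.Obj
  Pool.Agent.H914.WeilCohomology

variable {k : Type u} [Field k] {𝒱 : VarClass k} {ops : CycleOps 𝒱}
  {W : WeilCohomology.{u, v} ops} {X Y Z X' Y' Z' : 𝒱.Obj}

/-- The span of the operators which factor through direct factors with the property `P`. -/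
def RetOp (W : WeilCohomology.{u, v} ops) (P : Mot W → Prop) (X Y : 𝒱.Obj) :
    Submodule W.K (W.H X →ₗ[W.K] W.H Y) :=
  Submodule.span W.K {φ | ∃ (B : Mot W) (δ δ' : ℤ) (u : W.H X →ₗ[W.K] W.H B.X)
    (v : W.H B.X →ₗ[W.K] W.H Y), P B ∧ u ∈ KOp W X B.X δ ∧ v ∈ KOp W B.X Y δ' ∧
      φ = v ∘ₗ B.e ∘ₗ u}

variable {P : Mot W → Prop}

lemma RetOp.gen {B : Mot W} (hB : P B) {δ δ' : ℤ} {u : W.H X →ₗ[W.K] W.H B.X}
    {v : W.H B.X →ₗ[W.K] W.H Y} (hu : u ∈ KOp W X B.X δ) (hv : v ∈ KOp W B.X Y δ') :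
    v ∘ₗ B.e ∘ₗ u ∈ RetOp W P X Y :=
  Submodule.subset_span ⟨B, δ, δ', u, v, hB, hu, hv, rfl⟩

/-- The projector itself. -/
lemma RetOp.self {B : Mot W} (hB : P B) : B.e ∈ RetOp W P B.X B.X := by
  have h1 := RetOp.gen (P := P) hB (KOp.id B.X) (KOp.id B.X)
  rwa [LinearMap.comp_id, LinearMap.id_comp] at h1

lemma RetOp.comp_left {φ : W.H X →ₗ[W.K] W.H Y} (hφ : φ ∈ RetOp W P X Y) {δ : ℤ}
    {ψ : W.H Y →ₗ[W.K] W.H Z} (hψ : ψ ∈ KOp W Y Z δ) : ψ ∘ₗ φ ∈ RetOp W P X Z := by
  induction hφ using Submodule.span_induction with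
  | mem φ hφ =>
    obtain ⟨B, d, d', u, v, hB, hu, hv, rfl⟩ := hφ
    exact RetOp.gen (v := ψ ∘ₗ v) hB hu (KOp.comp hψ hv)
  | zero => rw [LinearMap.comp_zero]; exact Submodule.zero_mem _
  | add x y _ _ hx hy => rw [LinearMap.comp_add]; exact Submodule.add_mem _ hx hy
  | smul c x _ hx => rw [LinearMap.comp_smul]; exact Submodule.smul_mem _ _ hx

lemma RetOp.comp_right {φ : W.H X →ₗ[W.K] W.H Y} (hφ : φ ∈ RetOp W P X Y) {δ : ℤ}
    {ψ : W.H Z →ₗ[W.K] W.H X} (hψ : ψ ∈ KOp W Z X δ) : φ ∘ₗ ψ ∈ RetOp W P Z Y := by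
  induction hφ using Submodule.span_induction with
  | mem φ hφ =>
    obtain ⟨B, d, d', u, v, hB, hu, hv, rfl⟩ := hφ
    exact RetOp.gen (u := u ∘ₗ ψ) hB (KOp.comp hu hψ) hv
  | zero => rw [LinearMap.zero_comp]; exact Submodule.zero_mem _
  | add x y _ _ hx hy => rw [LinearMap.add_comp]; exact Submodule.add_mem _ hx hy
  | smul c x _ hx => rw [LinearMap.smul_comp]; exact Submodule.smul_mem _ _ hx

lemma RetOp.ext (hP : ∀ A B : Mot W, P A → P B → P (A.tensor B)) {φ : W.H X →ₗ[W.K] W.H Y}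
    (hφ : φ ∈ RetOp W P X Y) {ψ : W.H X' →ₗ[W.K] W.H Y'} (hψ : ψ ∈ RetOp W P X' Y') :
    extHom W φ ψ ∈ RetOp W P (X.prod X') (Y.prod Y') := by
  induction hφ using Submodule.span_induction with
  | mem φ hφ =>
    obtain ⟨B, d, d', u, v, hB, hu, hv, rfl⟩ := hφ
    induction hψ using Submodule.span_induction with
    | mem ψ hψ =>
      obtain ⟨C, e, e', u', v', hC, hu', hv', rfl⟩ := hψ
      have h1 : extHom W (v ∘ₗ B.e ∘ₗ u) (v' ∘ₗ C.e ∘ₗ u') =
          extHom W v v' ∘ₗ extHom W B.e C.e ∘ₗ extHom W u u' := by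
        rw [extHom_comp, extHom_comp]
      rw [h1]
      exact RetOp.gen (B := B.tensor C) (hP B C hB hC) (KOp.extHom hu hu') (KOp.extHom hv hv')
    | zero => rw [extHom_zero_right]; exact Submodule.zero_mem _
    | add x y _ _ hx hy => rw [extHom_add_right]; exact Submodule.add_mem _ hx hy
    | smul c x _ hx => rw [extHom_smul_right]; exact Submodule.smul_mem _ _ hx
  | zero => rw [extHom_zero_left]; exact Submodule.zero_mem _
  | add x y _ _ hx hy => rw [extHom_add_left]; exact Submodule.add_mem _ hx hy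
  | smul c x _ hx => rw [extHom_smul_left]; exact Submodule.smul_mem _ _ hx

/-- If the identity factors through direct factors with the property `Num`, then the conjecture `D`
holds. -/
theorem RetOp.homEqNum (hP : ∀ B, P B → B.Num) (hZ : LinearMap.id ∈ RetOp W P Z Z) :
    HomEqNum W Z := by
  intro j hj z hz hnum
  have h3 := numTriv_cl (W := W) hj hz hnum
  have h4 : W.cl Z z ∈ spanCycles W Z j := Submodule.subset_span ⟨j, rfl, z, hz, rfl⟩
  have key : ∀ φ ∈ RetOp W P Z Z, φ (W.cl Z z) = 0 := by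
    intro φ hφ
    induction hφ using Submodule.span_induction with
    | mem φ hφ =>
      obtain ⟨B, d, d', u, v, hB, hu, hv, rfl⟩ := hφ
      have h5 : B.e (u (W.cl Z z)) = 0 :=
        hP B hB _ _ (KOp.map_span hu h4) (NumTriv.op hu h3)
      rw [LinearMap.comp_apply, LinearMap.comp_apply, h5, map_zero]
    | zero => rfl
    | add x y _ _ hx hy => rw [LinearMap.add_apply, hx, hy, add_zero]
    | smul c x _ hx => rw [LinearMap.smul_apply, hx, smul_zero]
  exact key _ hZ

/-- The direct factor `B` is cut out by algebraic classes. -/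
def Mot.Alg (B : Mot W) : Prop :=
  ∃ (N : ℕ) (c c' : Fin N → W.H B.X) (j : Fin N → ℤ), (∀ i, c i ∈ spanCycles W B.X (j i)) ∧
    ∀ x, B.e x = ∑ i, W.tr B.X (c i * x) • c' i

lemma tr_fst (a x : W.H X) (y : W.H Y) :
    W.push (snd X Y) (W.map (fst X Y) a * (W.map (fst X Y) x * W.map (snd X Y) y)) =
      W.tr X (a * x) • y := by
  rw [← mul_assoc, ← map_mul, W.push_snd]

lemma Mot.Alg.num {B : Mot W} (h : B.Alg) : B.Num := by
  obtain ⟨N, c, c', j, hc, he⟩ := h
  intro l x hx hn
  rw [he]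
  apply Finset.sum_eq_zero
  intro i _
  rw [span_comm (hc i), hn _ _ (hc i), zero_smul]

lemma Mot.Alg.num_tensor {B C : Mot W} (h : B.Alg) (hC : C.Num) : (B.tensor C).Num := by
  obtain ⟨N, c, c', j, hc, he⟩ := h
  intro l (x : W.H (B.X.prod C.X)) hx hn
  change extHom W B.e C.e x = 0
  have key : extHom W B.e C.e = ∑ i, LinearMap.mulLeft W.K (W.map (fst B.X C.X) (c' i)) ∘ₗ
      (W.map (snd B.X C.X)).toLinearMap ∘ₗ C.e ∘ₗ W.push (snd B.X C.X) ∘ₗ
        LinearMap.mulLeft W.K (W.map (fst B.X C.X) (c i)) := by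
    apply ext_kunneth_lin
    intro a b
    rw [extHom_tmul, he, map_sum, Finset.sum_mul, LinearMap.sum_apply]
    apply Finset.sum_congr rfl
    intro i _
    rw [LinearMap.comp_apply, LinearMap.comp_apply, LinearMap.comp_apply, LinearMap.comp_apply,
      LinearMap.mulLeft_apply, LinearMap.mulLeft_apply, tr_fst, map_smul,
      AlgHom.toLinearMap_apply, map_smul, map_smul, mul_smul_comm, smul_mul_assoc]
  rw [key, LinearMap.sum_apply]
  apply Finset.sum_eq_zero
  intro i _
  have h1 : C.e (W.push (snd B.X C.X) (W.map (fst B.X C.X) (c i) * x)) = 0 :=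
    hC _ _ (KOp.map_span (KOp.pushHom _) (span_mul (span_map _ (hc i)) hx))
      (NumTriv.op (KOp.pushHom _) (NumTriv.mul_left (span_map _ (hc i)) hn))
  rw [LinearMap.comp_apply, LinearMap.comp_apply, LinearMap.comp_apply, LinearMap.comp_apply,
    LinearMap.mulLeft_apply, LinearMap.mulLeft_apply, h1, map_zero, mul_zero]

lemma mnum_alg {B : Mot W} (h : B.Alg) {m : Mon W} (hm : MNum m) : MNum (B.m * m) := by
  rcases mon_cases m with rfl | ⟨C, rfl⟩
  · rw [mul_one, mnum_m]
    exact h.num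
  · rw [← Mot.m_tensor, mnum_m]
    exact h.num_tensor (mnum_m.1 hm)

/-- **Products over a family of semilinear automorphisms.** -/
theorem mnum_of_norm {Γ : Type w} [Group Γ] (S : SemiAct Γ W) {Q : Type w'} [Fintype Q]
    [Nonempty Q] (r : Q → Γ) (L : List (Mot W × Mot W)) (hC : ∀ x ∈ L, x.1.Contr x.2)
    (hN : ∏ q, (S.act (r q)).onM (L.map (fun x => x.1.m)).prod =
      ∏ q, (S.act (r q)).onM (L.map (fun x => x.2.m)).prod) (y : Mon W)
    (hy : MNum ((∏ q, (S.act (r q)).onM y) * ∏ q, (S.act (r q)).onM y)) :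
    MNum ((L.map (fun x => x.1.m)).prod * y) := by
  classical
  set N : Mon W → Mon W := fun m => ∏ q, (S.act (r q)).onM m with hNdef
  have hNmul : ∀ m n, N (m * n) = N m * N n := by
    intro m n
    rw [hNdef]
    beta_reduce
    rw [← Finset.prod_mul_distrib]
    apply Finset.prod_congr rfl
    intro q _
    exact map_mul _ _ _
  have hNone : N 1 = 1 := by
    rw [hNdef]
    beta_reduce
    apply Finset.prod_eq_one
    intro q _
    exact map_one _
  have key : ∀ L' : List (Mot W × Mot W), (∀ x ∈ L', x.1.Contr x.2) → ∀ z : Mon W, MNum z →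
      MNum (N (L'.map (fun x => x.1.m)).prod * N (L'.map (fun x => x.2.m)).prod * z) := by
    intro L'
    induction L' with
    | nil =>
      intro _ z hz
      rw [List.map_nil, List.map_nil, List.prod_nil, hNone, one_mul, one_mul]
      exact hz
    | cons A L' ih =>
      intro hL' z hz
      rw [List.map_cons, List.map_cons, List.prod_cons, List.prod_cons, hNmul, hNmul]
      have h1 := ih (fun B hB => hL' B (List.mem_cons_of_mem _ hB)) z hz
      have h2 := mnum_prod_contr Finset.univ (fun q => (S.act (r q)).mot A.1)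
        (fun q => (S.act (r q)).mot A.2)
        (fun q _ => (S.act (r q)).contr (hL' A List.mem_cons_self)) h1
      have h3 : (∏ q, ((S.act (r q)).mot A.1).m * ((S.act (r q)).mot A.2).m) =
          N A.1.m * N A.2.m := by
        rw [Finset.prod_mul_distrib]
        rfl
      rw [h3] at h2
      have h5 : N A.1.m * N (L'.map (fun x => x.1.m)).prod *
          (N A.2.m * N (L'.map (fun x => x.2.m)).prod) * z =
          N A.1.m * N A.2.m * (N (L'.map (fun x => x.1.m)).prod *
            N (L'.map (fun x => x.2.m)).prod * z) := by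
        simp only [mul_assoc, mul_left_comm]
      rw [h5]
      exact h2
  have h1 := key L hC _ hy
  have hN' : N (L.map (fun x => x.1.m)).prod = N (L.map (fun x => x.2.m)).prod := hN
  have h2 : N (L.map (fun x => x.1.m)).prod * N (L.map (fun x => x.2.m)).prod *
      ((∏ q, (S.act (r q)).onM y) * ∏ q, (S.act (r q)).onM y) =
        N ((L.map (fun x => x.1.m)).prod * y) * N ((L.map (fun x => x.1.m)).prod * y) := by
    rw [← hN', hNmul]
    change _ * (N y * N y) = _
    simp only [mul_assoc, mul_left_comm]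
  rw [h2] at h1
  have h3 : MNum (N ((L.map (fun x => x.1.m)).prod * y)) := by
    rcases mnum_of_mul h1 with h | h
    · exact h
    · exact h
  obtain ⟨q, -, hq⟩ := mnum_prod Finset.univ_nonempty h3
  exact (S.act (r q)).mnum_of_onM hq

end Pool.Agent.R908
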