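import Pool.Agent.R908.BalDefs
import Pool.Agent.R908.TInjDefs

/-!
# Specialisations, and cycles acting by complex conjugation on the first cohomology: definitions
-/

open CategoryTheory AlgebraicGeometry

universe u v u₀ v₀

namespace Pool.Agent.R908

open Pool.Agent.H914 Pool.Agent.H914.VarClass Pool.Agent.H914.VarClass.Obj
  Pool.Agent.H914.WeilCohomology

/-- There are an additive map `sp : M → M₀` which maps the members of `P j` to members of `P₀ j`, and
an injective additive map `s : V → V₀`, semilinear for an embedding `K → K₀` of the coefficient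
fields, such that `c₀ (sp z) = s (c z)`. -/
def MapsSpecialize {K K₀ : Type*} [Field K] [Field K₀] {V V₀ : Type*} [AddCommGroup V]
    [Module K V] [AddCommGroup V₀] [Module K₀ V₀] {M M₀ : Type*} [AddCommGroup M]
    [AddCommGroup M₀] (c : M →+ V) (c₀ : M₀ →+ V₀) (P : ℕ → M → Prop) (P₀ : ℕ → M₀ → Prop) : Prop :=
  ∃ (τ : K →+* K₀) (s : V →+ V₀) (sp : M →+ M₀), Function.Injective s ∧
    (∀ a x, s (a • x) = τ a • s x) ∧ (∀ j z, P j z → P₀ j (sp z)) ∧ ∀ z, c₀ (sp z) = s (c z)

variable {k : Type u} [Field k] {𝒱 : VarClass k} {ops : CycleOps 𝒱}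

/-- The variety `Z` specialises to `Z₀` (a variety over some other field `k₀`): there is a
specialisation map for cycles, preserving the codimension, which is compatible with an injective
specialisation map for the cohomology, semilinear for an embedding of the coefficient fields. -/
def SpecializesTo {k₀ : Type u₀} [Field k₀] {𝒱₀ : VarClass k₀} {ops₀ : CycleOps 𝒱₀}
    (W : WeilCohomology.{u, v} ops) (W₀ : WeilCohomology.{u₀, v₀} ops₀) (Z : 𝒱.Obj)
    (Z₀ : 𝒱₀.Obj) : Prop :=
  MapsSpecialize (K := W.K) (K₀ := W₀.K) (W.cl Z) (W₀.cl Z₀) Z.IsCyc Z₀.IsCyc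

variable {W : WeilCohomology.{u, v} ops}

/-- There is a cycle with rational coefficients on `A × A`, giving an operator `e` of degree `0` on
`H^1(A)`, such that
* `e` is semisimple on `H^1(A)` with eigenvalues in `K` which are algebraic numbers, and its adjoint for
  the form `tr (x D ^ (dim A - 1) y)` is a rational polynomial `Q(e)` in `e`, with `Q(z)` the complex
  conjugate of `z` for all complex roots `z` of the minimal polynomial of `e`;
* the eigenspaces of `e` in `H^1(A)` are irreducible under the algebraic correspondences of degree `0`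
  and the symmetries in `𝒢`: every subspace of `H^1(A)` stable under these and containing a nonzero
  eigenvector of `e` contains the whole eigenspace. -/
def HasConjugationOne (𝒢 : Set (Symmetry W)) (A : 𝒱.Obj) (D : A.Cycles) : Prop :=
  HasConjugation (W.gr A 1) (trForm (W.tr A) (W.cl A D) (A.dim - 1)) (cycleOperators W A)
    (symmetryOperators 𝒢 A)

end Pool.Agent.R908
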