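import Pool.Agent.R908.BaseC
import Pool.Agent.R908.RelDefs

/-!
# Projectors to eigenspaces
-/

open TensorProduct Polynomial

namespace Pool.Agent.R908

open Pool.Agent.H914

section Eig

variable {L : Type*} [Field L] {U : Type*} [AddCommMonoid U] [Module L U]

/-- The polynomial which is one at `b`, and zero at the other members of `R`. -/
noncomputable def bas (R : Finset L) (b : L) : L[X] :=
  haveI := Classical.decEq L
  ∏ j ∈ R.erase b, (C (b - j)⁻¹ * (X - C j))

lemma bas_eval_self (R : Finset L) (b : L) : (bas R b).eval b = 1 := by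
  classical
  rw [bas, eval_prod]
  apply Finset.prod_eq_one
  intro j hj
  rw [eval_mul, eval_C, eval_sub, eval_X, eval_C]
  apply inv_mul_cancel₀
  rw [sub_ne_zero]
  intro h
  rw [← h] at hj
  exact Finset.notMem_erase _ _ hj

lemma bas_eval_ne {R : Finset L} {b c : L} (hc : c ∈ R) (h : c ≠ b) : (bas R b).eval c = 0 := by
  classical
  rw [bas, eval_prod]
  apply Finset.prod_eq_zero (Finset.mem_erase.2 ⟨h, hc⟩)
  rw [eval_mul, eval_sub, eval_X, eval_C, eval_C, sub_self, mul_zero]

lemma bas_not_mem {R : Finset L} {b : L} (hb : b ∉ R) :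
    ∃ q, bas R b = q * ∏ j ∈ R, (X - C j) := by
  classical
  refine ⟨∏ j ∈ R, C (b - j)⁻¹, ?_⟩
  rw [bas, Finset.erase_eq_of_notMem hb, Finset.prod_mul_distrib]

lemma X_sub_mul_bas (R : Finset L) (b : L) :
    ∃ q, (X - C b) * bas R b = q * ∏ j ∈ R, (X - C j) := by
  classical
  by_cases hb : b ∈ R
  · refine ⟨∏ j ∈ R.erase b, C (b - j)⁻¹, ?_⟩
    rw [bas, Finset.prod_mul_distrib, ← Finset.mul_prod_erase R _ hb]
    ring
  · obtain ⟨q, hq⟩ := bas_not_mem hb
    exact ⟨(X - C b) * q, by rw [hq]; ring⟩

lemma sum_bas {R : Finset L} (hR : R.Nonempty) : ∑ b ∈ R, bas R b = 1 := by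
  classical
  have h1 : ∀ b ∈ R, bas R b = Lagrange.basis R id b := by
    intro b _
    rw [bas, Lagrange.basis]
    apply Finset.prod_congr _ (fun j _ => rfl)
    congr
  rw [Finset.sum_congr rfl h1]
  exact Lagrange.sum_basis (Set.injOn_id _) hR

/-- The projector to the eigenspace. -/
noncomputable def eig (R : Finset L) (F E : Module.End L U) (b : L) : Module.End L U :=
  aeval F (bas R b) * E

variable {R : Finset L} {F E : Module.End L U}

lemma eig_comm_aeval (h : F * E = E * F) (f : L[X]) : E * aeval F f = aeval F f * E := by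
  have h1 : Commute E F := h.symm
  induction f using Polynomial.induction_on' with
  | add f g hf hg => rw [map_add, mul_add, add_mul, hf, hg]
  | monomial n a =>
    rw [aeval_monomial, ← mul_assoc, ← Algebra.commutes, mul_assoc, mul_assoc,
      (h1.pow_right n).eq]

lemma eig_left (h : F * E = E * F) (hE : E * E = E) (b : L) : E * eig R F E b = eig R F E b := by
  rw [eig, ← mul_assoc, eig_comm_aeval h, mul_assoc, hE]

lemma eig_right (hE : E * E = E) (b : L) : eig R F E b * E = eig R F E b := by
  rw [eig, mul_assoc, hE]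

lemma eig_eig (hR : aeval F (∏ j ∈ R, (X - C j)) * E = 0) (b : L) :
    F * eig R F E b = b • eig R F E b := by
  obtain ⟨q, hq⟩ := X_sub_mul_bas R b
  have h1 : X * bas R b = C b * bas R b + q * ∏ j ∈ R, (X - C j) := by
    rw [← hq]
    ring
  have h2 := congrArg (fun f => aeval F f * E) h1
  beta_reduce at h2
  rw [map_mul, map_add, map_mul, map_mul, aeval_X, aeval_C, add_mul, mul_assoc, mul_assoc,
    mul_assoc, hR, mul_zero, add_zero] at h2
  rw [Algebra.smul_def]
  exact h2

lemma eig_eig_apply (hR : aeval F (∏ j ∈ R, (X - C j)) * E = 0) (b : L) (x : U) :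
    F (eig R F E b x) = b • eig R F E b x :=
  congrArg (fun G : Module.End L U => G x) (eig_eig hR b)

lemma aeval_of_eig {x : U} {c : L} (h : F x = c • x) (f : L[X]) : aeval F f x = f.eval c • x := by
  induction f using Polynomial.induction_on' with
  | add f g hf hg => rw [map_add, LinearMap.add_apply, hf, hg, eval_add, add_smul]
  | monomial n a =>
    have h1 : ∀ n : ℕ, (F ^ n) x = c ^ n • x := by
      intro n
      induction n with
      | zero => rw [pow_zero, pow_zero, one_smul]; rfl
      | succ n ih =>
        rw [pow_succ', Module.End.mul_apply, ih, map_smul, h, smul_smul, pow_succ]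
    rw [aeval_monomial, eval_monomial, Module.End.mul_apply, h1, Module.algebraMap_end_apply,
      smul_smul]

lemma eig_mul (h : F * E = E * F) (hE : E * E = E) (hR : aeval F (∏ j ∈ R, (X - C j)) * E = 0)
    (b c : L) : eig R F E b * eig R F E c = (bas R b).eval c • eig R F E c := by
  apply LinearMap.ext
  intro x
  have h1 : E (eig R F E c x) = eig R F E c x :=
    congrArg (fun G : Module.End L U => G x) (eig_left h hE c)
  rw [Module.End.mul_apply, LinearMap.smul_apply, ← aeval_of_eig (eig_eig_apply hR c x)]
  conv_lhs => rw [eig, Module.End.mul_apply, h1]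

lemma eig_idem (h : F * E = E * F) (hE : E * E = E)
    (hR : aeval F (∏ j ∈ R, (X - C j)) * E = 0) (b : L) :
    eig R F E b * eig R F E b = eig R F E b := by
  rw [eig_mul h hE hR, bas_eval_self, one_smul]

lemma eig_not_mem (hR : aeval F (∏ j ∈ R, (X - C j)) * E = 0) {b : L} (hb : b ∉ R) :
    eig R F E b = 0 := by
  obtain ⟨q, hq⟩ := bas_not_mem hb
  rw [eig, hq, map_mul, mul_assoc, hR, mul_zero]

lemma sum_eig (hR : aeval F (∏ j ∈ R, (X - C j)) * E = 0) : ∑ b ∈ R, eig R F E b = E := by
  rcases R.eq_empty_or_nonempty with h | h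
  · subst h
    rw [Finset.prod_empty, map_one, one_mul] at hR
    rw [Finset.sum_empty, hR]
  · have h1 : ∑ b ∈ R, eig R F E b = aeval F (∑ b ∈ R, bas R b) * E := by
      rw [map_sum, Finset.sum_mul]
      rfl
    rw [h1, sum_bas h, map_one, one_mul]

end Eig

section Base

variable {K : Type*} [Field K] {L : Type*} [Field L] [Algebra K L] {V V' : Type*}
  [AddCommGroup V] [Module K V] [AddCommGroup V'] [Module K V']

/-- Conjugation of polynomials in the extension of an endomorphism. -/
lemma sig_aeval (g : L ≃ₐ[K] L) (F : Module.End K V) (f : L[X]) (x : L ⊗[K] V) :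
    sig g (aeval (F.baseChange L : Module.End L (L ⊗[K] V)) f x) =
      aeval (F.baseChange L : Module.End L (L ⊗[K] V)) (f.map (g : L →+* L)) (sig g x) := by
  have hpow : ∀ (n : ℕ) (x : L ⊗[K] V),
      sig g (((F.baseChange L : Module.End L (L ⊗[K] V)) ^ n) x) =
        ((F.baseChange L : Module.End L (L ⊗[K] V)) ^ n) (sig g x) := by
    intro n
    induction n with
    | zero => intro x; rw [pow_zero]; rfl
    | succ n ih =>
      intro x
      rw [pow_succ', Module.End.mul_apply, Module.End.mul_apply, sig_baseChange', ih]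
  induction f using Polynomial.induction_on' with
  | add f p hf hp =>
    rw [map_add, LinearMap.add_apply, map_add, hf, hp, Polynomial.map_add, map_add,
      LinearMap.add_apply]
  | monomial n a =>
    rw [map_monomial, aeval_monomial, aeval_monomial, Module.End.mul_apply, Module.End.mul_apply,
      Module.algebraMap_end_apply, Module.algebraMap_end_apply, sig_smul, hpow]
    rfl

lemma map_bas (g : L ≃ₐ[K] L) {R : Finset L} (hR : ∀ a ∈ R, ∀ h : L ≃ₐ[K] L, h a ∈ R) (b : L) :
    (bas R b).map (g : L →+* L) = bas R (g b) := by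
  classical
  rw [bas, bas, Polynomial.map_prod]
  refine Finset.prod_bij (fun j _ => g j) ?_ ?_ ?_ ?_
  · intro j hj
    rw [Finset.mem_erase] at hj ⊢
    exact ⟨fun h => hj.1 (g.injective h), hR j hj.2 g⟩
  · intro i _ j _ h
    exact g.injective h
  · intro j hj
    rw [Finset.mem_erase] at hj
    refine ⟨g.symm j, ?_, g.apply_symm_apply j⟩
    rw [Finset.mem_erase]
    refine ⟨?_, hR j hj.2 g.symm⟩
    intro h
    apply hj.1
    rw [← h, g.apply_symm_apply]
  · intro j _
    rw [Polynomial.map_mul, map_C, Polynomial.map_sub, map_X, map_C]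
    congr 2
    change g ((b - j)⁻¹) = _
    rw [map_inv₀, map_sub]

/-- The conjugates of the projectors to the eigenspaces. -/
lemma sig_eig (g : L ≃ₐ[K] L) {R : Finset L} (hR : ∀ a ∈ R, ∀ h : L ≃ₐ[K] L, h a ∈ R)
    (F E : Module.End K V) (b : L) (x : L ⊗[K] V) :
    sig g (eig R (F.baseChange L) (E.baseChange L) b x) =
      eig R (F.baseChange L) (E.baseChange L) (g b) (sig g x) := by
  rw [eig, Module.End.mul_apply, sig_aeval, map_bas g hR, sig_baseChange']
  rfl

lemma aeval_baseChange (F : Module.End K V) (f : K[X]) :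
    aeval (F.baseChange L : Module.End L (L ⊗[K] V)) (f.map (algebraMap K L)) =
      ((aeval F f : Module.End K V).baseChange L : Module.End L (L ⊗[K] V)) := by
  have hpow : ∀ n : ℕ, ((F.baseChange L : Module.End L (L ⊗[K] V)) ^ n) =
      ((F ^ n : Module.End K V).baseChange L : Module.End L (L ⊗[K] V)) := by
    intro n
    induction n with
    | zero =>
      rw [pow_zero, pow_zero]
      exact (LinearMap.baseChange_id (R := K) (A := L) (M := V)).symm
    | succ n ih =>
      rw [pow_succ, pow_succ, ih]
      exact (LinearMap.baseChange_comp F (F ^ n : Module.End K V)).symm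
  induction f using Polynomial.induction_on' with
  | add f p hf hp => rw [Polynomial.map_add, map_add, hf, hp, map_add, LinearMap.baseChange_add]
  | monomial n a =>
    rw [map_monomial, aeval_monomial, aeval_monomial, hpow]
    apply LinearMap.ext
    intro x
    rw [Module.End.mul_apply, Module.algebraMap_end_apply]
    induction x using TensorProduct.induction_on with
    | zero => simp only [map_zero, smul_zero]
    | add x y hx hy => simp only [map_add, smul_add, hx, hy]
    | tmul l v =>
      rw [LinearMap.baseChange_tmul, LinearMap.baseChange_tmul, Module.End.mul_apply,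
        Module.algebraMap_end_apply, algebraMap_smul, TensorProduct.tmul_smul]

/-- The projector to the eigenspace in the extension of `V`. -/
noncomputable def epV (F E : V →ₗ[K] V) (R : Finset L) (b : L) : L ⊗[K] V →ₗ[L] L ⊗[K] V :=
  eig R (F.baseChange L) (E.baseChange L) b

/-- The projector as a combination of extensions of operators. -/
lemma epV_eq (F E : Module.End K V) (R : Finset L) (b : L) :
    (epV F E R b : L ⊗[K] V →ₗ[L] L ⊗[K] V) =
      ∑ i ∈ Finset.range ((bas R b).natDegree + 1),
        (bas R b).coeff i • ((F ^ i * E : Module.End K V).baseChange L :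
          L ⊗[K] V →ₗ[L] L ⊗[K] V) := by
  have hpow : ∀ n : ℕ, ((F.baseChange L : Module.End L (L ⊗[K] V)) ^ n) =
      ((F ^ n : Module.End K V).baseChange L : Module.End L (L ⊗[K] V)) := by
    intro n
    induction n with
    | zero =>
      rw [pow_zero, pow_zero]
      exact (LinearMap.baseChange_id (R := K) (A := L) (M := V)).symm
    | succ n ih =>
      rw [pow_succ, pow_succ, ih]
      exact (LinearMap.baseChange_comp F (F ^ n : Module.End K V)).symm
  have h1 : (aeval (F.baseChange L : Module.End L (L ⊗[K] V)) (bas R b)) *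
      (E.baseChange L : Module.End L (L ⊗[K] V)) =
      ∑ i ∈ Finset.range ((bas R b).natDegree + 1),
        (bas R b).coeff i • ((F ^ i * E : Module.End K V).baseChange L :
          Module.End L (L ⊗[K] V)) := by
    rw [aeval_eq_sum_range, Finset.sum_mul]
    apply Finset.sum_congr rfl
    intro i _
    rw [smul_mul_assoc, hpow]
    congr 1
    exact (LinearMap.baseChange_comp E (F ^ i : Module.End K V)).symm
  exact h1

section Piece

variable {F E : V →ₗ[K] V} (hc : F ∘ₗ E = E ∘ₗ F) (hE : E ∘ₗ E = E) {P : K[X]}
  (hP : aeval (F : Module.End K V) P ∘ₗ E = 0) {R : Finset L}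
  (hR : ∃ c : L, c ≠ 0 ∧ P.map (algebraMap K L) = C c * ∏ j ∈ R, (X - C j))

include hc in
lemma epV_comm' : (F.baseChange L : Module.End L (L ⊗[K] V)) * E.baseChange L =
    E.baseChange L * F.baseChange L := by
  change F.baseChange L ∘ₗ E.baseChange L = E.baseChange L ∘ₗ F.baseChange L
  rw [← LinearMap.baseChange_comp, ← LinearMap.baseChange_comp, hc]

include hE in
lemma epV_idem' : (E.baseChange L : Module.End L (L ⊗[K] V)) * E.baseChange L =
    E.baseChange L := by
  change E.baseChange L ∘ₗ E.baseChange L = E.baseChange L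
  rw [← LinearMap.baseChange_comp, hE]

include hP hR in
lemma epV_poly' : aeval (F.baseChange L : Module.End L (L ⊗[K] V)) (∏ j ∈ R, (X - C j)) *
    (E.baseChange L : Module.End L (L ⊗[K] V)) = 0 := by
  obtain ⟨c', hc', hPR⟩ := hR
  have h1 : aeval (F.baseChange L : Module.End L (L ⊗[K] V)) (P.map (algebraMap K L)) *
      (E.baseChange L : Module.End L (L ⊗[K] V)) = 0 := by
    rw [aeval_baseChange]
    change (aeval (F : Module.End K V) P : V →ₗ[K] V).baseChange L ∘ₗ E.baseChange L = 0
    rw [← LinearMap.baseChange_comp, hP, LinearMap.baseChange_zero]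
  rw [hPR, map_mul, aeval_C, mul_assoc] at h1
  have h3 : algebraMap L (Module.End L (L ⊗[K] V)) c'⁻¹ *
      (algebraMap L (Module.End L (L ⊗[K] V)) c' *
        (aeval (F.baseChange L : Module.End L (L ⊗[K] V)) (∏ j ∈ R, (X - C j)) *
          (E.baseChange L : Module.End L (L ⊗[K] V)))) = 0 := by
    rw [h1, mul_zero]
  rw [← mul_assoc, ← map_mul, inv_mul_cancel₀ hc', map_one, one_mul] at h3
  exact h3

include hc hE hP hR

omit hc hE in
lemma epV_eig (b : L) (x : L ⊗[K] V) :
    F.baseChange L (epV F E R b x) = b • epV F E R b x :=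
  eig_eig_apply (epV_poly' hP hR) b x

omit hP hR in
lemma epV_left (b : L) (x : L ⊗[K] V) : E.baseChange L (epV F E R b x) = epV F E R b x :=
  congrArg (fun G : Module.End L (L ⊗[K] V) => G x)
    (eig_left (epV_comm' hc) (epV_idem' hE) b)

omit hc hP hR in
lemma epV_right (b : L) (x : L ⊗[K] V) : epV F E R b (E.baseChange L x) = epV F E R b x :=
  congrArg (fun G : Module.End L (L ⊗[K] V) => G x) (eig_right (epV_idem' hE) b)

lemma epV_idem (b : L) : epV F E R b ∘ₗ epV F E R b = epV F E R b :=
  eig_idem (epV_comm' hc) (epV_idem' hE) (epV_poly' hP hR) b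

omit hE in
lemma epV_frob (b : L) (x : L ⊗[K] V) :
    epV F E R b (F.baseChange L x) = b • epV F E R b x := by
  rw [← epV_eig hP hR]
  have h6 : (F.baseChange L : Module.End L (L ⊗[K] V)) *
      aeval (F.baseChange L : Module.End L (L ⊗[K] V)) (bas R b) =
      aeval (F.baseChange L : Module.End L (L ⊗[K] V)) (bas R b) * F.baseChange L :=
    eig_comm_aeval (F := (F.baseChange L : Module.End L (L ⊗[K] V))) rfl (bas R b)
  have h5 : (epV F E R b : Module.End L (L ⊗[K] V)) * F.baseChange L =
      F.baseChange L * (epV F E R b : Module.End L (L ⊗[K] V)) := by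
    change (aeval (F.baseChange L : Module.End L (L ⊗[K] V)) (bas R b) * E.baseChange L) *
      F.baseChange L = F.baseChange L *
        (aeval (F.baseChange L : Module.End L (L ⊗[K] V)) (bas R b) * E.baseChange L)
    rw [mul_assoc, ← epV_comm' hc, ← mul_assoc, ← mul_assoc, h6]
  exact congrArg (fun G : Module.End L (L ⊗[K] V) => G x) h5

omit hc hE in
lemma epV_sum (x : L ⊗[K] V) : E.baseChange L x = ∑ b ∈ R, epV F E R b x := by
  have h1 := sum_eig (epV_poly' (E := E) hP hR)
  have h2 := congrArg (fun G : Module.End L (L ⊗[K] V) => G x) h1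
  beta_reduce at h2
  rw [LinearMap.sum_apply] at h2
  exact h2.symm

/-- The operator of rank one has components commuting with `F`. -/
lemma rk1_comp (b : L) (x : L ⊗[K] V) (f : L ⊗[K] V →ₗ[L] L) (lam : L →ₗ[K] K) :
    comp1 lam ((f ∘ₗ epV F E R b).smulRight (epV F E R b x)) ∘ₗ E =
        comp1 lam ((f ∘ₗ epV F E R b).smulRight (epV F E R b x)) ∧
      E ∘ₗ comp1 lam ((f ∘ₗ epV F E R b).smulRight (epV F E R b x)) =
        comp1 lam ((f ∘ₗ epV F E R b).smulRight (epV F E R b x)) ∧
      comp1 lam ((f ∘ₗ epV F E R b).smulRight (epV F E R b x)) ∘ₗ F =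
        F ∘ₗ comp1 lam ((f ∘ₗ epV F E R b).smulRight (epV F E R b x)) := by
  set G : L ⊗[K] V →ₗ[L] L ⊗[K] V := (f ∘ₗ epV F E R b).smulRight (epV F E R b x) with hG
  have hGa : ∀ y, G y = f (epV F E R b y) • epV F E R b x := fun y => rfl
  refine ⟨?_, ?_, ?_⟩
  · apply LinearMap.ext
    intro y
    rw [LinearMap.comp_apply, comp1_apply, comp1_apply, ← LinearMap.baseChange_tmul, hGa, hGa,
      epV_right hE]
  · apply LinearMap.ext
    intro y
    rw [LinearMap.comp_apply, comp1_apply, ← coef_baseChange, hGa, map_smul, epV_left hc hE]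
  · apply LinearMap.ext
    intro y
    have h1 : ∀ z, G (F.baseChange L z) = F.baseChange L (G z) := by
      intro z
      rw [hGa, hGa, LinearMap.map_smul, epV_eig hP hR, epV_frob hc hP hR, LinearMap.map_smul,
        smul_eq_mul, mul_comm, mul_smul]
    rw [LinearMap.comp_apply, LinearMap.comp_apply, comp1_apply, comp1_apply,
      ← coef_baseChange, ← LinearMap.baseChange_tmul, h1]

end Piece

/-- The roots of a squarefree polynomial in an algebraically closed field. -/
lemma exists_roots [CharZero K] [IsAlgClosed L] {P : K[X]} (hP : Squarefree P) :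
    ∃ R : Finset L, (∀ a, a ∈ R ↔ aeval a P = 0) ∧
      ∃ c : L, c ≠ 0 ∧ P.map (algebraMap K L) = C c * ∏ j ∈ R, (X - C j) := by
  classical
  have hP0 : P ≠ 0 := hP.ne_zero
  have hsep : P.Separable := PerfectField.separable_iff_squarefree.2 hP
  have hsep' : (P.map (algebraMap K L)).Separable := hsep.map
  have hPL : P.map (algebraMap K L) ≠ 0 := (Polynomial.map_ne_zero_iff
    (algebraMap K L).injective).2 hP0
  refine ⟨(P.map (algebraMap K L)).roots.toFinset, ?_, (P.map (algebraMap K L)).leadingCoeff,
    leadingCoeff_ne_zero.2 hPL, ?_⟩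
  · intro a
    rw [Multiset.mem_toFinset, mem_roots hPL, IsRoot.def, eval_map_algebraMap]
  · have h1 := (IsAlgClosed.splits (P.map (algebraMap K L))).eq_prod_roots
    have h2 : (P.map (algebraMap K L)).roots.Nodup := nodup_roots hsep'
    conv_lhs => rw [h1]
    congr 1
    rw [Finset.prod, Multiset.toFinset_val, h2.dedup]

/-- The minimal polynomial of the restriction to an invariant subspace. -/
lemma aeval_restrict {F : Module.End K V} {N : Submodule K V} (hN : ∀ x ∈ N, F x ∈ N) (x : V)
    (hx : x ∈ N) : aeval F (minpoly K (F.restrict hN)) x = 0 := by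
  have h1 : ∀ (q : K[X]) (x : N), aeval F q (x : V) = ((aeval (F.restrict hN) q x : N) : V) := by
    intro q x
    induction q using Polynomial.induction_on' with
    | add f g hf hg =>
      rw [map_add, map_add, LinearMap.add_apply, LinearMap.add_apply, hf, hg]
      rfl
    | monomial n a =>
      have h2 : ∀ (n : ℕ), (F ^ n) (x : V) = (((F.restrict hN) ^ n) x : N) := by
        intro n
        induction n with
        | zero => rfl
        | succ n ih =>
          rw [pow_succ', Module.End.mul_apply, ih, pow_succ', Module.End.mul_apply]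
          rfl
      rw [aeval_monomial, aeval_monomial, Module.End.mul_apply, Module.End.mul_apply, h2,
        Module.algebraMap_end_apply, Module.algebraMap_end_apply]
      rfl
  have h2 := h1 (minpoly K (F.restrict hN)) ⟨x, hx⟩
  rw [minpoly.aeval] at h2
  exact h2

/-- The minimal polynomial of the restriction divides all polynomials which are zero on the
subspace. -/
lemma minpoly_restrict_dvd {F : Module.End K V} {N : Submodule K V} (hN : ∀ x ∈ N, F x ∈ N)
    {f : K[X]} (hf : ∀ x ∈ N, aeval F f x = 0) : minpoly K (F.restrict hN) ∣ f := by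
  have h1 : ∀ (q : K[X]) (x : N), aeval F q (x : V) = ((aeval (F.restrict hN) q x : N) : V) := by
    intro q x
    induction q using Polynomial.induction_on' with
    | add f g hf hg =>
      rw [map_add, map_add, LinearMap.add_apply, LinearMap.add_apply, hf, hg]
      rfl
    | monomial n a =>
      have h2 : ∀ (n : ℕ), (F ^ n) (x : V) = (((F.restrict hN) ^ n) x : N) := by
        intro n
        induction n with
        | zero => rfl
        | succ n ih =>
          rw [pow_succ', Module.End.mul_apply, ih, pow_succ', Module.End.mul_apply]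
          rfl
      rw [aeval_monomial, aeval_monomial, Module.End.mul_apply, Module.End.mul_apply, h2,
        Module.algebraMap_end_apply, Module.algebraMap_end_apply]
      rfl
  apply minpoly.dvd
  apply LinearMap.ext
  intro x
  apply Subtype.ext
  rw [← h1, hf x x.2]
  rfl

/-- The roots of the minimal polynomial of the restriction are eigenvalues. -/
lemma isEigenvalueOn_of_root {F : Module.End K V} {N : Submodule K V} (hN : ∀ x ∈ N, F x ∈ N)
    {a : L} (ha : aeval a (minpoly K (F.restrict hN)) = 0) : IsEigenvalueOn F N a := by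
  intro f hf
  obtain ⟨g, hg⟩ := minpoly_restrict_dvd hN hf
  rw [hg, map_mul, ha, zero_mul]

/-- The roots of the minimal polynomial are eigenvalues. -/
lemma isEigenvalueOn_top {F : Module.End K V} {a : L} (ha : aeval a (minpoly K F) = 0) :
    IsEigenvalueOn F ⊤ a := by
  intro f hf
  obtain ⟨g, hg⟩ : minpoly K F ∣ f :=
    minpoly.dvd K F (LinearMap.ext (fun x => hf x Submodule.mem_top))
  rw [hg, map_mul, ha, zero_mul]

end Base

end Pool.Agent.R908
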