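import Pool.Agent.R908.Ret
import Pool.Agent.R908.RelDefs
import Pool.Agent.W534.Tate

/-!
# The eigenvalues of Frobenius on direct factors
-/

open CategoryTheory AlgebraicGeometry TensorProduct Polynomial

universe u v w w'

namespace Pool.Agent.R908

open Pool.Agent.H914 Pool.Agent.H914.VarClass Pool.Agent.H914.VarClass.Obj
  Pool.Agent.H914.WeilCohomology Pool.Agent.W534

variable {k : Type u} [Field k] {𝒱 : VarClass k} {ops : CycleOps 𝒱}
  {W : WeilCohomology.{u, v} ops} {X Y Z X' Y' Z' : 𝒱.Obj} {p : ℕ}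

/-- The action of the power of the Frobenius endomorphism. -/
noncomputable def frP (Φ : FrobSystem W p) (X : 𝒱.Obj) (s : ℕ) : Module.End W.K (W.H X) :=
  (W.map (W534.iter (Φ.Fr X) s)).toLinearMap

variable (Φ : FrobSystem W p)

lemma frP_apply (s : ℕ) (x : W.H X) : frP Φ X s x = W.map (W534.iter (Φ.Fr X) s) x := rfl

lemma frP_mul (s t : ℕ) : frP Φ X (s * t) = frP Φ X s ^ t := by
  apply LinearMap.ext
  intro x
  rw [frP_apply, map_iter_mul, Module.End.pow_apply]
  rfl

/-- On the direct factor `B` the Frobenius endomorphism relative to the field with `p ^ N` elements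
has the only eigenvalue `a`. -/
def Typ (B : Mot W) (N : ℕ) (a : W.K) : Prop :=
  0 < N ∧ ∃ s r : ℕ, 0 < s ∧ s * Φ.e B.X = N ∧
    aeval (frP Φ B.X s) ((Polynomial.X - C a) ^ r) ∘ₗ B.e = 0

variable {Φ}

lemma Typ.pow {B : Mot W} {N : ℕ} {a : W.K} (h : Typ Φ B N a) {M : ℕ} (hM : 0 < M) :
    Typ Φ B (N * M) (a ^ M) := by
  obtain ⟨hN, s, r, hs, hsN, h⟩ := h
  refine ⟨Nat.mul_pos hN hM, s * M, r, Nat.mul_pos hs hM, ?_, ?_⟩
  · rw [← hsN]; ring
  · rw [frP_mul]
    obtain ⟨q, hq⟩ : (Polynomial.X - C a) ∣ (Polynomial.X ^ M - C (a ^ M)) := by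
      rw [C_pow]
      exact sub_dvd_pow_sub_pow _ _ _
    have h1 : aeval (frP Φ B.X s ^ M) ((Polynomial.X - C (a ^ M)) ^ r) =
        aeval (frP Φ B.X s) (q ^ r) * aeval (frP Φ B.X s) ((Polynomial.X - C a) ^ r) := by
      rw [← map_mul, ← mul_pow, mul_comm q, ← hq]
      simp only [map_pow, map_sub, aeval_X, aeval_C]
    rw [h1]
    change aeval (frP Φ B.X s) (q ^ r) ∘ₗ (aeval (frP Φ B.X s) ((Polynomial.X - C a) ^ r) ∘ₗ B.e) = 0
    rw [h, LinearMap.comp_zero]

lemma extHom_pow (φ : Module.End W.K (W.H X)) (ψ : Module.End W.K (W.H Y)) (n : ℕ) :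
    (extHom W φ ψ : Module.End W.K (W.H (X.prod Y))) ^ n = extHom W (φ ^ n) (ψ ^ n) := by
  induction n with
  | zero =>
    rw [pow_zero, pow_zero, pow_zero]
    exact extHom_id.symm
  | succ n ih =>
    rw [pow_succ, pow_succ, pow_succ, ih]
    exact extHom_comp φ ψ (φ ^ n) (ψ ^ n)

lemma ext_nilp {φ : Module.End W.K (W.H X)} {ψ : Module.End W.K (W.H Y)}
    {e : Module.End W.K (W.H X)} {e' : Module.End W.K (W.H Y)} {a b : W.K} {r s : ℕ}
    (h : aeval φ ((Polynomial.X - C a) ^ r) ∘ₗ e = 0)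
    (h' : aeval ψ ((Polynomial.X - C b) ^ s) ∘ₗ e' = 0) :
    aeval (extHom W φ ψ : Module.End W.K (W.H (X.prod Y)))
      ((Polynomial.X - C (a * b)) ^ (r + s)) ∘ₗ extHom W e e' = 0 := by
  classical
  set U : Module.End W.K (W.H (X.prod Y)) := extHom W (φ - algebraMap W.K _ a) ψ with hU
  set V : Module.End W.K (W.H (X.prod Y)) :=
    extHom W (algebraMap W.K _ a) (ψ - algebraMap W.K _ b) with hV
  have hcomm : Commute U V := by
    change U * V = V * U
    have e1 : U * V = extHom W ((φ - algebraMap W.K _ a) ∘ₗ algebraMap W.K _ a)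
        (ψ ∘ₗ (ψ - algebraMap W.K _ b)) := extHom_comp _ _ _ _
    have e2 : V * U = extHom W (algebraMap W.K _ a ∘ₗ (φ - algebraMap W.K _ a))
        ((ψ - algebraMap W.K _ b) ∘ₗ ψ) := extHom_comp _ _ _ _
    rw [e1, e2]
    congr 1
    · exact (Algebra.commutes a (φ - algebraMap W.K _ a)).symm
    · change ψ * (ψ - algebraMap W.K _ b) = (ψ - algebraMap W.K _ b) * ψ
      rw [mul_sub, sub_mul, Algebra.commutes]
  have hUV : extHom W φ ψ - algebraMap W.K _ (a * b) = U + V := by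
    apply ext_kunneth_lin
    intro x y
    rw [LinearMap.sub_apply, LinearMap.add_apply, extHom_tmul, extHom_tmul, extHom_tmul,
      Module.algebraMap_end_apply, LinearMap.sub_apply, LinearMap.sub_apply,
      Module.algebraMap_end_apply, Module.algebraMap_end_apply]
    simp only [map_sub, map_smul, sub_mul, mul_sub, smul_mul_assoc, mul_smul_comm, smul_smul]
    rw [mul_comm b a]
    abel
  have h1 : aeval (extHom W φ ψ : Module.End W.K (W.H (X.prod Y)))
      ((Polynomial.X - C (a * b)) ^ (r + s)) = (U + V) ^ (r + s) := by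
    rw [map_pow, map_sub, aeval_X, aeval_C, hUV]
  rw [h1, hcomm.add_pow]
  change (∑ m ∈ Finset.range (r + s + 1), U ^ m * V ^ (r + s - m) *
    ((r + s).choose m : Module.End W.K (W.H (X.prod Y)))) *
      (extHom W e e' : Module.End W.K (W.H (X.prod Y))) = 0
  rw [Finset.sum_mul]
  apply Finset.sum_eq_zero
  intro i hi
  have h2 : (U ^ i * V ^ (r + s - i)) ∘ₗ extHom W e e' = 0 := by
    rw [hU, hV, extHom_pow, extHom_pow]
    change (extHom W ((φ - algebraMap W.K _ a) ^ i) (ψ ^ i) ∘ₗ extHom W _ _) ∘ₗ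
      extHom W e e' = 0
    rw [extHom_comp, extHom_comp]
    by_cases hir : r ≤ i
    · have h3 : (((φ - algebraMap W.K _ a) ^ i) ∘ₗ
          ((algebraMap W.K (Module.End W.K (W.H X)) a) ^ (r + s - i))) ∘ₗ e = 0 := by
        have h4 : aeval φ ((Polynomial.X - C a) ^ r) = (φ - algebraMap W.K _ a) ^ r := by
          rw [map_pow, map_sub, aeval_X, aeval_C]
        rw [h4] at h
        obtain ⟨t, rfl⟩ := Nat.exists_eq_add_of_le hir
        rw [← map_pow]
        change ((φ - algebraMap W.K _ a) ^ (r + t) *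
          (algebraMap W.K _ (a ^ (r + s - (r + t))))) * e = 0
        rw [← Algebra.commutes, mul_assoc, add_comm r t, pow_add, mul_assoc]
        have h5 : (φ - algebraMap W.K _ a) ^ r * e = 0 := h
        rw [h5, mul_zero, mul_zero]
      rw [h3, extHom_zero_left]
    · have h3 : ((ψ ^ i) ∘ₗ ((ψ - algebraMap W.K _ b) ^ (r + s - i))) ∘ₗ e' = 0 := by
        have h4 : aeval ψ ((Polynomial.X - C b) ^ s) = (ψ - algebraMap W.K _ b) ^ s := by
          rw [map_pow, map_sub, aeval_X, aeval_C]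
        rw [h4] at h'
        obtain ⟨t, ht⟩ := Nat.exists_eq_add_of_le (show s ≤ r + s - i by omega)
        rw [ht]
        change (ψ ^ i * (ψ - algebraMap W.K _ b) ^ (s + t)) * e' = 0
        rw [add_comm s t, pow_add, mul_assoc, mul_assoc]
        have h5 : (ψ - algebraMap W.K _ b) ^ s * e' = 0 := h'
        rw [h5, mul_zero, mul_zero]
      rw [h3, extHom_zero_right]
  have h6 : (U ^ i * V ^ (r + s - i) * ((r + s).choose i : Module.End W.K (W.H (X.prod Y)))) ∘ₗ
      extHom W e e' = ((r + s).choose i : Module.End W.K (W.H (X.prod Y))) *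
        ((U ^ i * V ^ (r + s - i)) ∘ₗ extHom W e e') := by
    change (U ^ i * V ^ (r + s - i) * ((r + s).choose i : Module.End W.K (W.H (X.prod Y)))) *
      extHom W e e' = _ * ((U ^ i * V ^ (r + s - i)) * extHom W e e')
    rw [← Nat.cast_commute, mul_assoc]
  exact h6.trans (by rw [h2, mul_zero])

variable (Φ)

/-- The Frobenius endomorphisms of a product. -/
lemma exists_frob_prod (X Y : 𝒱.Obj) (s t : ℕ) (hs : 0 < s) (ht : 0 < t) :
    ∃ R M M' : ℕ, 0 < R ∧ 0 < M ∧ 0 < M' ∧ s * M * Φ.e X = R * Φ.e (X.prod Y) ∧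
      t * M' * Φ.e Y = R * Φ.e (X.prod Y) ∧
      frP Φ (X.prod Y) R = extHom W (frP Φ X (s * M)) (frP Φ Y (t * M')) := by
  obtain ⟨a, b, ha, hb, hab, h⟩ := frob_comm Φ (fst X Y)
  obtain ⟨a', b', ha', hb', hab', h'⟩ := frob_comm Φ (snd X Y)
  refine ⟨a * (a' * s * t), b * (a' * t), b' * (a * s), by positivity, by positivity,
    by positivity, ?_, ?_, ?_⟩
  · calc s * (b * (a' * t)) * Φ.e X = (b * Φ.e X) * (a' * s * t) := by ring
      _ = a * (a' * s * t) * Φ.e (X.prod Y) := by rw [← hab]; ring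
  · calc t * (b' * (a * s)) * Φ.e Y = (b' * Φ.e Y) * (a * s * t) := by ring
      _ = a * (a' * s * t) * Φ.e (X.prod Y) := by rw [← hab']; ring
  · apply ext_kunneth_lin
    intro x y
    rw [extHom_tmul, frP_apply, frP_apply, frP_apply, map_mul, h,
      show a * (a' * s * t) = a' * (a * s * t) by ring, h',
      show s * (b * (a' * t)) = b * (a' * s * t) by ring,
      show t * (b' * (a * s)) = b' * (a * s * t) by ring]

variable {Φ}

lemma Typ.tensor {A B : Mot W} {N N' : ℕ} {a b : W.K} (hA : Typ Φ A N a) (hB : Typ Φ B N' b) :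
    ∃ M M' : ℕ, 0 < M ∧ 0 < M' ∧ N * M = N' * M' ∧
      Typ Φ (A.tensor B) (N * M) (a ^ M * b ^ M') := by
  have hA' := hA
  have hB' := hB
  obtain ⟨hN, s, r, hs, hsN, h⟩ := hA
  obtain ⟨hN', s', r', hs', hsN', h'⟩ := hB
  obtain ⟨R, M, M', hR, hM, hM', h1, h2, h3⟩ := exists_frob_prod Φ A.X B.X s s' hs hs'
  have h4 : N * M = R * Φ.e (A.X.prod B.X) := by rw [← hsN, ← h1]; ring
  have h5 : N' * M' = R * Φ.e (A.X.prod B.X) := by rw [← hsN', ← h2]; ring
  refine ⟨M, M', hM, hM', by rw [h4, h5], Nat.mul_pos hN hM, R, r + r', hR, h4.symm, ?_⟩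
  obtain ⟨q, hq⟩ : (Polynomial.X - C a) ∣ (Polynomial.X ^ M - C (a ^ M)) := by
    rw [C_pow]
    exact sub_dvd_pow_sub_pow _ _ _
  obtain ⟨q', hq'⟩ : (Polynomial.X - C b) ∣ (Polynomial.X ^ M' - C (b ^ M')) := by
    rw [C_pow]
    exact sub_dvd_pow_sub_pow _ _ _
  have e1 : aeval (frP Φ A.X (s * M)) ((Polynomial.X - C (a ^ M)) ^ r) ∘ₗ A.e = 0 := by
    have h6 : aeval (frP Φ A.X (s * M)) ((Polynomial.X - C (a ^ M)) ^ r) =
        aeval (frP Φ A.X s) (q ^ r) * aeval (frP Φ A.X s) ((Polynomial.X - C a) ^ r) := by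
      rw [frP_mul, ← map_mul, ← mul_pow, mul_comm q, ← hq]
      simp only [map_pow, map_sub, aeval_X, aeval_C]
    rw [h6]
    change aeval (frP Φ A.X s) (q ^ r) ∘ₗ (aeval (frP Φ A.X s) ((Polynomial.X - C a) ^ r) ∘ₗ A.e) = 0
    rw [h, LinearMap.comp_zero]
  have e2 : aeval (frP Φ B.X (s' * M')) ((Polynomial.X - C (b ^ M')) ^ r') ∘ₗ B.e = 0 := by
    have h6 : aeval (frP Φ B.X (s' * M')) ((Polynomial.X - C (b ^ M')) ^ r') =
        aeval (frP Φ B.X s') (q' ^ r') * aeval (frP Φ B.X s') ((Polynomial.X - C b) ^ r') := by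
      rw [frP_mul, ← map_mul, ← mul_pow, mul_comm q', ← hq']
      simp only [map_pow, map_sub, aeval_X, aeval_C]
    rw [h6]
    change aeval (frP Φ B.X s') (q' ^ r') ∘ₗ
      (aeval (frP Φ B.X s') ((Polynomial.X - C b) ^ r') ∘ₗ B.e) = 0
    rw [h', LinearMap.comp_zero]
  have h7 := ext_nilp e1 e2
  change aeval (frP Φ (A.X.prod B.X) R) ((Polynomial.X - C (a ^ M * b ^ M')) ^ (r + r')) ∘ₗ
    extHom W A.e B.e = 0
  rw [h3]
  exact h7

/-- An algebraic class which is not killed by a direct factor. -/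
lemma Typ.rel {B : Mot W} {N : ℕ} {a : W.K} (h : Typ Φ B N a) (hB : ¬ B.Num) :
    ∃ M J : ℕ, 0 < M ∧ a ^ M = (p : W.K) ^ J := by
  obtain ⟨hN, s, r, hs, hsN, h⟩ := h
  unfold Mot.Num at hB
  push Not at hB
  obtain ⟨j, x, hx, -, hne⟩ := hB
  have hx' : B.e x ∈ spanCycles W B.X j := by
    have h1 := KOp.map_span B.mem hx
    rwa [add_zero] at h1
  have hj : 0 ≤ j := by
    by_contra hneg
    have h1 := spanCycles_deg hx'
    rw [grZ_of_neg (by omega)] at h1
    exact hne ((Submodule.mem_bot _).1 h1)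
  obtain ⟨j', rfl⟩ := Int.eq_ofNat_of_zero_le hj
  obtain ⟨-, S, hS, h1⟩ := span_le_tate Φ B.X j' hx'
  have h2 := frob_mul' Φ h1 s
  refine ⟨S, Φ.e B.X * (s * S) * j', hS, ?_⟩
  by_contra hcon
  apply hne
  set T := frP Φ B.X s with hT
  set c : W.K := (p : W.K) ^ (Φ.e B.X * (s * S) * j') with hc
  have h3 : aeval T (Polynomial.X ^ S - C c) (B.e x) = 0 := by
    rw [map_sub, map_pow, aeval_X, aeval_C, LinearMap.sub_apply, Module.algebraMap_end_apply,
      sub_eq_zero, hT, ← frP_mul]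
    exact h2
  have h4 : aeval T ((Polynomial.X - C a) ^ r) (B.e x) = 0 := by
    have := congrArg (fun F => F x) h
    exact this
  have hcop : IsCoprime ((Polynomial.X - C a) ^ r) (Polynomial.X ^ S - C c) := by
    apply IsCoprime.pow_left
    obtain ⟨q, hq⟩ : (Polynomial.X - C a) ∣ (Polynomial.X ^ S - C (a ^ S)) := by
      rw [C_pow]
      exact sub_dvd_pow_sub_pow _ _ _
    have h5 : a ^ S - c ≠ 0 := sub_ne_zero.2 hcon
    refine ⟨-(C (a ^ S - c)⁻¹ * q), C (a ^ S - c)⁻¹, ?_⟩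
    have h6 : (Polynomial.X ^ S - C c : W.K[X]) = (Polynomial.X - C a) * q + C (a ^ S - c) := by
      rw [← hq, C_sub]
      ring
    rw [h6]
    have h7 : (C (a ^ S - c)⁻¹ * C (a ^ S - c) : W.K[X]) = 1 := by
      rw [← C_mul, inv_mul_cancel₀ h5, C_1]
    linear_combination h7
  obtain ⟨f, g, hfg⟩ := hcop
  have h5 : aeval T (f * (Polynomial.X - C a) ^ r + g * (Polynomial.X ^ S - C c)) (B.e x) = B.e x := by
    rw [hfg, map_one, Module.End.one_apply]
  rw [map_add, map_mul, map_mul, LinearMap.add_apply, Module.End.mul_apply,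
    Module.End.mul_apply, h3, h4, map_zero, map_zero, add_zero] at h5
  exact h5.symm

lemma list_prod_map_pow {ι M : Type*} [CommMonoid M] (l : List ι) (f : ι → M) (n : ℕ) :
    (l.map (fun i => f i ^ n)).prod = (l.map f).prod ^ n := by
  induction l with
  | nil => rw [List.map_nil, List.map_nil, List.prod_nil, one_pow]
  | cons a l ih => rw [List.map_cons, List.map_cons, List.prod_cons, List.prod_cons, ih, mul_pow]

/-- The eigenvalue of a product of direct factors. -/
lemma exists_typ_prod : ∀ (l : List (Mot W × W.K × ℕ)), l ≠ [] →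
    (∀ x ∈ l, Typ Φ x.1 x.2.2 x.2.1) → ∃ (T : Mot W) (N : ℕ), T.m = (l.map (fun x => x.1.m)).prod ∧
      (∀ x ∈ l, x.2.2 ∣ N) ∧ Typ Φ T N (l.map (fun x => x.2.1 ^ (N / x.2.2))).prod := by
  intro l
  induction l with
  | nil => intro h; exact absurd rfl h
  | cons x l ih =>
    intro _ hl
    have hx := hl x List.mem_cons_self
    by_cases hnil : l = []
    · subst hnil
      refine ⟨x.1, x.2.2, ?_, ?_, ?_⟩
      · rw [List.map_cons, List.map_nil, List.prod_cons, List.prod_nil, mul_one]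
      · intro y hy
        rw [List.mem_singleton] at hy
        rw [hy]
      · rw [List.map_cons, List.map_nil, List.prod_cons, List.prod_nil, mul_one,
          Nat.div_self hx.1, pow_one]
        exact hx
    · obtain ⟨T, N, h1, h2, h3⟩ := ih hnil (fun y hy => hl y (List.mem_cons_of_mem _ hy))
      obtain ⟨M, M', hM, hM', h4, h5⟩ := hx.tensor h3
      refine ⟨x.1.tensor T, x.2.2 * M, ?_, ?_, ?_⟩
      · rw [List.map_cons, List.prod_cons, Mot.m_tensor, h1]
      · intro y hy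
        rcases List.mem_cons.1 hy with rfl | hy
        · exact dvd_mul_right _ _
        · rw [h4]
          exact Dvd.dvd.mul_right (h2 y hy) _
      · rw [List.map_cons, List.prod_cons, Nat.mul_div_cancel_left _ hx.1]
        have h6 : (l.map (fun y => y.2.1 ^ (x.2.2 * M / y.2.2))).prod =
            (l.map (fun y => y.2.1 ^ (N / y.2.2))).prod ^ M' := by
          rw [← list_prod_map_pow]
          congr 1
          apply List.map_congr_left
          intro y hy
          rw [← pow_mul, h4, Nat.div_mul_right_comm (h2 y hy)]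
        rw [h6]
        exact h5

/-- **A product of direct factors, which does not have the property `Num`, gives a multiplicative
relation.** -/
theorem frobRel_of_not_mnum {l : List (Mot W × W.K × ℕ)} (hl : ∀ x ∈ l, Typ Φ x.1 x.2.2 x.2.1)
    (h : ¬ MNum (l.map (fun x => x.1.m)).prod) : FrobRel p (l.map (fun x => x.2)) := by
  have hne : l ≠ [] := by
    rintro rfl
    exact h mnum_one
  obtain ⟨T, N, h1, h2, h3⟩ := exists_typ_prod l hne hl
  rw [← h1, mnum_m] at h
  obtain ⟨M, J, hM, h4⟩ := h3.rel h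
  refine ⟨N * M, J, Nat.mul_pos h3.1 hM, ?_, ?_⟩
  · intro x hx
    obtain ⟨y, hy, rfl⟩ := List.mem_map.1 hx
    exact Dvd.dvd.mul_right (h2 y hy) _
  · rw [← h4, List.map_map, ← list_prod_map_pow]
    congr 1
    apply List.map_congr_left
    intro y hy
    change y.2.1 ^ (N * M / y.2.2) = _
    rw [← pow_mul, Nat.div_mul_right_comm (h2 y hy)]

end Pool.Agent.R908
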