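import Pool.Agent.R908.SpecA
import Pool.Agent.R908.Simp
import Pool.Agent.R908.Typ

/-!
# Direct factors on which the operators commuting with Frobenius are algebraic
-/

open CategoryTheory AlgebraicGeometry TensorProduct Polynomial

universe u v w w'

namespace Pool.Agent.R908

open Pool.Agent.H914 Pool.Agent.H914.VarClass Pool.Agent.H914.VarClass.Obj
  Pool.Agent.H914.WeilCohomology Pool.Agent.H281R3.HT Pool.Agent.W534

variable {k : Type u} [Field k] {𝒱 : VarClass k} {ops : CycleOps 𝒱}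

section Base

variable {W : WeilCohomology.{u, v} ops} {L : Type v} [Field L] [Algebra W.K L] {X Y : 𝒱.Obj}

lemma base_map_tmul (f : X ⟶ Y) (l : L) (a : W.H Y) :
    (baseW W L).map f (l ⊗ₜ[W.K] a) = l ⊗ₜ[W.K] (W.map f a) := by
  change mapBase L (W.map f) (l ⊗ₜ[W.K] a) = _
  rw [Algebra.TensorProduct.map_tmul]
  rfl

lemma base_map_eq (f : X ⟶ Y) :
    ((baseW W L).map f).toLinearMap = (W.map f).toLinearMap.baseChange L := by
  apply LinearMap.ext
  intro (x : L ⊗[W.K] W.H Y)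
  change (baseW W L).map f x = (W.map f).toLinearMap.baseChange L x
  refine tmul_induction (P := fun x => (baseW W L).map f x =
    (W.map f).toLinearMap.baseChange L x) ?_ ?_ ?_ x
  · rw [map_zero]
    exact map_zero _
  · intro x y hx hy
    rw [map_add, ← hx, ← hy]
    exact map_add _ _ _
  · intro l a
    rw [base_map_tmul, LinearMap.baseChange_tmul]
    rfl

/-- The extension of a system of Frobenius endomorphisms. -/
noncomputable def baseFrob {p : ℕ} (Φ : FrobSystem W p) (L : Type v) [Field L] [Algebra W.K L] :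
    FrobSystem (baseW W L) p where
  Fr := Φ.Fr
  e := Φ.e
  p_pos := Φ.p_pos
  e_pos := Φ.e_pos
  comm := Φ.comm
  cyc := by
    intro X j z hz
    obtain ⟨s, hs, h⟩ := Φ.cyc hz
    refine ⟨s, hs, ?_⟩
    have h1 : (baseW W L).map (W534.iter (Φ.Fr X) s) ((1 : L) ⊗ₜ[W.K] (W.cl X z)) =
        (((p : L) ^ (Φ.e X * s * j)) • ((1 : L) ⊗ₜ[W.K] (W.cl X z)) : L ⊗[W.K] W.H X) := by
      rw [base_map_tmul, h, TensorProduct.tmul_smul, ← algebraMap_smul L, map_pow, map_natCast]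
    exact h1
  deg := by
    intro X (c : L ⊗[W.K] W.H X) hc
    have hc' : c ∈ (W.gr X (2 * X.dim)).baseChange L := hc
    change (baseW W L).map (Φ.Fr X) c = (((p : L) ^ (Φ.e X * X.dim)) • c : L ⊗[W.K] W.H X)
    refine base_induction_mod (P := fun c : L ⊗[W.K] W.H X => (baseW W L).map (Φ.Fr X) c =
      (((p : L) ^ (Φ.e X * X.dim)) • c : L ⊗[W.K] W.H X)) ?_ ?_ ?_ hc'
    · rw [smul_zero]
      exact map_zero _
    · intro x y hx hy
      rw [smul_add, ← hx, ← hy]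
      exact map_add _ _ _
    · intro l a ha
      rw [base_map_tmul, Φ.deg ha, TensorProduct.tmul_smul, ← algebraMap_smul L, map_pow,
        map_natCast]

lemma base_tr_key (lam : L →ₗ[W.K] W.K) (x : L ⊗[W.K] W.H X) (c : W.H X) :
    W.tr X (coef lam x * c) = lam (formBase L (W.tr X) (x * ((1 : L) ⊗ₜ[W.K] c))) := by
  refine tmul_induction (P := fun x => W.tr X (coef lam x * c) =
    lam (formBase L (W.tr X) (x * ((1 : L) ⊗ₜ[W.K] c)))) ?_ ?_ ?_ x
  · rw [map_zero, zero_mul, zero_mul, map_zero, map_zero, map_zero]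
  · intro x y hx hy
    rw [map_add, add_mul, add_mul, map_add, map_add, map_add, hx, hy]
  · intro l a
    rw [coef_tmul, Algebra.TensorProduct.tmul_mul_tmul, formBase_tmul, mul_one, smul_mul_assoc,
      map_smul, smul_eq_mul, mul_comm l, ← Algebra.smul_def, map_smul, smul_eq_mul, mul_comm]

end Base

section Full

variable {W : WeilCohomology.{u, v} ops}

/-- Two direct factors with algebraic operators of rank one are dual if they pair
non-trivially. -/
lemma contr_full {A B : Mot W} {δ : ℤ} {θ : W.H B.X →ₗ[W.K] W.H A.X}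
    (hθ : θ ∈ KOp W B.X A.X δ) {x₀ : W.H A.X} {y₀ : W.H B.X}
    (hx₀ : ∀ f : W.H A.X →ₗ[W.K] W.K, (f ∘ₗ A.e).smulRight x₀ ∈ KOp W A.X A.X 0)
    (hy₀ : ∀ f : W.H B.X →ₗ[W.K] W.K, (f ∘ₗ B.e).smulRight y₀ ∈ KOp W B.X B.X 0)
    (hne : W.tr A.X (x₀ * θ y₀) ≠ 0) : A.Contr B := by
  refine ⟨B.X.dim + δ, fun f f' => ?_⟩
  set κ := W.tr A.X (x₀ * θ y₀) with hκ
  obtain ⟨φ', hφ', hadj⟩ := KOp.exists_adjoint (hx₀ f)
  have hη : κ⁻¹ • (φ' ∘ₗ θ ∘ₗ (f' ∘ₗ B.e).smulRight y₀) ∈ KOp W B.X A.X δ := by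
    refine Submodule.smul_mem _ _ (KOp.cast (KOp.comp hφ' (KOp.comp hθ (hy₀ f'))) (by ring))
  obtain ⟨d, hd, hdη⟩ := mem_KOp_iff.1 hη
  refine ⟨W.map (swap A.X B.X) d, span_map _ hd, ?_⟩
  intro x y
  have h2 := tr_corr_span hd x y
  have h3 : W.corr d y = κ⁻¹ • (φ' (θ (f' (B.e y) • y₀))) := by
    rw [hdη, LinearMap.smul_apply, LinearMap.comp_apply, LinearMap.comp_apply,
      LinearMap.smulRight_apply, LinearMap.comp_apply]
  rw [h2, h3, mul_smul_comm, map_smul, ← hadj, LinearMap.smulRight_apply, LinearMap.comp_apply,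
    map_smul, smul_mul_assoc, mul_smul_comm, map_smul, map_smul, smul_eq_mul, smul_eq_mul,
    smul_eq_mul, ← hκ]
  field_simp

lemma contr_zero {A B : Mot W} (h : A.e = 0) : A.Contr B := by
  refine ⟨0, fun f g => ⟨0, Submodule.zero_mem _, fun x y => ?_⟩⟩
  rw [zero_mul, map_zero, h, LinearMap.zero_apply, map_zero, zero_mul]

lemma alg_zero {A : Mot W} (h : A.e = 0) : A.Alg :=
  ⟨0, fun i => i.elim0, fun i => i.elim0, fun i => i.elim0, fun i => i.elim0, fun x => by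
    rw [h, LinearMap.zero_apply, Finset.univ_eq_empty, Finset.sum_empty]⟩

end Full

/-- The Frobenius endomorphism acting on the cohomology. -/
noncomputable def fr {W : WeilCohomology.{u, v} ops} {p : ℕ} (Φ : FrobSystem W p) (X : 𝒱.Obj) :
    Module.End W.K (W.H X) :=
  (W.map (Φ.Fr X)).toLinearMap

lemma frP_one {W : WeilCohomology.{u, v} ops} {p : ℕ} (Φ : FrobSystem W p) (X : 𝒱.Obj) :
    frP Φ X 1 = fr Φ X := by
  apply LinearMap.ext
  intro x
  rw [frP_apply, W534.map_iter]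
  rfl

lemma typ_of_eig {W : WeilCohomology.{u, v} ops} {p : ℕ} {Φ : FrobSystem W p} {B : Mot W}
    {b : W.K} (h : ∀ x, fr Φ B.X (B.e x) = b • B.e x) : Typ Φ B (Φ.e B.X) b := by
  refine ⟨Φ.e_pos B.X, 1, 1, one_pos, one_mul _, ?_⟩
  rw [frP_one, pow_one, map_sub, aeval_X, aeval_C]
  apply LinearMap.ext
  intro x
  rw [LinearMap.comp_apply, LinearMap.sub_apply, Module.algebraMap_end_apply, h, sub_self,
    LinearMap.zero_apply]

/-- On the direct factor cut out by `e` Frobenius is semisimple, the operators commuting with it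
are algebraic, and there is an algebraic duality. -/
structure IsPiece {W : WeilCohomology.{u, v} ops} {p : ℕ} (Φ : FrobSystem W p) (X : 𝒱.Obj)
    (e : W.H X →ₗ[W.K] W.H X) (P : W.K[X]) (c : W.K) (δ : ℤ) (θ : W.H X →ₗ[W.K] W.H X) :
    Prop where
  mem : e ∈ KOp W X X 0
  idem : e ∘ₗ e = e
  comm : fr Φ X ∘ₗ e = e ∘ₗ fr Φ X
  sqf : Squarefree P
  poly : aeval (fr Φ X) P ∘ₗ e = 0
  tate : ∀ φ : W.H X →ₗ[W.K] W.H X, φ ∘ₗ e = φ → e ∘ₗ φ = φ → φ ∘ₗ fr Φ X = fr Φ X ∘ₗ φ →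
    φ ∈ KOp W X X 0
  θ_mem : θ ∈ KOp W X X δ
  c_ne : c ≠ 0
  θ_eq : ∀ x y, W.tr X (fr Φ X (e x) * θ (fr Φ X (e y))) = c * W.tr X (e x * θ (e y))
  nondeg : ∀ x, (∀ y, W.tr X (e x * θ (e y)) = 0) → e x = 0

end Pool.Agent.R908
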