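import Pool.Agent.R908.SplitC

/-!
# Splitting over the algebraic closure of the coefficient field
-/

open CategoryTheory AlgebraicGeometry TensorProduct

universe u v w w'

namespace Pool.Agent.R908

open Pool.Agent.H914 Pool.Agent.H914.VarClass Pool.Agent.H914.VarClass.Obj
  Pool.Agent.H914.WeilCohomology Pool.Agent.H281R3.HT

variable {k : Type u} [Field k] {𝒱 : VarClass k} {ops : CycleOps 𝒱}

section Gen

variable {W : WeilCohomology.{u, v} ops} {X Y : 𝒱.Obj} {Γ : Type w} [Group Γ] (S : SemiAct Γ W)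

/-- The span of all conjugates of a subspace. -/
def SemiAct.orb (N : Submodule W.K (W.H X)) : Submodule W.K (W.H X) :=
  Submodule.span W.K {x | ∃ g, ∃ v ∈ N, x = (S.act g).σ X v}

lemma SemiAct.orb_stable {N : Submodule W.K (W.H X)} (hN : IsSt W X N) :
    IsSt W X (S.orb N) := by
  intro ψ hψ x hx
  induction hx using Submodule.span_induction with
  | mem x hx =>
    obtain ⟨g, v, hv, rfl⟩ := hx
    have h1 : ψ ((S.act g).σ X v) = (S.act g).σ X ((S.act g⁻¹).conj ψ v) := by
      rw [SemiAut.conj_apply, S.act_inv]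
      congr 1
      rw [eq_comm, AddEquiv.symm_apply_eq, S.act_inv']
    rw [h1]
    exact Submodule.subset_span ⟨g, _, hN _ ((S.act g⁻¹).conj_mem hψ) v hv, rfl⟩
  | zero => rw [map_zero]; exact Submodule.zero_mem _
  | add x y _ _ hx hy => rw [map_add]; exact Submodule.add_mem _ hx hy
  | smul c x _ hx => rw [map_smul]; exact Submodule.smul_mem _ _ hx

lemma SemiAct.orb_act (h : Γ) {N : Submodule W.K (W.H X)} {x : W.H X} (hx : x ∈ S.orb N) :
    (S.act h).σ X x ∈ S.orb N := by
  induction hx using Submodule.span_induction with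
  | mem x hx =>
    obtain ⟨g, v, hv, rfl⟩ := hx
    rw [← S.mul]
    exact Submodule.subset_span ⟨_, v, hv, rfl⟩
  | zero => rw [map_zero]; exact Submodule.zero_mem _
  | add x y _ _ hx hy => rw [map_add]; exact Submodule.add_mem _ hx hy
  | smul c x _ hx => rw [(S.act h).smul]; exact Submodule.smul_mem _ _ hx

lemma SemiAct.le_orb {N : Submodule W.K (W.H X)} : N ≤ S.orb N :=
  fun v hv => Submodule.subset_span ⟨1, v, hv, (S.one X v).symm⟩

lemma SemiAct.orb_trans {N : Submodule W.K (W.H X)} (hN : N ≤ transcendental W X) :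
    S.orb N ≤ transcendental W X := by
  refine Submodule.span_le.2 ?_
  rintro x ⟨g, v, hv, rfl⟩
  exact (S.act g).σ_trans (hN hv)

lemma SemiAct.orb_pair {N : Submodule W.K (W.H X)}
    (h : ∀ (g : Γ) (δ : ℤ), ∀ θ ∈ KOp W X X δ, ∀ x ∈ N, ∀ y ∈ N,
      W.tr X (x * θ ((S.act g).σ X y)) = 0) {δ : ℤ} {θ : W.H X →ₗ[W.K] W.H X}
    (hθ : θ ∈ KOp W X X δ) {x y : W.H X} (hx : x ∈ S.orb N) (hy : y ∈ S.orb N) :
    W.tr X (x * θ y) = 0 := by
  induction hx using Submodule.span_induction with
  | mem x hx =>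
    obtain ⟨g, v, hv, rfl⟩ := hx
    induction hy using Submodule.span_induction with
    | mem y hy =>
      obtain ⟨g', v', hv', rfl⟩ := hy
      have h1 : (S.act g).σ X v * θ ((S.act g').σ X v') =
          (S.act g).σ X (v * (S.act g⁻¹).conj θ ((S.act (g⁻¹ * g')).σ X v')) := by
        rw [(S.act g).mul, SemiAut.conj_apply, S.act_inv, S.mul, AddEquiv.symm_apply_apply]
      rw [h1, (S.act g).tr, h _ _ _ ((S.act g⁻¹).conj_mem hθ) v hv v' hv', map_zero]
    | zero => rw [map_zero, mul_zero, map_zero]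
    | add a b _ _ ha hb => rw [map_add, mul_add, map_add, ha, hb, add_zero]
    | smul c a _ ha => rw [map_smul, mul_smul_comm, map_smul, ha, smul_zero]
  | zero => rw [zero_mul, map_zero]
  | add a b _ _ ha hb => rw [add_mul, map_add, ha, hb, add_zero]
  | smul c a _ ha => rw [smul_mul_assoc, map_smul, ha, smul_zero]

end Gen

section Base

variable {W : WeilCohomology.{u, v} ops} {L : Type v} [Field L] [Algebra W.K L] {X Y : 𝒱.Obj}

lemma down_base_le {N : Submodule L (L ⊗[W.K] W.H X)} {P : Submodule W.K (W.H X)}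
    (h : N ≤ P.baseChange L) : down N ≤ P := by
  intro v hv
  obtain ⟨lam, hlam⟩ := Module.Projective.exists_dual_eq_one W.K (one_ne_zero (α := L))
  have h1 := mem_baseChange_iff.1 (h (mem_down.1 hv)) lam
  rw [coef_tmul, hlam, one_smul] at h1
  exact h1

/-- The transcendental cohomology is generated by simple subspaces. -/
theorem le_socle
    (hfix : ∀ x : L, (∀ g : L ≃ₐ[W.K] L, g x = x) → ∃ c : W.K, algebraMap W.K L c = x)
    (hH : PairsConjK (trivS W) X) : transcendental (baseW W L) X ≤
      ⨆ N : {N : Submodule (baseW W L).K ((baseW W L).H X) // SimpSt (baseW W L) X N}, N.1 := by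
  classical
  set S := galAct W L with hS
  -- the homogeneous parts
  have key : ∀ i, transcendental (baseW W L) X ⊓ (baseW W L).gr X i ≤
      ⨆ N : {N : Submodule (baseW W L).K ((baseW W L).H X) // SimpSt (baseW W L) X N}, N.1 := by
    intro i
    set So : Submodule (baseW W L).K ((baseW W L).H X) :=
      ⨆ N : {N : Submodule (baseW W L).K ((baseW W L).H X) //
        SimpSt (baseW W L) X N ∧ N ≤ (baseW W L).gr X i}, N.1 with hSo
    have hSole : So ≤ ⨆ N : {N : Submodule (baseW W L).K ((baseW W L).H X) //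
        SimpSt (baseW W L) X N}, N.1 :=
      iSup_le (fun N => le_iSup (fun N : {N : Submodule (baseW W L).K ((baseW W L).H X) //
        SimpSt (baseW W L) X N} => N.1) ⟨N.1, N.2.1⟩)
    refine le_trans ?_ hSole
    have hSoT : So ≤ transcendental (baseW W L) X ⊓ (baseW W L).gr X i :=
      iSup_le (fun N => le_inf N.2.1.1 N.2.2)
    have hSost : IsSt (baseW W L) X So := by
      intro ψ hψ v hv
      refine Submodule.iSup_induction _ (motive := fun v => ψ v ∈ So) hv ?_ ?_ ?_
      · intro N x hx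
        exact Submodule.mem_iSup_of_mem N (N.2.1.2.2.1 ψ hψ x hx)
      · rw [map_zero]; exact Submodule.zero_mem _
      · intro x y hx hy
        rw [map_add]; exact Submodule.add_mem _ hx hy
    have hgrσ : ∀ (g : L ≃ₐ[W.K] L) (x : (baseW W L).H X), x ∈ (baseW W L).gr X i →
        (S.act g).σ X x ∈ (baseW W L).gr X i := fun g x hx => sig_gr g hx
    have hSog : ∀ (g : L ≃ₐ[W.K] L), ∀ x ∈ So, (S.act g).σ X x ∈ So := by
      intro g x hx
      refine Submodule.iSup_induction _ (motive := fun x => (S.act g).σ X x ∈ So) hx ?_ ?_ ?_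
      · intro N x hx
        have h1 := S.simpSt_pre g⁻¹ N.2.1
        have h2 : (S.act g⁻¹).pre N.1 ≤ (baseW W L).gr X i := by
          intro y hy
          have h3 := hgrσ g _ (N.2.2 hy)
          rw [S.act_inv] at h3
          exact h3
        refine Submodule.mem_iSup_of_mem ⟨(S.act g⁻¹).pre N.1, h1, h2⟩ ?_
        change (S.act g⁻¹).σ X ((S.act g).σ X x) ∈ N.1
        rw [S.act_inv']
        exact hx
      · rw [map_zero]; exact Submodule.zero_mem _
      · intro x y hx hy
        rw [map_add]; exact Submodule.add_mem _ hx hy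
    -- descent
    set So' : Submodule L (L ⊗[W.K] W.H X) := So with hSo'
    have hdesc : So' ≤ (down So').baseChange L := le_down hfix (fun g x hx => hSog g x hx)
    set N0 : Submodule W.K (W.H X) := down So' with hN0
    have hN0T : N0 ≤ transcendental W X ⊓ W.gr X i := by
      refine le_inf (down_base_le (fun x hx => ?_)) (down_base_le (fun x hx => ?_))
      · exact mem_trans_base.1 (hSoT hx).1
      · exact (hSoT hx).2
    have hN0st : ∀ ψ ∈ KOp W X X 0, ∀ v ∈ N0, ψ v ∈ N0 := stable_down hSost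
    obtain ⟨N', hN'T, hN'st, hinf, hsup⟩ := exists_compl_gr (S := trivS W) (fun _ _ => rfl) hH
      hN0T hN0st
    have hbot : N' = ⊥ := by
      by_contra hne
      set M' : Submodule (baseW W L).K ((baseW W L).H X) := N'.baseChange L with hM'
      have hM'T : M' ≤ transcendental (baseW W L) X := by
        intro x hx
        refine mem_trans_base.2 ?_
        refine mem_baseChange_iff.2 (fun lam => ?_)
        exact (hN'T (mem_baseChange_iff.1 (show x ∈ N'.baseChange L from hx) lam)).1
      have hM'g : M' ≤ (baseW W L).gr X i := by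
        intro x hx
        refine mem_gr_base.2 ?_
        refine mem_baseChange_iff.2 (fun lam => ?_)
        exact (hN'T (mem_baseChange_iff.1 (show x ∈ N'.baseChange L from hx) lam)).2
      have hM'ne : M' ≠ ⊥ := by
        intro h
        apply hne
        rw [Submodule.eq_bot_iff]
        intro v hv
        obtain ⟨w, hw⟩ : ∃ w : (baseW W L).H X, w = (1 : L) ⊗ₜ[W.K] v := ⟨_, rfl⟩
        have h1 : w ∈ M' := by
          rw [hw]
          exact Submodule.tmul_mem_baseChange_of_mem (1 : L) hv
        rw [h, Submodule.mem_bot] at h1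
        exact tmul_injective (L := L) v (hw.symm.trans h1)
      obtain ⟨M, hM, hMs⟩ := exists_simpSt (W := baseW W L) _ M' hM'T hM'ne
        (stable_base hN'st) le_rfl
      have hMSo : M ≤ So := le_iSup (fun N : {N : Submodule (baseW W L).K ((baseW W L).H X) //
        SimpSt (baseW W L) X N ∧ N ≤ (baseW W L).gr X i} => N.1) ⟨M, hMs, hM.trans hM'g⟩
      apply hMs.2.1
      rw [Submodule.eq_bot_iff]
      intro x hx
      refine coef_sep (K := W.K) (L := L) (V := W.H X) (fun lam => ?_)
      have h1 : coef lam (show L ⊗[W.K] W.H X from x) ∈ N0 :=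
        mem_baseChange_iff.1 (hdesc (hMSo hx)) lam
      have h2 : coef lam (show L ⊗[W.K] W.H X from x) ∈ N' :=
        mem_baseChange_iff.1 (show x ∈ N'.baseChange L from hM hx) lam
      have h3 : coef lam (show L ⊗[W.K] W.H X from x) ∈ N0 ⊓ N' := ⟨h1, h2⟩
      rw [hinf, Submodule.mem_bot] at h3
      exact h3
    rw [hbot, sup_bot_eq] at hsup
    intro x hx
    have h1 : (show L ⊗[W.K] W.H X from x) ∈ N0.baseChange L := by
      refine mem_baseChange_iff.2 (fun lam => hsup ⟨?_, ?_⟩)
      · exact mem_baseChange_iff.1 (mem_trans_base.1 hx.1) lam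
      · exact mem_baseChange_iff.1 (mem_gr_base.1 hx.2) lam
    exact down_le h1
  intro t ht
  have h4 := sum_proj ((baseW W L).isInternal X) (N := 2 * X.dim + 1)
    (fun i hi => (baseW W L).gr_eq_bot X i (by omega))
  have h5 := congrArg (fun F => F t) h4
  beta_reduce at h5
  rw [LinearMap.sum_apply, Module.End.one_apply] at h5
  rw [← h5]
  exact Submodule.sum_mem _ (fun i _ => key i ⟨H914.proj_trans i ht, proj_mem _ i t⟩)

/-- All direct factors have finite orbits. -/
theorem finite_orbit [Algebra.IsAlgebraic W.K L] (A : Mot (baseW W L)) :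
    {m : Mon (baseW W L) | ∃ g, m = (((galAct W L).act g).mot A).m}.Finite := by
  classical
  have h1 := finite_conj (K := W.K) (L := L) (V := W.H A.X) (V' := W.H A.X) A.e
  set Ψ : (L ⊗[W.K] W.H A.X →ₗ[L] L ⊗[W.K] W.H A.X) → Mon (baseW W L) := fun G =>
    if h : (show (baseW W L).H A.X →ₗ[(baseW W L).K] (baseW W L).H A.X from G) ∈
      KOp (baseW W L) A.X A.X 0 ∧ G ∘ₗ G = G then (Mot.mk A.X G h.1 h.2).m else 1 with hΨ
  refine (h1.image Ψ).subset ?_
  rintro _ ⟨g, rfl⟩
  refine ⟨((galAct W L).act g).conj A.e, ⟨g, fun x => ?_⟩, ?_⟩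
  · exact ((galAct W L).act g).conj_σ A.e x
  · have h2 : (((galAct W L).act g).conj A.e ∈ KOp (baseW W L) A.X A.X 0 ∧
        ((galAct W L).act g).conj A.e ∘ₗ ((galAct W L).act g).conj A.e =
          ((galAct W L).act g).conj A.e) :=
      ⟨(((galAct W L).act g).mot A).mem, (((galAct W L).act g).mot A).idem⟩
    rw [hΨ]
    exact dif_pos h2

/-- Simple subspaces pair non-trivially with some conjugate. -/
theorem pair_base
    (hfix : ∀ x : L, (∀ g : L ≃ₐ[W.K] L, g x = x) → ∃ c : W.K, algebraMap W.K L c = x)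
    (hH : PairsConjK (trivS W) X) (N : Submodule (baseW W L).K ((baseW W L).H X))
    (hN : SimpSt (baseW W L) X N) :
    ∃ (g : L ≃ₐ[W.K] L) (δ : ℤ), ∃ θ ∈ KOp (baseW W L) X X δ, ∃ x ∈ N, ∃ y ∈ N,
      (baseW W L).tr X (x * θ (((galAct W L).act g).σ X y)) ≠ 0 := by
  classical
  by_contra hcon
  push Not at hcon
  set S := galAct W L with hS
  set M : Submodule L (L ⊗[W.K] W.H X) := S.orb N with hM
  have hdesc : M ≤ (down M).baseChange L := le_down hfix (fun g x hx => S.orb_act g hx)
  have hne : down M ≠ ⊥ := by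
    intro h
    rw [h, Submodule.baseChange_bot] at hdesc
    apply hN.2.1
    rw [Submodule.eq_bot_iff]
    intro x hx
    have h9 : ∀ y : L ⊗[W.K] W.H X, y ∈ (⊥ : Submodule L (L ⊗[W.K] W.H X)) → y = 0 :=
      fun y hy => (Submodule.mem_bot L).1 hy
    exact h9 x (hdesc (S.le_orb hx))
  obtain ⟨δ, θ, hθ, x, hx, y, hy, hxy⟩ := hH (down M)
    (down_base_le (fun x hx => mem_trans_base.1 (S.orb_trans hN.1 hx))) hne
    (stable_down (S.orb_stable hN.2.2.1))
  apply hxy
  have h1 := S.orb_pair (fun g δ θ hθ x hx y hy => hcon g δ θ hθ x hx y hy)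
    (KOp.base (L := L) hθ) (x := (1 : L) ⊗ₜ[W.K] x) (y := (1 : L) ⊗ₜ[W.K] y) hx hy
  have h2 : formBase L (W.tr X) (((1 : L) ⊗ₜ[W.K] x) *
      (θ.baseChange L ((1 : L) ⊗ₜ[W.K] y))) = algebraMap W.K L (W.tr X (x * θ y)) := by
    rw [LinearMap.baseChange_tmul, Algebra.TensorProduct.tmul_mul_tmul, formBase_tmul, mul_one,
      one_mul]
  have h3 : algebraMap W.K L (W.tr X (x * θ y)) = 0 := by
    rw [← h2]
    exact h1
  exact (map_eq_zero_iff _ (algebraMap W.K L).injective).1 h3

end Base

lemma homEqNum_up {W : WeilCohomology.{u, v} ops} {L : Type v} [Field L] [Algebra W.K L]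
    {X : 𝒱.Obj} (h : HomEqNum W X) : HomEqNum (baseW W L) X := fun j hj z hz hnum => by
  have h1 := h j hj z hz hnum
  have h2 : (baseW W L).cl X z = (1 : L) ⊗ₜ[W.K] (W.cl X z) := rfl
  rw [h2, h1, TensorProduct.tmul_zero]
  rfl

/-- **Splitting over the algebraic closure.** -/
theorem splits_closure {W : WeilCohomology.{u, v} ops} {X : 𝒱.Obj} (hD : HomEqNum W X)
    (hC : CommCommK W X) (hH : PairsConjK (trivS W) X) :
    Splits (galAct W (AlgebraicClosure W.K)) X := by
  have hfix : ∀ x : AlgebraicClosure W.K, (∀ g : AlgebraicClosure W.K ≃ₐ[W.K]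
      AlgebraicClosure W.K, g x = x) → ∃ c : W.K, algebraMap W.K (AlgebraicClosure W.K) c = x := by
    intro x hx
    have h1 : x ∈ (⊥ : IntermediateField W.K (AlgebraicClosure W.K)) :=
      (InfiniteGalois.mem_bot_iff_fixed x).2 hx
    exact IntermediateField.mem_bot.1 h1
  have hac : IsAlgClosed (baseW W (AlgebraicClosure W.K)).K :=
    (inferInstance : IsAlgClosed (AlgebraicClosure W.K))
  exact splits_of_simple (galAct W (AlgebraicClosure W.K)) (homEqNum_up hD)
    (commCommK_base hC) (le_socle hfix hH) finite_orbit (pair_base hfix hH)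

end Pool.Agent.R908
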