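import Pool.Agent.R908.SpecB
import Pool.Agent.R908.SplitD

/-!
# The eigenspaces of Frobenius over an algebraic closure of the coefficients
-/

open CategoryTheory AlgebraicGeometry TensorProduct Polynomial

universe u v w w'

namespace Pool.Agent.R908

open Pool.Agent.H914 Pool.Agent.H914.VarClass Pool.Agent.H914.VarClass.Obj
  Pool.Agent.H914.WeilCohomology Pool.Agent.H281R3.HT Pool.Agent.W534

section Alg

variable {K : Type*} [Field K] {L : Type*} [Field L] [Algebra K L] {V : Type*}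
  [AddCommGroup V] [Module K V]

/-- The conjugate of the projector. -/
lemma sig_epV (g : L ≃ₐ[K] L) {R : Finset L} (hR : ∀ a ∈ R, ∀ h : L ≃ₐ[K] L, h a ∈ R)
    (F E : V →ₗ[K] V) (b : L) (x : L ⊗[K] V) :
    sig g (epV F E R b x) = epV F E R (g b) (sig g x) :=
  sig_eig g hR F E b x

end Alg

variable {k : Type u} [Field k] {𝒱 : VarClass k} {ops : CycleOps 𝒱}
  {W : WeilCohomology.{u, v} ops} {p : ℕ} {Φ : FrobSystem W p} {X : 𝒱.Obj}
  {e : W.H X →ₗ[W.K] W.H X} {P : W.K[X]} {c : W.K} {δ : ℤ} {θ : W.H X →ₗ[W.K] W.H X}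
  {L : Type v} [Field L] [Algebra W.K L]

/-- The finite set `R` consists of the roots of `P`. -/
def IsRoots (P : W.K[X]) (R : Finset L) : Prop :=
  (∀ a, a ∈ R ↔ aeval a P = 0) ∧
    ∃ c : L, c ≠ 0 ∧ P.map (algebraMap W.K L) = C c * ∏ j ∈ R, (Polynomial.X - C j)

lemma IsRoots.stable {R : Finset L} (hR : IsRoots P R) :
    ∀ a ∈ R, ∀ h : L ≃ₐ[W.K] L, h a ∈ R := by
  intro a ha h
  rw [hR.1] at ha ⊢
  have h2 : aeval (h a) P = h (aeval a P) := Polynomial.aeval_algHom_apply (h : L →ₐ[W.K] L) _ _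
  rw [h2, ha, map_zero]

/-- The extension of an operator, as an operator on the cohomology with extended coefficients. -/
noncomputable def upW (L : Type v) [Field L] [Algebra W.K L] {X Y : 𝒱.Obj}
    (φ : W.H X →ₗ[W.K] W.H Y) : (baseW W L).H X →ₗ[(baseW W L).K] (baseW W L).H Y :=
  (φ.baseChange L : L ⊗[W.K] W.H X →ₗ[L] L ⊗[W.K] W.H Y)

lemma upW_mem {X Y : 𝒱.Obj} {φ : W.H X →ₗ[W.K] W.H Y} (hφ : φ ∈ KOp W X Y δ) :
    upW L φ ∈ KOp (baseW W L) X Y δ := KOp.base (L := L) hφ

/-- The projector to the eigenspace of `b`. -/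
noncomputable def epW (Φ : FrobSystem W p) (X : 𝒱.Obj) (e : W.H X →ₗ[W.K] W.H X) (R : Finset L)
    (b : L) : (baseW W L).H X →ₗ[(baseW W L).K] (baseW W L).H X :=
  (epV (fr Φ X) e R b : L ⊗[W.K] W.H X →ₗ[L] L ⊗[W.K] W.H X)

variable (h : IsPiece Φ X e P c δ θ) {R : Finset L} (hR : IsRoots P R)
include h

lemma IsPiece.ep_mem (R : Finset L) (b : L) : epW Φ X e R b ∈ KOp (baseW W L) X X 0 := by
  have hpow : ∀ n : ℕ, (fr Φ X ^ n * e : Module.End W.K (W.H X)) ∈ KOp W X X 0 := by
    intro n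
    induction n with
    | zero => rw [pow_zero, one_mul]; exact h.mem
    | succ n ih =>
      rw [pow_succ', mul_assoc]
      exact KOp.cast (KOp.comp (KOp.mapHom (Φ.Fr X)) ih) (add_zero 0)
  have h1 : epW Φ X e R b = ∑ i ∈ Finset.range ((bas R b).natDegree + 1),
        (show (baseW W L).K from (bas R b).coeff i) •
          upW L (fr Φ X ^ i * e : Module.End W.K (W.H X)) :=
    epV_eq (fr Φ X) e R b
  rw [h1]
  exact Submodule.sum_mem _ (fun i _ => Submodule.smul_mem _ _ (upW_mem (hpow i)))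

include hR

/-- The direct factor of the eigenspace. -/
noncomputable def IsPiece.lett (b : L) : Mot (baseW W L) where
  X := X
  e := epW Φ X e R b
  mem := h.ep_mem R b
  idem := epV_idem h.comm h.idem h.poly hR.2 b

lemma IsPiece.typ (b : L) : Typ (baseFrob Φ L) (h.lett hR b) (Φ.e X) b := by
  have h1 : ∀ x : L ⊗[W.K] W.H X, (fr Φ X).baseChange L (epV (fr Φ X) e R b x) =
    b • epV (fr Φ X) e R b x := fun x => epV_eig h.poly hR.2 b x
  refine typ_of_eig (B := h.lett hR b) ?_
  intro x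
  have h2 : fr (baseFrob Φ L) X = (fr Φ X).baseChange L := base_map_eq (Φ.Fr X)
  change fr (baseFrob Φ L) X (epW Φ X e R b x) = _
  rw [h2]
  exact h1 x

lemma IsPiece.conj (g : L ≃ₐ[W.K] L) (b : L) :
    (galAut W L g).mot (h.lett hR b) = h.lett hR (g b) := by
  have h1 : (galAut W L g).conj (h.lett hR b).e = (h.lett hR (g b)).e := by
    apply LinearMap.ext
    intro (x : L ⊗[W.K] W.H X)
    obtain ⟨y, rfl⟩ : ∃ y, x = sig g y := ⟨sig g.symm x, (sig_symm g x).symm⟩
    have h2 : (galAut W L g).conj (h.lett hR b).e ((galAut W L g).σ X y) =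
        (galAut W L g).σ X ((h.lett hR b).e y) := SemiAut.conj_σ _ _ _
    have h3 : sig g (epV (fr Φ X) e R b y) = epV (fr Φ X) e R (g b) (sig g y) :=
      sig_epV g hR.stable (fr Φ X) e b y
    exact h2.trans h3
  have key : ∀ A B : Mot (baseW W L), A.X = B.X → HEq A.e B.e → A = B := by
    rintro ⟨X, e, _, _⟩ ⟨X', e', _, _⟩ hX he
    cases hX
    cases he
    rfl
  exact key _ _ rfl (heq_of_eq h1)

/-- The operators of rank one are algebraic. -/
lemma IsPiece.full (b : L) (x : (baseW W L).H X)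
    (f : (baseW W L).H X →ₗ[(baseW W L).K] (baseW W L).K) :
    (f ∘ₗ epW Φ X e R b).smulRight (epW Φ X e R b x) ∈ KOp (baseW W L) X X 0 := by
  obtain ⟨f', hf'⟩ : ∃ f' : L ⊗[W.K] W.H X →ₗ[L] L, f' = f := ⟨f, rfl⟩
  obtain ⟨x', hx'⟩ : ∃ x' : L ⊗[W.K] W.H X, x' = x := ⟨x, rfl⟩
  obtain ⟨G, hG⟩ : ∃ G : L ⊗[W.K] W.H X →ₗ[L] L ⊗[W.K] W.H X,
    G = (f' ∘ₗ epV (fr Φ X) e R b).smulRight (epV (fr Φ X) e R b x') := ⟨_, rfl⟩
  have hGG : (f ∘ₗ epW Φ X e R b).smulRight (epW Φ X e R b x) = G := by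
    rw [hG, hf', hx']
    rfl
  obtain ⟨s, hs⟩ := exists_comp G
  have h4 : ∀ lam : L →ₗ[W.K] W.K, comp1 lam G ∈ KOp W X X 0 := by
    intro lam
    obtain ⟨h1, h2, h3⟩ := rk1_comp h.comm h.idem h.poly hR.2 b x' f' lam
    rw [hG]
    exact h.tate _ h1 h2 h3
  have h6 : (f ∘ₗ epW Φ X e R b).smulRight (epW Φ X e R b x) =
      ∑ i ∈ s, (show (baseW W L).K from Module.Basis.ofVectorSpace W.K L i) •
        upW L (comp1 ((Module.Basis.ofVectorSpace W.K L).coord i) G) := by
    rw [hGG]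
    exact hs
  rw [h6]
  exact Submodule.sum_mem _ (fun i _ => Submodule.smul_mem _ _ (upW_mem (h4 _)))

omit hR in
/-- The equation for the duality after extension of the coefficients. -/
lemma IsPiece.up_θ (x y : L ⊗[W.K] W.H X) :
    formBase L (W.tr X) ((fr Φ X).baseChange L (e.baseChange L x) *
      θ.baseChange L ((fr Φ X).baseChange L (e.baseChange L y))) =
      algebraMap W.K L c * formBase L (W.tr X) (e.baseChange L x *
        θ.baseChange L (e.baseChange L y)) := by
  refine tmul_induction (P := fun x => formBase L (W.tr X) ((fr Φ X).baseChange L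
    (e.baseChange L x) * θ.baseChange L ((fr Φ X).baseChange L (e.baseChange L y))) =
      algebraMap W.K L c * formBase L (W.tr X) (e.baseChange L x *
        θ.baseChange L (e.baseChange L y))) ?_ ?_ ?_ x
  · simp only [map_zero, zero_mul, mul_zero]
  · intro x x' hx hx'
    simp only [map_add, add_mul, mul_add] at hx hx' ⊢
    rw [hx, hx']
  · intro l a
    refine tmul_induction (P := fun y => formBase L (W.tr X) ((fr Φ X).baseChange L
      (e.baseChange L (l ⊗ₜ[W.K] a)) * θ.baseChange L ((fr Φ X).baseChange L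
        (e.baseChange L y))) = algebraMap W.K L c * formBase L (W.tr X)
          (e.baseChange L (l ⊗ₜ[W.K] a) * θ.baseChange L (e.baseChange L y))) ?_ ?_ ?_ y
    · simp only [map_zero, mul_zero]
    · intro y y' hy hy'
      simp only [map_add, mul_add] at hy hy' ⊢
      rw [hy, hy']
    · intro l' b
      rw [LinearMap.baseChange_tmul, LinearMap.baseChange_tmul, LinearMap.baseChange_tmul,
        LinearMap.baseChange_tmul, LinearMap.baseChange_tmul, LinearMap.baseChange_tmul,
        Algebra.TensorProduct.tmul_mul_tmul, Algebra.TensorProduct.tmul_mul_tmul,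
        formBase_tmul, formBase_tmul, h.θ_eq, map_mul]
      ring

omit hR in
/-- Nondegeneracy after extension of the coefficients. -/
lemma IsPiece.up_nondeg (x : L ⊗[W.K] W.H X)
    (hx : ∀ y, formBase L (W.tr X) (e.baseChange L x * θ.baseChange L (e.baseChange L y)) = 0) :
    e.baseChange L x = 0 := by
  apply coef_sep (K := W.K)
  intro lam
  have h1 : coef lam (e.baseChange L x) = e (coef lam x) := coef_baseChange _ _ _
  rw [h1]
  apply h.nondeg
  intro y
  have h2 : (1 : L) ⊗ₜ[W.K] (θ (e y)) =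
      θ.baseChange L (e.baseChange L ((1 : L) ⊗ₜ[W.K] y)) := by
    rw [LinearMap.baseChange_tmul, LinearMap.baseChange_tmul]
  rw [← h1, base_tr_key, h2, hx, map_zero]

/-- **Duality of the eigenspaces.** -/
theorem IsPiece.contr (b : L) :
    (h.lett hR b).Contr (h.lett hR (algebraMap W.K L c / b)) := by
  by_cases h0 : (h.lett hR b).e = 0
  · exact contr_zero h0
  obtain ⟨x, hx⟩ : ∃ x : L ⊗[W.K] W.H X, epV (fr Φ X) e R b x ≠ 0 := by
    by_contra hcon
    push Not at hcon
    exact h0 (LinearMap.ext hcon)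
  have hex : ∀ b x, e.baseChange L (epV (fr Φ X) e R b x) = epV (fr Φ X) e R b x := fun b x =>
    epV_left h.comm h.idem b x
  obtain ⟨y, hy⟩ : ∃ y, formBase L (W.tr X) (epV (fr Φ X) e R b x *
      θ.baseChange L (e.baseChange L y)) ≠ 0 := by
    by_contra hcon
    push Not at hcon
    apply hx
    rw [← hex]
    apply h.up_nondeg
    intro y
    rw [hex]
    exact hcon y
  rw [epV_sum h.poly hR.2, map_sum, Finset.mul_sum, map_sum] at hy
  obtain ⟨b', hb', hne⟩ := Finset.exists_ne_zero_of_sum_ne_zero hy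
  have hbb : b * b' = algebraMap W.K L c := by
    have h1 := h.up_θ (L := L) (epV (fr Φ X) e R b x) (epV (fr Φ X) e R b' y)
    rw [hex, hex, epV_eig h.poly hR.2, epV_eig h.poly hR.2, LinearMap.map_smul, smul_mul_assoc,
      mul_smul_comm, LinearMap.map_smul, LinearMap.map_smul, smul_eq_mul, smul_eq_mul,
      ← mul_assoc] at h1
    exact mul_right_cancel₀ hne h1
  have hb0 : b ≠ 0 := by
    rintro rfl
    rw [zero_mul] at hbb
    exact h.c_ne ((map_eq_zero _).1 hbb.symm)
  have hb'' : algebraMap W.K L c / b = b' := by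
    rw [← hbb, mul_comm, mul_div_assoc, div_self hb0, mul_one]
  rw [hb'']
  exact contr_full (A := h.lett hR b) (B := h.lett hR b') (upW_mem h.θ_mem)
    (x₀ := epW Φ X e R b x) (y₀ := epW Φ X e R b' y)
    (fun f => h.full hR b x f) (fun f => h.full hR b' y f) hne

/-- The sum of the projectors. -/
lemma IsPiece.sum_ep : upW L e = ∑ b ∈ R, epW Φ X e R b := by
  apply LinearMap.ext
  intro x
  rw [LinearMap.sum_apply]
  exact epV_sum h.poly hR.2 x

end Pool.Agent.R908
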