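import Pool.Agent.R908.Simp

/-!
# Splitting of the cohomology into good direct factors
-/

open CategoryTheory AlgebraicGeometry TensorProduct

universe u v w w'

namespace Pool.Agent.R908

open Pool.Agent.H914 Pool.Agent.H914.VarClass Pool.Agent.H914.VarClass.Obj
  Pool.Agent.H914.WeilCohomology Pool.Agent.H281R3.HT

variable {k : Type u} [Field k] {𝒱 : VarClass k} {ops : CycleOps 𝒱}
  {W : WeilCohomology.{u, v} ops} {X Y : 𝒱.Obj}

/-- The cohomology splits into the algebraic classes, by codimension, and simple subspaces of the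
transcendental cohomology, on which all operators are algebraic. -/
theorem exists_letters [IsAlgClosed W.K] (hDX : HomEqNum W X) (hC : CommCommK W X)
    (hsoc : transcendental W X ≤ ⨆ N : {N : Submodule W.K (W.H X) // SimpSt W X N}, N.1) :
    ∃ (n : ℕ) (V : Fin n → Submodule W.K (W.H X)) (e : Fin n → (W.H X →ₗ[W.K] W.H X))
      (N : Fin (X.dim + 1) → ℕ) (c c' : ∀ j : Fin (X.dim + 1), Fin (N j) → W.H X)
      (eA : Fin (X.dim + 1) → (W.H X →ₗ[W.K] W.H X)),
      (∀ i, SimpSt W X (V i)) ∧ (∀ i, e i ∈ KOp W X X 0) ∧ (∀ i, e i ∘ₗ e i = e i) ∧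
      (∀ i, ∀ v ∈ V i, ∀ f : W.H X →ₗ[W.K] W.K, (f ∘ₗ e i).smulRight v ∈ KOp W X X 0) ∧
      (∀ (j : Fin (X.dim + 1)) i, c j i ∈ spanCycles W X ((X.dim - (j : ℕ) : ℕ) : ℤ)) ∧
      (∀ j x, eA j x = ∑ i, W.tr X (c j i * x) • c' j i) ∧
      (∀ j, eA j ∈ KOp W X X 0) ∧ (∀ j, eA j ∘ₗ eA j = eA j) ∧
      (∑ j, eA j + ∑ i, e i = LinearMap.id) := by
  classical
  set T := transcendental W X with hT
  have hgr : ∀ j, Submodule.span W.K (algClasses W X j) ≤ W.gr X (2 * j) :=
    fun j => Submodule.span_le.2 (fun c hc => alg_gr hc)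
  have hTa : ∀ t ∈ T, ∀ j, ∀ a ∈ Submodule.span W.K (algClasses W X j), bil W X t a = 0 := by
    intro t ht j a ha
    induction ha using Submodule.span_induction with
    | mem c hc => exact mem_trans.1 ht j c hc
    | zero => rw [map_zero]
    | add x y _ _ hx hy => rw [map_add, hx, hy, add_zero]
    | smul r x _ hx => rw [map_smul, hx, smul_zero]
  have haT : ∀ t ∈ T, ∀ j, ∀ a ∈ Submodule.span W.K (algClasses W X j), bil W X a t = 0 := by
    intro t ht j a ha
    have h1 := hTa t ht j a ha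
    rw [bil_apply] at h1 ⊢
    rw [W.even_comm (hgr j ha)]
    exact h1
  obtain ⟨n, V, p, hVT, hVne, hpV, hpv, hp0, hpsum, hVA, hdens⟩ :=
    exists_simple_blocks (kAlg W X) T (fun a ha t ht => KOp.trans ha ht)
      (fun N : {N : Submodule W.K (W.H X) // SimpSt W X N} => N.1) (fun N => N.2.1) hsoc
      (fun N a ha x hx => N.2.2.2.1 a ha x hx)
      (fun N N' hN' hst => by
        rcases N.2.2.2.2 N' hN' hst with h | h
        · exact ⟨N.1, le_rfl, fun a ha x hx => N.2.2.2.1 a ha x hx, by rw [h, bot_inf_eq],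
            by rw [h, bot_sup_eq]⟩
        · refine ⟨⊥, bot_le, fun a _ x hx => ?_, inf_bot_eq _, by rw [h, sup_bot_eq]⟩
          rw [(Submodule.mem_bot _).1 hx, map_zero]
          exact Submodule.zero_mem _)
      (fun φ ψ h1 h2 h3 h4 => hC φ ψ ⟨h1, fun a ha t ht => h2 a ha t ht⟩
        ⟨h3, fun a ha t ht => h4 a ha t ht⟩)
  -- operators of rank one
  have hrk : ∀ i, ∀ v ∈ V i, ∀ f : W.H X →ₗ[W.K] W.K, ∃ a ∈ KOp W X X 0, ∀ t ∈ T,
      a t = f (p i t) • v := by
    intro i v hv f
    obtain ⟨a, ha, h⟩ := hdens ((f ∘ₗ p i).smulRight v) (by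
      intro j w hw
      rw [LinearMap.smulRight_apply, LinearMap.comp_apply]
      by_cases hij : i = j
      · subst hij; exact Submodule.smul_mem _ _ hv
      · rw [hp0 i j hij w hw, map_zero, zero_smul]; exact Submodule.zero_mem _)
    exact ⟨a, ha, fun t ht => by rw [h t ht]; rfl⟩
  have hsimp : ∀ i, SimpSt W X (V i) := by
    intro i
    refine ⟨hVT i, hVne i, fun ψ hψ v hv => hVA i ψ hψ v hv, fun N' hN' hst => ?_⟩
    by_cases h : N' = ⊥
    · exact Or.inl h
    · right
      obtain ⟨v₀, hv₀, hne⟩ := Submodule.exists_mem_ne_zero_of_ne_bot h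
      obtain ⟨f, hf⟩ := Module.Projective.exists_dual_eq_one W.K hne
      refine le_antisymm hN' (fun v hv => ?_)
      obtain ⟨a, ha, h1⟩ := hrk i v hv f
      have h2 := h1 v₀ (hVT i (hN' hv₀))
      rw [hpv i v₀ (hN' hv₀), hf, one_smul] at h2
      rw [← h2]
      exact hst a ha _ hv₀
  have hpalg : ∀ i, ∃ a ∈ KOp W X X 0, ∀ t ∈ T, a t = p i t := by
    intro i
    apply hdens (p i)
    intro j v hv
    by_cases hij : i = j
    · subst hij; rw [hpv i v hv]; exact hv
    · rw [hp0 i j hij v hv]; exact Submodule.zero_mem _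
  choose a ha hap using hpalg
  -- the projectors to the algebraic part
  have hspan' : ∀ j ≤ X.dim, ∀ u ∈ Submodule.span W.K (algClasses W X (X.dim - j)),
      (∀ x ∈ Submodule.span W.K (algClasses W X j), bil W X u x = 0) → u = 0 := by
    intro j hj u hu h0
    apply span_nondeg hDX (show X.dim - j ≤ X.dim by omega) hu
    intro y hy
    rw [show X.dim - (X.dim - j) = j by omega] at hy
    have h1 := h0 y (Submodule.subset_span hy)
    rw [bil_apply] at h1 ⊢
    rw [alg_even_comm hy]
    exact h1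
  choose N c c' hc hc' hcc hu hu' using fun j : Fin (X.dim + 1) =>
    exists_dual_families (bil W X) (Submodule.span W.K (algClasses W X (X.dim - j)))
      (Submodule.span W.K (algClasses W X j))
      (hspan' j (by omega))
      (fun x hx h0 => span_nondeg hDX (by omega) hx
        (fun y hy => h0 y (Submodule.subset_span hy)))
  set eA : Fin (X.dim + 1) → (W.H X →ₗ[W.K] W.H X) := fun j =>
    ∑ i, (bil W X (c j i)).smulRight (c' j i) with heA
  have heAa : ∀ j z, eA j z = ∑ i, bil W X (c j i) z • c' j i := by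
    intro j z
    rw [heA]
    beta_reduce
    rw [LinearMap.sum_apply]
    rfl
  have heAm : ∀ j, eA j ∈ KOp W X X 0 := by
    intro j
    rw [heA]
    refine Submodule.sum_mem _ (fun i _ => ?_)
    exact rk_span (hc' j i) (hc j i) (by
      have := j.2
      omega)
  have heAx : ∀ (j : Fin (X.dim + 1)) z, eA j z ∈ Submodule.span W.K (algClasses W X (j : ℕ)) := by
    intro j z
    rw [heAa]
    exact Submodule.sum_mem _ (fun i _ => Submodule.smul_mem _ _ (hc' j i))
  have heAb : ∀ j : Fin (X.dim + 1), ∀ x ∈ Submodule.span W.K (algClasses W X (j : ℕ)), eA j x = x := by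
    intro j x hx
    rw [heAa]
    exact (hu' j x hx).symm
  have heA0 : ∀ j j' : Fin (X.dim + 1), j ≠ j' → ∀ x ∈ Submodule.span W.K (algClasses W X (j' : ℕ)), eA j x = 0 := by
    intro j j' hjj x hx
    rw [heAa]
    apply Finset.sum_eq_zero
    intro i _
    rw [bil_eq_zero (hgr _ (hc j i)) (hgr _ hx), zero_smul]
    intro h
    apply hjj
    apply Fin.ext
    have := j.2
    have := j'.2
    omega
  have heAT : ∀ j, ∀ t ∈ T, eA j t = 0 := by
    intro j t ht
    rw [heAa]
    apply Finset.sum_eq_zero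
    intro i _
    rw [haT t ht _ _ (hc j i), zero_smul]
  have hbil : ∀ j : Fin (X.dim + 1), ∀ y ∈ Submodule.span W.K (algClasses W X (X.dim - j)), ∀ z,
      bil W X y (eA j z) = bil W X y z := by
    intro j y hy z
    rw [heAa, map_sum]
    conv_rhs => rw [hu j y hy]
    rw [map_sum, LinearMap.sum_apply]
    apply Finset.sum_congr rfl
    intro i _
    rw [map_smul, map_smul, LinearMap.smul_apply, smul_eq_mul, smul_eq_mul, mul_comm]
  have hcompl : ∀ z, z - ∑ j, eA j z ∈ T := by
    intro z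
    rw [mem_trans]
    intro l b hb
    by_cases hl : l ≤ X.dim
    · have hb' : b ∈ Submodule.span W.K (algClasses W X (X.dim - (X.dim - l))) := by
        rw [show X.dim - (X.dim - l) = l by omega]
        exact Submodule.subset_span hb
      have h1 := hbil ⟨X.dim - l, by omega⟩ b hb' z
      rw [bil_apply, ← alg_even_comm hb, ← bil_apply, map_sub, map_sum,
        Finset.sum_eq_single (⟨X.dim - l, by omega⟩ : Fin (X.dim + 1)), h1, sub_self]
      · intro j _ hj
        apply bil_eq_zero (alg_gr hb) (hgr _ (heAx j z))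
        intro h2
        apply hj
        apply Fin.ext
        change (j : ℕ) = X.dim - l
        omega
      · intro h0; exact absurd (Finset.mem_univ _) h0
    · have h1 := alg_gr hb
      rw [W.gr_eq_bot X _ (by omega), Submodule.mem_bot] at h1
      rw [h1, map_zero]
  set eT : W.H X →ₗ[W.K] W.H X := LinearMap.id - ∑ j, eA j with heT
  have heTz : ∀ z, eT z = z - ∑ j, eA j z := by
    intro z
    rw [heT, LinearMap.sub_apply, LinearMap.sum_apply, LinearMap.id_apply]
  have heTT : ∀ z, eT z ∈ T := fun z => by rw [heTz]; exact hcompl z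
  have heTt : ∀ t ∈ T, eT t = t := by
    intro t ht
    rw [heTz, Finset.sum_eq_zero (fun j _ => heAT j t ht), sub_zero]
  have heTm : eT ∈ KOp W X X 0 :=
    Submodule.sub_mem _ (KOp.id X) (Submodule.sum_mem _ (fun j _ => heAm j))
  refine ⟨n, V, fun i => a i ∘ₗ eT, N, c, c', eA, hsimp, ?_, ?_, ?_, ?_, heAa, heAm, ?_, ?_⟩
  · intro i
    exact KOp.cast (KOp.comp (ha i) heTm) (add_zero 0)
  · intro i
    apply LinearMap.ext
    intro z
    rw [LinearMap.comp_apply, LinearMap.comp_apply, LinearMap.comp_apply, hap i _ (heTT z),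
      heTt _ (hVT i (hpV i _ (heTT z))), hap i _ (hVT i (hpV i _ (heTT z))),
      hpv i _ (hpV i _ (heTT z))]
  · intro i v hv f
    obtain ⟨b, hb, h1⟩ := hrk i v hv f
    have h2 : (f ∘ₗ (a i ∘ₗ eT)).smulRight v = b ∘ₗ eT := by
      apply LinearMap.ext
      intro z
      rw [LinearMap.smulRight_apply, LinearMap.comp_apply, LinearMap.comp_apply,
        hap i _ (heTT z), LinearMap.comp_apply, h1 _ (heTT z)]
    rw [h2]
    exact KOp.cast (KOp.comp hb heTm) (add_zero 0)
  · intro j i
    refine Submodule.span_mono ?_ (hc j i)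
    rintro x ⟨z, hz, rfl⟩
    exact ⟨X.dim - j, rfl, z, hz, rfl⟩
  · intro j
    apply LinearMap.ext
    intro z
    rw [LinearMap.comp_apply, heAb j _ (heAx j z)]
  · apply LinearMap.ext
    intro z
    rw [LinearMap.add_apply, LinearMap.sum_apply, LinearMap.sum_apply, LinearMap.id_apply]
    have h1 : ∑ i, (a i ∘ₗ eT) z = eT z := by
      rw [← hpsum _ (heTT z)]
      conv_rhs => rw [hpsum _ (heTT z)]
      have h2 : ∀ i, (a i ∘ₗ eT) z = p i (eT z) := fun i => hap i _ (heTT z)
      rw [Finset.sum_congr rfl (fun i _ => h2 i), hpsum _ (heTT z)]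
    rw [h1, heTz, add_sub_cancel]

/-- **Splitting of the cohomology.** -/
theorem splits_of_simple [IsAlgClosed W.K] {Γ : Type w} [Group Γ] (S : SemiAct Γ W)
    (hDX : HomEqNum W X) (hC : CommCommK W X)
    (hsoc : transcendental W X ≤ ⨆ N : {N : Submodule W.K (W.H X) // SimpSt W X N}, N.1)
    (hfin : ∀ A : Mot W, {m : Mon W | ∃ g, m = ((S.act g).mot A).m}.Finite)
    (hpair : ∀ N, SimpSt W X N → ∃ (g : Γ) (δ : ℤ), ∃ θ ∈ KOp W X X δ, ∃ x ∈ N, ∃ y ∈ N,
      W.tr X (x * θ ((S.act g).σ X y)) ≠ 0) : Splits S X := by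
  classical
  obtain ⟨n, V, e, N, c, c', eA, hV, hem, hei, hes, hc, heAa, heAm, heAi, hsum⟩ :=
    exists_letters hDX hC hsoc
  refine ⟨Fin (X.dim + 1) ⊕ Fin n, inferInstance, Sum.elim eA e, ?_, ?_⟩
  · rw [Fintype.sum_sum_type]
    exact hsum
  · rintro (j | i)
    · refine ⟨heAm j, heAi j, hfin _, 1, ?_⟩
      rw [S.mot_one]
      exact contr_alg (A := Mot.mk X (eA j) (heAm j) (heAi j)) (hc j) (heAa j)
    · refine ⟨hem i, hei i, hfin _, ?_⟩
      obtain ⟨g, δ, θ, hθ, x, hx, y, hy, hxy⟩ := hpair (V i) (hV i)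
      exact ⟨g, contr_trans (A := Mot.mk X (e i) (hem i) (hei i)) (S.act g) hθ
        (fun f => hes i x hx f) (fun f => hes i y hy f) hxy⟩

end Pool.Agent.R908
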